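import Pool.Agent.Lib.EPX.CertS
import Pool.Agent.Lib.EPL.TopL
import Pool.Agent.Lib.EPL.BcF
import Pool.Agent.Lib.EPB.Bco
import Pool.Agent.Lib.EPB.Ridge
import Pool.Agent.Lib.EPT.Slem

/-!
# EPX.BlkX: the building blocks of the classification from the certificates

`blocks_of`: all the fields of `EPL.Blocks`, from the soundness of the X-leaves and the certificates
of the six root cones. `local_minima_of`: the classification of the local minima.
-/

open Matrix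
open scoped Matrix.Norms.Elementwise

namespace Pool.Agent.Lib.EPX

open Pool.Agent.Lib.EpZ Pool.Agent.Lib.EPL Pool.Agent.Lib.EPS Pool.Agent.Lib.EPT Pool.Agent.Lib.FCC

theorem blocks_of (hX : XL) (c0 : Cert rt0.cn) (c1 : Cert rt1.cn) (c2 : Cert rt2.cn)
    (c3 : Cert rt3.cn) (c4 : Cert rt4.cn) (c5 : Cert rt5.cn) :
    ∃ s0 : ℝ, 3 ≤ s0 ∧ s0 ≤ 4 ∧ Blocks SReg s0 := by
  obtain ⟨s0, h3, h4, hb⟩ := bcc_field
  refine ⟨s0, h3, h4, ?_, ?_, ?_, ?_, ?_, hb⟩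
  · intro l h0 h1 h3 h4 h5 hd s hs hm
    exact tree_of_certs hX c0 c1 c2 c3 c4 c5 l h0 h1 h3 h4 h5 hd s hs hm
  · exact slem
  · exact EPB.bco_field
  · intro p q hp hpq s hs
    exact EPC.seg_formOf hp hpq hs
  · intro p q hq hqp hr s hs
    refine EPB.ridge_field p q hq hqp ?_ s hs
    have h : 8 * (p + p) ≤ 5 * (q + q + p + p + q + q) := hr.d1 1
    linarith

/-- the classification of the local minima, given that the face-centred cubic lattice is a global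
minimum -/
theorem local_minima_of (hX : XL) (c0 : Cert rt0.cn) (c1 : Cert rt1.cn) (c2 : Cert rt2.cn)
    (c3 : Cert rt3.cn) (c4 : Cert rt4.cn) (c5 : Cert rt5.cn)
    (hglob : ∀ s : ℝ, 3 / 2 < s → IsGlobalMinimum fcc s) :
    ∃ s0 : ℝ, 3 ≤ s0 ∧ s0 ≤ 4 ∧ ∀ s : ℝ, 3 / 2 < s → ∀ Λ : Set (EuclideanSpace ℝ (Fin 3)),
      IsLocalMinimum Λ s ↔ IsUnitLattice Λ ∧ (Isometric Λ fcc ∨ (s < s0 ∧ Isometric Λ EPL.bcc)) := by
  obtain ⟨s0, h3, h4, hb⟩ := blocks_of hX c0 c1 c2 c3 c4 c5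
  exact ⟨s0, h3, h4, fun s hs Λ => classify hb hs (hglob s hs) Λ⟩

end Pool.Agent.Lib.EPX
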