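import Pool.Agent.Lib.EPX.TabX

/-!
# EPX.BoxX: the boxes (generated)

`boxD`: the vectors `x ≠ 0` with `|x_i| ≤ 5`, `|x_i - x_j| ≤ 5`; `boxE`: the vectors `y ≠ 0` with `|y_i| ≤ 5`,
`|y_i + y_j| ≤ 5`, `|y_1 + y_2 + y_3| ≤ 5`; one of `x`, `-x` each.

`Vx`: the six squares `(x-y)^2, z^2, (x-z)^2, y^2, x^2, (y-z)^2`, their sum `n`, the bit mask `zk`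
(bit `i` is set iff the vector is orthogonal to the direction number `i < 13` of `TW`), and the
coordinates plus 5.
-/

namespace Pool.Agent.Lib.EPX

/-- a vector of a box -/
structure Vx where
  c0 : Nat
  c1 : Nat
  c2 : Nat
  c3 : Nat
  c4 : Nat
  c5 : Nat
  n : Nat
  zk : Nat
  x1 : Nat
  x2 : Nat
  x3 : Nat

/-- lists of vectors -/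
inductive Lst
  | nil
  | cons (v : Vx) (t : Lst)


set_option maxRecDepth 100000 in
/-- the box of the direct side -/
def boxD : Lst :=
  .cons ⟨0,1,1,0,0,1,3,2340,5,5,6⟩ <|
  .cons ⟨1,0,0,1,0,1,3,897,5,6,5⟩ <|
  .cons ⟨1,0,1,0,1,0,3,15,6,5,5⟩ <|
  .cons ⟨0,1,0,1,1,0,3,162,6,6,6⟩ <|
  .cons ⟨1,1,1,1,0,0,4,1346,5,6,6⟩ <|
  .cons ⟨1,1,0,0,1,1,4,1172,6,5,6⟩ <|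
  .cons ⟨0,0,1,1,1,1,4,113,6,6,5⟩ <|
  .cons ⟨1,1,1,1,0,4,8,4376,5,6,4⟩ <|
  .cons ⟨4,0,1,1,1,1,8,7169,6,4,5⟩ <|
  .cons ⟨1,1,4,0,1,1,8,4676,6,5,4⟩ <|
  .cons ⟨0,4,1,1,1,1,8,1056,6,6,7⟩ <|
  .cons ⟨1,1,0,4,1,1,8,192,6,7,6⟩ <|
  .cons ⟨1,1,1,1,4,0,8,18,7,6,6⟩ <|
  .cons ⟨1,4,4,1,0,1,11,256,5,6,7⟩ <|
  .cons ⟨4,1,1,4,0,1,11,256,5,7,6⟩ <|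
  .cons ⟨4,1,4,1,1,0,11,2562,6,4,4⟩ <|
  .cons ⟨4,1,0,1,1,4,11,2184,6,4,6⟩ <|
  .cons ⟨1,4,1,0,1,4,11,4,6,5,7⟩ <|
  .cons ⟨0,1,4,1,1,4,11,552,6,6,4⟩ <|
  .cons ⟨1,0,1,4,1,4,11,1,6,7,5⟩ <|
  .cons ⟨1,4,1,4,1,0,11,2,6,7,7⟩ <|
  .cons ⟨4,1,1,0,4,1,11,4,7,5,6⟩ <|
  .cons ⟨1,0,4,1,4,1,11,1,7,6,5⟩ <|
  .cons ⟨1,4,0,1,4,1,11,128,7,6,7⟩ <|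
  .cons ⟨0,1,1,4,4,1,11,32,7,7,6⟩ <|
  .cons ⟨0,4,4,0,0,4,12,2340,5,5,7⟩ <|
  .cons ⟨4,0,0,4,0,4,12,897,5,7,5⟩ <|
  .cons ⟨4,0,4,0,4,0,12,15,7,5,5⟩ <|
  .cons ⟨0,4,0,4,4,0,12,162,7,7,7⟩ <|
  .cons ⟨4,4,4,4,0,0,16,1346,5,7,7⟩ <|
  .cons ⟨4,4,0,0,4,4,16,1172,7,5,7⟩ <|
  .cons ⟨0,0,4,4,4,4,16,113,7,7,5⟩ <|
  .cons ⟨1,4,4,1,0,9,19,256,5,6,3⟩ <|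
  .cons ⟨4,1,1,4,0,9,19,256,5,7,4⟩ <|
  .cons ⟨9,0,1,4,1,4,19,1,6,3,5⟩ <|
  .cons ⟨1,4,9,0,1,4,19,4,6,5,3⟩ <|
  .cons ⟨0,9,4,1,1,4,19,32,6,6,8⟩ <|
  .cons ⟨4,1,0,9,1,4,19,128,6,8,6⟩ <|
  .cons ⟨9,0,4,1,4,1,19,1,7,4,5⟩ <|
  .cons ⟨4,1,9,0,4,1,19,4,7,5,4⟩ <|
  .cons ⟨0,9,1,4,4,1,19,32,7,7,8⟩ <|
  .cons ⟨1,4,0,9,4,1,19,128,7,8,7⟩ <|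
  .cons ⟨4,1,4,1,9,0,19,2,8,6,6⟩ <|
  .cons ⟨1,4,1,4,9,0,19,2,8,7,7⟩ <|
  .cons ⟨9,1,4,4,1,1,20,1536,6,3,4⟩ <|
  .cons ⟨4,4,9,1,1,1,20,2112,6,4,3⟩ <|
  .cons ⟨4,4,1,1,1,9,20,2064,6,4,7⟩ <|
  .cons ⟨1,1,4,4,1,9,20,528,6,7,4⟩ <|
  .cons ⟨1,9,4,4,1,1,20,1024,6,7,8⟩ <|
  .cons ⟨4,4,1,9,1,1,20,64,6,8,7⟩ <|
  .cons ⟨9,1,1,1,4,4,20,1032,7,4,6⟩ <|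
  .cons ⟨1,1,9,1,4,4,20,72,7,6,4⟩ <|
  .cons ⟨1,9,1,1,4,4,20,1024,7,6,8⟩ <|
  .cons ⟨1,1,1,9,4,4,20,64,7,8,6⟩ <|
  .cons ⟨4,4,1,1,9,1,20,16,8,6,7⟩ <|
  .cons ⟨1,1,4,4,9,1,20,16,8,7,6⟩ <|
  .cons ⟨1,9,9,1,0,4,24,256,5,6,8⟩ <|
  .cons ⟨9,1,1,9,0,4,24,256,5,8,6⟩ <|
  .cons ⟨9,1,0,4,1,9,24,4224,6,3,6⟩ <|
  .cons ⟨1,9,4,0,1,9,24,4,6,5,8⟩ <|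
  .cons ⟨0,4,9,1,1,9,24,4128,6,6,3⟩ <|
  .cons ⟨4,0,1,9,1,9,24,1,6,8,5⟩ <|
  .cons ⟨9,1,9,1,4,0,24,4098,7,4,4⟩ <|
  .cons ⟨1,9,1,9,4,0,24,2,7,8,8⟩ <|
  .cons ⟨9,1,4,0,9,1,24,4,8,5,6⟩ <|
  .cons ⟨4,0,9,1,9,1,24,1,8,6,5⟩ <|
  .cons ⟨1,9,0,4,9,1,24,128,8,7,8⟩ <|
  .cons ⟨0,4,1,9,9,1,24,32,8,8,7⟩ <|
  .cons ⟨0,9,9,0,0,9,27,2340,5,5,8⟩ <|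
  .cons ⟨4,9,9,4,0,1,27,256,5,7,8⟩ <|
  .cons ⟨9,0,0,9,0,9,27,897,5,8,5⟩ <|
  .cons ⟨9,4,4,9,0,1,27,256,5,8,7⟩ <|
  .cons ⟨9,4,9,4,1,0,27,2,6,3,3⟩ <|
  .cons ⟨4,9,4,9,1,0,27,2,6,8,8⟩ <|
  .cons ⟨9,4,0,1,4,9,27,128,7,4,7⟩ <|
  .cons ⟨4,9,1,0,4,9,27,4,7,5,8⟩ <|
  .cons ⟨0,1,9,4,4,9,27,32,7,7,4⟩ <|
  .cons ⟨1,0,4,9,4,9,27,1,7,8,5⟩ <|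
  .cons ⟨9,0,9,0,9,0,27,15,8,5,5⟩ <|
  .cons ⟨9,4,1,0,9,4,27,4,8,5,7⟩ <|
  .cons ⟨4,9,0,1,9,4,27,128,8,6,8⟩ <|
  .cons ⟨1,0,9,4,9,4,27,1,8,7,5⟩ <|
  .cons ⟨0,1,4,9,9,4,27,32,8,8,6⟩ <|
  .cons ⟨0,9,0,9,9,0,27,162,8,8,8⟩ <|
  .cons ⟨4,4,4,4,0,16,32,4376,5,7,3⟩ <|
  .cons ⟨16,0,4,4,4,4,32,7169,7,3,5⟩ <|
  .cons ⟨4,4,16,0,4,4,32,4676,7,5,3⟩ <|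
  .cons ⟨0,16,4,4,4,4,32,1056,7,7,9⟩ <|
  .cons ⟨4,4,0,16,4,4,32,192,7,9,7⟩ <|
  .cons ⟨4,4,4,4,16,0,32,18,9,7,7⟩ <|
  .cons ⟨16,1,4,9,1,4,35,512,6,2,4⟩ <|
  .cons ⟨9,4,1,4,1,16,35,8,6,3,7⟩ <|
  .cons ⟨4,9,16,1,1,4,35,2048,6,4,2⟩ <|
  .cons ⟨4,9,4,1,1,16,35,2048,6,4,8⟩ <|
  .cons ⟨1,4,9,4,1,16,35,8,6,7,3⟩ <|
  .cons ⟨1,16,9,4,1,4,35,0,6,7,9⟩ <|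
  .cons ⟨4,1,4,9,1,16,35,512,6,8,4⟩ <|
  .cons ⟨9,4,1,16,1,4,35,0,6,9,7⟩ <|
  .cons ⟨16,1,9,4,4,1,35,2048,7,3,4⟩ <|
  .cons ⟨16,1,1,4,4,9,35,2048,7,3,6⟩ <|
  .cons ⟨9,4,16,1,4,1,35,512,7,4,3⟩ <|
  .cons ⟨1,4,16,1,4,9,35,512,7,6,3⟩ <|
  .cons ⟨1,16,4,1,4,9,35,0,7,6,9⟩ <|
  .cons ⟨1,16,4,9,4,1,35,0,7,8,9⟩ <|
  .cons ⟨4,1,1,16,4,9,35,0,7,9,6⟩ <|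
  .cons ⟨4,9,1,16,4,1,35,0,7,9,8⟩ <|
  .cons ⟨16,1,4,1,9,4,35,8,8,4,6⟩ <|
  .cons ⟨4,1,16,1,9,4,35,8,8,6,4⟩ <|
  .cons ⟨1,16,1,4,9,4,35,0,8,7,9⟩ <|
  .cons ⟨1,4,1,16,9,4,35,0,8,9,7⟩ <|
  .cons ⟨9,4,4,1,16,1,35,0,9,6,7⟩ <|
  .cons ⟨4,1,9,4,16,1,35,0,9,7,6⟩ <|
  .cons ⟨4,9,1,4,16,1,35,0,9,7,8⟩ <|
  .cons ⟨1,4,4,9,16,1,35,0,9,8,7⟩ <|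
  .cons ⟨1,9,9,1,0,16,36,256,5,6,2⟩ <|
  .cons ⟨9,1,1,9,0,16,36,256,5,8,4⟩ <|
  .cons ⟨9,9,9,9,0,0,36,1346,5,8,8⟩ <|
  .cons ⟨16,0,1,9,1,9,36,1,6,2,5⟩ <|
  .cons ⟨1,9,16,0,1,9,36,4,6,5,2⟩ <|
  .cons ⟨0,16,9,1,1,9,36,32,6,6,9⟩ <|
  .cons ⟨9,1,0,16,1,9,36,128,6,9,6⟩ <|
  .cons ⟨16,0,9,1,9,1,36,1,8,4,5⟩ <|
  .cons ⟨9,1,16,0,9,1,36,4,8,5,4⟩ <|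
  .cons ⟨9,9,0,0,9,9,36,1172,8,5,8⟩ <|
  .cons ⟨0,0,9,9,9,9,36,113,8,8,5⟩ <|
  .cons ⟨0,16,1,9,9,1,36,32,8,8,9⟩ <|
  .cons ⟨1,9,0,16,9,1,36,128,8,9,8⟩ <|
  .cons ⟨9,1,9,1,16,0,36,2,9,6,6⟩ <|
  .cons ⟨1,9,1,9,16,0,36,2,9,8,8⟩ <|
  .cons ⟨16,4,9,9,1,1,40,1024,6,2,3⟩ <|
  .cons ⟨9,9,16,4,1,1,40,64,6,3,2⟩ <|
  .cons ⟨4,16,9,9,1,1,40,1024,6,8,9⟩ <|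
  .cons ⟨9,9,4,16,1,1,40,64,6,9,8⟩ <|
  .cons ⟨9,9,1,1,4,16,40,16,7,4,8⟩ <|
  .cons ⟨1,1,9,9,4,16,40,16,7,8,4⟩ <|
  .cons ⟨16,4,1,1,9,9,40,1024,8,4,7⟩ <|
  .cons ⟨4,16,1,1,9,9,40,1024,8,6,9⟩ <|
  .cons ⟨1,1,16,4,9,9,40,64,8,7,4⟩ <|
  .cons ⟨1,1,4,16,9,9,40,64,8,9,6⟩ <|
  .cons ⟨9,9,1,1,16,4,40,16,9,6,8⟩ <|
  .cons ⟨1,1,9,9,16,4,40,16,9,8,6⟩ <|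
  .cons ⟨1,16,16,1,0,9,43,256,5,6,9⟩ <|
  .cons ⟨16,1,1,16,0,9,43,256,5,9,6⟩ <|
  .cons ⟨16,1,0,9,1,16,43,128,6,2,6⟩ <|
  .cons ⟨1,16,9,0,1,16,43,4,6,5,9⟩ <|
  .cons ⟨0,9,16,1,1,16,43,32,6,6,2⟩ <|
  .cons ⟨9,0,1,16,1,16,43,1,6,9,5⟩ <|
  .cons ⟨16,1,16,1,9,0,43,2,8,4,4⟩ <|
  .cons ⟨1,16,1,16,9,0,43,2,8,9,9⟩ <|
  .cons ⟨16,1,9,0,16,1,43,4,9,5,6⟩ <|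
  .cons ⟨9,0,16,1,16,1,43,1,9,6,5⟩ <|
  .cons ⟨1,16,0,9,16,1,43,128,9,8,9⟩ <|
  .cons ⟨0,9,1,16,16,1,43,32,9,9,8⟩ <|
  .cons ⟨4,16,16,4,0,4,44,256,5,7,9⟩ <|
  .cons ⟨16,4,4,16,0,4,44,256,5,9,7⟩ <|
  .cons ⟨16,4,16,4,4,0,44,2562,7,3,3⟩ <|
  .cons ⟨16,4,0,4,4,16,44,2184,7,3,7⟩ <|
  .cons ⟨4,16,4,0,4,16,44,4,7,5,9⟩ <|
  .cons ⟨0,4,16,4,4,16,44,552,7,7,3⟩ <|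
  .cons ⟨4,0,4,16,4,16,44,1,7,9,5⟩ <|
  .cons ⟨4,16,4,16,4,0,44,2,7,9,9⟩ <|
  .cons ⟨16,4,4,0,16,4,44,4,9,5,7⟩ <|
  .cons ⟨4,0,16,4,16,4,44,1,9,7,5⟩ <|
  .cons ⟨4,16,0,4,16,4,44,128,9,7,9⟩ <|
  .cons ⟨0,4,4,16,16,4,44,32,9,9,7⟩ <|
  .cons ⟨0,16,16,0,0,16,48,2340,5,5,9⟩ <|
  .cons ⟨16,0,0,16,0,16,48,897,5,9,5⟩ <|
  .cons ⟨16,0,16,0,16,0,48,15,9,5,5⟩ <|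
  .cons ⟨0,16,0,16,16,0,48,162,9,9,9⟩ <|
  .cons ⟨4,9,9,4,0,25,51,256,5,7,2⟩ <|
  .cons ⟨9,4,4,9,0,25,51,256,5,8,3⟩ <|
  .cons ⟨9,16,16,9,0,1,51,256,5,8,9⟩ <|
  .cons ⟨16,9,9,16,0,1,51,256,5,9,8⟩ <|
  .cons ⟨16,9,16,9,1,0,51,2,6,2,2⟩ <|
  .cons ⟨9,16,9,16,1,0,51,2,6,9,9⟩ <|
  .cons ⟨25,0,4,9,4,9,51,1,7,2,5⟩ <|
  .cons ⟨4,9,25,0,4,9,51,4,7,5,2⟩ <|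
  .cons ⟨0,25,9,4,4,9,51,32,7,7,10⟩ <|
  .cons ⟨9,4,0,25,4,9,51,128,7,10,7⟩ <|
  .cons ⟨25,0,9,4,9,4,51,1,8,3,5⟩ <|
  .cons ⟨16,9,0,1,9,16,51,128,8,4,8⟩ <|
  .cons ⟨9,4,25,0,9,4,51,4,8,5,3⟩ <|
  .cons ⟨9,16,1,0,9,16,51,4,8,5,9⟩ <|
  .cons ⟨0,1,16,9,9,16,51,32,8,8,4⟩ <|
  .cons ⟨0,25,4,9,9,4,51,32,8,8,10⟩ <|
  .cons ⟨1,0,9,16,9,16,51,1,8,9,5⟩ <|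
  .cons ⟨4,9,0,25,9,4,51,128,8,10,8⟩ <|
  .cons ⟨16,9,1,0,16,9,51,4,9,5,8⟩ <|
  .cons ⟨9,16,0,1,16,9,51,128,9,6,9⟩ <|
  .cons ⟨1,0,16,9,16,9,51,1,9,8,5⟩ <|
  .cons ⟨0,1,9,16,16,9,51,32,9,9,6⟩ <|
  .cons ⟨9,4,9,4,25,0,51,2,10,7,7⟩ <|
  .cons ⟨4,9,4,9,25,0,51,2,10,8,8⟩ <|
  .cons ⟨9,9,4,4,1,25,52,16,6,3,8⟩ <|
  .cons ⟨4,4,9,9,1,25,52,16,6,8,3⟩ <|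
  .cons ⟨25,1,9,9,4,4,52,1024,7,2,4⟩ <|
  .cons ⟨9,9,25,1,4,4,52,64,7,4,2⟩ <|
  .cons ⟨1,25,9,9,4,4,52,1024,7,8,10⟩ <|
  .cons ⟨9,9,1,25,4,4,52,64,7,10,8⟩ <|
  .cons ⟨25,1,4,4,9,9,52,1024,8,3,6⟩ <|
  .cons ⟨4,4,25,1,9,9,52,64,8,6,3⟩ <|
  .cons ⟨1,25,4,4,9,9,52,1024,8,7,10⟩ <|
  .cons ⟨4,4,1,25,9,9,52,64,8,10,7⟩ <|
  .cons ⟨9,9,4,4,25,1,52,16,10,7,8⟩ <|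
  .cons ⟨4,4,9,9,25,1,52,16,10,8,7⟩ <|
  .cons ⟨25,1,4,16,1,9,56,512,6,1,4⟩ <|
  .cons ⟨16,4,1,9,1,25,56,4096,6,2,7⟩ <|
  .cons ⟨4,16,25,1,1,9,56,2048,6,4,1⟩ <|
  .cons ⟨4,16,9,1,1,25,56,2048,6,4,9⟩ <|
  .cons ⟨1,9,16,4,1,25,56,4096,6,7,2⟩ <|
  .cons ⟨1,25,16,4,1,9,56,0,6,7,10⟩ <|
  .cons ⟨9,1,4,16,1,25,56,512,6,9,4⟩ <|
  .cons ⟨16,4,1,25,1,9,56,0,6,10,7⟩ <|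
  .cons ⟨25,1,1,9,4,16,56,4096,7,2,6⟩ <|
  .cons ⟨1,9,25,1,4,16,56,4096,7,6,2⟩ <|
  .cons ⟨1,25,9,1,4,16,56,0,7,6,10⟩ <|
  .cons ⟨9,1,1,25,4,16,56,0,7,10,6⟩ <|
  .cons ⟨25,1,16,4,9,1,56,4096,8,3,4⟩ <|
  .cons ⟨16,4,25,1,9,1,56,4096,8,4,3⟩ <|
  .cons ⟨1,25,4,16,9,1,56,0,8,9,10⟩ <|
  .cons ⟨4,16,1,25,9,1,56,0,8,10,9⟩ <|
  .cons ⟨25,1,9,1,16,4,56,8,9,4,6⟩ <|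
  .cons ⟨9,1,25,1,16,4,56,8,9,6,4⟩ <|
  .cons ⟨1,25,1,9,16,4,56,0,9,8,10⟩ <|
  .cons ⟨1,9,1,25,16,4,56,0,9,10,8⟩ <|
  .cons ⟨16,4,9,1,25,1,56,0,10,6,7⟩ <|
  .cons ⟨9,1,16,4,25,1,56,0,10,7,6⟩ <|
  .cons ⟨4,16,1,9,25,1,56,0,10,8,9⟩ <|
  .cons ⟨1,9,4,16,25,1,56,0,10,9,8⟩ <|
  .cons ⟨1,16,16,1,0,25,59,256,5,6,1⟩ <|
  .cons ⟨16,1,1,16,0,25,59,256,5,9,4⟩ <|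
  .cons ⟨25,4,9,16,1,4,59,0,6,1,3⟩ <|
  .cons ⟨25,0,1,16,1,16,59,1,6,1,5⟩ <|
  .cons ⟨9,16,25,4,1,4,59,0,6,3,1⟩ <|
  .cons ⟨1,16,25,0,1,16,59,4,6,5,1⟩ <|
  .cons ⟨0,25,16,1,1,16,59,32,6,6,10⟩ <|
  .cons ⟨4,25,16,9,1,4,59,0,6,8,10⟩ <|
  .cons ⟨16,1,0,25,1,16,59,128,6,10,6⟩ <|
  .cons ⟨16,9,4,25,1,4,59,0,6,10,8⟩ <|
  .cons ⟨25,4,16,9,4,1,59,512,7,2,3⟩ <|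
  .cons ⟨16,9,25,4,4,1,59,2048,7,3,2⟩ <|
  .cons ⟨16,9,1,4,4,25,59,2048,7,3,8⟩ <|
  .cons ⟨9,16,4,1,4,25,59,0,7,4,9⟩ <|
  .cons ⟨1,4,16,9,4,25,59,512,7,8,3⟩ <|
  .cons ⟨4,1,9,16,4,25,59,0,7,9,4⟩ <|
  .cons ⟨4,25,9,16,4,1,59,0,7,9,10⟩ <|
  .cons ⟨9,16,4,25,4,1,59,0,7,10,9⟩ <|
  .cons ⟨25,4,1,4,9,16,59,8,8,3,7⟩ <|
  .cons ⟨4,25,4,1,9,16,59,0,8,6,10⟩ <|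
  .cons ⟨1,4,25,4,9,16,59,8,8,7,3⟩ <|
  .cons ⟨4,1,4,25,9,16,59,0,8,10,6⟩ <|
  .cons ⟨25,0,16,1,16,1,59,1,9,4,5⟩ <|
  .cons ⟨25,4,4,1,16,9,59,0,9,4,7⟩ <|
  .cons ⟨16,1,25,0,16,1,59,4,9,5,4⟩ <|
  .cons ⟨4,1,25,4,16,9,59,0,9,7,4⟩ <|
  .cons ⟨4,25,1,4,16,9,59,0,9,7,10⟩ <|
  .cons ⟨0,25,1,16,16,1,59,32,9,9,10⟩ <|
  .cons ⟨1,4,4,25,16,9,59,0,9,10,7⟩ <|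
  .cons ⟨1,16,0,25,16,1,59,128,9,10,9⟩ <|
  .cons ⟨16,1,16,1,25,0,59,2,10,6,6⟩ <|
  .cons ⟨16,9,4,1,25,4,59,0,10,6,8⟩ <|
  .cons ⟨9,16,1,4,25,4,59,0,10,7,9⟩ <|
  .cons ⟨4,1,16,9,25,4,59,0,10,8,6⟩ <|
  .cons ⟨1,4,9,16,25,4,59,0,10,9,7⟩ <|
  .cons ⟨1,16,1,16,25,0,59,2,10,9,9⟩ <|
  .cons ⟨16,16,16,16,0,0,64,1346,5,9,9⟩ <|
  .cons ⟨16,16,0,0,16,16,64,1172,9,5,9⟩ <|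
  .cons ⟨0,0,16,16,16,16,64,113,9,9,5⟩ <|
  .cons ⟨4,25,25,4,0,9,67,256,5,7,10⟩ <|
  .cons ⟨25,4,4,25,0,9,67,256,5,10,7⟩ <|
  .cons ⟨25,4,0,9,4,25,67,128,7,2,7⟩ <|
  .cons ⟨4,25,9,0,4,25,67,4,7,5,10⟩ <|
  .cons ⟨0,9,25,4,4,25,67,32,7,7,2⟩ <|
  .cons ⟨9,0,4,25,4,25,67,1,7,10,5⟩ <|
  .cons ⟨25,4,25,4,9,0,67,2,8,3,3⟩ <|
  .cons ⟨4,25,4,25,9,0,67,2,8,10,10⟩ <|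
  .cons ⟨25,4,9,0,25,4,67,4,10,5,7⟩ <|
  .cons ⟨9,0,25,4,25,4,67,1,10,7,5⟩ <|
  .cons ⟨4,25,0,9,25,4,67,128,10,8,10⟩ <|
  .cons ⟨0,9,4,25,25,4,67,32,10,10,8⟩ <|
  .cons ⟨1,25,25,1,0,16,68,256,5,6,10⟩ <|
  .cons ⟨25,1,1,25,0,16,68,256,5,10,6⟩ <|
  .cons ⟨25,9,16,16,1,1,68,1024,6,1,2⟩ <|
  .cons ⟨25,1,0,16,1,25,68,128,6,1,6⟩ <|
  .cons ⟨16,16,25,9,1,1,68,64,6,2,1⟩ <|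
  .cons ⟨1,25,16,0,1,25,68,4,6,5,10⟩ <|
  .cons ⟨0,16,25,1,1,25,68,32,6,6,1⟩ <|
  .cons ⟨9,25,16,16,1,1,68,1024,6,9,10⟩ <|
  .cons ⟨16,0,1,25,1,25,68,1,6,10,5⟩ <|
  .cons ⟨16,16,9,25,1,1,68,64,6,10,9⟩ <|
  .cons ⟨16,16,1,1,9,25,68,16,8,4,9⟩ <|
  .cons ⟨1,1,16,16,9,25,68,16,8,9,4⟩ <|
  .cons ⟨25,1,25,1,16,0,68,2,9,4,4⟩ <|
  .cons ⟨25,9,1,1,16,16,68,1024,9,4,8⟩ <|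
  .cons ⟨9,25,1,1,16,16,68,1024,9,6,10⟩ <|
  .cons ⟨1,1,25,9,16,16,68,64,9,8,4⟩ <|
  .cons ⟨1,1,9,25,16,16,68,64,9,10,6⟩ <|
  .cons ⟨1,25,1,25,16,0,68,2,9,10,10⟩ <|
  .cons ⟨25,1,16,0,25,1,68,4,10,5,6⟩ <|
  .cons ⟨16,0,25,1,25,1,68,1,10,6,5⟩ <|
  .cons ⟨16,16,1,1,25,9,68,16,10,6,9⟩ <|
  .cons ⟨1,1,16,16,25,9,68,16,10,9,6⟩ <|
  .cons ⟨1,25,0,16,25,1,68,128,10,9,10⟩ <|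
  .cons ⟨0,16,1,25,25,1,68,32,10,10,9⟩ <|
  .cons ⟨9,25,25,9,0,4,72,256,5,8,10⟩ <|
  .cons ⟨25,9,9,25,0,4,72,256,5,10,8⟩ <|
  .cons ⟨25,9,25,9,4,0,72,2,7,2,2⟩ <|
  .cons ⟨9,25,9,25,4,0,72,2,7,10,10⟩ <|
  .cons ⟨25,9,0,4,9,25,72,128,8,3,8⟩ <|
  .cons ⟨9,25,4,0,9,25,72,4,8,5,10⟩ <|
  .cons ⟨0,4,25,9,9,25,72,32,8,8,3⟩ <|
  .cons ⟨4,0,9,25,9,25,72,1,8,10,5⟩ <|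
  .cons ⟨25,9,4,0,25,9,72,4,10,5,8⟩ <|
  .cons ⟨9,25,0,4,25,9,72,128,10,7,10⟩ <|
  .cons ⟨4,0,25,9,25,9,72,1,10,8,5⟩ <|
  .cons ⟨0,4,9,25,25,9,72,32,10,10,7⟩ <|
  .cons ⟨0,25,25,0,0,25,75,2340,5,5,10⟩ <|
  .cons ⟨25,0,0,25,0,25,75,897,5,10,5⟩ <|
  .cons ⟨25,0,25,0,25,0,75,15,10,5,5⟩ <|
  .cons ⟨0,25,0,25,25,0,75,162,10,10,10⟩ <|
  .cons ⟨16,25,25,16,0,1,83,256,5,9,10⟩ <|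
  .cons ⟨25,16,16,25,0,1,83,256,5,10,9⟩ <|
  .cons ⟨25,16,25,16,1,0,83,2,6,1,1⟩ <|
  .cons ⟨16,25,16,25,1,0,83,2,6,10,10⟩ <|
  .cons ⟨25,16,0,1,16,25,83,128,9,4,9⟩ <|
  .cons ⟨16,25,1,0,16,25,83,4,9,5,10⟩ <|
  .cons ⟨0,1,25,16,16,25,83,32,9,9,4⟩ <|
  .cons ⟨1,0,16,25,16,25,83,1,9,10,5⟩ <|
  .cons ⟨25,16,1,0,25,16,83,4,10,5,9⟩ <|
  .cons ⟨16,25,0,1,25,16,83,128,10,6,10⟩ <|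
  .cons ⟨1,0,25,16,25,16,83,1,10,9,5⟩ <|
  .cons ⟨0,1,16,25,25,16,83,32,10,10,6⟩ <|
  .cons ⟨25,25,25,25,0,0,100,1346,5,10,10⟩ <|
  .cons ⟨25,25,0,0,25,25,100,1172,10,5,10⟩ <|
  .cons ⟨0,0,25,25,25,25,100,113,10,10,5⟩ <| .nil

set_option maxRecDepth 100000 in
/-- the box of the dual side -/
def boxE : Lst :=
  .cons ⟨0,1,1,0,0,1,3,2340,5,5,6⟩ <|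
  .cons ⟨1,0,0,1,0,1,3,897,5,6,5⟩ <|
  .cons ⟨1,0,1,0,1,0,3,15,6,5,5⟩ <|
  .cons ⟨0,1,0,1,1,0,3,162,6,6,6⟩ <|
  .cons ⟨1,1,1,1,0,0,4,1346,5,6,6⟩ <|
  .cons ⟨1,1,0,0,1,1,4,1172,6,5,6⟩ <|
  .cons ⟨0,0,1,1,1,1,4,113,6,6,5⟩ <|
  .cons ⟨1,1,1,1,0,4,8,4376,5,6,4⟩ <|
  .cons ⟨4,0,1,1,1,1,8,7169,6,4,5⟩ <|
  .cons ⟨1,1,4,0,1,1,8,4676,6,5,4⟩ <|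
  .cons ⟨0,4,1,1,1,1,8,1056,6,6,7⟩ <|
  .cons ⟨1,1,0,4,1,1,8,192,6,7,6⟩ <|
  .cons ⟨1,1,1,1,4,0,8,18,7,6,6⟩ <|
  .cons ⟨1,4,4,1,0,1,11,256,5,6,7⟩ <|
  .cons ⟨4,1,1,4,0,1,11,256,5,7,6⟩ <|
  .cons ⟨4,1,4,1,1,0,11,2562,6,4,4⟩ <|
  .cons ⟨4,1,0,1,1,4,11,2184,6,4,6⟩ <|
  .cons ⟨1,4,1,0,1,4,11,4,6,5,7⟩ <|
  .cons ⟨0,1,4,1,1,4,11,552,6,6,4⟩ <|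
  .cons ⟨1,0,1,4,1,4,11,1,6,7,5⟩ <|
  .cons ⟨1,4,1,4,1,0,11,2,6,7,7⟩ <|
  .cons ⟨4,1,1,0,4,1,11,4,7,5,6⟩ <|
  .cons ⟨1,0,4,1,4,1,11,1,7,6,5⟩ <|
  .cons ⟨1,4,0,1,4,1,11,128,7,6,7⟩ <|
  .cons ⟨0,1,1,4,4,1,11,32,7,7,6⟩ <|
  .cons ⟨0,4,4,0,0,4,12,2340,5,5,7⟩ <|
  .cons ⟨4,0,0,4,0,4,12,897,5,7,5⟩ <|
  .cons ⟨4,0,4,0,4,0,12,15,7,5,5⟩ <|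
  .cons ⟨4,4,4,4,0,0,16,1346,5,7,7⟩ <|
  .cons ⟨4,4,0,0,4,4,16,1172,7,5,7⟩ <|
  .cons ⟨0,0,4,4,4,4,16,113,7,7,5⟩ <|
  .cons ⟨1,4,4,1,0,9,19,256,5,6,3⟩ <|
  .cons ⟨4,1,1,4,0,9,19,256,5,7,4⟩ <|
  .cons ⟨9,0,1,4,1,4,19,1,6,3,5⟩ <|
  .cons ⟨1,4,9,0,1,4,19,4,6,5,3⟩ <|
  .cons ⟨0,9,4,1,1,4,19,32,6,6,8⟩ <|
  .cons ⟨4,1,0,9,1,4,19,128,6,8,6⟩ <|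
  .cons ⟨9,0,4,1,4,1,19,1,7,4,5⟩ <|
  .cons ⟨4,1,9,0,4,1,19,4,7,5,4⟩ <|
  .cons ⟨4,1,4,1,9,0,19,2,8,6,6⟩ <|
  .cons ⟨9,1,4,4,1,1,20,1536,6,3,4⟩ <|
  .cons ⟨4,4,9,1,1,1,20,2112,6,4,3⟩ <|
  .cons ⟨4,4,1,1,1,9,20,2064,6,4,7⟩ <|
  .cons ⟨1,1,4,4,1,9,20,528,6,7,4⟩ <|
  .cons ⟨9,1,1,1,4,4,20,1032,7,4,6⟩ <|
  .cons ⟨1,1,9,1,4,4,20,72,7,6,4⟩ <|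
  .cons ⟨1,9,9,1,0,4,24,256,5,6,8⟩ <|
  .cons ⟨9,1,1,9,0,4,24,256,5,8,6⟩ <|
  .cons ⟨9,1,0,4,1,9,24,4224,6,3,6⟩ <|
  .cons ⟨1,9,4,0,1,9,24,4,6,5,8⟩ <|
  .cons ⟨0,4,9,1,1,9,24,4128,6,6,3⟩ <|
  .cons ⟨4,0,1,9,1,9,24,1,6,8,5⟩ <|
  .cons ⟨9,1,9,1,4,0,24,4098,7,4,4⟩ <|
  .cons ⟨9,1,4,0,9,1,24,4,8,5,6⟩ <|
  .cons ⟨4,0,9,1,9,1,24,1,8,6,5⟩ <|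
  .cons ⟨0,9,9,0,0,9,27,2340,5,5,8⟩ <|
  .cons ⟨4,9,9,4,0,1,27,256,5,7,8⟩ <|
  .cons ⟨9,0,0,9,0,9,27,897,5,8,5⟩ <|
  .cons ⟨9,4,4,9,0,1,27,256,5,8,7⟩ <|
  .cons ⟨9,4,9,4,1,0,27,2,6,3,3⟩ <|
  .cons ⟨9,4,0,1,4,9,27,128,7,4,7⟩ <|
  .cons ⟨4,9,1,0,4,9,27,4,7,5,8⟩ <|
  .cons ⟨0,1,9,4,4,9,27,32,7,7,4⟩ <|
  .cons ⟨1,0,4,9,4,9,27,1,7,8,5⟩ <|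
  .cons ⟨9,0,9,0,9,0,27,15,8,5,5⟩ <|
  .cons ⟨9,4,1,0,9,4,27,4,8,5,7⟩ <|
  .cons ⟨1,0,9,4,9,4,27,1,8,7,5⟩ <|
  .cons ⟨4,4,4,4,0,16,32,4376,5,7,3⟩ <|
  .cons ⟨16,0,4,4,4,4,32,7169,7,3,5⟩ <|
  .cons ⟨4,4,16,0,4,4,32,4676,7,5,3⟩ <|
  .cons ⟨16,1,4,9,1,4,35,512,6,2,4⟩ <|
  .cons ⟨9,4,1,4,1,16,35,8,6,3,7⟩ <|
  .cons ⟨4,9,16,1,1,4,35,2048,6,4,2⟩ <|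
  .cons ⟨4,9,4,1,1,16,35,2048,6,4,8⟩ <|
  .cons ⟨1,4,9,4,1,16,35,8,6,7,3⟩ <|
  .cons ⟨4,1,4,9,1,16,35,512,6,8,4⟩ <|
  .cons ⟨16,1,9,4,4,1,35,2048,7,3,4⟩ <|
  .cons ⟨16,1,1,4,4,9,35,2048,7,3,6⟩ <|
  .cons ⟨9,4,16,1,4,1,35,512,7,4,3⟩ <|
  .cons ⟨1,4,16,1,4,9,35,512,7,6,3⟩ <|
  .cons ⟨16,1,4,1,9,4,35,8,8,4,6⟩ <|
  .cons ⟨4,1,16,1,9,4,35,8,8,6,4⟩ <|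
  .cons ⟨1,9,9,1,0,16,36,256,5,6,2⟩ <|
  .cons ⟨9,1,1,9,0,16,36,256,5,8,4⟩ <|
  .cons ⟨16,0,1,9,1,9,36,1,6,2,5⟩ <|
  .cons ⟨1,9,16,0,1,9,36,4,6,5,2⟩ <|
  .cons ⟨16,0,9,1,9,1,36,1,8,4,5⟩ <|
  .cons ⟨9,1,16,0,9,1,36,4,8,5,4⟩ <|
  .cons ⟨16,4,9,9,1,1,40,1024,6,2,3⟩ <|
  .cons ⟨9,9,16,4,1,1,40,64,6,3,2⟩ <|
  .cons ⟨9,9,1,1,4,16,40,16,7,4,8⟩ <|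
  .cons ⟨1,1,9,9,4,16,40,16,7,8,4⟩ <|
  .cons ⟨16,4,1,1,9,9,40,1024,8,4,7⟩ <|
  .cons ⟨1,1,16,4,9,9,40,64,8,7,4⟩ <|
  .cons ⟨1,16,16,1,0,9,43,256,5,6,9⟩ <|
  .cons ⟨16,1,1,16,0,9,43,256,5,9,6⟩ <|
  .cons ⟨16,1,0,9,1,16,43,128,6,2,6⟩ <|
  .cons ⟨1,16,9,0,1,16,43,4,6,5,9⟩ <|
  .cons ⟨0,9,16,1,1,16,43,32,6,6,2⟩ <|
  .cons ⟨9,0,1,16,1,16,43,1,6,9,5⟩ <|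
  .cons ⟨16,1,16,1,9,0,43,2,8,4,4⟩ <|
  .cons ⟨16,1,9,0,16,1,43,4,9,5,6⟩ <|
  .cons ⟨9,0,16,1,16,1,43,1,9,6,5⟩ <|
  .cons ⟨16,4,16,4,4,0,44,2562,7,3,3⟩ <|
  .cons ⟨16,4,0,4,4,16,44,2184,7,3,7⟩ <|
  .cons ⟨0,4,16,4,4,16,44,552,7,7,3⟩ <|
  .cons ⟨0,16,16,0,0,16,48,2340,5,5,9⟩ <|
  .cons ⟨16,0,0,16,0,16,48,897,5,9,5⟩ <|
  .cons ⟨16,0,16,0,16,0,48,15,9,5,5⟩ <|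
  .cons ⟨4,9,9,4,0,25,51,256,5,7,2⟩ <|
  .cons ⟨9,4,4,9,0,25,51,256,5,8,3⟩ <|
  .cons ⟨25,0,4,9,4,9,51,1,7,2,5⟩ <|
  .cons ⟨4,9,25,0,4,9,51,4,7,5,2⟩ <|
  .cons ⟨25,0,9,4,9,4,51,1,8,3,5⟩ <|
  .cons ⟨9,4,25,0,9,4,51,4,8,5,3⟩ <|
  .cons ⟨9,9,4,4,1,25,52,16,6,3,8⟩ <|
  .cons ⟨4,4,9,9,1,25,52,16,6,8,3⟩ <|
  .cons ⟨25,1,9,9,4,4,52,1024,7,2,4⟩ <|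
  .cons ⟨9,9,25,1,4,4,52,64,7,4,2⟩ <|
  .cons ⟨25,1,4,4,9,9,52,1024,8,3,6⟩ <|
  .cons ⟨4,4,25,1,9,9,52,64,8,6,3⟩ <|
  .cons ⟨25,1,4,16,1,9,56,512,6,1,4⟩ <|
  .cons ⟨16,4,1,9,1,25,56,4096,6,2,7⟩ <|
  .cons ⟨4,16,25,1,1,9,56,2048,6,4,1⟩ <|
  .cons ⟨4,16,9,1,1,25,56,2048,6,4,9⟩ <|
  .cons ⟨1,9,16,4,1,25,56,4096,6,7,2⟩ <|
  .cons ⟨9,1,4,16,1,25,56,512,6,9,4⟩ <|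
  .cons ⟨25,1,1,9,4,16,56,4096,7,2,6⟩ <|
  .cons ⟨1,9,25,1,4,16,56,4096,7,6,2⟩ <|
  .cons ⟨25,1,16,4,9,1,56,4096,8,3,4⟩ <|
  .cons ⟨16,4,25,1,9,1,56,4096,8,4,3⟩ <|
  .cons ⟨25,1,9,1,16,4,56,8,9,4,6⟩ <|
  .cons ⟨9,1,25,1,16,4,56,8,9,6,4⟩ <|
  .cons ⟨1,16,16,1,0,25,59,256,5,6,1⟩ <|
  .cons ⟨16,1,1,16,0,25,59,256,5,9,4⟩ <|
  .cons ⟨25,0,1,16,1,16,59,1,6,1,5⟩ <|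
  .cons ⟨1,16,25,0,1,16,59,4,6,5,1⟩ <|
  .cons ⟨25,4,16,9,4,1,59,512,7,2,3⟩ <|
  .cons ⟨16,9,25,4,4,1,59,2048,7,3,2⟩ <|
  .cons ⟨16,9,1,4,4,25,59,2048,7,3,8⟩ <|
  .cons ⟨1,4,16,9,4,25,59,512,7,8,3⟩ <|
  .cons ⟨25,4,1,4,9,16,59,8,8,3,7⟩ <|
  .cons ⟨1,4,25,4,9,16,59,8,8,7,3⟩ <|
  .cons ⟨25,0,16,1,16,1,59,1,9,4,5⟩ <|
  .cons ⟨16,1,25,0,16,1,59,4,9,5,4⟩ <|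
  .cons ⟨25,4,0,9,4,25,67,128,7,2,7⟩ <|
  .cons ⟨0,9,25,4,4,25,67,32,7,7,2⟩ <|
  .cons ⟨25,4,25,4,9,0,67,2,8,3,3⟩ <|
  .cons ⟨25,1,0,16,1,25,68,128,6,1,6⟩ <|
  .cons ⟨0,16,25,1,1,25,68,32,6,6,1⟩ <|
  .cons ⟨25,1,25,1,16,0,68,2,9,4,4⟩ <|
  .cons ⟨9,9,9,9,0,36,72,4376,5,8,2⟩ <|
  .cons ⟨36,0,9,9,9,9,72,7169,8,2,5⟩ <|
  .cons ⟨9,9,36,0,9,9,72,4676,8,5,2⟩ <|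
  .cons ⟨0,25,25,0,0,25,75,2340,5,5,10⟩ <|
  .cons ⟨25,0,0,25,0,25,75,897,5,10,5⟩ <|
  .cons ⟨16,9,4,9,1,36,75,8,6,2,8⟩ <|
  .cons ⟨9,16,9,4,1,36,75,0,6,3,9⟩ <|
  .cons ⟨4,9,16,9,1,36,75,8,6,8,2⟩ <|
  .cons ⟨9,4,9,16,1,36,75,0,6,9,3⟩ <|
  .cons ⟨36,1,9,16,4,9,75,0,7,1,4⟩ <|
  .cons ⟨9,16,36,1,4,9,75,0,7,4,1⟩ <|
  .cons ⟨36,1,16,9,9,4,75,2048,8,2,4⟩ <|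
  .cons ⟨36,1,4,9,9,16,75,2048,8,2,6⟩ <|
  .cons ⟨16,9,36,1,9,4,75,512,8,4,2⟩ <|
  .cons ⟨4,9,36,1,9,16,75,512,8,6,2⟩ <|
  .cons ⟨36,1,9,4,16,9,75,0,9,3,6⟩ <|
  .cons ⟨9,4,36,1,16,9,75,0,9,6,3⟩ <|
  .cons ⟨25,0,25,0,25,0,75,15,10,5,5⟩ <|
  .cons ⟨4,16,16,4,0,36,76,256,5,7,1⟩ <|
  .cons ⟨16,4,4,16,0,36,76,256,5,9,3⟩ <|
  .cons ⟨36,0,4,16,4,16,76,1,7,1,5⟩ <|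
  .cons ⟨4,16,36,0,4,16,76,4,7,5,1⟩ <|
  .cons ⟨36,0,16,4,16,4,76,1,9,3,5⟩ <|
  .cons ⟨16,4,36,0,16,4,76,4,9,5,3⟩ <|
  .cons ⟨25,4,1,16,1,36,83,0,6,1,7⟩ <|
  .cons ⟨1,16,25,4,1,36,83,0,6,7,1⟩ <|
  .cons ⟨36,1,1,16,4,25,83,0,7,1,6⟩ <|
  .cons ⟨1,16,36,1,4,25,83,0,7,6,1⟩ <|
  .cons ⟨36,1,25,4,16,1,83,0,9,3,4⟩ <|
  .cons ⟨25,4,36,1,16,1,83,0,9,4,3⟩ <|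
  .cons ⟨25,9,1,9,4,36,84,8,7,2,8⟩ <|
  .cons ⟨1,9,25,9,4,36,84,8,7,8,2⟩ <|
  .cons ⟨36,4,25,9,9,1,84,2048,8,2,3⟩ <|
  .cons ⟨36,4,1,9,9,25,84,2048,8,2,7⟩ <|
  .cons ⟨25,9,36,4,9,1,84,512,8,3,2⟩ <|
  .cons ⟨1,9,36,4,9,25,84,512,8,7,2⟩ <|
  .cons ⟨1,25,25,1,0,36,88,256,5,6,0⟩ <|
  .cons ⟨25,1,1,25,0,36,88,256,5,10,4⟩ <|
  .cons ⟨36,0,1,25,1,25,88,1,6,0,5⟩ <|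
  .cons ⟨1,25,36,0,1,25,88,4,6,5,0⟩ <|
  .cons ⟨36,0,25,1,25,1,88,1,10,4,5⟩ <|
  .cons ⟨25,1,36,0,25,1,88,4,10,5,4⟩ <|
  .cons ⟨36,4,0,16,4,36,96,4224,7,1,7⟩ <|
  .cons ⟨0,16,36,4,4,36,96,4128,7,7,1⟩ <|
  .cons ⟨36,4,36,4,16,0,96,4098,9,3,3⟩ <|
  .cons ⟨9,16,16,9,0,49,99,256,5,8,1⟩ <|
  .cons ⟨16,9,9,16,0,49,99,256,5,9,2⟩ <|
  .cons ⟨36,1,0,25,1,36,99,128,6,0,6⟩ <|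
  .cons ⟨0,25,36,1,1,36,99,32,6,6,0⟩ <|
  .cons ⟨49,0,9,16,9,16,99,1,8,1,5⟩ <|
  .cons ⟨9,16,49,0,9,16,99,4,8,5,1⟩ <|
  .cons ⟨49,0,16,9,16,9,99,1,9,2,5⟩ <|
  .cons ⟨16,9,49,0,16,9,99,4,9,5,2⟩ <|
  .cons ⟨36,1,36,1,25,0,99,2,10,4,4⟩ <|
  .cons ⟨16,16,9,9,1,49,100,16,6,2,9⟩ <|
  .cons ⟨9,9,16,16,1,49,100,16,6,9,2⟩ <|
  .cons ⟨49,1,16,16,9,9,100,1024,8,1,4⟩ <|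
  .cons ⟨16,16,49,1,9,9,100,64,8,4,1⟩ <|
  .cons ⟨49,1,9,9,16,16,100,1024,9,2,6⟩ <|
  .cons ⟨9,9,49,1,16,16,100,64,9,6,2⟩ <|
  .cons ⟨25,9,4,16,1,49,104,4096,6,1,8⟩ <|
  .cons ⟨4,16,25,9,1,49,104,4096,6,8,1⟩ <|
  .cons ⟨49,1,4,16,9,25,104,4096,8,1,6⟩ <|
  .cons ⟨4,16,49,1,9,25,104,4096,8,6,1⟩ <|
  .cons ⟨49,1,25,9,16,4,104,4096,9,2,4⟩ <|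
  .cons ⟨25,9,49,1,16,4,104,4096,9,4,2⟩ <|
  .cons ⟨4,25,25,4,0,49,107,256,5,7,0⟩ <|
  .cons ⟨25,4,4,25,0,49,107,256,5,10,3⟩ <|
  .cons ⟨49,0,4,25,4,25,107,1,7,0,5⟩ <|
  .cons ⟨4,25,49,0,4,25,107,4,7,5,0⟩ <|
  .cons ⟨49,0,25,4,25,4,107,1,10,3,5⟩ <|
  .cons ⟨25,4,49,0,25,4,107,4,10,5,3⟩ <|
  .cons ⟨36,9,1,16,4,49,115,0,7,1,8⟩ <|
  .cons ⟨1,16,36,9,4,49,115,0,7,8,1⟩ <|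
  .cons ⟨49,4,1,16,9,36,115,0,8,1,7⟩ <|
  .cons ⟨1,16,49,4,9,36,115,0,8,7,1⟩ <|
  .cons ⟨49,4,36,9,16,1,115,0,9,2,3⟩ <|
  .cons ⟨36,9,49,4,16,1,115,0,9,3,2⟩ <|
  .cons ⟨36,4,1,25,1,49,116,0,6,0,7⟩ <|
  .cons ⟨1,25,36,4,1,49,116,0,6,7,0⟩ <|
  .cons ⟨49,1,1,25,4,36,116,0,7,0,6⟩ <|
  .cons ⟨1,25,49,1,4,36,116,0,7,6,0⟩ <|
  .cons ⟨49,1,36,4,25,1,116,0,10,3,4⟩ <|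
  .cons ⟨36,4,49,1,25,1,116,0,10,4,3⟩ <|
  .cons ⟨16,16,16,16,0,64,128,4376,5,9,1⟩ <|
  .cons ⟨64,0,16,16,16,16,128,7169,9,1,5⟩ <|
  .cons ⟨16,16,64,0,16,16,128,4676,9,5,1⟩ <|
  .cons ⟨25,16,9,16,1,64,131,8,6,1,9⟩ <|
  .cons ⟨9,16,25,16,1,64,131,8,6,9,1⟩ <|
  .cons ⟨49,4,0,25,4,49,131,128,7,0,7⟩ <|
  .cons ⟨0,25,49,4,4,49,131,32,7,7,0⟩ <|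
  .cons ⟨64,1,25,16,16,9,131,2048,9,1,4⟩ <|
  .cons ⟨64,1,9,16,16,25,131,2048,9,1,6⟩ <|
  .cons ⟨25,16,64,1,16,9,131,512,9,4,1⟩ <|
  .cons ⟨9,16,64,1,16,25,131,512,9,6,1⟩ <|
  .cons ⟨49,4,49,4,25,0,131,2,10,3,3⟩ <|
  .cons ⟨9,25,25,9,0,64,132,256,5,8,0⟩ <|
  .cons ⟨25,9,9,25,0,64,132,256,5,10,2⟩ <|
  .cons ⟨64,0,9,25,9,25,132,1,8,0,5⟩ <|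
  .cons ⟨9,25,64,0,9,25,132,4,8,5,0⟩ <|
  .cons ⟨64,0,25,9,25,9,132,1,10,2,5⟩ <|
  .cons ⟨25,9,64,0,25,9,132,4,10,5,2⟩ <|
  .cons ⟨36,9,4,25,1,64,139,0,6,0,8⟩ <|
  .cons ⟨4,25,36,9,1,64,139,0,6,8,0⟩ <|
  .cons ⟨64,1,4,25,9,36,139,0,8,0,6⟩ <|
  .cons ⟨4,25,64,1,9,36,139,0,8,6,0⟩ <|
  .cons ⟨64,1,36,9,25,4,139,0,10,2,4⟩ <|
  .cons ⟨36,9,64,1,25,4,139,0,10,4,2⟩ <|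
  .cons ⟨49,9,1,25,4,64,152,4096,7,0,8⟩ <|
  .cons ⟨1,25,49,9,4,64,152,4096,7,8,0⟩ <|
  .cons ⟨64,4,1,25,9,49,152,4096,8,0,7⟩ <|
  .cons ⟨1,25,64,4,9,49,152,4096,8,7,0⟩ <|
  .cons ⟨64,4,49,9,25,1,152,4096,10,2,3⟩ <|
  .cons ⟨49,9,64,4,25,1,152,4096,10,3,2⟩ <|
  .cons ⟨16,25,25,16,0,81,163,256,5,9,0⟩ <|
  .cons ⟨25,16,16,25,0,81,163,256,5,10,1⟩ <|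
  .cons ⟨81,0,16,25,16,25,163,1,9,0,5⟩ <|
  .cons ⟨16,25,81,0,16,25,163,4,9,5,0⟩ <|
  .cons ⟨81,0,25,16,25,16,163,1,10,1,5⟩ <|
  .cons ⟨25,16,81,0,25,16,163,4,10,5,1⟩ <|
  .cons ⟨36,16,9,25,1,81,168,4096,6,0,9⟩ <|
  .cons ⟨9,25,36,16,1,81,168,4096,6,9,0⟩ <|
  .cons ⟨81,1,9,25,16,36,168,4096,9,0,6⟩ <|
  .cons ⟨9,25,81,1,16,36,168,4096,9,6,0⟩ <|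
  .cons ⟨81,1,36,16,25,9,168,4096,10,1,4⟩ <|
  .cons ⟨36,16,81,1,25,9,168,4096,10,4,1⟩ <|
  .cons ⟨25,25,25,25,0,100,200,4376,5,10,0⟩ <|
  .cons ⟨100,0,25,25,25,25,200,7169,10,0,5⟩ <|
  .cons ⟨25,25,100,0,25,25,200,4676,10,5,0⟩ <| .nil

/-- the thirteen directions up to sign, as vectors of the box -/
def dir13 (i : Nat) : Vx :=
  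
Nat.casesOn (motive := fun _ => Vx) i ⟨0,1,1,0,0,1,3,2340,5,5,6⟩ fun i =>
  Nat.casesOn (motive := fun _ => Vx) i ⟨1,1,1,1,0,4,8,4376,5,6,4⟩ fun i =>
  Nat.casesOn (motive := fun _ => Vx) i ⟨1,0,0,1,0,1,3,897,5,6,5⟩ fun i =>
  Nat.casesOn (motive := fun _ => Vx) i ⟨1,1,1,1,0,0,4,1346,5,6,6⟩ fun i =>
  Nat.casesOn (motive := fun _ => Vx) i ⟨4,1,4,1,1,0,11,2562,6,4,4⟩ fun i =>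
  Nat.casesOn (motive := fun _ => Vx) i ⟨4,0,1,1,1,1,8,7169,6,4,5⟩ fun i =>
  Nat.casesOn (motive := fun _ => Vx) i ⟨4,1,0,1,1,4,11,2184,6,4,6⟩ fun i =>
  Nat.casesOn (motive := fun _ => Vx) i ⟨1,1,4,0,1,1,8,4676,6,5,4⟩ fun i =>
  Nat.casesOn (motive := fun _ => Vx) i ⟨1,0,1,0,1,0,3,15,6,5,5⟩ fun i =>
  Nat.casesOn (motive := fun _ => Vx) i ⟨1,1,0,0,1,1,4,1172,6,5,6⟩ fun i =>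
  Nat.casesOn (motive := fun _ => Vx) i ⟨0,1,4,1,1,4,11,552,6,6,4⟩ fun i =>
  Nat.casesOn (motive := fun _ => Vx) i ⟨0,0,1,1,1,1,4,113,6,6,5⟩ fun i =>
  Nat.casesOn (motive := fun _ => Vx) i ⟨0,1,0,1,1,0,3,162,6,6,6⟩ fun _ =>
  ⟨0,0,0,0,0,0,0,0,5,5,5⟩

end Pool.Agent.Lib.EPX
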