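import Pool.Agent.Lib.EPX.RegS
import Pool.Agent.Lib.EPL.Cusp

/-!
# EPX.CuX: soundness of the cusp leaves
-/

open Matrix
open scoped Matrix.Norms.Elementwise

namespace Pool.Agent.Lib.EPX

open Pool.Agent.Lib.EpZ Pool.Agent.Lib.FCC

/-- soundness of `cuC` with an explicit unimodular matrix -/
theorem cu_aux {C : Cn} (hC : C.WF) {l : Fin 6 → ℝ} {w : ℝ} (hM : C.Mem l w) (hd : 0 < dt l)
    {v : Vx} (U : Matrix (Fin 3) (Fin 3) ℤ) (hU : IsUnit U.det)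
    (h0 : (v.c0 : ℤ) = (U 0 0 - U 1 0) ^ 2) (h1 : (v.c1 : ℤ) = (U 2 0) ^ 2)
    (h2 : (v.c2 : ℤ) = (U 0 0 - U 2 0) ^ 2) (h3 : (v.c3 : ℤ) = (U 1 0) ^ 2)
    (h4 : (v.c4 : ℤ) = (U 0 0) ^ 2) (h5 : (v.c5 : ℤ) = (U 1 0 - U 2 0) ^ 2)
    (h : C.all (fun u => (fun q => Nat.ble (4 * (q * q * q)) u.d)
      (ev v u.l0 u.l1 u.l2 u.l3 u.l4 u.l5)) = true) {s : ℝ} (hs : 3 / 2 < s) :
    ¬ LocMin s (formOf l) := by
  have hp := formOf_pd hM.nonneg hd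
  obtain ⟨t, ht, hl, -⟩ := hM
  refine EPL.cusp hp U hU ?_ hs
  rw [formOf_det]
  refine cusp_cone (V := fun i => (C.vs i).L) ht (fun i => Vt.L_nonneg _) hl _ fun i => ?_
  have hv : ∀ u : Vt, u.WF → Nat.ble (4 * ((ev v u.l0 u.l1 u.l2 u.l3 u.l4 u.l5) *
      (ev v u.l0 u.l1 u.l2 u.l3 u.l4 u.l5) * (ev v u.l0 u.l1 u.l2 u.l3 u.l4 u.l5))) u.d = true →
      4 * (qf (formOf u.L) fun i => U i 0) ^ 3 ≤ dt u.L := by
    intro u hu hb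
    have hb := Nat.le_of_ble_eq_true hb
    have e : (qf (formOf u.L) fun i => U i 0) = (ev v u.l0 u.l1 u.l2 u.l3 u.l4 u.l5 : ℕ) := by
      rw [qf_formOf]
      have g0 : ((v.c0 : ℕ) : ℝ) = ((U 0 0 : ℝ) - U 1 0) ^ 2 := by exact_mod_cast h0
      have g1 : ((v.c1 : ℕ) : ℝ) = (U 2 0 : ℝ) ^ 2 := by exact_mod_cast h1
      have g2 : ((v.c2 : ℕ) : ℝ) = ((U 0 0 : ℝ) - U 2 0) ^ 2 := by exact_mod_cast h2
      have g3 : ((v.c3 : ℕ) : ℝ) = (U 1 0 : ℝ) ^ 2 := by exact_mod_cast h3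
      have g4 : ((v.c4 : ℕ) : ℝ) = (U 0 0 : ℝ) ^ 2 := by exact_mod_cast h4
      have g5 : ((v.c5 : ℕ) : ℝ) = ((U 1 0 : ℝ) - U 2 0) ^ 2 := by exact_mod_cast h5
      unfold ev
      simp only [Nat.add_eq, Nat.mul_eq]
      push_cast
      rw [← g0, ← g1, ← g2, ← g3, ← g4, ← g5]
      simp [Vt.L]
      ring
    rw [e, ← hu.d, pow_three']
    exact_mod_cast hb
  unfold Cn.all at h
  simp only [cnd_and] at h
  obtain ⟨g0, g1, g2, g3, g4, g5⟩ := h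
  fin_cases i
  · exact hv _ (hC 0) g0
  · exact hv _ (hC 1) g1
  · exact hv _ (hC 2) g2
  · exact hv _ (hC 3) g3
  · exact hv _ (hC 4) g4
  · exact hv _ (hC 5) g5

/-- SOUNDNESS OF THE CUSP LEAVES -/
theorem cu_sound {C : Cn} (hC : C.WF) {l : Fin 6 → ℝ} {w : ℝ} (hM : C.Mem l w) (hd : 0 < dt l)
    {i : ℕ} (h : cuC i C = true) {s : ℝ} (hs : 3 / 2 < s) : ¬ LocMin s (formOf l) := by
  unfold cuC at h
  rw [cnd_and] at h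
  obtain ⟨hi, h⟩ := h
  have hi := Nat.le_of_ble_eq_true hi
  interval_cases i
  · exact cu_aux hC hM hd !![0, 1, 0; 0, 0, 1; 1, 0, 0] (by decide) rfl rfl rfl rfl rfl rfl h hs
  · exact cu_aux hC hM hd !![0, 1, 0; 1, 0, 0; -1, 0, 1] (by decide) rfl rfl rfl rfl rfl rfl h hs
  · exact cu_aux hC hM hd !![0, 1, 0; 1, 0, 0; 0, 0, 1] (by decide) rfl rfl rfl rfl rfl rfl h hs
  · exact cu_aux hC hM hd !![0, 1, 0; 1, 0, 0; 1, 0, 1] (by decide) rfl rfl rfl rfl rfl rfl h hs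
  · exact cu_aux hC hM hd !![1, 0, 0; -1, 1, 0; -1, 0, 1] (by decide) rfl rfl rfl rfl rfl rfl h hs
  · exact cu_aux hC hM hd !![1, 0, 0; -1, 1, 0; 0, 0, 1] (by decide) rfl rfl rfl rfl rfl rfl h hs
  · exact cu_aux hC hM hd !![1, 0, 0; -1, 1, 0; 1, 0, 1] (by decide) rfl rfl rfl rfl rfl rfl h hs
  · exact cu_aux hC hM hd !![1, 0, 0; 0, 1, 0; -1, 0, 1] (by decide) rfl rfl rfl rfl rfl rfl h hs
  · exact cu_aux hC hM hd !![1, 0, 0; 0, 1, 0; 0, 0, 1] (by decide) rfl rfl rfl rfl rfl rfl h hs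
  · exact cu_aux hC hM hd !![1, 0, 0; 0, 1, 0; 1, 0, 1] (by decide) rfl rfl rfl rfl rfl rfl h hs
  · exact cu_aux hC hM hd !![1, 0, 0; 1, 1, 0; -1, 0, 1] (by decide) rfl rfl rfl rfl rfl rfl h hs
  · exact cu_aux hC hM hd !![1, 0, 0; 1, 1, 0; 0, 0, 1] (by decide) rfl rfl rfl rfl rfl rfl h hs
  · exact cu_aux hC hM hd !![1, 0, 0; 1, 1, 0; 1, 0, 1] (by decide) rfl rfl rfl rfl rfl rfl h hs

end Pool.Agent.Lib.EPX
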