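import Pool.Agent.Lib.EPX.SemX

/-!
# EPX.RootS: the root cones cover the reduced domain

A point with `0 ≤ l 0 ≤ l i` and `l 3, l 4, l 5 ≤ l 2` lies in one of the six root cones, according
to the order of `l 3, l 4, l 5`.
-/

namespace Pool.Agent.Lib.EPX

theorem rt0_mem {l : Fin 6 → ℝ} (h0 : 0 ≤ l 0) (h1 : l 0 ≤ l 1) (h2 : l 3 ≤ l 2)
    (h3 : l 4 ≤ l 3) (h4 : l 5 ≤ l 4) (h5 : l 0 ≤ l 5) : ∃ w, rt0.cn.Mem l w := by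
  refine ⟨_, ![l 0 / 2, (l 1 - l 0) / 12, (l 2 - l 3) / 12, (l 3 - l 4) / 6, (l 4 - l 5) / 4,
    (l 5 - l 0) / 3], ?_, ?_, rfl⟩
  · intro i
    fin_cases i <;> simp <;> linarith
  · intro k
    rw [Fin.sum_univ_six]
    fin_cases k <;> simp [rt0, C7.cn, Cn.vs, V7.vt, mkVt, Vt.L] <;> ring

theorem rt1_mem {l : Fin 6 → ℝ} (h0 : 0 ≤ l 0) (h1 : l 0 ≤ l 1) (h2 : l 3 ≤ l 2)
    (h3 : l 5 ≤ l 3) (h4 : l 4 ≤ l 5) (h5 : l 0 ≤ l 4) : ∃ w, rt1.cn.Mem l w := by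
  refine ⟨_, ![l 0 / 2, (l 1 - l 0) / 12, (l 2 - l 3) / 12, (l 3 - l 5) / 6, (l 5 - l 4) / 4,
    (l 4 - l 0) / 3], ?_, ?_, rfl⟩
  · intro i
    fin_cases i <;> simp <;> linarith
  · intro k
    rw [Fin.sum_univ_six]
    fin_cases k <;> simp [rt1, C7.cn, Cn.vs, V7.vt, mkVt, Vt.L] <;> ring

theorem rt2_mem {l : Fin 6 → ℝ} (h0 : 0 ≤ l 0) (h1 : l 0 ≤ l 1) (h2 : l 4 ≤ l 2)
    (h3 : l 3 ≤ l 4) (h4 : l 5 ≤ l 3) (h5 : l 0 ≤ l 5) : ∃ w, rt2.cn.Mem l w := by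
  refine ⟨_, ![l 0 / 2, (l 1 - l 0) / 12, (l 2 - l 4) / 12, (l 4 - l 3) / 6, (l 3 - l 5) / 4,
    (l 5 - l 0) / 3], ?_, ?_, rfl⟩
  · intro i
    fin_cases i <;> simp <;> linarith
  · intro k
    rw [Fin.sum_univ_six]
    fin_cases k <;> simp [rt2, C7.cn, Cn.vs, V7.vt, mkVt, Vt.L] <;> ring

theorem rt3_mem {l : Fin 6 → ℝ} (h0 : 0 ≤ l 0) (h1 : l 0 ≤ l 1) (h2 : l 4 ≤ l 2)
    (h3 : l 5 ≤ l 4) (h4 : l 3 ≤ l 5) (h5 : l 0 ≤ l 3) : ∃ w, rt3.cn.Mem l w := by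
  refine ⟨_, ![l 0 / 2, (l 1 - l 0) / 12, (l 2 - l 4) / 12, (l 4 - l 5) / 6, (l 5 - l 3) / 4,
    (l 3 - l 0) / 3], ?_, ?_, rfl⟩
  · intro i
    fin_cases i <;> simp <;> linarith
  · intro k
    rw [Fin.sum_univ_six]
    fin_cases k <;> simp [rt3, C7.cn, Cn.vs, V7.vt, mkVt, Vt.L] <;> ring

theorem rt4_mem {l : Fin 6 → ℝ} (h0 : 0 ≤ l 0) (h1 : l 0 ≤ l 1) (h2 : l 5 ≤ l 2)
    (h3 : l 3 ≤ l 5) (h4 : l 4 ≤ l 3) (h5 : l 0 ≤ l 4) : ∃ w, rt4.cn.Mem l w := by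
  refine ⟨_, ![l 0 / 2, (l 1 - l 0) / 12, (l 2 - l 5) / 12, (l 5 - l 3) / 6, (l 3 - l 4) / 4,
    (l 4 - l 0) / 3], ?_, ?_, rfl⟩
  · intro i
    fin_cases i <;> simp <;> linarith
  · intro k
    rw [Fin.sum_univ_six]
    fin_cases k <;> simp [rt4, C7.cn, Cn.vs, V7.vt, mkVt, Vt.L] <;> ring

theorem rt5_mem {l : Fin 6 → ℝ} (h0 : 0 ≤ l 0) (h1 : l 0 ≤ l 1) (h2 : l 5 ≤ l 2)
    (h3 : l 4 ≤ l 5) (h4 : l 3 ≤ l 4) (h5 : l 0 ≤ l 3) : ∃ w, rt5.cn.Mem l w := by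
  refine ⟨_, ![l 0 / 2, (l 1 - l 0) / 12, (l 2 - l 5) / 12, (l 5 - l 4) / 6, (l 4 - l 3) / 4,
    (l 3 - l 0) / 3], ?_, ?_, rfl⟩
  · intro i
    fin_cases i <;> simp <;> linarith
  · intro k
    rw [Fin.sum_univ_six]
    fin_cases k <;> simp [rt5, C7.cn, Cn.vs, V7.vt, mkVt, Vt.L] <;> ring

/-- the root cones cover the reduced domain -/
theorem root_mem {l : Fin 6 → ℝ} (h0 : 0 ≤ l 0) (h1 : ∀ i, l 0 ≤ l i) (h3 : l 3 ≤ l 2)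
    (h4 : l 4 ≤ l 2) (h5 : l 5 ≤ l 2) : (∃ w, rt0.cn.Mem l w) ∨ (∃ w, rt1.cn.Mem l w) ∨
      (∃ w, rt2.cn.Mem l w) ∨ (∃ w, rt3.cn.Mem l w) ∨ (∃ w, rt4.cn.Mem l w) ∨
      ∃ w, rt5.cn.Mem l w := by
  rcases le_total (l 3) (l 4) with a | a <;> rcases le_total (l 3) (l 5) with b | b <;>
    rcases le_total (l 4) (l 5) with c | c
  -- 3 ≤ 4, 3 ≤ 5, 4 ≤ 5
  · exact Or.inr (Or.inr (Or.inr (Or.inr (Or.inr (rt5_mem h0 (h1 1) h5 c a (h1 3))))))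
  · exact Or.inr (Or.inr (Or.inr (Or.inl (rt3_mem h0 (h1 1) h4 c b (h1 3)))))
  · exact Or.inr (Or.inr (Or.inr (Or.inl (rt3_mem h0 (h1 1) h4 (b.trans a) (by linarith) (h1 3)))))
  · exact Or.inr (Or.inr (Or.inl (rt2_mem h0 (h1 1) h4 a b (h1 5))))
  · exact Or.inr (Or.inr (Or.inr (Or.inr (Or.inl (rt4_mem h0 (h1 1) h5 b a (h1 4))))))
  · exact Or.inr (Or.inr (Or.inl (rt2_mem h0 (h1 1) h4 (b.trans c) (by linarith) (h1 5))))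
  · exact Or.inr (Or.inl (rt1_mem h0 (h1 1) h3 b c (h1 4)))
  · exact Or.inl (rt0_mem h0 (h1 1) h3 a c (h1 5))

end Pool.Agent.Lib.EPX
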