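import Pool.Agent.Lib.EPX.RegS
import Pool.Agent.Lib.EPT.SReg

/-!
# EPX.SgS: soundness of the leaves in the region SREG
-/

namespace Pool.Agent.Lib.EPX

open Pool.Agent.Lib.EpZ Pool.Agent.Lib.FCC Pool.Agent.Lib.EPT

/-- the offset condition is monotone in the `D_k` -/
theorem off_mono {x y z D0 D1 D2 n0 n1 n2 : ℝ} (hx : 0 ≤ x) (hy : 0 ≤ y) (hz : 0 ≤ z)
    (h0 : 0 < n0) (h1 : 0 < n1) (h2 : 0 < n2) (g0 : n0 ≤ D0) (g1 : n1 ≤ D1) (g2 : n2 ≤ D2)
    (h : 200 * (x * n0 + y * n1 + z * n2) ≤ n0 * n1 * n2) :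
    200 * (x * D0 + y * D1 + z * D2) ≤ D0 * D1 * D2 := by
  have d0 : 0 < D0 := h0.trans_le g0
  have d1 : 0 < D1 := h1.trans_le g1
  have d2 : 0 < D2 := h2.trans_le g2
  -- one at a time
  have s0 : 200 * (x * D0 + y * n1 + z * n2) ≤ D0 * n1 * n2 := by
    have k : 200 * (y * n1 + z * n2) ≤ n0 * (n1 * n2 - 200 * x) := by nlinarith
    have k2 : 0 ≤ n1 * n2 - 200 * x := by
      by_contra hc
      push Not at hc
      have : n0 * (n1 * n2 - 200 * x) < 0 := mul_neg_of_pos_of_neg h0 hc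
      have : 0 ≤ y * n1 + z * n2 := by positivity
      linarith
    nlinarith [mul_le_mul_of_nonneg_right g0 k2]
  have s1 : 200 * (x * D0 + y * D1 + z * n2) ≤ D0 * D1 * n2 := by
    have k : 200 * (x * D0 + z * n2) ≤ n1 * (D0 * n2 - 200 * y) := by nlinarith
    have k2 : 0 ≤ D0 * n2 - 200 * y := by
      by_contra hc
      push Not at hc
      have : n1 * (D0 * n2 - 200 * y) < 0 := mul_neg_of_pos_of_neg h1 hc
      have : 0 ≤ x * D0 + z * n2 := by positivity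
      linarith
    nlinarith [mul_le_mul_of_nonneg_right g1 k2]
  have k : 200 * (x * D0 + y * D1) ≤ n2 * (D0 * D1 - 200 * z) := by nlinarith
  have k2 : 0 ≤ D0 * D1 - 200 * z := by
    by_contra hc
    push Not at hc
    have : n2 * (D0 * D1 - 200 * z) < 0 := mul_neg_of_pos_of_neg h2 hc
    have : 0 ≤ x * D0 + y * D1 := by positivity
    linarith
  nlinarith [mul_le_mul_of_nonneg_right g2 k2]

/-- Jensen for a square -/
theorem sq_comb {μ : Fin 6 → ℝ} (hμ : ∀ i, 0 ≤ μ i) (o : Fin 6 → ℝ) :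
    (∑ i, μ i * o i) ^ 2 ≤ (∑ i, μ i) * ∑ i, μ i * (o i) ^ 2 := by
  have h := Finset.sum_mul_sq_le_sq_mul_sq Finset.univ (fun i => Real.sqrt (μ i))
    (fun i => Real.sqrt (μ i) * o i)
  have e1 : ∀ i, Real.sqrt (μ i) * (Real.sqrt (μ i) * o i) = μ i * o i := fun i => by
    rw [← mul_assoc, Real.mul_self_sqrt (hμ i)]
  have e2 : ∀ i, Real.sqrt (μ i) ^ 2 = μ i := fun i => Real.sq_sqrt (hμ i)
  have e3 : ∀ i, (Real.sqrt (μ i) * o i) ^ 2 = μ i * o i ^ 2 := fun i => by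
    rw [mul_pow, Real.sq_sqrt (hμ i)]
  simp only [e1, e2, e3] at h
  exact h

/-- the region from scaled vertices `W_i` with equal sums: `m_k ≤ D_k(W_i)` -/
theorem sreg_cone {μ : Fin 6 → ℝ} (hμ : ∀ i, 0 ≤ μ i) (hM : 0 < ∑ i, μ i)
    {W : Fin 6 → Fin 6 → ℝ} {l : Fin 6 → ℝ} (hl : ∀ k, l k = ∑ i, μ i * W i k)
    {m0 m1 m2 : ℝ} (p0 : 0 < m0) (p1 : 0 < m1) (p2 : 0 < m2)
    (hd1 : ∀ i k, 8 * SP (W i) k ≤ 5 * Se (W i))
    (hd2 : ∀ i j k, 20 * SP (W i) j ≤ 20 * SP (W i) k + 11 * Se (W i))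
    (hm0 : ∀ i, m0 ≤ Se (W i) - SP (W i) 0) (hm1 : ∀ i, m1 ≤ Se (W i) - SP (W i) 1)
    (hm2 : ∀ i, m2 ≤ Se (W i) - SP (W i) 2)
    (ho : ∀ i, 200 * ((W i 0 - W i 1) ^ 2 * m0 + (W i 2 - W i 3) ^ 2 * m1 +
      (W i 4 - W i 5) ^ 2 * m2) ≤ m0 * m1 * m2) : SReg l := by
  set M := ∑ i, μ i with hMd
  have eSP : ∀ k, SP l k = ∑ i, μ i * SP (W i) k := by
    intro k
    fin_cases k <;> simp only [SP, hl, mul_add, Finset.sum_add_distrib]
  have eSe : Se l = ∑ i, μ i * Se (W i) := by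
    unfold Se
    simp only [hl, mul_add, Finset.sum_add_distrib]
  refine ⟨fun k => ?_, fun j k => ?_, ?_⟩
  · rw [eSP, eSe, Finset.mul_sum, Finset.mul_sum]
    refine Finset.sum_le_sum fun i _ => ?_
    have := mul_le_mul_of_nonneg_left (hd1 i k) (hμ i)
    linarith
  · rw [eSP, eSP, eSe, Finset.mul_sum, Finset.mul_sum, Finset.mul_sum, ← Finset.sum_add_distrib]
    refine Finset.sum_le_sum fun i _ => ?_
    have := mul_le_mul_of_nonneg_left (hd2 i j k) (hμ i)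
    linarith
  · have eD : ∀ k, ∀ m : ℝ, (∀ i, m ≤ Se (W i) - SP (W i) k) → M * m ≤ Se l - SP l k := by
      intro k m hm
      rw [eSP, eSe, ← Finset.sum_sub_distrib, hMd, Finset.sum_mul]
      refine Finset.sum_le_sum fun i _ => ?_
      rw [← mul_sub]
      exact mul_le_mul_of_nonneg_left (hm i) (hμ i)
    have q : ∀ a b : Fin 6, (l a - l b) ^ 2 ≤ M * ∑ i, μ i * (W i a - W i b) ^ 2 := by
      intro a b
      have := sq_comb hμ fun i => W i a - W i b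
      simp only [mul_sub, Finset.sum_sub_distrib] at this
      rw [hl a, hl b]
      exact this
    refine off_mono (sq_nonneg _) (sq_nonneg _) (sq_nonneg _) (mul_pos hM p0) (mul_pos hM p1)
      (mul_pos hM p2) (eD 0 m0 hm0) (eD 1 m1 hm1) (eD 2 m2 hm2) ?_
    have q0 := q 0 1
    have q1 := q 2 3
    have q2 := q 4 5
    have key : 200 * ((∑ i, μ i * (W i 0 - W i 1) ^ 2) * m0 + (∑ i, μ i * (W i 2 - W i 3) ^ 2) * m1
        + (∑ i, μ i * (W i 4 - W i 5) ^ 2) * m2) ≤ M * (m0 * m1 * m2) := by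
      rw [hMd, Finset.sum_mul, Finset.sum_mul, Finset.sum_mul, Finset.sum_mul,
        ← Finset.sum_add_distrib, ← Finset.sum_add_distrib, Finset.mul_sum]
      refine Finset.sum_le_sum fun i _ => ?_
      have := mul_le_mul_of_nonneg_left (ho i) (hμ i)
      linarith
    have M2 : 0 ≤ M ^ 2 := sq_nonneg M
    have r0 := mul_le_mul_of_nonneg_right q0 (mul_pos hM p0).le
    have r1 := mul_le_mul_of_nonneg_right q1 (mul_pos hM p1).le
    have r2 := mul_le_mul_of_nonneg_right q2 (mul_pos hM p2).le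
    have r3 := mul_le_mul_of_nonneg_left key M2
    nlinarith

theorem mi_le_left (a b : ℕ) : mi a b ≤ a := by
  unfold mi
  cases h : Nat.ble a b
  · have : ¬ a ≤ b := fun hc => by rw [Nat.ble_eq_true_of_le hc] at h; exact absurd h (by simp)
    show b ≤ a
    omega
  · exact le_refl a

theorem mi_le_right (a b : ℕ) : mi a b ≤ b := by
  unfold mi
  cases h : Nat.ble a b
  · exact le_refl b
  · exact Nat.le_of_ble_eq_true h

theorem le_ma_left (a b : ℕ) : a ≤ ma a b := by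
  unfold ma
  cases h : Nat.ble a b
  · exact le_refl a
  · exact Nat.le_of_ble_eq_true h

theorem le_ma_right (a b : ℕ) : b ≤ ma a b := by
  unfold ma
  cases h : Nat.ble a b
  · have : ¬ a ≤ b := fun hc => by rw [Nat.ble_eq_true_of_le hc] at h; exact absurd h (by simp)
    show b ≤ a
    omega
  · exact le_refl b

theorem min6_le (a b c d e f : ℕ) : min6 a b c d e f ≤ a ∧ min6 a b c d e f ≤ b ∧
    min6 a b c d e f ≤ c ∧ min6 a b c d e f ≤ d ∧ min6 a b c d e f ≤ e ∧ min6 a b c d e f ≤ f := by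
  have h1 := mi_le_left (mi (mi a b) (mi c d)) (mi e f)
  have h2 := mi_le_right (mi (mi a b) (mi c d)) (mi e f)
  have h3 := mi_le_left (mi a b) (mi c d)
  have h4 := mi_le_right (mi a b) (mi c d)
  have h5 := mi_le_left a b
  have h6 := mi_le_right a b
  have h7 := mi_le_left c d
  have h8 := mi_le_right c d
  have h9 := mi_le_left e f
  have h10 := mi_le_right e f
  unfold min6
  omega

theorem mi_pos {a b : ℕ} (ha : 0 < a) (hb : 0 < b) : 0 < mi a b := by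
  unfold mi
  cases Nat.ble a b
  · exact hb
  · exact ha

theorem min6_pos {a b c d e f : ℕ} (ha : 0 < a) (hb : 0 < b) (hc : 0 < c) (hd : 0 < d) (he : 0 < e)
    (hf : 0 < f) : 0 < min6 a b c d e f :=
  mi_pos (mi_pos (mi_pos ha hb) (mi_pos hc hd)) (mi_pos he hf)

theorem le_max6 (a b c d e f : ℕ) : a ≤ max6 a b c d e f ∧ b ≤ max6 a b c d e f ∧
    c ≤ max6 a b c d e f ∧ d ≤ max6 a b c d e f ∧ e ≤ max6 a b c d e f ∧ f ≤ max6 a b c d e f := by
  have h1 := le_ma_left (ma (ma a b) (ma c d)) (ma e f)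
  have h2 := le_ma_right (ma (ma a b) (ma c d)) (ma e f)
  have h3 := le_ma_left (ma a b) (ma c d)
  have h4 := le_ma_right (ma a b) (ma c d)
  have h5 := le_ma_left a b
  have h6 := le_ma_right a b
  have h7 := le_ma_left c d
  have h8 := le_ma_right c d
  have h9 := le_ma_left e f
  have h10 := le_ma_right e f
  unfold max6
  omega

theorem ad_sq (a b : ℕ) : ((ad a b : ℕ) : ℝ) ^ 2 = ((a : ℝ) - b) ^ 2 := by
  unfold ad
  show (((a - b + (b - a) : ℕ)) : ℝ) ^ 2 = _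
  rcases le_total a b with h | h
  · rw [Nat.sub_eq_zero_of_le h, zero_add, Nat.cast_sub h]; ring
  · rw [Nat.sub_eq_zero_of_le h, add_zero, Nat.cast_sub h]

/-- the meaning of `sgv` -/
theorem sgv_sound {m0 m1 m2 c : ℕ} {v : Vt} (hv : v.WF) (h : sgv m0 m1 m2 c v = true) :
    (∀ k, 8 * SP v.L k ≤ 5 * Se v.L) ∧ (∀ j k, 20 * SP v.L j ≤ 20 * SP v.L k + 11 * Se v.L) ∧
    200 * ((c * v.L 0 - c * v.L 1) ^ 2 * (m0 : ℝ) + (c * v.L 2 - c * v.L 3) ^ 2 * m1 +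
      (c * v.L 4 - c * v.L 5) ^ 2 * m2) ≤ m0 * m1 * m2 := by
  unfold sgv at h
  simp only [cnd_and] at h
  obtain ⟨h0, h1, h2, h3, h4⟩ := h
  have h0 := Nat.le_of_ble_eq_true h0
  have h1 := Nat.le_of_ble_eq_true h1
  have h2 := Nat.le_of_ble_eq_true h2
  have h3 := Nat.le_of_ble_eq_true h3
  have h4 := Nat.le_of_ble_eq_true h4
  simp only [Nat.add_eq, Nat.mul_eq] at h0 h1 h2 h3 h4
  have he := hv.e
  have eSe : Se v.L = v.e := by
    rw [he]; unfold Se; simp [Vt.L]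
  have s0 : SP v.L 0 = ((v.l0 + v.l1 : ℕ) : ℝ) := by simp [SP, Vt.L]
  have s1 : SP v.L 1 = ((v.l2 + v.l3 : ℕ) : ℝ) := by simp [SP, Vt.L]
  have s2 : SP v.L 2 = ((v.l4 + v.l5 : ℕ) : ℝ) := by simp [SP, Vt.L]
  obtain ⟨a0, a1, a2, -, -, -⟩ := min6_le (v.l0 + v.l1) (v.l2 + v.l3) (v.l4 + v.l5)
    (v.l0 + v.l1) (v.l2 + v.l3) (v.l4 + v.l5)
  obtain ⟨b0, b1, b2, -, -, -⟩ := le_max6 (v.l0 + v.l1) (v.l2 + v.l3) (v.l4 + v.l5)
    (v.l0 + v.l1) (v.l2 + v.l3) (v.l4 + v.l5)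
  refine ⟨fun k => ?_, fun j k => ?_, ?_⟩
  · rw [eSe]
    fin_cases k
    · show 8 * SP v.L 0 ≤ _
      rw [s0]; exact_mod_cast h0
    · show 8 * SP v.L 1 ≤ _
      rw [s1]; exact_mod_cast h1
    · show 8 * SP v.L 2 ≤ _
      rw [s2]; exact_mod_cast h2
  · rw [eSe]
    have key : ∀ x y : ℕ, x ≤ max6 (v.l0 + v.l1) (v.l2 + v.l3) (v.l4 + v.l5)
        (v.l0 + v.l1) (v.l2 + v.l3) (v.l4 + v.l5) →
        min6 (v.l0 + v.l1) (v.l2 + v.l3) (v.l4 + v.l5) (v.l0 + v.l1) (v.l2 + v.l3) (v.l4 + v.l5)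
        ≤ y → 20 * (x : ℝ) ≤ 20 * (y : ℝ) + 11 * v.e := by
      intro x y hx hy
      have : 20 * x ≤ 20 * y + 11 * v.e := by omega
      exact_mod_cast this
    fin_cases j <;> fin_cases k
    · show 20 * SP v.L 0 ≤ 20 * SP v.L 0 + _
      rw [s0]; exact key _ _ b0 a0
    · show 20 * SP v.L 0 ≤ 20 * SP v.L 1 + _
      rw [s0, s1]; exact key _ _ b0 a1
    · show 20 * SP v.L 0 ≤ 20 * SP v.L 2 + _
      rw [s0, s2]; exact key _ _ b0 a2
    · show 20 * SP v.L 1 ≤ 20 * SP v.L 0 + _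
      rw [s0, s1]; exact key _ _ b1 a0
    · show 20 * SP v.L 1 ≤ 20 * SP v.L 1 + _
      rw [s1]; exact key _ _ b1 a1
    · show 20 * SP v.L 1 ≤ 20 * SP v.L 2 + _
      rw [s1, s2]; exact key _ _ b1 a2
    · show 20 * SP v.L 2 ≤ 20 * SP v.L 0 + _
      rw [s0, s2]; exact key _ _ b2 a0
    · show 20 * SP v.L 2 ≤ 20 * SP v.L 1 + _
      rw [s1, s2]; exact key _ _ b2 a1
    · show 20 * SP v.L 2 ≤ 20 * SP v.L 2 + _
      rw [s2]; exact key _ _ b2 a2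
  · have h5 : 200 * (((c * ad v.l0 v.l1 : ℕ) : ℝ) ^ 2 * m0 + ((c * ad v.l2 v.l3 : ℕ) : ℝ) ^ 2 * m1 +
        ((c * ad v.l4 v.l5 : ℕ) : ℝ) ^ 2 * m2) ≤ m0 * m1 * m2 := by
      have h6 : 200 * ((c * ad v.l0 v.l1) ^ 2 * m0 + (c * ad v.l2 v.l3) ^ 2 * m1 +
        (c * ad v.l4 v.l5) ^ 2 * m2) ≤ m0 * m1 * m2 := by
        simpa only [pow_two] using h4
      exact_mod_cast h6
    have e0 : (c * v.L 0 - c * v.L 1) ^ 2 = ((c * ad v.l0 v.l1 : ℕ) : ℝ) ^ 2 := by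
      push_cast
      rw [mul_pow, ad_sq]
      simp [Vt.L]
      ring
    have e1 : (c * v.L 2 - c * v.L 3) ^ 2 = ((c * ad v.l2 v.l3 : ℕ) : ℝ) ^ 2 := by
      push_cast
      rw [mul_pow, ad_sq]
      simp [Vt.L]
      ring
    have e2 : (c * v.L 4 - c * v.L 5) ^ 2 = ((c * ad v.l4 v.l5 : ℕ) : ℝ) ^ 2 := by
      push_cast
      rw [mul_pow, ad_sq]
      simp [Vt.L]
      ring
    rw [e0, e1, e2]
    exact h5

/-- SOUNDNESS OF THE SREG LEAVES -/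
theorem sg_sound {C : Cn} (hC : C.WF) {l : Fin 6 → ℝ} {w : ℝ} (hM : C.Mem l w) (hd : 0 < dt l)
    (h : sgC C = true) : SReg l := by
  obtain ⟨t, ht, hl, -⟩ := hM
  unfold sgC at h
  simp only [cnd_and] at h
  obtain ⟨e0, e1, e2, e3, e4, e5, g0, g1, g2, g3, g4, g5⟩ := h
  have e0 := Nat.eq_of_beq_eq_true e0
  have e1 := Nat.eq_of_beq_eq_true e1
  have e2 := Nat.eq_of_beq_eq_true e2
  have e3 := Nat.eq_of_beq_eq_true e3
  have e4 := Nat.eq_of_beq_eq_true e4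
  have e5 := Nat.eq_of_beq_eq_true e5
  set E := max6 C.v0.e C.v1.e C.v2.e C.v3.e C.v4.e C.v5.e with hE
  simp only [Nat.mul_eq, Nat.add_eq] at e0 e1 e2 e3 e4 e5 g0 g1 g2 g3 g4 g5
  set c : Fin 6 → ℕ := ![Nat.div E C.v0.e, Nat.div E C.v1.e, Nat.div E C.v2.e, Nat.div E C.v3.e,
    Nat.div E C.v4.e, Nat.div E C.v5.e] with hc
  have he : ∀ i, c i * (C.vs i).e = E := by
    intro i
    fin_cases i
    · exact e0
    · exact e1
    · exact e2
    · exact e3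
    · exact e4
    · exact e5
  set m0 := min6 (c 0 * (C.v0.l2 + C.v0.l3 + (C.v0.l4 + C.v0.l5)))
    (c 1 * (C.v1.l2 + C.v1.l3 + (C.v1.l4 + C.v1.l5))) (c 2 * (C.v2.l2 + C.v2.l3 + (C.v2.l4 + C.v2.l5)))
    (c 3 * (C.v3.l2 + C.v3.l3 + (C.v3.l4 + C.v3.l5))) (c 4 * (C.v4.l2 + C.v4.l3 + (C.v4.l4 + C.v4.l5)))
    (c 5 * (C.v5.l2 + C.v5.l3 + (C.v5.l4 + C.v5.l5))) with hm0
  set m1 := min6 (c 0 * (C.v0.l0 + C.v0.l1 + (C.v0.l4 + C.v0.l5)))
    (c 1 * (C.v1.l0 + C.v1.l1 + (C.v1.l4 + C.v1.l5))) (c 2 * (C.v2.l0 + C.v2.l1 + (C.v2.l4 + C.v2.l5)))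
    (c 3 * (C.v3.l0 + C.v3.l1 + (C.v3.l4 + C.v3.l5))) (c 4 * (C.v4.l0 + C.v4.l1 + (C.v4.l4 + C.v4.l5)))
    (c 5 * (C.v5.l0 + C.v5.l1 + (C.v5.l4 + C.v5.l5))) with hm1
  set m2 := min6 (c 0 * (C.v0.l0 + C.v0.l1 + (C.v0.l2 + C.v0.l3)))
    (c 1 * (C.v1.l0 + C.v1.l1 + (C.v1.l2 + C.v1.l3))) (c 2 * (C.v2.l0 + C.v2.l1 + (C.v2.l2 + C.v2.l3)))
    (c 3 * (C.v3.l0 + C.v3.l1 + (C.v3.l2 + C.v3.l3))) (c 4 * (C.v4.l0 + C.v4.l1 + (C.v4.l2 + C.v4.l3)))
    (c 5 * (C.v5.l0 + C.v5.l1 + (C.v5.l2 + C.v5.l3))) with hm2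
  have hg : ∀ i, sgv m0 m1 m2 (c i) (C.vs i) = true := by
    intro i
    fin_cases i
    · exact g0
    · exact g1
    · exact g2
    · exact g3
    · exact g4
    · exact g5
  -- sums
  have hSe : ∀ i, Se (C.vs i).L = (C.vs i).e := fun i => by
    rw [(hC i).e]; unfold Se; simp [Vt.L]
  have hEpos : 0 < E := by
    rcases Nat.eq_zero_or_pos E with h0 | h0
    · exfalso
      obtain ⟨a0, a1, a2, a3, a4, a5⟩ := le_max6 C.v0.e C.v1.e C.v2.e C.v3.e C.v4.e C.v5.e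
      rw [← hE, h0] at a0 a1 a2 a3 a4 a5
      have hz : ∀ i, (C.vs i).e = 0 := by
        intro i
        fin_cases i
        · exact Nat.le_zero.mp a0
        · exact Nat.le_zero.mp a1
        · exact Nat.le_zero.mp a2
        · exact Nat.le_zero.mp a3
        · exact Nat.le_zero.mp a4
        · exact Nat.le_zero.mp a5
      have hz2 : ∀ i k, (C.vs i).L k = 0 := by
        intro i k
        have h1 := (hC i).e
        rw [hz i] at h1
        fin_cases k <;> simp [Vt.L] <;> omega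
      have hz3 : ∀ k, l k = 0 := fun k => by rw [hl k]; simp [hz2]
      unfold dt at hd
      simp [hz3] at hd
    · exact h0
  have hcpos : ∀ i, 0 < c i := fun i => by
    rcases Nat.eq_zero_or_pos (c i) with h0 | h0
    · have := he i; rw [h0, zero_mul] at this; omega
    · exact h0
  have hcr : ∀ i, (0 : ℝ) < c i := fun i => by exact_mod_cast hcpos i
  have hl' : ∀ k, l k = ∑ i, t i / c i * (c i * (C.vs i).L k) := fun k => by
    rw [hl k]
    refine Finset.sum_congr rfl fun i _ => ?_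
    have := (hcr i).ne'
    field_simp
  have hμ : ∀ i, 0 ≤ t i / c i := fun i => div_nonneg (ht i) (hcr i).le
  have hMpos := sum_pos_of hμ hl' hd
  have hSW : ∀ i, Se (fun k => c i * (C.vs i).L k) = E := fun i => by
    have : Se (fun k => c i * (C.vs i).L k) = c i * Se (C.vs i).L := by unfold Se; ring
    rw [this, hSe i, ← he i]
    push_cast
    ring
  have hSPW : ∀ i k, SP (fun k => c i * (C.vs i).L k) k = c i * SP (C.vs i).L k := fun i k => by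
    fin_cases k <;> simp [SP] <;> ring
  have hD : ∀ (i : Fin 6) (k : Fin 3), Se (fun k => c i * (C.vs i).L k) -
      SP (fun k => c i * (C.vs i).L k) k = c i * (Se (C.vs i).L - SP (C.vs i).L k) := fun i k => by
    rw [hSPW]
    have : Se (fun k => c i * (C.vs i).L k) = c i * Se (C.vs i).L := by unfold Se; ring
    rw [this]; ring
  have b0 : ∀ i, (m0 : ℝ) ≤ Se (fun k => c i * (C.vs i).L k) - SP (fun k => c i * (C.vs i).L k) 0 := by
    intro i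
    rw [hD]
    obtain ⟨a0, a1, a2, a3, a4, a5⟩ := min6_le (c 0 * (C.v0.l2 + C.v0.l3 + (C.v0.l4 + C.v0.l5)))
      (c 1 * (C.v1.l2 + C.v1.l3 + (C.v1.l4 + C.v1.l5)))
      (c 2 * (C.v2.l2 + C.v2.l3 + (C.v2.l4 + C.v2.l5)))
      (c 3 * (C.v3.l2 + C.v3.l3 + (C.v3.l4 + C.v3.l5)))
      (c 4 * (C.v4.l2 + C.v4.l3 + (C.v4.l4 + C.v4.l5)))
      (c 5 * (C.v5.l2 + C.v5.l3 + (C.v5.l4 + C.v5.l5)))
    rw [← hm0] at a0 a1 a2 a3 a4 a5
    have key : ∀ (v : Vt) (x : ℕ), m0 ≤ x * (v.l2 + v.l3 + (v.l4 + v.l5)) →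
        (m0 : ℝ) ≤ x * (Se v.L - SP v.L 0) := by
      intro v x hx
      have e : Se v.L - SP v.L 0 = ((v.l2 + v.l3 + (v.l4 + v.l5) : ℕ) : ℝ) := by
        unfold Se SP; simp [Vt.L]; ring
      rw [e]
      exact_mod_cast hx
    fin_cases i
    · exact key _ _ a0
    · exact key _ _ a1
    · exact key _ _ a2
    · exact key _ _ a3
    · exact key _ _ a4
    · exact key _ _ a5
  have b1 : ∀ i, (m1 : ℝ) ≤ Se (fun k => c i * (C.vs i).L k) - SP (fun k => c i * (C.vs i).L k) 1 := by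
    intro i
    rw [hD]
    obtain ⟨a0, a1, a2, a3, a4, a5⟩ := min6_le (c 0 * (C.v0.l0 + C.v0.l1 + (C.v0.l4 + C.v0.l5)))
      (c 1 * (C.v1.l0 + C.v1.l1 + (C.v1.l4 + C.v1.l5)))
      (c 2 * (C.v2.l0 + C.v2.l1 + (C.v2.l4 + C.v2.l5)))
      (c 3 * (C.v3.l0 + C.v3.l1 + (C.v3.l4 + C.v3.l5)))
      (c 4 * (C.v4.l0 + C.v4.l1 + (C.v4.l4 + C.v4.l5)))
      (c 5 * (C.v5.l0 + C.v5.l1 + (C.v5.l4 + C.v5.l5)))
    rw [← hm1] at a0 a1 a2 a3 a4 a5
    have key : ∀ (v : Vt) (x : ℕ), m1 ≤ x * (v.l0 + v.l1 + (v.l4 + v.l5)) →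
        (m1 : ℝ) ≤ x * (Se v.L - SP v.L 1) := by
      intro v x hx
      have e : Se v.L - SP v.L 1 = ((v.l0 + v.l1 + (v.l4 + v.l5) : ℕ) : ℝ) := by
        unfold Se SP; simp [Vt.L]; ring
      rw [e]
      exact_mod_cast hx
    fin_cases i
    · exact key _ _ a0
    · exact key _ _ a1
    · exact key _ _ a2
    · exact key _ _ a3
    · exact key _ _ a4
    · exact key _ _ a5
  have b2 : ∀ i, (m2 : ℝ) ≤ Se (fun k => c i * (C.vs i).L k) - SP (fun k => c i * (C.vs i).L k) 2 := by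
    intro i
    rw [hD]
    obtain ⟨a0, a1, a2, a3, a4, a5⟩ := min6_le (c 0 * (C.v0.l0 + C.v0.l1 + (C.v0.l2 + C.v0.l3)))
      (c 1 * (C.v1.l0 + C.v1.l1 + (C.v1.l2 + C.v1.l3)))
      (c 2 * (C.v2.l0 + C.v2.l1 + (C.v2.l2 + C.v2.l3)))
      (c 3 * (C.v3.l0 + C.v3.l1 + (C.v3.l2 + C.v3.l3)))
      (c 4 * (C.v4.l0 + C.v4.l1 + (C.v4.l2 + C.v4.l3)))
      (c 5 * (C.v5.l0 + C.v5.l1 + (C.v5.l2 + C.v5.l3)))
    rw [← hm2] at a0 a1 a2 a3 a4 a5
    have key : ∀ (v : Vt) (x : ℕ), m2 ≤ x * (v.l0 + v.l1 + (v.l2 + v.l3)) →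
        (m2 : ℝ) ≤ x * (Se v.L - SP v.L 2) := by
      intro v x hx
      have e : Se v.L - SP v.L 2 = ((v.l0 + v.l1 + (v.l2 + v.l3) : ℕ) : ℝ) := by
        unfold Se SP; simp [Vt.L]; ring
      rw [e]
      exact_mod_cast hx
    fin_cases i
    · exact key _ _ a0
    · exact key _ _ a1
    · exact key _ _ a2
    · exact key _ _ a3
    · exact key _ _ a4
    · exact key _ _ a5
  have hs := fun i => sgv_sound (hC i) (hg i)
  have hepos : ∀ i, 0 < (C.vs i).e := fun i => by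
    rcases Nat.eq_zero_or_pos (C.vs i).e with h0 | h0
    · have := he i; rw [h0, mul_zero] at this; omega
    · exact h0
  have q0 : ∀ i, 0 < c i * ((C.vs i).l2 + (C.vs i).l3 + ((C.vs i).l4 + (C.vs i).l5)) := fun i => by
    refine Nat.mul_pos (hcpos i) ?_
    have h1 := (hs i).1 0
    rw [hSe i] at h1
    have h2 : 8 * ((C.vs i).l0 + (C.vs i).l1) ≤ 5 * (C.vs i).e := by
      have e : SP (C.vs i).L 0 = (((C.vs i).l0 + (C.vs i).l1 : ℕ) : ℝ) := by simp [SP, Vt.L]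
      rw [e] at h1
      exact_mod_cast h1
    have := (hC i).e
    have := hepos i
    omega
  have q1 : ∀ i, 0 < c i * ((C.vs i).l0 + (C.vs i).l1 + ((C.vs i).l4 + (C.vs i).l5)) := fun i => by
    refine Nat.mul_pos (hcpos i) ?_
    have h1 := (hs i).1 1
    rw [hSe i] at h1
    have h2 : 8 * ((C.vs i).l2 + (C.vs i).l3) ≤ 5 * (C.vs i).e := by
      have e : SP (C.vs i).L 1 = (((C.vs i).l2 + (C.vs i).l3 : ℕ) : ℝ) := by simp [SP, Vt.L]
      rw [e] at h1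
      exact_mod_cast h1
    have := (hC i).e
    have := hepos i
    omega
  have q2 : ∀ i, 0 < c i * ((C.vs i).l0 + (C.vs i).l1 + ((C.vs i).l2 + (C.vs i).l3)) := fun i => by
    refine Nat.mul_pos (hcpos i) ?_
    have h1 := (hs i).1 2
    rw [hSe i] at h1
    have h2 : 8 * ((C.vs i).l4 + (C.vs i).l5) ≤ 5 * (C.vs i).e := by
      have e : SP (C.vs i).L 2 = (((C.vs i).l4 + (C.vs i).l5 : ℕ) : ℝ) := by simp [SP, Vt.L]
      rw [e] at h1
      exact_mod_cast h1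
    have := (hC i).e
    have := hepos i
    omega
  have p0 : 0 < m0 := min6_pos (q0 0) (q0 1) (q0 2) (q0 3) (q0 4) (q0 5)
  have p1 : 0 < m1 := min6_pos (q1 0) (q1 1) (q1 2) (q1 3) (q1 4) (q1 5)
  have p2 : 0 < m2 := min6_pos (q2 0) (q2 1) (q2 2) (q2 3) (q2 4) (q2 5)
  refine sreg_cone hμ hMpos (W := fun i k => c i * (C.vs i).L k) hl' (m0 := m0) (m1 := m1) (m2 := m2)
    (by exact_mod_cast p0) (by exact_mod_cast p1) (by exact_mod_cast p2) ?_ ?_ b0 b1 b2 ?_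
  · intro i k
    rw [hSPW, hSW, ← he i]
    have := mul_le_mul_of_nonneg_left ((hs i).1 k) (hcr i).le
    rw [hSe i] at this
    push_cast
    linarith
  · intro i j k
    rw [hSPW, hSPW, hSW, ← he i]
    have := mul_le_mul_of_nonneg_left ((hs i).2.1 j k) (hcr i).le
    rw [hSe i] at this
    push_cast
    linarith
  · intro i
    exact (hs i).2.2

end Pool.Agent.Lib.EPX
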