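import Pool.Agent.Lib.EPX.SemX
import Pool.Agent.Lib.EPH.Wide
import Pool.Agent.Lib.FCC.DetC

/-!
# EPX.SrS: soundness of the leaves in the region SRW
-/

open Matrix
open scoped Matrix.Norms.Elementwise

namespace Pool.Agent.Lib.EPX

open Pool.Agent.Lib.EpZ Pool.Agent.Lib.FCC Pool.Agent.Lib.EPH

/-- six natural numbers as Selling parameters -/
def N6.L (n : N6) : Fin 6 → ℝ := ![n.a0, n.a1, n.a2, n.a3, n.a4, n.a5]

/-- exchange of two superbase vectors -/
def G1 (l : Fin 6 → ℝ) : Fin 6 → ℝ := ![l 0, l 1, l 5, l 4, l 3, l 2]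
/-- a cycle of three superbase vectors -/
def G2 (l : Fin 6 → ℝ) : Fin 6 → ℝ := ![l 5, l 4, l 0, l 1, l 3, l 2]
/-- a cycle of four superbase vectors -/
def G3 (l : Fin 6 → ℝ) : Fin 6 → ℝ := ![l 5, l 4, l 3, l 2, l 0, l 1]

theorem g1_L (n : N6) : n.g1.L = G1 n.L := by
  funext k; fin_cases k <;> rfl
theorem g2_L (n : N6) : n.g2.L = G2 n.L := by
  funext k; fin_cases k <;> rfl
theorem g3_L (n : N6) : n.g3.L = G3 n.L := by
  funext k; fin_cases k <;> rfl

theorem act_G1 (l : Fin 6 → ℝ) : formOf (G1 l) = act !![0, 1, 0; 1, 0, 0; 0, 0, 1] (formOf l) := by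
  unfold act formOf G1
  ext i j
  fin_cases i <;> fin_cases j <;>
    simp [Matrix.mul_apply, Fin.sum_univ_three, Matrix.transpose_apply] <;> ring

theorem act_G2 (l : Fin 6 → ℝ) : formOf (G2 l) = act !![0, 0, 1; 1, 0, 0; 0, 1, 0] (formOf l) := by
  unfold act formOf G2
  ext i j
  fin_cases i <;> fin_cases j <;>
    simp [Matrix.mul_apply, Fin.sum_univ_three, Matrix.transpose_apply] <;> ring

theorem act_G3 (l : Fin 6 → ℝ) :
    formOf (G3 l) = act !![0, 0, -1; 1, 0, -1; 0, 1, -1] (formOf l) := by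
  unfold act formOf G3
  ext i j
  fin_cases i <;> fin_cases j <;>
    simp [Matrix.mul_apply, Fin.sum_univ_three, Matrix.transpose_apply] <;> ring

/-- `l` is a nonnegative nonzero combination of the `V i`, and its form is a local minimum -/
def Rep (s : ℝ) (t : Fin 6 → ℝ) (V : Fin 6 → N6) : Prop :=
  ∃ l : Fin 6 → ℝ, (∀ k, l k = ∑ i, t i * (V i).L k) ∧ LocMin s (formOf l)

theorem Rep.map {s : ℝ} {t : Fin 6 → ℝ} {V : Fin 6 → N6} (h : Rep s t V) {g : N6 → N6}
    {G : (Fin 6 → ℝ) → Fin 6 → ℝ} (hg : ∀ n, (g n).L = G n.L)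
    (hG : ∀ l : Fin 6 → ℝ, (∀ k, l k = ∑ i, t i * (V i).L k) → ∀ k, G l k = ∑ i, t i * G (V i).L k)
    (U : Matrix (Fin 3) (Fin 3) ℤ) (hU : IsUnit U.det)
    (hact : ∀ l, formOf (G l) = act U (formOf l)) : Rep s t fun i => g (V i) := by
  obtain ⟨l, hl, hm⟩ := h
  refine ⟨G l, fun k => ?_, ?_⟩
  · rw [hG l hl k]
    exact Finset.sum_congr rfl fun i _ => by rw [hg]
  · exact Eqv.locMin ⟨U, hU, hact l⟩ hm

theorem Rep.g1 {s : ℝ} {t : Fin 6 → ℝ} {V : Fin 6 → N6} (h : Rep s t V) :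
    Rep s t fun i => (V i).g1 :=
  h.map (G := G1) g1_L (fun l hl k => by fin_cases k <;> simp [G1, hl]) _ (by decide) act_G1

theorem Rep.g2 {s : ℝ} {t : Fin 6 → ℝ} {V : Fin 6 → N6} (h : Rep s t V) :
    Rep s t fun i => (V i).g2 :=
  h.map (G := G2) g2_L (fun l hl k => by fin_cases k <;> simp [G2, hl]) _ (by decide) act_G2

theorem Rep.g3 {s : ℝ} {t : Fin 6 → ℝ} {V : Fin 6 → N6} (h : Rep s t V) :
    Rep s t fun i => (V i).g3 :=
  h.map (G := G3) g3_L (fun l hl k => by fin_cases k <;> simp [G3, hl]) _ (by decide) act_G3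

theorem Rep.itr {s : ℝ} {t : Fin 6 → ℝ} {g : N6 → N6}
    (hg : ∀ V : Fin 6 → N6, Rep s t V → Rep s t fun i => g (V i)) (n : ℕ) :
    ∀ V : Fin 6 → N6, Rep s t V → Rep s t fun i => itr g n (V i) := by
  induction n with
  | zero => exact fun V h => h
  | succ n ih => exact fun V h => hg _ (ih V h)

/-- the supremum of the shift functional -/
theorem shift_le {A B C p r a b : ℝ} (hA : 0 < A) (hdt : 0 < A * C - B ^ 2) :
    (A * C - B ^ 2) * (2 * (a * p + b * r) - (A * a ^ 2 + 2 * B * a * b + C * b ^ 2)) ≤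
      C * p ^ 2 - 2 * B * p * r + A * r ^ 2 := by
  have h : 0 ≤ C * (p - A * a - B * b) ^ 2 - 2 * B * (p - A * a - B * b) * (r - B * a - C * b) +
      A * (r - B * a - C * b) ^ 2 := by
    have h1 : 0 ≤ A * (C * (p - A * a - B * b) ^ 2 -
        2 * B * (p - A * a - B * b) * (r - B * a - C * b) + A * (r - B * a - C * b) ^ 2) := by
      have e : A * (C * (p - A * a - B * b) ^ 2 -
        2 * B * (p - A * a - B * b) * (r - B * a - C * b) + A * (r - B * a - C * b) ^ 2) =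
        (A * C - B ^ 2) * (p - A * a - B * b) ^ 2 +
          (A * (r - B * a - C * b) - B * (p - A * a - B * b)) ^ 2 := by ring
      rw [e]
      positivity
    exact nonneg_of_mul_nonneg_right h1 hA
  nlinarith

/-- the linear conditions of SRW at a vertex: `A, B, C, p, r, Z` the entries of the form -/
structure VC (A B C p r Z : ℝ) : Prop where
  pos : 0 < A
  le1 : 10 * A ≤ 11 * C
  le5 : C ≤ 5 * A
  off1 : 20 * B ≤ 11 * A
  off2 : -(20 * B) ≤ 11 * A
  shA : ∀ a b : ℝ, 26 * (2 * (a * p + b * r) - (A * a ^ 2 + 2 * B * a * b + C * b ^ 2)) ≤ A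
  shC : ∀ a b : ℝ, 26 * (2 * (a * p + b * r) - (A * a ^ 2 + 2 * B * a * b + C * b ^ 2)) ≤ C
  shE : ∀ a b : ℝ, 26 * (2 * (a * p + b * r) - (A * a ^ 2 + 2 * B * a * b + C * b ^ 2)) ≤
    A + C - 2 * B
  shF : ∀ a b : ℝ, 26 * (2 * (a * p + b * r) - (A * a ^ 2 + 2 * B * a * b + C * b ^ 2)) ≤
    A + C + 2 * B
  high : ∀ a b : ℝ, 5 * (2 * (a * p + b * r) - (A * a ^ 2 + 2 * B * a * b + C * b ^ 2)) + 2 * A ≤
    5 * Z

/-- from the bounds by `S / D` -/
theorem VC.of {A B C p r Z D S : ℝ} (hA : 0 ≤ A) (hD : 0 < D) (eD : A * C - B ^ 2 = D)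
    (eS : C * p ^ 2 - 2 * B * p * r + A * r ^ 2 = S) (h1 : 10 * A ≤ 11 * C) (h5 : C ≤ 5 * A)
    (o1 : 20 * B ≤ 11 * A) (o2 : -(20 * B) ≤ 11 * A)
    (sA : 26 * S ≤ A * D) (sC : 26 * S ≤ C * D) (sE : 26 * S ≤ (A + C - 2 * B) * D)
    (sF : 26 * S ≤ (A + C + 2 * B) * D) (hZ : 5 * S + 2 * A * D ≤ 5 * Z * D) :
    VC A B C p r Z := by
  have hA' : 0 < A := by
    rcases hA.eq_or_lt with h | h
    · rw [← h] at eD
      nlinarith [sq_nonneg B]
    · exact h
  have key : ∀ a b : ℝ, D * (2 * (a * p + b * r) - (A * a ^ 2 + 2 * B * a * b + C * b ^ 2)) ≤ S := by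
    intro a b
    rw [← eD, ← eS]
    exact shift_le hA' (by rw [eD]; exact hD)
  have fin : ∀ (a b c X : ℝ), 0 ≤ c → c * S ≤ X * D →
      c * (2 * (a * p + b * r) - (A * a ^ 2 + 2 * B * a * b + C * b ^ 2)) ≤ X := by
    intro a b c X hc hX
    have h := mul_le_mul_of_nonneg_left (key a b) hc
    have : D * (c * (2 * (a * p + b * r) - (A * a ^ 2 + 2 * B * a * b + C * b ^ 2))) ≤ D * X := by
      nlinarith
    exact le_of_mul_le_mul_left this hD
  refine ⟨hA', h1, h5, o1, o2, fun a b => fin a b 26 _ (by norm_num) sA,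
    fun a b => fin a b 26 _ (by norm_num) sC, fun a b => fin a b 26 _ (by norm_num) sE,
    fun a b => fin a b 26 _ (by norm_num) sF, fun a b => ?_⟩
  have := fin a b 5 (5 * Z - 2 * A) (by norm_num) (by linarith)
  linarith

/-- the conditions are convex -/
theorem VC.comb {t A B C p r Z : Fin 6 → ℝ} (ht : ∀ i, 0 ≤ t i) (hT : 0 < ∑ i, t i)
    (h : ∀ i, VC (A i) (B i) (C i) (p i) (r i) (Z i)) :
    VC (∑ i, t i * A i) (∑ i, t i * B i) (∑ i, t i * C i) (∑ i, t i * p i) (∑ i, t i * r i)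
      (∑ i, t i * Z i) := by
  have lin : ∀ f g : Fin 6 → ℝ, (∀ i, f i ≤ g i) → ∑ i, t i * f i ≤ ∑ i, t i * g i :=
    fun f g hfg => Finset.sum_le_sum fun i _ => mul_le_mul_of_nonneg_left (hfg i) (ht i)
  have hpos : 0 < ∑ i, t i * A i := by
    have h0 : ∀ i, 0 ≤ t i * A i := fun i => mul_nonneg (ht i) (h i).pos.le
    rcases (Finset.sum_nonneg fun i (_ : i ∈ Finset.univ) => h0 i).eq_or_lt with h1 | h1
    · exfalso
      have h2 : ∀ i, t i = 0 := fun i => by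
        have := (Finset.sum_eq_zero_iff_of_nonneg fun i _ => h0 i).mp h1.symm i (Finset.mem_univ i)
        rcases mul_eq_zero.mp this with h3 | h3
        · exact h3
        · exact absurd h3 (h i).pos.ne'
      simp [h2] at hT
    · exact h1
  refine ⟨hpos, ?_, ?_, ?_, ?_, fun a b => ?_, fun a b => ?_, fun a b => ?_, fun a b => ?_,
    fun a b => ?_⟩
  · have := lin (fun i => 10 * A i) (fun i => 11 * C i) fun i => (h i).le1
    simp only [Finset.mul_sum]
    calc _ = ∑ i, t i * (10 * A i) := Finset.sum_congr rfl fun i _ => by ring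
      _ ≤ _ := this
      _ = _ := Finset.sum_congr rfl fun i _ => by ring
  · have := lin (fun i => C i) (fun i => 5 * A i) fun i => (h i).le5
    simp only [Finset.mul_sum]
    calc _ ≤ _ := this
      _ = _ := Finset.sum_congr rfl fun i _ => by ring
  · have := lin (fun i => 20 * B i) (fun i => 11 * A i) fun i => (h i).off1
    simp only [Finset.mul_sum]
    calc _ = ∑ i, t i * (20 * B i) := Finset.sum_congr rfl fun i _ => by ring
      _ ≤ _ := this
      _ = _ := Finset.sum_congr rfl fun i _ => by ring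
  · have := lin (fun i => -(20 * B i)) (fun i => 11 * A i) fun i => (h i).off2
    simp only [Finset.mul_sum, ← Finset.sum_neg_distrib]
    calc _ = ∑ i, t i * (-(20 * B i)) := Finset.sum_congr rfl fun i _ => by ring
      _ ≤ _ := this
      _ = _ := Finset.sum_congr rfl fun i _ => by ring
  · have := lin _ _ fun i => (h i).shA a b
    refine le_trans (le_of_eq ?_) this
    simp only [Finset.mul_sum, Finset.sum_mul, ← Finset.sum_add_distrib, ← Finset.sum_sub_distrib]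
    exact Finset.sum_congr rfl fun i _ => by ring
  · have := lin _ _ fun i => (h i).shC a b
    refine le_trans (le_of_eq ?_) this
    simp only [Finset.mul_sum, Finset.sum_mul, ← Finset.sum_add_distrib, ← Finset.sum_sub_distrib]
    exact Finset.sum_congr rfl fun i _ => by ring
  · have := lin _ _ fun i => (h i).shE a b
    refine le_trans (le_of_eq ?_) (le_trans this (le_of_eq ?_))
    · simp only [Finset.mul_sum, Finset.sum_mul, ← Finset.sum_add_distrib,
        ← Finset.sum_sub_distrib]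
      exact Finset.sum_congr rfl fun i _ => by ring
    · simp only [Finset.mul_sum, ← Finset.sum_add_distrib, ← Finset.sum_sub_distrib]
      exact Finset.sum_congr rfl fun i _ => by ring
  · have := lin _ _ fun i => (h i).shF a b
    refine le_trans (le_of_eq ?_) (le_trans this (le_of_eq ?_))
    · simp only [Finset.mul_sum, Finset.sum_mul, ← Finset.sum_add_distrib,
        ← Finset.sum_sub_distrib]
      exact Finset.sum_congr rfl fun i _ => by ring
    · simp only [Finset.mul_sum, ← Finset.sum_add_distrib]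
      exact Finset.sum_congr rfl fun i _ => by ring
  · have := lin _ _ fun i => (h i).high a b
    refine le_trans (le_of_eq ?_) (le_trans this (le_of_eq ?_))
    · simp only [Finset.mul_sum, Finset.sum_mul, ← Finset.sum_add_distrib,
        ← Finset.sum_sub_distrib]
      exact Finset.sum_congr rfl fun i _ => by ring
    · simp only [Finset.mul_sum]
      exact Finset.sum_congr rfl fun i _ => by ring

/-- from `VC` for the entries to `SRW` -/
theorem VC.srw {Q : Mx 3} (hs : Q.IsSymm)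
    (h : VC (Q 0 0) (Q 0 1) (Q 1 1) (Q 0 2) (Q 1 2) (Q 2 2)) : SRW Q :=
  ⟨hs, h.pos, h.le1, h.le5, h.off1, h.off2, h.shA, h.shC, h.shE, h.shF, h.high⟩

theorem isSymm_of {Q : Mx 3} (h1 : Q 0 1 = Q 1 0) (h2 : Q 0 2 = Q 2 0) (h3 : Q 1 2 = Q 2 1) :
    Q.IsSymm := by
  ext i j
  fin_cases i <;> fin_cases j <;> simp [h1, h2, h3]

/-- the three forms of a vertex with Selling parameters `l` -/
def F0 (l : Fin 6 → ℝ) : Mx 3 := formOf l
/-- basis `e1, -e1-e2, e3` -/
def F1 (l : Fin 6 → ℝ) : Mx 3 := !![l 0 + l 2 + l 4, -(l 4 + l 2), -l 2;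
  -(l 4 + l 2), l 4 + l 2 + (l 3 + l 5), l 2 + l 5; -l 2, l 2 + l 5, l 2 + l 5 + l 1]
/-- basis `-e1-e2, e1, e3` -/
def F2 (l : Fin 6 → ℝ) : Mx 3 := !![l 4 + l 2 + (l 3 + l 5), -(l 4 + l 2), l 2 + l 5;
  -(l 4 + l 2), l 0 + l 2 + l 4, -l 2; l 2 + l 5, -l 2, l 2 + l 5 + l 1]

theorem act_F1 (l : Fin 6 → ℝ) : F1 l = act !![1, -1, 0; 0, -1, 0; 0, 0, 1] (formOf l) := by
  unfold act formOf F1
  ext i j
  fin_cases i <;> fin_cases j <;>
    simp [Matrix.mul_apply, Fin.sum_univ_three, Matrix.transpose_apply] <;> ring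

theorem act_F2 (l : Fin 6 → ℝ) : F2 l = act !![-1, 1, 0; -1, 0, 0; 0, 0, 1] (formOf l) := by
  unfold act formOf F2
  ext i j
  fin_cases i <;> fin_cases j <;>
    simp [Matrix.mul_apply, Fin.sum_univ_three, Matrix.transpose_apply] <;> ring

/-- the meaning of `srt` -/
theorem srt_sound {t a e c1 b2 b1 c2 : ℕ} (h : srt t a e c1 b2 b1 c2 = true) :
    ∃ A C B : ℕ, ((t = 0 ∧ A = a + b1 + c1 ∧ C = a + b2 + c2 ∧ B = a) ∨
      (t = 1 ∧ A = a + b1 + c1 ∧ C = b1 + c1 + (b2 + c2) ∧ B = b1 + c1) ∨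
      (2 ≤ t ∧ A = b1 + c1 + (b2 + c2) ∧ C = a + b1 + c1 ∧ B = b1 + c1)) ∧
      ∃ D S : ℕ, 1 ≤ D ∧ (a + b1 + c1) * (a + b2 + c2) = a * a + D ∧
        S = (a + b2 + c2) * c1 * c1 + 2 * a * c1 * c2 + (a + b1 + c1) * c2 * c2 ∧
        26 * S ≤ (a + b1 + c1) * D ∧ 26 * S ≤ (a + b2 + c2) * D ∧
        26 * S ≤ (b1 + c1 + (b2 + c2)) * D ∧ 10 * A ≤ 11 * C ∧ C ≤ 5 * A ∧ 20 * B ≤ 11 * A ∧
        5 * S + 2 * A * D ≤ 5 * (e + c1 + c2) * D := by
  unfold srt at h
  simp only [cnd_and, Nat.add_eq, Nat.mul_eq, Nat.sub_eq] at h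
  obtain ⟨h1, h2, h3, h4, h5, h6, h7, h8⟩ := h
  have h1 := Nat.le_of_ble_eq_true h1
  have h2 := Nat.le_of_ble_eq_true h2
  have h3 := Nat.le_of_ble_eq_true h3
  have h4 := Nat.le_of_ble_eq_true h4
  have h5 := Nat.le_of_ble_eq_true h5
  have h6 := Nat.le_of_ble_eq_true h6
  have h7 := Nat.le_of_ble_eq_true h7
  have h8 := Nat.le_of_ble_eq_true h8
  have hD : (a + b1 + c1) * (a + b2 + c2) = a * a + ((a + b1 + c1) * (a + b2 + c2) - a * a) := by
    have : a * a ≤ (a + b1 + c1) * (a + b2 + c2) := Nat.mul_le_mul (by omega) (by omega)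
    omega
  refine ⟨_, _, _, ?_, _, _, h1, hD, rfl, h2, h3, h4, h5, h6, h7, h8⟩
  rcases Nat.lt_trichotomy t 1 with ht | ht | ht
  · have ht : t = 0 := by omega
    subst ht
    exact Or.inl ⟨rfl, rfl, rfl, rfl⟩
  · subst ht
    exact Or.inr (Or.inl ⟨rfl, rfl, rfl, rfl⟩)
  · refine Or.inr (Or.inr ⟨ht, ?_, ?_, ?_⟩)
    · have : Nat.ble t 1 = false := by
        rcases hb : Nat.ble t 1 with _ | _
        · rfl
        · have := Nat.le_of_ble_eq_true hb; omega
      rw [this]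
      rfl
    · have e0 : Nat.beq t 0 = false := by
        rcases hb : Nat.beq t 0 with _ | _
        · rfl
        · have := Nat.eq_of_beq_eq_true hb; omega
      have e1 : Nat.beq t 1 = false := by
        rcases hb : Nat.beq t 1 with _ | _
        · rfl
        · have := Nat.eq_of_beq_eq_true hb; omega
      rw [e0, e1]
      rfl
    · have e0 : Nat.beq t 0 = false := by
        rcases hb : Nat.beq t 0 with _ | _
        · rfl
        · have := Nat.eq_of_beq_eq_true hb; omega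
      rw [e0]
      rfl

/-- the form of type `t` -/
def Ft (t : ℕ) (l : Fin 6 → ℝ) : Mx 3 := if t = 0 then F0 l else if t = 1 then F1 l else F2 l

/-- the vertex conditions -/
theorem srt_VC {t : ℕ} {n : N6} (h : srt t n.a0 n.a1 n.a2 n.a3 n.a4 n.a5 = true) :
    VC (Ft t n.L 0 0) (Ft t n.L 0 1) (Ft t n.L 1 1) (Ft t n.L 0 2) (Ft t n.L 1 2)
      (Ft t n.L 2 2) := by
  obtain ⟨a, ee, c1, b2, b1, c2⟩ := n
  obtain ⟨A, C, B, hABC, D, S, hD1, hD, hS, sA, sC, sS, h1, h5, h20, hZ⟩ := srt_sound h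
  simp only at hABC hD hS sA sC sS hZ
  have hD' : (0 : ℝ) < D := by exact_mod_cast hD1
  have rD : ((a : ℝ) + b1 + c1) * (a + b2 + c2) = a * a + D := by exact_mod_cast hD
  have rS : (S : ℝ) = (a + b2 + c2) * c1 * c1 + 2 * a * c1 * c2 + (a + b1 + c1) * c2 * c2 := by
    exact_mod_cast hS
  have rA : 26 * (S : ℝ) ≤ (a + b1 + c1) * D := by exact_mod_cast sA
  have rC : 26 * (S : ℝ) ≤ (a + b2 + c2) * D := by exact_mod_cast sC
  have rE : 26 * (S : ℝ) ≤ (b1 + c1 + (b2 + c2)) * D := by exact_mod_cast sS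
  have r1 : 10 * (A : ℝ) ≤ 11 * C := by exact_mod_cast h1
  have r5 : (C : ℝ) ≤ 5 * A := by exact_mod_cast h5
  have r20 : 20 * (B : ℝ) ≤ 11 * A := by exact_mod_cast h20
  have rZ : 5 * (S : ℝ) + 2 * A * D ≤ 5 * (ee + c1 + c2) * D := by exact_mod_cast hZ
  have a0 : (0 : ℝ) ≤ a := Nat.cast_nonneg a
  have b0 : (0 : ℝ) ≤ b1 := Nat.cast_nonneg b1
  have c0 : (0 : ℝ) ≤ c1 := Nat.cast_nonneg c1
  have b0' : (0 : ℝ) ≤ b2 := Nat.cast_nonneg b2
  have c0' : (0 : ℝ) ≤ c2 := Nat.cast_nonneg c2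
  have A0 : (0 : ℝ) ≤ A := Nat.cast_nonneg A
  have B0 : (0 : ℝ) ≤ B := Nat.cast_nonneg B
  have aD : 0 ≤ (a : ℝ) * D := by positivity
  have bD : 0 ≤ ((b1 : ℝ) + c1) * D := by positivity
  rcases hABC with ⟨rfl, hA, hC, hB⟩ | ⟨rfl, hA, hC, hB⟩ | ⟨ht, hA, hC, hB⟩
  · have eA : (A : ℝ) = a + b1 + c1 := by exact_mod_cast hA
    have eC : (C : ℝ) = a + b2 + c2 := by exact_mod_cast hC
    have eB : (B : ℝ) = a := by exact_mod_cast hB
    show VC ((a : ℝ) + c1 + b1) (-(a : ℝ)) ((a : ℝ) + c2 + b2) (-(c1 : ℝ)) (-(c2 : ℝ))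
      ((c1 : ℝ) + c2 + ee)
    refine VC.of (D := D) (S := S) (by linarith) hD' (by linarith) (by rw [rS]; ring) (by linarith)
      (by linarith) (by linarith) (by linarith) (by linarith) (by linarith) (by linarith)
      (by linarith) (by rw [eA] at rZ; linarith)
  · have eA : (A : ℝ) = a + b1 + c1 := by exact_mod_cast hA
    have eC : (C : ℝ) = b1 + c1 + (b2 + c2) := by exact_mod_cast hC
    have eB : (B : ℝ) = b1 + c1 := by exact_mod_cast hB
    show VC ((a : ℝ) + c1 + b1) (-((b1 : ℝ) + c1)) ((b1 : ℝ) + c1 + (b2 + c2)) (-(c1 : ℝ))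
      ((c1 : ℝ) + c2) ((c1 : ℝ) + c2 + ee)
    refine VC.of (D := D) (S := S) (by linarith) hD' (by linarith) (by rw [rS]; ring) (by linarith)
      (by linarith) (by linarith) (by linarith) (by linarith) (by linarith) (by linarith)
      (by linarith) (by rw [eA] at rZ; linarith)
  · have eA : (A : ℝ) = b1 + c1 + (b2 + c2) := by exact_mod_cast hA
    have eC : (C : ℝ) = a + b1 + c1 := by exact_mod_cast hC
    have eB : (B : ℝ) = b1 + c1 := by exact_mod_cast hB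
    have e : Ft t (⟨a, ee, c1, b2, b1, c2⟩ : N6).L = F2 (⟨a, ee, c1, b2, b1, c2⟩ : N6).L := by
      unfold Ft
      rw [if_neg (by omega), if_neg (by omega)]
    rw [e]
    show VC ((b1 : ℝ) + c1 + (b2 + c2)) (-((b1 : ℝ) + c1)) ((a : ℝ) + c1 + b1) ((c1 : ℝ) + c2)
      (-(c1 : ℝ)) ((c1 : ℝ) + c2 + ee)
    refine VC.of (D := D) (S := S) (by linarith) hD' (by linarith) (by rw [rS]; ring) (by linarith)
      (by linarith) (by linarith) (by linarith) (by linarith) (by linarith) (by linarith)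
      (by linarith) (by rw [eA] at rZ; linarith)

theorem Ft_locMin {t : ℕ} {l : Fin 6 → ℝ} {s : ℝ} (h : LocMin s (formOf l)) :
    LocMin s (Ft t l) := by
  unfold Ft
  split_ifs
  · exact h
  · exact Eqv.locMin ⟨_, by decide, act_F1 l⟩ h
  · exact Eqv.locMin ⟨_, by decide, act_F2 l⟩ h

theorem Ft_symm (t : ℕ) (l : Fin 6 → ℝ) : (Ft t l).IsSymm := by
  unfold Ft
  split_ifs
  · exact isSymm_of rfl rfl rfl
  · exact isSymm_of rfl rfl rfl
  · exact isSymm_of rfl rfl rfl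

theorem Ft_lin {T : ℕ} {t : Fin 6 → ℝ} {l : Fin 6 → ℝ} {V : Fin 6 → Fin 6 → ℝ}
    (hl : ∀ k, l k = ∑ i, t i * V i k) (p q : Fin 3) :
    Ft T l p q = ∑ i, t i * Ft T (V i) p q := by
  unfold Ft
  split_ifs
  · fin_cases p <;> fin_cases q <;>
      simp [F0, formOf, hl, mul_add, Finset.sum_add_distrib]
  · fin_cases p <;> fin_cases q <;>
      simp [F1, hl, mul_add, Finset.sum_add_distrib]
  · fin_cases p <;> fin_cases q <;>
      simp [F2, hl, mul_add, Finset.sum_add_distrib]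

/-- SOUNDNESS OF THE SRW LEAVES -/
theorem sr_sound {C : Cn} {l : Fin 6 → ℝ} {w : ℝ} (hM : C.Mem l w) (hd : 0 < dt l) {f : ℕ}
    (h : srC f C = true) {s : ℝ} (hs : 3 / 2 < s) : ¬ LocMin s (formOf l) := by
  intro hmin
  obtain ⟨t, ht, hl, -⟩ := hM
  have hT : 0 < ∑ i, t i := by
    rcases (Finset.sum_nonneg fun i _ => ht i : 0 ≤ ∑ i, t i).eq_or_lt with h0 | h0
    · exfalso
      have h1 : ∀ i, t i = 0 := fun i =>
        (Finset.sum_eq_zero_iff_of_nonneg fun i _ => ht i).mp h0.symm i (Finset.mem_univ i)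
      have h2 : ∀ k, l k = 0 := fun k => by rw [hl k]; simp [h1]
      unfold dt at hd
      simp [h2] at hd
    · exact h0
  set V : Fin 6 → N6 := fun i => ⟨(C.vs i).l0, (C.vs i).l1, (C.vs i).l2, (C.vs i).l3, (C.vs i).l4,
    (C.vs i).l5⟩ with hV
  have r0 : Rep s t V := ⟨l, hl, hmin⟩
  have r1 := Rep.itr (g := N6.g1) (fun V => Rep.g1) (f / 3 % 2) V r0
  have r2 := Rep.itr (g := N6.g2) (fun V => Rep.g2) (f / 6 % 3) _ r1
  obtain ⟨l', hl', hmin'⟩ := Rep.itr (g := N6.g3) (fun V => Rep.g3) (f / 18) _ r2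
  have hv : ∀ i, srt (f % 3) (itr N6.g3 (f / 18) (itr N6.g2 (f / 6 % 3)
      (itr N6.g1 (f / 3 % 2) (V i)))).a0 (itr N6.g3 (f / 18) (itr N6.g2 (f / 6 % 3)
      (itr N6.g1 (f / 3 % 2) (V i)))).a1 (itr N6.g3 (f / 18) (itr N6.g2 (f / 6 % 3)
      (itr N6.g1 (f / 3 % 2) (V i)))).a2 (itr N6.g3 (f / 18) (itr N6.g2 (f / 6 % 3)
      (itr N6.g1 (f / 3 % 2) (V i)))).a3 (itr N6.g3 (f / 18) (itr N6.g2 (f / 6 % 3)
      (itr N6.g1 (f / 3 % 2) (V i)))).a4 (itr N6.g3 (f / 18) (itr N6.g2 (f / 6 % 3)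
      (itr N6.g1 (f / 3 % 2) (V i)))).a5 = true := by
    unfold srC Cn.all at h
    simp only [cnd_and] at h
    obtain ⟨h0, h1, h2, h3, h4, h5⟩ := h
    intro i
    fin_cases i
    · exact h0
    · exact h1
    · exact h2
    · exact h3
    · exact h4
    · exact h5
  have hVC := VC.comb ht hT fun i => srt_VC (hv i)
  rw [← Ft_lin hl', ← Ft_lin hl', ← Ft_lin hl', ← Ft_lin hl', ← Ft_lin hl', ← Ft_lin hl'] at hVC
  exact (hVC.srw (Ft_symm _ _)).notMin' hs (Ft_locMin hmin')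

end Pool.Agent.Lib.EPX
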