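import Pool.Agent.Lib.EPX.LiS
import Pool.Agent.Lib.EPX.SgS
import Pool.Agent.Lib.EPX.SrS
import Pool.Agent.Lib.EPX.CuX
import Pool.Agent.Lib.EPX.RootS

/-!
# EPX.CertS: soundness of the certificates

`XL`: soundness of the X-leaves. `Cert.sound`: a local minimum in a cone with a certificate lies in
the region `SReg`.
-/

open Matrix
open scoped Matrix.Norms.Elementwise

namespace Pool.Agent.Lib.EPX

open Pool.Agent.Lib.EpZ Pool.Agent.Lib.EPL Pool.Agent.Lib.EPS Pool.Agent.Lib.EPT Pool.Agent.Lib.FCC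

/-- soundness of the X-leaves -/
def XL : Prop :=
  ∀ (l : Fin 6 → ℝ) (w : ℝ), (∀ k, 0 ≤ l k) → 0 < dt l → ∀ (E : Env) (C : Cn), C.WF → C.Mem l w →
    LeafEnv l w E → ∀ iw iz sm th : ℕ, iw ≤ 12 → iz ≤ 25 → th ≤ 10 →
    (dir13 iw).zk >>> (iz % 13) % 2 = 1 →
    xleaf E.L1 E.L2 E.smin E.smax E.kc E.dk E.ck iw iz (iz % 13) sm th C = true →
    ∀ s : ℝ, 3 / 2 < s → ¬ LocMin s (formOf l)

theorem top_sound (hX : XL) {l : Fin 6 → ℝ} (hl : ∀ k, 0 ≤ l k) (hd : 0 < dt l) {s : ℝ}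
    (hs : 3 / 2 < s) (hm : LocMin s (formOf l)) {pr : ℕ → Cn → Bool}
    (hpr : ∀ (w : ℝ) (i : ℕ) (D : Cn), D.WF → D.Mem l w → pr i D = true → SReg l) (t : Tr) {w : ℝ}
    {D : Cn} (hD : D.WF) (hM : D.Mem l w) (h : t.top pr D = true) : SReg l :=
  Tr.sound (G := SReg l) (I := IEnv l w) (pr := pr)
    (fun E C hC hM hE md me smin smax h1 h2 g h =>
      li_sound hl hd E C hC hM hE md me smin smax h1 h2 g h)
    (fun E C hC hM hE hk iw iz sm th a b c d h =>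
      absurd hm (hX l w hl hd E C hC hM (hE.leaf hk) iw iz sm th a b c d h s hs))
    (fun _ hC hM h => sg_sound hC hM hd h)
    (fun _ _ _ hM h => absurd hm (sr_sound hM hd h hs))
    (fun _ _ hC hM h => absurd hm (cu_sound hC hM hd h hs))
    (hpr w) t _ D hD hM (IEnv.top l w) h

theorem Cert.sound (hX : XL) {C : Cn} (hc : Cert C) (hC : C.WF) {l : Fin 6 → ℝ}
    (hl : ∀ k, 0 ≤ l k) (hd : 0 < dt l) {w : ℝ} (hM : C.Mem l w) {s : ℝ} (hs : 3 / 2 < s)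
    (hm : LocMin s (formOf l)) : SReg l := by
  obtain ⟨c, t, h1, h2⟩ := hc
  refine top_sound hX hl hd hs hm (fun w i D _ hDM hp => ?_) t hC hM h2
  obtain ⟨C', h3, h4⟩ := Ch.pr_in hp
  obtain ⟨t', h5⟩ := Ch.chk_in h1 h3
  obtain ⟨w', h6⟩ := hDM.reweight (C7.eqb_L h4)
  exact top_sound hX hl hd hs hm (fun _ _ _ _ _ h => absurd h (by simp)) t' (C7.cn_WF C') h6 h5

/-- the reduced domain -/
theorem tree_of_certs (hX : XL) (c0 : Cert rt0.cn) (c1 : Cert rt1.cn) (c2 : Cert rt2.cn)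
    (c3 : Cert rt3.cn) (c4 : Cert rt4.cn) (c5 : Cert rt5.cn) (l : Fin 6 → ℝ) (h0 : 0 ≤ l 0)
    (h1 : ∀ i, l 0 ≤ l i) (h3 : l 3 ≤ l 2) (h4 : l 4 ≤ l 2) (h5 : l 5 ≤ l 2) (hd : 0 < dt l) (s : ℝ)
    (hs : 3 / 2 < s) (hm : LocMin s (formOf l)) : SReg l := by
  have hl : ∀ k, 0 ≤ l k := fun k => h0.trans (h1 k)
  rcases root_mem h0 h1 h3 h4 h5 with ⟨w, h⟩ | ⟨w, h⟩ | ⟨w, h⟩ | ⟨w, h⟩ | ⟨w, h⟩ | ⟨w, h⟩
  · exact c0.sound hX (C7.cn_WF _) hl hd h hs hm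
  · exact c1.sound hX (C7.cn_WF _) hl hd h hs hm
  · exact c2.sound hX (C7.cn_WF _) hl hd h hs hm
  · exact c3.sound hX (C7.cn_WF _) hl hd h hs hm
  · exact c4.sound hX (C7.cn_WF _) hl hd h hs hm
  · exact c5.sound hX (C7.cn_WF _) hl hd h hs hm

end Pool.Agent.Lib.EPX
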