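import Pool.Agent.Lib.EPX.BoxX

/-!
# EPX.ChkX: the checker of the outside certificate (definitions only)

Kernel style: only `Nat.add, Nat.mul, Nat.sub, Nat.div, Nat.mod, Nat.shiftLeft, Nat.shiftRight,
Nat.land, Nat.beq, Nat.ble` and recursors.

## Conventions

* Fields of 256 bits. A *6-packed* number has fields at the positions `0, 1, 4, 10, 12, 17` (one
  for each vertex of the cell), a *35-packed* number at the positions `0, ..., 34`. The product of
  two 6-packed numbers is 35-packed (21 positions are used; the field at `e_i + e_j` is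
  `a_i b_j + a_j b_i` for `i < j`, `a_i b_i` for `i = j`).
* A form `F` in three variables is written as `F = f0 (x-y)^2 + f1 z^2 + f2 (x-z)^2 + f3 y^2 +
  f4 x^2 + f5 (y-z)^2`, i.e. `f0 = -F12, f2 = -F13, f5 = -F23, f4 = F11+F12+F13,
  f3 = F12+F22+F23, f1 = F13+F23+F33`. For `F = formOf l` the `f`'s are the Selling parameters `l`.
* A signed packed number is a pair `(p, n)`, meaning `p - n`; or it has an offset `C * ON`.
* Units: `Q` (direct side) `2^-26`; `P = π^2 Q^-1` (dual side) `2^-58`; `S` (see below) `2^-7`.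

## The X-leaf

Vertices `V_i` (Selling parameters in `ℕ`), `ρ_i = kc / r_i + 1`, `Q_i = ρ_i V_i / 2^26`,
`Q = ∑ λ_i Q_i`, `∑ λ_i = 1`. Direction `X = z w^T` with `w, z` of the list `TW`, `w · z = 0`.
Direct side: `H[x] = 2 Q(x, X x) = 2 (w·x) Q(x,z)`, the six packed coefficients with offset `2^40`.
Dual side: `U_i ≥ P_i = π^2 Q_i^-1`, `U_i = u_i adj V_i`; `S` any symmetric matrix with entries in `ℕ`
(here about the mean of the `U_i`); `T_i = 2 S - S Q_i S / π^2 ≤ P_i` (rounded down);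
`T ≤ P ≤ U` for the convex combinations; `D4 = -2 E - (z ⊗ s + s ⊗ z)`, `E = U - T`,
`s = 2 (U + T) w + E[w] z`, which satisfies `D4[y] ≤ 8 d_y`, `2 d_y = - 2 (z·y) P(y,w)`.
Vectors with `w·x = 0` (direct) or `z·y = 0` (dual) have coefficient `0`.

A vector of the list is good if the lower bound of its coefficient is `≥ 0` at all vertices, then its
length is the linear function `Q[x]` resp. `U[y]`; otherwise it is bad, its coefficient is
replaced by `min(·,0)` at each vertex and its length is `Q[x]` resp. `T[y]`.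
Near: good, length `≤ 10` at all vertices; bad, length `< 10` at some vertex. Good vectors that are not near
are dropped; bad vectors that are not near and all vectors outside the list form the item
`F` (length `10`).
-/

namespace Pool.Agent.Lib.EPX

/-- the conditional: `a` if `c`, otherwise `b`. It is a constant of its own so that the kernel never
evaluates the condition of an open term. -/
noncomputable def cnd {α : Type} (c : Bool) (a b : α) : α := Bool.rec (motive := fun _ => α) b a c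

theorem cnd_true {c a b : Bool} :
    cnd c a b = true ↔ (c = true ∧ a = true) ∨ (c = false ∧ b = true) := by
  cases c <;> simp [cnd]

theorem cnd_and {c a : Bool} : cnd c a false = true ↔ c = true ∧ a = true := by
  cases c <;> simp [cnd]

theorem cnd_pos {α : Type} {c : Bool} (h : c = true) (a b : α) : cnd c a b = a := by
  subst h; rfl

theorem cnd_neg {α : Type} {c : Bool} (h : c = false) (a b : α) : cnd c a b = b := by
  subst h; rfl

/-! ### packed numbers -/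

/-- packing of six numbers at the positions `0, 1, 4, 10, 12, 17` -/
def pk6 (a0 a1 a2 a3 a4 a5 : Nat) : Nat :=
  Nat.add a0 (Nat.shiftLeft (Nat.add a1 (Nat.shiftLeft (Nat.add a2 (Nat.shiftLeft (Nat.add a3
    (Nat.shiftLeft (Nat.add a4 (Nat.shiftLeft a5 1280)) 512)) 1536)) 768)) 256)

/-- comparison `Y ≤ X` of the six fields -/
def pge6 (X Y : Nat) : Bool :=
  Nat.beq (Nat.land (Nat.sub (Nat.add X H6) Y) H6) H6

/-- comparison `Y ≤ X` of the 35 fields -/
def pge35 (X Y : Nat) : Bool :=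
  Nat.beq (Nat.land (Nat.sub (Nat.add X H35) Y) H35) H35

/-- fieldwise `max (B - X) 0` of 6-packed numbers: the top bits of `D = B + H6 - X` show where
`X ≤ B`; there the mask has all lower bits -/
noncomputable def clip (B X : Nat) : Nat :=
  (fun D => (fun t => Nat.land D (Nat.sub t (Nat.shiftRight t 255))) (Nat.land D H6)) (Nat.sub
    (Nat.add B H6) X)

/-- lookup: slot `m` of 40 bits -/
def tab (T m : Nat) : Nat :=
  Nat.mod (Nat.shiftRight T (Nat.mul 40 m)) 1099511627776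

/-- lookup: slot `m` of 80 bits -/
def tab2 (T m : Nat) : Nat :=
  Nat.mod (Nat.shiftRight T (Nat.mul 80 m)) 1208925819614629174706176

/-! ### vertices and cones -/

/-- a vertex: Selling parameters, adjugate (entries 11, 12, 13, 22, 23, 33), determinant `d`,
approximate cube root `r` of `2^30 d` (no soundness role), a weight `s` (linear: the weight of
`a v + b w` is `a s_v + b s_w`), the sum `e` of the Selling parameters -/
structure Vt where
  l0 : Nat
  l1 : Nat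
  l2 : Nat
  l3 : Nat
  l4 : Nat
  l5 : Nat
  a11 : Nat
  a12 : Nat
  a13 : Nat
  a22 : Nat
  a23 : Nat
  a33 : Nat
  d : Nat
  r : Nat
  s : Nat
  e : Nat

/-- the vertex with given Selling parameters -/
noncomputable def mkVt (l0 l1 l2 l3 l4 l5 r s : Nat) : Vt :=
  (fun q11 q22 q33 : Nat => (fun a11 a12 a13 : Nat => Vt.mk l0 l1 l2 l3 l4 l5 a11 a12 a13
    (Nat.sub (Nat.mul q11 q33) (Nat.mul l2 l2)) (Nat.add (Nat.mul q11 l5) (Nat.mul l0 l2))
    (Nat.sub (Nat.mul q11 q22) (Nat.mul l0 l0)) (Nat.sub (Nat.sub (Nat.mul q11 a11) (Nat.mul l0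
    a12)) (Nat.mul l2 a13)) r s (Nat.add (Nat.add (Nat.add (Nat.add (Nat.add l0 l1) l2) l3) l4)
    l5)) (Nat.sub (Nat.mul q22 q33) (Nat.mul l5 l5)) (Nat.add (Nat.mul l0 q33) (Nat.mul l2 l5))
    (Nat.add (Nat.mul l0 l5) (Nat.mul l2 q22))) (Nat.add (Nat.add l0 l2) l4) (Nat.add (Nat.add l0
    l3) l5) (Nat.add (Nat.add l1 l2) l5)

/-- the vertex `a v + b w` -/
noncomputable def Vt.comb (v w : Vt) (a b r : Nat) : Vt :=
  mkVt (Nat.add (Nat.mul a v.l0) (Nat.mul b w.l0)) (Nat.add (Nat.mul a v.l1) (Nat.mul b w.l1))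
    (Nat.add (Nat.mul a v.l2) (Nat.mul b w.l2)) (Nat.add (Nat.mul a v.l3) (Nat.mul b w.l3))
    (Nat.add (Nat.mul a v.l4) (Nat.mul b w.l4)) (Nat.add (Nat.mul a v.l5) (Nat.mul b w.l5)) r
    (Nat.add (Nat.mul a v.s) (Nat.mul b w.s))

/-- the data of a vertex in the files -/
structure V7 where
  l0 : Nat
  l1 : Nat
  l2 : Nat
  l3 : Nat
  l4 : Nat
  l5 : Nat
  r : Nat

/-- the vertex of a data vertex, weight `r` -/
noncomputable def V7.vt (v : V7) : Vt := mkVt v.l0 v.l1 v.l2 v.l3 v.l4 v.l5 v.r v.r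

/-- equality of a vertex with a data vertex (the Selling parameters) -/
noncomputable def V7.eqb (v : V7) (w : Vt) : Bool :=
  cnd (Nat.beq v.l0 w.l0) (cnd (Nat.beq v.l1 w.l1) (cnd (Nat.beq v.l2 w.l2) (cnd (Nat.beq v.l3
    w.l3) (cnd (Nat.beq v.l4 w.l4) (Nat.beq v.l5 w.l5) false) false) false) false) false

/-- a simplicial cone -/
structure Cn where
  v0 : Vt
  v1 : Vt
  v2 : Vt
  v3 : Vt
  v4 : Vt
  v5 : Vt

/-- the data of a cone in the files -/
structure C7 where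
  v0 : V7
  v1 : V7
  v2 : V7
  v3 : V7
  v4 : V7
  v5 : V7

/-- the cone of a data cone -/
noncomputable def C7.cn (C : C7) : Cn := ⟨C.v0.vt, C.v1.vt, C.v2.vt, C.v3.vt, C.v4.vt, C.v5.vt⟩

/-- equality of a cone with a data cone -/
noncomputable def C7.eqb (C : C7) (D : Cn) : Bool :=
  cnd (C.v0.eqb D.v0) (cnd (C.v1.eqb D.v1) (cnd (C.v2.eqb D.v2) (cnd (C.v3.eqb D.v3) (cnd
    (C.v4.eqb D.v4) (C.v5.eqb D.v5) false) false) false) false) false

/-- the vertex number `i` -/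
noncomputable def Cn.get (C : Cn) (i : Nat) : Vt :=
  Nat.casesOn (motive := fun _ => Vt) i C.v0 fun i =>
  Nat.casesOn (motive := fun _ => Vt) i C.v1 fun i =>
  Nat.casesOn (motive := fun _ => Vt) i C.v2 fun i =>
  Nat.casesOn (motive := fun _ => Vt) i C.v3 fun i =>
  Nat.casesOn (motive := fun _ => Vt) i C.v4 fun _ => C.v5

/-- replace the vertex number `i` -/
noncomputable def Cn.set (C : Cn) (i : Nat) (m : Vt) : Cn :=
  Cn.casesOn (motive := fun _ => Cn) C fun v0 v1 v2 v3 v4 v5 =>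
  Nat.casesOn (motive := fun _ => Cn) i ⟨m, v1, v2, v3, v4, v5⟩ fun i =>
  Nat.casesOn (motive := fun _ => Cn) i ⟨v0, m, v2, v3, v4, v5⟩ fun i =>
  Nat.casesOn (motive := fun _ => Cn) i ⟨v0, v1, m, v3, v4, v5⟩ fun i =>
  Nat.casesOn (motive := fun _ => Cn) i ⟨v0, v1, v2, m, v4, v5⟩ fun i =>
  Nat.casesOn (motive := fun _ => Cn) i ⟨v0, v1, v2, v3, m, v5⟩ fun _ => ⟨v0, v1, v2, v3, v4, m⟩

/-- a property of all vertices -/
noncomputable def Cn.all (C : Cn) (f : Vt → Bool) : Bool :=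
  cnd (f C.v0) (cnd (f C.v1) (cnd (f C.v2) (cnd (f C.v3) (cnd (f C.v4) (f C.v5) false) false)
    false) false) false

/-- the six numbers `m_i f(v_i)`, packed -/
noncomputable def Cn.pkm (C : Cn) (m0 m1 m2 m3 m4 m5 : Nat) (f : Vt → Nat) : Nat :=
  pk6 (Nat.mul m0 (f C.v0)) (Nat.mul m1 (f C.v1)) (Nat.mul m2 (f C.v2)) (Nat.mul m3 (f C.v3))
    (Nat.mul m4 (f C.v4)) (Nat.mul m5 (f C.v5))

/-- the multiplier of the adjugate: `u ≥ π^2 2^84 / (p d)`; the constant is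
`2^52 * 42389628128`, where `42389628128 ≥ π^2 2^32` -/
def rhu (p : Nat) (v : Vt) : Nat :=
  Nat.add (Nat.div 190905913441634695918911488 (Nat.mul p v.d)) 1

/-- the form `∑ c_k f_k` -/
def ev (v : Vx) (f0 f1 f2 f3 f4 f5 : Nat) : Nat :=
  Nat.add (Nat.add (Nat.add (Nat.mul v.c0 f0) (Nat.mul v.c1 f1)) (Nat.add (Nat.mul v.c2 f2)
    (Nat.mul v.c3 f3))) (Nat.add (Nat.mul v.c4 f4) (Nat.mul v.c5 f5))

/-! ### items -/

/-- items: length `q`, mass `p` (35-packed product), coefficient `a` (6-packed), grid index `m` of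
the smallest length -/
inductive It
  | nil
  | cons (q p a m : Nat) (t : It)

/-- sum of the masses -/
noncomputable def It.sum (G : It) : Nat :=
  It.rec (motive := fun _ => Nat) 0 (fun _ p _ _ _ ih => Nat.add p ih) G

/-- sum of the masses of the items with length `≤ q'` at all vertices -/
noncomputable def It.sle (q' : Nat) (G : It) : Nat :=
  It.rec (motive := fun _ => Nat) 0 (fun q p _ _ _ ih => cnd (pge6 q' q) (Nat.add p ih) ih) G

/-- sum of the masses of the items whose length is not `≥ q'` at all vertices -/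
noncomputable def It.snl (q' : Nat) (G : It) : Nat :=
  It.rec (motive := fun _ => Nat) 0 (fun q p _ _ _ ih => cnd (pge6 q q') ih (Nat.add p ih)) G

/-- the smallest grid index, at most `640` -/
noncomputable def It.mmin (G : It) : Nat :=
  It.rec (motive := fun _ => Nat) 640 (fun _ _ _ m _ ih => cnd (Nat.ble m ih) m ih) G

/-- Prefix conditions: for all bad items `b` of `Bl`: `X + c (sum of the good items not longer
than b) ≥ Y + c (sum of the bad items of Bd not certainly longer than b, and F unless b ≤ T10)`.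
`c` a number, `X, Y` 35-packed. -/
noncomputable def pref (G Bd : It) (F T10 c X Y : Nat) (Bl : It) : Bool :=
  It.rec (motive := fun _ => Bool) true (fun q _ _ _ _ ih => cnd (pge35 (Nat.add X (Nat.mul c
    (G.sle q))) (Nat.add Y (Nat.mul c (Nat.add (Bd.snl (Nat.add q ON)) (cnd (pge6 T10 q) 0 F)))))
    ih false) Bl

/-- the last prefix condition: all good items, all bad items, `F` -/
noncomputable def preF (G Bd : It) (F c X Y : Nat) : Bool :=
  pge35 (Nat.add X (Nat.mul c G.sum)) (Nat.add Y (Nat.mul c (Nat.add Bd.sum F)))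

/-! ### weights -/

/-- tangent of `exp` at the grid point `m / 64`, as a 6-packed function of the length `q`:
`e_m (2^k (1 + m/64) - q)`, `k = 26` or `58`, `k' = k - 6`; false if negative somewhere -/
noncomputable def wE (k k' m q : Nat) (f : Nat → Bool) (g : Bool) : Bool :=
  (fun X => cnd (pge6 X q) (f (Nat.mul (tab TE m) (Nat.sub X q))) g) (Nat.mul (Nat.add
    (Nat.shiftLeft 1 k) (Nat.shiftLeft m k')) ON)

/-- tangent of `g` or `h` (table `T`): `2^k v_m - s_m q` -/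
noncomputable def wT (T k m q : Nat) (f : Nat → Bool) (g : Bool) : Bool :=
  (fun e => (fun X Y => cnd (pge6 X Y) (f (Nat.sub X Y)) g) (Nat.mul (Nat.shiftLeft (Nat.mod e
    1099511627776) k) ON) (Nat.mul (Nat.div e 1099511627776) q)) (tab2 T m)

/-- chord between the grid points `m1 < m2` (upper table `T`):
`2^k (E_1 + s m1) - 2^6 s q`, `s = (E_1 - E_2) / (m2 - m1)` -/
noncomputable def wC (T k m1 m2 q : Nat) : Nat :=
  (fun e => (fun s => Nat.sub (Nat.mul (Nat.shiftLeft (Nat.add e (Nat.mul s m1)) k) ON) (Nat.mul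
    (Nat.mul 64 s) q)) (Nat.div (Nat.sub e (tab T m2)) (Nat.sub m2 m1))) (tab T m1)

/-- the field number `e` (`e = 256 *` position) -/
def fld (q e : Nat) : Nat :=
  Nat.mod (Nat.shiftRight q e)
    115792089237316195423570985008687907853269984665640564039457584007913129639936

/-- the smaller number -/
noncomputable def mi (a b : Nat) : Nat :=
  cnd (Nat.ble a b) a b

/-- the larger number -/
noncomputable def ma (a b : Nat) : Nat :=
  cnd (Nat.ble a b) b a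

/-- the grid indices around the fields of `q`: `m1 = floor(min / 2^k')`, `m2 = floor(max / 2^k') + 1` -/
noncomputable def grid (k' q : Nat) (f : Nat → Nat → Bool) : Bool :=
  (fun a0 a1 a2 a3 a4 a5 => f (Nat.shiftRight (mi (mi (mi a0 a1) (mi a2 a3)) (mi a4 a5)) k')
    (Nat.add (Nat.shiftRight (ma (ma (ma a0 a1) (ma a2 a3)) (ma a4 a5)) k') 1)) (fld q 0) (fld q
    256) (fld q 1024) (fld q 2560) (fld q 3072) (fld q 4352)

/-- the index of the mean of the fields; `n = 6 * 2^k'` -/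
def mean (n q : Nat) : Nat :=
  Nat.div (Nat.mod q BM1) n

/-- upper bounds of `2^32 exp (-10)` and `2^32 exp (-12)` -/
noncomputable def wF (T12 q : Nat) : Nat :=
  cnd (pge6 q T12) 26390 194992

/-! ### the direct side -/

/-- the loop of the direct side: `iw` the number of the direction `w`; `q_i` the coefficients of
`Q`, `h_i` those of `H` with offset `2^40`; accumulators: near good items, near bad items, `F` (6-packed,
coefficient times `2^32 exp (-T)`), value of the good vectors, value of the near bad vectors -/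
noncomputable def dirL (iw q0 q1 q2 q3 q4 q5 h0 h1 h2 h3 h4 h5 : Nat)
    (k : It → It → Nat → Nat → Nat → Bool) (L : Lst) : It → It → Nat → Nat → Nat → Bool :=
  Lst.rec (motive := fun _ => It → It → Nat → Nat → Nat → Bool) (fun G Bd F VP VN => k G Bd F VP
    VN) (fun v _ ih G Bd F VP VN => cnd (Nat.beq (Nat.mod (Nat.shiftRight v.zk iw) 2) 1) (ih G Bd
    F VP VN) ((fun q hx bs => cnd (pge6 hx bs) (cnd (pge6 (Nat.mul 671088640 ON) q) ((fun m a =>
    wE 26 20 m q (fun W => wT TG 26 m q (fun W' => ih (.cons q (Nat.mul a W) a m G) Bd F (Nat.add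
    VP (Nat.mul a W')) VN) (ih G Bd F VP VN)) (ih G Bd F VP VN)) (mean 6291456 q) (Nat.sub hx
    bs)) (ih G Bd F VP VN)) ((fun a => cnd (pge6 q (Nat.mul 671088640 ON)) (ih G Bd (Nat.add F
    (Nat.mul (wF (Nat.mul 805306368 ON) q) a)) VP VN) (grid 20 q (fun m1 m2 => cnd (Nat.ble 64
    m1) (cnd (Nat.ble m2 1024) (ih G (.cons q (Nat.mul a (wC UE 26 m1 m2 q)) a m1 Bd) F VP
    (Nat.add VN (Nat.mul a (wC UG 26 m1 m2 q)))) false) false))) (clip bs hx))) (ev v q0 q1 q2 q3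
    q4 q5) (ev v h0 h1 h2 h3 h4 h5) (Nat.mul (Nat.mul 1099511627776 v.n) ON))) L

/-! ### the dual side -/

/-- the loop of the dual side: `iz < 13` the number of the direction `z` up to sign; `u_i, t_i` the
coefficients of `U, T` with offset `2^85`, `d_i` those of `D4` with offset `2^96`;
`(j)` -/
noncomputable def duaL (iz u0 u1 u2 u3 u4 u5 t0 t1 t2 t3 t4 t5 d0 d1 d2 d3 d4 d5 : Nat)
    (k : It → It → Nat → Bool) (L : Lst) : It → It → Nat → Bool :=
  Lst.rec (motive := fun _ => It → It → Nat → Bool) (fun G Bd F => k G Bd F) (fun v _ ih G Bd F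
    => cnd (Nat.beq (Nat.mod (Nat.shiftRight v.zk iz) 2) 1) (ih G Bd F) ((fun dx bs bu => cnd
    (pge6 dx bs) ((fun u' => cnd (pge6 u' bu) ((fun u => cnd (pge6 (Nat.mul 2882303761517117440
    ON) u) ((fun m a => wE 58 52 m u (fun W => ih (.cons u (Nat.mul a W) a m G) Bd F) (ih G Bd
    F)) (mean 27021597764222976 u) (Nat.sub dx bs)) (ih G Bd F)) (Nat.sub u' bu)) false) (ev v u0
    u1 u2 u3 u4 u5)) ((fun t' => cnd (pge6 t' bu) ((fun t a => cnd (pge6 t (Nat.mul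
    2882303761517117440 ON)) (ih G Bd (Nat.add F (Nat.mul (wF (Nat.mul 3458764513820540928 ON) t)
    a))) (grid 52 t (fun m1 m2 => cnd (Nat.ble 64 m1) (cnd (Nat.ble m2 1024) (ih G (.cons t
    (Nat.mul a (wC UE 58 m1 m2 t)) a m1 Bd) F) false) false))) (Nat.sub t' bu) (clip bs dx))
    false) (ev v t0 t1 t2 t3 t4 t5))) (ev v d0 d1 d2 d3 d4 d5) (Nat.mul (Nat.mul
    79228162514264337593543950336 v.n) ON) (Nat.mul (Nat.mul 38685626227668133590597632 v.n)
    ON))) L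

/-! ### type 2: signed integral -/

/-- the items of `G` that are at least as long as all items of `Bs`, and the others -/
noncomputable def lngr (Bs : It) (u : Nat) : Bool :=
  It.rec (motive := fun _ => Bool) true (fun q _ _ _ _ ih => cnd (pge6 u q) ih false) Bs

/-- the items with bit 1 in the mask -/
noncomputable def It.sel (G : It) : Nat → It :=
  It.rec (motive := fun _ => Nat → It) (fun _ => .nil) (fun q p a m _ ih M => cnd (Nat.beq
    (Nat.mod M 2) 1) (.cons q p a m (ih (Nat.div M 2))) (ih (Nat.div M 2))) G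

/-- the items with bit 0 in the mask, masses times ten -/
noncomputable def It.rest (G : It) : Nat → It :=
  It.rec (motive := fun _ => Nat → It) (fun _ => .nil) (fun q p a m _ ih M => cnd (Nat.beq
    (Nat.mod M 2) 1) (ih (Nat.div M 2)) (.cons q (Nat.mul 10 p) a m (ih (Nat.div M 2)))) G

/-- masses of the good items: `th` tenths for the items longer than all short ones, else ten -/
noncomputable def It.share (Bs : It) (th : Nat) (G : It) : It :=
  It.rec (motive := fun _ => It) .nil (fun q p a m _ ih => .cons q (Nat.mul (cnd (lngr Bs q) th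
    10) p) a m ih) G

/-- integral of the short bad items (chord of `h`) -/
noncomputable def It.intB (G : It) (f : Nat → Bool) : Bool :=
  It.rec (motive := fun _ => Nat → Bool) (fun s => f s) (fun q _ a _ _ ih s => grid 52 q (fun m1
    m2 => ih (Nat.add s (Nat.mul a (wC UH 58 m1 m2 q))))) G 0

/-- integral of the good items longer than all items of `Bs` (tangent of `h`; items whose
tangent is negative somewhere are dropped) -/
noncomputable def It.intG (Bs : It) (G : It) (f : Nat → Bool) : Bool :=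
  It.rec (motive := fun _ => Nat → Bool) (fun s => f s) (fun q _ a m _ ih s => cnd (lngr Bs q)
    (wT TH 58 m q (fun W => ih (Nat.add s (Nat.mul a W))) (ih s)) (ih s)) G 0

/-- The end of the leaf. `G, Bd, F` the dual items, `VP - VN` the direct value.
Types 0 and 1 (`sm = 0`): `VP 2^72 j + C G ≥ VN 2^72 j + C B`.
Type 2: the same with the integral `E`, all times ten. `4722366482869645213696 = 2^72`,
`4835703278458516698824704 = 2^82` -/
noncomputable def fin (ck VP VN sm th : Nat) (G Bd : It) (F : Nat) : Bool :=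
  cnd (Nat.beq sm 0) ((fun X Y => cnd (pge35 X Y) (cnd (preF G Bd F ck X Y) (pref G Bd F (Nat.mul
    2882303761517117439 ON) ck X Y Bd) false) false) (Nat.mul VP (Nat.mul 4722366482869645213696
    Bd.mmin)) (Nat.add (Nat.mul VN (Nat.mul 4722366482869645213696 Bd.mmin)) ON2)) ((fun Bs Br =>
    It.intB Bs (fun eN => It.intG Bs G (fun eP => (fun G' F' j c => (fun X Y EP EN => cnd (pge35
    X Y) (cnd (pge35 (Nat.add X EP) (Nat.add Y EN)) (cnd (preF G' Br F' c X Y) (cnd (preF G' Br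
    F' c (Nat.add X EP) (Nat.add Y EN)) (cnd (pref G' Br F' (Nat.mul 2882303761517117439 ON) c X
    Y Br) (pref G' Br F' (Nat.mul 2882303761517117439 ON) c (Nat.add X EP) (Nat.add Y EN) Br)
    false) false) false) false) false) (Nat.mul VP (Nat.mul 48357032784585166988247040 j))
    (Nat.add (Nat.mul VN (Nat.mul 48357032784585166988247040 j)) ON2) (Nat.mul (Nat.mul (Nat.mul
    ck j) (Nat.sub 10 th)) eP) (Nat.mul (Nat.mul (Nat.mul ck j) 10) eN)) (It.share Bs th G)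
    (Nat.mul 10 F) Br.mmin (Nat.mul 1024 ck)))) (Bd.sel sm) (Bd.rest sm))

/-! ### the forms -/

/-- `z ⊗ p + p ⊗ z` for signed packed vectors: entries 11, 12, 13, 22, 23, 33, each positive part,
negative part -/
noncomputable def sym2 (z1p z1n z2p z2n z3p z3n p1 n1 p2 n2 p3 n3 : Nat)
    (k : Nat → Nat → Nat → Nat → Nat → Nat → Nat → Nat → Nat → Nat → Nat → Nat → Bool) : Bool :=
  k (Nat.mul 2 (Nat.add (Nat.mul z1p p1) (Nat.mul z1n n1))) (Nat.mul 2 (Nat.add (Nat.mul z1p n1)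
    (Nat.mul z1n p1))) (Nat.add (Nat.add (Nat.mul z1p p2) (Nat.mul z1n n2)) (Nat.add (Nat.mul z2p
    p1) (Nat.mul z2n n1))) (Nat.add (Nat.add (Nat.mul z1p n2) (Nat.mul z1n p2)) (Nat.add (Nat.mul
    z2p n1) (Nat.mul z2n p1))) (Nat.add (Nat.add (Nat.mul z1p p3) (Nat.mul z1n n3)) (Nat.add
    (Nat.mul z3p p1) (Nat.mul z3n n1))) (Nat.add (Nat.add (Nat.mul z1p n3) (Nat.mul z1n p3))
    (Nat.add (Nat.mul z3p n1) (Nat.mul z3n p1))) (Nat.mul 2 (Nat.add (Nat.mul z2p p2) (Nat.mul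
    z2n n2))) (Nat.mul 2 (Nat.add (Nat.mul z2p n2) (Nat.mul z2n p2))) (Nat.add (Nat.add (Nat.mul
    z2p p3) (Nat.mul z2n n3)) (Nat.add (Nat.mul z3p p2) (Nat.mul z3n n2))) (Nat.add (Nat.add
    (Nat.mul z2p n3) (Nat.mul z2n p3)) (Nat.add (Nat.mul z3p n2) (Nat.mul z3n p2))) (Nat.mul 2
    (Nat.add (Nat.mul z3p p3) (Nat.mul z3n n3))) (Nat.mul 2 (Nat.add (Nat.mul z3p n3) (Nat.mul
    z3n p3)))

/-- from the entries (positive, negative parts) of a symmetric matrix to the six coefficients with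
offset `c * ON` -/
noncomputable def coefs (c p11 n11 p12 n12 p13 n13 p22 n22 p23 n23 p33 n33 : Nat)
    (k : Nat → Nat → Nat → Nat → Nat → Nat → Bool) : Bool :=
  (fun O => k (Nat.sub (Nat.add O n12) p12) (Nat.sub (Nat.add O (Nat.add (Nat.add p13 p23) p33))
    (Nat.add (Nat.add n13 n23) n33)) (Nat.sub (Nat.add O n13) p13) (Nat.sub (Nat.add O (Nat.add
    (Nat.add p12 p22) p23)) (Nat.add (Nat.add n12 n22) n23)) (Nat.sub (Nat.add O (Nat.add
    (Nat.add p11 p12) p13)) (Nat.add (Nat.add n11 n12) n13)) (Nat.sub (Nat.add O n23) p23))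
    (Nat.mul c ON)

/-- `S Q S` for `S` symmetric with entries `s_ij` in `ℕ`, `Q` packed with coefficients `q_i`;
entries 11, 12, 13, 22, 23, 33, each positive part, negative part -/
noncomputable def sqs (s11 s12 s13 s22 s23 s33 l0 l1 l2 l3 l4 l5 : Nat)
    (k : Nat → Nat → Nat → Nat → Nat → Nat → Nat → Nat → Nat → Nat → Nat → Nat → Bool) : Bool :=
  (fun q11 q22 q33 => (fun p11 n11 p12 n12 p13 n13 p21 n21 p22 n22 p23 n23 p31 n31 p32 n32 p33
    n33 => k (Nat.add (Nat.add (Nat.mul p11 s11) (Nat.mul p12 s12)) (Nat.mul p13 s13)) (Nat.add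
    (Nat.add (Nat.mul n11 s11) (Nat.mul n12 s12)) (Nat.mul n13 s13)) (Nat.add (Nat.add (Nat.mul
    p11 s12) (Nat.mul p12 s22)) (Nat.mul p13 s23)) (Nat.add (Nat.add (Nat.mul n11 s12) (Nat.mul
    n12 s22)) (Nat.mul n13 s23)) (Nat.add (Nat.add (Nat.mul p11 s13) (Nat.mul p12 s23)) (Nat.mul
    p13 s33)) (Nat.add (Nat.add (Nat.mul n11 s13) (Nat.mul n12 s23)) (Nat.mul n13 s33)) (Nat.add
    (Nat.add (Nat.mul p21 s12) (Nat.mul p22 s22)) (Nat.mul p23 s23)) (Nat.add (Nat.add (Nat.mul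
    n21 s12) (Nat.mul n22 s22)) (Nat.mul n23 s23)) (Nat.add (Nat.add (Nat.mul p21 s13) (Nat.mul
    p22 s23)) (Nat.mul p23 s33)) (Nat.add (Nat.add (Nat.mul n21 s13) (Nat.mul n22 s23)) (Nat.mul
    n23 s33)) (Nat.add (Nat.add (Nat.mul p31 s13) (Nat.mul p32 s23)) (Nat.mul p33 s33)) (Nat.add
    (Nat.add (Nat.mul n31 s13) (Nat.mul n32 s23)) (Nat.mul n33 s33))) (Nat.mul s11 q11) (Nat.add
    (Nat.mul s12 l0) (Nat.mul s13 l2)) (Nat.mul s12 q22) (Nat.add (Nat.mul s11 l0) (Nat.mul s13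
    l5)) (Nat.mul s13 q33) (Nat.add (Nat.mul s11 l2) (Nat.mul s12 l5)) (Nat.mul s12 q11) (Nat.add
    (Nat.mul s22 l0) (Nat.mul s23 l2)) (Nat.mul s22 q22) (Nat.add (Nat.mul s12 l0) (Nat.mul s23
    l5)) (Nat.mul s23 q33) (Nat.add (Nat.mul s12 l2) (Nat.mul s22 l5)) (Nat.mul s13 q11) (Nat.add
    (Nat.mul s23 l0) (Nat.mul s33 l2)) (Nat.mul s23 q22) (Nat.add (Nat.mul s13 l0) (Nat.mul s33
    l5)) (Nat.mul s33 q33) (Nat.add (Nat.mul s13 l2) (Nat.mul s23 l5))) (Nat.add (Nat.add l0 l2)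
    l4) (Nat.add (Nat.add l0 l3) l5) (Nat.add (Nat.add l1 l2) l5)

/-- `S` from the packed `U`: the mean of the fields in the unit `2^-7`;
`13510798882111488 = 6 * 2^51` -/
def sS (u : Nat) : Nat :=
  Nat.div (Nat.mod u BM1) 13510798882111488

/-- the entries of `T = 2 S - S Q S / π^2` (positive part, negative part);
`26561 ≥ 2^18 / π^2`, `4503599627370496 = 2^52` -/
noncomputable def forT (l0 l1 l2 l3 l4 l5 u11 u12 u13 u22 u23 u33 : Nat)
    (k : Nat → Nat → Nat → Nat → Nat → Nat → Nat → Nat → Nat → Nat → Nat → Nat → Bool) : Bool :=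
  (fun s11 s12 s13 s22 s23 s33 => sqs s11 s12 s13 s22 s23 s33 l0 l1 l2 l3 l4 l5 (fun p11 n11 p12
    n12 p13 n13 p22 n22 p23 n23 p33 n33 => k (Nat.add (Nat.mul (Nat.mul 4503599627370496 s11) ON)
    (Nat.mul 26561 n11)) (Nat.mul 26561 p11) (Nat.add (Nat.mul (Nat.mul 4503599627370496 s12) ON)
    (Nat.mul 26561 n12)) (Nat.mul 26561 p12) (Nat.add (Nat.mul (Nat.mul 4503599627370496 s13) ON)
    (Nat.mul 26561 n13)) (Nat.mul 26561 p13) (Nat.add (Nat.mul (Nat.mul 4503599627370496 s22) ON)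
    (Nat.mul 26561 n22)) (Nat.mul 26561 p22) (Nat.add (Nat.mul (Nat.mul 4503599627370496 s23) ON)
    (Nat.mul 26561 n23)) (Nat.mul 26561 p23) (Nat.add (Nat.mul (Nat.mul 4503599627370496 s33) ON)
    (Nat.mul 26561 n33)) (Nat.mul 26561 p33))) (sS u11) (sS u12) (sS u13) (sS u22) (sS u23) (sS
    u33)

/-- the six signs of the direction number `i`, as `p1 n1 p2 n2 p3 n3` -/
noncomputable def dirc (i : Nat) (k : Nat → Nat → Nat → Nat → Nat → Nat → Bool) : Bool :=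
  (fun c => k (Nat.mod c 2) (Nat.mod (Nat.shiftRight c 1) 2) (Nat.mod (Nat.shiftRight c 2) 2)
    (Nat.mod (Nat.shiftRight c 3) 2) (Nat.mod (Nat.shiftRight c 4) 2) (Nat.mod (Nat.shiftRight c
    5) 2)) (Nat.shiftRight TW (Nat.mul 6 i))

/-! ### the leaf -/

/-- the entries of `Q` and `U` are small: `8589934592 = 2^33`, `73786976294838206464 = 2^66` -/
noncomputable def vsm (p u : Nat) (v : Vt) : Bool :=
  cnd (Nat.ble (Nat.mul p v.e) 8589934592) (Nat.ble (Nat.mul u (Nat.add (Nat.add (Nat.add v.a11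
    v.a22) v.a33) (Nat.add (Nat.add v.a12 v.a13) v.a23))) 73786976294838206464) false

/-- the conditions at a vertex: `p v.s ∈ [smin, smax]`, `dk 2^78 ≤ p^3 d`, small entries;
`302231454903657293676544 = 2^78` -/
noncomputable def vok (smin smax dk p u : Nat) (v : Vt) : Bool :=
  cnd (Nat.ble smin (Nat.mul p v.s)) (cnd (Nat.ble (Nat.mul p v.s) smax) (cnd (Nat.ble (Nat.mul
    302231454903657293676544 dk) (Nat.mul (Nat.mul (Nat.mul p p) p) v.d)) (vsm p u v) false)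
    false) false

/-- the X-leaf; `iz'` is `iz` modulo 13 -/
noncomputable def xleaf (L1 L2 : Lst) (smin smax kc dk ck iw iz iz' sm th : Nat) (C : Cn) : Bool :=
  (fun p0 p1 p2 p3 p4 p5 => (fun m0 m1 m2 m3 m4 m5 => cnd (vok smin smax dk p0 m0 C.v0) (cnd (vok
    smin smax dk p1 m1 C.v1) (cnd (vok smin smax dk p2 m2 C.v2) (cnd (vok smin smax dk p3 m3
    C.v3) (cnd (vok smin smax dk p4 m4 C.v4) (cnd (vok smin smax dk p5 m5 C.v5) ((fun q0 q1 q2 q3
    q4 q5 u11 u12 u13 u22 u23 u33 => dirc iw (fun w1 x1 w2 x2 w3 x3 => dirc iz (fun z1 y1 z2 y2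
    z3 y3 => (fun q11 q22 q33 => sym2 w1 x1 w2 x2 w3 x3 (Nat.add (Nat.add (Nat.mul z1 q11)
    (Nat.mul y2 q0)) (Nat.mul y3 q2)) (Nat.add (Nat.add (Nat.mul y1 q11) (Nat.mul z2 q0))
    (Nat.mul z3 q2)) (Nat.add (Nat.add (Nat.mul z2 q22) (Nat.mul y1 q0)) (Nat.mul y3 q5))
    (Nat.add (Nat.add (Nat.mul y2 q22) (Nat.mul z1 q0)) (Nat.mul z3 q5)) (Nat.add (Nat.add
    (Nat.mul z3 q33) (Nat.mul y1 q2)) (Nat.mul y2 q5)) (Nat.add (Nat.add (Nat.mul y3 q33)
    (Nat.mul z1 q2)) (Nat.mul z2 q5)) (fun p11 n11 p12 n12 p13 n13 p22 n22 p23 n23 p33 n33 =>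
    coefs 1099511627776 p11 n11 p12 n12 p13 n13 p22 n22 p23 n23 p33 n33 (fun h0 h1 h2 h3 h4 h5 =>
    cnd (pge6 (Nat.mul 1006632960 ON) (ev (dir13 iz') q0 q1 q2 q3 q4 q5)) (dirL iw q0 q1 q2 q3 q4
    q5 h0 h1 h2 h3 h4 h5 (fun G Bd F6 VP VN => (fun F => cnd (preF G Bd F 1 0 0) (cnd (pref G Bd
    F (Nat.mul 671088639 ON) 1 0 0 Bd) (forT q0 q1 q2 q3 q4 q5 u11 u12 u13 u22 u23 u33 (fun p11
    n11 p12 n12 p13 n13 p22 n22 p23 n23 p33 n33 => coefs 38685626227668133590597632 p11 n11 p12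
    n12 p13 n13 p22 n22 p23 n23 p33 n33 (fun t0 t1 t2 t3 t4 t5 => coefs
    38685626227668133590597632 u11 0 u12 0 u13 0 u22 0 u23 0 u33 0 (fun u0 u1 u2 u3 u4 u5 => (fun
    dw => (fun uw tw => cnd (pge6 uw tw) (cnd (pge6 (Nat.mul (Nat.add 4323455642275676160
    (Nat.mul 38685626227668133590597632 dw.n)) ON) uw) ((fun ew b11 b12 b13 b22 b23 b33 => sym2
    z1 y1 z2 y2 z3 y3 (Nat.add (Nat.mul 2 (Nat.add (Nat.add (Nat.add (Nat.mul w1 b11) (Nat.mul x1
    n11)) (Nat.add (Nat.mul w2 b12) (Nat.mul x2 n12))) (Nat.add (Nat.mul w3 b13) (Nat.mul x3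
    n13)))) (Nat.mul z1 ew)) (Nat.add (Nat.mul 2 (Nat.add (Nat.add (Nat.add (Nat.mul x1 b11)
    (Nat.mul w1 n11)) (Nat.add (Nat.mul x2 b12) (Nat.mul w2 n12))) (Nat.add (Nat.mul x3 b13)
    (Nat.mul w3 n13)))) (Nat.mul y1 ew)) (Nat.add (Nat.mul 2 (Nat.add (Nat.add (Nat.add (Nat.mul
    w1 b12) (Nat.mul x1 n12)) (Nat.add (Nat.mul w2 b22) (Nat.mul x2 n22))) (Nat.add (Nat.mul w3
    b23) (Nat.mul x3 n23)))) (Nat.mul z2 ew)) (Nat.add (Nat.mul 2 (Nat.add (Nat.add (Nat.add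
    (Nat.mul x1 b12) (Nat.mul w1 n12)) (Nat.add (Nat.mul x2 b22) (Nat.mul w2 n22))) (Nat.add
    (Nat.mul x3 b23) (Nat.mul w3 n23)))) (Nat.mul y2 ew)) (Nat.add (Nat.mul 2 (Nat.add (Nat.add
    (Nat.add (Nat.mul w1 b13) (Nat.mul x1 n13)) (Nat.add (Nat.mul w2 b23) (Nat.mul x2 n23)))
    (Nat.add (Nat.mul w3 b33) (Nat.mul x3 n33)))) (Nat.mul z3 ew)) (Nat.add (Nat.mul 2 (Nat.add
    (Nat.add (Nat.add (Nat.mul x1 b13) (Nat.mul w1 n13)) (Nat.add (Nat.mul x2 b23) (Nat.mul w2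
    n23))) (Nat.add (Nat.mul x3 b33) (Nat.mul w3 n33)))) (Nat.mul y3 ew)) (fun e11 f11 e12 f12
    e13 f13 e22 f22 e23 f23 e33 f33 => coefs 79228162514264337593543950336 (Nat.add (Nat.mul 2
    p11) f11) (Nat.add (Nat.mul 2 (Nat.add u11 n11)) e11) (Nat.add (Nat.mul 2 p12) f12) (Nat.add
    (Nat.mul 2 (Nat.add u12 n12)) e12) (Nat.add (Nat.mul 2 p13) f13) (Nat.add (Nat.mul 2 (Nat.add
    u13 n13)) e13) (Nat.add (Nat.mul 2 p22) f22) (Nat.add (Nat.mul 2 (Nat.add u22 n22)) e22)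
    (Nat.add (Nat.mul 2 p23) f23) (Nat.add (Nat.mul 2 (Nat.add u23 n23)) e23) (Nat.add (Nat.mul 2
    p33) f33) (Nat.add (Nat.mul 2 (Nat.add u33 n33)) e33) (fun d0 d1 d2 d3 d4 d5 => duaL iz' u0
    u1 u2 u3 u4 u5 t0 t1 t2 t3 t4 t5 d0 d1 d2 d3 d4 d5 (fun G' Bd' F6' => fin ck VP (Nat.add VN
    (Nat.mul 2 F)) sm th G' Bd' (Nat.mul (Nat.shiftLeft (Nat.add F6' (Nat.mul
    23088782402770707885558941 ON)) 58) ON)) L2 .nil .nil 0))) (Nat.sub uw tw) (Nat.add u11 p11)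
    (Nat.add u12 p12) (Nat.add u13 p13) (Nat.add u22 p22) (Nat.add u23 p23) (Nat.add u33 p33))
    false) false) (ev dw u0 u1 u2 u3 u4 u5) (ev dw t0 t1 t2 t3 t4 t5)) (dir13 iw))))) false)
    false) (Nat.mul (Nat.shiftLeft (Nat.add F6 (Nat.mul 1343944017005311 ON)) 26) ON)) L1 .nil
    .nil 0 0 0) false))) (Nat.add (Nat.add q0 q2) q4) (Nat.add (Nat.add q0 q3) q5) (Nat.add
    (Nat.add q1 q2) q5)))) (C.pkm p0 p1 p2 p3 p4 p5 Vt.l0) (C.pkm p0 p1 p2 p3 p4 p5 Vt.l1) (C.pkm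
    p0 p1 p2 p3 p4 p5 Vt.l2) (C.pkm p0 p1 p2 p3 p4 p5 Vt.l3) (C.pkm p0 p1 p2 p3 p4 p5 Vt.l4)
    (C.pkm p0 p1 p2 p3 p4 p5 Vt.l5) (C.pkm m0 m1 m2 m3 m4 m5 Vt.a11) (C.pkm m0 m1 m2 m3 m4 m5
    Vt.a12) (C.pkm m0 m1 m2 m3 m4 m5 Vt.a13) (C.pkm m0 m1 m2 m3 m4 m5 Vt.a22) (C.pkm m0 m1 m2 m3
    m4 m5 Vt.a23) (C.pkm m0 m1 m2 m3 m4 m5 Vt.a33)) false) false) false) false) false) false)
    (rhu p0 C.v0) (rhu p1 C.v1) (rhu p2 C.v2) (rhu p3 C.v3) (rhu p4 C.v4) (rhu p5 C.v5)) (Nat.add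
    (Nat.div kc C.v0.r) 1) (Nat.add (Nat.div kc C.v1.r) 1) (Nat.add (Nat.div kc C.v2.r) 1)
    (Nat.add (Nat.div kc C.v3.r) 1) (Nat.add (Nat.div kc C.v4.r) 1) (Nat.add (Nat.div kc C.v5.r)
    1)

/-! ### the lists -/

/-- the class of a vector outside the list: `base = 0` resp. offset, `k = 26` resp. `58`;
the largest `T` of the list with `q ≥ base + T 2^k` at all vertices; the weight is an upper bound of
`2^40 T exp (-T)`; false if `q < 10` somewhere -/
noncomputable def cls (k base q : Nat) (f : Nat → Bool) : Bool :=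
  (fun c => cnd (c 20) (f 45326) (cnd (c 18) (f 301420) (cnd (c 17) (f 773825) (cnd (c 16) (f
    1979740) (cnd (c 15) (f 5045148) (cnd (c 14) (f 12799857) (cnd (c 13) (f 32308361) (cnd (c
    12) (f 81067596) (cnd (c 11) (f 202000857) (cnd (c 10) (f 499177507) false)))))))))) (fun T
    => pge6 q (Nat.mul (Nat.add base (Nat.shiftLeft T k)) ON))

/-- the loop of an `li` node: `M` the mask (bit 1: the vector is put on the list), `τ` the sum of the
weights; `C` the offset -/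
noncomputable def liL (k C f0 f1 f2 f3 f4 f5 : Nat) (g : Lst → Nat → Bool) (L : Lst) :
    Nat → Nat → Lst → Bool :=
  Lst.rec (motive := fun _ => Nat → Nat → Lst → Bool) (fun _ τ acc => g acc τ) (fun v _ ih M τ
    acc => cnd (Nat.beq (Nat.mod M 2) 1) (ih (Nat.div M 2) τ (.cons v acc)) (cls k (Nat.mul C
    v.n) (ev v f0 f1 f2 f3 f4 f5) (fun w => ih (Nat.div M 2) (Nat.add τ w) acc))) L

/-- the condition of the direct side of an `li` node at a vertex, `p = smin / s`: small entries,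
`d > 0`, `R[e] ≤ 5/3` for `R = Q^-1`, `e = e_i` and `e = e_i - e_j`; `201326592 = 3 * 2^26`,
`402653184 = 6 * 2^26` -/
noncomputable def vli1 (p : Nat) (v : Vt) : Bool :=
  cnd (vsm p 0 v) (cnd (Nat.ble 1 v.d) ((fun y => cnd (Nat.ble (Nat.mul 201326592 v.a11) y) (cnd
    (Nat.ble (Nat.mul 201326592 v.a22) y) (cnd (Nat.ble (Nat.mul 201326592 v.a33) y) (cnd
    (Nat.ble (Nat.mul 201326592 (Nat.add v.a11 v.a22)) (Nat.add y (Nat.mul 402653184 v.a12)))
    (cnd (Nat.ble (Nat.mul 201326592 (Nat.add v.a11 v.a33)) (Nat.add y (Nat.mul 402653184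
    v.a13))) (Nat.ble (Nat.mul 201326592 (Nat.add v.a22 v.a33)) (Nat.add y (Nat.mul 402653184
    v.a23))) false) false) false) false) false) (Nat.mul (Nat.mul 5 p) v.d)) false) false

/-- the condition of the dual side of an `li` node at a vertex, `p = smax / s + 1`: small entries,
`Q[x] ≤ 16` for the seven vectors with coordinates `0, 1`; `1073741824 = 2^30` -/
noncomputable def vli2 (p u : Nat) (v : Vt) : Bool :=
  cnd (vsm p u v) (cnd (Nat.ble (Nat.mul p (Nat.add (Nat.add v.l0 v.l2) v.l4)) 1073741824) (cnd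
    (Nat.ble (Nat.mul p (Nat.add (Nat.add v.l0 v.l3) v.l5)) 1073741824) (cnd (Nat.ble (Nat.mul p
    (Nat.add (Nat.add v.l1 v.l2) v.l5)) 1073741824) (cnd (Nat.ble (Nat.mul p (Nat.add (Nat.add
    v.l2 v.l4) (Nat.add v.l3 v.l5))) 1073741824) (cnd (Nat.ble (Nat.mul p (Nat.add (Nat.add v.l0
    v.l4) (Nat.add v.l1 v.l5))) 1073741824) (cnd (Nat.ble (Nat.mul p (Nat.add (Nat.add v.l0 v.l3)
    (Nat.add v.l1 v.l2))) 1073741824) (Nat.ble (Nat.mul p (Nat.add (Nat.add v.l1 v.l3) v.l4))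
    1073741824) false) false) false) false) false) false) false

/-- An `li` node. Input: the current lists `K1, K2` (the boxes at the top) and the tail sums `τ1, τ2`
of the vectors outside; output: the new lists and tail sums. With `W_i = p_i V_i / 2^26`,
`p_i = smin / s_i` (direct side), `p_i = smax / s_i + 1` (dual side). `536870912 = 2^40 * 2^-11`. -/
noncomputable def liNode (md me smin smax : Nat) (K1 K2 : Lst) (τ1 τ2 : Nat) (C : Cn)
    (g : Lst → Lst → Nat → Nat → Bool) : Bool :=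
  (fun p0 p1 p2 p3 p4 p5 => cnd (vli1 p0 C.v0) (cnd (vli1 p1 C.v1) (cnd (vli1 p2 C.v2) (cnd (vli1
    p3 C.v3) (cnd (vli1 p4 C.v4) (cnd (vli1 p5 C.v5) (liL 26 0 (C.pkm p0 p1 p2 p3 p4 p5 Vt.l0)
    (C.pkm p0 p1 p2 p3 p4 p5 Vt.l1) (C.pkm p0 p1 p2 p3 p4 p5 Vt.l2) (C.pkm p0 p1 p2 p3 p4 p5
    Vt.l3) (C.pkm p0 p1 p2 p3 p4 p5 Vt.l4) (C.pkm p0 p1 p2 p3 p4 p5 Vt.l5) (fun L1 τ => cnd
    (Nat.ble τ 536870912) ((fun p0 p1 p2 p3 p4 p5 => (fun m0 m1 m2 m3 m4 m5 => cnd (vli2 p0 m0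
    C.v0) (cnd (vli2 p1 m1 C.v1) (cnd (vli2 p2 m2 C.v2) (cnd (vli2 p3 m3 C.v3) (cnd (vli2 p4 m4
    C.v4) (cnd (vli2 p5 m5 C.v5) (forT (C.pkm p0 p1 p2 p3 p4 p5 Vt.l0) (C.pkm p0 p1 p2 p3 p4 p5
    Vt.l1) (C.pkm p0 p1 p2 p3 p4 p5 Vt.l2) (C.pkm p0 p1 p2 p3 p4 p5 Vt.l3) (C.pkm p0 p1 p2 p3 p4
    p5 Vt.l4) (C.pkm p0 p1 p2 p3 p4 p5 Vt.l5) (C.pkm m0 m1 m2 m3 m4 m5 Vt.a11) (C.pkm m0 m1 m2 m3
    m4 m5 Vt.a12) (C.pkm m0 m1 m2 m3 m4 m5 Vt.a13) (C.pkm m0 m1 m2 m3 m4 m5 Vt.a22) (C.pkm m0 m1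
    m2 m3 m4 m5 Vt.a23) (C.pkm m0 m1 m2 m3 m4 m5 Vt.a33) (fun p11 n11 p12 n12 p13 n13 p22 n22 p23
    n23 p33 n33 => coefs 38685626227668133590597632 p11 n11 p12 n12 p13 n13 p22 n22 p23 n23 p33
    n33 (fun t0 t1 t2 t3 t4 t5 => liL 58 38685626227668133590597632 t0 t1 t2 t3 t4 t5 (fun L2 τ'
    => cnd (Nat.ble τ' 536870912) (g L1 L2 τ τ') false) K2 me τ2 .nil))) false) false) false)
    false) false) false) (rhu p0 C.v0) (rhu p1 C.v1) (rhu p2 C.v2) (rhu p3 C.v3) (rhu p4 C.v4)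
    (rhu p5 C.v5)) (Nat.add (Nat.div smax C.v0.s) 1) (Nat.add (Nat.div smax C.v1.s) 1) (Nat.add
    (Nat.div smax C.v2.s) 1) (Nat.add (Nat.div smax C.v3.s) 1) (Nat.add (Nat.div smax C.v4.s) 1)
    (Nat.add (Nat.div smax C.v5.s) 1)) false) K1 md τ1 .nil) false) false) false) false) false)
    false) (Nat.div smin C.v0.s) (Nat.div smin C.v1.s) (Nat.div smin C.v2.s) (Nat.div smin
    C.v3.s) (Nat.div smin C.v4.s) (Nat.div smin C.v5.s)

/-! ### the regions -/

/-- absolute value of the difference -/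
def ad (a b : Nat) : Nat :=
  Nat.add (Nat.sub a b) (Nat.sub b a)

/-- the smallest of six numbers -/
noncomputable def min6 (a b c d e f : Nat) : Nat := mi (mi (mi a b) (mi c d)) (mi e f)

/-- the largest of six numbers -/
noncomputable def max6 (a b c d e f : Nat) : Nat := ma (ma (ma a b) (ma c d)) (ma e f)

/-- cusp: `4 Q[x]^3 ≤ det Q` at all vertices, `x` the vector number `i` of the 13 -/
noncomputable def cuC (i : Nat) (C : Cn) : Bool :=
  cnd (Nat.ble i 12) ((fun x => C.all (fun v => (fun q => Nat.ble (Nat.mul 4 (Nat.mul (Nat.mul q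
    q) q)) v.d) (ev x v.l0 v.l1 v.l2 v.l3 v.l4 v.l5))) (dir13 i)) false

/-- the conditions of the region SREG at a vertex, `c` the multiplier of the vertex,
`P_k = l_2k + l_2k+1` (`D_k = e - P_k`): `8 D_k ≥ 3 e`, `20 (D_i - D_j) ≤ 11 e`,
`200 ∑ o_k^2 m_k ≤ m_0 m_1 m_2`, `o_k = c |l_2k - l_2k+1|`, `m_k` the lower bound of `c D_k` -/
noncomputable def sgv (m0 m1 m2 c : Nat) (v : Vt) : Bool :=
  (fun P0 P1 P2 e5 e11 o0 o1 o2 => cnd (Nat.ble (Nat.mul 8 P0) e5) (cnd (Nat.ble (Nat.mul 8 P1)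
    e5) (cnd (Nat.ble (Nat.mul 8 P2) e5) (cnd (Nat.ble (Nat.mul 20 (max6 P0 P1 P2 P0 P1 P2))
    (Nat.add (Nat.mul 20 (min6 P0 P1 P2 P0 P1 P2)) e11)) (Nat.ble (Nat.mul 200 (Nat.add (Nat.add
    (Nat.mul (Nat.mul o0 o0) m0) (Nat.mul (Nat.mul o1 o1) m1)) (Nat.mul (Nat.mul o2 o2) m2)))
    (Nat.mul (Nat.mul m0 m1) m2)) false) false) false) false) (Nat.add v.l0 v.l1) (Nat.add v.l2
    v.l3) (Nat.add v.l4 v.l5) (Nat.mul 5 v.e) (Nat.mul 11 v.e) (Nat.mul c (ad v.l0 v.l1))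
    (Nat.mul c (ad v.l2 v.l3)) (Nat.mul c (ad v.l4 v.l5))

/-- the region SREG: the cone is scaled so that the sums `e` are equal; `m_k` the smallest
`D_k` of the vertices -/
noncomputable def sgC (C : Cn) : Bool :=
  (fun E => (fun c0 c1 c2 c3 c4 c5 => cnd (Nat.beq (Nat.mul c0 C.v0.e) E) (cnd (Nat.beq (Nat.mul
    c1 C.v1.e) E) (cnd (Nat.beq (Nat.mul c2 C.v2.e) E) (cnd (Nat.beq (Nat.mul c3 C.v3.e) E) (cnd
    (Nat.beq (Nat.mul c4 C.v4.e) E) (cnd (Nat.beq (Nat.mul c5 C.v5.e) E) ((fun m : (Vt → Nat) →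
    Nat => (fun m0 m1 m2 => cnd (sgv m0 m1 m2 c0 C.v0) (cnd (sgv m0 m1 m2 c1 C.v1) (cnd (sgv m0
    m1 m2 c2 C.v2) (cnd (sgv m0 m1 m2 c3 C.v3) (cnd (sgv m0 m1 m2 c4 C.v4) (sgv m0 m1 m2 c5 C.v5)
    false) false) false) false) false) (m (fun v => Nat.add (Nat.add v.l2 v.l3) (Nat.add v.l4
    v.l5))) (m (fun v => Nat.add (Nat.add v.l0 v.l1) (Nat.add v.l4 v.l5))) (m (fun v => Nat.add
    (Nat.add v.l0 v.l1) (Nat.add v.l2 v.l3)))) (fun f => min6 (Nat.mul c0 (f C.v0)) (Nat.mul c1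
    (f C.v1)) (Nat.mul c2 (f C.v2)) (Nat.mul c3 (f C.v3)) (Nat.mul c4 (f C.v4)) (Nat.mul c5 (f
    C.v5)))) false) false) false) false) false) false) (Nat.div E C.v0.e) (Nat.div E C.v1.e)
    (Nat.div E C.v2.e) (Nat.div E C.v3.e) (Nat.div E C.v4.e) (Nat.div E C.v5.e)) (max6 C.v0.e
    C.v1.e C.v2.e C.v3.e C.v4.e C.v5.e)

/-- six numbers -/
structure N6 where
  a0 : Nat
  a1 : Nat
  a2 : Nat
  a3 : Nat
  a4 : Nat
  a5 : Nat

/-- exchange of the superbase vectors 1 and 2; the Selling parameters are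
`l0 = 12, l1 = 30, l2 = 13, l3 = 20, l4 = 10, l5 = 23` -/
noncomputable def N6.g1 (l : N6) : N6 := ⟨l.a0, l.a1, l.a5, l.a4, l.a3, l.a2⟩

/-- the cycle 1, 2, 3 -/
noncomputable def N6.g2 (l : N6) : N6 := ⟨l.a5, l.a4, l.a0, l.a1, l.a3, l.a2⟩

/-- the cycle 1, 2, 3, 0 -/
noncomputable def N6.g3 (l : N6) : N6 := ⟨l.a5, l.a4, l.a3, l.a2, l.a0, l.a1⟩

/-- iteration -/
noncomputable def itr (g : N6 → N6) (n : Nat) (l : N6) : N6 :=
  Nat.rec (motive := fun _ => N6) l (fun _ ih => g ih) n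

/-- the conditions of helper22's region SRW (`EPH.SRW`) for the form `Q` with Selling parameters
`l = (a, e, c1, b2, b1, c2)`; with `A0 = Q[e1]`, `C0 = Q[e2]`, `S0 = Q[e1+e2]`, `a = -Q(e1,e2)`; `(A, C, |B|)`
is `(A0, C0, a)`, `(A0, S0, b1 + c1)`, `(S0, A0, b1 + c1)` for `t = 0, 1, 2`, i.e. the first two basis
vectors are `(e1, e2)`, `(e1, -e1-e2)`, `(-e1-e2, e1)` -/
noncomputable def srt (t a e c1 b2 b1 c2 : Nat) : Bool :=
  (fun A0 C0 S0 => (fun dt s => (fun s' => cnd (Nat.ble 1 dt) (cnd (Nat.ble s' (Nat.mul A0 dt))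
    (cnd (Nat.ble s' (Nat.mul C0 dt)) (cnd (Nat.ble s' (Nat.mul S0 dt)) ((fun A C B : Nat => cnd
    (Nat.ble (Nat.mul 10 A) (Nat.mul 11 C)) (cnd (Nat.ble C (Nat.mul 5 A)) (cnd (Nat.ble (Nat.mul
    20 B) (Nat.mul 11 A)) (Nat.ble (Nat.add (Nat.mul 5 s) (Nat.mul (Nat.mul 2 A) dt)) (Nat.mul
    (Nat.mul 5 (Nat.add (Nat.add e c1) c2)) dt)) false) false) false) (cnd (Nat.ble t 1) A0 S0)
    (cnd (Nat.beq t 0) C0 (cnd (Nat.beq t 1) S0 A0)) (cnd (Nat.beq t 0) a (Nat.add b1 c1)))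
    false) false) false) false) (Nat.mul 26 s)) (Nat.sub (Nat.mul A0 C0) (Nat.mul a a)) (Nat.add
    (Nat.add (Nat.mul (Nat.mul C0 c1) c1) (Nat.mul (Nat.mul (Nat.mul 2 a) c1) c2)) (Nat.mul
    (Nat.mul A0 c2) c2))) (Nat.add (Nat.add a b1) c1) (Nat.add (Nat.add a b2) c2) (Nat.add
    (Nat.add b1 c1) (Nat.add b2 c2))

/-- the region SRW at all vertices; frame `f = t + 3 (c + 2 (b + 3 a))`: the Selling parameters are
`g3^a g2^b g1^c l` -/
noncomputable def srC (f : Nat) (C : Cn) : Bool :=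
  (fun t c b a => C.all (fun v => N6.casesOn (motive := fun _ => Bool) (itr N6.g3 a (itr N6.g2 b
    (itr N6.g1 c ⟨v.l0, v.l1, v.l2, v.l3, v.l4, v.l5⟩))) (fun l0 l1 l2 l3 l4 l5 => srt t l0 l1 l2
    l3 l4 l5))) (Nat.mod f 3) (Nat.mod (Nat.div f 3) 2) (Nat.mod (Nat.div f 6) 3) (Nat.div f 18)

/-! ### trees -/

/-- Certificate trees. `nd i j a b r`: split at `a v_i + b v_j`. `li k md me smin smax`: new lists; `k = 0`:
scale `π`, `k = 1`: scale `17/20 π`. `xl iw iz sm th`: X-leaf. `sg`, `sr f`, `cu i`: leaves in the regions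
SREG, SRW (frame `f`), cusp (vector `dir13 i`). `pr i`: the cone is the data cone number `i`. -/
inductive Tr
  | nd (i j a b r : Nat) (s t : Tr)
  | li (k md me smin smax : Nat) (t : Tr)
  | xl (iw iz sm th : Nat)
  | sg
  | sr (f : Nat)
  | cu (i : Nat)
  | pr (i : Nat)

/-- the data valid at a node: lists, tail sums, range of the scaled weights, constants of the scale -/
structure Env where
  L1 : Lst
  L2 : Lst
  τ1 : Nat
  τ2 : Nat
  smin : Nat
  smax : Nat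
  kc : Nat
  dk : Nat
  ck : Nat

/-- the check of a tree; `pr` is the test of the `pr` leaves -/
noncomputable def Tr.chk (pr : Nat → Cn → Bool) (t : Tr) : Env → Cn → Bool :=
  Tr.rec (motive := fun _ => Env → Cn → Bool) (fun i j a b r _ _ ih1 ih2 E C => (fun m : Vt =>
    cnd (Nat.ble 1 a) (cnd (Nat.ble 1 b) (cnd (Nat.ble (Nat.add i 1) j) (cnd (Nat.ble j 5) (cnd
    (ih1 E (C.set i m)) (ih2 E (C.set j m)) false) false) false) false) false) ((C.get i).comb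
    (C.get j) a b r)) (fun k md me smin smax _ ih E C => cnd (Nat.ble E.smin smin) (cnd (Nat.ble
    smax E.smax) (liNode md me smin smax E.L1 E.L2 E.τ1 E.τ2 C (fun L1 L2 τ1 τ2 => cnd (Nat.beq k
    0) (ih ⟨L1, L2, τ1, τ2, smin, smax, 215888603272, 31, 65543⟩ C) (ih ⟨L1, L2, τ1, τ2, smin,
    smax, 183505312781, 19, 83720⟩ C))) false) false) (fun iw iz sm th E C => cnd (Nat.ble 1
    E.kc) (cnd (Nat.ble iw 12) (cnd (Nat.ble iz 25) (cnd (Nat.ble th 10) (cnd (Nat.beq (Nat.mod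
    (Nat.shiftRight (dir13 iw).zk (Nat.mod iz 13)) 2) 1) (xleaf E.L1 E.L2 E.smin E.smax E.kc E.dk
    E.ck iw iz (Nat.mod iz 13) sm th C) false) false) false) false) false) (fun _ C => sgC C)
    (fun f _ C => srC f C) (fun i _ C => cuC i C) (fun i _ C => pr i C) t

/-- the check of a tree at top level: the lists are the boxes, `13650000` bounds the vectors
outside, `kc = 0`: no X-leaf outside the `li` nodes -/
noncomputable def Tr.top (pr : Nat → Cn → Bool) (t : Tr) (C : Cn) : Bool :=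
  t.chk pr ⟨boxD, boxE, 13650000, 13650000, 0, 1152921504606846976, 0, 0, 0⟩ C

/-! ### the root cones -/

/-- root cone -/
noncomputable def rt0 : C7 :=
  ⟨⟨2, 2, 2, 2, 2, 2, 5160⟩, ⟨0, 12, 0, 0, 0, 0, 0⟩, ⟨0, 0, 12, 0, 0, 0, 0⟩, ⟨0, 0, 6, 6, 0, 0, 0⟩, ⟨0, 0, 4, 4, 4, 0, 4096⟩, ⟨0, 0, 3, 3, 3, 3, 4876⟩⟩

/-- root cone -/
noncomputable def rt1 : C7 :=
  ⟨⟨2, 2, 2, 2, 2, 2, 5160⟩, ⟨0, 12, 0, 0, 0, 0, 0⟩, ⟨0, 0, 12, 0, 0, 0, 0⟩, ⟨0, 0, 6, 6, 0, 0, 0⟩, ⟨0, 0, 4, 4, 0, 4, 4096⟩, ⟨0, 0, 3, 3, 3, 3, 4876⟩⟩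

/-- root cone -/
noncomputable def rt2 : C7 :=
  ⟨⟨2, 2, 2, 2, 2, 2, 5160⟩, ⟨0, 12, 0, 0, 0, 0, 0⟩, ⟨0, 0, 12, 0, 0, 0, 0⟩, ⟨0, 0, 6, 0, 6, 0, 0⟩, ⟨0, 0, 4, 4, 4, 0, 4096⟩, ⟨0, 0, 3, 3, 3, 3, 4876⟩⟩

/-- root cone -/
noncomputable def rt3 : C7 :=
  ⟨⟨2, 2, 2, 2, 2, 2, 5160⟩, ⟨0, 12, 0, 0, 0, 0, 0⟩, ⟨0, 0, 12, 0, 0, 0, 0⟩, ⟨0, 0, 6, 0, 6, 0, 0⟩, ⟨0, 0, 4, 0, 4, 4, 4096⟩, ⟨0, 0, 3, 3, 3, 3, 4876⟩⟩

/-- root cone -/
noncomputable def rt4 : C7 :=
  ⟨⟨2, 2, 2, 2, 2, 2, 5160⟩, ⟨0, 12, 0, 0, 0, 0, 0⟩, ⟨0, 0, 12, 0, 0, 0, 0⟩, ⟨0, 0, 6, 0, 0, 6, 0⟩, ⟨0, 0, 4, 4, 0, 4, 4096⟩, ⟨0, 0, 3, 3, 3, 3, 4876⟩⟩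

/-- root cone -/
noncomputable def rt5 : C7 :=
  ⟨⟨2, 2, 2, 2, 2, 2, 5160⟩, ⟨0, 12, 0, 0, 0, 0, 0⟩, ⟨0, 0, 12, 0, 0, 0, 0⟩, ⟨0, 0, 6, 0, 0, 6, 0⟩, ⟨0, 0, 4, 0, 4, 4, 4096⟩, ⟨0, 0, 3, 3, 3, 3, 4876⟩⟩

/-- data cones with trees -/
inductive Ch
  | nil
  | cons (C : C7) (t : Tr) (c : Ch)

/-- the check of a list of data cones with trees, no `pr` leaves -/
noncomputable def Ch.chk (c : Ch) : Bool :=
  Ch.rec (motive := fun _ => Bool) true (fun C t _ ih => cnd (t.top (fun _ _ => false) C.cn) ih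
    false) c

/-- the data cone number `i` of a list equals the cone `D` -/
noncomputable def Ch.pr (c : Ch) : Nat → Cn → Bool :=
  Ch.rec (motive := fun _ => Nat → Cn → Bool) (fun _ _ => false)
    (fun C _ _ ih i D => Nat.casesOn (motive := fun _ => Bool) i (C.eqb D) fun i => ih i D) c

/-- concatenation -/
noncomputable def Ch.app (c d : Ch) : Ch :=
  Ch.rec (motive := fun _ => Ch) d (fun C t _ ih => .cons C t ih) c

theorem Ch.chk_app (c d : Ch) (h : c.chk = true) (h' : d.chk = true) :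
    (c.app d).chk = true := by
  induction c with
  | nil => exact h'
  | cons C t c ih =>
    have h1 : cnd (t.top (fun _ _ => false) C.cn) c.chk false = true := h
    rw [cnd_and] at h1
    show cnd (t.top (fun _ _ => false) C.cn) (c.app d).chk false = true
    exact cnd_and.mpr ⟨h1.1, ih h1.2⟩

/-- a complete certificate for a cone: verified data cones with trees, and a tree whose `pr` leaves
are data cones -/
def Cert (C : Cn) : Prop := ∃ (c : Ch) (t : Tr), c.chk = true ∧ t.top c.pr C = true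

end Pool.Agent.Lib.EPX
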