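import Pool.Agent.Lib.EPX.FmS

/-!
# EPX.D4S: the forms `D4` and `H`

Black boxes: `sym2_sound`, `coefs_sound` (file FmS). `d4_sound`: the arguments of `sym2` are the parts of
`s = 2 (U + T) w + E[w] z`, with fields at most `2 ^ 89` (`b_ij = u_ij + p_ij`, `n_ij` are the parts of
`U + T`); the arguments of `coefs` are the parts of `-2 (U - T) - (z ⊗ s + s ⊗ z)`, fields at most
`2 ^ 92`; the quadratic form is
`-2 E[y] - 2 (z·y) (s·y) = -2 E[y] - 4 (z·y) (y·(U + T) w) - 2 E[w] (z·y)^2`, which is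
`4 Dv U T X 1 y` (file EPL.Cell) because `Xᵀ y = (z·y) w`.
`dir_sound`: `Hx_vec` (EPL.Pois): `Hx Q (z ⊗ w) = Hd Q w z`; the arguments of `sym2` are the parts of
`2 ^ 26 Q z`, fields at most `5 * 2 ^ 33`.
-/

open Matrix
open scoped Matrix.Norms.Elementwise

namespace Pool.Agent.Lib.EPX

open Pool.Agent.Lib.EPL Pool.Agent.Lib.EpZ Pool.Agent.Lib.EPS Pool.Agent.Lib.FCC

namespace D4SAux

/-- a packed number with fields at most `b` and value `v` -/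
structure PV (l : Fin 6 → ℝ) (b x : ℕ) (v : ℝ) : Prop where
  r : R6 0 b x
  e : lv l x = v

theorem PV.mono {l : Fin 6 → ℝ} {b b' x : ℕ} {v : ℝ} (h : PV l b x v) (hb : b ≤ b') :
    PV l b' x v := ⟨h.r.mono le_rfl hb, h.e⟩

theorem PV.add {l : Fin 6 → ℝ} {b d x y : ℕ} {v w : ℝ} (hx : PV l b x v) (hy : PV l d y w)
    (h : b + d < 2 ^ 256) : PV l (b + d) (x + y) (v + w) :=
  ⟨by simpa using hx.r.add hy.r h, by rw [hx.r.lv_add hy.r h l, hx.e, hy.e]⟩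

theorem PV.mul {l : Fin 6 → ℝ} {b x : ℕ} {v : ℝ} (c : ℕ) (hx : PV l b x v)
    (h : c * b < 2 ^ 256) : PV l (c * b) (c * x) (c * v) :=
  ⟨by simpa using hx.r.mul c h, by rw [hx.r.lv_mul c h l, hx.e]⟩

theorem PV.mul1 {l : Fin 6 → ℝ} {b x : ℕ} {v : ℝ} {c : ℕ} (hc : c ≤ 1) (hx : PV l b x v)
    (h : b < 2 ^ 256) : PV l b (c * x) (c * v) := by
  have h1 : c * b ≤ b := by
    calc c * b ≤ 1 * b := Nat.mul_le_mul_right _ hc
      _ = b := one_mul _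
  exact (hx.mul c (h1.trans_lt h)).mono h1

theorem PV.of {l : Fin 6 → ℝ} {b x : ℕ} (h : R6 0 b x) : PV l b x (lv l x) := ⟨h, rfl⟩

/-- the components of `s` -/
theorem sv {l : Fin 6 → ℝ} {B E : ℕ} {b1 b2 b3 n1 n2 n3 e : ℕ} (hb1 : R6 0 B b1) (hb2 : R6 0 B b2)
    (hb3 : R6 0 B b3) (hn1 : R6 0 B n1) (hn2 : R6 0 B n2) (hn3 : R6 0 B n3) (he : R6 0 E e)
    {w1 x1 w2 x2 w3 x3 z : ℕ}
    (hw : w1 ≤ 1 ∧ x1 ≤ 1 ∧ w2 ≤ 1 ∧ x2 ≤ 1 ∧ w3 ≤ 1 ∧ x3 ≤ 1) (hz : z ≤ 1)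
    (h : 12 * B + E < 2 ^ 256) :
    PV l (12 * B + E) (2 * (w1 * b1 + x1 * n1 + (w2 * b2 + x2 * n2) + (w3 * b3 + x3 * n3)) + z * e)
      (2 * ((w1 * lv l b1 + x1 * lv l n1) + (w2 * lv l b2 + x2 * lv l n2) +
        (w3 * lv l b3 + x3 * lv l n3)) + z * lv l e) := by
  obtain ⟨g1, g2, g3, g4, g5, g6⟩ := hw
  generalize hT : (2 : ℕ) ^ 256 = T at h
  have hB : B < T := by omega
  have hE : E < T := by omega
  have a1 := (PV.of (l := l) hb1).mul1 g1 (hT ▸ hB)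
  have a2 := (PV.of (l := l) hn1).mul1 g2 (hT ▸ hB)
  have a3 := (PV.of (l := l) hb2).mul1 g3 (hT ▸ hB)
  have a4 := (PV.of (l := l) hn2).mul1 g4 (hT ▸ hB)
  have a5 := (PV.of (l := l) hb3).mul1 g5 (hT ▸ hB)
  have a6 := (PV.of (l := l) hn3).mul1 g6 (hT ▸ hB)
  have a7 := (PV.of (l := l) he).mul1 hz (hT ▸ hE)
  have c1 := a1.add a2 (by rw [hT]; omega)
  have c2 := a3.add a4 (by rw [hT]; omega)
  have c3 := a5.add a6 (by rw [hT]; omega)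
  have c4 := (c1.add c2 (by rw [hT]; omega)).add c3 (by rw [hT]; omega)
  have c5 := (c4.mul 2 (by rw [hT]; omega)).add a7 (by rw [hT]; omega)
  have c6 := c5.mono (b' := 12 * B + E) (by omega)
  refine ⟨c6.r, ?_⟩
  rw [c6.e]
  push_cast
  ring

/-- the entries of the second form -/
theorem cf {l : Fin 6 → ℝ} {p n u e f : ℕ} (hp : R6 0 (2 ^ 82) p) (hn : R6 0 (2 ^ 82) n)
    (hu : R6 0 (2 ^ 66) u) (he : R6 0 (2 ^ 91) e) (hf : R6 0 (2 ^ 91) f) :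
    (R6 0 (2 ^ 92) (2 * p + f) ∧ R6 0 (2 ^ 92) (2 * (u + n) + e)) ∧
      lv l (2 * p + f) - lv l (2 * (u + n) + e) =
        2 * (lv l p - lv l n) - 2 * lv l u - (lv l e - lv l f) := by
  have a1 := ((PV.of (l := l) hp).mul 2 (by norm_num)).add (PV.of (l := l) hf) (by norm_num)
  have a2 := ((((PV.of (l := l) hu).add (PV.of (l := l) hn) (by norm_num)).mul 2
    (by norm_num)).add (PV.of (l := l) he) (by norm_num))
  refine ⟨⟨a1.r.up (by norm_num), a2.r.up (by norm_num)⟩, ?_⟩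
  rw [a1.e, a2.e]
  push_cast
  ring

/-- the quadratic form of `D4` -/
theorem qd (U T : Mx 3) (z w : Fin 3 → ℝ) (y : Fin 3 → ℤ) :
    qf (-((2 : ℝ) • (U - T)) -
      (vecMulVec z ((2 : ℝ) • ((U + T) *ᵥ w) + qr (U - T) w • z) +
        vecMulVec ((2 : ℝ) • ((U + T) *ᵥ w) + qr (U - T) w • z) z)) y =
      4 * Dv U T (vecMulVec z w) 1 (rv y) := by
  have e0 : (vecMulVec z w)ᵀ *ᵥ rv y = (z ⬝ᵥ rv y) • w := by
    rw [transpose_vecMulVec, vecMulVec_mulVec]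
    simp
  unfold qf Dv
  rw [e0]
  generalize rv y = v
  unfold qr
  simp only [Matrix.sub_mulVec, Matrix.neg_mulVec, Matrix.smul_mulVec, Matrix.add_mulVec,
    vecMulVec_mulVec, dotProduct_sub, dotProduct_neg, dotProduct_smul, dotProduct_add,
    smul_dotProduct, Matrix.mulVec_smul, smul_eq_mul, add_dotProduct, MulOpposite.smul_eq_mul_unop,
    MulOpposite.unop_op, div_one, one_mul]
  rw [dotProduct_comm v z, dotProduct_comm (U *ᵥ w) v, dotProduct_comm (T *ᵥ w) v]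
  ring

end D4SAux

open D4SAux

/-- the form `D4 = -2 (U - T) - (z ⊗ s + s ⊗ z)`, `s = 2 (U + T) w + E[w] z`, unit `2 ^ -58` -/
theorem d4_sound {l : Fin 6 → ℝ} {U T : Mx 3} {u11 u12 u13 u22 u23 u33 : ℕ}
    {p11 n11 p12 n12 p13 n13 p22 n22 p23 n23 p33 n33 : ℕ} (h1 : ∑ i, l i = 1)
    (hU : SM (2 ^ 66) l U u11 0 u12 0 u13 0 u22 0 u23 0 u33 0)
    (hT : SM (2 ^ 82) l T p11 n11 p12 n12 p13 n13 p22 n22 p23 n23 p33 n33)
    {w1 x1 w2 x2 w3 x3 z1 y1 z2 y2 z3 y3 : ℕ}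
    (hw : w1 ≤ 1 ∧ x1 ≤ 1 ∧ w2 ≤ 1 ∧ x2 ≤ 1 ∧ w3 ≤ 1 ∧ x3 ≤ 1)
    (hz : z1 ≤ 1 ∧ y1 ≤ 1 ∧ z2 ≤ 1 ∧ y2 ≤ 1 ∧ z3 ≤ 1 ∧ y3 ≤ 1) {z w : Fin 3 → ℝ}
    (ez : z = ![(z1 : ℝ) - y1, (z2 : ℝ) - y2, (z3 : ℝ) - y3])
    (ew' : w = ![(w1 : ℝ) - x1, (w2 : ℝ) - x2, (w3 : ℝ) - x3]) {ew : ℕ}
    (hew : R6 0 (2 ^ 88) ew) (eew : lv l ew = qr (U - T) w)
    (k : ℕ → ℕ → ℕ → ℕ → ℕ → ℕ → Bool) :
    ∃ d0 d1 d2 d3 d4 d5,
      ((fun b11 b12 b13 b22 b23 b33 : ℕ =>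
        sym2 z1 y1 z2 y2 z3 y3
          (Nat.add (Nat.mul 2 (Nat.add (Nat.add (Nat.add (Nat.mul w1 b11) (Nat.mul x1 n11))
            (Nat.add (Nat.mul w2 b12) (Nat.mul x2 n12))) (Nat.add (Nat.mul w3 b13)
            (Nat.mul x3 n13)))) (Nat.mul z1 ew))
          (Nat.add (Nat.mul 2 (Nat.add (Nat.add (Nat.add (Nat.mul x1 b11) (Nat.mul w1 n11))
            (Nat.add (Nat.mul x2 b12) (Nat.mul w2 n12))) (Nat.add (Nat.mul x3 b13)
            (Nat.mul w3 n13)))) (Nat.mul y1 ew))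
          (Nat.add (Nat.mul 2 (Nat.add (Nat.add (Nat.add (Nat.mul w1 b12) (Nat.mul x1 n12))
            (Nat.add (Nat.mul w2 b22) (Nat.mul x2 n22))) (Nat.add (Nat.mul w3 b23)
            (Nat.mul x3 n23)))) (Nat.mul z2 ew))
          (Nat.add (Nat.mul 2 (Nat.add (Nat.add (Nat.add (Nat.mul x1 b12) (Nat.mul w1 n12))
            (Nat.add (Nat.mul x2 b22) (Nat.mul w2 n22))) (Nat.add (Nat.mul x3 b23)
            (Nat.mul w3 n23)))) (Nat.mul y2 ew))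
          (Nat.add (Nat.mul 2 (Nat.add (Nat.add (Nat.add (Nat.mul w1 b13) (Nat.mul x1 n13))
            (Nat.add (Nat.mul w2 b23) (Nat.mul x2 n23))) (Nat.add (Nat.mul w3 b33)
            (Nat.mul x3 n33)))) (Nat.mul z3 ew))
          (Nat.add (Nat.mul 2 (Nat.add (Nat.add (Nat.add (Nat.mul x1 b13) (Nat.mul w1 n13))
            (Nat.add (Nat.mul x2 b23) (Nat.mul w2 n23))) (Nat.add (Nat.mul x3 b33)
            (Nat.mul w3 n33)))) (Nat.mul y3 ew))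
          fun e11 f11 e12 f12 e13 f13 e22 f22 e23 f23 e33 f33 =>
          coefs 79228162514264337593543950336
            (Nat.add (Nat.mul 2 p11) f11) (Nat.add (Nat.mul 2 (Nat.add u11 n11)) e11)
            (Nat.add (Nat.mul 2 p12) f12) (Nat.add (Nat.mul 2 (Nat.add u12 n12)) e12)
            (Nat.add (Nat.mul 2 p13) f13) (Nat.add (Nat.mul 2 (Nat.add u13 n13)) e13)
            (Nat.add (Nat.mul 2 p22) f22) (Nat.add (Nat.mul 2 (Nat.add u22 n22)) e22)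
            (Nat.add (Nat.mul 2 p23) f23) (Nat.add (Nat.mul 2 (Nat.add u23 n23)) e23)
            (Nat.add (Nat.mul 2 p33) f33) (Nat.add (Nat.mul 2 (Nat.add u33 n33)) e33) k)
        (Nat.add u11 p11) (Nat.add u12 p12) (Nat.add u13 p13) (Nat.add u22 p22)
        (Nat.add u23 p23) (Nat.add u33 p33)) = k d0 d1 d2 d3 d4 d5 ∧
      ∃ M : Mx 3, SF (2 ^ 96) (2 ^ 94) l M d0 d1 d2 d3 d4 d5 ∧
        ∀ y : Fin 3 → ℤ, qf M y = 4 * Dv U T (vecMulVec z w) 1 (rv y) := by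
  obtain ⟨hU11, hU12, hU13, hU22, hU23, hU33, u00, u01, u02, u10, u11', u12', u20, u21, u22'⟩ := hU
  obtain ⟨hT11, hT12, hT13, hT22, hT23, hT33, t00, t01, t02, t10, t11, t12, t20, t21, t22⟩ := hT
  rw [lv_zero, sub_zero] at u00 u01 u02 u10 u11' u12' u20 u21 u22'
  obtain ⟨gz1, gy1, gz2, gy2, gz3, gy3⟩ := hz
  have hB : ∀ {u p : ℕ}, R6 0 (2 ^ 66) u → R6 0 (2 ^ 82) p →
      PV l (2 ^ 66 + 2 ^ 82) (u + p) (lv l u + lv l p) := fun hu hp =>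
    (PV.of hu).add (PV.of hp) (by norm_num)
  have hN : ∀ {n : ℕ}, R6 0 (2 ^ 82) n → R6 0 (2 ^ 66 + 2 ^ 82) n := fun h => h.up (by norm_num)
  have b11 := hB hU11.1 hT11.1
  have b12 := hB hU12.1 hT12.1
  have b13 := hB hU13.1 hT13.1
  have b22 := hB hU22.1 hT22.1
  have b23 := hB hU23.1 hT23.1
  have b33 := hB hU33.1 hT33.1
  have n11' := hN hT11.2
  have n12' := hN hT12.2
  have n13' := hN hT13.2
  have n22' := hN hT22.2
  have n23' := hN hT23.2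
  have n33' := hN hT33.2
  have hw' : x1 ≤ 1 ∧ w1 ≤ 1 ∧ x2 ≤ 1 ∧ w2 ≤ 1 ∧ x3 ≤ 1 ∧ w3 ≤ 1 :=
    ⟨hw.2.1, hw.1, hw.2.2.2.1, hw.2.2.1, hw.2.2.2.2.2, hw.2.2.2.2.1⟩
  have hbd : 12 * (2 ^ 66 + 2 ^ 82) + 2 ^ 88 < 2 ^ 256 := by norm_num
  have s1 := (sv (l := l) b11.r b12.r b13.r n11' n12' n13' hew hw gz1 hbd).mono
    (b' := 2 ^ 89) (by norm_num)
  have r1 := (sv (l := l) b11.r b12.r b13.r n11' n12' n13' hew hw' gy1 hbd).mono
    (b' := 2 ^ 89) (by norm_num)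
  have s2 := (sv (l := l) b12.r b22.r b23.r n12' n22' n23' hew hw gz2 hbd).mono
    (b' := 2 ^ 89) (by norm_num)
  have r2 := (sv (l := l) b12.r b22.r b23.r n12' n22' n23' hew hw' gy2 hbd).mono
    (b' := 2 ^ 89) (by norm_num)
  have s3 := (sv (l := l) b13.r b23.r b33.r n13' n23' n33' hew hw gz3 hbd).mono
    (b' := 2 ^ 89) (by norm_num)
  have r3 := (sv (l := l) b13.r b23.r b33.r n13' n23' n33' hew hw' gy3 hbd).mono
    (b' := 2 ^ 89) (by norm_num)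
  obtain ⟨e11, f11, e12, f12, e13, f13, e22, f22, e23, f23, e33, f33, hk, hM⟩ :=
    sym2_sound (l := l) ⟨gz1, gy1, gz2, gy2, gz3, gy3⟩ ⟨s1.r, r1.r⟩ ⟨s2.r, r2.r⟩ ⟨s3.r, r3.r⟩
      (by norm_num) (z := z) (s := (2 : ℝ) • ((U + T) *ᵥ w) + qr (U - T) w • z) ez (by
        rw [s1.e, r1.e, s2.e, r2.e, s3.e, r3.e, b11.e, b12.e, b13.e, b22.e, b23.e, b33.e]
        funext i
        fin_cases i
        · simp [Matrix.mulVec, dotProduct, Fin.sum_univ_three, ez, ew', eew, u00, u01, u02, t00,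
            t01, t02]
          ring
        · simp [Matrix.mulVec, dotProduct, Fin.sum_univ_three, ez, ew', eew, u10, u11', u12', t10,
            t11, t12]
          ring
        · simp [Matrix.mulVec, dotProduct, Fin.sum_univ_three, ez, ew', eew, u20, u21, u22', t20,
            t21, t22]
          ring)
      (fun e11 f11 e12 f12 e13 f13 e22 f22 e23 f23 e33 f33 =>
          coefs 79228162514264337593543950336
            (Nat.add (Nat.mul 2 p11) f11) (Nat.add (Nat.mul 2 (Nat.add u11 n11)) e11)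
            (Nat.add (Nat.mul 2 p12) f12) (Nat.add (Nat.mul 2 (Nat.add u12 n12)) e12)
            (Nat.add (Nat.mul 2 p13) f13) (Nat.add (Nat.mul 2 (Nat.add u13 n13)) e13)
            (Nat.add (Nat.mul 2 p22) f22) (Nat.add (Nat.mul 2 (Nat.add u22 n22)) e22)
            (Nat.add (Nat.mul 2 p23) f23) (Nat.add (Nat.mul 2 (Nat.add u23 n23)) e23)
            (Nat.add (Nat.mul 2 p33) f33) (Nat.add (Nat.mul 2 (Nat.add u33 n33)) e33) k)
  obtain ⟨m11, m12, m13, m22, m23, m33, q00, q01, q02, q10, q11, q12, q20, q21, q22⟩ := hM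
  have c11 := cf (l := l) hT11.1 hT11.2 hU11.1 (m11.1.up (by norm_num)) (m11.2.up (by norm_num))
  have c12 := cf (l := l) hT12.1 hT12.2 hU12.1 (m12.1.up (by norm_num)) (m12.2.up (by norm_num))
  have c13 := cf (l := l) hT13.1 hT13.2 hU13.1 (m13.1.up (by norm_num)) (m13.2.up (by norm_num))
  have c22 := cf (l := l) hT22.1 hT22.2 hU22.1 (m22.1.up (by norm_num)) (m22.2.up (by norm_num))
  have c23 := cf (l := l) hT23.1 hT23.2 hU23.1 (m23.1.up (by norm_num)) (m23.2.up (by norm_num))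
  have c33 := cf (l := l) hT33.1 hT33.2 hU33.1 (m33.1.up (by norm_num)) (m33.2.up (by norm_num))
  obtain ⟨d0, d1, d2, d3, d4, d5, hk2, hS⟩ := coefs_sound (c := 79228162514264337593543950336)
    (b := 2 ^ 92) (l := l) h1
    (M := -((2 : ℝ) • (U - T)) -
      (vecMulVec z ((2 : ℝ) • ((U + T) *ᵥ w) + qr (U - T) w • z) +
        vecMulVec ((2 : ℝ) • ((U + T) *ᵥ w) + qr (U - T) w • z) z))
    ⟨c11.1, c12.1, c13.1, c22.1, c23.1, c33.1,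
      by rw [c11.2, Matrix.sub_apply, Matrix.neg_apply, Matrix.smul_apply, Matrix.sub_apply, q00,
          u00, t00, smul_eq_mul]; ring,
      by rw [c12.2, Matrix.sub_apply, Matrix.neg_apply, Matrix.smul_apply, Matrix.sub_apply, q01,
          u01, t01, smul_eq_mul]; ring,
      by rw [c13.2, Matrix.sub_apply, Matrix.neg_apply, Matrix.smul_apply, Matrix.sub_apply, q02,
          u02, t02, smul_eq_mul]; ring,
      by rw [c12.2, Matrix.sub_apply, Matrix.neg_apply, Matrix.smul_apply, Matrix.sub_apply, q10,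
          u10, t10, smul_eq_mul]; ring,
      by rw [c22.2, Matrix.sub_apply, Matrix.neg_apply, Matrix.smul_apply, Matrix.sub_apply, q11,
          u11', t11, smul_eq_mul]; ring,
      by rw [c23.2, Matrix.sub_apply, Matrix.neg_apply, Matrix.smul_apply, Matrix.sub_apply, q12,
          u12', t12, smul_eq_mul]; ring,
      by rw [c13.2, Matrix.sub_apply, Matrix.neg_apply, Matrix.smul_apply, Matrix.sub_apply, q20,
          u20, t20, smul_eq_mul]; ring,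
      by rw [c23.2, Matrix.sub_apply, Matrix.neg_apply, Matrix.smul_apply, Matrix.sub_apply, q21,
          u21, t21, smul_eq_mul]; ring,
      by rw [c33.2, Matrix.sub_apply, Matrix.neg_apply, Matrix.smul_apply, Matrix.sub_apply, q22,
          u22', t22, smul_eq_mul]; ring⟩ (by norm_num) (by norm_num) k
  refine ⟨d0, d1, d2, d3, d4, d5, hk.trans hk2, _, ?_, fun y => qd U T z w y⟩
  obtain ⟨g0, g1, g2, g3, g4, g5, hf⟩ := hS
  have e96 : (79228162514264337593543950336 : ℕ) = 2 ^ 96 := by norm_num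
  rw [e96] at g0 g1 g2 g3 g4 g5
  exact ⟨g0.mono (by norm_num) (by norm_num), g1.mono (by norm_num) (by norm_num),
    g2.mono (by norm_num) (by norm_num), g3.mono (by norm_num) (by norm_num),
    g4.mono (by norm_num) (by norm_num), g5.mono (by norm_num) (by norm_num), by
      rw [hf, e96]⟩

/-- the direct form `H = w ⊗ Q z + Q z ⊗ w` -/
theorem dir_sound {l : Fin 6 → ℝ} (h1 : ∑ i, l i = 1) {q0 q1 q2 q3 q4 q5 : ℕ}
    (hq : R6 0 (2 ^ 33) q0 ∧ R6 0 (2 ^ 33) q1 ∧ R6 0 (2 ^ 33) q2 ∧ R6 0 (2 ^ 33) q3 ∧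
      R6 0 (2 ^ 33) q4 ∧ R6 0 (2 ^ 33) q5) {w1 x1 w2 x2 w3 x3 z1 y1 z2 y2 z3 y3 : ℕ}
    (hw : w1 ≤ 1 ∧ x1 ≤ 1 ∧ w2 ≤ 1 ∧ x2 ≤ 1 ∧ w3 ≤ 1 ∧ x3 ≤ 1)
    (hz : z1 ≤ 1 ∧ y1 ≤ 1 ∧ z2 ≤ 1 ∧ y2 ≤ 1 ∧ z3 ≤ 1 ∧ y3 ≤ 1) {z w : Fin 3 → ℝ}
    (ez : z = ![(z1 : ℝ) - y1, (z2 : ℝ) - y2, (z3 : ℝ) - y3])
    (ew' : w = ![(w1 : ℝ) - x1, (w2 : ℝ) - x2, (w3 : ℝ) - x3])
    (k : ℕ → ℕ → ℕ → ℕ → ℕ → ℕ → Bool) :
    ∃ h0 h1 h2 h3 h4 h5,
      ((fun q11 q22 q33 : ℕ =>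
        sym2 w1 x1 w2 x2 w3 x3
          (Nat.add (Nat.add (Nat.mul z1 q11) (Nat.mul y2 q0)) (Nat.mul y3 q2))
          (Nat.add (Nat.add (Nat.mul y1 q11) (Nat.mul z2 q0)) (Nat.mul z3 q2))
          (Nat.add (Nat.add (Nat.mul z2 q22) (Nat.mul y1 q0)) (Nat.mul y3 q5))
          (Nat.add (Nat.add (Nat.mul y2 q22) (Nat.mul z1 q0)) (Nat.mul z3 q5))
          (Nat.add (Nat.add (Nat.mul z3 q33) (Nat.mul y1 q2)) (Nat.mul y2 q5))
          (Nat.add (Nat.add (Nat.mul y3 q33) (Nat.mul z1 q2)) (Nat.mul z2 q5))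
          fun p11 n11 p12 n12 p13 n13 p22 n22 p23 n23 p33 n33 =>
          coefs 1099511627776 p11 n11 p12 n12 p13 n13 p22 n22 p23 n23 p33 n33 k)
        (Nat.add (Nat.add q0 q2) q4) (Nat.add (Nat.add q0 q3) q5)
        (Nat.add (Nat.add q1 q2) q5)) = k h0 h1 h2 h3 h4 h5 ∧
      SF (2 ^ 40) (2 ^ 39) l ((2 : ℝ) ^ 26 • Hx (formOf ![lv l q0 / 2 ^ 26,
        lv l q1 / 2 ^ 26, lv l q2 / 2 ^ 26, lv l q3 / 2 ^ 26, lv l q4 / 2 ^ 26, lv l q5 / 2 ^ 26])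
        (vecMulVec z w)) h0 h1 h2 h3 h4 h5 := by
  obtain ⟨hq0, hq1, hq2, hq3, hq4, hq5⟩ := hq
  have hw' := hw
  obtain ⟨gz1, gy1, gz2, gy2, gz3, gy3⟩ := hz
  have P0 := PV.of (l := l) hq0
  have P1 := PV.of (l := l) hq1
  have P2 := PV.of (l := l) hq2
  have P3 := PV.of (l := l) hq3
  have P4 := PV.of (l := l) hq4
  have P5 := PV.of (l := l) hq5
  have q11 := (P0.add P2 (by norm_num)).add P4 (by norm_num)
  have q22 := (P0.add P3 (by norm_num)).add P5 (by norm_num)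
  have q33 := (P1.add P2 (by norm_num)).add P5 (by norm_num)
  have hs : ∀ {c d e q a b : ℕ} {v x y : ℝ}, c ≤ 1 → d ≤ 1 → e ≤ 1 →
      PV l (2 ^ 33 + 2 ^ 33 + 2 ^ 33) q v → PV l (2 ^ 33) a x → PV l (2 ^ 33) b y →
      PV l (5 * 2 ^ 33) (c * q + d * a + e * b) (c * v + d * x + e * y) :=
    fun hc hd he hq ha hb => (((hq.mul1 hc (by norm_num)).add (ha.mul1 hd (by norm_num))
      (by norm_num)).add (hb.mul1 he (by norm_num)) (by norm_num)).mono (by norm_num)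
  have s1 := hs gz1 gy2 gy3 q11 P0 P2
  have r1 := hs gy1 gz2 gz3 q11 P0 P2
  have s2 := hs gz2 gy1 gy3 q22 P0 P5
  have r2 := hs gy2 gz1 gz3 q22 P0 P5
  have s3 := hs gz3 gy1 gy2 q33 P2 P5
  have r3 := hs gy3 gz1 gz2 q33 P2 P5
  obtain ⟨p11, n11, p12, n12, p13, n13, p22, n22, p23, n23, p33, n33, hk, hM⟩ :=
    sym2_sound (l := l) hw ⟨s1.r, r1.r⟩ ⟨s2.r, r2.r⟩ ⟨s3.r, r3.r⟩
      (by norm_num) (z := w) (s := (2 : ℝ) ^ 26 • ((formOf ![lv l q0 / 2 ^ 26,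
        lv l q1 / 2 ^ 26, lv l q2 / 2 ^ 26, lv l q3 / 2 ^ 26, lv l q4 / 2 ^ 26,
        lv l q5 / 2 ^ 26]) *ᵥ z)) ew' (by
        rw [s1.e, r1.e, s2.e, r2.e, s3.e, r3.e, ez]
        funext i
        fin_cases i
        · simp [formOf]
          ring
        · simp [formOf]
          ring
        · simp [formOf]
          ring)
      (fun p11 n11 p12 n12 p13 n13 p22 n22 p23 n23 p33 n33 =>
          coefs 1099511627776 p11 n11 p12 n12 p13 n13 p22 n22 p23 n23 p33 n33 k)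
  obtain ⟨d0, d1, d2, d3, d4, d5, hk2, hS⟩ := coefs_sound (c := 1099511627776) h1 hM
    (by norm_num) (by norm_num) k
  refine ⟨d0, d1, d2, d3, d4, d5, hk.trans hk2, ?_⟩
  have e40 : (1099511627776 : ℕ) = 2 ^ 40 := by norm_num
  have hsym : (formOf ![lv l q0 / 2 ^ 26, lv l q1 / 2 ^ 26, lv l q2 / 2 ^ 26, lv l q3 / 2 ^ 26,
      lv l q4 / 2 ^ 26, lv l q5 / 2 ^ 26]).IsSymm := by
    unfold Matrix.IsSymm
    ext i j
    fin_cases i <;> fin_cases j <;> simp [formOf]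
  have eM : vecMulVec w ((2 : ℝ) ^ 26 • ((formOf ![lv l q0 / 2 ^ 26,
        lv l q1 / 2 ^ 26, lv l q2 / 2 ^ 26, lv l q3 / 2 ^ 26, lv l q4 / 2 ^ 26,
        lv l q5 / 2 ^ 26]) *ᵥ z)) + vecMulVec ((2 : ℝ) ^ 26 • ((formOf ![lv l q0 / 2 ^ 26,
        lv l q1 / 2 ^ 26, lv l q2 / 2 ^ 26, lv l q3 / 2 ^ 26, lv l q4 / 2 ^ 26,
        lv l q5 / 2 ^ 26]) *ᵥ z)) w = (2 : ℝ) ^ 26 • Hx (formOf ![lv l q0 / 2 ^ 26,
        lv l q1 / 2 ^ 26, lv l q2 / 2 ^ 26, lv l q3 / 2 ^ 26, lv l q4 / 2 ^ 26, lv l q5 / 2 ^ 26])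
        (vecMulVec z w) := by
    rw [Hx_vec _ hsym, Hd, smul_add, vecMulVec_smul, smul_vecMulVec, add_comm]
  rw [eM] at hS
  obtain ⟨g0, g1, g2, g3, g4, g5, hf⟩ := hS
  rw [e40] at g0 g1 g2 g3 g4 g5
  exact ⟨g0.mono (by norm_num) (by norm_num), g1.mono (by norm_num) (by norm_num),
    g2.mono (by norm_num) (by norm_num), g3.mono (by norm_num) (by norm_num),
    g4.mono (by norm_num) (by norm_num), g5.mono (by norm_num) (by norm_num), by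
      rw [hf, e40]⟩

end Pool.Agent.Lib.EPX
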