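import Pool.Agent.Lib.EPX.FmD

/-!
# EPX.FmS: the forms of the checker: evaluation, coefficients, `z ⊗ s + s ⊗ z`, vertices

`ev_sound`: `ev v f = ∑ c_k f_k` (six times `R6.mul`, five times `R6.add`, `lv_mul`, `lv_add`), and
`∑ c_k φ_k = qf (formOf φ) v.vec` for `φ_k = lv l f_k - c` (`FCC.DetCAux.qr_form`, `Vx.OK`),
`n = ∑ c_k`. `coefs_sound`: six times `R6.add`, `R6.sub` (with `R6.le_of`), `R6.cst`, `lv_cst`.
`sym2_sound`: bilinear; the parts `z_ip, z_in` of `z` are at most `1` (fields of `z_ip s_i`: `R6.mul`).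
`pkm_sound`: `R6.pk`, `lv_pk`.
-/

open Matrix
open scoped Matrix.Norms.Elementwise

namespace Pool.Agent.Lib.EPX

open Pool.Agent.Lib.EPL Pool.Agent.Lib.EpZ Pool.Agent.Lib.EPS Pool.Agent.Lib.FCC

namespace FmSAux

theorem csum {v : Vx} (h : v.OK) : v.c0 + v.c1 + (v.c2 + v.c3) + (v.c4 + v.c5) = v.n := by
  rw [h.n]; ring

/-- the form `∑ c_k f_k` -/
theorem ev_aux {l : Fin 6 → ℝ} {v : Vx} (hv : v.OK) {a b f0 f1 f2 f3 f4 f5 : ℕ} (h0 : R6 a b f0)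
    (h1 : R6 a b f1) (h2 : R6 a b f2) (h3 : R6 a b f3) (h4 : R6 a b f4) (h5 : R6 a b f5)
    (hb : 200 * b < 2 ^ 256) :
    R6 (v.n * a) (v.n * b) (ev v f0 f1 f2 f3 f4 f5) ∧
      lv l (ev v f0 f1 f2 f3 f4 f5) = v.c0 * lv l f0 + v.c1 * lv l f1 + v.c2 * lv l f2 +
        v.c3 * lv l f3 + v.c4 * lv l f4 + v.c5 * lv l f5 := by
  have hs := csum hv
  have hn := hv.n200
  have hnb : v.n * b ≤ 200 * b := Nat.mul_le_mul_right _ hn
  have eb : v.c0 * b + v.c1 * b + (v.c2 * b + v.c3 * b) + (v.c4 * b + v.c5 * b) = v.n * b := by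
    rw [← hs]; ring
  have ea : v.c0 * a + v.c1 * a + (v.c2 * a + v.c3 * a) + (v.c4 * a + v.c5 * a) = v.n * a := by
    rw [← hs]; ring
  have m0 := h0.mul v.c0 (by omega)
  have m1 := h1.mul v.c1 (by omega)
  have m2 := h2.mul v.c2 (by omega)
  have m3 := h3.mul v.c3 (by omega)
  have m4 := h4.mul v.c4 (by omega)
  have m5 := h5.mul v.c5 (by omega)
  have a01 := m0.add m1 (by omega)
  have a23 := m2.add m3 (by omega)
  have a45 := m4.add m5 (by omega)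
  have a03 := a01.add a23 (by omega)
  have a05 := a03.add a45 (by omega)
  rw [eb, ea] at a05
  refine ⟨a05, ?_⟩
  have e : ev v f0 f1 f2 f3 f4 f5 = v.c0 * f0 + v.c1 * f1 + (v.c2 * f2 + v.c3 * f3) +
      (v.c4 * f4 + v.c5 * f5) := rfl
  rw [e, a03.lv_add a45 (by omega) l, a01.lv_add a23 (by omega) l, m0.lv_add m1 (by omega) l,
    m2.lv_add m3 (by omega) l, m4.lv_add m5 (by omega) l, h0.lv_mul _ (by omega),
    h1.lv_mul _ (by omega), h2.lv_mul _ (by omega), h3.lv_mul _ (by omega),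
    h4.lv_mul _ (by omega), h5.lv_mul _ (by omega)]
  ring

/-- the value of a form with Selling parameters `q` at a vector -/
theorem form_ev {v : Vx} (hv : v.OK) (q0 q1 q2 q3 q4 q5 : ℝ) :
    qf (formOf ![q0, q1, q2, q3, q4, q5]) v.vec =
      v.c0 * q0 + v.c1 * q1 + v.c2 * q2 + v.c3 * q3 + v.c4 * q4 + v.c5 * q5 := by
  have e0 : (v.c0 : ℝ) = ((v.vec 0 : ℝ) - v.vec 1) ^ 2 := by exact_mod_cast hv.c0
  have e1 : (v.c1 : ℝ) = (v.vec 2 : ℝ) ^ 2 := by exact_mod_cast hv.c1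
  have e2 : (v.c2 : ℝ) = ((v.vec 0 : ℝ) - v.vec 2) ^ 2 := by exact_mod_cast hv.c2
  have e3 : (v.c3 : ℝ) = (v.vec 1 : ℝ) ^ 2 := by exact_mod_cast hv.c3
  have e4 : (v.c4 : ℝ) = (v.vec 0 : ℝ) ^ 2 := by exact_mod_cast hv.c4
  have e5 : (v.c5 : ℝ) = ((v.vec 1 : ℝ) - v.vec 2) ^ 2 := by exact_mod_cast hv.c5
  rw [e0, e1, e2, e3, e4, e5]
  unfold qf qr rv formOf
  simp only [dotProduct, mulVec, Fin.sum_univ_three, Matrix.of_apply, Matrix.cons_val',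
    Matrix.cons_val_zero, Matrix.cons_val_one, Matrix.cons_val, Matrix.cons_val_fin_one]
  ring

end FmSAux

open FmSAux

/-- evaluation at a vector -/
theorem ev_sound {c b : ℕ} {l : Fin 6 → ℝ} {M : Mx 3} {f0 f1 f2 f3 f4 f5 : ℕ}
    (h : SF c b l M f0 f1 f2 f3 f4 f5) {v : Vx} (hv : v.OK) (hb : 200 * (c + b) < 2 ^ 256) :
    R6 (v.n * (c - b)) (v.n * (c + b)) (ev v f0 f1 f2 f3 f4 f5) ∧
      lv l (ev v f0 f1 f2 f3 f4 f5) = v.n * c + qf M v.vec := by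
  obtain ⟨h1, h2⟩ := ev_aux (l := l) hv h.b0 h.b1 h.b2 h.b3 h.b4 h.b5 hb
  refine ⟨h1, ?_⟩
  rw [h2, h.eq, form_ev hv]
  have en : (v.n : ℝ) = v.c0 + v.c1 + v.c2 + v.c3 + v.c4 + v.c5 := by
    rw [hv.n]; push_cast; ring
  rw [en]
  ring

namespace FmSAux

theorem add0 {b c x y : ℕ} (hx : R6 0 b x) (hy : R6 0 c y) (h : b + c < 2 ^ 256) :
    R6 0 (b + c) (Nat.add x y) := hx.add hy h

theorem mul0 {b x : ℕ} (c : ℕ) (hx : R6 0 b x) (h : c * b < 2 ^ 256) :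
    R6 0 (c * b) (Nat.mul c x) := by
  have := hx.mul c h
  rwa [mul_zero] at this

theorem pow200 : (2 : ℕ) ^ 200 * 2 ^ 56 = 2 ^ 256 := by rw [← pow_add]

theorem big (b : ℕ) (hb : b < 2 ^ 200) : 1000 * b < 2 ^ 256 := by
  have h := pow200
  have h2 : (1000 : ℕ) ≤ 2 ^ 56 := by norm_num
  calc 1000 * b ≤ 2 ^ 56 * b := Nat.mul_le_mul_right _ h2
    _ < 2 ^ 56 * 2 ^ 200 := Nat.mul_lt_mul_of_pos_left hb (by positivity)
    _ = 2 ^ 256 := by rw [mul_comm]; exact h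

/-- a number with offset -/
theorem off {c b p n : ℕ} {l : Fin 6 → ℝ} (h1 : ∑ i, l i = 1) (hc : b ≤ c) (hc' : 2 * c < 2 ^ 256)
    (hp : R6 0 b p) (hn : R6 0 b n) :
    R6 (c - b) (c + b) (Nat.sub (Nat.add (Nat.mul c ON) p) n) ∧
      lv l (Nat.sub (Nat.add (Nat.mul c ON) p) n) - c = lv l p - lv l n := by
  have hO : R6 c c (c * ON) := R6.cst (by omega)
  have ha := hO.add hp (by omega)
  have hs : ∀ i, fk n (gp i) ≤ fk (c * ON + p) (gp i) := fun i => ha.le_of hn (by omega) i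
  refine ⟨(ha.sub hn hs).mono (by omega) (by omega), ?_⟩
  have e : Nat.sub (Nat.add (Nat.mul c ON) p) n = c * ON + p - n := rfl
  rw [e, ha.lv_sub hn hs, hO.lv_add hp (by omega) l, lv_cst (by omega) h1]
  ring

theorem add3 {b x y z : ℕ} (l : Fin 6 → ℝ) (hx : R6 0 b x) (hy : R6 0 b y) (hz : R6 0 b z)
    (hb : 3 * b < 2 ^ 256) : R6 0 (3 * b) (Nat.add (Nat.add x y) z) ∧
      lv l (Nat.add (Nat.add x y) z) = lv l x + lv l y + lv l z := by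
  have h1 := add0 hx hy (by omega)
  refine ⟨(add0 h1 hz (by omega)).up (by omega), ?_⟩
  have e1 : lv l (Nat.add (Nat.add x y) z) = lv l (Nat.add x y) + lv l z :=
    h1.lv_add hz (by omega) l
  have e2 : lv l (Nat.add x y) = lv l x + lv l y := hx.lv_add hy (by omega) l
  rw [e1, e2]

end FmSAux

/-- from entries to coefficients -/
theorem coefs_sound {c b : ℕ} {l : Fin 6 → ℝ} (h1 : ∑ i, l i = 1) {M : Mx 3}
    {p11 n11 p12 n12 p13 n13 p22 n22 p23 n23 p33 n33 : ℕ}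
    (h : SM b l M p11 n11 p12 n12 p13 n13 p22 n22 p23 n23 p33 n33) (hc : 3 * b ≤ c)
    (hc' : c < 2 ^ 200) (k : ℕ → ℕ → ℕ → ℕ → ℕ → ℕ → Bool) :
    ∃ f0 f1 f2 f3 f4 f5, coefs c p11 n11 p12 n12 p13 n13 p22 n22 p23 n23 p33 n33 k =
      k f0 f1 f2 f3 f4 f5 ∧ SF c (3 * b) l M f0 f1 f2 f3 f4 f5 := by
  have hbig := big c hc'
  obtain ⟨⟨b11, c11⟩, ⟨b12, c12⟩, ⟨b13, c13⟩, ⟨b22, c22⟩, ⟨b23, c23⟩, ⟨b33, c33⟩, m00, m01, m02,
    m10, m11, m12, m20, m21, m22⟩ := h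
  have s1p := add3 l b13 b23 b33 (by omega)
  have s1n := add3 l c13 c23 c33 (by omega)
  have s3p := add3 l b12 b22 b23 (by omega)
  have s3n := add3 l c12 c22 c23 (by omega)
  have s4p := add3 l b11 b12 b13 (by omega)
  have s4n := add3 l c11 c12 c13 (by omega)
  have k0 := off h1 hc (by omega) (c12.up (by omega : b ≤ 3 * b)) (b12.up (by omega : b ≤ 3 * b))
  have k2 := off h1 hc (by omega) (c13.up (by omega : b ≤ 3 * b)) (b13.up (by omega : b ≤ 3 * b))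
  have k5 := off h1 hc (by omega) (c23.up (by omega : b ≤ 3 * b)) (b23.up (by omega : b ≤ 3 * b))
  have k1 := off h1 hc (by omega) s1p.1 s1n.1
  have k3 := off h1 hc (by omega) s3p.1 s3n.1
  have k4 := off h1 hc (by omega) s4p.1 s4n.1
  refine ⟨_, _, _, _, _, _, rfl, k0.1, k1.1, k2.1, k3.1, k4.1, k5.1, ?_⟩
  rw [k0.2, k1.2, k2.2, k3.2, k4.2, k5.2, s1p.2, s1n.2, s3p.2, s3n.2, s4p.2, s4n.2]
  ext i j
  fin_cases i <;> fin_cases j <;>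
    simp only [formOf, Matrix.of_apply, Matrix.cons_val', Matrix.cons_val_zero,
      Matrix.cons_val_one, Matrix.cons_val, Matrix.cons_val_fin_one, Fin.zero_eta, Fin.mk_one,
      Fin.reduceFinMk, m00, m01, m02, m10, m11, m12, m20, m21, m22] <;> ring

namespace FmSAux

/-- the product with a sign -/
theorem sg {b p n zp zn : ℕ} (l : Fin 6 → ℝ) (hp : R6 0 b p) (hn : R6 0 b n) (h1 : zp ≤ 1)
    (h2 : zn ≤ 1) (hb : 2 * b < 2 ^ 256) :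
    R6 0 (2 * b) (Nat.add (Nat.mul zp p) (Nat.mul zn n)) ∧
      R6 0 (2 * b) (Nat.add (Nat.mul zp n) (Nat.mul zn p)) ∧
      lv l (Nat.add (Nat.mul zp p) (Nat.mul zn n)) - lv l (Nat.add (Nat.mul zp n) (Nat.mul zn p)) =
        ((zp : ℝ) - zn) * (lv l p - lv l n) := by
  have b1 : zp * b ≤ b := by
    calc zp * b ≤ 1 * b := Nat.mul_le_mul_right _ h1
      _ = b := one_mul b
  have b2 : zn * b ≤ b := by
    calc zn * b ≤ 1 * b := Nat.mul_le_mul_right _ h2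
      _ = b := one_mul b
  have m1 := mul0 zp hp (by omega)
  have m2 := mul0 zn hn (by omega)
  have m3 := mul0 zp hn (by omega)
  have m4 := mul0 zn hp (by omega)
  refine ⟨(add0 m1 m2 (by omega)).up (by omega), (add0 m3 m4 (by omega)).up (by omega), ?_⟩
  have e1 : lv l (Nat.add (Nat.mul zp p) (Nat.mul zn n)) = lv l (Nat.mul zp p) +
      lv l (Nat.mul zn n) := m1.lv_add m2 (by omega) l
  have e2 : lv l (Nat.add (Nat.mul zp n) (Nat.mul zn p)) = lv l (Nat.mul zp n) +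
      lv l (Nat.mul zn p) := m3.lv_add m4 (by omega) l
  have e3 : lv l (Nat.mul zp p) = zp * lv l p := hp.lv_mul zp (by omega) l
  have e4 : lv l (Nat.mul zn n) = zn * lv l n := hn.lv_mul zn (by omega) l
  have e5 : lv l (Nat.mul zp n) = zp * lv l n := hn.lv_mul zp (by omega) l
  have e6 : lv l (Nat.mul zn p) = zn * lv l p := hp.lv_mul zn (by omega) l
  rw [e1, e2, e3, e4, e5, e6]
  ring

/-- twice -/
theorem dbl {b p : ℕ} (l : Fin 6 → ℝ) (hp : R6 0 (2 * b) p) (hb : 4 * b < 2 ^ 256) :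
    R6 0 (4 * b) (Nat.mul 2 p) ∧ lv l (Nat.mul 2 p) = 2 * lv l p := by
  refine ⟨(mul0 2 hp (by omega)).up (by omega), ?_⟩
  have e : lv l (Nat.mul 2 p) = (2 : ℕ) * lv l p := hp.lv_mul 2 (by omega) l
  rw [e]
  norm_num

theorem add2 {b x y : ℕ} (l : Fin 6 → ℝ) (hx : R6 0 (2 * b) x) (hy : R6 0 (2 * b) y)
    (hb : 4 * b < 2 ^ 256) : R6 0 (4 * b) (Nat.add x y) ∧
      lv l (Nat.add x y) = lv l x + lv l y :=
  ⟨(add0 hx hy (by omega)).up (by omega), hx.lv_add hy (by omega) l⟩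

end FmSAux

/-- the form `z ⊗ s + s ⊗ z` -/
theorem sym2_sound {b : ℕ} {l : Fin 6 → ℝ} {z1 y1 z2 y2 z3 y3 s1 t1 s2 t2 s3 t3 : ℕ}
    (hz : z1 ≤ 1 ∧ y1 ≤ 1 ∧ z2 ≤ 1 ∧ y2 ≤ 1 ∧ z3 ≤ 1 ∧ y3 ≤ 1)
    (h1 : R6 0 b s1 ∧ R6 0 b t1) (h2 : R6 0 b s2 ∧ R6 0 b t2) (h3 : R6 0 b s3 ∧ R6 0 b t3)
    (hb : b < 2 ^ 200) {z s : Fin 3 → ℝ}
    (ez : z = ![(z1 : ℝ) - y1, (z2 : ℝ) - y2, (z3 : ℝ) - y3])
    (es : s = ![lv l s1 - lv l t1, lv l s2 - lv l t2, lv l s3 - lv l t3])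
    (k : ℕ → ℕ → ℕ → ℕ → ℕ → ℕ → ℕ → ℕ → ℕ → ℕ → ℕ → ℕ → Bool) :
    ∃ p11 n11 p12 n12 p13 n13 p22 n22 p23 n23 p33 n33,
      sym2 z1 y1 z2 y2 z3 y3 s1 t1 s2 t2 s3 t3 k =
        k p11 n11 p12 n12 p13 n13 p22 n22 p23 n23 p33 n33 ∧
      SM (4 * b) l (vecMulVec z s + vecMulVec s z)
        p11 n11 p12 n12 p13 n13 p22 n22 p23 n23 p33 n33 := by
  have hbig := big b hb
  obtain ⟨i1, j1, i2, j2, i3, j3⟩ := hz
  have hb2 : 2 * b < 2 ^ 256 := by omega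
  have hb4 : 4 * b < 2 ^ 256 := by omega
  obtain ⟨a11, c11, v11⟩ := sg l h1.1 h1.2 i1 j1 hb2
  obtain ⟨a12, c12, v12⟩ := sg l h2.1 h2.2 i1 j1 hb2
  obtain ⟨a13, c13, v13⟩ := sg l h3.1 h3.2 i1 j1 hb2
  obtain ⟨a21, c21, v21⟩ := sg l h1.1 h1.2 i2 j2 hb2
  obtain ⟨a22, c22, v22⟩ := sg l h2.1 h2.2 i2 j2 hb2
  obtain ⟨a23, c23, v23⟩ := sg l h3.1 h3.2 i2 j2 hb2
  obtain ⟨a31, c31, v31⟩ := sg l h1.1 h1.2 i3 j3 hb2
  obtain ⟨a32, c32, v32⟩ := sg l h2.1 h2.2 i3 j3 hb2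
  obtain ⟨a33, c33, v33⟩ := sg l h3.1 h3.2 i3 j3 hb2
  have d11 := dbl l a11 hb4
  have e11 := dbl l c11 hb4
  have d22 := dbl l a22 hb4
  have e22 := dbl l c22 hb4
  have d33 := dbl l a33 hb4
  have e33 := dbl l c33 hb4
  have d12 := add2 l a12 a21 hb4
  have e12 := add2 l c12 c21 hb4
  have d13 := add2 l a13 a31 hb4
  have e13 := add2 l c13 c31 hb4
  have d23 := add2 l a23 a32 hb4
  have e23 := add2 l c23 c32 hb4
  refine ⟨_, _, _, _, _, _, _, _, _, _, _, _, rfl, ⟨d11.1, e11.1⟩, ⟨d12.1, e12.1⟩,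
    ⟨d13.1, e13.1⟩, ⟨d22.1, e22.1⟩, ⟨d23.1, e23.1⟩, ⟨d33.1, e33.1⟩, ?_, ?_, ?_, ?_, ?_, ?_, ?_, ?_,
    ?_⟩ <;>
  simp only [Matrix.add_apply, vecMulVec_apply, ez, es, Matrix.cons_val_zero,
    Matrix.cons_val_one, Matrix.cons_val, d11.2, e11.2, d22.2, e22.2, d33.2, e33.2, d12.2, e12.2,
    d13.2, e13.2, d23.2, e23.2] <;> linarith

/-- the packed multiples of the data of the vertices -/
theorem pkm_sound {C : Cn} {m0 m1 m2 m3 m4 m5 b : ℕ} {f : Vt → ℕ} (hb : b < 2 ^ 256)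
    (h : ∀ i : Fin 6, (![m0, m1, m2, m3, m4, m5] : Fin 6 → ℕ) i * f (C.vs i) ≤ b)
    (l : Fin 6 → ℝ) : R6 0 b (C.pkm m0 m1 m2 m3 m4 m5 f) ∧
      lv l (C.pkm m0 m1 m2 m3 m4 m5 f) =
        ∑ i, l i * (((![m0, m1, m2, m3, m4, m5] : Fin 6 → ℕ) i * f (C.vs i) : ℕ) : ℝ) := by
  have h0 : m0 * f C.v0 ≤ b := h 0
  have h1 : m1 * f C.v1 ≤ b := h 1
  have h2 : m2 * f C.v2 ≤ b := h 2
  have h3 : m3 * f C.v3 ≤ b := h 3
  have h4 : m4 * f C.v4 ≤ b := h 4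
  have h5 : m5 * f C.v5 ≤ b := h 5
  have e : C.pkm m0 m1 m2 m3 m4 m5 f = pk6 (m0 * f C.v0) (m1 * f C.v1) (m2 * f C.v2)
      (m3 * f C.v3) (m4 * f C.v4) (m5 * f C.v5) := rfl
  rw [e]
  refine ⟨(R6.pk ⟨Nat.zero_le _, h0⟩ ⟨Nat.zero_le _, h1⟩ ⟨Nat.zero_le _, h2⟩ ⟨Nat.zero_le _, h3⟩
    ⟨Nat.zero_le _, h4⟩ ⟨Nat.zero_le _, h5⟩ hb).1, ?_⟩
  rw [lv_pk h0 h1 h2 h3 h4 h5 hb, Fin.sum_univ_six]
  rfl

end Pool.Agent.Lib.EPX
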