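import Pool.Agent.Lib.EPX.ChkX
import Pool.Agent.Lib.EPT.Iv

/-!
# Soundness of the tables of the X-leaf checker

`gX z = exp (-z) (1/z + 3/(2 z²))`, `hX z = exp (-z)/z`.  The tables `TE, UE, TG, UG, TH, UH` are compared by one
kernel computation with the enclosures `LO_m ≤ 2 ^ 90 exp (-m/64) ≤ HI_m`.
-/

open Set

namespace Pool.Agent.Lib.EPX

open Pool.Agent.Lib.EPT (frc frc_eq cast_div_up)

/-- the kernel of the direct side -/
noncomputable def gX (z : ℝ) : ℝ := Real.exp (-z) * (1 / z + 3 / (2 * z ^ 2))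

/-- the kernel of the dual side -/
noncomputable def hX (z : ℝ) : ℝ := Real.exp (-z) / z

namespace TabSAux

/-- the scale `2 ^ 90` -/
abbrev S : ℕ := 1237940039285380274899124224
/-- lower bound of `S exp (-1/64)` -/
abbrev PL : ℕ := 1218747557902792189148272570
/-- upper bound of `S exp (-1/64)` -/
abbrev PH : ℕ := 1218747557902792189148272571
/-- `2 ^ 54` -/
abbrev F54 : ℕ := 18014398509481984
/-- `2 ^ 58` -/
abbrev F58 : ℕ := 288230376151711744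

theorem pbd : (PL : ℝ) ≤ S * Real.exp (-(1 / 64)) ∧ S * Real.exp (-(1 / 64)) ≤ (PH : ℝ) := by
  have h := Real.exp_bound (x := -(1 / 64)) (by norm_num [abs_le]) (n := 16) (by norm_num)
  rw [abs_le] at h
  simp only [Finset.sum_range_succ, Finset.sum_range_zero, Nat.factorial] at h
  norm_num at h
  obtain ⟨h1, h2⟩ := h
  constructor
  · norm_num [S, PL]
    linarith
  · norm_num [S, PH]
    linarith

/-- the conditions for all `m` -/
def cA (m lo hi : ℕ) : Bool :=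
  Nat.ble (tab TE m * F58) lo && (Nat.ble hi (tab UE m * F58) && Nat.ble (tab UE (m + 1)) (tab UE m))

/-- the conditions for `64 ≤ m` -/
def cB (m lo hi : ℕ) : Bool :=
  (Nat.ble (tab2 TG m % 1099511627776 * (m * m) * F54) (lo * (m * m + 224 * m + 18432)) &&
    Nat.ble (hi * (64 * (m * m) + 10240 * m + 786432)) (tab2 TG m / 1099511627776 * (m * m * m) * F54))
  && ((Nat.ble (hi * (64 * m + 6144)) (tab UG m * (m * m) * F54) &&
    Nat.ble (tab UG (m + 1)) (tab UG m)) &&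
  ((Nat.ble (tab2 TH m % 1099511627776 * m * F54) (lo * (m + 128)) &&
    Nat.ble (hi * (64 * m + 4096)) (tab2 TH m / 1099511627776 * (m * m) * F54)) &&
  (Nat.ble (hi * 64) (tab UH m * m * F54) && Nat.ble (tab UH (m + 1)) (tab UH m))))

/-- the conditions for `m < 64` -/
def cC (m : ℕ) : Bool := Nat.beq (tab2 TG m) 0 && Nat.beq (tab2 TH m) 0

/-- all conditions -/
def cnd (m lo hi : ℕ) : Bool :=
  cA m lo hi && Bool.rec (motive := fun _ => Bool) (cC m) (cB m lo hi) (Nat.ble 64 m)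

/-- the loop -/
noncomputable def lp (c : ℕ → ℕ → ℕ → Bool) (n : ℕ) : ℕ → ℕ → ℕ → Bool :=
  Nat.rec (motive := fun _ => ℕ → ℕ → ℕ → Bool) (fun _ _ _ => true)
    (fun _ ih m lo hi => Bool.rec (motive := fun _ => Bool) false
      (frc (Nat.div (Nat.mul lo PL) S) fun lo' => frc (Nat.succ (Nat.div (Nat.mul hi PH) S))
        fun hi' => frc (Nat.succ m) fun m' => ih m' lo' hi') (c m lo hi)) n

theorem lp_step (c : ℕ → ℕ → ℕ → Bool) (n m lo hi : ℕ) : lp c (n + 1) m lo hi =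
    (Bool.rec (motive := fun _ => Bool) false
      (frc (Nat.div (Nat.mul lo PL) S) fun lo' => frc (Nat.succ (Nat.div (Nat.mul hi PH) S))
        fun hi' => frc (Nat.succ m) fun m' => lp c n m' lo' hi') (c m lo hi) : Bool) := rfl

theorem div_PL (lo : ℕ) : Nat.div (Nat.mul lo PL) S = lo * PL / S := by
  generalize PL = x; generalize S = y; rfl

theorem div_PH (hi : ℕ) : Nat.succ (Nat.div (Nat.mul hi PH) S) = hi * PH / S + 1 := by
  generalize PH = x; generalize S = y; rfl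

theorem lp_succ (c : ℕ → ℕ → ℕ → Bool) (n m lo hi : ℕ) : lp c (n + 1) m lo hi =
    (c m lo hi && lp c n (m + 1) (lo * PL / S) (hi * PH / S + 1)) := by
  rw [lp_step, frc_eq, frc_eq, frc_eq]
  generalize c m lo hi = b
  rw [div_PL, div_PH]
  cases b
  · exact (Bool.false_and _).symm
  · exact (Bool.true_and _).symm

theorem S_pos : (0 : ℝ) < (S : ℝ) := by norm_num [S]

/-- enclosure of `S exp (-m/64)` -/
def Enc (m lo hi : ℕ) : Prop :=
  (lo : ℝ) ≤ S * Real.exp (-((m : ℝ) / 64)) ∧ S * Real.exp (-((m : ℝ) / 64)) ≤ (hi : ℝ)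

theorem Enc.next {m lo hi : ℕ} (he : Enc m lo hi) : Enc (m + 1) (lo * PL / S) (hi * PH / S + 1) := by
  obtain ⟨p1, p2⟩ := pbd
  have hS := S_pos
  have e1 : Real.exp (-(((m + 1 : ℕ) : ℝ) / 64)) =
      Real.exp (-((m : ℝ) / 64)) * Real.exp (-(1 / 64)) := by
    rw [← Real.exp_add]
    congr 1
    push_cast
    ring
  obtain ⟨hlo, hhi⟩ := he
  constructor
  · refine Nat.cast_div_le.trans ?_
    rw [div_le_iff₀ hS, e1, Nat.cast_mul]
    calc (lo : ℝ) * (PL : ℝ) ≤ (S * Real.exp (-((m : ℝ) / 64))) * (S * Real.exp (-(1 / 64))) :=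
          mul_le_mul hlo p1 (Nat.cast_nonneg _) (by positivity)
      _ = _ := by ring
  · have e3 : ((hi * PH / S + 1 : ℕ) : ℝ) = ((hi * PH / S : ℕ) : ℝ) + 1 := by
      rw [Nat.cast_add, Nat.cast_one]
    rw [e3]
    refine le_trans ?_ (cast_div_up (hi * PH) S (by norm_num [S]))
    rw [le_div_iff₀ hS, e1, Nat.cast_mul]
    calc S * (Real.exp (-((m : ℝ) / 64)) * Real.exp (-(1 / 64))) * S =
          (S * Real.exp (-((m : ℝ) / 64))) * (S * Real.exp (-(1 / 64))) := by ring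
      _ ≤ (hi : ℝ) * (PH : ℝ) := mul_le_mul hhi p2 (by positivity) (Nat.cast_nonneg _)

theorem lp_sound (c : ℕ → ℕ → ℕ → Bool) : ∀ (n m lo hi : ℕ), lp c n m lo hi = true →
    Enc m lo hi → ∀ j, m ≤ j → j < m + n → ∃ lo hi : ℕ, Enc j lo hi ∧ c j lo hi = true := by
  intro n
  induction n with
  | zero => intro m lo hi _ _ j h1 h2; omega
  | succ n ih =>
    intro m lo hi h he j h1 h2
    rw [lp_succ, Bool.and_eq_true] at h
    rcases Nat.eq_or_lt_of_le h1 with hj | hj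
    · subst hj
      exact ⟨lo, hi, he, h.1⟩
    · exact ih (m + 1) _ _ h.2 he.next j hj (by omega)

theorem enc0 : Enc 0 S S := by
  constructor <;> simp

set_option maxRecDepth 100000 in
theorem lp_true : lp cnd 1025 0 S S = true := by
  decide +kernel

theorem all_cnd {j : ℕ} (hj : j ≤ 1024) : ∃ lo hi : ℕ,
    (lo : ℝ) ≤ S * Real.exp (-((j : ℝ) / 64)) ∧ S * Real.exp (-((j : ℝ) / 64)) ≤ (hi : ℝ) ∧
      cnd j lo hi = true := by
  obtain ⟨lo, hi, ⟨h1, h2⟩, h3⟩ := lp_sound cnd 1025 0 S S lp_true enc0 j (Nat.zero_le _) (by omega)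
  exact ⟨lo, hi, h1, h2, h3⟩

set_option exponentiation.threshold 100000 in
theorem tab_zero {T m : ℕ} (hT : T < 2 ^ 41000) (hm : 1025 ≤ m) : tab T m = 0 := by
  unfold tab
  have h1 : Nat.shiftRight T (Nat.mul 40 m) = T / 2 ^ (40 * m) := Nat.shiftRight_eq_div_pow T (40 * m)
  have h2 : T / 2 ^ (40 * m) = 0 := by
    refine Nat.div_eq_of_lt (hT.trans_le ?_)
    exact Nat.pow_le_pow_right (by norm_num) (by omega)
  rw [h1, h2]

set_option exponentiation.threshold 100000 in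
theorem tab2_zero {T m : ℕ} (hT : T < 2 ^ 82000) (hm : 1025 ≤ m) : tab2 T m = 0 := by
  unfold tab2
  have h1 : Nat.shiftRight T (Nat.mul 80 m) = T / 2 ^ (80 * m) := Nat.shiftRight_eq_div_pow T (80 * m)
  have h2 : T / 2 ^ (80 * m) = 0 := by
    refine Nat.div_eq_of_lt (hT.trans_le ?_)
    exact Nat.pow_le_pow_right (by norm_num) (by omega)
  rw [h1, h2]

theorem TE_lt : TE < 2 ^ 41000 := by decide +kernel
theorem TG_lt : TG < 2 ^ 82000 := by decide +kernel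
theorem TH_lt : TH < 2 ^ 82000 := by decide +kernel

/-- the facts for `m ≤ 1024` -/
theorem fA {m : ℕ} (hm : m ≤ 1024) :
    (tab TE m : ℝ) ≤ 2 ^ 32 * Real.exp (-((m : ℝ) / 64)) ∧
      2 ^ 32 * Real.exp (-((m : ℝ) / 64)) ≤ (tab UE m : ℝ) ∧ tab UE (m + 1) ≤ tab UE m := by
  obtain ⟨lo, hi, h1, h2, h3⟩ := all_cnd hm
  simp only [cnd, cA, Bool.and_eq_true, Nat.ble_eq] at h3
  obtain ⟨⟨c1, c2, c3⟩, -⟩ := h3
  have d1 : ((tab TE m * F58 : ℕ) : ℝ) ≤ lo := by exact_mod_cast c1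
  have d2 : (hi : ℝ) ≤ ((tab UE m * F58 : ℕ) : ℝ) := by exact_mod_cast c2
  rw [Nat.cast_mul] at d1 d2
  set e := Real.exp (-((m : ℝ) / 64)) with he
  have hS : (S : ℝ) = 2 ^ 32 * (F58 : ℝ) := by norm_num [S, F58]
  have hF : (0 : ℝ) < (F58 : ℝ) := by norm_num [F58]
  rw [hS] at h1 h2
  refine ⟨?_, ?_, c3⟩
  · have : (tab TE m : ℝ) * F58 ≤ 2 ^ 32 * e * F58 := by linarith
    exact le_of_mul_le_mul_right this hF
  · have : 2 ^ 32 * e * F58 ≤ (tab UE m : ℝ) * F58 := by linarith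
    exact le_of_mul_le_mul_right this hF

/-- the facts for `64 ≤ m ≤ 1024` -/
theorem fB {m : ℕ} (h64 : 64 ≤ m) (hm : m ≤ 1024) :
    (((tab2 TG m % 1099511627776 : ℕ) : ℝ) ≤ 2 ^ 36 * Real.exp (-((m : ℝ) / 64)) *
        (1 + 224 / m + 18432 / m ^ 2)) ∧
      (2 ^ 36 * Real.exp (-((m : ℝ) / 64)) * (64 / m + 10240 / m ^ 2 + 786432 / m ^ 3) ≤
        ((tab2 TG m / 1099511627776 : ℕ) : ℝ)) ∧
      (2 ^ 36 * Real.exp (-((m : ℝ) / 64)) * (64 / m + 6144 / m ^ 2) ≤ (tab UG m : ℝ)) ∧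
      tab UG (m + 1) ≤ tab UG m ∧
      (((tab2 TH m % 1099511627776 : ℕ) : ℝ) ≤ 2 ^ 36 * Real.exp (-((m : ℝ) / 64)) *
        (1 + 128 / m)) ∧
      (2 ^ 36 * Real.exp (-((m : ℝ) / 64)) * (64 / m + 4096 / m ^ 2) ≤
        ((tab2 TH m / 1099511627776 : ℕ) : ℝ)) ∧
      (2 ^ 36 * Real.exp (-((m : ℝ) / 64)) * (64 / m) ≤ (tab UH m : ℝ)) ∧
      tab UH (m + 1) ≤ tab UH m := by
  obtain ⟨lo, hi, h1, h2, h3⟩ := all_cnd hm
  have hb : Nat.ble 64 m = true := by rw [Nat.ble_eq]; exact h64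
  simp only [cnd, hb, cB, Bool.and_eq_true, Nat.ble_eq] at h3
  obtain ⟨-, ⟨c1, c2⟩, ⟨c3, c4⟩, ⟨c5, c6⟩, c7, c8⟩ := h3
  have m0 : (0 : ℝ) < m := by
    have : 0 < m := by omega
    exact_mod_cast this
  generalize tab2 TG m % 1099511627776 = v1 at c1 ⊢
  generalize tab2 TG m / 1099511627776 = s1 at c2 ⊢
  generalize tab2 TH m % 1099511627776 = v2 at c5 ⊢
  generalize tab2 TH m / 1099511627776 = s2 at c6 ⊢
  have d1 : ((v1 * (m * m) * F54 : ℕ) : ℝ) ≤ ((lo * (m * m + 224 * m + 18432) : ℕ) : ℝ) := by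
    exact_mod_cast c1
  have d2 : ((hi * (64 * (m * m) + 10240 * m + 786432) : ℕ) : ℝ) ≤
      ((s1 * (m * m * m) * F54 : ℕ) : ℝ) := by exact_mod_cast c2
  have d3 : ((hi * (64 * m + 6144) : ℕ) : ℝ) ≤ ((tab UG m * (m * m) * F54 : ℕ) : ℝ) := by
    exact_mod_cast c3
  have d5 : ((v2 * m * F54 : ℕ) : ℝ) ≤ ((lo * (m + 128) : ℕ) : ℝ) := by exact_mod_cast c5
  have d6 : ((hi * (64 * m + 4096) : ℕ) : ℝ) ≤ ((s2 * (m * m) * F54 : ℕ) : ℝ) := by
    exact_mod_cast c6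
  have d7 : ((hi * 64 : ℕ) : ℝ) ≤ ((tab UH m * m * F54 : ℕ) : ℝ) := by exact_mod_cast c7
  simp only [Nat.cast_mul, Nat.cast_add, Nat.cast_ofNat] at d1 d2 d3 d5 d6 d7
  generalize (tab UG m : ℝ) = g at d3 ⊢
  generalize (tab UH m : ℝ) = g' at d7 ⊢
  set e := Real.exp (-((m : ℝ) / 64)) with he
  have e0 : 0 < e := Real.exp_pos _
  have hS : (S : ℝ) = 2 ^ 36 * (F54 : ℝ) := by norm_num [S, F54]
  have hF : (0 : ℝ) < (F54 : ℝ) := by norm_num [F54]
  rw [hS] at h1 h2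
  have q1 : ∀ x : ℝ, 0 ≤ x → (lo : ℝ) * x ≤ 2 ^ 36 * e * x * F54 := fun x hx => by
    have := mul_le_mul_of_nonneg_right h1 hx
    calc (lo : ℝ) * x ≤ 2 ^ 36 * (F54 : ℝ) * e * x := this
      _ = _ := by ring
  have q2 : ∀ x : ℝ, 0 ≤ x → 2 ^ 36 * e * x * F54 ≤ (hi : ℝ) * x := fun x hx => by
    have := mul_le_mul_of_nonneg_right h2 hx
    calc 2 ^ 36 * e * x * F54 = 2 ^ 36 * (F54 : ℝ) * e * x := by ring
      _ ≤ _ := this
  refine ⟨?_, ?_, ?_, c4, ?_, ?_, ?_, c8⟩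
  · have h := le_of_mul_le_mul_right (d1.trans (q1 _ (by positivity))) hF
    have e2 : 2 ^ 36 * e * (1 + 224 / (m : ℝ) + 18432 / (m : ℝ) ^ 2) =
        (2 ^ 36 * e * ((m : ℝ) * m + 224 * m + 18432)) / (m * m) := by field_simp
    rw [e2, le_div_iff₀ (by positivity)]
    exact h
  · have h := le_of_mul_le_mul_right ((q2 _ (by positivity)).trans d2) hF
    have e2 : 2 ^ 36 * e * (64 / (m : ℝ) + 10240 / (m : ℝ) ^ 2 + 786432 / (m : ℝ) ^ 3) =
        (2 ^ 36 * e * (64 * ((m : ℝ) * m) + 10240 * m + 786432)) / (m * m * m) := by field_simp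
    rw [e2, div_le_iff₀ (by positivity)]
    exact h
  · have h := le_of_mul_le_mul_right ((q2 _ (by positivity)).trans d3) hF
    have e2 : 2 ^ 36 * e * (64 / (m : ℝ) + 6144 / (m : ℝ) ^ 2) =
        (2 ^ 36 * e * (64 * m + 6144)) / (m * m) := by field_simp
    rw [e2, div_le_iff₀ (by positivity)]
    exact h
  · have h := le_of_mul_le_mul_right (d5.trans (q1 _ (by positivity))) hF
    have e2 : 2 ^ 36 * e * (1 + 128 / (m : ℝ)) = (2 ^ 36 * e * ((m : ℝ) + 128)) / m := by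
      field_simp
    rw [e2, le_div_iff₀ (by positivity)]
    exact h
  · have h := le_of_mul_le_mul_right ((q2 _ (by positivity)).trans d6) hF
    have e2 : 2 ^ 36 * e * (64 / (m : ℝ) + 4096 / (m : ℝ) ^ 2) =
        (2 ^ 36 * e * (64 * m + 4096)) / (m * m) := by field_simp
    rw [e2, div_le_iff₀ (by positivity)]
    exact h
  · have h := le_of_mul_le_mul_right ((q2 _ (by norm_num)).trans d7) hF
    have e2 : 2 ^ 36 * e * (64 / (m : ℝ)) = (2 ^ 36 * e * 64) / m := by field_simp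
    rw [e2, div_le_iff₀ (by positivity)]
    exact h

/-- the facts for `m < 64` -/
theorem fC {m : ℕ} (hm : m < 64) : tab2 TG m = 0 ∧ tab2 TH m = 0 := by
  obtain ⟨lo, hi, h1, h2, h3⟩ := all_cnd (j := m) (by omega)
  have hb : Nat.ble 64 m = false := by
    rw [Bool.eq_false_iff]
    intro h
    rw [Nat.ble_eq] at h
    omega
  simp only [cnd, hb, cC, Bool.and_eq_true] at h3
  exact ⟨Nat.eq_of_beq_eq_true h3.2.1, Nat.eq_of_beq_eq_true h3.2.2⟩

theorem UE_anti {m1 m2 : ℕ} (h : m1 ≤ m2) (h2 : m2 ≤ 1024) : tab UE m2 ≤ tab UE m1 := by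
  induction m2, h using Nat.le_induction with
  | base => exact le_rfl
  | succ n hn ih => exact (fA (m := n) (by omega)).2.2.trans (ih (by omega))

theorem UG_anti {m1 m2 : ℕ} (h1 : 64 ≤ m1) (h : m1 ≤ m2) (h2 : m2 ≤ 1024) :
    tab UG m2 ≤ tab UG m1 := by
  induction m2, h using Nat.le_induction with
  | base => exact le_rfl
  | succ n hn ih => exact (fB (m := n) (by omega) (by omega)).2.2.2.1.trans (ih (by omega))

theorem UH_anti {m1 m2 : ℕ} (h1 : 64 ≤ m1) (h : m1 ≤ m2) (h2 : m2 ≤ 1024) :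
    tab UH m2 ≤ tab UH m1 := by
  induction m2, h using Nat.le_induction with
  | base => exact le_rfl
  | succ n hn ih => exact (fB (m := n) (by omega) (by omega)).2.2.2.2.2.2.2.trans (ih (by omega))

/-! ### convexity -/

theorem conv_exp : ConvexOn ℝ (Ioi (0 : ℝ)) fun z => Real.exp (-z) := by
  have h := convexOn_exp.comp_linearMap (-LinearMap.id : ℝ →ₗ[ℝ] ℝ)
  exact (h.subset (subset_univ _) (convex_Ioi 0)).congr fun z _ => by simp

theorem anti_exp : AntitoneOn (fun z : ℝ => Real.exp (-z)) (Ioi 0) := fun a _ b _ h =>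
  Real.exp_le_exp.mpr (by linarith)

theorem conv_h : ConvexOn ℝ (Ioi (0 : ℝ)) hX := by
  have h1 : ConvexOn ℝ (Ioi (0 : ℝ)) fun z : ℝ => z ^ (-1 : ℤ) := convexOn_zpow (-1)
  have ha : AntitoneOn (fun z : ℝ => z ^ (-1 : ℤ)) (Ioi 0) := by
    intro a ha b hb h
    simp only [zpow_neg, zpow_one]
    exact inv_anti₀ ha h
  have h := conv_exp.mul h1 (fun x _ => (Real.exp_pos _).le) (fun x hx => by
    have : (0 : ℝ) < x := hx
    positivity) (anti_exp.monovaryOn ha)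
  refine h.congr fun z _ => ?_
  simp [hX, div_eq_mul_inv]

theorem conv_g : ConvexOn ℝ (Ioi (0 : ℝ)) gX := by
  have h1 : ConvexOn ℝ (Ioi (0 : ℝ)) fun z : ℝ => z ^ (-2 : ℤ) := convexOn_zpow (-2)
  have ha : AntitoneOn (fun z : ℝ => z ^ (-2 : ℤ)) (Ioi 0) := by
    intro a ha b hb h
    have ha' : (0 : ℝ) < a := ha
    simp only [zpow_neg]
    refine inv_anti₀ (by positivity) ?_
    norm_cast
    exact pow_le_pow_left₀ ha'.le h 2
  have h := conv_exp.mul h1 (fun x _ => (Real.exp_pos _).le) (fun x hx => by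
    have : (0 : ℝ) < x := hx
    positivity) (anti_exp.monovaryOn ha)
  have h2 := conv_h.add (h.smul (c := (3 / 2 : ℝ)) (by norm_num))
  refine h2.congr fun z hz => ?_
  have hz' : z ≠ 0 := (show (0 : ℝ) < z from hz).ne'
  simp only [hX, gX, Pi.add_apply, smul_eq_mul, Pi.mul_apply]
  rw [zpow_neg]
  norm_cast
  field_simp

/-- the tangent of a convex function -/
theorem tangent {f : ℝ → ℝ} (hf : ConvexOn ℝ (Ioi 0) f) {a d z : ℝ} (ha : 0 < a) (hz : 0 < z)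
    (hd : HasDerivAt f (-d) a) : f a + d * a - d * z ≤ f z := by
  rcases lt_trichotomy z a with h | h | h
  · have := hf.slope_le_of_hasDerivAt hz ha h hd
    rw [slope_def_field, div_le_iff₀ (by linarith)] at this
    nlinarith
  · subst h
    linarith
  · have := hf.le_slope_of_hasDerivAt ha hz h hd
    rw [slope_def_field, le_div_iff₀ (by linarith)] at this
    nlinarith

/-- the chord of a convex function -/
theorem chord {f : ℝ → ℝ} (hf : ConvexOn ℝ (Ioi 0) f) {a b z : ℝ} (ha : 0 < a) (hab : a < b)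
    (h1 : a ≤ z) (h2 : z ≤ b) : f z * (b - a) ≤ f a * (b - z) + f b * (z - a) := by
  have hb : 0 < b := ha.trans hab
  have hba : 0 < b - a := by linarith
  have := hf.2 (show a ∈ Ioi (0 : ℝ) from ha) (show b ∈ Ioi (0 : ℝ) from hb)
    (show 0 ≤ (b - z) / (b - a) from div_nonneg (by linarith) hba.le)
    (show 0 ≤ (z - a) / (b - a) from div_nonneg (by linarith) hba.le) (by field_simp; ring)
  simp only [smul_eq_mul] at this
  have e1 : (b - z) / (b - a) * a + (z - a) / (b - a) * b = z := by field_simp; ring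
  rw [e1] at this
  have e2 : (b - z) / (b - a) * f a + (z - a) / (b - a) * f b =
      (f a * (b - z) + f b * (z - a)) / (b - a) := by field_simp
  rw [e2, le_div_iff₀ hba] at this
  exact this

theorem hd_h {a : ℝ} (ha : 0 < a) :
    HasDerivAt hX (-(Real.exp (-a) * (1 / a + 1 / a ^ 2))) a := by
  have h1 : HasDerivAt (fun z : ℝ => Real.exp (-z)) (Real.exp (-a) * (-1)) a :=
    ((hasDerivAt_id a).neg).exp
  have h2 := h1.div (hasDerivAt_id a) ha.ne'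
  refine h2.congr_deriv ?_
  simp only [id]
  field_simp
  ring

theorem hd_g {a : ℝ} (ha : 0 < a) :
    HasDerivAt gX (-(Real.exp (-a) * (1 / a + 5 / (2 * a ^ 2) + 3 / a ^ 3))) a := by
  have h1 : HasDerivAt (fun z : ℝ => Real.exp (-z)) (Real.exp (-a) * (-1)) a :=
    ((hasDerivAt_id a).neg).exp
  have h3 : HasDerivAt (fun z : ℝ => z⁻¹) (-(a ^ 2)⁻¹) a := hasDerivAt_inv ha.ne'
  have h4 : HasDerivAt (fun z : ℝ => (z ^ 2)⁻¹) (-(2 * a) / (a ^ 2) ^ 2) a := by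
    have := ((hasDerivAt_id a).pow 2).inv (by simpa using ha.ne')
    refine this.congr_deriv ?_
    simp
  have h5 := h1.mul (h3.add (h4.const_mul (3 / 2)))
  have h6 : HasDerivAt gX (Real.exp (-a) * -1 * (a⁻¹ + 3 / 2 * (a ^ 2)⁻¹) +
      Real.exp (-a) * (-(a ^ 2)⁻¹ + 3 / 2 * (-(2 * a) / (a ^ 2) ^ 2))) a := by
    refine h5.congr_of_eventuallyEq ?_
    filter_upwards [eventually_ne_nhds ha.ne'] with z hz
    simp only [gX, Pi.mul_apply, Pi.add_apply]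
    field_simp
  refine h6.congr_deriv ?_
  field_simp
  ring

end TabSAux

open TabSAux

/-- tangent of `exp` -/
theorem tabE {k m q : ℕ} (hk : 6 ≤ k) (h : q ≤ 2 ^ k + m * 2 ^ (k - 6)) :
    (tab TE m : ℝ) * ((2 : ℝ) ^ k + m * 2 ^ (k - 6) - q) ≤
      2 ^ (32 + k) * Real.exp (-((q : ℝ) / 2 ^ k)) := by
  obtain ⟨k', rfl⟩ : ∃ k', k = k' + 6 := ⟨k - 6, by omega⟩
  have e0 : k' + 6 - 6 = k' := by omega
  rw [e0] at h ⊢
  have hq : (q : ℝ) ≤ 2 ^ (k' + 6) + m * 2 ^ k' := by exact_mod_cast h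
  have hx : (0 : ℝ) ≤ (2 : ℝ) ^ (k' + 6) + m * 2 ^ k' - q := by linarith
  have h1 : (tab TE m : ℝ) ≤ 2 ^ 32 * Real.exp (-((m : ℝ) / 64)) := by
    rcases Nat.lt_or_ge 1024 m with hm | hm
    · rw [tab_zero TE_lt (by omega)]
      have := Real.exp_pos (-((m : ℝ) / 64))
      simp only [Nat.cast_zero]
      positivity
    · exact (fA hm).1
  have h2 : 1 + ((m : ℝ) / 64 - q / 2 ^ (k' + 6)) ≤
      Real.exp ((m : ℝ) / 64 - q / 2 ^ (k' + 6)) := by
    have := Real.add_one_le_exp ((m : ℝ) / 64 - q / 2 ^ (k' + 6))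
    linarith
  have e1 : Real.exp (-((q : ℝ) / 2 ^ (k' + 6))) =
      Real.exp (-((m : ℝ) / 64)) * Real.exp ((m : ℝ) / 64 - q / 2 ^ (k' + 6)) := by
    rw [← Real.exp_add]
    congr 1
    ring
  have e2 : (2 : ℝ) ^ (k' + 6) + m * 2 ^ k' - q =
      2 ^ (k' + 6) * (1 + ((m : ℝ) / 64 - q / 2 ^ (k' + 6))) := by
    have : (2 : ℝ) ^ (k' + 6) = 2 ^ k' * 64 := by rw [pow_add]; norm_num
    rw [this]
    field_simp
    ring
  calc (tab TE m : ℝ) * ((2 : ℝ) ^ (k' + 6) + m * 2 ^ k' - q)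
      ≤ 2 ^ 32 * Real.exp (-((m : ℝ) / 64)) * ((2 : ℝ) ^ (k' + 6) + m * 2 ^ k' - q) :=
        mul_le_mul_of_nonneg_right h1 hx
    _ = 2 ^ (32 + (k' + 6)) * (Real.exp (-((m : ℝ) / 64)) *
          (1 + ((m : ℝ) / 64 - q / 2 ^ (k' + 6)))) := by
        rw [e2, pow_add 2 32 (k' + 6)]
        ring
    _ ≤ 2 ^ (32 + (k' + 6)) * (Real.exp (-((m : ℝ) / 64)) *
          Real.exp ((m : ℝ) / 64 - q / 2 ^ (k' + 6))) := by
        refine mul_le_mul_of_nonneg_left ?_ (by positivity)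
        exact mul_le_mul_of_nonneg_left h2 (Real.exp_pos _).le
    _ = _ := by rw [e1]

/-- a tangent from a table entry `(v, s)` -/
theorem TabSAux.tan_gen {f : ℝ → ℝ} (hf : ConvexOn ℝ (Ioi 0) f) {k m q v s : ℕ} {d : ℝ}
    (hm : 0 < m) (hq : 0 < q) (hd : HasDerivAt f (-d) ((m : ℝ) / 64))
    (hv : (v : ℝ) ≤ 2 ^ 36 * (f ((m : ℝ) / 64) + d * ((m : ℝ) / 64))) (hs : 2 ^ 36 * d ≤ (s : ℝ)) :
    (2 : ℝ) ^ k * v - s * q ≤ 2 ^ (36 + k) * f ((q : ℝ) / 2 ^ k) := by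
  have hm' : (0 : ℝ) < (m : ℝ) / 64 := by positivity
  have hq' : (0 : ℝ) < (q : ℝ) / 2 ^ k := by positivity
  have h := tangent hf hm' hq' hd
  have e1 : (q : ℝ) = 2 ^ k * ((q : ℝ) / 2 ^ k) := by field_simp
  set z : ℝ := (q : ℝ) / 2 ^ k with hz
  have h2 : 2 ^ 36 * d * z ≤ s * z := mul_le_mul_of_nonneg_right hs hq'.le
  have h3 : (v : ℝ) - s * z ≤ 2 ^ 36 * f z := by linarith
  have h4 := mul_le_mul_of_nonneg_left h3 (show (0 : ℝ) ≤ 2 ^ k by positivity)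
  calc (2 : ℝ) ^ k * v - s * q = 2 ^ k * (v - s * z) := by rw [e1]; ring
    _ ≤ 2 ^ k * (2 ^ 36 * f z) := h4
    _ = _ := by rw [pow_add]; ring

/-- tangent of `gX` -/
theorem tabG {k m q : ℕ} (hq : 0 < q) :
    (2 : ℝ) ^ k * ((tab2 TG m % 1099511627776 : ℕ) : ℝ) -
        ((tab2 TG m / 1099511627776 : ℕ) : ℝ) * q ≤ 2 ^ (36 + k) * gX ((q : ℝ) / 2 ^ k) := by
  have hz : tab2 TG m = 0 → (2 : ℝ) ^ k * ((tab2 TG m % 1099511627776 : ℕ) : ℝ) -
        ((tab2 TG m / 1099511627776 : ℕ) : ℝ) * q ≤ 2 ^ (36 + k) * gX ((q : ℝ) / 2 ^ k) := by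
    intro h0
    rw [h0]
    have : 0 ≤ gX ((q : ℝ) / 2 ^ k) := by
      unfold gX
      have := Real.exp_pos (-((q : ℝ) / 2 ^ k))
      positivity
    simp only [Nat.zero_mod, Nat.zero_div, Nat.cast_zero, mul_zero, zero_mul, sub_zero]
    positivity
  rcases Nat.lt_or_ge m 64 with hm | hm
  · exact hz (fC hm).1
  rcases Nat.lt_or_ge 1024 m with hm' | hm'
  · exact hz (tab2_zero TG_lt (by omega))
  obtain ⟨h1, h2, -⟩ := fB hm hm'
  have m0 : (0 : ℝ) < m := by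
    have : 0 < m := by omega
    exact_mod_cast this
  refine tan_gen (m := m) conv_g (by omega) hq (hd_g (by positivity)) (h1.trans (le_of_eq ?_))
    (le_trans (le_of_eq ?_) h2)
  · unfold gX
    field_simp
    ring
  · field_simp
    ring

/-- tangent of `hX` -/
theorem tabH {k m q : ℕ} (hq : 0 < q) :
    (2 : ℝ) ^ k * ((tab2 TH m % 1099511627776 : ℕ) : ℝ) -
        ((tab2 TH m / 1099511627776 : ℕ) : ℝ) * q ≤ 2 ^ (36 + k) * hX ((q : ℝ) / 2 ^ k) := by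
  have hz : tab2 TH m = 0 → (2 : ℝ) ^ k * ((tab2 TH m % 1099511627776 : ℕ) : ℝ) -
        ((tab2 TH m / 1099511627776 : ℕ) : ℝ) * q ≤ 2 ^ (36 + k) * hX ((q : ℝ) / 2 ^ k) := by
    intro h0
    rw [h0]
    have : 0 ≤ hX ((q : ℝ) / 2 ^ k) := by
      unfold hX
      have := Real.exp_pos (-((q : ℝ) / 2 ^ k))
      positivity
    simp only [Nat.zero_mod, Nat.zero_div, Nat.cast_zero, mul_zero, zero_mul, sub_zero]
    positivity
  rcases Nat.lt_or_ge m 64 with hm | hm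
  · exact hz (fC hm).2
  rcases Nat.lt_or_ge 1024 m with hm' | hm'
  · exact hz (tab2_zero TH_lt (by omega))
  obtain ⟨-, -, -, -, h1, h2, -⟩ := fB hm hm'
  have m0 : (0 : ℝ) < m := by
    have : 0 < m := by omega
    exact_mod_cast this
  refine tan_gen (m := m) conv_h (by omega) hq (hd_h (by positivity)) (h1.trans (le_of_eq ?_))
    (le_trans (le_of_eq ?_) h2)
  · unfold hX
    field_simp
    ring
  · field_simp
    ring

/-- a chord between two table entries -/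
theorem TabSAux.chord_gen {f : ℝ → ℝ} (hf : ConvexOn ℝ (Ioi 0) f) (hf0 : ∀ z, 0 < z → 0 < f z)
    {j k m1 m2 q U1 U2 : ℕ} (hk : 6 ≤ k) (h1 : 0 < m1) (h12 : m1 < m2)
    (hq1 : m1 * 2 ^ (k - 6) ≤ q) (hq2 : q ≤ m2 * 2 ^ (k - 6))
    (hU : U2 ≤ U1) (u1 : 2 ^ j * f ((m1 : ℝ) / 64) ≤ U1) (u2 : 2 ^ j * f ((m2 : ℝ) / 64) ≤ U2) :
    64 * ((U1 - U2) / (m2 - m1)) * q ≤ 2 ^ k * (U1 + (U1 - U2) / (m2 - m1) * m1) ∧
      2 ^ (j + k) * f ((q : ℝ) / 2 ^ k) ≤
        2 ^ k * (U1 + (((U1 - U2) / (m2 - m1) : ℕ) : ℝ) * m1)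
          - 64 * (((U1 - U2) / (m2 - m1) : ℕ) : ℝ) * q := by
  obtain ⟨k', rfl⟩ : ∃ k', k = k' + 6 := ⟨k - 6, by omega⟩
  have e0 : k' + 6 - 6 = k' := by omega
  rw [e0] at hq1 hq2
  set s : ℕ := (U1 - U2) / (m2 - m1) with hs
  have m10 : (0 : ℝ) < m1 := by exact_mod_cast h1
  have m12 : (m1 : ℝ) < m2 := by exact_mod_cast h12
  have hr1 : (m1 : ℝ) * 2 ^ k' ≤ q := by exact_mod_cast hq1
  have hr2 : (q : ℝ) ≤ m2 * 2 ^ k' := by exact_mod_cast hq2
  have hs1 : (s : ℝ) * ((m2 : ℝ) - m1) ≤ U1 - U2 := by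
    have h3 : s * (m2 - m1) ≤ U1 - U2 := Nat.div_mul_le_self _ _
    have h4 : ((s * (m2 - m1) : ℕ) : ℝ) ≤ ((U1 - U2 : ℕ) : ℝ) := by exact_mod_cast h3
    rw [Nat.cast_mul, Nat.cast_sub h12.le, Nat.cast_sub hU] at h4
    exact h4
  have ep : (2 : ℝ) ^ (k' + 6) = 2 ^ k' * 64 := by rw [pow_add]; norm_num
  have p0 : (0 : ℝ) < 2 ^ k' := by positivity
  set t : ℝ := (q : ℝ) / 2 ^ k' with ht
  have hqt : (q : ℝ) = t * 2 ^ k' := by rw [ht]; field_simp
  have t1 : (m1 : ℝ) ≤ t := by rw [ht, le_div_iff₀ p0]; exact hr1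
  have t2 : t ≤ m2 := by rw [ht, div_le_iff₀ p0]; exact hr2
  have ez : (q : ℝ) / 2 ^ (k' + 6) = t / 64 := by rw [ep, ht]; field_simp
  have hc := chord hf (a := (m1 : ℝ) / 64) (b := (m2 : ℝ) / 64) (z := t / 64) (by positivity)
    (by linarith) (by linarith) (by linarith)
  have key : 2 ^ j * f (t / 64) ≤ U1 - s * (t - m1) := by
    have hd : (0 : ℝ) < m2 - m1 := by linarith
    have h5 : 2 ^ j * f (t / 64) * (m2 - m1) ≤ U1 * (m2 - t) + U2 * (t - m1) := by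
      have a1 := mul_le_mul_of_nonneg_right u1 (show (0 : ℝ) ≤ m2 - t by linarith)
      have a2 := mul_le_mul_of_nonneg_right u2 (show (0 : ℝ) ≤ t - m1 by linarith)
      have a3 := mul_le_mul_of_nonneg_left hc (show (0 : ℝ) ≤ 2 ^ j * 64 by positivity)
      calc 2 ^ j * f (t / 64) * (m2 - m1) =
            2 ^ j * 64 * (f (t / 64) * ((m2 : ℝ) / 64 - m1 / 64)) := by ring
        _ ≤ _ := a3
        _ = 2 ^ j * f ((m1 : ℝ) / 64) * (m2 - t) + 2 ^ j * f ((m2 : ℝ) / 64) * (t - m1) := by ring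
        _ ≤ _ := add_le_add a1 a2
    have h6 : (U1 : ℝ) * (m2 - t) + U2 * (t - m1) ≤ (U1 - s * (t - m1)) * (m2 - m1) := by
      have := mul_le_mul_of_nonneg_right hs1 (show (0 : ℝ) ≤ t - m1 by linarith)
      nlinarith
    exact le_of_mul_le_mul_right (h5.trans h6) hd
  have main : 2 ^ (j + (k' + 6)) * f ((q : ℝ) / 2 ^ (k' + 6)) ≤
      2 ^ (k' + 6) * (U1 + (s : ℝ) * m1) - 64 * (s : ℝ) * q := by
    rw [ez]
    have := mul_le_mul_of_nonneg_left key (show (0 : ℝ) ≤ 2 ^ (k' + 6) by positivity)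
    calc 2 ^ (j + (k' + 6)) * f (t / 64) = 2 ^ (k' + 6) * (2 ^ j * f (t / 64)) := by
          rw [pow_add 2 j]; ring
      _ ≤ _ := this
      _ = _ := by rw [hqt, ep]; ring
  refine ⟨?_, main⟩
  have hpos : 0 < f ((q : ℝ) / 2 ^ (k' + 6)) := by
    refine hf0 _ ?_
    rw [ez]
    linarith
  have h7 : (0 : ℝ) < 2 ^ (j + (k' + 6)) * f ((q : ℝ) / 2 ^ (k' + 6)) := by positivity
  have h8 : 64 * (s : ℝ) * q ≤ 2 ^ (k' + 6) * (U1 + (s : ℝ) * m1) := by linarith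
  exact_mod_cast h8

/-- chord of `exp` -/
theorem chordE {k m1 m2 q : ℕ} (hk : 6 ≤ k) (h1 : 64 ≤ m1) (h12 : m1 < m2) (h2 : m2 ≤ 1024)
    (hq1 : m1 * 2 ^ (k - 6) ≤ q) (hq2 : q ≤ m2 * 2 ^ (k - 6)) :
    64 * ((tab UE m1 - tab UE m2) / (m2 - m1)) * q ≤
        2 ^ k * (tab UE m1 + (tab UE m1 - tab UE m2) / (m2 - m1) * m1) ∧
      2 ^ (32 + k) * Real.exp (-((q : ℝ) / 2 ^ k)) ≤
        2 ^ k * ((tab UE m1 : ℝ) + (((tab UE m1 - tab UE m2) / (m2 - m1) : ℕ) : ℝ) * m1)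
          - 64 * (((tab UE m1 - tab UE m2) / (m2 - m1) : ℕ) : ℝ) * q :=
  chord_gen (f := fun z => Real.exp (-z)) conv_exp (fun _ _ => Real.exp_pos _) hk (by omega) h12
    hq1 hq2 (UE_anti h12.le h2) (fA (by omega)).2.1 (fA (by omega)).2.1

/-- chord of `gX` -/
theorem chordG {k m1 m2 q : ℕ} (hk : 6 ≤ k) (h1 : 64 ≤ m1) (h12 : m1 < m2) (h2 : m2 ≤ 1024)
    (hq1 : m1 * 2 ^ (k - 6) ≤ q) (hq2 : q ≤ m2 * 2 ^ (k - 6)) :
    64 * ((tab UG m1 - tab UG m2) / (m2 - m1)) * q ≤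
        2 ^ k * (tab UG m1 + (tab UG m1 - tab UG m2) / (m2 - m1) * m1) ∧
      2 ^ (36 + k) * gX ((q : ℝ) / 2 ^ k) ≤
        2 ^ k * ((tab UG m1 : ℝ) + (((tab UG m1 - tab UG m2) / (m2 - m1) : ℕ) : ℝ) * m1)
          - 64 * (((tab UG m1 - tab UG m2) / (m2 - m1) : ℕ) : ℝ) * q := by
  have hg : ∀ m : ℕ, 64 ≤ m → m ≤ 1024 → 2 ^ 36 * gX ((m : ℝ) / 64) ≤ tab UG m := by
    intro m hm hm'
    have m0 : (0 : ℝ) < m := by
      have : 0 < m := by omega
      exact_mod_cast this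
    refine le_trans (le_of_eq ?_) (fB hm hm').2.2.1
    unfold gX
    field_simp
    ring
  refine chord_gen conv_g (fun z hz => ?_) hk (by omega) h12 hq1 hq2 (UG_anti h1 h12.le h2)
    (hg m1 h1 (by omega)) (hg m2 (by omega) h2)
  unfold gX
  have := Real.exp_pos (-z)
  positivity

/-- chord of `hX` -/
theorem chordH {k m1 m2 q : ℕ} (hk : 6 ≤ k) (h1 : 64 ≤ m1) (h12 : m1 < m2) (h2 : m2 ≤ 1024)
    (hq1 : m1 * 2 ^ (k - 6) ≤ q) (hq2 : q ≤ m2 * 2 ^ (k - 6)) :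
    64 * ((tab UH m1 - tab UH m2) / (m2 - m1)) * q ≤
        2 ^ k * (tab UH m1 + (tab UH m1 - tab UH m2) / (m2 - m1) * m1) ∧
      2 ^ (36 + k) * hX ((q : ℝ) / 2 ^ k) ≤
        2 ^ k * ((tab UH m1 : ℝ) + (((tab UH m1 - tab UH m2) / (m2 - m1) : ℕ) : ℝ) * m1)
          - 64 * (((tab UH m1 - tab UH m2) / (m2 - m1) : ℕ) : ℝ) * q := by
  have hg : ∀ m : ℕ, 64 ≤ m → m ≤ 1024 → 2 ^ 36 * hX ((m : ℝ) / 64) ≤ tab UH m := by
    intro m hm hm'
    have m0 : (0 : ℝ) < m := by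
      have : 0 < m := by omega
      exact_mod_cast this
    refine le_trans (le_of_eq ?_) (fB hm hm').2.2.2.2.2.2.1
    unfold hX
    field_simp
  refine chord_gen conv_h (fun z hz => ?_) hk (by omega) h12 hq1 hq2 (UH_anti h1 h12.le h2)
    (hg m1 h1 (by omega)) (hg m2 (by omega) h2)
  unfold hX
  have := Real.exp_pos (-z)
  positivity

/-! ### the constants -/

/-- class weights -/
theorem cls_w {T w : ℕ} (h : (T, w) ∈ [(20, 45326), (18, 301420), (17, 773825), (16, 1979740),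
    (15, 5045148), (14, 12799857), (13, 32308361), (12, 81067596), (11, 202000857),
    (10, 499177507)]) {z : ℝ} (hz : (T : ℝ) ≤ z) :
    z * Real.exp (-z) ≤ (w : ℝ) / 2 ^ 40 := by
  have anti : ∀ a : ℝ, 1 ≤ a → a ≤ z → z * Real.exp (-z) ≤ a * Real.exp (-a) := by
    intro a ha haz
    have h1 : z / a ≤ Real.exp (z - a) := by
      have h2 := Real.add_one_le_exp (z - a)
      have : z / a ≤ z - a + 1 := by
        rw [div_le_iff₀ (by linarith)]
        nlinarith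
      linarith
    rw [div_le_iff₀ (by linarith)] at h1
    have h3 := mul_le_mul_of_nonneg_right h1 (Real.exp_pos (-z)).le
    have h4 : Real.exp (z - a) * a * Real.exp (-z) = a * Real.exp (-a) := by
      have : Real.exp (-a) = Real.exp (z - a) * Real.exp (-z) := by
        rw [← Real.exp_add]; congr 1; ring
      rw [this]; ring
    linarith
  have num : ∀ n w : ℕ, Nat.ble (n * PH ^ (64 * n) * 2 ^ 40) (w * S ^ (64 * n)) = true →
      (n : ℝ) * Real.exp (-(n : ℝ)) ≤ (w : ℝ) / 2 ^ 40 := by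
    intro n w hh
    rw [Nat.ble_eq] at hh
    have h1 : ((n * PH ^ (64 * n) * 2 ^ 40 : ℕ) : ℝ) ≤ ((w * S ^ (64 * n) : ℕ) : ℝ) := by
      exact_mod_cast hh
    rw [Nat.cast_mul, Nat.cast_mul, Nat.cast_mul, Nat.cast_pow, Nat.cast_pow, Nat.cast_pow,
      Nat.cast_ofNat] at h1
    have h2 : Real.exp (-(n : ℝ)) = Real.exp (-(1 / 64)) ^ (64 * n) := by
      rw [← Real.exp_nat_mul]
      congr 1
      push_cast
      ring
    have hS := S_pos
    have h3 : (S : ℝ) ^ (64 * n) * Real.exp (-(n : ℝ)) ≤ (PH : ℝ) ^ (64 * n) := by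
      rw [h2, ← mul_pow]
      exact pow_le_pow_left₀ (by positivity) pbd.2 _
    have hS' : (0 : ℝ) < (S : ℝ) ^ (64 * n) := by positivity
    rw [le_div_iff₀ (by positivity)]
    refine le_of_mul_le_mul_right ?_ hS'
    calc (n : ℝ) * Real.exp (-(n : ℝ)) * 2 ^ 40 * (S : ℝ) ^ (64 * n) =
          (n : ℝ) * ((S : ℝ) ^ (64 * n) * Real.exp (-(n : ℝ))) * 2 ^ 40 := by ring
      _ ≤ (n : ℝ) * (PH : ℝ) ^ (64 * n) * 2 ^ 40 := by
          refine mul_le_mul_of_nonneg_right ?_ (by positivity)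
          exact mul_le_mul_of_nonneg_left h3 (Nat.cast_nonneg _)
      _ ≤ _ := h1
  have hT : 1 ≤ T ∧ (T : ℝ) * Real.exp (-(T : ℝ)) ≤ (w : ℝ) / 2 ^ 40 := by
    simp only [List.mem_cons, Prod.mk.injEq, List.not_mem_nil, or_false] at h
    rcases h with ⟨rfl, rfl⟩ | ⟨rfl, rfl⟩ | ⟨rfl, rfl⟩ | ⟨rfl, rfl⟩ | ⟨rfl, rfl⟩ | ⟨rfl, rfl⟩ |
      ⟨rfl, rfl⟩ | ⟨rfl, rfl⟩ | ⟨rfl, rfl⟩ | ⟨rfl, rfl⟩ <;>
    exact ⟨by norm_num, num _ _ (by decide +kernel)⟩
  exact (anti T (by exact_mod_cast hT.1) hz).trans hT.2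

theorem exp12 : Real.exp (-12) ≤ 26390 / 2 ^ 32 := by
  have h : Pool.Agent.Lib.EPT.Tm.lt [] (.ex (.k 12 1)) (.k 26390 (2 ^ 32)) = true := by
    decide +kernel
  have := Pool.Agent.Lib.EPT.Tm.lt_sound (r := fun _ => 0) (by simp) h
  simp only [Pool.Agent.Lib.EPT.Tm.val] at this
  norm_num at this ⊢
  exact this.le

theorem exp10 : Real.exp (-10) ≤ 194992 / 2 ^ 32 := by
  have h : Pool.Agent.Lib.EPT.Tm.lt [] (.ex (.k 10 1)) (.k 194992 (2 ^ 32)) = true := by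
    decide +kernel
  have := Pool.Agent.Lib.EPT.Tm.lt_sound (r := fun _ => 0) (by simp) h
  simp only [Pool.Agent.Lib.EPT.Tm.val] at this
  norm_num at this ⊢
  exact this.le

theorem pi_sq_up : Real.pi ^ 2 * 2 ^ 32 ≤ 42389628128 := by
  have h1 := Real.pi_lt_d20
  have h0 := Real.pi_pos
  norm_num at h1 ⊢
  nlinarith

theorem inv_pi_sq_up : 1 / Real.pi ^ 2 ≤ 26561 / 2 ^ 18 := by
  have h1 := Real.pi_gt_d20
  have h0 := Real.pi_pos
  rw [div_le_div_iff₀ (by positivity) (by positivity)]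
  norm_num at h1 ⊢
  nlinarith

theorem TabSAux.ck_gen {n u : ℕ} (hn : 0 < n)
    (h : Real.pi ^ 3 * (2 ^ 16) ^ 2 ≤ (u : ℝ) ^ 2 * n) :
    Real.pi ^ ((3 : ℝ) / 2) / Real.sqrt n ≤ (u : ℝ) / 2 ^ 16 := by
  have h0 := Real.pi_pos
  have hn' : (0 : ℝ) < n := by exact_mod_cast hn
  have e1 : Real.pi ^ ((3 : ℝ) / 2) = Real.sqrt (Real.pi ^ 3) := by
    rw [Real.sqrt_eq_rpow, ← Real.rpow_natCast, ← Real.rpow_mul h0.le]
    norm_num
  rw [e1, ← Real.sqrt_div (by positivity)]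
  refine Real.sqrt_le_iff.mpr ⟨by positivity, ?_⟩
  rw [div_pow, div_le_div_iff₀ hn' (by positivity)]
  exact h

theorem ck31 : Real.pi ^ ((3 : ℝ) / 2) / Real.sqrt 31 ≤ 65543 / 2 ^ 16 := by
  have h := TabSAux.ck_gen (n := 31) (u := 65543) (by norm_num) (by
    have h1 := Real.pi_lt_d20
    have h0 := Real.pi_pos
    have h2 : Real.pi ^ 3 ≤ 3.1415927 ^ 3 := by
      refine pow_le_pow_left₀ h0.le ?_ 3
      norm_num at h1 ⊢
      linarith
    refine (mul_le_mul_of_nonneg_right h2 (by positivity)).trans ?_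
    norm_num)
  exact_mod_cast h

theorem ck19 : Real.pi ^ ((3 : ℝ) / 2) / Real.sqrt 19 ≤ 83720 / 2 ^ 16 := by
  have h := TabSAux.ck_gen (n := 19) (u := 83720) (by norm_num) (by
    have h1 := Real.pi_lt_d20
    have h0 := Real.pi_pos
    have h2 : Real.pi ^ 3 ≤ 3.1415927 ^ 3 := by
      refine pow_le_pow_left₀ h0.le ?_ 3
      norm_num at h1 ⊢
      linarith
    refine (mul_le_mul_of_nonneg_right h2 (by positivity)).trans ?_
    norm_num)
  exact_mod_cast h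

theorem c15 : 2 * (15 / Real.pi) * (2 ^ 58 / 2 ^ 11) ≤ 1343944017005311 := by
  have h1 := Real.pi_gt_d20
  have h0 := Real.pi_pos
  have e : 2 * (15 / Real.pi) * (2 ^ 58 / 2 ^ 11) = (2 * 15 * (2 ^ 58 / 2 ^ 11)) / Real.pi := by
    ring
  rw [e, div_le_iff₀ h0]
  norm_num at h1 ⊢
  nlinarith

end Pool.Agent.Lib.EPX
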