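import Pool.Agent.Lib.EPX.PkC
import Pool.Agent.Lib.EPX.TabS
import Pool.Agent.Lib.EPL.Wgt

/-!
# EPX.WtS: the weights of the checker

Tangents and chords of `exp (-z)`, `gw`, `hw` from the tables, for packed lengths. The real length
`lv l q` is a convex combination of the lengths at the vertices; the tangents hold for all real
lengths, the chords between the two grid points.
-/

open Set

namespace Pool.Agent.Lib.EPX

open Pool.Agent.Lib.EPL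

namespace WtSAux

open TabSAux

theorem tab_lt (T m : ℕ) : tab T m < 2 ^ 40 := by
  have h : tab T m = Nat.shiftRight T (Nat.mul 40 m) % 1099511627776 := rfl
  rw [h]
  exact lt_of_lt_of_le (Nat.mod_lt _ (by norm_num)) (by norm_num)

theorem gw_eq (z : ℝ) : gw z = gX z := rfl

theorem hw_eq (z : ℝ) : hw z = hX z := rfl

/-- tangent of `exp`, real length -/
theorem tabEr {k' m : ℕ} {q : ℝ} (h : q ≤ 2 ^ (k' + 6) + m * 2 ^ k') :
    (tab TE m : ℝ) * ((2 : ℝ) ^ (k' + 6) + m * 2 ^ k' - q) ≤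
      2 ^ (k' + 6 + 32) * Real.exp (-(q / 2 ^ (k' + 6))) := by
  have hx : (0 : ℝ) ≤ (2 : ℝ) ^ (k' + 6) + m * 2 ^ k' - q := by linarith
  have h1 : (tab TE m : ℝ) ≤ 2 ^ 32 * Real.exp (-((m : ℝ) / 64)) := by
    rcases Nat.lt_or_ge 1024 m with hm | hm
    · rw [tab_zero TE_lt (by omega)]
      have := Real.exp_pos (-((m : ℝ) / 64))
      simp only [Nat.cast_zero]
      positivity
    · exact (fA hm).1
  have h2 : 1 + ((m : ℝ) / 64 - q / 2 ^ (k' + 6)) ≤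
      Real.exp ((m : ℝ) / 64 - q / 2 ^ (k' + 6)) := by
    have := Real.add_one_le_exp ((m : ℝ) / 64 - q / 2 ^ (k' + 6))
    linarith
  have e1 : Real.exp (-(q / 2 ^ (k' + 6))) =
      Real.exp (-((m : ℝ) / 64)) * Real.exp ((m : ℝ) / 64 - q / 2 ^ (k' + 6)) := by
    rw [← Real.exp_add]
    congr 1
    ring
  have e2 : (2 : ℝ) ^ (k' + 6) + m * 2 ^ k' - q =
      2 ^ (k' + 6) * (1 + ((m : ℝ) / 64 - q / 2 ^ (k' + 6))) := by
    have : (2 : ℝ) ^ (k' + 6) = 2 ^ k' * 64 := by rw [pow_add]; norm_num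
    rw [this]
    field_simp
    ring
  calc (tab TE m : ℝ) * ((2 : ℝ) ^ (k' + 6) + m * 2 ^ k' - q)
      ≤ 2 ^ 32 * Real.exp (-((m : ℝ) / 64)) * ((2 : ℝ) ^ (k' + 6) + m * 2 ^ k' - q) :=
        mul_le_mul_of_nonneg_right h1 hx
    _ = 2 ^ (k' + 6 + 32) * (Real.exp (-((m : ℝ) / 64)) *
          (1 + ((m : ℝ) / 64 - q / 2 ^ (k' + 6)))) := by
        rw [e2, pow_add 2 (k' + 6) 32]
        ring
    _ ≤ 2 ^ (k' + 6 + 32) * (Real.exp (-((m : ℝ) / 64)) *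
          Real.exp ((m : ℝ) / 64 - q / 2 ^ (k' + 6))) := by
        refine mul_le_mul_of_nonneg_left ?_ (by positivity)
        exact mul_le_mul_of_nonneg_left h2 (Real.exp_pos _).le
    _ = _ := by rw [e1]

/-- a tangent from a table entry `(v, s)`, real length -/
theorem tan_r {f : ℝ → ℝ} (hf : ConvexOn ℝ (Ioi 0) f) {k m v s : ℕ} {q d : ℝ}
    (hm : 0 < m) (hq : 0 < q) (hd : HasDerivAt f (-d) ((m : ℝ) / 64))
    (hv : (v : ℝ) ≤ 2 ^ 36 * (f ((m : ℝ) / 64) + d * ((m : ℝ) / 64))) (hs : 2 ^ 36 * d ≤ (s : ℝ)) :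
    (2 : ℝ) ^ k * v - s * q ≤ 2 ^ (k + 36) * f (q / 2 ^ k) := by
  have hm' : (0 : ℝ) < (m : ℝ) / 64 := by positivity
  have hq' : (0 : ℝ) < q / 2 ^ k := by positivity
  have h := tangent hf hm' hq' hd
  have e1 : q = 2 ^ k * (q / 2 ^ k) := by field_simp
  set z : ℝ := q / 2 ^ k with hz
  have h2 : 2 ^ 36 * d * z ≤ s * z := mul_le_mul_of_nonneg_right hs hq'.le
  have h3 : (v : ℝ) - s * z ≤ 2 ^ 36 * f z := by linarith
  have h4 := mul_le_mul_of_nonneg_left h3 (show (0 : ℝ) ≤ 2 ^ k by positivity)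
  calc (2 : ℝ) ^ k * v - s * q = 2 ^ k * (v - s * z) := by rw [e1]; ring
    _ ≤ 2 ^ k * (2 ^ 36 * f z) := h4
    _ = _ := by rw [pow_add]; ring

/-- tangent of `gX`, real length -/
theorem tabGr {k m : ℕ} {q : ℝ} (hq : 0 < q) :
    (2 : ℝ) ^ k * ((tab2 TG m % 1099511627776 : ℕ) : ℝ) -
        ((tab2 TG m / 1099511627776 : ℕ) : ℝ) * q ≤ 2 ^ (k + 36) * gX (q / 2 ^ k) := by
  have hz : tab2 TG m = 0 → (2 : ℝ) ^ k * ((tab2 TG m % 1099511627776 : ℕ) : ℝ) -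
        ((tab2 TG m / 1099511627776 : ℕ) : ℝ) * q ≤ 2 ^ (k + 36) * gX (q / 2 ^ k) := by
    intro h0
    rw [h0]
    have : 0 ≤ gX (q / 2 ^ k) := by
      unfold gX
      have := Real.exp_pos (-(q / 2 ^ k))
      positivity
    simp only [Nat.zero_mod, Nat.zero_div, Nat.cast_zero, mul_zero, zero_mul, sub_zero]
    positivity
  rcases Nat.lt_or_ge m 64 with hm | hm
  · exact hz (fC hm).1
  rcases Nat.lt_or_ge 1024 m with hm' | hm'
  · exact hz (tab2_zero TG_lt (by omega))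
  obtain ⟨h1, h2, -⟩ := fB hm hm'
  have m0 : (0 : ℝ) < m := by
    have : 0 < m := by omega
    exact_mod_cast this
  refine tan_r (m := m) conv_g (by omega) hq (hd_g (by positivity)) (h1.trans (le_of_eq ?_))
    (le_trans (le_of_eq ?_) h2)
  · unfold gX
    field_simp
    ring
  · field_simp
    ring

/-- tangent of `hX`, real length -/
theorem tabHr {k m : ℕ} {q : ℝ} (hq : 0 < q) :
    (2 : ℝ) ^ k * ((tab2 TH m % 1099511627776 : ℕ) : ℝ) -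
        ((tab2 TH m / 1099511627776 : ℕ) : ℝ) * q ≤ 2 ^ (k + 36) * hX (q / 2 ^ k) := by
  have hz : tab2 TH m = 0 → (2 : ℝ) ^ k * ((tab2 TH m % 1099511627776 : ℕ) : ℝ) -
        ((tab2 TH m / 1099511627776 : ℕ) : ℝ) * q ≤ 2 ^ (k + 36) * hX (q / 2 ^ k) := by
    intro h0
    rw [h0]
    have : 0 ≤ hX (q / 2 ^ k) := by
      unfold hX
      have := Real.exp_pos (-(q / 2 ^ k))
      positivity
    simp only [Nat.zero_mod, Nat.zero_div, Nat.cast_zero, mul_zero, zero_mul, sub_zero]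
    positivity
  rcases Nat.lt_or_ge m 64 with hm | hm
  · exact hz (fC hm).2
  rcases Nat.lt_or_ge 1024 m with hm' | hm'
  · exact hz (tab2_zero TH_lt (by omega))
  obtain ⟨-, -, -, -, h1, h2, -⟩ := fB hm hm'
  have m0 : (0 : ℝ) < m := by
    have : 0 < m := by omega
    exact_mod_cast this
  refine tan_r (m := m) conv_h (by omega) hq (hd_h (by positivity)) (h1.trans (le_of_eq ?_))
    (le_trans (le_of_eq ?_) h2)
  · unfold hX
    field_simp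
    ring
  · field_simp
    ring

/-- a chord between two table entries, real length -/
theorem chord_r {f : ℝ → ℝ} (hf : ConvexOn ℝ (Ioi 0) f) {j k' m1 m2 U1 U2 : ℕ} {q : ℝ}
    (h1 : 0 < m1) (h12 : m1 < m2) (hr1 : (m1 : ℝ) * 2 ^ k' ≤ q) (hr2 : q ≤ m2 * 2 ^ k')
    (hU : U2 ≤ U1) (u1 : 2 ^ j * f ((m1 : ℝ) / 64) ≤ U1) (u2 : 2 ^ j * f ((m2 : ℝ) / 64) ≤ U2) :
    2 ^ (k' + 6 + j) * f (q / 2 ^ (k' + 6)) ≤
        2 ^ (k' + 6) * (U1 + (((U1 - U2) / (m2 - m1) : ℕ) : ℝ) * m1)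
          - 64 * (((U1 - U2) / (m2 - m1) : ℕ) : ℝ) * q := by
  set s : ℕ := (U1 - U2) / (m2 - m1) with hs
  have m10 : (0 : ℝ) < m1 := by exact_mod_cast h1
  have m12 : (m1 : ℝ) < m2 := by exact_mod_cast h12
  have hs1 : (s : ℝ) * ((m2 : ℝ) - m1) ≤ U1 - U2 := by
    have h3 : s * (m2 - m1) ≤ U1 - U2 := Nat.div_mul_le_self _ _
    have h4 : ((s * (m2 - m1) : ℕ) : ℝ) ≤ ((U1 - U2 : ℕ) : ℝ) := by exact_mod_cast h3
    rw [Nat.cast_mul, Nat.cast_sub h12.le, Nat.cast_sub hU] at h4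
    exact h4
  have ep : (2 : ℝ) ^ (k' + 6) = 2 ^ k' * 64 := by rw [pow_add]; norm_num
  have p0 : (0 : ℝ) < 2 ^ k' := by positivity
  set t : ℝ := q / 2 ^ k' with ht
  have hqt : q = t * 2 ^ k' := by rw [ht]; field_simp
  have t1 : (m1 : ℝ) ≤ t := by rw [ht, le_div_iff₀ p0]; exact hr1
  have t2 : t ≤ m2 := by rw [ht, div_le_iff₀ p0]; exact hr2
  have ez : q / 2 ^ (k' + 6) = t / 64 := by rw [ep, ht]; field_simp
  have hc := chord hf (a := (m1 : ℝ) / 64) (b := (m2 : ℝ) / 64) (z := t / 64) (by positivity)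
    (by linarith) (by linarith) (by linarith)
  have key : 2 ^ j * f (t / 64) ≤ U1 - s * (t - m1) := by
    have hd : (0 : ℝ) < m2 - m1 := by linarith
    have h5 : 2 ^ j * f (t / 64) * (m2 - m1) ≤ U1 * (m2 - t) + U2 * (t - m1) := by
      have a1 := mul_le_mul_of_nonneg_right u1 (show (0 : ℝ) ≤ m2 - t by linarith)
      have a2 := mul_le_mul_of_nonneg_right u2 (show (0 : ℝ) ≤ t - m1 by linarith)
      have a3 := mul_le_mul_of_nonneg_left hc (show (0 : ℝ) ≤ 2 ^ j * 64 by positivity)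
      calc 2 ^ j * f (t / 64) * (m2 - m1) =
            2 ^ j * 64 * (f (t / 64) * ((m2 : ℝ) / 64 - m1 / 64)) := by ring
        _ ≤ _ := a3
        _ = 2 ^ j * f ((m1 : ℝ) / 64) * (m2 - t) + 2 ^ j * f ((m2 : ℝ) / 64) * (t - m1) := by ring
        _ ≤ _ := add_le_add a1 a2
    have h6 : (U1 : ℝ) * (m2 - t) + U2 * (t - m1) ≤ (U1 - s * (t - m1)) * (m2 - m1) := by
      have := mul_le_mul_of_nonneg_right hs1 (show (0 : ℝ) ≤ t - m1 by linarith)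
      nlinarith
    exact le_of_mul_le_mul_right (h5.trans h6) hd
  rw [ez]
  have := mul_le_mul_of_nonneg_left key (show (0 : ℝ) ≤ 2 ^ (k' + 6) by positivity)
  calc 2 ^ (k' + 6 + j) * f (t / 64) = 2 ^ (k' + 6) * (2 ^ j * f (t / 64)) := by
        rw [pow_add 2 (k' + 6)]; ring
    _ ≤ _ := this
    _ = _ := by rw [hqt, ep]; ring

/-- the packed chord -/
theorem wC_gen {f : ℝ → ℝ} (hf : ConvexOn ℝ (Ioi 0) f) {l : Fin 6 → ℝ} (h0 : ∀ i, 0 ≤ l i)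
    (h1 : ∑ i, l i = 1) {T a b k' m1 m2 q j : ℕ} (hk' : k' ≤ 52) (hq : R6 a b q)
    (hm1 : 64 ≤ m1) (hm : m1 < m2) (hm2 : m2 ≤ 1024)
    (hg : ∀ i, m1 * 2 ^ k' ≤ fk q (gp i) ∧ fk q (gp i) < m2 * 2 ^ k')
    (hU : tab T m2 ≤ tab T m1) (u1 : 2 ^ j * f ((m1 : ℝ) / 64) ≤ tab T m1)
    (u2 : 2 ^ j * f ((m2 : ℝ) / 64) ≤ tab T m2)
    (hn : ∀ q' : ℕ, m1 * 2 ^ k' ≤ q' → q' ≤ m2 * 2 ^ k' →
      64 * ((tab T m1 - tab T m2) / (m2 - m1)) * q' ≤
        2 ^ (k' + 6) * (tab T m1 + (tab T m1 - tab T m2) / (m2 - m1) * m1)) :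
    R6 0 (2 ^ (k' + 6 + 51)) (wC T (k' + 6) m1 m2 q) ∧
      2 ^ (k' + 6 + j) * f (lv l q / 2 ^ (k' + 6)) ≤ lv l (wC T (k' + 6) m1 m2 q) := by
  have hw : wC T (k' + 6) m1 m2 q =
      (tab T m1 + (tab T m1 - tab T m2) / (m2 - m1) * m1) <<< (k' + 6) * ON -
        64 * ((tab T m1 - tab T m2) / (m2 - m1)) * q := rfl
  rw [Nat.shiftLeft_eq] at hw
  obtain ⟨s, hs⟩ : ∃ s, s = (tab T m1 - tab T m2) / (m2 - m1) := ⟨_, rfl⟩
  rw [← hs] at hw hn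
  have hmain : ∀ r : ℝ, (m1 : ℝ) * 2 ^ k' ≤ r → r ≤ m2 * 2 ^ k' →
      2 ^ (k' + 6 + j) * f (r / 2 ^ (k' + 6)) ≤
        2 ^ (k' + 6) * ((tab T m1 : ℝ) + (s : ℝ) * m1) - 64 * (s : ℝ) * r := by
    intro r r1 r2
    have := chord_r hf (j := j) (k' := k') (m1 := m1) (m2 := m2) (by omega) hm r1 r2 hU u1 u2
    rw [← hs] at this
    exact this
  have ht := tab_lt T m1
  have hs40 : s ≤ 2 ^ 40 := by
    rw [hs]
    exact ((Nat.div_le_self _ _).trans (Nat.sub_le _ _)).trans ht.le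
  have hsm : s * m1 ≤ 2 ^ 40 * 2 ^ 10 := Nat.mul_le_mul hs40 (by omega)
  have hc1 : tab T m1 + s * m1 ≤ 2 ^ 51 := by
    have e : (2 : ℕ) ^ 40 + 2 ^ 40 * 2 ^ 10 ≤ 2 ^ 51 := by norm_num
    exact (Nat.add_le_add ht.le hsm).trans e
  have hc2 : (tab T m1 + s * m1) * 2 ^ (k' + 6) ≤ 2 ^ (k' + 6 + 51) := by
    rw [pow_add 2 (k' + 6) 51, mul_comm]
    exact Nat.mul_le_mul_left _ hc1
  have hk2 : (2 : ℕ) ^ (k' + 6 + 51) ≤ 2 ^ 109 := Nat.pow_le_pow_right (by norm_num) (by omega)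
  have h109 : (2 : ℕ) ^ 109 < 2 ^ 256 := Nat.pow_lt_pow_right (by norm_num) (by norm_num)
  have hc3 : (tab T m1 + s * m1) * 2 ^ (k' + 6) < 2 ^ 256 := (hc2.trans hk2).trans_lt h109
  have hX := R6.cst hc3
  have hq62 : R6 0 (2 ^ 62) q := by
    refine ⟨hq.lt, hq.supp, fun i => Nat.zero_le _, fun i => (hg i).2.le.trans ?_⟩
    calc m2 * 2 ^ k' ≤ 2 ^ 10 * 2 ^ 52 :=
          Nat.mul_le_mul (by omega) (Nat.pow_le_pow_right (by norm_num) hk')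
      _ = 2 ^ 62 := by norm_num
  have hs46 : 64 * s * 2 ^ 62 < 2 ^ 256 := by
    calc 64 * s * 2 ^ 62 ≤ 64 * 2 ^ 40 * 2 ^ 62 :=
          Nat.mul_le_mul_right _ (Nat.mul_le_mul_left _ hs40)
      _ < 2 ^ 256 := by norm_num
  have hY := hq62.mul_aux (64 * s) hs46
  have hXf : ∀ i, fk ((tab T m1 + s * m1) * 2 ^ (k' + 6) * ON) (gp i) =
      (tab T m1 + s * m1) * 2 ^ (k' + 6) := fun i => le_antisymm (hX.hi i) (hX.lo i)
  have hle : ∀ i, fk (64 * s * q) (gp i) ≤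
      fk ((tab T m1 + s * m1) * 2 ^ (k' + 6) * ON) (gp i) := by
    intro i
    rw [hXf, hY.2, mul_comm (tab T m1 + s * m1)]
    exact hn _ (hg i).1 (hg i).2.le
  have hlvX := lv_cst hc3 h1
  have hlvY : lv l (64 * s * q) = ((64 * s : ℕ) : ℝ) * lv l q := hq62.lv_mul (64 * s) hs46 l
  have hlv : lv l (wC T (k' + 6) m1 m2 q) =
      2 ^ (k' + 6) * ((tab T m1 : ℝ) + (s : ℝ) * m1) - 64 * (s : ℝ) * lv l q := by
    rw [hw, hX.lv_sub hY.1 hle l, hlvX, hlvY]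
    push_cast
    ring
  refine ⟨?_, ?_⟩
  · rw [hw]
    refine (hX.sub hY.1 hle).mono (Nat.zero_le _) ?_
    exact (Nat.sub_le _ _).trans hc2
  · rw [hlv]
    have hlo : R6 (m1 * 2 ^ k') (m2 * 2 ^ k') q :=
      ⟨hq.lt, hq.supp, fun i => (hg i).1, fun i => (hg i).2.le⟩
    have r1 := hlo.le_lv h0 h1
    have r2 := hlo.lv_le h0 h1
    refine hmain _ ?_ ?_
    · have : ((m1 * 2 ^ k' : ℕ) : ℝ) = (m1 : ℝ) * 2 ^ k' := by push_cast; ring
      rw [← this]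
      exact r1
    · have : ((m2 * 2 ^ k' : ℕ) : ℝ) = (m2 : ℝ) * 2 ^ k' := by push_cast; ring
      rw [← this]
      exact r2

/-- the packed tangent -/
theorem wT_gen {l : Fin 6 → ℝ} (h1 : ∑ i, l i = 1) {T a b k m q : ℕ}
    (hk : k ≤ 58) (hq : R6 a b q) (hb : b < 2 ^ 200)
    {f : ℕ → Bool} {g : Bool} (h : wT T k m q f g = true) :
    (∃ W, f W = true ∧ R6 0 (2 ^ (k + 40)) W ∧ lv l W =
      (2 : ℝ) ^ k * ((tab2 T m % 1099511627776 : ℕ) : ℝ) -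
        ((tab2 T m / 1099511627776 : ℕ) : ℝ) * lv l q) ∨ g = true := by
  have h' : cnd (pge6 (((tab2 T m % 1099511627776) <<< k) * ON) (tab2 T m / 1099511627776 * q))
      (f (((tab2 T m % 1099511627776) <<< k) * ON - tab2 T m / 1099511627776 * q)) g = true := h
  rw [Nat.shiftLeft_eq] at h'
  rcases cnd_true.mp h' with ⟨hc, hf⟩ | ⟨-, hg⟩
  swap
  · exact Or.inr hg
  left
  have hv : tab2 T m % 1099511627776 ≤ 2 ^ 40 :=
    (Nat.mod_lt _ (by norm_num)).le.trans (by norm_num)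
  have hs : tab2 T m / 1099511627776 ≤ 2 ^ 40 := by
    have h2 : tab2 T m = Nat.shiftRight T (Nat.mul 80 m) % 1208925819614629174706176 := rfl
    have h3 : tab2 T m < 1208925819614629174706176 := by
      rw [h2]
      exact Nat.mod_lt _ (by norm_num)
    have h4 : tab2 T m / 1099511627776 < 1099511627776 := by
      rw [Nat.div_lt_iff_lt_mul (by norm_num)]
      exact h3.trans_le (by norm_num)
    exact h4.le.trans (by norm_num)
  generalize tab2 T m % 1099511627776 = v at *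
  generalize tab2 T m / 1099511627776 = s at *
  have hc1 : v * 2 ^ k ≤ 2 ^ (k + 40) := by
    rw [pow_add, mul_comm]
    exact Nat.mul_le_mul_left _ hv
  have hk2 : (2 : ℕ) ^ (k + 40) ≤ 2 ^ 98 := Nat.pow_le_pow_right (by norm_num) (by omega)
  have h98 : (2 : ℕ) ^ 98 < 2 ^ 255 := Nat.pow_lt_pow_right (by norm_num) (by norm_num)
  have h255 : (2 : ℕ) ^ 255 < 2 ^ 256 := Nat.pow_lt_pow_right (by norm_num) (by norm_num)
  have hc3 : v * 2 ^ k < 2 ^ 255 := (hc1.trans hk2).trans_lt h98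
  have hX := R6.cst (hc3.trans h255)
  have hsb : s * b < 2 ^ 255 := by
    calc s * b ≤ 2 ^ 40 * 2 ^ 200 := Nat.mul_le_mul hs hb.le
      _ = 2 ^ 240 := by rw [← pow_add]
      _ < 2 ^ 255 := Nat.pow_lt_pow_right (by norm_num) (by norm_num)
  have hY := hq.mul s (hsb.trans h255)
  have hle := pge6_le hX hY hc3 hsb hc
  refine ⟨_, hf, (hX.sub hY hle).mono (Nat.zero_le _) ((Nat.sub_le _ _).trans hc1), ?_⟩
  rw [hX.lv_sub hY hle l, lv_cst (hc3.trans h255) h1, hq.lv_mul s (hsb.trans h255) l]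
  push_cast
  ring

end WtSAux

open WtSAux TabSAux

/-- tangent of `exp`; `k = 26` or `58` -/
theorem wE_sound {l : Fin 6 → ℝ} (h0 : ∀ i, 0 ≤ l i) (h1 : ∑ i, l i = 1) {a b k k' m q : ℕ}
    (hk : k = k' + 6) (hk' : k' ≤ 52) (hq : R6 a b q) (hb : b < 2 ^ 255) (hm : m ≤ 640)
    {f : ℕ → Bool} {g : Bool} (h : wE k k' m q f g = true) :
    (∃ W, f W = true ∧ R6 0 (2 ^ (k + 45)) W ∧
      lv l W ≤ 2 ^ (k + 32) * Real.exp (-(lv l q / 2 ^ k))) ∨ g = true := by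
  subst hk
  have h' : cnd (pge6 ((1 <<< (k' + 6) + m <<< k') * ON) q)
      (f (tab TE m * ((1 <<< (k' + 6) + m <<< k') * ON - q))) g = true := h
  rw [Nat.shiftLeft_eq, Nat.shiftLeft_eq, one_mul] at h'
  rcases cnd_true.mp h' with ⟨hc, hf⟩ | ⟨-, hg⟩
  swap
  · exact Or.inr hg
  left
  have hX4 : 2 ^ (k' + 6) + m * 2 ^ k' ≤ 2 ^ (k' + 6) * 2 ^ 4 := by
    have e : (2 : ℕ) ^ (k' + 6) = 2 ^ k' * 64 := by
      rw [pow_add]
      norm_num
    rw [e]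
    have : m * 2 ^ k' ≤ 640 * 2 ^ k' := Nat.mul_le_mul_right _ hm
    omega
  have hk4 : (2 : ℕ) ^ (k' + 6) * 2 ^ 4 ≤ 2 ^ 62 := by
    rw [← pow_add]
    exact Nat.pow_le_pow_right (by norm_num) (by omega)
  have h62 : (2 : ℕ) ^ 62 < 2 ^ 255 := by norm_num
  have h255 : (2 : ℕ) ^ 255 < 2 ^ 256 := by norm_num
  have hc3 : 2 ^ (k' + 6) + m * 2 ^ k' < 2 ^ 255 := (hX4.trans hk4).trans_lt h62
  have hX := R6.cst (hc3.trans h255)
  have hle := pge6_le hX hq hc3 hb hc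
  have hD := hX.sub hq hle
  have hD2 : R6 0 (2 ^ (k' + 6) * 2 ^ 4) ((2 ^ (k' + 6) + m * 2 ^ k') * ON - q) :=
    hD.mono (Nat.zero_le _) ((Nat.sub_le _ _).trans hX4)
  have ht := tab_lt TE m
  have hb1 : tab TE m * (2 ^ (k' + 6) * 2 ^ 4) ≤ 2 ^ (k' + 6 + 45) := by
    calc tab TE m * (2 ^ (k' + 6) * 2 ^ 4) ≤ 2 ^ 40 * (2 ^ (k' + 6) * 2 ^ 4) :=
          Nat.mul_le_mul_right _ ht.le
      _ = 2 ^ (k' + 6 + 44) := by rw [← pow_add, ← pow_add]; congr 1; omega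
      _ ≤ _ := Nat.pow_le_pow_right (by norm_num) (by omega)
  have hb2 : tab TE m * (2 ^ (k' + 6) * 2 ^ 4) < 2 ^ 256 :=
    lt_of_le_of_lt hb1 (Nat.pow_lt_pow_right (by norm_num) (by omega))
  refine ⟨_, hf, (hD2.mul (tab TE m) hb2).mono (Nat.zero_le _) hb1, ?_⟩
  rw [hD2.lv_mul (tab TE m) hb2 l, hX.lv_sub hq hle l, lv_cst (hc3.trans h255) h1]
  have hlvq : lv l q ≤ ((2 ^ (k' + 6) + m * 2 ^ k' : ℕ) : ℝ) := by
    have := lv_mono h0 hle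
    rwa [lv_cst (hc3.trans h255) h1] at this
  have e : ((2 ^ (k' + 6) + m * 2 ^ k' : ℕ) : ℝ) = 2 ^ (k' + 6) + m * 2 ^ k' := by push_cast; ring
  rw [e] at hlvq ⊢
  exact tabEr hlvq

/-- tangent of `g` -/
theorem wT_sound_g {l : Fin 6 → ℝ} (h0 : ∀ i, 0 ≤ l i) (h1 : ∑ i, l i = 1) {a b k m q : ℕ}
    (hk : k ≤ 58) (hq : R6 a b q) (hb : b < 2 ^ 200) (hm : m ≤ 640) (hpos : 0 < lv l q)
    {f : ℕ → Bool} {g : Bool} (h : wT TG k m q f g = true) :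
    (∃ W, f W = true ∧ R6 0 (2 ^ (k + 40)) W ∧ lv l W ≤ 2 ^ (k + 36) * gw (lv l q / 2 ^ k)) ∨
      g = true := by
  have _ := h0
  have _ := hm
  rcases wT_gen h1 hk hq hb h with ⟨W, h2, h3, h4⟩ | h2
  · left
    refine ⟨W, h2, h3, ?_⟩
    rw [h4, gw_eq]
    exact tabGr hpos
  · exact Or.inr h2

/-- tangent of `h` -/
theorem wT_sound_h {l : Fin 6 → ℝ} (h0 : ∀ i, 0 ≤ l i) (h1 : ∑ i, l i = 1) {a b k m q : ℕ}
    (hk : k ≤ 58) (hq : R6 a b q) (hb : b < 2 ^ 200) (hm : m ≤ 640) (hpos : 0 < lv l q)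
    {f : ℕ → Bool} {g : Bool} (h : wT TH k m q f g = true) :
    (∃ W, f W = true ∧ R6 0 (2 ^ (k + 40)) W ∧ lv l W ≤ 2 ^ (k + 36) * hw (lv l q / 2 ^ k)) ∨
      g = true := by
  have _ := h0
  have _ := hm
  rcases wT_gen h1 hk hq hb h with ⟨W, h2, h3, h4⟩ | h2
  · left
    refine ⟨W, h2, h3, ?_⟩
    rw [h4, hw_eq]
    exact tabHr hpos
  · exact Or.inr h2

/-- chord of `exp` -/
theorem wC_sound_e {l : Fin 6 → ℝ} (h0 : ∀ i, 0 ≤ l i) (h1 : ∑ i, l i = 1) {a b k k' m1 m2 q : ℕ}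
    (hk : k = k' + 6) (hk' : k' ≤ 52) (hq : R6 a b q) (hm1 : 64 ≤ m1) (hm : m1 < m2)
    (hm2 : m2 ≤ 1024) (hg : ∀ i, m1 * 2 ^ k' ≤ fk q (gp i) ∧ fk q (gp i) < m2 * 2 ^ k') :
    R6 0 (2 ^ (k + 51)) (wC UE k m1 m2 q) ∧
      2 ^ (k + 32) * Real.exp (-(lv l q / 2 ^ k)) ≤ lv l (wC UE k m1 m2 q) := by
  subst hk
  exact wC_gen (f := fun z => Real.exp (-z)) conv_exp h0 h1 hk' hq hm1 hm hm2 hg
    (UE_anti hm.le hm2) (fA (by omega)).2.1 (fA (by omega)).2.1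
    fun q' a1 a2 => (chordE (k := k' + 6) (by omega) hm1 hm hm2 a1 a2).1

/-- chord of `g` -/
theorem wC_sound_g {l : Fin 6 → ℝ} (h0 : ∀ i, 0 ≤ l i) (h1 : ∑ i, l i = 1) {a b k k' m1 m2 q : ℕ}
    (hk : k = k' + 6) (hk' : k' ≤ 52) (hq : R6 a b q) (hm1 : 64 ≤ m1) (hm : m1 < m2)
    (hm2 : m2 ≤ 1024) (hg : ∀ i, m1 * 2 ^ k' ≤ fk q (gp i) ∧ fk q (gp i) < m2 * 2 ^ k') :
    R6 0 (2 ^ (k + 51)) (wC UG k m1 m2 q) ∧
      2 ^ (k + 36) * gw (lv l q / 2 ^ k) ≤ lv l (wC UG k m1 m2 q) := by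
  subst hk
  have hg' : ∀ m : ℕ, 64 ≤ m → m ≤ 1024 → 2 ^ 36 * gX ((m : ℝ) / 64) ≤ tab UG m := by
    intro m hm hm'
    have m0 : (0 : ℝ) < m := by
      have : 0 < m := by omega
      exact_mod_cast this
    refine le_trans (le_of_eq ?_) (fB hm hm').2.2.1
    unfold gX
    field_simp
    ring
  exact wC_gen (f := gX) conv_g h0 h1 hk' hq hm1 hm hm2 hg
    (UG_anti hm1 hm.le hm2) (hg' m1 hm1 (by omega)) (hg' m2 (by omega) hm2)
    fun q' a1 a2 => (chordG (k := k' + 6) (by omega) hm1 hm hm2 a1 a2).1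

/-- chord of `h` -/
theorem wC_sound_h {l : Fin 6 → ℝ} (h0 : ∀ i, 0 ≤ l i) (h1 : ∑ i, l i = 1) {a b k k' m1 m2 q : ℕ}
    (hk : k = k' + 6) (hk' : k' ≤ 52) (hq : R6 a b q) (hm1 : 64 ≤ m1) (hm : m1 < m2)
    (hm2 : m2 ≤ 1024) (hg : ∀ i, m1 * 2 ^ k' ≤ fk q (gp i) ∧ fk q (gp i) < m2 * 2 ^ k') :
    R6 0 (2 ^ (k + 51)) (wC UH k m1 m2 q) ∧
      2 ^ (k + 36) * hw (lv l q / 2 ^ k) ≤ lv l (wC UH k m1 m2 q) := by
  subst hk
  have hg' : ∀ m : ℕ, 64 ≤ m → m ≤ 1024 → 2 ^ 36 * hX ((m : ℝ) / 64) ≤ tab UH m := by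
    intro m hm hm'
    have m0 : (0 : ℝ) < m := by
      have : 0 < m := by omega
      exact_mod_cast this
    refine le_trans (le_of_eq ?_) (fB hm hm').2.2.2.2.2.2.1
    unfold hX
    field_simp
  exact wC_gen (f := hX) conv_h h0 h1 hk' hq hm1 hm hm2 hg
    (UH_anti hm1 hm.le hm2) (hg' m1 hm1 (by omega)) (hg' m2 (by omega) hm2)
    fun q' a1 a2 => (chordH (k := k' + 6) (by omega) hm1 hm hm2 a1 a2).1

/-- the weight of the far item; `q ≥ 10` -/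
theorem wF_sound {l : Fin 6 → ℝ} (h0 : ∀ i, 0 ≤ l i) (h1 : ∑ i, l i = 1) {a b k q c10 c12 : ℕ}
    (hk : k ≤ 58) (e10 : c10 = 10 * 2 ^ k) (e12 : c12 = 12 * 2 ^ k) (hq : R6 a b q)
    (hb : b < 2 ^ 255) (h10 : pge6 q (Nat.mul c10 ON) = true) {t : ℝ} (ht : 1 ≤ t) :
    wF (Nat.mul c12 ON) q < 2 ^ 18 ∧
      2 ^ 32 * Real.exp (-(t * (lv l q / 2 ^ k))) ≤
        (wF (Nat.mul c12 ON) q : ℝ) * Real.exp (-((t - 1) * 10)) := by
  have hk58 : (2 : ℕ) ^ k ≤ 2 ^ 58 := Nat.pow_le_pow_right (by norm_num) hk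
  have h12 : 12 * (2 : ℕ) ^ 58 < 2 ^ 255 := by norm_num
  have h255 : (2 : ℕ) ^ 255 < 2 ^ 256 := by norm_num
  have c10l : c10 < 2 ^ 255 := by
    rw [e10]
    exact lt_of_le_of_lt ((Nat.mul_le_mul_left 10 hk58).trans
      (Nat.mul_le_mul_right _ (by norm_num))) h12
  have c12l : c12 < 2 ^ 255 := by
    rw [e12]
    exact lt_of_le_of_lt (Nat.mul_le_mul_left 12 hk58) h12
  have p0 : (0 : ℝ) < 2 ^ k := by positivity
  have z10 : 10 ≤ lv l q / 2 ^ k := by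
    have hle := pge6_le hq (R6.cst (c10l.trans h255)) hb c10l h10
    have hv := lv_mono h0 hle
    have e : lv l (Nat.mul c10 ON) = c10 := lv_cst (c10l.trans h255) h1
    have hv' : lv l (Nat.mul c10 ON) ≤ lv l q := hv
    rw [e, e10] at hv'
    push_cast at hv'
    rw [le_div_iff₀ p0]
    exact hv'
  have key : ∀ (A w : ℝ), A ≤ lv l q / 2 ^ k → Real.exp (-A) ≤ w / 2 ^ 32 →
      2 ^ 32 * Real.exp (-(t * (lv l q / 2 ^ k))) ≤ w * Real.exp (-((t - 1) * 10)) := by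
    intro A w hA hw
    have h2 : Real.exp (-(t * (lv l q / 2 ^ k))) ≤ Real.exp (-A) * Real.exp (-((t - 1) * 10)) := by
      rw [← Real.exp_add]
      refine Real.exp_le_exp.mpr ?_
      have := mul_le_mul_of_nonneg_left z10 (sub_nonneg.mpr ht)
      nlinarith
    have h3 := mul_le_mul_of_nonneg_right hw (Real.exp_pos (-((t - 1) * 10))).le
    calc 2 ^ 32 * Real.exp (-(t * (lv l q / 2 ^ k))) ≤
          2 ^ 32 * (w / 2 ^ 32 * Real.exp (-((t - 1) * 10))) :=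
          mul_le_mul_of_nonneg_left (h2.trans h3) (by positivity)
      _ = _ := by field_simp
  have hwF : wF (Nat.mul c12 ON) q = cnd (pge6 q (Nat.mul c12 ON)) 26390 194992 := rfl
  rw [hwF]
  cases hc : pge6 q (Nat.mul c12 ON) with
  | true =>
    rw [cnd_pos rfl]
    refine ⟨by norm_num, ?_⟩
    have z12 : 12 ≤ lv l q / 2 ^ k := by
      have hle := pge6_le hq (R6.cst (c12l.trans h255)) hb c12l hc
      have hv := lv_mono h0 hle
      have e : lv l (Nat.mul c12 ON) = c12 := lv_cst (c12l.trans h255) h1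
      have hv' : lv l (Nat.mul c12 ON) ≤ lv l q := hv
      rw [e, e12] at hv'
      push_cast at hv'
      rw [le_div_iff₀ p0]
      exact hv'
    have := key 12 26390 z12 exp12
    exact_mod_cast this
  | false =>
    rw [cnd_neg rfl]
    refine ⟨by norm_num, ?_⟩
    have := key 10 194992 z10 exp10
    exact_mod_cast this

end Pool.Agent.Lib.EPX
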