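import Pool.Agent.Lib.EPX.ItD
import Pool.Agent.Lib.EPX.FmS
import Pool.Agent.Lib.EPX.WtS

/-!
# EPX.DirS: the loop of the direct side

Induction on the list `L` for all states. `dirL .. (.cons v t) G Bd F VP VN` is by definition the
conditional of ChkX (copy the text, proof `rfl`). For the vector `v` let `x = v.vec`,
`q = ev v q0 .. q5`, `hx = ev v h0 .. h5`, `bs = (2 ^ 40 * v.n) * ON`. By `ev_sound`:
`lv l q = 2 ^ 26 * qf A x` (`> 0`: `hA.pos`), fields at most `200 * 2 ^ 33 < 2 ^ 41`, and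
`lv l hx - lv l bs = 2 ^ 26 * qf H x`, the fields of `hx` in `[n (2 ^ 40 - 2 ^ 39), n (2 ^ 40 + 2 ^ 39)]`.
Cases (`rec_true` of SemX, `cases` on the boolean for the others):
* bit of the mask set: `qf H x = 0`.
* good (`pge6 hx bs`): `a = hx - bs` (`R6.sub` with `pge6_le`) has fields at most `200 * 2 ^ 39 ≤ 2 ^ 47` and
  value `2 ^ 26 * qf H x ≥ 0`. If the item is dropped (not `pge6 T10 q`, or `wE`, `wT` give the second
  branch) then `0 ≤ qf H x * exp ..`. Otherwise `q ≤ 10 * 2 ^ 26` (fields), `m = mean 6291456 q ≤ 640`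
  (`mod_le`, `6291456 = 6 * 2 ^ 20`), `wE_sound`, `wT_sound_g` give `W, W'`; new item with the mass `a * W`
  (`R6.prod`, `R6.qv_prod`) and `VP + a * W'`; real item `(qf H x, qf A x)`.
* bad: `a = clip bs hx` (`clip_spec`): fields at most `2 ^ 47`, value `≥ 0` and `≥ -(2 ^ 26 * qf H x)`. Far
  (`pge6 q T10`): `wF_sound`, `F` grows by `w * a`:
  `qf H x exp (-(t T)) ≥ -(lv a / 2 ^ 26) exp (-(t T)) ≥ -(w lv a / 2 ^ 58) exp (-((t - 1) 10))`.
  Near: `grid_spec` (`k' = 20`), `64 ≤ m1`, `m2 ≤ 1024`, `wC_sound_e`, `wC_sound_g`: new bad item and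
  `VN + a * wC UG ..`; `BadI.lo`, `hi` from `64 ≤ m1`, `m2 ≤ 1024`.
Bounds: `2 * (2 ^ 47 * 2 ^ 66) ≤ 2 ^ 115`, `2 * (2 ^ 47 * 2 ^ 77) ≤ 2 ^ 126`, masses `≤ 2 ^ 212`, `F`:
`2 ^ 18 * 2 ^ 47 = 2 ^ 65` for each vector, at most `2 ^ 9` vectors.
-/

open Matrix
open scoped Matrix.Norms.Elementwise

namespace Pool.Agent.Lib.EPX

open Pool.Agent.Lib.EPL Pool.Agent.Lib.EpZ Pool.Agent.Lib.EPS Pool.Agent.Lib.FCC

/-- the invariant of the direct loop after at most `n` vectors; `S t` the sum over the processed vectors -/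
structure DirI (l : Fin 6 → ℝ) (n : ℕ) (S : ℝ → ℝ) (G Bd : It) (F VP VN : ℕ) : Prop where
  hG : ∀ i ∈ G.L, GoodI l 26 (2 ^ 47) i
  hB : ∀ i ∈ Bd.L, BadI l 26 20 (2 ^ 47) i
  nG : G.L.length ≤ n
  nB : Bd.L.length ≤ n
  hF : R6 0 (n * 2 ^ 65) F
  hVP : W35 (n * 2 ^ 115) VP
  hVN : W35 (n * 2 ^ 126) VN
  low : ∀ t : ℝ, 1 ≤ t → eS (re l 26 26 G.L) t - eS (re l 26 26 Bd.L) t -
    lv l F / 2 ^ 58 * Real.exp (-((t - 1) * 10)) ≤ S t
  vp : qv l VP ≤ 2 ^ 88 * ((re l 26 26 G.L).map fun i => i.1 * gw i.2).sum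
  vn : 2 ^ 88 * ((re l 26 26 Bd.L).map fun i => i.1 * gw i.2).sum ≤ qv l VN

namespace DirSAux

theorem bnd {n a b c : ℕ} (hn : n < 2 ^ 9) (h : 2 ^ 9 * a + b < c) : n * a + b < c :=
  lt_of_le_of_lt (Nat.add_le_add_right (Nat.mul_le_mul_right _ hn.le) _) h

theorem bnd' {n a b : ℕ} (h : b ≤ a) : n * a + b ≤ (n + 1) * a := by
  rw [Nat.add_mul, one_mul]
  exact Nat.add_le_add_left h _

theorem suc {n : ℕ} (a : ℕ) : n * a ≤ (n + 1) * a := Nat.mul_le_mul_right _ (Nat.le_succ n)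

theorem re_cons (l : Fin 6 → ℝ) (k K q p a m : ℕ) (G : It) :
    re l k K (It.cons q p a m G).L = (lv l a / 2 ^ K, lv l q / 2 ^ k) :: re l k K G.L := rfl

theorem eS_cons (x y : ℝ) (I : List (ℝ × ℝ)) (t : ℝ) :
    eS ((x, y) :: I) t = x * Real.exp (-(t * y)) + eS I t := by
  simp [eS]

theorem skip {l : Fin 6 → ℝ} {n : ℕ} {S : ℝ → ℝ} {G Bd : It} {F VP VN : ℕ}
    (h : DirI l n S G Bd F VP VN) {s : ℝ → ℝ} (hs : ∀ t, 1 ≤ t → 0 ≤ s t) :
    DirI l (n + 1) (fun t => S t + s t) G Bd F VP VN := by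
  refine ⟨h.hG, h.hB, h.nG.trans (by omega), h.nB.trans (by omega), h.hF.up ?_, h.hVP.mono ?_,
    h.hVN.mono ?_, fun t ht => ?_, h.vp, h.vn⟩
  · exact suc _
  · exact suc _
  · exact suc _
  · have h1 := h.low t ht
    have h2 := hs t ht
    linarith

theorem good {l : Fin 6 → ℝ} (h0 : ∀ i, 0 ≤ l i) (h1 : ∑ i, l i = 1) {n : ℕ} (hn : n < 2 ^ 9)
    {S : ℝ → ℝ} {G Bd : It} {F VP VN : ℕ} (h : DirI l n S G Bd F VP VN) {q a W W' m : ℕ}
    (hq : R6 0 (10 * 2 ^ 26) q) (ha : R6 0 (2 ^ 47) a) (hW : R6 0 (2 ^ 71) W)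
    (hW' : R6 0 (2 ^ 66) W') (hm : m ≤ 640) {x y : ℝ} (hx : lv l a = 2 ^ 26 * x)
    (hy : lv l q = 2 ^ 26 * y) (hy0 : 0 < y)
    (eW : lv l W ≤ 2 ^ 58 * Real.exp (-(lv l q / 2 ^ 26)))
    (eW' : lv l W' ≤ 2 ^ 62 * gw (lv l q / 2 ^ 26)) :
    DirI l (n + 1) (fun t => S t + x * Real.exp (-(t * y))) (.cons q (a * W) a m G) Bd F
      (VP + a * W') VN := by
  have hp : W35 (2 * (2 ^ 47 * 2 ^ 71)) (a * W) := ha.prod hW (by norm_num)
  have hp' : W35 (2 * (2 ^ 47 * 2 ^ 66)) (a * W') := ha.prod hW' (by norm_num)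
  have ep : qv l (a * W) = lv l a * lv l W := ha.qv_prod hW (by norm_num) l
  have ep' : qv l (a * W') = lv l a * lv l W' := ha.qv_prod hW' (by norm_num) l
  have ha0 : 0 ≤ lv l a := lv_nonneg h0 a
  have hx0 : 0 ≤ x := by
    rw [hx] at ha0
    exact nonneg_of_mul_nonneg_right ha0 (by positivity)
  have hb1 : n * 2 ^ 115 + 2 * (2 ^ 47 * 2 ^ 66) < 2 ^ 256 := bnd hn (by norm_num)
  refine ⟨?_, h.hB, ?_, h.nB.trans (by omega), h.hF.up ?_, ?_, h.hVN.mono ?_, fun t ht => ?_, ?_,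
    h.vn⟩
  · intro i hi
    rw [It.L_cons, List.mem_cons] at hi
    rcases hi with rfl | hi
    · refine ⟨hq.up (by norm_num), ha, hp.mono (by norm_num), hm, ?_, ?_, ?_⟩
      · show 0 < lv l q
        rw [hy]; positivity
      · show lv l q ≤ 10 * 2 ^ 26
        have h2 := hq.lv_le h0 h1
        have h3 : ((10 * 2 ^ 26 : ℕ) : ℝ) = 10 * 2 ^ 26 := by norm_num
        rw [h3] at h2
        exact h2
      · show qv l (a * W) ≤ lv l a * (2 ^ (26 + 32) * Real.exp (-(lv l q / 2 ^ 26)))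
        rw [ep]
        exact mul_le_mul_of_nonneg_left eW ha0
    · exact h.hG i hi
  · rw [It.L_cons, List.length_cons]
    have := h.nG
    omega
  · exact suc _
  · exact (h.hVP.add hp' hb1).mono (bnd' (by norm_num))
  · exact suc _
  · have e1 := h.low t ht
    rw [re_cons, eS_cons, hx, hy]
    have e2 : (2 : ℝ) ^ 26 * x / 2 ^ 26 = x := by field_simp
    have e3 : (2 : ℝ) ^ 26 * y / 2 ^ 26 = y := by field_simp
    rw [e2, e3]
    linarith
  · rw [re_cons, List.map_cons, List.sum_cons]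
    have e0 : qv l (VP + a * W') = qv l VP + qv l (a * W') := h.hVP.qv_add hp' hb1 l
    rw [e0, ep']
    have e1 := h.vp
    have e2 : lv l a * lv l W' ≤ lv l a * (2 ^ 62 * gw (lv l q / 2 ^ 26)) :=
      mul_le_mul_of_nonneg_left eW' ha0
    have e3 : lv l a * (2 ^ 62 * gw (lv l q / 2 ^ 26)) =
        2 ^ 88 * (lv l a / 2 ^ 26 * gw (lv l q / 2 ^ 26)) := by
      field_simp
    rw [e3] at e2
    show qv l VP + lv l a * lv l W' ≤ 2 ^ 88 * (lv l a / 2 ^ 26 * gw (lv l q / 2 ^ 26) +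
      ((re l 26 26 G.L).map fun i => i.1 * gw i.2).sum)
    rw [mul_add]
    linarith

theorem far {l : Fin 6 → ℝ} (h0 : ∀ i, 0 ≤ l i) {n : ℕ} (hn : n < 2 ^ 9)
    {S : ℝ → ℝ} {G Bd : It} {F VP VN : ℕ} (h : DirI l n S G Bd F VP VN) {q a w : ℕ}
    (ha : R6 0 (2 ^ 47) a) (hw : w < 2 ^ 18) {x y : ℝ} (hx : -(2 ^ 26 * x) ≤ lv l a)
    (hy : lv l q = 2 ^ 26 * y)
    (ew : ∀ t : ℝ, 1 ≤ t → 2 ^ 32 * Real.exp (-(t * (lv l q / 2 ^ 26))) ≤
      (w : ℝ) * Real.exp (-((t - 1) * 10))) :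
    DirI l (n + 1) (fun t => S t + x * Real.exp (-(t * y))) G Bd (F + w * a) VP VN := by
  have hwa : w * 2 ^ 47 ≤ 2 ^ 65 := (Nat.mul_le_mul_right _ hw.le).trans (by norm_num)
  have hwb : w * 2 ^ 47 < 2 ^ 256 := hwa.trans_lt (by norm_num)
  have hp : R6 0 (2 ^ 65) (w * a) := (ha.mul w hwb).up hwa
  have ep : lv l (w * a) = w * lv l a := ha.lv_mul w hwb l
  have ha0 : 0 ≤ lv l a := lv_nonneg h0 a
  have hb1 : n * 2 ^ 65 + 2 ^ 65 < 2 ^ 256 := bnd hn (by norm_num)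
  refine ⟨h.hG, h.hB, h.nG.trans (by omega), h.nB.trans (by omega), ?_, h.hVP.mono ?_,
    h.hVN.mono ?_, fun t ht => ?_, h.vp, h.vn⟩
  · exact (h.hF.add hp hb1).up (bnd' le_rfl)
  · exact suc _
  · exact suc _
  · have e1 := h.low t ht
    have e0 : lv l (F + w * a) = lv l F + w * lv l a := by
      rw [h.hF.lv_add hp hb1 l, ep]
    rw [e0]
    have e2 := ew t ht
    rw [hy] at e2
    have e3 : (2 : ℝ) ^ 26 * y / 2 ^ 26 = y := by field_simp
    rw [e3] at e2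
    have e4 : -(lv l a / 2 ^ 26) ≤ x := by
      rw [neg_le, le_div_iff₀ (by positivity)]
      linarith
    have e5 : -(lv l a / 2 ^ 26) * Real.exp (-(t * y)) ≤ x * Real.exp (-(t * y)) :=
      mul_le_mul_of_nonneg_right e4 (Real.exp_pos _).le
    have e6 : lv l a * (2 ^ 32 * Real.exp (-(t * y))) ≤
        lv l a * ((w : ℝ) * Real.exp (-((t - 1) * 10))) := mul_le_mul_of_nonneg_left e2 ha0
    have e7 : (lv l F + w * lv l a) / 2 ^ 58 * Real.exp (-((t - 1) * 10)) =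
        lv l F / 2 ^ 58 * Real.exp (-((t - 1) * 10)) +
          lv l a * ((w : ℝ) * Real.exp (-((t - 1) * 10))) / 2 ^ 58 := by ring
    have e8 : lv l a / 2 ^ 26 * Real.exp (-(t * y)) =
        lv l a * (2 ^ 32 * Real.exp (-(t * y))) / 2 ^ 58 := by
      field_simp
    have e9 : lv l a * (2 ^ 32 * Real.exp (-(t * y))) / 2 ^ 58 ≤
        lv l a * ((w : ℝ) * Real.exp (-((t - 1) * 10))) / 2 ^ 58 :=
      div_le_div_of_nonneg_right e6 (by positivity)
    rw [e7]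
    rw [neg_mul, e8] at e5
    linarith

theorem bad {l : Fin 6 → ℝ} (h0 : ∀ i, 0 ≤ l i) {n : ℕ} (hn : n < 2 ^ 9)
    {S : ℝ → ℝ} {G Bd : It} {F VP VN : ℕ} (h : DirI l n S G Bd F VP VN) {q a W W' m1 m2 : ℕ}
    (hq : R6 0 (2 ^ 100) q) (ha : R6 0 (2 ^ 47) a) (hW : R6 0 (2 ^ 77) W)
    (hW' : R6 0 (2 ^ 77) W') (hm1 : 64 ≤ m1) (hm2 : m2 ≤ 1024)
    (hg : ∀ i, m1 * 2 ^ 20 ≤ fk q (gp i) ∧ fk q (gp i) < m2 * 2 ^ 20)
    {x y : ℝ} (hx : -(2 ^ 26 * x) ≤ lv l a)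
    (hy : lv l q = 2 ^ 26 * y)
    (eW : 2 ^ 58 * Real.exp (-(lv l q / 2 ^ 26)) ≤ lv l W)
    (eW' : 2 ^ 62 * gw (lv l q / 2 ^ 26) ≤ lv l W') :
    DirI l (n + 1) (fun t => S t + x * Real.exp (-(t * y))) G (.cons q (a * W) a m1 Bd) F
      VP (VN + a * W') := by
  have hp : W35 (2 * (2 ^ 47 * 2 ^ 77)) (a * W) := ha.prod hW (by norm_num)
  have hp' : W35 (2 * (2 ^ 47 * 2 ^ 77)) (a * W') := ha.prod hW' (by norm_num)
  have ep : qv l (a * W) = lv l a * lv l W := ha.qv_prod hW (by norm_num) l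
  have ep' : qv l (a * W') = lv l a * lv l W' := ha.qv_prod hW' (by norm_num) l
  have ha0 : 0 ≤ lv l a := lv_nonneg h0 a
  have hb1 : n * 2 ^ 126 + 2 * (2 ^ 47 * 2 ^ 77) < 2 ^ 256 := bnd hn (by norm_num)
  refine ⟨h.hG, ?_, h.nG.trans (by omega), ?_, h.hF.up ?_, h.hVP.mono ?_, ?_, fun t ht => ?_,
    h.vp, ?_⟩
  · intro i hi
    rw [It.L_cons, List.mem_cons] at hi
    rcases hi with rfl | hi
    · refine ⟨hq, ha, hp.mono (by norm_num), fun j => ?_, fun j => ?_, hm1, fun j => (hg j).1, ?_⟩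
      · exact (Nat.mul_le_mul_right _ hm1).trans (hg j).1
      · exact (hg j).2.trans_le (Nat.mul_le_mul_right _ hm2)
      · show lv l a * (2 ^ (26 + 32) * Real.exp (-(lv l q / 2 ^ 26))) ≤ qv l (a * W)
        rw [ep]
        exact mul_le_mul_of_nonneg_left eW ha0
    · exact h.hB i hi
  · rw [It.L_cons, List.length_cons]
    have := h.nB
    omega
  · exact suc _
  · exact suc _
  · exact (h.hVN.add hp' hb1).mono (bnd' (by norm_num))
  · have e1 := h.low t ht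
    rw [re_cons, eS_cons, hy]
    have e3 : (2 : ℝ) ^ 26 * y / 2 ^ 26 = y := by field_simp
    rw [e3]
    have e4 : -(lv l a / 2 ^ 26) ≤ x := by
      rw [neg_le, le_div_iff₀ (by positivity)]
      linarith
    have e5 : -(lv l a / 2 ^ 26) * Real.exp (-(t * y)) ≤ x * Real.exp (-(t * y)) :=
      mul_le_mul_of_nonneg_right e4 (Real.exp_pos _).le
    rw [neg_mul] at e5
    linarith
  · rw [re_cons, List.map_cons, List.sum_cons]
    have e0 : qv l (VN + a * W') = qv l VN + qv l (a * W') := h.hVN.qv_add hp' hb1 l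
    rw [e0, ep']
    have e1 := h.vn
    have e2 : lv l a * (2 ^ 62 * gw (lv l q / 2 ^ 26)) ≤ lv l a * lv l W' :=
      mul_le_mul_of_nonneg_left eW' ha0
    have e3 : lv l a * (2 ^ 62 * gw (lv l q / 2 ^ 26)) =
        2 ^ 88 * (lv l a / 2 ^ 26 * gw (lv l q / 2 ^ 26)) := by
      field_simp
    rw [e3] at e2
    show 2 ^ 88 * (lv l a / 2 ^ 26 * gw (lv l q / 2 ^ 26) +
      ((re l 26 26 Bd.L).map fun i => i.1 * gw i.2).sum) ≤ qv l VN + lv l a * lv l W'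
    rw [mul_add]
    linarith

theorem qf_smul (c : ℝ) (A : Mx 3) (x : Fin 3 → ℤ) : qf (c • A) x = c * qf A x := by
  unfold qf qr
  rw [Matrix.smul_mulVec, dotProduct_smul, smul_eq_mul]

theorem qf_pos {A : Mx 3} (hA : PD A) {x : Fin 3 → ℤ} (hx : x ≠ 0) : 0 < qf A x := by
  refine hA.2 _ fun h => hx ?_
  funext i
  have := congrFun h i
  simpa [rv] using this

/-- the body of the loop -/
noncomputable def stepB (iw : ℕ) (v : Vx) (q hx bs : ℕ) (ih : It → It → ℕ → ℕ → ℕ → Bool)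
    (G Bd : It) (F VP VN : ℕ) : Bool :=
  cnd (Nat.beq (Nat.mod (Nat.shiftRight v.zk iw) 2) 1) (ih G Bd
    F VP VN) (cnd (pge6 hx bs) (cnd (pge6 (Nat.mul 671088640 ON) q) ((fun m a =>
    wE 26 20 m q (fun W => wT TG 26 m q (fun W' => ih (.cons q (Nat.mul a W) a m G) Bd F (Nat.add
    VP (Nat.mul a W')) VN) (ih G Bd F VP VN)) (ih G Bd F VP VN)) (mean 6291456 q) (Nat.sub hx
    bs)) (ih G Bd F VP VN)) ((fun a => cnd (pge6 q (Nat.mul 671088640 ON)) (ih G Bd (Nat.add F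
    (Nat.mul (wF (Nat.mul 805306368 ON) q) a)) VP VN) (grid 20 q (fun m1 m2 => cnd (Nat.ble 64
    m1) (cnd (Nat.ble m2 1024) (ih G (.cons q (Nat.mul a (wC UE 26 m1 m2 q)) a m1 Bd) F VP
    (Nat.add VN (Nat.mul a (wC UG 26 m1 m2 q)))) false) false))) (clip bs hx)))

theorem dirL_cons (iw q0 q1 q2 q3 q4 q5 h0 h1 h2 h3 h4 h5 : ℕ)
    (k : It → It → ℕ → ℕ → ℕ → Bool) (v : Vx) (L : Lst) (G Bd : It) (F VP VN : ℕ) :
    dirL iw q0 q1 q2 q3 q4 q5 h0 h1 h2 h3 h4 h5 k (.cons v L) G Bd F VP VN =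
      stepB iw v (ev v q0 q1 q2 q3 q4 q5) (ev v h0 h1 h2 h3 h4 h5)
        (Nat.mul (Nat.mul 1099511627776 v.n) ON)
        (dirL iw q0 q1 q2 q3 q4 q5 h0 h1 h2 h3 h4 h5 k L) G Bd F VP VN := rfl

/-- one step -/
theorem step {l : Fin 6 → ℝ} (h0 : ∀ i, 0 ≤ l i) (h1 : ∑ i, l i = 1) {A H : Mx 3}
    (hA : PD A) {iw q0 q1 q2 q3 q4 q5 h0' h1' h2' h3' h4' h5' : ℕ}
    (hq : SF 0 (2 ^ 33) l ((2 : ℝ) ^ 26 • A) q0 q1 q2 q3 q4 q5)
    (hh : SF (2 ^ 40) (2 ^ 39) l ((2 : ℝ) ^ 26 • H) h0' h1' h2' h3' h4' h5')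
    {v : Vx} (hv : v.OK ∧ v.vec ≠ 0 ∧ (v.zk >>> iw % 2 = 1 → qf H v.vec = 0))
    {ih : It → It → ℕ → ℕ → ℕ → Bool} {n : ℕ} (hn : n < 2 ^ 9) {S : ℝ → ℝ} {G Bd : It}
    {F VP VN : ℕ} (hI : DirI l n S G Bd F VP VN)
    (h : stepB iw v (ev v q0 q1 q2 q3 q4 q5) (ev v h0' h1' h2' h3' h4' h5')
      (Nat.mul (Nat.mul 1099511627776 v.n) ON) ih G Bd F VP VN = true) :
    ∃ G' Bd' F' VP' VN', ih G' Bd' F' VP' VN' = true ∧
      DirI l (n + 1) (fun t => S t + qf H v.vec * Real.exp (-(t * qf A v.vec))) G' Bd' F' VP' VN' := by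
  obtain ⟨hok, hne, hmask⟩ := hv
  have hA0 : 0 < qf A v.vec := qf_pos hA hne
  unfold stepB at h
  rcases cnd_true.mp h with ⟨hb, h⟩ | ⟨-, h⟩
  · -- the mask
    have hz : qf H v.vec = 0 := hmask (Nat.eq_of_beq_eq_true hb)
    exact ⟨G, Bd, F, VP, VN, h, skip hI fun t _ => by rw [hz, zero_mul]⟩
  obtain ⟨rq, eq⟩ := ev_sound hq hok (by norm_num)
  obtain ⟨rh, eh⟩ := ev_sound hh hok (by norm_num)
  generalize ev v q0 q1 q2 q3 q4 q5 = q at *
  generalize ev v h0' h1' h2' h3' h4' h5' = hx at *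
  have hn200 := hok.n200
  have rb : R6 (1099511627776 * v.n) (1099511627776 * v.n) (1099511627776 * v.n * ON) :=
    R6.cst (by omega)
  have eb : lv l (1099511627776 * v.n * ON) = ((1099511627776 * v.n : ℕ) : ℝ) :=
    lv_cst (by omega) h1
  rw [qf_smul] at eq eh
  have e40 : (2 : ℕ) ^ 40 = 1099511627776 := by norm_num
  have e39 : (2 : ℕ) ^ 39 = 549755813888 := by norm_num
  have e33 : (2 : ℕ) ^ 33 = 8589934592 := by norm_num
  have e47 : (2 : ℕ) ^ 47 = 140737488355328 := by norm_num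
  have rq' : R6 0 (2 ^ 41) q := by
    refine rq.up ?_
    rw [e33]
    norm_num
    omega
  have eq' : lv l q = 2 ^ 26 * qf A v.vec := by
    rw [eq]
    push_cast
    ring
  have eh' : lv l hx - lv l (1099511627776 * v.n * ON) = 2 ^ 26 * qf H v.vec := by
    rw [eh, eb]
    push_cast
    norm_num
    ring
  have rT : R6 (10 * 2 ^ 26) (10 * 2 ^ 26) (671088640 * ON) := by
    have := R6.cst (c := 671088640) (by norm_num)
    norm_num
    exact this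
  have h255 : (2 : ℕ) ^ 255 = 2 ^ 208 * 2 ^ 47 := by norm_num
  have hb1 : 1099511627776 * v.n < 2 ^ 255 := by
    rw [h255, e47]
    omega
  have hb2 : v.n * (2 ^ 40 + 2 ^ 39) < 2 ^ 255 := by
    rw [h255, e47, e40, e39]
    omega
  rcases cnd_true.mp h with ⟨hge, h⟩ | ⟨-, h⟩
  · -- good
    have hle : ∀ i, fk (1099511627776 * v.n * ON) (gp i) ≤ fk hx (gp i) :=
      pge6_le rh rb hb2 hb1 hge
    have ra : R6 0 (2 ^ 47) (hx - 1099511627776 * v.n * ON) := by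
      refine (rh.sub rb hle).up ?_
      rw [e47, e40, e39]
      omega
    have ea : lv l (hx - 1099511627776 * v.n * ON) = 2 ^ 26 * qf H v.vec := by
      rw [rh.lv_sub rb hle, eh']
    have hH0 : 0 ≤ qf H v.vec := by
      have h2 := lv_nonneg h0 (hx - 1099511627776 * v.n * ON)
      rw [ea] at h2
      exact nonneg_of_mul_nonneg_right h2 (by positivity)
    have hs : ∀ t : ℝ, 1 ≤ t → 0 ≤ qf H v.vec * Real.exp (-(t * qf A v.vec)) :=
      fun t _ => mul_nonneg hH0 (Real.exp_pos _).le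
    rcases cnd_true.mp h with ⟨hT, h⟩ | ⟨-, h⟩
    · have hqT : ∀ i, fk q (gp i) ≤ fk (671088640 * ON) (gp i) :=
        pge6_le rT rq' (by norm_num) (by norm_num) hT
      have rq2 : R6 0 (10 * 2 ^ 26) q :=
        ⟨rq'.lt, rq'.supp, fun _ => Nat.zero_le _, fun i => (hqT i).trans (rT.hi i)⟩
      have hm : mean 6291456 q ≤ 640 := by
        show q % BM1 / 6291456 ≤ 640
        have h3 := mod_le rq2
        apply Nat.div_le_of_le_mul
        refine h3.trans ?_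
        norm_num
      rcases wE_sound h0 h1 (k := 26) (k' := 20) rfl (by norm_num) rq2 (by norm_num) hm h with
        ⟨W, hW, rW, eW⟩ | h
      · rcases wT_sound_g h0 h1 (k := 26) (by norm_num) rq2 (by norm_num) hm
          (by rw [eq']; positivity) hW with ⟨W', hW', rW', eW'⟩ | h
        · exact ⟨_, _, _, _, _, hW', good h0 h1 hn hI rq2 ra rW rW' hm ea eq' hA0 eW eW'⟩
        · exact ⟨_, _, _, _, _, h, skip hI hs⟩
      · exact ⟨_, _, _, _, _, h, skip hI hs⟩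
    · exact ⟨_, _, _, _, _, h, skip hI hs⟩
  · -- bad
    obtain ⟨rc, ec⟩ := clip_spec rb rh hb1 hb2
    have ra : R6 0 (2 ^ 47) (clip (1099511627776 * v.n * ON) hx) := by
      refine rc.up ?_
      rw [e47, e40, e39]
      omega
    have ea : -(2 ^ 26 * qf H v.vec) ≤ lv l (clip (1099511627776 * v.n * ON) hx) := by
      rw [← eh', neg_sub]
      unfold lv lin
      rw [← Finset.sum_sub_distrib]
      refine Finset.sum_le_sum fun i _ => ?_
      rw [ec i, ← mul_sub]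
      refine mul_le_mul_of_nonneg_left ?_ (h0 i)
      have h4 : fk (1099511627776 * v.n * ON) (gp i) ≤
          fk (1099511627776 * v.n * ON) (gp i) - fk hx (gp i) + fk hx (gp i) := by omega
      have h5 : (fk (1099511627776 * v.n * ON) (gp i) : ℝ) ≤
          ((fk (1099511627776 * v.n * ON) (gp i) - fk hx (gp i) : ℕ) : ℝ) + (fk hx (gp i) : ℝ) := by
        exact_mod_cast h4
      linarith
    rcases cnd_true.mp h with ⟨hT, h⟩ | ⟨-, h⟩
    · -- far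
      have hw := fun (t : ℝ) (ht : 1 ≤ t) => wF_sound h0 h1 (k := 26) (c10 := 671088640)
        (c12 := 805306368) (by norm_num) (by norm_num) (by norm_num) rq' (by norm_num) hT ht
      exact ⟨_, _, _, _, _, h, far h0 hn hI ra (hw 1 le_rfl).1 ea eq' fun t ht => (hw t ht).2⟩
    · obtain ⟨m1, m2, h, hm12, hg, -, -⟩ := grid_spec rq' h
      rcases cnd_true.mp h with ⟨hm1, h⟩ | ⟨-, h⟩
      · rcases cnd_true.mp h with ⟨hm2, h⟩ | ⟨-, h⟩
        · have hm1 := Nat.le_of_ble_eq_true hm1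
          have hm2 := Nat.le_of_ble_eq_true hm2
          obtain ⟨rW, eW⟩ := wC_sound_e h0 h1 (k := 26) (k' := 20) rfl (by norm_num) rq' hm1 hm12
            hm2 hg
          obtain ⟨rW', eW'⟩ := wC_sound_g h0 h1 (k := 26) (k' := 20) rfl (by norm_num) rq' hm1 hm12
            hm2 hg
          exact ⟨_, _, _, _, _, h, bad h0 hn hI (rq'.up (by norm_num)) ra rW rW' hm1 hm2 hg ea eq'
            eW eW'⟩
        · exact absurd h (by simp)
      · exact absurd h (by simp)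

end DirSAux

theorem dirL_sound {l : Fin 6 → ℝ} (h0 : ∀ i, 0 ≤ l i) (h1 : ∑ i, l i = 1) {A H : Mx 3}
    (hA : PD A) {iw q0 q1 q2 q3 q4 q5 h0' h1' h2' h3' h4' h5' : ℕ}
    (hq : SF 0 (2 ^ 33) l ((2 : ℝ) ^ 26 • A) q0 q1 q2 q3 q4 q5)
    (hh : SF (2 ^ 40) (2 ^ 39) l ((2 : ℝ) ^ 26 • H) h0' h1' h2' h3' h4' h5')
    {k : It → It → ℕ → ℕ → ℕ → Bool} (L : Lst)
    (hL : ∀ v ∈ L.toList, v.OK ∧ v.vec ≠ 0 ∧ (v.zk >>> iw % 2 = 1 → qf H v.vec = 0)) :
    ∀ (n : ℕ) (S : ℝ → ℝ) (G Bd : It) (F VP VN : ℕ), n + L.toList.length ≤ 2 ^ 9 →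
      DirI l n S G Bd F VP VN →
      dirL iw q0 q1 q2 q3 q4 q5 h0' h1' h2' h3' h4' h5' k L G Bd F VP VN = true →
      ∃ G' Bd' F' VP' VN', k G' Bd' F' VP' VN' = true ∧
        DirI l (n + L.toList.length)
          (fun t => S t + (L.toList.map fun v => qf H v.vec *
            Real.exp (-(t * qf A v.vec))).sum) G' Bd' F' VP' VN' := by
  induction L with
  | nil =>
    intro n S G Bd F VP VN _ hI h
    refine ⟨G, Bd, F, VP, VN, h, ?_⟩
    rw [Lst.toList_nil]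
    simpa using hI
  | cons v t ih =>
    intro n S G Bd F VP VN hn hI h
    rw [Lst.toList_cons, List.length_cons] at hn
    rw [DirSAux.dirL_cons] at h
    have hv := hL v (by rw [Lst.toList_cons]; exact List.mem_cons_self)
    obtain ⟨G1, Bd1, F1, VP1, VN1, e1, e2⟩ := DirSAux.step h0 h1 hA hq hh hv
      (ih := dirL iw q0 q1 q2 q3 q4 q5 h0' h1' h2' h3' h4' h5' k t) (by omega) hI h
    obtain ⟨G2, Bd2, F2, VP2, VN2, e3, e4⟩ := ih
      (fun u hu => hL u (by rw [Lst.toList_cons]; exact List.mem_cons_of_mem _ hu))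
      (n + 1) _ G1 Bd1 F1 VP1 VN1 (by omega) e2 e1
    refine ⟨G2, Bd2, F2, VP2, VN2, e3, ?_⟩
    rw [Lst.toList_cons, List.length_cons]
    have e5 : n + 1 + t.toList.length = n + (t.toList.length + 1) := by ring
    rw [e5] at e4
    have e6 : (fun s : ℝ => S s + ((v :: t.toList).map fun v => qf H v.vec *
        Real.exp (-(s * qf A v.vec))).sum) = fun s => S s + qf H v.vec *
          Real.exp (-(s * qf A v.vec)) + (t.toList.map fun v => qf H v.vec *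
            Real.exp (-(s * qf A v.vec))).sum := by
      funext s
      rw [List.map_cons, List.sum_cons]
      ring
    rw [e6]
    exact e4

end Pool.Agent.Lib.EPX
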