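import Pool.Agent.Lib.EPX.ItD
import Pool.Agent.Lib.EPX.FmS
import Pool.Agent.Lib.EPX.WtS

/-!
# EPX.DuaS: the loop of the dual side

Induction on the list `L` for all states. `duaL .. (.cons v t) G Bd F` is by definition the
conditional of ChkX (copy the text, proof `rfl`). For the vector `v` let `y = v.vec`,
`dx = ev v d0 .. d5`, `bs = (2 ^ 96 * v.n) * ON`, `bu = (2 ^ 85 * v.n) * ON`, `u' = ev v u0 .. u5`,
`t' = ev v t0 .. t5`. By `ev_sound`: `lv l dx - lv l bs = 2 ^ 60 * qf D y`,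
`lv l u' - lv l bu = 2 ^ 58 * qf U y`, `lv l t' - lv l bu = 2 ^ 58 * qf T y`, the fields of `dx` are in
`[n (2 ^ 96 - 2 ^ 94), n (2 ^ 96 + 2 ^ 94)]` etc.
Cases (`cnd_true` of ChkX, `cases` on the boolean for the others):
* bit of the mask set: `0 ≤ qf H y`.
* good (`pge6 dx bs`): `0 ≤ qf D y ≤ qf H y`; the test `pge6 u' bu` gives `u = u' - bu` (`R6.sub`), fields
  at most `200 * 2 ^ 84 ≤ 2 ^ 92`. Item dropped (not `pge6 T10 u`, or `wE` second branch): contribution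
  `≥ 0`. Otherwise `u ≤ 10 * 2 ^ 58` (fields), `m = mean 27021597764222976 u ≤ 640` (`mod_le`;
  the number is `6 * 2 ^ 52`), `wE_sound`; `a = dx - bs` has fields at most `200 * 2 ^ 94 ≤ 2 ^ 102` and value
  `2 ^ 60 * qf D y`; real item `(qf D y, qf U y)`, `0 < qf P y ≤ qf U y`, and
  `qf H y exp (-(t qf P y)) ≥ qf D y exp (-(t qf U y))`.
* bad: `pge6 t' bu`, `t'' = t' - bu`, `a = clip bs dx` (`clip_spec`): fields at most `2 ^ 102`,
  value `≥ 0` and `≥ -(2 ^ 60 * qf D y)`, so `qf H y ≥ -(lv a / 2 ^ 60)`, and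
  `exp (-(t qf P y)) ≤ exp (-(t qf T y))`. Far (`pge6 t'' T10`): `wF_sound`, `F` grows by `w * a`. Near:
  `grid_spec` (`k' = 52`), `64 ≤ m1`, `m2 ≤ 1024`, `wC_sound_e`; real item `(lv a / 2 ^ 60, qf T y)`.
Bounds: masses `2 * (2 ^ 102 * 2 ^ 103)`, `2 * (2 ^ 102 * 2 ^ 109) ≤ 2 ^ 212`, `F`:
`2 ^ 18 * 2 ^ 102 = 2 ^ 120` for each vector, at most `2 ^ 9` vectors.
-/

open Matrix
open scoped Matrix.Norms.Elementwise

namespace Pool.Agent.Lib.EPX

open Pool.Agent.Lib.EPL Pool.Agent.Lib.EpZ Pool.Agent.Lib.EPS Pool.Agent.Lib.FCC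

/-- the invariant of the dual loop after at most `n` vectors; `S t` the sum over the processed vectors -/
structure DuaI (l : Fin 6 → ℝ) (n : ℕ) (S : ℝ → ℝ) (G Bd : It) (F : ℕ) : Prop where
  hG : ∀ i ∈ G.L, GoodI l 58 (2 ^ 102) i
  hB : ∀ i ∈ Bd.L, BadI l 58 52 (2 ^ 102) i
  nG : G.L.length ≤ n
  nB : Bd.L.length ≤ n
  hF : R6 0 (n * 2 ^ 120) F
  low : ∀ t : ℝ, 1 ≤ t → eS (re l 58 60 G.L) t - eS (re l 58 60 Bd.L) t -
    lv l F / 2 ^ 92 * Real.exp (-((t - 1) * 10)) ≤ S t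

namespace DuaSAux

/-- the good branch of the loop -/
noncomputable def goodB (bs bu dx u' : ℕ) (ih : It → It → ℕ → Bool) (G Bd : It) (F : ℕ) : Bool :=
  cnd (pge6 u' bu) ((fun u => cnd (pge6 (Nat.mul 2882303761517117440 ON) u)
    ((fun m a => wE 58 52 m u (fun W => ih (.cons u (Nat.mul a W) a m G) Bd F)
    (ih G Bd F)) (mean 27021597764222976 u) (Nat.sub dx bs)) (ih G Bd F)) (Nat.sub u' bu)) false

/-- the bad branch of the loop -/
noncomputable def badB (bs bu dx t' : ℕ) (ih : It → It → ℕ → Bool) (G Bd : It) (F : ℕ) : Bool :=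
  cnd (pge6 t' bu) ((fun t a => cnd (pge6 t (Nat.mul 2882303761517117440 ON))
    (ih G Bd (Nat.add F (Nat.mul (wF (Nat.mul 3458764513820540928 ON) t) a)))
    (grid 52 t (fun m1 m2 => cnd (Nat.ble 64 m1) (cnd (Nat.ble m2 1024)
    (ih G (.cons t (Nat.mul a (wC UE 58 m1 m2 t)) a m1 Bd) F) false) false)))
    (Nat.sub t' bu) (clip bs dx)) false

/-- the loop -/
theorem duaL_cons (iz u0 u1 u2 u3 u4 u5 t0 t1 t2 t3 t4 t5 d0 d1 d2 d3 d4 d5 : ℕ)
    (k : It → It → ℕ → Bool) (v : Vx) (L : Lst) (G Bd : It) (F : ℕ) :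
    duaL iz u0 u1 u2 u3 u4 u5 t0 t1 t2 t3 t4 t5 d0 d1 d2 d3 d4 d5 k (.cons v L) G Bd F =
      cnd (Nat.beq (Nat.mod (Nat.shiftRight v.zk iz) 2) 1)
        (duaL iz u0 u1 u2 u3 u4 u5 t0 t1 t2 t3 t4 t5 d0 d1 d2 d3 d4 d5 k L G Bd F)
        (cnd (pge6 (ev v d0 d1 d2 d3 d4 d5)
          (Nat.mul (Nat.mul 79228162514264337593543950336 v.n) ON))
        (goodB (Nat.mul (Nat.mul 79228162514264337593543950336 v.n) ON)
          (Nat.mul (Nat.mul 38685626227668133590597632 v.n) ON) (ev v d0 d1 d2 d3 d4 d5)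
          (ev v u0 u1 u2 u3 u4 u5)
          (duaL iz u0 u1 u2 u3 u4 u5 t0 t1 t2 t3 t4 t5 d0 d1 d2 d3 d4 d5 k L) G Bd F)
        (badB (Nat.mul (Nat.mul 79228162514264337593543950336 v.n) ON)
          (Nat.mul (Nat.mul 38685626227668133590597632 v.n) ON) (ev v d0 d1 d2 d3 d4 d5)
          (ev v t0 t1 t2 t3 t4 t5)
          (duaL iz u0 u1 u2 u3 u4 u5 t0 t1 t2 t3 t4 t5 d0 d1 d2 d3 d4 d5 k L) G Bd F)) := rfl

/-! ### the four changes of the state -/

theorem hF_up {F n : ℕ} (h : R6 0 (n * 2 ^ 120) F) : R6 0 ((n + 1) * 2 ^ 120) F :=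
  h.up (Nat.mul_le_mul_right _ (Nat.le_succ n))

theorem skip {l : Fin 6 → ℝ} {n : ℕ} {S c : ℝ → ℝ} {G Bd : It} {F : ℕ} (h : DuaI l n S G Bd F)
    (hc : ∀ t : ℝ, 1 ≤ t → 0 ≤ c t) : DuaI l (n + 1) (fun t => S t + c t) G Bd F := by
  obtain ⟨a1, a2, a3, a4, a5, a6⟩ := h
  refine ⟨a1, a2, a3.trans (Nat.le_succ n), a4.trans (Nat.le_succ n), hF_up a5, fun t ht => ?_⟩
  have h1 := a6 t ht
  have h2 := hc t ht
  show _ ≤ S t + c t
  linarith

theorem eS_cons (l : Fin 6 → ℝ) (i : IT) (I : List IT) (t : ℝ) :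
    eS (re l 58 60 (i :: I)) t =
      lv l i.a / 2 ^ 60 * Real.exp (-(t * (lv l i.q / 2 ^ 58))) + eS (re l 58 60 I) t := by
  simp [eS, re]

theorem addG {l : Fin 6 → ℝ} {n : ℕ} {S c : ℝ → ℝ} {G Bd : It} {F q p a m : ℕ}
    (h : DuaI l n S G Bd F) (hi : GoodI l 58 (2 ^ 102) ⟨q, p, a, m⟩)
    (hc : ∀ t : ℝ, 1 ≤ t → lv l a / 2 ^ 60 * Real.exp (-(t * (lv l q / 2 ^ 58))) ≤ c t) :
    DuaI l (n + 1) (fun t => S t + c t) (.cons q p a m G) Bd F := by
  obtain ⟨a1, a2, a3, a4, a5, a6⟩ := h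
  refine ⟨?_, a2, ?_, a4.trans (Nat.le_succ n), hF_up a5, fun t ht => ?_⟩
  · intro i hi'
    rw [It.L_cons, List.mem_cons] at hi'
    rcases hi' with rfl | hi'
    · exact hi
    · exact a1 i hi'
  · rw [It.L_cons, List.length_cons]
    exact Nat.succ_le_succ a3
  · have h1 := a6 t ht
    have h2 := hc t ht
    rw [It.L_cons, eS_cons]
    show _ ≤ S t + c t
    dsimp only
    linarith

theorem addB {l : Fin 6 → ℝ} {n : ℕ} {S c : ℝ → ℝ} {G Bd : It} {F q p a m : ℕ}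
    (h : DuaI l n S G Bd F) (hi : BadI l 58 52 (2 ^ 102) ⟨q, p, a, m⟩)
    (hc : ∀ t : ℝ, 1 ≤ t → -(lv l a / 2 ^ 60 * Real.exp (-(t * (lv l q / 2 ^ 58)))) ≤ c t) :
    DuaI l (n + 1) (fun t => S t + c t) G (.cons q p a m Bd) F := by
  obtain ⟨a1, a2, a3, a4, a5, a6⟩ := h
  refine ⟨a1, ?_, a3.trans (Nat.le_succ n), ?_, hF_up a5, fun t ht => ?_⟩
  · intro i hi'
    rw [It.L_cons, List.mem_cons] at hi'
    rcases hi' with rfl | hi'
    · exact hi
    · exact a2 i hi'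
  · rw [It.L_cons, List.length_cons]
    exact Nat.succ_le_succ a4
  · have h1 := a6 t ht
    have h2 := hc t ht
    rw [It.L_cons, eS_cons]
    show _ ≤ S t + c t
    dsimp only
    linarith

theorem addF {l : Fin 6 → ℝ} {n : ℕ} {S c : ℝ → ℝ} {G Bd : It} {F w a : ℕ} (hn : n < 2 ^ 9)
    (h : DuaI l n S G Bd F) (hw : w < 2 ^ 18) (ha : R6 0 (2 ^ 102) a)
    (hc : ∀ t : ℝ, 1 ≤ t → -((w : ℝ) * lv l a / 2 ^ 92 * Real.exp (-((t - 1) * 10))) ≤ c t) :
    DuaI l (n + 1) (fun t => S t + c t) G Bd (Nat.add F (Nat.mul w a)) := by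
  obtain ⟨a1, a2, a3, a4, a5, a6⟩ := h
  have hp : (2 : ℕ) ^ 18 * 2 ^ 102 = 2 ^ 120 := by rw [← pow_add]
  have hwa : w * 2 ^ 102 ≤ 2 ^ 120 := by
    rw [← hp]
    exact Nat.mul_le_mul_right _ hw.le
  have hp2 : (2 : ℕ) ^ 9 * 2 ^ 120 < 2 ^ 256 := by
    rw [← pow_add]
    exact Nat.pow_lt_pow_right (by norm_num) (by norm_num)
  have hn1 : (n + 1) * 2 ^ 120 ≤ 2 ^ 9 * 2 ^ 120 := Nat.mul_le_mul_right _ hn
  have hn2 : (n + 1) * 2 ^ 120 = n * 2 ^ 120 + 2 ^ 120 := Nat.succ_mul _ _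
  have h256 : (2 : ℕ) ^ 120 < 2 ^ 256 := Nat.pow_lt_pow_right (by norm_num) (by norm_num)
  have hX : n * 2 ^ 120 + 2 ^ 120 < 2 ^ 256 := by
    rw [← hn2]
    exact lt_of_le_of_lt hn1 hp2
  have m1 : R6 0 (w * 2 ^ 102) (w * a) := by
    have := ha.mul w (lt_of_le_of_lt hwa h256)
    rwa [mul_zero] at this
  have m2 : R6 0 (2 ^ 120) (w * a) := m1.up hwa
  have m3 : R6 0 ((n + 1) * 2 ^ 120) (F + w * a) := by
    have := a5.add m2 hX
    rw [hn2]
    exact this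
  have m4 : lv l (F + w * a) = lv l F + w * lv l a := by
    rw [a5.lv_add m2 hX l, ha.lv_mul w (lt_of_le_of_lt hwa h256) l]
  refine ⟨a1, a2, a3.trans (Nat.le_succ n), a4.trans (Nat.le_succ n), m3, fun t ht => ?_⟩
  have h1 := a6 t ht
  have h2 := hc t ht
  show _ - _ - lv l (F + w * a) / 2 ^ 92 * _ ≤ S t + c t
  rw [m4]
  have e : (lv l F + (w : ℝ) * lv l a) / 2 ^ 92 * Real.exp (-((t - 1) * 10)) =
      lv l F / 2 ^ 92 * Real.exp (-((t - 1) * 10)) +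
        (w : ℝ) * lv l a / 2 ^ 92 * Real.exp (-((t - 1) * 10)) := by ring
  rw [e]
  linarith

/-! ### numbers -/

theorem n96 {n : ℕ} (hn : n ≤ 200) : 79228162514264337593543950336 * n < 2 ^ 255 := by
  calc 79228162514264337593543950336 * n ≤ 79228162514264337593543950336 * 200 :=
        Nat.mul_le_mul_left _ hn
    _ < 2 ^ 255 := by norm_num

theorem n85 {n : ℕ} (hn : n ≤ 200) : 38685626227668133590597632 * n < 2 ^ 255 := by
  calc 38685626227668133590597632 * n ≤ 38685626227668133590597632 * 200 :=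
        Nat.mul_le_mul_left _ hn
    _ < 2 ^ 255 := by norm_num

/-- the comparison of exponentials -/
theorem cmp_good {D H P U t : ℝ} (hD : 0 ≤ D) (hDH : D ≤ H) (hPU : P ≤ U) (ht : 1 ≤ t) :
    D * Real.exp (-(t * U)) ≤ H * Real.exp (-(t * P)) := by
  have h1 : Real.exp (-(t * U)) ≤ Real.exp (-(t * P)) := by
    refine Real.exp_le_exp.mpr ?_
    have := mul_le_mul_of_nonneg_left hPU (by linarith : (0 : ℝ) ≤ t)
    linarith
  exact mul_le_mul hDH h1 (Real.exp_pos _).le (hD.trans hDH)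

theorem cmp_bad {A H P T t : ℝ} (hA : 0 ≤ A) (hAH : -A ≤ H) (hTP : T ≤ P) (ht : 1 ≤ t) :
    -(A * Real.exp (-(t * T))) ≤ H * Real.exp (-(t * P)) := by
  have h1 : Real.exp (-(t * P)) ≤ Real.exp (-(t * T)) := by
    refine Real.exp_le_exp.mpr ?_
    have := mul_le_mul_of_nonneg_left hTP (by linarith : (0 : ℝ) ≤ t)
    linarith
  have h2 : A * Real.exp (-(t * P)) ≤ A * Real.exp (-(t * T)) := mul_le_mul_of_nonneg_left h1 hA
  have h3 : -A * Real.exp (-(t * P)) ≤ H * Real.exp (-(t * P)) :=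
    mul_le_mul_of_nonneg_right hAH (Real.exp_pos _).le
  linarith

/-- a form with offset `2 ^ 85`, after subtraction of the offset -/
theorem off85 {l : Fin 6 → ℝ} (h0 : ∀ i, 0 ≤ l i) (h1 : ∑ i, l i = 1) {v : Vx} (hv : v.OK)
    {M : Mx 3} {f0 f1 f2 f3 f4 f5 : ℕ}
    (hf : SF (2 ^ 85) (2 ^ 84) l ((2 : ℝ) ^ 58 • M) f0 f1 f2 f3 f4 f5)
    (h : pge6 (ev v f0 f1 f2 f3 f4 f5) (Nat.mul (Nat.mul 38685626227668133590597632 v.n) ON) = true) :
    R6 0 (2 ^ 92) (Nat.sub (ev v f0 f1 f2 f3 f4 f5)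
      (Nat.mul (Nat.mul 38685626227668133590597632 v.n) ON)) ∧
    lv l (Nat.sub (ev v f0 f1 f2 f3 f4 f5)
      (Nat.mul (Nat.mul 38685626227668133590597632 v.n) ON)) = 2 ^ 58 * qf M v.vec := by
  have hn := hv.n200
  obtain ⟨e1, e2⟩ := ev_sound hf hv (by norm_num)
  have hb : R6 (38685626227668133590597632 * v.n) (38685626227668133590597632 * v.n)
      (38685626227668133590597632 * v.n * ON) := R6.cst ((n85 hn).trans (by norm_num))
  have hu : v.n * (2 ^ 85 + 2 ^ 84) < 2 ^ 255 := by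
    calc v.n * (2 ^ 85 + 2 ^ 84) ≤ 200 * (2 ^ 85 + 2 ^ 84) := Nat.mul_le_mul_right _ hn
      _ < 2 ^ 255 := by norm_num
  have hle : ∀ i, fk (38685626227668133590597632 * v.n * ON) (gp i) ≤
      fk (ev v f0 f1 f2 f3 f4 f5) (gp i) := pge6_le e1 hb hu (n85 hn) h
  have hs := e1.sub hb hle
  have hlv := e1.lv_sub hb hle l
  refine ⟨hs.mono (Nat.zero_le _) ?_, ?_⟩
  · have e3 : v.n * (2 ^ 85 + 2 ^ 84) = 38685626227668133590597632 * v.n + v.n * 2 ^ 84 := by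
      have : (2 : ℕ) ^ 85 = 38685626227668133590597632 := by norm_num
      rw [this]; ring
    rw [e3, Nat.add_sub_cancel_left]
    calc v.n * 2 ^ 84 ≤ 200 * 2 ^ 84 := Nat.mul_le_mul_right _ hn
      _ ≤ 2 ^ 92 := by norm_num
  · show lv l (ev v f0 f1 f2 f3 f4 f5 - 38685626227668133590597632 * v.n * ON) = _
    rw [hlv, e2, lv_cst ((n85 hn).trans (by norm_num)) h1, qf_smul]
    push_cast
    ring

/-- the coefficient -/
theorem off96 {l : Fin 6 → ℝ} (h1 : ∑ i, l i = 1) {v : Vx} (hv : v.OK)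
    {M : Mx 3} {f0 f1 f2 f3 f4 f5 : ℕ}
    (hf : SF (2 ^ 96) (2 ^ 94) l ((2 : ℝ) ^ 60 • M) f0 f1 f2 f3 f4 f5) :
    R6 (v.n * (2 ^ 96 - 2 ^ 94)) (v.n * (2 ^ 96 + 2 ^ 94)) (ev v f0 f1 f2 f3 f4 f5) ∧
    R6 (79228162514264337593543950336 * v.n) (79228162514264337593543950336 * v.n)
      (79228162514264337593543950336 * v.n * ON) ∧ v.n * (2 ^ 96 + 2 ^ 94) < 2 ^ 255 ∧
    lv l (ev v f0 f1 f2 f3 f4 f5) = lv l (79228162514264337593543950336 * v.n * ON) +
      2 ^ 60 * qf M v.vec := by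
  have hn := hv.n200
  obtain ⟨e1, e2⟩ := ev_sound hf hv (by norm_num)
  have hb : R6 (79228162514264337593543950336 * v.n) (79228162514264337593543950336 * v.n)
      (79228162514264337593543950336 * v.n * ON) := R6.cst ((n96 hn).trans (by norm_num))
  have hu : v.n * (2 ^ 96 + 2 ^ 94) < 2 ^ 255 := by
    calc v.n * (2 ^ 96 + 2 ^ 94) ≤ 200 * (2 ^ 96 + 2 ^ 94) := Nat.mul_le_mul_right _ hn
      _ < 2 ^ 255 := by norm_num
  refine ⟨e1, hb, hu, ?_⟩
  rw [e2, lv_cst ((n96 hn).trans (by norm_num)) h1, qf_smul]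
  push_cast
  ring

theorem mean_le {u : ℕ} (hu : R6 0 (10 * 2 ^ 58) u) : mean 27021597764222976 u ≤ 640 := by
  have h := mod_le hu
  show (u % BM1) / 27021597764222976 ≤ 640
  calc (u % BM1) / 27021597764222976 ≤ (6 * (10 * 2 ^ 58)) / 27021597764222976 :=
        Nat.div_le_div_right h
    _ ≤ 640 := by norm_num

/-- the good branch -/
theorem good_sound {l : Fin 6 → ℝ} (h0 : ∀ i, 0 ≤ l i) (h1 : ∑ i, l i = 1) {P H U D : Mx 3}
    {v : Vx} (hv : v.OK) {u0 u1 u2 u3 u4 u5 d0 d1 d2 d3 d4 d5 : ℕ}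
    (hu : SF (2 ^ 85) (2 ^ 84) l ((2 : ℝ) ^ 58 • U) u0 u1 u2 u3 u4 u5)
    (hd : SF (2 ^ 96) (2 ^ 94) l ((2 : ℝ) ^ 60 • D) d0 d1 d2 d3 d4 d5)
    (hP : 0 < qf P v.vec) (hPU : qf P v.vec ≤ qf U v.vec) (hDH : qf D v.vec ≤ qf H v.vec)
    {ih : It → It → ℕ → Bool} {n : ℕ} {S : ℝ → ℝ} {G Bd : It} {F : ℕ}
    (hI : DuaI l n S G Bd F)
    (hg : pge6 (ev v d0 d1 d2 d3 d4 d5) (Nat.mul (Nat.mul 79228162514264337593543950336 v.n) ON) = true)
    (h : goodB (Nat.mul (Nat.mul 79228162514264337593543950336 v.n) ON)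
          (Nat.mul (Nat.mul 38685626227668133590597632 v.n) ON) (ev v d0 d1 d2 d3 d4 d5)
          (ev v u0 u1 u2 u3 u4 u5) ih G Bd F = true) :
    ∃ G' Bd' F', ih G' Bd' F' = true ∧
      DuaI l (n + 1) (fun t => S t + qf H v.vec * Real.exp (-(t * qf P v.vec))) G' Bd' F' := by
  obtain ⟨d1', d2', d3', d4'⟩ := off96 h1 hv hd
  generalize hdx : ev v d0 d1 d2 d3 d4 d5 = dx at *
  generalize hbs : Nat.mul (Nat.mul 79228162514264337593543950336 v.n) ON = bs at *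
  have hbs' : 79228162514264337593543950336 * v.n * ON = bs := hbs
  rw [hbs'] at d2' d4'
  have hle := pge6_le d1' d2' d3' (n96 hv.n200) hg
  have hqD : 0 ≤ qf D v.vec := by
    have h2 := lv_mono h0 hle
    rw [d4'] at h2
    have h3 : (0 : ℝ) < 2 ^ 60 := by positivity
    by_contra hcon
    push Not at hcon
    have := mul_neg_of_pos_of_neg h3 hcon
    linarith
  have hskip : DuaI l (n + 1) (fun t => S t + qf H v.vec * Real.exp (-(t * qf P v.vec))) G Bd F :=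
    skip hI fun t _ => mul_nonneg (hqD.trans hDH) (Real.exp_pos _).le
  have h' : cnd (pge6 (ev v u0 u1 u2 u3 u4 u5)
        (Nat.mul (Nat.mul 38685626227668133590597632 v.n) ON))
      (cnd (pge6 (Nat.mul 2882303761517117440 ON) (Nat.sub (ev v u0 u1 u2 u3 u4 u5)
          (Nat.mul (Nat.mul 38685626227668133590597632 v.n) ON)))
        (wE 58 52 (mean 27021597764222976 (Nat.sub (ev v u0 u1 u2 u3 u4 u5)
          (Nat.mul (Nat.mul 38685626227668133590597632 v.n) ON)))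
          (Nat.sub (ev v u0 u1 u2 u3 u4 u5) (Nat.mul (Nat.mul 38685626227668133590597632 v.n) ON))
          (fun W => ih (.cons (Nat.sub (ev v u0 u1 u2 u3 u4 u5)
            (Nat.mul (Nat.mul 38685626227668133590597632 v.n) ON))
            (Nat.mul (Nat.sub dx bs) W) (Nat.sub dx bs) (mean 27021597764222976
              (Nat.sub (ev v u0 u1 u2 u3 u4 u5)
                (Nat.mul (Nat.mul 38685626227668133590597632 v.n) ON))) G) Bd F) (ih G Bd F))
        (ih G Bd F)) false = true := h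
  rw [cnd_and] at h'
  obtain ⟨hp, h''⟩ := h'
  obtain ⟨u1', u2'⟩ := off85 h0 h1 hv hu hp
  generalize hue : Nat.sub (ev v u0 u1 u2 u3 u4 u5)
    (Nat.mul (Nat.mul 38685626227668133590597632 v.n) ON) = u at *
  rcases cnd_true.mp h'' with ⟨hT, hw⟩ | ⟨-, hi⟩
  swap
  · exact ⟨G, Bd, F, hi, hskip⟩
  -- the length is at most `10`
  have hTc : R6 2882303761517117440 2882303761517117440 (2882303761517117440 * ON) :=
    R6.cst (by norm_num)
  have hle2 := pge6_le hTc u1' (by norm_num) (by norm_num) hT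
  have hu10 : R6 0 (10 * 2 ^ 58) u := by
    refine ⟨u1'.lt, u1'.supp, fun i => Nat.zero_le _, fun i => ?_⟩
    refine (hle2 i).trans ((hTc.hi i).trans ?_)
    norm_num
  have hm := mean_le hu10
  rcases wE_sound h0 h1 (by norm_num) (by norm_num) hu10 (by norm_num) hm hw with ⟨W, hW, W1, W2⟩ | hi
  swap
  · exact ⟨G, Bd, F, hi, hskip⟩
  have ha : R6 0 (2 ^ 102) (Nat.sub dx bs) := by
    refine (d1'.sub d2' hle).mono (Nat.zero_le _) ?_
    have e3 : v.n * (2 ^ 96 + 2 ^ 94) = 79228162514264337593543950336 * v.n + v.n * 2 ^ 94 := by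
      have : (2 : ℕ) ^ 96 = 79228162514264337593543950336 := by norm_num
      rw [this]; ring
    rw [e3, Nat.add_sub_cancel_left]
    calc v.n * 2 ^ 94 ≤ 200 * 2 ^ 94 := Nat.mul_le_mul_right _ hv.n200
      _ ≤ 2 ^ 102 := by norm_num
  have hav : lv l (Nat.sub dx bs) = 2 ^ 60 * qf D v.vec := by
    have h3 : lv l (dx - bs) = lv l dx - lv l bs := d1'.lv_sub d2' hle l
    show lv l (dx - bs) = _
    rw [h3, d4']
    ring
  have hupos : 0 < lv l u := by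
    rw [u2']
    have : 0 < qf U v.vec := hP.trans_le hPU
    positivity
  have h58 : lv l u / 2 ^ 58 = qf U v.vec := by
    rw [u2']
    field_simp
  have h60 : lv l (Nat.sub dx bs) / 2 ^ 60 = qf D v.vec := by
    rw [hav]
    field_simp
  refine ⟨_, _, _, hW, addG hI ⟨u1'.up (by norm_num), ha, ?_, hm, hupos, ?_, ?_⟩ fun t ht => ?_⟩
  · refine (ha.prod W1 ?_).mono ?_
    · rw [← pow_add, ← pow_succ']
      exact Nat.pow_lt_pow_right (by norm_num) (by norm_num)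
    · rw [← pow_add, ← pow_succ']
      exact Nat.pow_le_pow_right (by norm_num) (by norm_num)
  · have := hu10.lv_le h0 h1
    have e : ((10 * 2 ^ 58 : ℕ) : ℝ) = 10 * 2 ^ 58 := by
      rw [Nat.cast_mul, Nat.cast_pow]
      norm_num
    rw [e] at this
    exact this
  · show qv l (Nat.sub dx bs * W) ≤ _
    rw [ha.qv_prod W1 (by
      rw [← pow_add, ← pow_succ']
      exact Nat.pow_lt_pow_right (by norm_num) (by norm_num)) l]
    exact mul_le_mul_of_nonneg_left W2 (lv_nonneg h0 _)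
  · rw [h58, h60]
    exact cmp_good hqD hDH hPU ht

/-- the bad branch -/
theorem bad_sound {l : Fin 6 → ℝ} (h0 : ∀ i, 0 ≤ l i) (h1 : ∑ i, l i = 1) {P H T D : Mx 3}
    {v : Vx} (hv : v.OK) {t0 t1 t2 t3 t4 t5 d0 d1 d2 d3 d4 d5 : ℕ}
    (hu : SF (2 ^ 85) (2 ^ 84) l ((2 : ℝ) ^ 58 • T) t0 t1 t2 t3 t4 t5)
    (hd : SF (2 ^ 96) (2 ^ 94) l ((2 : ℝ) ^ 60 • D) d0 d1 d2 d3 d4 d5)
    (hTP : qf T v.vec ≤ qf P v.vec) (hDH : qf D v.vec ≤ qf H v.vec)
    {ih : It → It → ℕ → Bool} {n : ℕ} {S : ℝ → ℝ} {G Bd : It} {F : ℕ} (hn : n < 2 ^ 9)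
    (hI : DuaI l n S G Bd F)
    (h : badB (Nat.mul (Nat.mul 79228162514264337593543950336 v.n) ON)
          (Nat.mul (Nat.mul 38685626227668133590597632 v.n) ON) (ev v d0 d1 d2 d3 d4 d5)
          (ev v t0 t1 t2 t3 t4 t5) ih G Bd F = true) :
    ∃ G' Bd' F', ih G' Bd' F' = true ∧
      DuaI l (n + 1) (fun t => S t + qf H v.vec * Real.exp (-(t * qf P v.vec))) G' Bd' F' := by
  obtain ⟨d1', d2', d3', d4'⟩ := off96 h1 hv hd
  generalize hdx : ev v d0 d1 d2 d3 d4 d5 = dx at *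
  generalize hbs : Nat.mul (Nat.mul 79228162514264337593543950336 v.n) ON = bs at *
  have hbs' : 79228162514264337593543950336 * v.n * ON = bs := hbs
  rw [hbs'] at d2' d4'
  obtain ⟨c1, c2⟩ := clip_spec d2' d1' (n96 hv.n200) d3'
  have ha : R6 0 (2 ^ 102) (clip bs dx) := by
    refine c1.mono (Nat.zero_le _) ?_
    have e3 : 79228162514264337593543950336 * v.n = v.n * (2 ^ 96 - 2 ^ 94) + v.n * 2 ^ 94 := by
      rw [← Nat.mul_add]
      have : (2 : ℕ) ^ 96 - 2 ^ 94 + 2 ^ 94 = 79228162514264337593543950336 := by norm_num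
      rw [this]; ring
    rw [e3, Nat.add_sub_cancel_left]
    calc v.n * 2 ^ 94 ≤ 200 * 2 ^ 94 := Nat.mul_le_mul_right _ hv.n200
      _ ≤ 2 ^ 102 := by norm_num
  have hclip : lv l bs - lv l dx ≤ lv l (clip bs dx) := by
    unfold lv lin
    rw [← Finset.sum_sub_distrib]
    refine Finset.sum_le_sum fun i _ => ?_
    rw [← mul_sub]
    refine mul_le_mul_of_nonneg_left ?_ (h0 i)
    rw [c2 i]
    have := Nat.sub_le (fk bs (gp i)) (fk dx (gp i))
    have h3 : fk bs (gp i) ≤ fk bs (gp i) - fk dx (gp i) + fk dx (gp i) := by omega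
    have h4 : (fk bs (gp i) : ℝ) ≤ ((fk bs (gp i) - fk dx (gp i) : ℕ) : ℝ) + fk dx (gp i) := by
      exact_mod_cast h3
    linarith
  have hA0 : 0 ≤ lv l (clip bs dx) / 2 ^ 60 := div_nonneg (lv_nonneg h0 _) (by positivity)
  have hAH : -(lv l (clip bs dx) / 2 ^ 60) ≤ qf H v.vec := by
    refine le_trans ?_ hDH
    rw [d4'] at hclip
    have h3 : (0 : ℝ) < 2 ^ 60 := by positivity
    rw [neg_le, div_eq_mul_inv]
    have h4 : -(2 ^ 60 * qf D v.vec) ≤ lv l (clip bs dx) := by linarith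
    calc -qf D v.vec = -(2 ^ 60 * qf D v.vec) * (2 ^ 60)⁻¹ := by field_simp
      _ ≤ lv l (clip bs dx) * (2 ^ 60)⁻¹ := mul_le_mul_of_nonneg_right h4 (by positivity)
  have h' : cnd (pge6 (ev v t0 t1 t2 t3 t4 t5)
        (Nat.mul (Nat.mul 38685626227668133590597632 v.n) ON))
      (cnd (pge6 (Nat.sub (ev v t0 t1 t2 t3 t4 t5)
          (Nat.mul (Nat.mul 38685626227668133590597632 v.n) ON)) (Nat.mul 2882303761517117440 ON))
        (ih G Bd (Nat.add F (Nat.mul (wF (Nat.mul 3458764513820540928 ON)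
          (Nat.sub (ev v t0 t1 t2 t3 t4 t5)
          (Nat.mul (Nat.mul 38685626227668133590597632 v.n) ON))) (clip bs dx))))
        (grid 52 (Nat.sub (ev v t0 t1 t2 t3 t4 t5)
          (Nat.mul (Nat.mul 38685626227668133590597632 v.n) ON))
          (fun m1 m2 => cnd (Nat.ble 64 m1) (cnd (Nat.ble m2 1024)
          (ih G (.cons (Nat.sub (ev v t0 t1 t2 t3 t4 t5)
          (Nat.mul (Nat.mul 38685626227668133590597632 v.n) ON)) (Nat.mul (clip bs dx)
            (wC UE 58 m1 m2 (Nat.sub (ev v t0 t1 t2 t3 t4 t5)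
          (Nat.mul (Nat.mul 38685626227668133590597632 v.n) ON)))) (clip bs dx) m1 Bd) F)
          false) false))) false = true := h
  rw [cnd_and] at h'
  obtain ⟨hp, h''⟩ := h'
  obtain ⟨u1', u2'⟩ := off85 h0 h1 hv hu hp
  generalize hue : Nat.sub (ev v t0 t1 t2 t3 t4 t5)
    (Nat.mul (Nat.mul 38685626227668133590597632 v.n) ON) = t at *
  have h58 : lv l t / 2 ^ 58 = qf T v.vec := by
    rw [u2']
    field_simp
  rcases cnd_true.mp h'' with ⟨hT, hi⟩ | ⟨-, hg⟩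
  · -- far
    refine ⟨_, _, _, hi, addF hn hI (wF_sound h0 h1 (k := 58) (c10 := 2882303761517117440)
      (c12 := 3458764513820540928) (by norm_num) (by norm_num) (by norm_num) u1' (by norm_num) hT
      (t := 1) le_rfl).1 ha fun τ hτ => ?_⟩
    have hw := (wF_sound h0 h1 (k := 58) (c10 := 2882303761517117440)
      (c12 := 3458764513820540928) (by norm_num) (by norm_num) (by norm_num) u1' (by norm_num) hT
      hτ).2
    generalize wF (Nat.mul 3458764513820540928 ON) t = w at *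
    have hb := cmp_bad hA0 hAH hTP hτ
    refine le_trans ?_ hb
    rw [h58] at hw
    rw [neg_le_neg_iff]
    have e1 : lv l (clip bs dx) / 2 ^ 60 * Real.exp (-(τ * qf T v.vec)) =
        lv l (clip bs dx) / 2 ^ 92 * (2 ^ 32 * Real.exp (-(τ * qf T v.vec))) := by
      have : (2 : ℝ) ^ 92 = 2 ^ 60 * 2 ^ 32 := by norm_num
      rw [this]
      field_simp
    rw [e1]
    have e2 : (w : ℝ) * lv l (clip bs dx) / 2 ^ 92 * Real.exp (-((τ - 1) * 10)) =
        lv l (clip bs dx) / 2 ^ 92 * ((w : ℝ) * Real.exp (-((τ - 1) * 10))) := by ring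
    rw [e2]
    exact mul_le_mul_of_nonneg_left hw (div_nonneg (lv_nonneg h0 _) (by positivity))
  · -- near
    obtain ⟨m1, m2, hf, g1, g2, -, -⟩ := grid_spec u1' hg
    have hf' : cnd (Nat.ble 64 m1) (cnd (Nat.ble m2 1024)
          (ih G (.cons t (Nat.mul (clip bs dx) (wC UE 58 m1 m2 t)) (clip bs dx) m1 Bd) F)
          false) false = true := hf
    rw [cnd_and, cnd_and] at hf'
    obtain ⟨f1, f2, hi⟩ := hf'
    have f1 := Nat.le_of_ble_eq_true f1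
    have f2 := Nat.le_of_ble_eq_true f2
    obtain ⟨W1, W2⟩ := wC_sound_e h0 h1 (k := 58) (k' := 52) (by norm_num) (by norm_num) u1' f1 g1 f2 g2
    refine ⟨_, _, _, hi, addB hI ⟨u1'.up (by norm_num), ha, ?_, ?_, ?_, f1, fun j => (g2 j).1, ?_⟩
      fun τ hτ => ?_⟩
    · refine (ha.prod W1 ?_).mono ?_
      · rw [← pow_add, ← pow_succ']
        exact Nat.pow_lt_pow_right (by norm_num) (by norm_num)
      · rw [← pow_add, ← pow_succ']
    · intro j
      exact (Nat.mul_le_mul_right _ f1).trans (g2 j).1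
    · intro j
      exact (g2 j).2.trans_le (Nat.mul_le_mul_right _ f2)
    · show _ ≤ qv l (clip bs dx * wC UE 58 m1 m2 t)
      rw [ha.qv_prod W1 (by
        rw [← pow_add, ← pow_succ']
        exact Nat.pow_lt_pow_right (by norm_num) (by norm_num)) l]
      exact mul_le_mul_of_nonneg_left W2 (lv_nonneg h0 _)
    · rw [h58]
      exact cmp_bad hA0 hAH hTP hτ

end DuaSAux

open DuaSAux

theorem duaL_sound {l : Fin 6 → ℝ} (h0 : ∀ i, 0 ≤ l i) (h1 : ∑ i, l i = 1) {P H U T D : Mx 3}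
    (hP : PD P) {iz u0 u1 u2 u3 u4 u5 t0 t1 t2 t3 t4 t5 d0 d1 d2 d3 d4 d5 : ℕ}
    (hu : SF (2 ^ 85) (2 ^ 84) l ((2 : ℝ) ^ 58 • U) u0 u1 u2 u3 u4 u5)
    (ht : SF (2 ^ 85) (2 ^ 84) l ((2 : ℝ) ^ 58 • T) t0 t1 t2 t3 t4 t5)
    (hd : SF (2 ^ 96) (2 ^ 94) l ((2 : ℝ) ^ 60 • D) d0 d1 d2 d3 d4 d5)
    (hTP : ∀ y : Fin 3 → ℤ, qf T y ≤ qf P y) (hPU : ∀ y : Fin 3 → ℤ, qf P y ≤ qf U y)
    (hDH : ∀ y : Fin 3 → ℤ, qf D y ≤ qf H y) {k : It → It → ℕ → Bool} (L : Lst)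
    (hL : ∀ v ∈ L.toList, v.OK ∧ v.vec ≠ 0 ∧ (v.zk >>> iz % 2 = 1 → 0 ≤ qf H v.vec)) :
    ∀ (n : ℕ) (S : ℝ → ℝ) (G Bd : It) (F : ℕ), n + L.toList.length ≤ 2 ^ 9 →
      DuaI l n S G Bd F →
      duaL iz u0 u1 u2 u3 u4 u5 t0 t1 t2 t3 t4 t5 d0 d1 d2 d3 d4 d5 k L G Bd F = true →
      ∃ G' Bd' F', k G' Bd' F' = true ∧
        DuaI l (n + L.toList.length)
          (fun t => S t + (L.toList.map fun v => qf H v.vec *
            Real.exp (-(t * qf P v.vec))).sum) G' Bd' F' := by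
  induction L with
  | nil =>
    intro n S G Bd F _ hI h
    refine ⟨G, Bd, F, h, ?_⟩
    rw [Lst.toList_nil]
    simpa using hI
  | cons v L ihL =>
    intro n S G Bd F hn hI h
    rw [duaL_cons] at h
    rw [Lst.toList_cons, List.length_cons] at hn
    obtain ⟨hv, hv0, hvz⟩ := hL v (by rw [Lst.toList_cons]; exact List.mem_cons_self)
    have hL' : ∀ w ∈ L.toList, w.OK ∧ w.vec ≠ 0 ∧ (w.zk >>> iz % 2 = 1 → 0 ≤ qf H w.vec) :=
      fun w hw => hL w (by rw [Lst.toList_cons]; exact List.mem_cons_of_mem _ hw)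
    have hPp : 0 < qf P v.vec := hP.2 _ (rv_ne hv0)
    have hstep : ∃ G' Bd' F', duaL iz u0 u1 u2 u3 u4 u5 t0 t1 t2 t3 t4 t5 d0 d1 d2 d3 d4 d5 k L
        G' Bd' F' = true ∧
        DuaI l (n + 1) (fun t => S t + qf H v.vec * Real.exp (-(t * qf P v.vec))) G' Bd' F' := by
      rcases cnd_true.mp h with ⟨hc, hi⟩ | ⟨-, h'⟩
      · have hz := hvz (Nat.eq_of_beq_eq_true hc)
        exact ⟨G, Bd, F, hi, skip hI fun t _ => mul_nonneg hz (Real.exp_pos _).le⟩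
      · rcases cnd_true.mp h' with ⟨hg, hb⟩ | ⟨-, hb⟩
        · exact good_sound h0 h1 hv hu hd hPp (hPU _) (hDH _) hI hg hb
        · exact bad_sound h0 h1 hv ht hd (hTP _) (hDH _) (by omega) hI hb
    obtain ⟨G', Bd', F', hi, hI'⟩ := hstep
    obtain ⟨G2, Bd2, F2, hk, hI2⟩ := ihL hL' (n + 1) _ G' Bd' F' (by omega) hI' hi
    refine ⟨G2, Bd2, F2, hk, ?_⟩
    rw [Lst.toList_cons, List.length_cons]
    have e1 : n + 1 + L.toList.length = n + (L.toList.length + 1) := by omega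
    rw [e1] at hI2
    convert hI2 using 2 with t
    rw [List.map_cons, List.sum_cons]
    ring

end Pool.Agent.Lib.EPX
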