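import Pool.Agent.Lib.EPX.ItS

/-!
# EPX.FinA: the end of a leaf, types 0 and 1

`sm = 0`; `j = Bd.mmin ∈ [64, 640]`, `X = VP * (2 ^ 72 * j)`, `Y = VN * (2 ^ 72 * j) + ON2` (`ON2` has value
`1`), bounds at most `2 ^ 253`. `pge35 X Y` gives `qv l Y ≤ qv l X` (`pge35_le`, `qv_mono`). Take `G1 = B1 = []`,
`G2 = re l 58 60 G.L`, `B2 = re l 58 60 Bd.L`, `ρ = 0`, `y0 = j / 64`,
`W = (qv l X - qv l Y) / (ck * 2 ^ 150)`. The sum condition is `itm_abel` (file EPL.Itm) with `ℓ = 10`:
`i.1 * exp (-i.2) = lv l a / 2 ^ 60 * exp (..)`, so the masses `qv l p` are at most (good) resp. at least (bad)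
`2 ^ 150` times that; `hp` is `pref_sound` (`c10 = 2882303761517117439 = 10 * 2 ^ 58 - 1`; `F` is needed
only for `10 < b.2`), `hF` is `preF_sound` (all good items have `i.2 ≤ 10`; the sum over the bad items
with `i.2 ≤ 10` is at most the sum over all); `y0 ≤ b.2` from `BadI.grid` and `mmin_sound`.
Last condition: `W / y0 = (2 ^ 72 j (qv VP - qv VN) - 1) * 64 / (ck 2 ^ 150 j)`, hence
`ck / 2 ^ 16 * (W / y0) = (qv VP - qv VN) / 2 ^ 88 - 1 / (2 ^ 160 j) < D`.
-/

namespace Pool.Agent.Lib.EPX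

open Pool.Agent.Lib.EPL

namespace FinAAux

/-- sums of a list of items -/
theorem sum_le {α : Type*} (L : List α) (f g : α → ℝ) (h : ∀ i ∈ L, f i ≤ g i) :
    (L.map f).sum ≤ (L.map g).sum := by
  induction L with
  | nil => simp
  | cons a L ih =>
    simp only [List.map_cons, List.sum_cons]
    have h1 := h a (by simp)
    have h2 := ih fun i hi => h i (by simp [hi])
    linarith

theorem sum_mul {α : Type*} (L : List α) (f : α → ℝ) (c : ℝ) :
    (L.map fun i => c * f i).sum = c * (L.map f).sum := by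
  induction L with
  | nil => simp
  | cons a L ih =>
    simp only [List.map_cons, List.sum_cons, ih]
    ring

theorem fin_zero {ck VP VN sm th : ℕ} {G Bd : It} {F : ℕ} (hsm : sm = 0)
    (h : fin ck VP VN sm th G Bd F = true) :
    ∃ X Y, X = Nat.mul VP (Nat.mul 4722366482869645213696 Bd.mmin) ∧
      Y = Nat.add (Nat.mul VN (Nat.mul 4722366482869645213696 Bd.mmin)) ON2 ∧
      pge35 X Y = true ∧ preF G Bd F ck X Y = true ∧
      pref G Bd F (Nat.mul 2882303761517117439 ON) ck X Y Bd = true := by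
  unfold fin at h
  have e : Nat.beq sm 0 = true := by rw [hsm]; rfl
  rw [cnd_pos e] at h
  beta_reduce at h
  rw [cnd_and, cnd_and] at h
  exact ⟨_, _, rfl, rfl, h⟩

end FinAAux

open FinAAux in
theorem finA_sound {l : Fin 6 → ℝ} (h0 : ∀ i, 0 ≤ l i) (h1 : ∑ i, l i = 1)
    {ck VP VN sm th : ℕ} {G Bd : It} {F : ℕ} {M D : ℝ} (hck1 : 1 ≤ ck) (hck : ck ≤ 2 ^ 17)
    (hth : th ≤ 10) (hG : ∀ i ∈ G.L, GoodI l 58 (2 ^ 102) i)
    (hB : ∀ i ∈ Bd.L, BadI l 58 52 (2 ^ 102) i) (hGn : G.L.length ≤ 300)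
    (hBn : Bd.L.length ≤ 300) (hF : W35 (2 ^ 190) F) (hM0 : 0 ≤ M) (hM : 2 ^ 150 * M ≤ qv l F)
    (hVP : W35 (2 ^ 140) VP) (hVN : W35 (2 ^ 140) VN) (hD : qv l VP - qv l VN ≤ 2 ^ 88 * D)
    (hsm : sm = 0) (h : fin ck VP VN sm th G Bd F = true) :
    ∃ (G1 B1 G2 B2 : List (ℝ × ℝ)) (W y0 ρ : ℝ),
      (∀ t, eS (re l 58 60 G.L) t = eS G1 t + eS G2 t) ∧
      (∀ t, eS (re l 58 60 Bd.L) t = eS B1 t + eS B2 t) ∧
      0 ≤ W ∧ 0 < y0 ∧ (∀ i ∈ G1, 0 ≤ i.1 ∧ ρ ≤ i.2 ∧ 0 < i.2) ∧
      (∀ i ∈ B1, 0 ≤ i.1 ∧ i.2 ≤ ρ ∧ 0 < i.2) ∧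
      (∀ t, 1 ≤ t → -(W * Real.exp (-((t - 1) * y0))) ≤
        eS G2 t - eS B2 t - M * Real.exp (-((t - 1) * 10))) ∧
      (ck : ℝ) / 2 ^ 16 * (W / y0 - min 0 ((G1.map fun i => i.1 * hw i.2).sum -
        (B1.map fun i => i.1 * hw i.2).sum)) < D := by
  obtain ⟨X, Y, hX, hY, e1, e2, e3⟩ := fin_zero hsm h
  rw [Nat.mul_eq, Nat.mul_eq] at hX
  rw [Nat.add_eq, Nat.mul_eq, Nat.mul_eq] at hY
  obtain ⟨j, hj⟩ : ∃ j, Bd.mmin = j := ⟨_, rfl⟩
  obtain ⟨m1, m2, m3⟩ := mmin_sound Bd
  have m4 := m3 fun i hi => (hB i hi).m64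
  rw [hj] at hX hY m1 m2 m4
  have hj1 : (64 : ℝ) ≤ j := by exact_mod_cast m4
  have hj2 : (j : ℝ) ≤ 640 := by exact_mod_cast m1
  have hck1' : (1 : ℝ) ≤ ck := by exact_mod_cast hck1
  -- the two sides
  have hjn : 4722366482869645213696 * j ≤ 2 ^ 82 := by
    have : (2 : ℕ) ^ 82 = 4722366482869645213696 * 1024 := by norm_num
    omega
  have hb1 : 4722366482869645213696 * j * 2 ^ 140 ≤ 2 ^ 222 := by
    calc 4722366482869645213696 * j * 2 ^ 140 ≤ 2 ^ 82 * 2 ^ 140 := Nat.mul_le_mul_right _ hjn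
      _ = 2 ^ 222 := by norm_num
  have hb2 : 4722366482869645213696 * j * 2 ^ 140 < 2 ^ 256 := hb1.trans_lt (by norm_num)
  have hX1 : X = 4722366482869645213696 * j * VP := by rw [hX]; ring
  have hY1 : Y = 4722366482869645213696 * j * VN + ON2 := by rw [hY, mul_comm VN]
  have wX := hVP.mul (4722366482869645213696 * j) hb2
  have vX := hVP.qv_mul (4722366482869645213696 * j) hb2 l
  have wY0 := hVN.mul (4722366482869645213696 * j) hb2
  have vY0 := hVN.qv_mul (4722366482869645213696 * j) hb2 l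
  have hb3 : 4722366482869645213696 * j * 2 ^ 140 + 2 < 2 ^ 256 :=
    (Nat.add_le_add_right hb1 2).trans_lt (by norm_num)
  have wY := wY0.add W35.one hb3
  have vY := wY0.qv_add W35.one hb3 l
  rw [← hX1] at wX vX
  rw [← hY1] at wY vY
  rw [vY0, qv_one h1] at vY
  have wX' : W35 (2 ^ 253) X := wX.mono (hb1.trans (by norm_num))
  have wY' : W35 (2 ^ 253) Y := wY.mono ((Nat.add_le_add_right hb1 2).trans (by norm_num))
  have hqXY : qv l Y ≤ qv l X := qv_mono h0 (pge35_le wX' wY' (by norm_num) (by norm_num) e1)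
  have hn9 : (300 : ℕ) ≤ 2 ^ 9 := by norm_num
  have h212 : (2 : ℕ) ^ 212 ≤ 2 ^ 216 := by norm_num
  have hF' : W35 (2 ^ 216) F := hF.mono (by norm_num)
  have hck27 : ck ≤ 2 ^ 27 := hck.trans (by norm_num)
  have pF := preF_sound h0 (fun i hi => (hG i hi).p.mono h212) (fun i hi => (hB i hi).p.mono h212)
    (hGn.trans hn9) (hBn.trans hn9) hF' hck27 wX' wY' e2
  have pP := pref_sound h0 h1 (c10 := 2882303761517117439)
    (fun i hi => ⟨(hG i hi).q, (hG i hi).p.mono h212⟩)
    (fun i hi => ⟨(hB i hi).q, (hB i hi).p.mono h212⟩) (fun i hi => (hB i hi).q)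
    (hGn.trans hn9) (hBn.trans hn9) hF' hck27 (by norm_num) wX' wY' e3
  -- real masses
  obtain ⟨me, hme⟩ : ∃ me : IT → ℝ, me = fun i => lv l i.a / 2 ^ 60 *
    Real.exp (-(lv l i.q / 2 ^ 58)) := ⟨_, rfl⟩
  have me0 : ∀ i, 0 ≤ me i := by
    intro i
    rw [hme]
    exact mul_nonneg (div_nonneg (lv_nonneg h0 _) (by positivity)) (Real.exp_pos _).le
  have mG : ∀ i ∈ G.L, qv l i.p ≤ 2 ^ 150 * me i := by
    intro i hi
    refine (hG i hi).mass.trans (le_of_eq ?_)
    rw [hme]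
    ring
  have mB : ∀ i ∈ Bd.L, 2 ^ 150 * me i ≤ qv l i.p := by
    intro i hi
    refine le_trans (le_of_eq ?_) (hB i hi).mass
    rw [hme]
    ring
  have reG : ∀ (L : List IT) (f : ℝ × ℝ → ℝ), ((re l 58 60 L).map f).sum =
      (L.map fun i => f (lv l i.a / 2 ^ 60, lv l i.q / 2 ^ 58)).sum := by
    intro L f
    unfold re
    rw [List.map_map]
    rfl
  have hlen : ∀ i ∈ Bd.L, (j : ℝ) / 64 ≤ lv l i.q / 2 ^ 58 := by
    intro i hi
    have g1 := hB i hi
    have g2 : R6 (i.m * 2 ^ 52) (2 ^ 100) i.q := ⟨g1.q.lt, g1.q.supp, g1.grid, g1.q.hi⟩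
    have g3 := g2.le_lv h0 h1
    have g4 : (j : ℝ) ≤ i.m := by exact_mod_cast m2 i hi
    have g5 : ((i.m * 2 ^ 52 : ℕ) : ℝ) = (i.m : ℝ) * 2 ^ 52 := by push_cast; ring
    rw [g5] at g3
    rw [div_le_div_iff₀ (by norm_num) (by positivity)]
    nlinarith
  have hckp : (0 : ℝ) < ck := by linarith
  obtain ⟨W, hW⟩ : ∃ W : ℝ, W = (qv l X - qv l Y) / (ck * 2 ^ 150) := ⟨_, rfl⟩
  have hW1 : ck * 2 ^ 150 * W = qv l X - qv l Y := by
    rw [hW]
    field_simp
  have hW0 : 0 ≤ W := by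
    rw [hW]
    exact div_nonneg (by linarith) (by positivity)
  refine ⟨[], [], re l 58 60 G.L, re l 58 60 Bd.L, W, j / 64, 0, fun t => by simp [eS],
    fun t => by simp [eS], hW0, by linarith, by simp, by simp, fun t ht => ?_, ?_⟩
  · refine itm_abel (ℓ := 10) ?_ hM0 hW0 ?_ (by linarith) ?_ ?_ ht
    · intro i hi
      obtain ⟨k, hk, rfl⟩ := List.mem_map.mp hi
      exact div_nonneg (lv_nonneg h0 _) (by positivity)
    · intro i hi
      obtain ⟨k, hk, rfl⟩ := List.mem_map.mp hi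
      exact hlen k hk
    · intro b hb
      obtain ⟨k, hk, rfl⟩ := List.mem_map.mp hb
      have g1 := pP k hk
      rw [reG, reG]
      simp only
      have c1 : ∀ x : ℝ, x / 2 ^ 58 ≤ lv l k.q / 2 ^ 58 ↔ x ≤ lv l k.q := fun x =>
        div_le_div_iff_of_pos_right (by positivity)
      simp only [c1]
      have sG : (G.L.map fun i => if lv l i.q ≤ lv l k.q then qv l i.p else 0).sum ≤
          2 ^ 150 * (G.L.map fun i => if lv l i.q ≤ lv l k.q then
            lv l i.a / 2 ^ 60 * Real.exp (-(lv l i.q / 2 ^ 58)) else 0).sum := by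
        rw [← sum_mul]
        refine sum_le _ _ _ fun i hi => ?_
        have := mG i hi
        rw [hme] at this
        split_ifs
        · exact this
        · simp
      have sB : 2 ^ 150 * (Bd.L.map fun i => if lv l i.q ≤ lv l k.q then
            lv l i.a / 2 ^ 60 * Real.exp (-(lv l i.q / 2 ^ 58)) else 0).sum ≤
          (Bd.L.map fun i => if lv l i.q ≤ lv l k.q then qv l i.p else 0).sum := by
        rw [← sum_mul]
        refine sum_le _ _ _ fun i hi => ?_
        have := mB i hi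
        rw [hme] at this
        split_ifs
        · exact this
        · simp
      have sM : 2 ^ 150 * (if 10 < lv l k.q / 2 ^ 58 then M else 0) ≤
          (if ((2882303761517117439 : ℕ) : ℝ) < lv l k.q then qv l F else 0) := by
        by_cases hlt : 10 < lv l k.q / 2 ^ 58
        · have : ((2882303761517117439 : ℕ) : ℝ) < lv l k.q := by
            rw [lt_div_iff₀ (by positivity)] at hlt
            push_cast
            linarith
          rw [if_pos hlt, if_pos this]
          exact hM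
        · rw [if_neg hlt]
          split_ifs
          · simpa using qv_nonneg h0 F
          · simp
      generalize (G.L.map fun i => if lv l i.q ≤ lv l k.q then qv l i.p else 0).sum = a1 at *
      generalize (Bd.L.map fun i => if lv l i.q ≤ lv l k.q then qv l i.p else 0).sum = a2 at *
      generalize (G.L.map fun i => if lv l i.q ≤ lv l k.q then
            lv l i.a / 2 ^ 60 * Real.exp (-(lv l i.q / 2 ^ 58)) else 0).sum = a3 at *
      generalize (Bd.L.map fun i => if lv l i.q ≤ lv l k.q then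
            lv l i.a / 2 ^ 60 * Real.exp (-(lv l i.q / 2 ^ 58)) else 0).sum = a4 at *
      generalize (if 10 < lv l k.q / 2 ^ 58 then M else 0) = a5 at *
      generalize (if ((2882303761517117439 : ℕ) : ℝ) < lv l k.q then qv l F else 0) = a6 at *
      have g2 : ck * (2 ^ 150 * (a3 - a4 - a5)) ≥ ck * (a1 - a2 - a6) :=
        mul_le_mul_of_nonneg_left (by linarith) hckp.le
      have g3 : ck * 2 ^ 150 * (-W) ≤ ck * 2 ^ 150 * (a3 - a4 - a5) := by
        nlinarith
      exact le_of_mul_le_mul_left g3 (by positivity)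
    · rw [reG, reG]
      simp only
      have sG : (G.L.map fun i => qv l i.p).sum ≤
          2 ^ 150 * (G.L.map fun i => if lv l i.q / 2 ^ 58 ≤ 10 then
            lv l i.a / 2 ^ 60 * Real.exp (-(lv l i.q / 2 ^ 58)) else 0).sum := by
        rw [← sum_mul]
        refine sum_le _ _ _ fun i hi => ?_
        have h3 : lv l i.q / 2 ^ 58 ≤ 10 := by
          rw [div_le_iff₀ (by positivity)]
          exact (hG i hi).near
        have := mG i hi
        rw [hme] at this
        rw [if_pos h3]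
        exact this
      have sB : 2 ^ 150 * (Bd.L.map fun i => if lv l i.q / 2 ^ 58 ≤ 10 then
            lv l i.a / 2 ^ 60 * Real.exp (-(lv l i.q / 2 ^ 58)) else 0).sum ≤
          (Bd.L.map fun i => qv l i.p).sum := by
        rw [← sum_mul]
        refine sum_le _ _ _ fun i hi => ?_
        have := mB i hi
        rw [hme] at this
        split_ifs
        · exact this
        · simpa using qv_nonneg h0 i.p
      generalize (G.L.map fun i => qv l i.p).sum = a1 at *
      generalize (Bd.L.map fun i => qv l i.p).sum = a2 at *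
      generalize (G.L.map fun i => if lv l i.q / 2 ^ 58 ≤ 10 then
            lv l i.a / 2 ^ 60 * Real.exp (-(lv l i.q / 2 ^ 58)) else 0).sum = a3 at *
      generalize (Bd.L.map fun i => if lv l i.q / 2 ^ 58 ≤ 10 then
            lv l i.a / 2 ^ 60 * Real.exp (-(lv l i.q / 2 ^ 58)) else 0).sum = a4 at *
      have g2 : ck * (2 ^ 150 * (a3 - a4 - M)) ≥ ck * (a1 - a2 - qv l F) :=
        mul_le_mul_of_nonneg_left (by linarith) hckp.le
      have g3 : ck * 2 ^ 150 * (-W) ≤ ck * 2 ^ 150 * (a3 - a4 - M) := by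
        nlinarith
      exact le_of_mul_le_mul_left g3 (by positivity)
  · have hjp : (0 : ℝ) < j := by linarith
    simp only [List.map_nil, List.sum_nil, sub_zero, min_self]
    have g1 : (ck : ℝ) / 2 ^ 16 * (W / (j / 64)) =
        (qv l VP - qv l VN) / 2 ^ 88 - 1 / (2 ^ 160 * j) := by
      rw [hW, vX, vY]
      push_cast
      field_simp
      ring
    rw [g1]
    have g2 : (qv l VP - qv l VN) / 2 ^ 88 ≤ D := by
      rw [div_le_iff₀ (by positivity)]
      linarith
    have g3 : 0 < 1 / (2 ^ 160 * (j : ℝ)) := by positivity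
    linarith

end Pool.Agent.Lib.EPX
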