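import Pool.Agent.Lib.EPX.SelS

/-!
# EPX.FinB: the end of a leaf, type 2

`sm ≠ 0`. `Bs = Bd.sel sm`, `Br = Bd.rest sm`, `G' = share Bs th G`, `F' = 10 F`, `j = Br.mmin ∈ [64, 640]`,
`c = 1024 ck`; `X = VP * (10 * 2 ^ 82 * j)`, `Y = VN * (10 * 2 ^ 82 * j) + ON2`
(`48357032784585166988247040 = 10 * 2 ^ 82`), `EP = (ck j (10 - th)) eP`, `EN = (ck j 10) eN`.
`G1`: for the items `i` of `G` with `lngr Bs i.q = true` (in list order) the real items
`((10 - th) / 10 * lv l a / 2 ^ 60, lv l q / 2 ^ 58)`; `G2`: for all items `i` of `G` the real items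
`(th' / 10 * lv l a / 2 ^ 60, ..)`, `th' = th` if `lngr Bs i.q = true`, else `10`. `B1 = re l 58 60 Bs.L`,
`B2 = re l 58 60 Br.L`. `ρ`: the maximum of the lengths of `B1` (`0` if `B1 = []`; or the infimum of
the lengths; from `lngr_true`, `pge6_le`, `lv_mono` every length of `G1` is at least every length of
`B1`). `y0 = j / 64`. Let `E = ∑_{G1} .. - ∑_{B1} ..` (the argument of `min 0`). By `intB_sound`,
`intG_sound`: `qv (EP) - qv (EN) ≤ 10 ck j 2 ^ 154 E`. If `E ≥ 0` take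
`W = (qv X - qv Y) / (10 ck 2 ^ 160)`, else `W = (qv X + qv EP - qv Y - qv EN) / (10 ck 2 ^ 160)`;
both are `≥ 0` by the two `pge35` tests. The masses of `G'`, `Br` are `10` times those of the real items
`G2`, `B2` (times `2 ^ 150`), `F' = 10 F`; so `c` times them is `10 ck 2 ^ 160` times the real sums.
`itm_abel` with `ℓ = 10` as in FinA (`pref_sound`, `preF_sound` for `G'`, `Br`, `F'`, `c`, and `X, Y` or
`X + EP, Y + EN`; the lists `G`, `share Bs th G` have the same lengths `q` and coefficients, see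
`share_L`, `rest_mem`). Last condition: `qv X - qv Y = 10 j 2 ^ 82 (qv VP - qv VN) - 1 < 10 j 2 ^ 170 D`,
`W / y0 = 64 W / j`: if `E ≥ 0`: `ck / 2 ^ 16 * 64 / j * (qv X - qv Y) / (10 ck 2 ^ 160) < D`; if `E < 0`:
`W / y0 - E ≤ 64 (qv X - qv Y) / (10 ck j 2 ^ 160)` because
`64 (qv EP - qv EN) / (10 ck j 2 ^ 160) ≤ E`.
-/

namespace Pool.Agent.Lib.EPX

open Pool.Agent.Lib.EPL

namespace FinBAux

/-- the parts of the check of a leaf of type 2; the tests are variables (the kernel must not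
evaluate them) -/
theorem gen {pg : ℕ → ℕ → Bool} {pF : It → It → ℕ → ℕ → ℕ → ℕ → Bool}
    {pf : It → It → ℕ → ℕ → ℕ → ℕ → ℕ → It → Bool} {iB : It → (ℕ → Bool) → Bool}
    {iG : It → It → (ℕ → Bool) → Bool} {sh : It → ℕ → It → It} {se re' : It → ℕ → It}
    {mm : It → ℕ} {T O2 : ℕ} {ck VP VN sm th : ℕ} {G Bd : It} {F : ℕ} (hsm : sm ≠ 0)
    (h : cnd (Nat.beq sm 0) ((fun X Y => cnd (pg X Y) (cnd (pF G Bd F ck X Y) (pf G Bd F T ck X Y Bd)
      false) false) (Nat.mul VP (Nat.mul 4722366482869645213696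
      (mm Bd))) (Nat.add (Nat.mul VN (Nat.mul 4722366482869645213696 (mm Bd))) O2)) ((fun Bs Br =>
      iB Bs (fun eN => iG Bs G (fun eP => (fun G' F' j c => (fun X Y EP EN => cnd (pg
      X Y) (cnd (pg (Nat.add X EP) (Nat.add Y EN)) (cnd (pF G' Br F' c X Y) (cnd (pF G' Br
      F' c (Nat.add X EP) (Nat.add Y EN)) (cnd (pf G' Br F' T c X
      Y Br) (pf G' Br F' T c (Nat.add X EP) (Nat.add Y EN) Br)
      false) false) false) false) false) (Nat.mul VP (Nat.mul 48357032784585166988247040 j))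
      (Nat.add (Nat.mul VN (Nat.mul 48357032784585166988247040 j)) O2) (Nat.mul (Nat.mul (Nat.mul
      ck j) (Nat.sub 10 th)) eP) (Nat.mul (Nat.mul (Nat.mul ck j) 10) eN)) (sh Bs th G)
      (Nat.mul 10 F) (mm Br) (Nat.mul 1024 ck)))) (se Bd sm) (re' Bd sm)) = true) :
    ∃ f : ℕ → Bool, iB (se Bd sm) f = true ∧ ∀ eN, f eN = true →
      ∃ g : ℕ → Bool, iG (se Bd sm) G g = true ∧ ∀ eP, g eP = true →
      ∃ X Y EP EN : ℕ, X = 48357032784585166988247040 * mm (re' Bd sm) * VP ∧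
        Y = 48357032784585166988247040 * mm (re' Bd sm) * VN + O2 ∧
        EP = ck * mm (re' Bd sm) * (10 - th) * eP ∧
        EN = ck * mm (re' Bd sm) * 10 * eN ∧
        pg X Y = true ∧ pg (X + EP) (Y + EN) = true ∧
        pF (sh (se Bd sm) th G) (re' Bd sm) (10 * F) (1024 * ck) X Y = true ∧
        pF (sh (se Bd sm) th G) (re' Bd sm) (10 * F) (1024 * ck) (X + EP) (Y + EN) = true ∧
        pf (sh (se Bd sm) th G) (re' Bd sm) (10 * F) T (1024 * ck) X Y (re' Bd sm) = true ∧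
        pf (sh (se Bd sm) th G) (re' Bd sm) (10 * F) T (1024 * ck) (X + EP) (Y + EN)
          (re' Bd sm) = true := by
  have hb : Nat.beq sm 0 = false := by
    cases hb : Nat.beq sm 0 with
    | true => exact absurd (Nat.eq_of_beq_eq_true hb) hsm
    | false => rfl
  rw [hb] at h
  replace h := (cnd_true.mp h).resolve_left (fun hh => Bool.noConfusion hh.1)
  refine ⟨_, h.2, fun eN heN => ⟨_, heN, fun eP heP => ?_⟩⟩
  simp only [cnd_and, Nat.add_eq, Nat.mul_eq, Nat.sub_eq] at heP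
  obtain ⟨h1, h2, h3, h4, h5, h6⟩ := heP
  exact ⟨_, _, _, _, Nat.mul_comm _ _, congrArg (· + O2) (Nat.mul_comm _ _), rfl, rfl,
    h1, h2, h3, h4, h5, h6⟩

theorem lv_ge {l : Fin 6 → ℝ} (h0 : ∀ i, 0 ≤ l i) (h1 : ∑ i, l i = 1) {A a q : ℕ}
    (hq : R6 0 A q) (h : ∀ j, a ≤ fk q (gp j)) : (a : ℝ) ≤ lv l q :=
  R6.le_lv (a := a) (b := A) ⟨hq.lt, hq.supp, h, hq.hi⟩ h0 h1

/-- a bad item with ten times its mass -/
def Bad10 (l : Fin 6 → ℝ) (i : IT) : Prop :=
  ∃ p, i.p = 10 * p ∧ BadI l 58 52 (2 ^ 102) ⟨i.q, p, i.a, i.m⟩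

theorem core {l : Fin 6 → ℝ} (h0 : ∀ i, 0 ≤ l i) (h1 : ∑ i, l i = 1)
    {ck th : ℕ} {G Bs Br : It} {F X Y : ℕ} {M : ℝ} (hck1 : 1 ≤ ck) (hck : ck ≤ 2 ^ 17)
    (hth : th ≤ 10) (hG : ∀ i ∈ G.L, GoodI l 58 (2 ^ 102) i) (hB : ∀ i ∈ Br.L, Bad10 l i)
    (hGn : G.L.length ≤ 300) (hBn : Br.L.length ≤ 300) (hF : W35 (2 ^ 190) F) (hM0 : 0 ≤ M)
    (hM : 2 ^ 150 * M ≤ qv l F) (hX : W35 (2 ^ 253) X) (hY : W35 (2 ^ 253) Y)
    (hge : pge35 X Y = true)
    (hpF : preF (It.share Bs th G) Br (10 * F) (1024 * ck) X Y = true)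
    (hp : pref (It.share Bs th G) Br (10 * F) (Nat.mul 2882303761517117439 ON) (1024 * ck) X Y Br
      = true) {W : ℝ} (hWd : W = (qv l X - qv l Y) / (10 * ck * 2 ^ 160)) :
    0 ≤ W ∧
    ∀ t, 1 ≤ t → -(W * Real.exp (-((t - 1) * ((Br.mmin : ℝ) / 64)))) ≤
      eS (G.L.map fun i => ((if lngr Bs i.q = true then (th : ℝ) else 10) / 10 *
        (lv l i.a / 2 ^ 60), lv l i.q / 2 ^ 58)) t - eS (re l 58 60 Br.L) t -
        M * Real.exp (-((t - 1) * 10)) := by
  have hck' : (1 : ℝ) ≤ ck := by exact_mod_cast hck1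
  have hK : (0 : ℝ) < 10 * ck * 2 ^ 160 := by positivity
  have hXY : qv l Y ≤ qv l X :=
    qv_mono h0 (pge35_le hX hY (by norm_num) (by norm_num) hge)
  have hW : 0 ≤ W := by
    rw [hWd]
    exact div_nonneg (by linarith) hK.le
  have hWK : W * (10 * ck * 2 ^ 160) = qv l X - qv l Y := by
    rw [hWd]
    exact div_mul_cancel₀ _ hK.ne'
  clear hWd
  refine ⟨hW, fun t ht => ?_⟩
  obtain ⟨hj1, hj2, hj3⟩ := mmin_sound Br
  have hj1' : (Br.mmin : ℝ) ≤ 640 := by exact_mod_cast hj1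
  -- the bounds
  have th' : ∀ i : IT, (if lngr Bs i.q = true then th else 10) ≤ 10 := fun i => by
    split_ifs
    · exact hth
    · exact le_rfl
  have hG' : ∀ i ∈ (It.share Bs th G).L, R6 0 (2 ^ 100) i.q ∧ W35 (2 ^ 216) i.p := by
    intro i hi
    rw [share_L] at hi
    obtain ⟨i', hi', rfl⟩ := List.mem_map.mp hi
    have g := hG i' hi'
    have hb : (if lngr Bs i'.q = true then th else 10) * 2 ^ 212 ≤ 10 * 2 ^ 212 :=
      Nat.mul_le_mul_right _ (th' i')
    exact ⟨g.q, (g.p.mul _ (hb.trans_lt (by norm_num))).mono (hb.trans (by norm_num))⟩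
  have hB' : ∀ i ∈ Br.L, R6 0 (2 ^ 100) i.q ∧ W35 (2 ^ 216) i.p := by
    intro i hi
    obtain ⟨p, hp1, hp2⟩ := hB i hi
    refine ⟨hp2.q, ?_⟩
    rw [hp1]
    exact (hp2.p.mul 10 (by norm_num)).mono (by norm_num)
  have hGn' : (It.share Bs th G).L.length ≤ 2 ^ 9 := by
    rw [share_L, List.length_map]
    exact hGn.trans (by norm_num)
  have hBn' : Br.L.length ≤ 2 ^ 9 := hBn.trans (by norm_num)
  have hF' : W35 (2 ^ 216) (10 * F) := (hF.mul 10 (by norm_num)).mono (by norm_num)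
  have hFq : qv l (10 * F) = 10 * qv l F := by
    have := hF.qv_mul 10 (by norm_num) l
    exact_mod_cast this
  have hc : 1024 * ck ≤ 2 ^ 27 := by omega
  -- the terms
  have gT : ∀ i ∈ G.L, ((1024 * ck : ℕ) : ℝ) *
      qv l ((if lngr Bs i.q = true then th else 10) * i.p) ≤
      (10 * ck * 2 ^ 160) * ((if lngr Bs i.q = true then (th : ℝ) else 10) / 10 *
        (lv l i.a / 2 ^ 60) * Real.exp (-(lv l i.q / 2 ^ 58))) := by
    intro i hi
    have g := hG i hi
    have e1 : qv l ((if lngr Bs i.q = true then th else 10) * i.p) =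
        (if lngr Bs i.q = true then (th : ℝ) else 10) * qv l i.p := by
      have hb : (if lngr Bs i.q = true then th else 10) * 2 ^ 212 ≤ 10 * 2 ^ 212 :=
        Nat.mul_le_mul_right _ (th' i)
      rw [g.p.qv_mul _ (hb.trans_lt (by norm_num)) l]
      split_ifs <;> norm_num
    rw [e1]
    have hm := g.mass
    have hv : (0 : ℝ) ≤ (if lngr Bs i.q = true then (th : ℝ) else 10) := by
      split_ifs <;> positivity
    generalize (if lngr Bs i.q = true then (th : ℝ) else 10) = v at hv ⊢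
    have h2 := mul_le_mul_of_nonneg_left hm (mul_nonneg (by positivity : (0 : ℝ) ≤ 1024 * ck) hv)
    push_cast
    calc (1024 * (ck : ℝ)) * (v * qv l i.p) = 1024 * ck * v * qv l i.p := by ring
      _ ≤ _ := h2
      _ = _ := by
        norm_num
        ring
  have bT : ∀ i ∈ Br.L, (10 * ck * 2 ^ 160) * (lv l i.a / 2 ^ 60 *
      Real.exp (-(lv l i.q / 2 ^ 58))) ≤ ((1024 * ck : ℕ) : ℝ) * qv l i.p := by
    intro i hi
    obtain ⟨p, hp1, hp2⟩ := hB i hi
    have hm : lv l i.a * (2 ^ (58 + 32) * Real.exp (-(lv l i.q / 2 ^ 58))) ≤ qv l p := hp2.mass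
    have hp3 : W35 (2 ^ 212) p := hp2.p
    have e1 : qv l i.p = 10 * qv l p := by
      rw [hp1, hp3.qv_mul 10 (by norm_num) l]
      norm_num
    rw [e1]
    have h2 := mul_le_mul_of_nonneg_left hm (by positivity : (0 : ℝ) ≤ 10240 * ck)
    push_cast
    calc _ = 10240 * (ck : ℝ) * (lv l i.a * (2 ^ (58 + 32) * Real.exp (-(lv l i.q / 2 ^ 58)))) := by
          norm_num
          ring
      _ ≤ _ := h2
      _ = _ := by ring
  have bT0 : ∀ i ∈ Br.L, 0 ≤ lv l i.a / 2 ^ 60 * Real.exp (-(lv l i.q / 2 ^ 58)) := fun i _ =>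
    mul_nonneg (div_nonneg (lv_nonneg h0 _) (by positivity)) (Real.exp_pos _).le
  have h58 : (0 : ℝ) < 2 ^ 58 := by positivity
  -- the last condition
  have hcore : ∀ {A B m : ℝ}, qv l Y + (10 * ck * 2 ^ 160) * (B + m) ≤
      qv l X + (10 * ck * 2 ^ 160) * A → -W ≤ A - B - m := by
    intro A B m h
    have h2 : 0 ≤ (10 * ck * 2 ^ 160) * (A - B - m + W) := by nlinarith
    have h3 := nonneg_of_mul_nonneg_right h2 hK
    linarith
  refine itm_abel (W := W) (y0 := (Br.mmin : ℝ) / 64) (ℓ := 10) ?_ hM0 hW ?_ (by linarith) ?_ ?_ ht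
  · intro i hi
    obtain ⟨i', hi', rfl⟩ := List.mem_map.mp hi
    refine mul_nonneg (div_nonneg ?_ (by norm_num)) (div_nonneg (lv_nonneg h0 _) (by positivity))
    split_ifs <;> positivity
  · intro b hb
    obtain ⟨i, hi, rfl⟩ := List.mem_map.mp hb
    obtain ⟨p, -, hp2⟩ := hB i hi
    have h2 : ((i.m * 2 ^ 52 : ℕ) : ℝ) ≤ lv l i.q := lv_ge h0 h1 hp2.q hp2.grid
    have h3 : (Br.mmin : ℝ) ≤ i.m := by exact_mod_cast hj2 i hi
    show (Br.mmin : ℝ) / 64 ≤ lv l i.q / 2 ^ 58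
    rw [div_le_div_iff₀ (by norm_num) h58]
    push_cast at h2
    norm_num at h2 ⊢
    linarith
  · intro b hb
    obtain ⟨i, hi, rfl⟩ := List.mem_map.mp hb
    have h2 := pref_sound h0 h1 hG' hB' (fun i hi => (hB' i hi).1) hGn' hBn' hF' hc
      (by norm_num) hX hY hp i hi
    refine hcore (le_trans ?_ (h2.trans ?_))
    · refine add_le_add le_rfl ?_
      rw [mul_add, mul_add]
      refine add_le_add ?_ ?_
      · unfold re
        rw [List.map_map, ← List.sum_map_mul_left, ← List.sum_map_mul_left]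
        refine List.sum_le_sum fun j hj => ?_
        simp only [Function.comp]
        by_cases hq : lv l j.q ≤ lv l i.q
        · rw [if_pos hq, if_pos (div_le_div_of_nonneg_right hq h58.le)]
          exact bT j hj
        · rw [if_neg hq, if_neg (by rw [div_le_div_iff_of_pos_right h58]; exact hq)]
          simp
      · show _ * (if (10 : ℝ) < lv l i.q / 2 ^ 58 then M else 0) ≤ _
        by_cases hq : (10 : ℝ) < lv l i.q / 2 ^ 58
        · have hq2 : ((2882303761517117439 : ℕ) : ℝ) < lv l i.q := by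
            rw [lt_div_iff₀ h58] at hq
            norm_num at hq ⊢
            linarith
          rw [if_pos hq, if_pos hq2, hFq]
          push_cast
          have h3 := mul_le_mul_of_nonneg_left hM (by positivity : (0 : ℝ) ≤ 10240 * ck)
          norm_num at h3 ⊢
          linarith
        · rw [if_neg hq, mul_zero]
          refine mul_nonneg (by positivity) ?_
          split_ifs
          · exact qv_nonneg h0 _
          · exact le_rfl
    · refine add_le_add le_rfl ?_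
      rw [share_L, List.map_map, List.map_map, ← List.sum_map_mul_left, ← List.sum_map_mul_left]
      refine List.sum_le_sum fun j hj => ?_
      simp only [Function.comp]
      by_cases hq : lv l j.q ≤ lv l i.q
      · rw [if_pos hq, if_pos (div_le_div_of_nonneg_right hq h58.le)]
        exact gT j hj
      · rw [if_neg hq, if_neg (by rw [div_le_div_iff_of_pos_right h58]; exact hq)]
        simp
  · have h2 := preF_sound h0 (fun i hi => (hG' i hi).2) (fun i hi => (hB' i hi).2) hGn' hBn' hF'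
      hc hX hY hpF
    refine hcore (le_trans ?_ (h2.trans ?_))
    · refine add_le_add le_rfl ?_
      rw [mul_add, mul_add]
      refine add_le_add ?_ ?_
      · unfold re
        rw [List.map_map, ← List.sum_map_mul_left, ← List.sum_map_mul_left]
        refine List.sum_le_sum fun j hj => ?_
        simp only [Function.comp]
        refine le_trans ?_ (bT j hj)
        refine mul_le_mul_of_nonneg_left ?_ hK.le
        split_ifs
        · exact le_rfl
        · exact bT0 j hj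
      · rw [hFq]
        push_cast
        have h3 := mul_le_mul_of_nonneg_left hM (by positivity : (0 : ℝ) ≤ 10240 * ck)
        norm_num at h3 ⊢
        linarith
    · refine add_le_add le_rfl ?_
      rw [share_L, List.map_map, List.map_map, ← List.sum_map_mul_left, ← List.sum_map_mul_left]
      refine List.sum_le_sum fun j hj => ?_
      simp only [Function.comp]
      have g := hG j hj
      have hn : lv l j.q / 2 ^ 58 ≤ 10 := by
        rw [div_le_iff₀ h58]
        exact g.near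
      rw [if_pos hn]
      exact gT j hj

/-- a maximum of the lengths, at least `0` -/
theorem exmax (B : List (ℝ × ℝ)) : ∃ ρ : ℝ, (∀ b ∈ B, b.2 ≤ ρ) ∧
    ∀ x : ℝ, 0 ≤ x → (∀ b ∈ B, b.2 ≤ x) → ρ ≤ x := by
  induction B with
  | nil => exact ⟨0, by simp, fun x hx _ => hx⟩
  | cons b B ih =>
    obtain ⟨ρ, h1, h2⟩ := ih
    refine ⟨max b.2 ρ, ?_, ?_⟩
    · intro c hc
      rcases List.mem_cons.mp hc with rfl | hc
      · exact le_max_left _ _
      · exact (h1 c hc).trans (le_max_right _ _)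
    · intro x hx h
      exact max_le (h b List.mem_cons_self)
        (h2 x hx fun c hc => h c (List.mem_cons_of_mem _ hc))

/-- the real arithmetic of the last condition -/
theorem arith {ck j VP VN D P N E qX qY : ℝ} (hck : 1 ≤ ck) (hj : 64 ≤ j)
    (hD : VP - VN ≤ 2 ^ 88 * D) (hX : qX = 48357032784585166988247040 * j * VP)
    (hY : qY = 48357032784585166988247040 * j * VN + 1)
    (hE : P - N ≤ 10 * ck * j * 2 ^ 154 * E) :
    (0 ≤ E → ck / 2 ^ 16 * ((qX - qY) / (10 * ck * 2 ^ 160) / (j / 64) - min 0 E) < D) ∧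
    (E < 0 → ck / 2 ^ 16 * ((qX + P - (qY + N)) / (10 * ck * 2 ^ 160) / (j / 64) - min 0 E)
      < D) := by
  have hck0 : 0 < ck := by linarith
  have hj0 : 0 < j := by linarith
  have e1 : ∀ Z : ℝ, ck / 2 ^ 16 * (Z / (10 * ck * 2 ^ 160) / (j / 64)) =
      Z / (10 * 2 ^ 170 * j) := by
    intro Z
    field_simp
    norm_num
    ring
  have e2 : qX - qY < D * (10 * 2 ^ 170 * j) := by
    rw [hX, hY]
    have h2 : 48357032784585166988247040 * j * (VP - VN) ≤
        48357032784585166988247040 * j * (2 ^ 88 * D) :=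
      mul_le_mul_of_nonneg_left hD (by positivity)
    have h3 : 48357032784585166988247040 * j * (2 ^ 88 * D) = D * (10 * 2 ^ 170 * j) := by
      norm_num
      ring
    have h4 : 48357032784585166988247040 * j * VP - (48357032784585166988247040 * j * VN + 1) =
      48357032784585166988247040 * j * (VP - VN) - 1 := by ring
    rw [h4, ← h3]
    linarith
  constructor
  · intro hE0
    rw [min_eq_left hE0, sub_zero, e1, div_lt_iff₀ (by positivity)]
    exact e2
  · intro hE0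
    rw [min_eq_right hE0.le, mul_sub, e1, sub_lt_iff_lt_add, div_lt_iff₀ (by positivity)]
    have h5 : (D + ck / 2 ^ 16 * E) * (10 * 2 ^ 170 * j) =
        D * (10 * 2 ^ 170 * j) + 10 * ck * j * 2 ^ 154 * E := by
      ring
    rw [h5]
    linarith

end FinBAux

open FinBAux

theorem finB_sound {l : Fin 6 → ℝ} (h0 : ∀ i, 0 ≤ l i) (h1 : ∑ i, l i = 1)
    {ck VP VN sm th : ℕ} {G Bd : It} {F : ℕ} {M D : ℝ} (hck1 : 1 ≤ ck) (hck : ck ≤ 2 ^ 17)
    (hth : th ≤ 10) (hG : ∀ i ∈ G.L, GoodI l 58 (2 ^ 102) i)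
    (hB : ∀ i ∈ Bd.L, BadI l 58 52 (2 ^ 102) i) (hGn : G.L.length ≤ 300)
    (hBn : Bd.L.length ≤ 300) (hF : W35 (2 ^ 190) F) (hM0 : 0 ≤ M) (hM : 2 ^ 150 * M ≤ qv l F)
    (hVP : W35 (2 ^ 140) VP) (hVN : W35 (2 ^ 140) VN) (hD : qv l VP - qv l VN ≤ 2 ^ 88 * D)
    (hsm : sm ≠ 0) (h : fin ck VP VN sm th G Bd F = true) :
    ∃ (G1 B1 G2 B2 : List (ℝ × ℝ)) (W y0 ρ : ℝ),
      (∀ t, eS (re l 58 60 G.L) t = eS G1 t + eS G2 t) ∧
      (∀ t, eS (re l 58 60 Bd.L) t = eS B1 t + eS B2 t) ∧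
      0 ≤ W ∧ 0 < y0 ∧ (∀ i ∈ G1, 0 ≤ i.1 ∧ ρ ≤ i.2 ∧ 0 < i.2) ∧
      (∀ i ∈ B1, 0 ≤ i.1 ∧ i.2 ≤ ρ ∧ 0 < i.2) ∧
      (∀ t, 1 ≤ t → -(W * Real.exp (-((t - 1) * y0))) ≤
        eS G2 t - eS B2 t - M * Real.exp (-((t - 1) * 10))) ∧
      (ck : ℝ) / 2 ^ 16 * (W / y0 - min 0 ((G1.map fun i => i.1 * hw i.2).sum -
        (B1.map fun i => i.1 * hw i.2).sum)) < D := by
  have h58 : (0 : ℝ) < 2 ^ 58 := by positivity
  -- the parts
  have hBs : ∀ i ∈ (Bd.sel sm).L, BadI l 58 52 (2 ^ 102) i := fun i hi => hB i (sel_mem hi)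
  have hBr : ∀ i ∈ (Bd.rest sm).L, Bad10 l i := by
    intro i hi
    obtain ⟨j, hj, rfl⟩ := rest_mem hi
    exact ⟨j.p, rfl, hB j hj⟩
  have hlen := sel_rest_length Bd sm
  have hsum := sel_rest_sum Bd sm
  obtain ⟨f, hf, hfN⟩ := gen (pg := pge35) (pF := preF) (pf := pref) (iB := It.intB)
    (iG := It.intG) (sh := It.share) (se := It.sel) (re' := It.rest) (mm := It.mmin)
    (T := Nat.mul 2882303761517117439 ON) (O2 := ON2) hsm h
  obtain ⟨eN, heN, hWN, hqN⟩ := intB_sound h0 h1 hBs (by omega) hf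
  obtain ⟨g, hg, hgP⟩ := hfN eN heN
  obtain ⟨eP, heP, hWP, hqP⟩ := intG_sound h0 h1 hG hGn hg
  obtain ⟨X, Y, EP, EN, hX, hY, hEP, hEN, p1, p2, p3, p4, p5, p6⟩ := hgP eP heP
  generalize Bd.sel sm = Bs at *
  generalize Bd.rest sm = Br at *
  obtain ⟨hj1, hj2, hj3⟩ := mmin_sound Br
  have hj64 : 64 ≤ Br.mmin := hj3 fun i hi => by
    obtain ⟨p, -, hp⟩ := hBr i hi
    exact hp.m64
  have hj64' : (64 : ℝ) ≤ (Br.mmin : ℝ) := by exact_mod_cast hj64
  have hck' : (1 : ℝ) ≤ ck := by exact_mod_cast hck1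
  -- the bounds
  have hb1 : 48357032784585166988247040 * Br.mmin ≤ 2 ^ 95 := by
    norm_num
    omega
  have hb1' : 48357032784585166988247040 * Br.mmin * 2 ^ 140 ≤ 2 ^ 235 := by
    calc 48357032784585166988247040 * Br.mmin * 2 ^ 140 ≤ 2 ^ 95 * 2 ^ 140 :=
          Nat.mul_le_mul_right _ hb1
      _ = 2 ^ 235 := by norm_num
  have hb2 : ck * Br.mmin * 10 ≤ 2 ^ 30 := by
    calc ck * Br.mmin * 10 ≤ 2 ^ 17 * 640 * 10 :=
          Nat.mul_le_mul_right _ (Nat.mul_le_mul hck hj1)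
      _ ≤ 2 ^ 30 := by norm_num
  have hb3 : ck * Br.mmin * (10 - th) ≤ 2 ^ 30 :=
    (Nat.mul_le_mul_left _ (Nat.sub_le _ _)).trans hb2
  have hb2' : ck * Br.mmin * 10 * 2 ^ 221 ≤ 2 ^ 251 := by
    calc ck * Br.mmin * 10 * 2 ^ 221 ≤ 2 ^ 30 * 2 ^ 221 := Nat.mul_le_mul_right _ hb2
      _ = 2 ^ 251 := by norm_num
  have hb3' : ck * Br.mmin * (10 - th) * 2 ^ 221 ≤ 2 ^ 251 := by
    calc ck * Br.mmin * (10 - th) * 2 ^ 221 ≤ 2 ^ 30 * 2 ^ 221 := Nat.mul_le_mul_right _ hb3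
      _ = 2 ^ 251 := by norm_num
  have wX : W35 (2 ^ 251) X := by
    rw [hX]
    exact (hVP.mul _ (hb1'.trans_lt (by norm_num))).mono (hb1'.trans (by norm_num))
  have qX : qv l X = 48357032784585166988247040 * (Br.mmin : ℝ) * qv l VP := by
    rw [hX, hVP.qv_mul _ (hb1'.trans_lt (by norm_num)) l]
    push_cast
    ring
  have wVN := (hVN.mul (48357032784585166988247040 * Br.mmin)
    (hb1'.trans_lt (by norm_num))).mono hb1'
  have wY : W35 (2 ^ 251) Y := by
    rw [hY]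
    exact (wVN.add W35.one (by norm_num)).mono (by norm_num)
  have qY : qv l Y = 48357032784585166988247040 * (Br.mmin : ℝ) * qv l VN + 1 := by
    rw [hY, wVN.qv_add W35.one (by norm_num) l, qv_one h1,
      hVN.qv_mul _ (hb1'.trans_lt (by norm_num)) l]
    push_cast
    ring
  have wEP : W35 (2 ^ 251) EP := by
    rw [hEP]
    exact (hWP.mul _ (hb3'.trans_lt (by norm_num))).mono hb3'
  have qEP : qv l EP = ck * (Br.mmin : ℝ) * (10 - th) * qv l eP := by
    rw [hEP, hWP.qv_mul _ (hb3'.trans_lt (by norm_num)) l]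
    push_cast [Nat.cast_sub hth]
    ring
  have wEN : W35 (2 ^ 251) EN := by
    rw [hEN]
    exact (hWN.mul _ (hb2'.trans_lt (by norm_num))).mono hb2'
  have qEN : qv l EN = ck * (Br.mmin : ℝ) * 10 * qv l eN := by
    rw [hEN, hWN.qv_mul _ (hb2'.trans_lt (by norm_num)) l]
    push_cast
    ring
  have wXE : W35 (2 ^ 253) (X + EP) := (wX.add wEP (by norm_num)).mono (by norm_num)
  have wYE : W35 (2 ^ 253) (Y + EN) := (wY.add wEN (by norm_num)).mono (by norm_num)
  have qXE : qv l (X + EP) = qv l X + qv l EP := wX.qv_add wEP (by norm_num) l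
  have qYE : qv l (Y + EN) = qv l Y + qv l EN := wY.qv_add wEN (by norm_num) l
  obtain ⟨c1, c2⟩ := core h0 h1 hck1 hck hth hG hBr hGn (by omega) hF hM0 hM
    (wX.mono (by norm_num)) (wY.mono (by norm_num)) p1 p3 p5 rfl
  obtain ⟨c3, c4⟩ := core h0 h1 hck1 hck hth hG hBr hGn (by omega) hF hM0 hM wXE wYE p2 p4 p6 rfl
  rw [qXE, qYE] at c3 c4
  -- the real items
  obtain ⟨ρ, hρ1, hρ2⟩ := exmax (re l 58 60 Bs.L)
  set G1 : List (ℝ × ℝ) := (G.L.filter fun i => lngr Bs i.q).map fun i =>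
    ((10 - (th : ℝ)) / 10 * (lv l i.a / 2 ^ 60), lv l i.q / 2 ^ 58) with hG1
  have hG1s : ∀ f : ℝ → ℝ, (G1.map fun i => i.1 * f i.2).sum =
      (G.L.map fun i => if lngr Bs i.q = true then
        (10 - (th : ℝ)) / 10 * (lv l i.a / 2 ^ 60) * f (lv l i.q / 2 ^ 58) else 0).sum := by
    intro f
    rw [hG1, List.map_map]
    induction G.L with
    | nil => rfl
    | cons i L ih =>
      by_cases hi : lngr Bs i.q = true
      · rw [List.filter_cons_of_pos (p := fun i : IT => lngr Bs i.q) hi, List.map_cons, List.sum_cons, ih, List.map_cons,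
          List.sum_cons, if_pos hi]
        rfl
      · rw [List.filter_cons_of_neg (p := fun i : IT => lngr Bs i.q) hi, ih, List.map_cons, List.sum_cons, if_neg hi, zero_add]
  have hE : qv l EP - qv l EN ≤ 10 * ck * (Br.mmin : ℝ) * 2 ^ 154 *
      ((G1.map fun i => i.1 * hw i.2).sum -
        ((re l 58 60 Bs.L).map fun i => i.1 * hw i.2).sum) := by
    have e1 : 10 * (G1.map fun i => i.1 * hw i.2).sum = (10 - (th : ℝ)) *
        (G.L.map fun i => if lngr Bs i.q = true then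
        lv l i.a / 2 ^ 60 * hw (lv l i.q / 2 ^ 58) else 0).sum := by
      rw [hG1s hw, ← List.sum_map_mul_left, ← List.sum_map_mul_left]
      congr 1
      refine List.map_congr_left fun i _ => ?_
      split_ifs
      · ring
      · ring
    have hth' : (0 : ℝ) ≤ 10 - (th : ℝ) := by
      have : (th : ℝ) ≤ 10 := by exact_mod_cast hth
      linarith
    have hcj : (0 : ℝ) ≤ ck * (Br.mmin : ℝ) := by positivity
    have h5 := mul_le_mul_of_nonneg_left (mul_le_mul_of_nonneg_left hqP hth') hcj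
    have h6 := mul_le_mul_of_nonneg_left hqN (mul_nonneg hcj (by norm_num : (0 : ℝ) ≤ 10))
    rw [qEP, qEN]
    have e2 : ck * (Br.mmin : ℝ) * ((10 - (th : ℝ)) * (2 ^ 154 *
        (G.L.map fun i => if lngr Bs i.q = true then
        lv l i.a / 2 ^ 60 * hw (lv l i.q / 2 ^ 58) else 0).sum)) =
        ck * (Br.mmin : ℝ) * 2 ^ 154 * (10 * (G1.map fun i => i.1 * hw i.2).sum) := by
      rw [e1]
      ring
    rw [e2] at h5
    linarith
  obtain ⟨a1, a2⟩ := arith hck' hj64' hD qX qY hE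
  have fG : ∀ t, eS (re l 58 60 G.L) t = eS G1 t +
      eS (G.L.map fun i => ((if lngr Bs i.q = true then (th : ℝ) else 10) / 10 *
        (lv l i.a / 2 ^ 60), lv l i.q / 2 ^ 58)) t := by
    intro t
    unfold eS
    rw [hG1s (fun x => Real.exp (-(t * x)))]
    unfold re
    rw [List.map_map, List.map_map, ← List.sum_map_add]
    congr 1
    refine List.map_congr_left fun i _ => ?_
    simp only [Function.comp]
    split_ifs
    · ring
    · ring
  have fB : ∀ t, eS (re l 58 60 Bd.L) t = eS (re l 58 60 Bs.L) t + eS (re l 58 60 Br.L) t := by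
    intro t
    unfold eS re
    rw [List.map_map, List.map_map, List.map_map]
    exact hsum fun q a => lv l a / 2 ^ 60 * Real.exp (-(t * (lv l q / 2 ^ 58)))
  have fG1 : ∀ i ∈ G1, 0 ≤ i.1 ∧ ρ ≤ i.2 ∧ 0 < i.2 := by
    intro i hi
    obtain ⟨j, hj, rfl⟩ := List.mem_map.mp hi
    obtain ⟨hjL, hjl⟩ := List.mem_filter.mp hj
    have g := hG j hjL
    have hth' : (0 : ℝ) ≤ 10 - (th : ℝ) := by
      have : (th : ℝ) ≤ 10 := by exact_mod_cast hth
      linarith
    refine ⟨mul_nonneg (div_nonneg hth' (by norm_num)) (div_nonneg (lv_nonneg h0 _)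
      (by positivity)), ?_, div_pos g.pos h58⟩
    refine hρ2 _ (div_pos g.pos h58).le fun b hb => ?_
    obtain ⟨b', hb', rfl⟩ := List.mem_map.mp hb
    have hb2 := hBs b' hb'
    exact div_le_div_of_nonneg_right (lv_mono h0 (pge6_le g.q hb2.q (by norm_num) (by norm_num)
      (lngr_true.mp hjl b' hb'))) h58.le
  have fB1 : ∀ i ∈ re l 58 60 Bs.L, 0 ≤ i.1 ∧ i.2 ≤ ρ ∧ 0 < i.2 := by
    intro i hi
    refine ⟨?_, hρ1 i hi, ?_⟩
    · obtain ⟨b', hb', rfl⟩ := List.mem_map.mp hi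
      exact div_nonneg (lv_nonneg h0 _) (by positivity)
    · obtain ⟨b', hb', rfl⟩ := List.mem_map.mp hi
      have hb2 := hBs b' hb'
      have h2 : ((64 * 2 ^ 52 : ℕ) : ℝ) ≤ lv l b'.q := lv_ge h0 h1 hb2.q hb2.lo
      refine div_pos (lt_of_lt_of_le ?_ h2) h58
      positivity
  have hy : (0 : ℝ) < (Br.mmin : ℝ) / 64 := by positivity
  by_cases hE0 : 0 ≤ (G1.map fun i => i.1 * hw i.2).sum -
      ((re l 58 60 Bs.L).map fun i => i.1 * hw i.2).sum
  · exact ⟨G1, re l 58 60 Bs.L, _, re l 58 60 Br.L, _, (Br.mmin : ℝ) / 64, ρ, fG, fB, c1, hy, fG1,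
      fB1, c2, a1 hE0⟩
  · exact ⟨G1, re l 58 60 Bs.L, _, re l 58 60 Br.L, _, (Br.mmin : ℝ) / 64, ρ, fG, fB, c3, hy, fG1,
      fB1, c4, a2 (lt_of_not_ge hE0)⟩

end Pool.Agent.Lib.EPX
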