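import Pool.Agent.Lib.EPX.ChkX
import Pool.Agent.Lib.FCC.Base

/-!
# EPX.SemX: the meaning of vertices and cones

A point of a cone is a pair `(l, w)`: Selling parameters `l`, weight `w`; both are the same nonnegative
combination of the Selling parameters and weights of the vertices.
-/

namespace Pool.Agent.Lib.EPX

open Pool.Agent.Lib.FCC

/-- the Selling parameters of a vertex -/
def Vt.L (v : Vt) : Fin 6 → ℝ := ![v.l0, v.l1, v.l2, v.l3, v.l4, v.l5]

/-- the cached numbers of a vertex are correct -/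
def Vt.WF (v : Vt) : Prop := v = mkVt v.l0 v.l1 v.l2 v.l3 v.l4 v.l5 v.r v.s

theorem mkVt_WF (l0 l1 l2 l3 l4 l5 r s : ℕ) : (mkVt l0 l1 l2 l3 l4 l5 r s).WF := rfl

theorem Vt.comb_WF (v w : Vt) (a b r : ℕ) : (v.comb w a b r).WF := mkVt_WF ..

theorem Vt.comb_L (v w : Vt) (a b r : ℕ) (k : Fin 6) :
    (v.comb w a b r).L k = a * v.L k + b * w.L k := by
  fin_cases k <;> simp [Vt.L, Vt.comb, mkVt]

theorem Vt.comb_s (v w : Vt) (a b r : ℕ) :
    ((v.comb w a b r).s : ℝ) = a * v.s + b * w.s := by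
  simp [Vt.comb, mkVt]

theorem Vt.WF.e {v : Vt} (h : v.WF) : v.e = v.l0 + v.l1 + v.l2 + v.l3 + v.l4 + v.l5 := by
  have := congrArg Vt.e h
  simpa [mkVt] using this

/-- the vertices -/
def Cn.vs (C : Cn) : Fin 6 → Vt := ![C.v0, C.v1, C.v2, C.v3, C.v4, C.v5]

/-- all vertices are correct -/
def Cn.WF (C : Cn) : Prop := ∀ i, (C.vs i).WF

/-- membership in the cone, with the weight -/
def Cn.Mem (C : Cn) (l : Fin 6 → ℝ) (w : ℝ) : Prop :=
  ∃ t : Fin 6 → ℝ, (∀ i, 0 ≤ t i) ∧ (∀ k, l k = ∑ i, t i * (C.vs i).L k) ∧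
    w = ∑ i, t i * ((C.vs i).s : ℝ)

theorem Cn.get_eq (C : Cn) (i : Fin 6) : C.get i = C.vs i := by
  fin_cases i <;> rfl

theorem Cn.set_vs (C : Cn) (i : Fin 6) (m : Vt) : (C.set i m).vs = Function.update C.vs i m := by
  obtain ⟨v0, v1, v2, v3, v4, v5⟩ := C
  fin_cases i <;> (funext j; fin_cases j <;> rfl)

theorem Cn.set_WF {C : Cn} (h : C.WF) (i : Fin 6) {m : Vt} (hm : m.WF) : (C.set i m).WF := by
  intro j
  rw [Cn.set_vs]
  by_cases hj : j = i
  · subst hj; simpa using hm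
  · rw [Function.update_of_ne hj]; exact h j

/-- the splitting of a nonnegative combination -/
theorem split_comb {i j : Fin 6} (hij : i ≠ j) {a b : ℝ} (ha : 0 < a)
    {t : Fin 6 → ℝ} (ht : ∀ k, 0 ≤ t k) (h : t i * b ≤ t j * a) :
    ∃ t' : Fin 6 → ℝ, (∀ k, 0 ≤ t' k) ∧ ∀ f : Fin 6 → ℝ,
      ∑ k, t k * f k = ∑ k, t' k * Function.update f i (a * f i + b * f j) k := by
  refine ⟨Function.update (Function.update t j (t j - b * (t i / a))) i (t i / a), ?_, ?_⟩
  · intro k
    by_cases hk : k = i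
    · subst hk
      simpa using div_nonneg (ht k) ha.le
    · rw [Function.update_of_ne hk]
      by_cases hk' : k = j
      · subst hk'
        simp only [Function.update_self]
        have : b * (t i / a) ≤ t k := by
          rw [mul_div_assoc', div_le_iff₀ ha]
          linarith
        linarith
      · rw [Function.update_of_ne hk']; exact ht k
  · intro f
    have e1 : ∀ g : Fin 6 → ℝ, ∑ k, g k = g i + g j + ∑ k ∈ (Finset.univ.erase i).erase j, g k := by
      intro g
      rw [← Finset.add_sum_erase _ g (Finset.mem_univ i), ← Finset.add_sum_erase _ g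
        (show j ∈ Finset.univ.erase i by simp [hij.symm]), add_assoc]
    rw [e1, e1]
    have e2 : ∑ k ∈ (Finset.univ.erase i).erase j, t k * f k =
        ∑ k ∈ (Finset.univ.erase i).erase j,
          Function.update (Function.update t j (t j - b * (t i / a))) i (t i / a) k *
            Function.update f i (a * f i + b * f j) k := by
      refine Finset.sum_congr rfl fun k hk => ?_
      have h1 : k ≠ j := (Finset.mem_erase.mp hk).1
      have h2 : k ≠ i := (Finset.mem_erase.mp (Finset.mem_erase.mp hk).2).1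
      rw [Function.update_of_ne h2, Function.update_of_ne h2, Function.update_of_ne h1]
    rw [← e2]
    simp only [Function.update_self, Function.update_of_ne hij.symm]
    have : t i / a * (a * f i) = t i * f i := by field_simp
    have : t i / a * (a * f i + b * f j) + (t j - b * (t i / a)) * f j = t i * f i + t j * f j := by
      field_simp
      ring
    linarith

theorem Cn.Mem.split1 {C : Cn} {l : Fin 6 → ℝ} {w : ℝ} {t : Fin 6 → ℝ} (ht : ∀ k, 0 ≤ t k)
    (hl : ∀ k, l k = ∑ i, t i * (C.vs i).L k) (hw : w = ∑ i, t i * ((C.vs i).s : ℝ))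
    {i j : Fin 6} (hij : i ≠ j) {a b : ℕ} (ha : 1 ≤ a) {m : Vt}
    (hm : ∀ k, m.L k = a * (C.vs i).L k + b * (C.vs j).L k)
    (hs : (m.s : ℝ) = a * (C.vs i).s + b * (C.vs j).s)
    (h : t i * b ≤ t j * a) : (C.set i m).Mem l w := by
  have ha' : (0 : ℝ) < a := by exact_mod_cast ha
  obtain ⟨t', ht', hf⟩ := split_comb hij ha' ht h
  refine ⟨t', ht', fun k => ?_, ?_⟩
  · rw [hl k, hf fun i => (C.vs i).L k]
    refine Finset.sum_congr rfl fun x _ => ?_
    rw [Cn.set_vs]
    by_cases hx : x = i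
    · subst hx; simp [hm]
    · rw [Function.update_of_ne hx, Function.update_of_ne hx]
  · rw [hw, hf fun i => ((C.vs i).s : ℝ)]
    refine Finset.sum_congr rfl fun x _ => ?_
    rw [Cn.set_vs]
    by_cases hx : x = i
    · subst hx; simp [hs]
    · rw [Function.update_of_ne hx, Function.update_of_ne hx]

/-- a point of a cone lies in one of the two halves -/
theorem Cn.Mem.split {C : Cn} {l : Fin 6 → ℝ} {w : ℝ} (h : C.Mem l w) {i j : Fin 6} (hij : i ≠ j)
    {a b : ℕ} (ha : 1 ≤ a) (hb : 1 ≤ b) (r : ℕ) :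
    (C.set i ((C.get i).comb (C.get j) a b r)).Mem l w ∨
      (C.set j ((C.get i).comb (C.get j) a b r)).Mem l w := by
  obtain ⟨t, ht, hl, hw⟩ := h
  rw [Cn.get_eq, Cn.get_eq]
  rcases le_total (t i * b) (t j * a) with h | h
  · exact Or.inl (Cn.Mem.split1 ht hl hw hij ha (Vt.comb_L _ _ a b r) (Vt.comb_s _ _ a b r) h)
  · refine Or.inr (Cn.Mem.split1 ht hl hw hij.symm hb (fun k => ?_) ?_ h)
    · rw [Vt.comb_L]; ring
    · rw [Vt.comb_s]; ring

/-- the point of a cone is independent of the weights -/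
theorem Cn.Mem.reweight {C D : Cn} {l : Fin 6 → ℝ} {w : ℝ} (h : C.Mem l w)
    (hL : ∀ i k, (D.vs i).L k = (C.vs i).L k) : ∃ w', D.Mem l w' := by
  obtain ⟨t, ht, hl, -⟩ := h
  exact ⟨_, t, ht, fun k => by rw [hl k]; exact Finset.sum_congr rfl fun i _ => by rw [hL], rfl⟩

theorem V7.vt_WF (v : V7) : v.vt.WF := mkVt_WF ..

theorem C7.cn_WF (C : C7) : C.cn.WF := by
  intro i
  fin_cases i <;> exact V7.vt_WF _

theorem V7.eqb_L {v : V7} {w : Vt} (h : v.eqb w = true) (k : Fin 6) : v.vt.L k = w.L k := by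
  unfold V7.eqb at h
  simp only [cnd_and] at h
  obtain ⟨h0, h1, h2, h3, h4, h5⟩ := h
  have h0 := Nat.eq_of_beq_eq_true h0
  have h1 := Nat.eq_of_beq_eq_true h1
  have h2 := Nat.eq_of_beq_eq_true h2
  have h3 := Nat.eq_of_beq_eq_true h3
  have h4 := Nat.eq_of_beq_eq_true h4
  have h5 := Nat.eq_of_beq_eq_true h5
  fin_cases k <;> simp [Vt.L, V7.vt, mkVt, h0, h1, h2, h3, h4, h5]

theorem C7.eqb_L {C : C7} {D : Cn} (h : C.eqb D = true) (i k : Fin 6) :
    (C.cn.vs i).L k = (D.vs i).L k := by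
  unfold C7.eqb at h
  simp only [cnd_and] at h
  obtain ⟨h0, h1, h2, h3, h4, h5⟩ := h
  fin_cases i
  · exact V7.eqb_L h0 k
  · exact V7.eqb_L h1 k
  · exact V7.eqb_L h2 k
  · exact V7.eqb_L h3 k
  · exact V7.eqb_L h4 k
  · exact V7.eqb_L h5 k

/-! ### the frame of the soundness proof -/

theorem get_fin {j : ℕ} (h : j ≤ 5) : j < 6 := by omega

/-- soundness of a tree, from the soundness of its leaves and `li` nodes, at a fixed point `(l, w)`:
`G` the goal, `I E` the meaning of the data `E` (for this point) -/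
theorem Tr.sound {G : Prop} {l : Fin 6 → ℝ} {w : ℝ} {I : Env → Prop} {pr : ℕ → Cn → Bool}
    (hli : ∀ (E : Env) (C : Cn), C.WF → C.Mem l w → I E →
      ∀ md me smin smax : ℕ, E.smin ≤ smin → smax ≤ E.smax → ∀ g : Lst → Lst → ℕ → ℕ → Bool,
        liNode md me smin smax E.L1 E.L2 E.τ1 E.τ2 C g = true →
        ∃ L1 L2 τ1 τ2, g L1 L2 τ1 τ2 = true ∧
          I ⟨L1, L2, τ1, τ2, smin, smax, 215888603272, 31, 65543⟩ ∧
          I ⟨L1, L2, τ1, τ2, smin, smax, 183505312781, 19, 83720⟩)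
    (hxl : ∀ (E : Env) (C : Cn), C.WF → C.Mem l w → I E → 1 ≤ E.kc → ∀ iw iz sm th : ℕ,
      iw ≤ 12 → iz ≤ 25 → th ≤ 10 → (dir13 iw).zk >>> (iz % 13) % 2 = 1 →
      xleaf E.L1 E.L2 E.smin E.smax E.kc E.dk E.ck iw iz (iz % 13) sm th C = true → G)
    (hsg : ∀ C : Cn, C.WF → C.Mem l w → sgC C = true → G)
    (hsr : ∀ (f : ℕ) (C : Cn), C.WF → C.Mem l w → srC f C = true → G)
    (hcu : ∀ (i : ℕ) (C : Cn), C.WF → C.Mem l w → cuC i C = true → G)
    (hpr : ∀ (i : ℕ) (C : Cn), C.WF → C.Mem l w → pr i C = true → G)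
    (t : Tr) : ∀ (E : Env) (C : Cn), C.WF → C.Mem l w → I E → t.chk pr E C = true → G := by
  induction t with
  | nd i j a b r s t ih1 ih2 =>
    intro E C hC hM hE h
    have h' : cnd (Nat.ble 1 a) (cnd (Nat.ble 1 b) (cnd (Nat.ble (Nat.add i 1) j)
      (cnd (Nat.ble j 5) (cnd (s.chk pr E (C.set i ((C.get i).comb (C.get j) a b r)))
        (t.chk pr E (C.set j ((C.get i).comb (C.get j) a b r))) false) false) false) false)
        false = true := h
    simp only [cnd_and] at h'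
    obtain ⟨ha, hb, hij, hj, h1, h2⟩ := h'
    have ha := Nat.le_of_ble_eq_true ha
    have hb := Nat.le_of_ble_eq_true hb
    have hij : i + 1 ≤ j := Nat.le_of_ble_eq_true hij
    have hj := Nat.le_of_ble_eq_true hj
    have hi6 : i < 6 := by omega
    have hj6 : j < 6 := by omega
    have hne : (⟨i, hi6⟩ : Fin 6) ≠ ⟨j, hj6⟩ := by
      intro h; have := congrArg Fin.val h; simp at this; omega
    rcases hM.split hne ha hb r with h | h
    · exact ih1 E _ (Cn.set_WF hC ⟨i, hi6⟩ (Vt.comb_WF _ _ _ _ _)) h hE h1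
    · exact ih2 E _ (Cn.set_WF hC ⟨j, hj6⟩ (Vt.comb_WF _ _ _ _ _)) h hE h2
  | li k md me smin smax t ih =>
    intro E C hC hM hE h
    have h' : cnd (Nat.ble E.smin smin) (cnd (Nat.ble smax E.smax)
        (liNode md me smin smax E.L1 E.L2 E.τ1 E.τ2 C fun L1 L2 τ1 τ2 =>
          cnd (Nat.beq k 0)
            (t.chk pr ⟨L1, L2, τ1, τ2, smin, smax, 215888603272, 31, 65543⟩ C)
            (t.chk pr ⟨L1, L2, τ1, τ2, smin, smax, 183505312781, 19, 83720⟩ C))
        false) false = true := h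
    rw [cnd_and, cnd_and] at h'
    obtain ⟨h1, h2, h3⟩ := h'
    obtain ⟨L1, L2, τ1, τ2, hg, hI0, hI1⟩ := hli E C hC hM hE md me smin smax
      (Nat.le_of_ble_eq_true h1) (Nat.le_of_ble_eq_true h2) _ h3
    rcases cnd_true.mp hg with ⟨-, h⟩ | ⟨-, h⟩
    · exact ih _ _ hC hM hI0 h
    · exact ih _ _ hC hM hI1 h
  | xl iw iz sm th =>
    intro E C hC hM hE h
    have h' : cnd (Nat.ble 1 E.kc) (cnd (Nat.ble iw 12) (cnd (Nat.ble iz 25) (cnd (Nat.ble th 10)
        (cnd (Nat.beq ((dir13 iw).zk >>> (iz % 13) % 2) 1)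
          (xleaf E.L1 E.L2 E.smin E.smax E.kc E.dk E.ck iw iz (iz % 13) sm th C)
        false) false) false) false) false = true := h
    rw [cnd_and, cnd_and, cnd_and, cnd_and, cnd_and] at h'
    obtain ⟨h1, h2, h3, h6, h4, h5⟩ := h'
    exact hxl E C hC hM hE (Nat.le_of_ble_eq_true h1) iw iz sm th (Nat.le_of_ble_eq_true h2)
      (Nat.le_of_ble_eq_true h3) (Nat.le_of_ble_eq_true h6) (Nat.eq_of_beq_eq_true h4) h5
  | sg => exact fun _ C hC hM _ h => hsg C hC hM h
  | sr f => exact fun _ C hC hM _ h => hsr f C hC hM h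
  | cu i => exact fun _ C hC hM _ h => hcu i C hC hM h
  | pr i => exact fun _ C hC hM _ h => hpr i C hC hM h

/-- membership in a list of data cones -/
inductive Ch.In (D : C7) : Ch → Prop
  | head (t : Tr) (c : Ch) : Ch.In D (.cons D t c)
  | tail (C : C7) (t : Tr) (c : Ch) : Ch.In D c → Ch.In D (.cons C t c)

theorem Ch.pr_in {c : Ch} : ∀ {i : ℕ} {D : Cn}, c.pr i D = true →
    ∃ C : C7, Ch.In C c ∧ C.eqb D = true := by
  induction c with
  | nil => intro i D h; exact absurd h (by simp [Ch.pr])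
  | cons C t c ih =>
    intro i D h
    cases i with
    | zero => exact ⟨C, .head t c, h⟩
    | succ i =>
      obtain ⟨C', h1, h2⟩ := ih (i := i) (D := D) h
      exact ⟨C', .tail C t c h1, h2⟩

theorem Ch.chk_in {c : Ch} (h : c.chk = true) {D : C7} (hD : Ch.In D c) :
    ∃ t : Tr, t.top (fun _ _ => false) D.cn = true := by
  induction hD with
  | head t c =>
    have h' : cnd (t.top (fun _ _ => false) D.cn) c.chk false = true := h
    rw [cnd_and] at h'
    exact ⟨t, h'.1⟩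
  | tail C t c _ ih =>
    have h' : cnd (t.top (fun _ _ => false) C.cn) c.chk false = true := h
    rw [cnd_and] at h'
    exact ih h'.2

end Pool.Agent.Lib.EPX
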