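import Pool.Agent.Lib.EPX.ChkX
import Mathlib

/-!
# EPX.VxS: the meaning of the vectors and lists of the checker
-/

namespace Pool.Agent.Lib.EPX

open Matrix

/-- the vector -/
def Vx.vec (v : Vx) : Fin 3 → ℤ := ![(v.x1 : ℤ) - 5, (v.x2 : ℤ) - 5, (v.x3 : ℤ) - 5]

/-- the cached numbers of a vector are correct -/
structure Vx.OK (v : Vx) : Prop where
  c0 : (v.c0 : ℤ) = (v.vec 0 - v.vec 1) ^ 2
  c1 : (v.c1 : ℤ) = v.vec 2 ^ 2
  c2 : (v.c2 : ℤ) = (v.vec 0 - v.vec 2) ^ 2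
  c3 : (v.c3 : ℤ) = v.vec 1 ^ 2
  c4 : (v.c4 : ℤ) = v.vec 0 ^ 2
  c5 : (v.c5 : ℤ) = (v.vec 1 - v.vec 2) ^ 2
  n : v.n = v.c0 + v.c1 + v.c2 + v.c3 + v.c4 + v.c5
  n200 : v.n ≤ 200
  zk : ∀ i < 13, v.zk >>> i % 2 = 1 → (dir13 i).vec ⬝ᵥ v.vec = 0

/-- the list of the vectors -/
noncomputable def Lst.toList (L : Lst) : List Vx :=
  Lst.rec (motive := fun _ => List Vx) [] (fun v _ ih => v :: ih) L

theorem Lst.toList_nil : Lst.nil.toList = [] := rfl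
theorem Lst.toList_cons (v : Vx) (t : Lst) : (Lst.cons v t).toList = v :: t.toList := rfl

/-- the vectors -/
noncomputable def Lst.vecs (L : Lst) : List (Fin 3 → ℤ) := L.toList.map Vx.vec

end Pool.Agent.Lib.EPX
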