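import Pool.Agent.Lib.EPX.PkS
import Pool.Agent.Lib.EPX.VxS
import Pool.Agent.Lib.EPX.SemX
import Pool.Agent.Lib.EPL.Cell

/-!
# EPX.FmD: packed forms

`SM b l M p11 n11 ... p33 n33`: the symmetric matrix `M` has the entries `lv l p_ij - lv l n_ij`.
`SF c b l M f0 ... f5`: the six coefficients `lv l f_k - c` are the Selling parameters of `M`, the fields
of `f_k` are in `[c - b, c + b]`.
-/

open Matrix
open scoped Matrix.Norms.Elementwise

namespace Pool.Agent.Lib.EPX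

open Pool.Agent.Lib.EPL Pool.Agent.Lib.EpZ Pool.Agent.Lib.EPS Pool.Agent.Lib.FCC

/-- a symmetric matrix with packed entries (positive parts, negative parts) -/
structure SM (b : ℕ) (l : Fin 6 → ℝ) (M : Mx 3)
    (p11 n11 p12 n12 p13 n13 p22 n22 p23 n23 p33 n33 : ℕ) : Prop where
  b11 : R6 0 b p11 ∧ R6 0 b n11
  b12 : R6 0 b p12 ∧ R6 0 b n12
  b13 : R6 0 b p13 ∧ R6 0 b n13
  b22 : R6 0 b p22 ∧ R6 0 b n22
  b23 : R6 0 b p23 ∧ R6 0 b n23
  b33 : R6 0 b p33 ∧ R6 0 b n33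
  m00 : M 0 0 = lv l p11 - lv l n11
  m01 : M 0 1 = lv l p12 - lv l n12
  m02 : M 0 2 = lv l p13 - lv l n13
  m10 : M 1 0 = lv l p12 - lv l n12
  m11 : M 1 1 = lv l p22 - lv l n22
  m12 : M 1 2 = lv l p23 - lv l n23
  m20 : M 2 0 = lv l p13 - lv l n13
  m21 : M 2 1 = lv l p23 - lv l n23
  m22 : M 2 2 = lv l p33 - lv l n33

/-- a form given by packed Selling parameters with offset `c` -/
structure SF (c b : ℕ) (l : Fin 6 → ℝ) (M : Mx 3) (f0 f1 f2 f3 f4 f5 : ℕ) : Prop where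
  b0 : R6 (c - b) (c + b) f0
  b1 : R6 (c - b) (c + b) f1
  b2 : R6 (c - b) (c + b) f2
  b3 : R6 (c - b) (c + b) f3
  b4 : R6 (c - b) (c + b) f4
  b5 : R6 (c - b) (c + b) f5
  eq : M = formOf ![lv l f0 - c, lv l f1 - c, lv l f2 - c, lv l f3 - c, lv l f4 - c, lv l f5 - c]

end Pool.Agent.Lib.EPX
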