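import Pool.Agent.Lib.EPX.FmD

/-!
# EPX.ForS: the forms `T`

`forT_sound`: `sqs` gives `s Q s` in two steps (`(S Q)_ij` has the parts `p_ij, n_ij`, fields at most
`3 * 2 ^ 48`; `(S Q S)_ij` fields at most `9 * 2 ^ 63`); `s_ij = sS u_ij ≤ 2 ^ 15` is the hypothesis `hs`.
Here `S = (s_ij / 2 ^ 7)`, `Q = formOf (lv l q_k / 2 ^ 26)`, and `26561 * 9 < 2 ^ 18`.
-/

open Matrix
open scoped Matrix.Norms.Elementwise

namespace Pool.Agent.Lib.EPX

open Pool.Agent.Lib.EPL Pool.Agent.Lib.EpZ Pool.Agent.Lib.EPS Pool.Agent.Lib.FCC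

namespace ForSAux

variable {l : Fin 6 → ℝ}

/-- a signed packed number with the fields at most `b` and the value `x` -/
structure SP (l : Fin 6 → ℝ) (b p n : ℕ) (x : ℝ) : Prop where
  hp : R6 0 b p
  hn : R6 0 b n
  hv : lv l p - lv l n = x

theorem SP.mono {b b' p n : ℕ} {x : ℝ} (h : SP l b p n x) (hb : b ≤ b') : SP l b' p n x :=
  ⟨h.hp.up hb, h.hn.up hb, h.hv⟩

theorem SP.cast {b p n : ℕ} {x y : ℝ} (h : SP l b p n x) (e : x = y) : SP l b p n y := e ▸ h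

theorem add0 {b c x y : ℕ} (hx : R6 0 b x) (hy : R6 0 c y) (h : b + c < 2 ^ 256) :
    R6 0 (b + c) (Nat.add x y) := hx.add hy h

theorem mul0 {b x : ℕ} (c : ℕ) (hx : R6 0 b x) (h : c * b < 2 ^ 256) :
    R6 0 (c * b) (Nat.mul c x) := by
  have := hx.mul c h
  rwa [mul_zero] at this

theorem SP.add {b c p n p' n' : ℕ} {x y : ℝ} (h : SP l b p n x) (h' : SP l c p' n' y)
    (hb : b + c < 2 ^ 256) : SP l (b + c) (Nat.add p p') (Nat.add n n') (x + y) := by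
  refine ⟨add0 h.hp h'.hp hb, add0 h.hn h'.hn hb, ?_⟩
  have e1 : lv l (Nat.add p p') = lv l p + lv l p' := h.hp.lv_add h'.hp hb l
  have e2 : lv l (Nat.add n n') = lv l n + lv l n' := h.hn.lv_add h'.hn hb l
  rw [e1, e2, ← h.hv, ← h'.hv]
  ring

theorem SP.mul {b p n : ℕ} {x : ℝ} (c : ℕ) (h : SP l b p n x) (hb : c * b < 2 ^ 256) :
    SP l (c * b) (Nat.mul c p) (Nat.mul c n) (c * x) := by
  refine ⟨mul0 c h.hp hb, mul0 c h.hn hb, ?_⟩
  have e1 : lv l (Nat.mul c p) = c * lv l p := h.hp.lv_mul c hb l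
  have e2 : lv l (Nat.mul c n) = c * lv l n := h.hn.lv_mul c hb l
  rw [e1, e2, ← h.hv]
  ring

theorem SP.mulr {b p n : ℕ} {x : ℝ} (c C : ℕ) (h : SP l b p n x) (hc : c ≤ C)
    (hb : C * b < 2 ^ 256) : SP l (C * b) (Nat.mul p c) (Nat.mul n c) (x * c) := by
  have h1 : c * b ≤ C * b := Nat.mul_le_mul_right _ hc
  have := (h.mul c (by omega)).mono h1
  have e1 : Nat.mul c p = Nat.mul p c := Nat.mul_comm c p
  have e2 : Nat.mul c n = Nat.mul n c := Nat.mul_comm c n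
  rw [e1, e2] at this
  exact this.cast (mul_comm _ _)

/-- the symmetric matrix with the entries `s` -/
def symM (s11 s12 s13 s22 s23 s33 : ℝ) : Mx 3 := !![s11, s12, s13; s12, s22, s23; s13, s23, s33]

/-- `S Q S` -/
theorem sqs_sound {b B s11 s12 s13 s22 s23 s33 l0 l1 l2 l3 l4 l5 : ℕ}
    (hb : 9 * (B * (B * b)) < 2 ^ 256) (hB : 1 ≤ B)
    (i11 : s11 ≤ B) (i12 : s12 ≤ B) (i13 : s13 ≤ B) (i22 : s22 ≤ B) (i23 : s23 ≤ B)
    (i33 : s33 ≤ B) (h0 : R6 0 b l0) (h1 : R6 0 b l1) (h2 : R6 0 b l2) (h3 : R6 0 b l3)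
    (h4 : R6 0 b l4) (h5 : R6 0 b l5) {M : Mx 3}
    (hM : M = symM s11 s12 s13 s22 s23 s33 *
      formOf ![lv l l0, lv l l1, lv l l2, lv l l3, lv l l4, lv l l5] *
        symM s11 s12 s13 s22 s23 s33) :
    ∃ p11 n11 p12 n12 p13 n13 p22 n22 p23 n23 p33 n33,
      (∀ k : ℕ → ℕ → ℕ → ℕ → ℕ → ℕ → ℕ → ℕ → ℕ → ℕ → ℕ → ℕ → Bool,
        sqs s11 s12 s13 s22 s23 s33 l0 l1 l2 l3 l4 l5 k =
          k p11 n11 p12 n12 p13 n13 p22 n22 p23 n23 p33 n33) ∧
      SP l (9 * (B * (B * b))) p11 n11 (M 0 0) ∧ SP l (9 * (B * (B * b))) p12 n12 (M 0 1) ∧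
      SP l (9 * (B * (B * b))) p13 n13 (M 0 2) ∧ SP l (9 * (B * (B * b))) p22 n22 (M 1 1) ∧
      SP l (9 * (B * (B * b))) p23 n23 (M 1 2) ∧ SP l (9 * (B * (B * b))) p33 n33 (M 2 2) := by
  have hBb : b ≤ B * b := Nat.le_mul_of_pos_left _ hB
  have hBBb : B * b ≤ B * (B * b) := Nat.mul_le_mul_left _ hBb
  generalize hX : B * b = X at *
  generalize hY : B * X = Y at *
  -- the diagonal of `Q`
  have hq : ∀ {x y z : ℕ}, R6 0 b x → R6 0 b y → R6 0 b z →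
      R6 0 (3 * b) (Nat.add (Nat.add x y) z) ∧
        lv l (Nat.add (Nat.add x y) z) = lv l x + lv l y + lv l z := by
    intro x y z hx hy hz
    have h1 := add0 hx hy (by omega)
    refine ⟨(add0 h1 hz (by omega)).up (by omega), ?_⟩
    have e1 : lv l (Nat.add (Nat.add x y) z) = lv l (Nat.add x y) + lv l z :=
      h1.lv_add hz (by omega) l
    have e2 : lv l (Nat.add x y) = lv l x + lv l y := hx.lv_add hy (by omega) l
    rw [e1, e2]
  -- an entry of `S Q`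
  have hent : ∀ {s t u q x y : ℕ} {r : ℝ}, s ≤ B → t ≤ B → u ≤ B → R6 0 (3 * b) q → lv l q = r →
      R6 0 b x → R6 0 b y → SP l (3 * X) (Nat.mul s q) (Nat.add (Nat.mul t x) (Nat.mul u y))
        (s * r - (t * lv l x + u * lv l y)) := by
    intro s t u q x y r hs ht hu hq hr hx hy
    have c1 : s * (3 * b) ≤ 3 * X := by
      rw [← hX]; calc s * (3 * b) ≤ B * (3 * b) := Nat.mul_le_mul_right _ hs
        _ = 3 * (B * b) := by ring
    have c2 : t * b ≤ X := by rw [← hX]; exact Nat.mul_le_mul_right _ ht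
    have c3 : u * b ≤ X := by rw [← hX]; exact Nat.mul_le_mul_right _ hu
    have m1 := mul0 s hq (by omega)
    have m2 := mul0 t hx (by omega)
    have m3 := mul0 u hy (by omega)
    refine ⟨m1.up c1, (add0 m2 m3 (by omega)).up (by omega), ?_⟩
    have e1 : lv l (Nat.mul s q) = s * lv l q := hq.lv_mul s (by omega) l
    have e2 : lv l (Nat.mul t x) = t * lv l x := hx.lv_mul t (by omega) l
    have e3 : lv l (Nat.mul u y) = u * lv l y := hy.lv_mul u (by omega) l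
    have e4 : lv l (Nat.add (Nat.mul t x) (Nat.mul u y)) = lv l (Nat.mul t x) +
      lv l (Nat.mul u y) := m2.lv_add m3 (by omega) l
    rw [e4, e1, e2, e3, hr]
  -- an entry of `S Q S`
  have hfin : ∀ {p n p' n' p'' n'' s t u : ℕ} {x y z : ℝ}, SP l (3 * X) p n x →
      SP l (3 * X) p' n' y → SP l (3 * X) p'' n'' z → s ≤ B → t ≤ B → u ≤ B →
      SP l (9 * Y) (Nat.add (Nat.add (Nat.mul p s) (Nat.mul p' t)) (Nat.mul p'' u))
        (Nat.add (Nat.add (Nat.mul n s) (Nat.mul n' t)) (Nat.mul n'' u))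
        (x * s + y * t + z * u) := by
    intro p n p' n' p'' n'' s t u x y z hx hy hz hs ht hu
    have c : B * (3 * X) = 3 * Y := by rw [← hY]; ring
    have m1 := hx.mulr s B hs (by omega)
    have m2 := hy.mulr t B ht (by omega)
    have m3 := hz.mulr u B hu (by omega)
    rw [c] at m1 m2 m3
    exact ((m1.add m2 (by omega)).add m3 (by omega)).mono (by omega)
  have q11 := hq h0 h2 h4
  have q22 := hq h0 h3 h5
  have q33 := hq h1 h2 h5
  have a11 := hent i11 i12 i13 q11.1 q11.2 h0 h2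
  have a12 := hent i12 i11 i13 q22.1 q22.2 h0 h5
  have a13 := hent i13 i11 i12 q33.1 q33.2 h2 h5
  have a21 := hent i12 i22 i23 q11.1 q11.2 h0 h2
  have a22 := hent i22 i12 i23 q22.1 q22.2 h0 h5
  have a23 := hent i23 i12 i22 q33.1 q33.2 h2 h5
  have a31 := hent i13 i23 i33 q11.1 q11.2 h0 h2
  have a32 := hent i23 i13 i33 q22.1 q22.2 h0 h5
  have a33 := hent i33 i13 i23 q33.1 q33.2 h2 h5
  have hent' : ∀ i j, M i j = (symM s11 s12 s13 s22 s23 s33 *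
      formOf ![lv l l0, lv l l1, lv l l2, lv l l3, lv l l4, lv l l5] *
        symM s11 s12 s13 s22 s23 s33) i j := by
    intro i j; rw [hM]
  refine ⟨_, _, _, _, _, _, _, _, _, _, _, _, fun k => rfl,
    (hfin a11 a12 a13 i11 i12 i13).cast ?_, (hfin a11 a12 a13 i12 i22 i23).cast ?_,
    (hfin a11 a12 a13 i13 i23 i33).cast ?_, (hfin a21 a22 a23 i12 i22 i23).cast ?_,
    (hfin a21 a22 a23 i13 i23 i33).cast ?_, (hfin a31 a32 a33 i13 i23 i33).cast ?_⟩ <;>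
  · rw [hent']
    simp only [symM, formOf, Matrix.mul_apply, Fin.sum_univ_three, Matrix.of_apply,
      Matrix.cons_val', Matrix.cons_val_zero, Matrix.cons_val_one, Matrix.cons_val,
      Matrix.cons_val_fin_one]
    ring

theorem form_smul (c : ℝ) (a0 a1 a2 a3 a4 a5 : ℝ) :
    formOf ![a0 / c, a1 / c, a2 / c, a3 / c, a4 / c, a5 / c] =
      (1 / c) • formOf ![a0, a1, a2, a3, a4, a5] := by
  ext i j
  fin_cases i <;> fin_cases j <;>
    simp [formOf, Matrix.smul_apply] <;> ring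

/-- the entries of the tangent form in the right unit -/
theorem tf_entry (A Q : Mx 3) (i j : Fin 3) :
    ((2 : ℝ) ^ 58 • Tf ((1 / 2 ^ 7 : ℝ) • A) (26561 / 2 ^ 18) ((1 / 2 ^ 26 : ℝ) • Q)) i j =
      2 ^ 52 * A i j - 26561 * (A * Q * A) i j := by
  unfold Tf
  simp only [Matrix.smul_mul, Matrix.mul_smul, Matrix.smul_apply, Matrix.sub_apply, smul_eq_mul]
  ring

theorem sym_entry (A Q : Mx 3) (hA : Aᵀ = A) (hQ : Qᵀ = Q) (i j : Fin 3) :
    (A * Q * A) i j = (A * Q * A) j i := by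
  have h : (A * Q * A)ᵀ = A * Q * A := by
    rw [Matrix.transpose_mul, Matrix.transpose_mul, hA, hQ, Matrix.mul_assoc]
  rw [← Matrix.transpose_apply (A * Q * A) i j, h]

theorem formOf_tr (q : Fin 6 → ℝ) : (formOf q)ᵀ = formOf q := by
  ext i j
  fin_cases i <;> fin_cases j <;> simp [formOf, Matrix.transpose_apply]

theorem symM_tr (s11 s12 s13 s22 s23 s33 : ℝ) :
    (symM s11 s12 s13 s22 s23 s33)ᵀ = symM s11 s12 s13 s22 s23 s33 := by
  ext i j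
  fin_cases i <;> fin_cases j <;> simp [symM, Matrix.transpose_apply]

/-- an entry of the result -/
theorem entry {s p n : ℕ} {x : ℝ} (h1 : ∑ i, l i = 1) (hs : s ≤ 2 ^ 15)
    (h : SP l (9 * (2 ^ 15 * (2 ^ 15 * 2 ^ 33))) p n x) :
    (R6 0 (2 ^ 82) (Nat.add (Nat.mul (Nat.mul 4503599627370496 s) ON) (Nat.mul 26561 n)) ∧
      R6 0 (2 ^ 82) (Nat.mul 26561 p)) ∧
    2 ^ 52 * (s : ℝ) - 26561 * x =
      lv l (Nat.add (Nat.mul (Nat.mul 4503599627370496 s) ON) (Nat.mul 26561 n)) -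
        lv l (Nat.mul 26561 p) := by
  have hc : Nat.mul 4503599627370496 s < 2 ^ 256 := by
    show 4503599627370496 * s < 2 ^ 256
    omega
  have g1 : R6 0 (Nat.mul 4503599627370496 s) (Nat.mul (Nat.mul 4503599627370496 s) ON) :=
    (R6.cst hc).mono (Nat.zero_le _) le_rfl
  have g2 : lv l (Nat.mul (Nat.mul 4503599627370496 s) ON) =
      ((Nat.mul 4503599627370496 s : ℕ) : ℝ) := lv_cst hc h1
  have g3 := mul0 26561 h.hn (by norm_num)
  have g4 := mul0 26561 h.hp (by norm_num)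
  have g5 : lv l (Nat.mul 26561 n) = (26561 : ℕ) * lv l n := h.hn.lv_mul 26561 (by norm_num) l
  have g6 : lv l (Nat.mul 26561 p) = (26561 : ℕ) * lv l p := h.hp.lv_mul 26561 (by norm_num) l
  have hb : Nat.mul 4503599627370496 s ≤ 2 ^ 67 := by
    show 4503599627370496 * s ≤ 2 ^ 67
    omega
  have hsum : Nat.mul 4503599627370496 s + 26561 * (9 * (2 ^ 15 * (2 ^ 15 * 2 ^ 33))) ≤ 2 ^ 82 :=
    (Nat.add_le_add_right hb _).trans (by norm_num)
  have g7 : lv l (Nat.add (Nat.mul (Nat.mul 4503599627370496 s) ON) (Nat.mul 26561 n)) =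
      lv l (Nat.mul (Nat.mul 4503599627370496 s) ON) + lv l (Nat.mul 26561 n) :=
    g1.lv_add g3 (lt_of_le_of_lt hsum (by norm_num)) l
  refine ⟨⟨(add0 g1 g3 (lt_of_le_of_lt hsum (by norm_num))).up hsum, g4.up (by norm_num)⟩, ?_⟩
  rw [g7, g2, g5, g6, ← h.hv]
  have e : ((Nat.mul 4503599627370496 s : ℕ) : ℝ) = 2 ^ 52 * s := by
    show ((4503599627370496 * s : ℕ) : ℝ) = 2 ^ 52 * s
    push_cast
    norm_num
  rw [e]
  push_cast
  ring

end ForSAux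

open ForSAux

/-- the form `T = 2 S - (26561 / 2 ^ 18) S Q S`, unit `2 ^ -58` -/
theorem forT_sound {l : Fin 6 → ℝ} (h1 : ∑ i, l i = 1) {q0 q1 q2 q3 q4 q5 : ℕ}
    (hq : R6 0 (2 ^ 33) q0 ∧ R6 0 (2 ^ 33) q1 ∧ R6 0 (2 ^ 33) q2 ∧ R6 0 (2 ^ 33) q3 ∧
      R6 0 (2 ^ 33) q4 ∧ R6 0 (2 ^ 33) q5) {u11 u12 u13 u22 u23 u33 : ℕ}
    (hs : sS u11 ≤ 2 ^ 15 ∧ sS u12 ≤ 2 ^ 15 ∧ sS u13 ≤ 2 ^ 15 ∧ sS u22 ≤ 2 ^ 15 ∧
      sS u23 ≤ 2 ^ 15 ∧ sS u33 ≤ 2 ^ 15)
    (k : ℕ → ℕ → ℕ → ℕ → ℕ → ℕ → ℕ → ℕ → ℕ → ℕ → ℕ → ℕ → Bool) :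
    ∃ S : Mx 3, S.IsSymm ∧ ∃ p11 n11 p12 n12 p13 n13 p22 n22 p23 n23 p33 n33,
      forT q0 q1 q2 q3 q4 q5 u11 u12 u13 u22 u23 u33 k =
        k p11 n11 p12 n12 p13 n13 p22 n22 p23 n23 p33 n33 ∧
      SM (2 ^ 82) l ((2 : ℝ) ^ 58 • Tf S (26561 / 2 ^ 18) (formOf ![lv l q0 / 2 ^ 26,
        lv l q1 / 2 ^ 26, lv l q2 / 2 ^ 26, lv l q3 / 2 ^ 26, lv l q4 / 2 ^ 26, lv l q5 / 2 ^ 26]))
        p11 n11 p12 n12 p13 n13 p22 n22 p23 n23 p33 n33 := by
  have hb : 9 * (2 ^ 15 * (2 ^ 15 * 2 ^ 33)) < 2 ^ 256 := by norm_num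
  obtain ⟨a0, a1, a2, a3, a4, a5⟩ := hq
  obtain ⟨s11, s12, s13, s22, s23, s33⟩ := hs
  obtain ⟨p11, n11, p12, n12, p13, n13, p22, n22, p23, n23, p33, n33, hk, g11, g12, g13, g22, g23,
    g33⟩ := sqs_sound (l := l) hb (by norm_num) s11 s12 s13 s22 s23 s33 a0 a1 a2 a3 a4 a5 rfl
  set A : Mx 3 := symM (sS u11) (sS u12) (sS u13) (sS u22) (sS u23) (sS u33) with hA
  set Q : Mx 3 := formOf ![lv l q0, lv l q1, lv l q2, lv l q3, lv l q4, lv l q5] with hQ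
  have hAt : Aᵀ = A := symM_tr _ _ _ _ _ _
  have hQt : Qᵀ = Q := formOf_tr _
  have e11 := entry h1 s11 g11
  have e12 := entry h1 s12 g12
  have e13 := entry h1 s13 g13
  have e22 := entry h1 s22 g22
  have e23 := entry h1 s23 g23
  have e33 := entry h1 s33 g33
  have hf : forT q0 q1 q2 q3 q4 q5 u11 u12 u13 u22 u23 u33 k = k
      (Nat.add (Nat.mul (Nat.mul 4503599627370496 (sS u11)) ON) (Nat.mul 26561 n11))
      (Nat.mul 26561 p11)
      (Nat.add (Nat.mul (Nat.mul 4503599627370496 (sS u12)) ON) (Nat.mul 26561 n12))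
      (Nat.mul 26561 p12)
      (Nat.add (Nat.mul (Nat.mul 4503599627370496 (sS u13)) ON) (Nat.mul 26561 n13))
      (Nat.mul 26561 p13)
      (Nat.add (Nat.mul (Nat.mul 4503599627370496 (sS u22)) ON) (Nat.mul 26561 n22))
      (Nat.mul 26561 p22)
      (Nat.add (Nat.mul (Nat.mul 4503599627370496 (sS u23)) ON) (Nat.mul 26561 n23))
      (Nat.mul 26561 p23)
      (Nat.add (Nat.mul (Nat.mul 4503599627370496 (sS u33)) ON) (Nat.mul 26561 n33))
      (Nat.mul 26561 p33) :=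
      hk (fun p11 n11 p12 n12 p13 n13 p22 n22 p23 n23 p33 n33 => k
        (Nat.add (Nat.mul (Nat.mul 4503599627370496 (sS u11)) ON) (Nat.mul 26561 n11)) (Nat.mul 26561 p11)
        (Nat.add (Nat.mul (Nat.mul 4503599627370496 (sS u12)) ON) (Nat.mul 26561 n12)) (Nat.mul 26561 p12)
        (Nat.add (Nat.mul (Nat.mul 4503599627370496 (sS u13)) ON) (Nat.mul 26561 n13)) (Nat.mul 26561 p13)
        (Nat.add (Nat.mul (Nat.mul 4503599627370496 (sS u22)) ON) (Nat.mul 26561 n22)) (Nat.mul 26561 p22)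
        (Nat.add (Nat.mul (Nat.mul 4503599627370496 (sS u23)) ON) (Nat.mul 26561 n23)) (Nat.mul 26561 p23)
        (Nat.add (Nat.mul (Nat.mul 4503599627370496 (sS u33)) ON) (Nat.mul 26561 n33)) (Nat.mul 26561 p33))
  refine ⟨(1 / 2 ^ 7 : ℝ) • A, ?_, _, _, _, _, _, _, _, _, _, _, _, _, hf, ?_⟩
  · show ((1 / 2 ^ 7 : ℝ) • A)ᵀ = _
    rw [Matrix.transpose_smul, hAt]
  · rw [form_smul]
    refine ⟨e11.1, e12.1, e13.1, e22.1, e23.1, e33.1, ?_, ?_, ?_, ?_, ?_, ?_, ?_, ?_, ?_⟩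
    · rw [tf_entry]; exact e11.2
    · rw [tf_entry]; exact e12.2
    · rw [tf_entry]; exact e13.2
    · rw [tf_entry, sym_entry A Q hAt hQt 1 0]; exact e12.2
    · rw [tf_entry]; exact e22.2
    · rw [tf_entry]; exact e23.2
    · rw [tf_entry, sym_entry A Q hAt hQt 2 0]; exact e13.2
    · rw [tf_entry, sym_entry A Q hAt hQt 2 1]; exact e23.2
    · rw [tf_entry]; exact e33.2

end Pool.Agent.Lib.EPX
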