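import Pool.Agent.Lib.EPX.PkS
import Pool.Agent.Lib.EPL.Itm
import Pool.Agent.Lib.EPL.Wgt

/-!
# EPX.ItD: items, valid items (definitions)

`k = 26` (direct side) or `58` (dual side) is the unit `2 ^ -k` of the lengths, `K = 26` or `60` that of the
coefficients.
-/

namespace Pool.Agent.Lib.EPX

open Pool.Agent.Lib.EPL

/-- an item: length `q`, mass `p`, coefficient `a`, grid index `m` -/
structure IT where
  q : ℕ
  p : ℕ
  a : ℕ
  m : ℕ

/-- the list of the items -/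
noncomputable def It.L (G : It) : List IT :=
  It.rec (motive := fun _ => List IT) [] (fun q p a m _ ih => ⟨q, p, a, m⟩ :: ih) G

theorem It.L_nil : It.nil.L = [] := rfl
theorem It.L_cons (q p a m : ℕ) (t : It) : (It.cons q p a m t).L = ⟨q, p, a, m⟩ :: t.L := rfl

/-- a valid good item -/
structure GoodI (l : Fin 6 → ℝ) (k A : ℕ) (i : IT) : Prop where
  q : R6 0 (2 ^ 100) i.q
  a : R6 0 A i.a
  p : W35 (2 ^ 212) i.p
  m : i.m ≤ 640
  pos : 0 < lv l i.q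
  near : lv l i.q ≤ 10 * 2 ^ k
  mass : qv l i.p ≤ lv l i.a * (2 ^ (k + 32) * Real.exp (-(lv l i.q / 2 ^ k)))

/-- a valid bad item; `k' = k - 6` -/
structure BadI (l : Fin 6 → ℝ) (k k' A : ℕ) (i : IT) : Prop where
  q : R6 0 (2 ^ 100) i.q
  a : R6 0 A i.a
  p : W35 (2 ^ 212) i.p
  lo : ∀ j, 64 * 2 ^ k' ≤ fk i.q (gp j)
  hi : ∀ j, fk i.q (gp j) < 1024 * 2 ^ k'
  m64 : 64 ≤ i.m
  grid : ∀ j, i.m * 2 ^ k' ≤ fk i.q (gp j)
  mass : lv l i.a * (2 ^ (k + 32) * Real.exp (-(lv l i.q / 2 ^ k))) ≤ qv l i.p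

/-- the real items: coefficient, length -/
noncomputable def re (l : Fin 6 → ℝ) (k K : ℕ) (G : List IT) : List (ℝ × ℝ) :=
  G.map fun i => (lv l i.a / 2 ^ K, lv l i.q / 2 ^ k)

end Pool.Agent.Lib.EPX
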