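import Pool.Agent.Lib.EPX.PkC
import Pool.Agent.Lib.EPX.SemX
import Pool.Agent.Lib.EPX.ItD

/-!
# EPX.ItS: lists of items

`It.L`: the list of the items of `G : It`. All statements by induction on `G` with the equations
`It.sum (.cons q p a m t) = p + It.sum t` etc. (all `rfl`, or `rfl` after `cases` on the boolean of the
conditional `cnd`).

`sum_sound`, `sle_sound`, `snl_sound`: value and bound of the sums (`W35.add`, `W35.qv_add`).
`preF_sound`, `pref_sound`: the comparison `pge35_le` (bounds: `c ≤ 2 ^ 27`, at most `2 ^ 9` items with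
masses at most `2 ^ 216`, `F ≤ 2 ^ 216`, `X, Y ≤ 2 ^ 253`: all fields are less than `2 ^ 255`), then
`qv_mono`, `W35.qv_add`, `W35.qv_mul`. In `pref_sound` a good item counted by `sle` has
`pge6 q_b q = true`, hence `lv l q ≤ lv l q_b` (`pge6_le`, `lv_mono`); a bad item not counted by `snl` has
`pge6 q (q_b + ON) = true`, hence `lv l q_b + 1 ≤ lv l q`; the other ones have mass at least `0`.
`F` is not counted only if `pge6 T10 q_b = true`, hence `lv l q_b ≤ c10` (`T10 = c10 * ON`).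
-/

namespace Pool.Agent.Lib.EPX

open Pool.Agent.Lib.EPL

theorem sum_sound {G : It} {b : ℕ} (h : ∀ i ∈ G.L, W35 b i.p) (hb : G.L.length * b < 2 ^ 256)
    (l : Fin 6 → ℝ) :
    W35 (G.L.length * b) G.sum ∧ qv l G.sum = (G.L.map fun i => qv l i.p).sum := by
  induction G with
  | nil =>
    refine ⟨W35.zero.mono (Nat.zero_le _), ?_⟩
    exact qv_zero l
  | cons q p a m t ih =>
    rw [It.L_cons] at h hb ⊢
    rw [List.length_cons] at hb ⊢
    have hp : W35 b p := h ⟨q, p, a, m⟩ List.mem_cons_self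
    have hb' : (t.L.length + 1) * b = b + t.L.length * b := by ring
    rw [hb'] at hb ⊢
    obtain ⟨i1, i2⟩ := ih (fun i hi => h i (List.mem_cons_of_mem _ hi))
      (lt_of_le_of_lt (Nat.le_add_left _ _) hb)
    have e : (It.cons q p a m t).sum = p + t.sum := rfl
    rw [e, List.map_cons, List.sum_cons, hp.qv_add i1 hb l, i2]
    exact ⟨hp.add i1 hb, rfl⟩

theorem sle_sound {G : It} {b : ℕ} (h : ∀ i ∈ G.L, W35 b i.p) (hb : G.L.length * b < 2 ^ 256)
    (l : Fin 6 → ℝ) (q' : ℕ) :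
    W35 (G.L.length * b) (G.sle q') ∧
      qv l (G.sle q') = (G.L.map fun i => if pge6 q' i.q = true then qv l i.p else 0).sum := by
  induction G with
  | nil =>
    refine ⟨W35.zero.mono (Nat.zero_le _), ?_⟩
    exact qv_zero l
  | cons q p a m t ih =>
    rw [It.L_cons] at h hb ⊢
    rw [List.length_cons] at hb ⊢
    have hp : W35 b p := h ⟨q, p, a, m⟩ List.mem_cons_self
    have hb' : (t.L.length + 1) * b = b + t.L.length * b := by ring
    rw [hb'] at hb ⊢
    obtain ⟨i1, i2⟩ := ih (fun i hi => h i (List.mem_cons_of_mem _ hi))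
      (lt_of_le_of_lt (Nat.le_add_left _ _) hb)
    have e : (It.cons q p a m t).sle q' = cnd (pge6 q' q) (p + t.sle q') (t.sle q') := rfl
    rw [List.map_cons, List.sum_cons]
    cases hc : pge6 q' q with
    | true =>
      rw [hc, cnd_pos rfl] at e
      rw [e, hp.qv_add i1 hb l, i2, if_pos rfl]
      exact ⟨hp.add i1 hb, rfl⟩
    | false =>
      rw [hc, cnd_neg rfl] at e
      rw [e, i2, if_neg (by simp), zero_add]
      exact ⟨i1.mono (Nat.le_add_left _ _), rfl⟩

theorem snl_sound {G : It} {b : ℕ} (h : ∀ i ∈ G.L, W35 b i.p) (hb : G.L.length * b < 2 ^ 256)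
    (l : Fin 6 → ℝ) (q' : ℕ) :
    W35 (G.L.length * b) (G.snl q') ∧
      qv l (G.snl q') = (G.L.map fun i => if pge6 i.q q' = true then 0 else qv l i.p).sum := by
  induction G with
  | nil =>
    refine ⟨W35.zero.mono (Nat.zero_le _), ?_⟩
    exact qv_zero l
  | cons q p a m t ih =>
    rw [It.L_cons] at h hb ⊢
    rw [List.length_cons] at hb ⊢
    have hp : W35 b p := h ⟨q, p, a, m⟩ List.mem_cons_self
    have hb' : (t.L.length + 1) * b = b + t.L.length * b := by ring
    rw [hb'] at hb ⊢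
    obtain ⟨i1, i2⟩ := ih (fun i hi => h i (List.mem_cons_of_mem _ hi))
      (lt_of_le_of_lt (Nat.le_add_left _ _) hb)
    have e : (It.cons q p a m t).snl q' = cnd (pge6 q q') (t.snl q') (p + t.snl q') := rfl
    rw [List.map_cons, List.sum_cons]
    cases hc : pge6 q q' with
    | true =>
      rw [hc, cnd_pos rfl] at e
      rw [e, i2, if_pos rfl, zero_add]
      exact ⟨i1.mono (Nat.le_add_left _ _), rfl⟩
    | false =>
      rw [hc, cnd_neg rfl] at e
      rw [e, hp.qv_add i1 hb l, i2, if_neg (by simp)]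
      exact ⟨hp.add i1 hb, rfl⟩

/-- the smallest grid index -/
theorem mmin_sound (G : It) : G.mmin ≤ 640 ∧ (∀ i ∈ G.L, G.mmin ≤ i.m) ∧
    ((∀ i ∈ G.L, 64 ≤ i.m) → 64 ≤ G.mmin) := by
  induction G with
  | nil => exact ⟨le_rfl, fun i hi => absurd hi (by simp [It.L_nil]), fun _ => by decide⟩
  | cons q p a m t ih =>
    obtain ⟨i1, i2, i3⟩ := ih
    have e : (It.cons q p a m t).mmin = cnd (Nat.ble m t.mmin) m t.mmin := rfl
    rw [It.L_cons]
    cases hc : Nat.ble m t.mmin with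
    | true =>
      have hle := Nat.le_of_ble_eq_true hc
      rw [hc, cnd_pos rfl] at e
      rw [e]
      refine ⟨hle.trans i1, fun i hi => ?_, fun h => h ⟨q, p, a, m⟩ List.mem_cons_self⟩
      rcases List.mem_cons.mp hi with rfl | hi
      · exact le_rfl
      · exact hle.trans (i2 i hi)
    | false =>
      have hlt : t.mmin < m := by
        by_contra hcon
        have := Nat.ble_eq_true_of_le (not_lt.mp hcon)
        rw [hc] at this
        exact absurd this (by simp)
      rw [hc, cnd_neg rfl] at e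
      rw [e]
      refine ⟨i1, fun i hi => ?_, fun h => i3 fun i hi => h i (List.mem_cons_of_mem _ hi)⟩
      rcases List.mem_cons.mp hi with rfl | hi
      · exact hlt.le
      · exact i2 i hi

namespace ItSAux

theorem n216 {n : ℕ} (h : n ≤ 2 ^ 9) : n * 2 ^ 216 ≤ 2 ^ 225 := by
  have e : (2 : ℕ) ^ 225 = 2 ^ 9 * 2 ^ 216 := by rw [← pow_add]
  rw [e]
  exact Nat.mul_le_mul_right _ h

theorem p256 : (2 : ℕ) ^ 225 < 2 ^ 256 := Nat.pow_lt_pow_right (by norm_num) (by norm_num)

/-- the comparison of the two sides -/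
theorem cmp {l : Fin 6 → ℝ} (h0 : ∀ i, 0 ≤ l i) {g d c X Y : ℕ} (hg : W35 (2 ^ 225) g)
    (hd : W35 (2 ^ 226) d) (hc : c ≤ 2 ^ 27) (hX : W35 (2 ^ 253) X) (hY : W35 (2 ^ 253) Y)
    (h : pge35 (Nat.add X (Nat.mul c g)) (Nat.add Y (Nat.mul c d)) = true) :
    qv l Y + c * qv l d ≤ qv l X + c * qv l g := by
  have e1 : (2 : ℕ) ^ 27 * 2 ^ 225 = 2 ^ 252 := by rw [← pow_add]
  have e2 : (2 : ℕ) ^ 27 * 2 ^ 226 = 2 ^ 253 := by rw [← pow_add]
  have c1 : c * 2 ^ 225 ≤ 2 ^ 252 := by
    rw [← e1]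
    exact Nat.mul_le_mul_right _ hc
  have c2 : c * 2 ^ 226 ≤ 2 ^ 253 := by
    rw [← e2]
    exact Nat.mul_le_mul_right _ hc
  have l1 : c * 2 ^ 225 < 2 ^ 256 := lt_of_le_of_lt c1 (by norm_num)
  have l2 : c * 2 ^ 226 < 2 ^ 256 := lt_of_le_of_lt c2 (by norm_num)
  have g1 := hg.mul c l1
  have d1 := hd.mul c l2
  have k1 : 2 ^ 253 + c * 2 ^ 225 < 2 ^ 255 :=
    lt_of_le_of_lt (Nat.add_le_add_left c1 _) (by norm_num)
  have k2 : 2 ^ 253 + c * 2 ^ 226 < 2 ^ 255 :=
    lt_of_le_of_lt (Nat.add_le_add_left c2 _) (by norm_num)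
  have h255 : (2 : ℕ) ^ 255 < 2 ^ 256 := by norm_num
  have s1 := hX.add g1 (k1.trans h255)
  have s2 := hY.add d1 (k2.trans h255)
  have hle := pge35_le s1 s2 k1 k2 h
  have h2 := qv_mono h0 hle
  rw [hX.qv_add g1 (k1.trans h255) l, hY.qv_add d1 (k2.trans h255) l, hg.qv_mul c l1 l,
    hd.qv_mul c l2 l] at h2
  exact h2

/-- two masses -/
theorem add2 {x y : ℕ} (hx : W35 (2 ^ 225) x) (hy : W35 (2 ^ 216) y) (l : Fin 6 → ℝ) :
    W35 (2 ^ 226) (Nat.add x y) ∧ qv l (Nat.add x y) = qv l x + qv l y := by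
  have h : 2 ^ 225 + 2 ^ 216 < (2 : ℕ) ^ 256 := by norm_num
  exact ⟨(hx.add hy h).mono (by norm_num), hx.qv_add hy h l⟩

end ItSAux

open ItSAux

/-- the last prefix condition -/
theorem preF_sound {l : Fin 6 → ℝ} (h0 : ∀ i, 0 ≤ l i) {G Bd : It} {F c X Y : ℕ}
    (hG : ∀ i ∈ G.L, W35 (2 ^ 216) i.p) (hB : ∀ i ∈ Bd.L, W35 (2 ^ 216) i.p)
    (hGn : G.L.length ≤ 2 ^ 9) (hBn : Bd.L.length ≤ 2 ^ 9) (hF : W35 (2 ^ 216) F)
    (hc : c ≤ 2 ^ 27) (hX : W35 (2 ^ 253) X) (hY : W35 (2 ^ 253) Y)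
    (h : preF G Bd F c X Y = true) :
    qv l Y + c * ((Bd.L.map fun i => qv l i.p).sum + qv l F) ≤
      qv l X + c * (G.L.map fun i => qv l i.p).sum := by
  obtain ⟨g1, g2⟩ := sum_sound hG (lt_of_le_of_lt (n216 hGn) p256) l
  obtain ⟨b1, b2⟩ := sum_sound hB (lt_of_le_of_lt (n216 hBn) p256) l
  obtain ⟨d1, d2⟩ := add2 (b1.mono (n216 hBn)) hF l
  have := cmp h0 (g1.mono (n216 hGn)) d1 hc hX hY h
  rw [g2, d2, b2] at this
  exact this

/-- the prefix conditions -/
theorem pref_sound {l : Fin 6 → ℝ} (h0 : ∀ i, 0 ≤ l i) (h1 : ∑ i, l i = 1) {G Bd Bl : It}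
    {F c c10 X Y : ℕ}
    (hG : ∀ i ∈ G.L, R6 0 (2 ^ 100) i.q ∧ W35 (2 ^ 216) i.p)
    (hB : ∀ i ∈ Bd.L, R6 0 (2 ^ 100) i.q ∧ W35 (2 ^ 216) i.p)
    (hBl : ∀ i ∈ Bl.L, R6 0 (2 ^ 100) i.q)
    (hGn : G.L.length ≤ 2 ^ 9) (hBn : Bd.L.length ≤ 2 ^ 9) (hF : W35 (2 ^ 216) F)
    (hc : c ≤ 2 ^ 27) (hc10 : c10 < 2 ^ 255) (hX : W35 (2 ^ 253) X) (hY : W35 (2 ^ 253) Y)
    (h : pref G Bd F (Nat.mul c10 ON) c X Y Bl = true) :
    ∀ b ∈ Bl.L,
      qv l Y + c * ((Bd.L.map fun i => if lv l i.q ≤ lv l b.q then qv l i.p else 0).sum +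
        (if (c10 : ℝ) < lv l b.q then qv l F else 0)) ≤
      qv l X + c * (G.L.map fun i => if lv l i.q ≤ lv l b.q then qv l i.p else 0).sum := by
  induction Bl with
  | nil => intro b hb; exact absurd hb (by simp [It.L_nil])
  | cons q p a m t ih =>
    have h' : cnd (pge35 (Nat.add X (Nat.mul c (G.sle q)))
        (Nat.add Y (Nat.mul c (Nat.add (Bd.snl (Nat.add q ON))
          (cnd (pge6 (Nat.mul c10 ON) q) 0 F)))))
        (pref G Bd F (Nat.mul c10 ON) c X Y t) false = true := h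
    rw [cnd_and] at h'
    obtain ⟨h2, h3⟩ := h'
    rw [It.L_cons] at hBl ⊢
    intro b hb
    rcases List.mem_cons.mp hb with hb | hb
    swap
    · exact ih (fun i hi => hBl i (List.mem_cons_of_mem _ hi)) h3 b hb
    subst hb
    show qv l Y + c * ((Bd.L.map fun i => if lv l i.q ≤ lv l q then qv l i.p else 0).sum +
        (if (c10 : ℝ) < lv l q then qv l F else 0)) ≤
      qv l X + c * (G.L.map fun i => if lv l i.q ≤ lv l q then qv l i.p else 0).sum
    have hq : R6 0 (2 ^ 100) q := hBl ⟨q, p, a, m⟩ List.mem_cons_self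
    have hq1 : R6 0 (2 ^ 100 + 1) (Nat.add q ON) := by
      have := hq.add R6.one (by norm_num)
      exact this.mono (by norm_num) le_rfl
    have hq1v : lv l (Nat.add q ON) = lv l q + 1 := by
      have : lv l (q + ON) = lv l q + lv l ON := hq.lv_add R6.one (by norm_num) l
      rw [lv_one, h1] at this
      exact this
    obtain ⟨g1, g2⟩ := sle_sound (fun i hi => (hG i hi).2) (lt_of_le_of_lt (n216 hGn) p256) l q
    obtain ⟨b1, b2⟩ := snl_sound (fun i hi => (hB i hi).2) (lt_of_le_of_lt (n216 hBn) p256) l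
      (Nat.add q ON)
    have hFc : W35 (2 ^ 216) (cnd (pge6 (Nat.mul c10 ON) q) 0 F) ∧
        (if (c10 : ℝ) < lv l q then qv l F else 0) ≤ qv l (cnd (pge6 (Nat.mul c10 ON) q) 0 F) := by
      cases hp : pge6 (Nat.mul c10 ON) q with
      | true =>
        rw [cnd_pos rfl]
        refine ⟨W35.zero.mono (Nat.zero_le _), ?_⟩
        have hle := pge6_le (R6.cst (hc10.trans (by norm_num))) hq hc10 (by norm_num) hp
        have hv := lv_mono h0 hle
        rw [lv_cst (hc10.trans (by norm_num)) h1] at hv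
        rw [if_neg (not_lt.mpr hv), qv_zero]
      | false =>
        rw [cnd_neg rfl]
        refine ⟨hF, ?_⟩
        split_ifs
        · exact le_rfl
        · exact qv_nonneg h0 F
    obtain ⟨f1, f2⟩ := hFc
    generalize cnd (pge6 (Nat.mul c10 ON) q) 0 F = F' at *
    obtain ⟨d1, d2⟩ := add2 (b1.mono (n216 hBn)) f1 l
    have key := cmp h0 (g1.mono (n216 hGn)) d1 hc hX hY h2
    rw [g2, d2, b2] at key
    have hc0 : (0 : ℝ) ≤ c := Nat.cast_nonneg c
    -- the good items
    have hgood : (G.L.map fun i => if pge6 q i.q = true then qv l i.p else 0).sum ≤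
        (G.L.map fun i => if lv l i.q ≤ lv l q then qv l i.p else 0).sum := by
      refine List.sum_le_sum fun i hi => ?_
      by_cases hp : pge6 q i.q = true
      · have hle := pge6_le hq (hG i hi).1 (by norm_num) (by norm_num) hp
        rw [if_pos hp, if_pos (lv_mono h0 hle)]
      · rw [if_neg hp]
        split_ifs
        · exact qv_nonneg h0 _
        · exact le_rfl
    have hbad : (Bd.L.map fun i => if lv l i.q ≤ lv l q then qv l i.p else 0).sum ≤
        (Bd.L.map fun i => if pge6 i.q (Nat.add q ON) = true then 0 else qv l i.p).sum := by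
      refine List.sum_le_sum fun i hi => ?_
      by_cases hp : pge6 i.q (Nat.add q ON) = true
      · have hle := pge6_le (hB i hi).1 hq1 (by norm_num) (by norm_num) hp
        have hv := lv_mono h0 hle
        rw [hq1v] at hv
        rw [if_pos hp, if_neg (not_le.mpr (by linarith))]
      · rw [if_neg hp]
        split_ifs
        · exact le_rfl
        · exact qv_nonneg h0 _
    have k1 := mul_le_mul_of_nonneg_left hgood hc0
    have k2 := mul_le_mul_of_nonneg_left (add_le_add hbad f2) hc0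
    linarith

end Pool.Agent.Lib.EPX
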