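import Pool.Agent.Lib.EPX.DirS
import Pool.Agent.Lib.EPX.DuaS
import Pool.Agent.Lib.EPX.FinA
import Pool.Agent.Lib.EPX.FinB
import Pool.Agent.Lib.EPL.Thsp
import Pool.Agent.Lib.EPL.Csb

/-!
# EPX.LeafC: the end of the soundness proof of a leaf (real part)
-/

open MeasureTheory Set Filter Topology Matrix
open scoped Matrix.Norms.Elementwise

namespace Pool.Agent.Lib.EPX

open Pool.Agent.Lib.EPL Pool.Agent.Lib.EpZ Pool.Agent.Lib.EPS Pool.Agent.Lib.FCC

/-- the far item as a packed number -/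
theorem far_pack {l : Fin 6 → ℝ} (h1 : ∑ i, l i = 1) {F c k b : ℕ} (hF : R6 0 b F)
    (hb : b + c < 2 ^ 150) (hk : k ≤ 58) :
    W35 (2 ^ (k + 1) * (b + c)) (Nat.mul (Nat.shiftLeft (Nat.add F (Nat.mul c ON)) k) ON) ∧
      qv l (Nat.mul (Nat.shiftLeft (Nat.add F (Nat.mul c ON)) k) ON) =
        2 ^ k * (lv l F + c) := by
  have hk2 : (2 : ℕ) ^ k ≤ 2 ^ 58 := Nat.pow_le_pow_right (by norm_num) hk
  have hc : c < 2 ^ 256 := by
    have : (2 : ℕ) ^ 150 < 2 ^ 256 := by norm_num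
    omega
  have h2 : R6 c c (c * ON) := R6.cst hc
  have hbc : b + c < 2 ^ 256 := lt_trans hb (by norm_num)
  have h3 : R6 (0 + c) (b + c) (F + c * ON) := hF.add h2 hbc
  have h4 : 2 ^ k * (b + c) < 2 ^ 256 := by
    calc 2 ^ k * (b + c) ≤ 2 ^ 58 * 2 ^ 150 := Nat.mul_le_mul hk2 hb.le
      _ < 2 ^ 256 := by norm_num
  have h5 : R6 (2 ^ k * (0 + c)) (2 ^ k * (b + c)) (2 ^ k * (F + c * ON)) := h3.mul _ h4
  have e : Nat.mul (Nat.shiftLeft (Nat.add F (Nat.mul c ON)) k) ON =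
      2 ^ k * (F + c * ON) * ON := by
    show (F + c * ON) <<< k * ON = _
    rw [Nat.shiftLeft_eq]
    ring
  have h6 : 2 * (2 ^ k * (b + c) * 1) < 2 ^ 256 := by
    calc 2 * (2 ^ k * (b + c) * 1) ≤ 2 * (2 ^ 58 * 2 ^ 150 * 1) := by
          have := Nat.mul_le_mul hk2 hb.le
          omega
      _ < 2 ^ 256 := by norm_num
  rw [e]
  refine ⟨(h5.prod R6.one h6).mono (le_of_eq (by rw [pow_succ]; ring)), ?_⟩
  rw [h5.qv_prod R6.one h6, h3.lv_mul _ h4, hF.lv_add h2 hbc, lv_cst hc h1, lv_one, h1]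
  push_cast
  ring

/-- masses of the good items -/
theorem good_sum {l : Fin 6 → ℝ} {k K A : ℕ} {G : It} (hG : ∀ i ∈ G.L, GoodI l k A i)
    (P : ℝ → Prop) [DecidablePred P] :
    (G.L.map fun i => if P (lv l i.q / 2 ^ k) then qv l i.p else 0).sum ≤
      2 ^ (k + 32 + K) * ((re l k K G.L).map fun j =>
        if P j.2 then j.1 * Real.exp (-j.2) else 0).sum := by
  unfold re
  rw [List.map_map, ← List.sum_map_mul_left]
  refine List.sum_le_sum fun i hi => ?_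
  simp only [Function.comp]
  split_ifs
  · refine (hG i hi).mass.trans (le_of_eq ?_)
    rw [pow_add _ (k + 32) K]
    field_simp
  · simp

/-- masses of the bad items -/
theorem bad_sum {l : Fin 6 → ℝ} {k k' K A : ℕ} {B : It} (hB : ∀ i ∈ B.L, BadI l k k' A i)
    (P : ℝ → Prop) [DecidablePred P] :
    2 ^ (k + 32 + K) * ((re l k K B.L).map fun j =>
        if P j.2 then j.1 * Real.exp (-j.2) else 0).sum ≤
      (B.L.map fun i => if P (lv l i.q / 2 ^ k) then qv l i.p else 0).sum := by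
  unfold re
  rw [List.map_map, ← List.sum_map_mul_left]
  refine List.sum_le_sum fun i hi => ?_
  simp only [Function.comp]
  split_ifs
  · refine le_trans (le_of_eq ?_) (hB i hi).mass
    rw [pow_add _ (k + 32) K]
    field_simp
  · simp

theorem beta_num1 : 2 ^ 58 * (2 * (15 / Real.pi) * (488 / 10 ^ 6)) ≤
    ((1343944017005311 : ℕ) : ℝ) := by
  have hpi := Real.pi_pos
  have hpi1 := Real.pi_gt_d6
  rw [show (2 : ℝ) ^ 58 * (2 * (15 / Real.pi) * (488 / 10 ^ 6)) =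
    (2 ^ 58 * 30 * 488 / 10 ^ 6) / Real.pi by ring, div_le_iff₀ hpi]
  refine le_trans ?_ (mul_le_mul_of_nonneg_left hpi1.le (Nat.cast_nonneg _))
  norm_num

theorem beta_num2 : 2 ^ 92 * (2 * (15 / Real.pi) * (488 / 10 ^ 6)) ≤
    ((23088782402770707885558941 : ℕ) : ℝ) := by
  have hpi := Real.pi_pos
  have hpi1 := Real.pi_gt_d6
  rw [show (2 : ℝ) ^ 92 * (2 * (15 / Real.pi) * (488 / 10 ^ 6)) =
    (2 ^ 92 * 30 * 488 / 10 ^ 6) / Real.pi by ring, div_le_iff₀ hpi]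
  refine le_trans ?_ (mul_le_mul_of_nonneg_left hpi1.le (Nat.cast_nonneg _))
  norm_num

theorem BadI.pos {l : Fin 6 → ℝ} (h0 : ∀ i, 0 ≤ l i) (h1 : ∑ i, l i = 1) {k k' A : ℕ} {i : IT}
    (h : BadI l k k' A i) : 0 < lv l i.q := by
  have h2 : R6 (64 * 2 ^ k') (2 ^ 100) i.q := ⟨h.q.lt, h.q.supp, h.lo, h.q.hi⟩
  have h3 := h2.le_lv h0 h1
  have h4 : (0 : ℝ) < ((64 * 2 ^ k' : ℕ) : ℝ) := by positivity
  linarith

theorem leaf_end {l : Fin 6 → ℝ} (h0 : ∀ i, 0 ≤ l i) (h1 : ∑ i, l i = 1) {A : Mx 3} (hA : PD A)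
    {z w : Fin 3 → ℝ} (hzw : (vecMulVec z w).trace = 0) (hz : qr A z ≤ 15)
    (hw' : Real.pi ^ 2 * qr A⁻¹ w ≤ 15)
    {L1 L2 : Lst} (H1 : Half L1.vecs) (H2 : Half L2.vecs) (n1 : L1.toList.length ≤ 335)
    (n2 : L2.toList.length ≤ 280)
    (T1 : TailOK A L1.vecs (488 / 10 ^ 6) 10) (T2 : TailOK (Pd A) L2.vecs (488 / 10 ^ 6) 10)
    {G Bd : It} {F6 VP VN : ℕ}
    (hD : DirI l L1.toList.length (fun t => 0 + (L1.toList.map fun v =>
      qf (Hx A (vecMulVec z w)) v.vec * Real.exp (-(t * qf A v.vec))).sum) G Bd F6 VP VN)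
    {F : ℕ} (wF : W35 (2 ^ 130) F) (vF : qv l F = 2 ^ 26 * (lv l F6 + (1343944017005311 : ℕ)))
    (hpF : preF G Bd F 1 0 0 = true) (hpr : pref G Bd F (Nat.mul 671088639 ON) 1 0 0 Bd = true)
    {G' Bd' : It} {F6' : ℕ}
    (hU : DuaI l L2.toList.length (fun t => 0 + (L2.toList.map fun v =>
      qf (Hx (Pd A) (-(vecMulVec z w)ᵀ)) v.vec * Real.exp (-(t * qf (Pd A) v.vec))).sum)
      G' Bd' F6')
    {ck sm th : ℕ} (hck1 : 1 ≤ ck) (hck : ck ≤ 2 ^ 17) (hth : th ≤ 10)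
    (hdet : Real.pi ^ ((3 : ℝ) / 2) * A.det ^ (-(1 : ℝ) / 2) ≤ ck / 2 ^ 16)
    {F' : ℕ} (wF' : W35 (2 ^ 190) F')
    (vF' : qv l F' = 2 ^ 58 * (lv l F6' + (23088782402770707885558941 : ℕ)))
    (hfin : fin ck VP (Nat.add VN (Nat.mul 2 F)) sm th G' Bd' F' = true)
    {s : ℝ} (hs : 3 / 2 < s) : ¬ LocMin s A := by
  have hpi := Real.pi_pos
  have hpi1 := Real.pi_gt_d20
  set X : Mx 3 := vecMulVec z w with hX
  have hP : PD (Pd A) := Pd_pd hA
  -- the constant β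
  set β : ℝ := 15 / Real.pi with hβ
  have hβ0 : 0 ≤ β := by positivity
  have hββ : (15 : ℝ) * 15 ≤ (β * Real.pi) ^ 2 := by
    rw [hβ, div_mul_cancel₀ _ hpi.ne']
    norm_num
  have hb1 : ∀ x : Fin 3 → ℤ, |qf (Hx A X) x| ≤ 2 * β * qf A x := fun x =>
    beta_dir hA z w hβ0 hz hw' hββ x
  have hb2 : ∀ x : Fin 3 → ℤ, |qf (Hx (Pd A) (-Xᵀ)) x| ≤ 2 * β * qf (Pd A) x := by
    intro x
    have h := beta_dual hA z w hβ0 hz hw' hββ x
    have e1 : qf (Hx (Pd A) (-Xᵀ)) x = -(Real.pi ^ 2 * qf (Hx A⁻¹ Xᵀ) x) := by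
      unfold Pd
      rw [Hx_scale, Hx_neg, smul_neg]
      unfold qf
      rw [← qr_smul]
      unfold qr
      rw [neg_mulVec, dotProduct_neg]
    have e2 : qf (Pd A) x = Real.pi ^ 2 * qf A⁻¹ x := qr_smul _ _ _
    rw [e1, e2, abs_neg, abs_mul, abs_of_pos (by positivity : (0 : ℝ) < Real.pi ^ 2)]
    have := mul_le_mul_of_nonneg_left h (by positivity : (0 : ℝ) ≤ Real.pi ^ 2)
    linarith
  -- the far item of the direct side
  have nL1 : (L1.toList.length : ℝ) ≤ 335 := by exact_mod_cast n1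
  set Md : ℝ := lv l F6 / 2 ^ 58 + 2 * β * (488 / 10 ^ 6) with hMd
  have hlF : 0 ≤ lv l F6 := lv_nonneg h0 _
  have hMd0 : 0 ≤ Md := by positivity
  have hβ1 : 2 ^ 58 * (2 * β * (488 / 10 ^ 6)) ≤ ((1343944017005311 : ℕ) : ℝ) := beta_num1
  have hMdF : 2 ^ 84 * Md ≤ qv l F := by
    rw [vF, hMd]
    have : (2 : ℝ) ^ 84 * (lv l F6 / 2 ^ 58 + 2 * β * (488 / 10 ^ 6)) =
        2 ^ 26 * (lv l F6 + 2 ^ 58 * (2 * β * (488 / 10 ^ 6))) := by ring
    rw [this]
    exact mul_le_mul_of_nonneg_left (by linarith) (by positivity)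
  set GD := re l 26 26 G.L with hGD
  set BD := re l 26 26 Bd.L with hBD
  have hGl : ∀ i ∈ GD, 0 ≤ i.1 ∧ 0 < i.2 ∧ i.2 ≤ 10 := by
    intro i hi
    obtain ⟨j, hj, rfl⟩ := List.mem_map.mp hi
    have h := hD.hG j hj
    refine ⟨div_nonneg (lv_nonneg h0 _) (by positivity), div_pos h.pos (by positivity), ?_⟩
    rw [div_le_iff₀ (by positivity)]
    exact h.near
  have hBl : ∀ i ∈ BD, 0 < i.2 := by
    intro i hi
    obtain ⟨j, hj, rfl⟩ := List.mem_map.mp hi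
    exact div_pos ((hD.hB j hj).pos h0 h1) (by positivity)
  have hlow : ∀ t : ℝ, 1 ≤ t → 2 * (eS GD t - eS BD t - Md * Real.exp (-((t - 1) * 10))) ≤
      Th A (Hx A X) t := by
    intro t ht
    refine le_trans ?_ (Th_split hA (Hx A X) hβ0 hb1 H1 T1 ht)
    have h := hD.low t ht
    have e : (L1.vecs.map fun x => qf (Hx A X) x * Real.exp (-(t * qf A x))).sum =
        (L1.toList.map fun v => qf (Hx A X) v.vec * Real.exp (-(t * qf A v.vec))).sum := by
      unfold Lst.vecs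
      rw [List.map_map]
      rfl
    rw [e]
    rw [zero_add] at h
    rw [hMd, add_mul]
    linarith
  have hab : ∀ t : ℝ, 1 ≤ t → 0 ≤ eS GD t - eS BD t - Md * Real.exp (-((t - 1) * 10)) := by
    intro t ht
    have hp1 : ∀ i ∈ G.L, R6 0 (2 ^ 100) i.q ∧ W35 (2 ^ 216) i.p := fun i hi =>
      ⟨(hD.hG i hi).q, (hD.hG i hi).p.mono (by norm_num)⟩
    have hp2 : ∀ i ∈ Bd.L, R6 0 (2 ^ 100) i.q ∧ W35 (2 ^ 216) i.p := fun i hi =>
      ⟨(hD.hB i hi).q, (hD.hB i hi).p.mono (by norm_num)⟩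
    have nG : G.L.length ≤ 2 ^ 9 := (hD.nG.trans n1).trans (by norm_num)
    have nB : Bd.L.length ≤ 2 ^ 9 := (hD.nB.trans n1).trans (by norm_num)
    have wF2 : W35 (2 ^ 216) F := wF.mono (by norm_num)
    have z35 : W35 (2 ^ 253) 0 := W35.zero.mono (Nat.zero_le _)
    have hpre := pref_sound h0 h1 hp1 hp2 (fun i hi => (hp2 i hi).1) nG nB wF2 (by norm_num)
      (by norm_num) z35 z35 hpr
    have hlast := preF_sound h0 (fun i hi => (hp1 i hi).2) (fun i hi => (hp2 i hi).2) nG nB wF2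
      (by norm_num) z35 z35 hpF
    have hab := itm_abel (G := GD) (B := BD) (M := Md) (W := 0) (y0 := 0) (ℓ := 10)
      (fun i hi => (hGl i hi).1) hMd0 le_rfl (fun b hb => (hBl b hb).le) (by norm_num) ?_ ?_ ht
    · simpa using hab
    · intro b hb
      obtain ⟨j, hj, rfl⟩ := List.mem_map.mp hb
      have h2 := hpre j hj
      simp only [qv_zero, Nat.cast_one, one_mul, zero_add] at h2
      have e1 : ∀ x : ℝ, (x / 2 ^ 26 ≤ lv l j.q / 2 ^ 26) ↔ x ≤ lv l j.q := fun x =>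
        div_le_div_iff_of_pos_right (by positivity)
      have g1 := good_sum (K := 26) hD.hG (fun x => x ≤ lv l j.q / 2 ^ 26)
      have g2 := bad_sum (K := 26) hD.hB (fun x => x ≤ lv l j.q / 2 ^ 26)
      simp only [e1] at g1 g2
      rw [← hGD] at g1
      rw [← hBD] at g2
      have g3 : (if (10 : ℝ) < lv l j.q / 2 ^ 26 then Md else 0) * 2 ^ 84 ≤
          (if ((671088639 : ℕ) : ℝ) < lv l j.q then qv l F else 0) := by
        split_ifs with c1 c2 c2
        · linarith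
        · exfalso
          apply c2
          rw [lt_div_iff₀ (by positivity)] at c1
          push_cast
          linarith
        · rw [zero_mul]
          exact qv_nonneg h0 _
        · simp
      rw [show 26 + 32 + 26 = 84 from rfl] at g1 g2
      show -(0 : ℝ) ≤ _ - _ - (if (10 : ℝ) < lv l j.q / 2 ^ 26 then Md else 0)
      have h3 : (0 : ℝ) < 2 ^ 84 := by positivity
      generalize (if (10 : ℝ) < lv l j.q / 2 ^ 26 then Md else 0) = m1 at g3 ⊢
      generalize (if ((671088639 : ℕ) : ℝ) < lv l j.q then qv l F else 0) = m2 at g3 h2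
      generalize (GD.map fun i => if i.2 ≤ lv l j.q / 2 ^ 26 then i.1 * Real.exp (-i.2)
        else 0).sum = s1 at g1 ⊢
      generalize (BD.map fun i => if i.2 ≤ lv l j.q / 2 ^ 26 then i.1 * Real.exp (-i.2)
        else 0).sum = s2 at g2 ⊢
      generalize (G.L.map fun i => if lv l i.q ≤ lv l j.q then qv l i.p else 0).sum = s3 at g1 h2
      generalize (Bd.L.map fun i => if lv l i.q ≤ lv l j.q then qv l i.p else 0).sum = s4
        at g2 h2
      have h4 : 2 ^ 84 * s2 + m1 * 2 ^ 84 ≤ 2 ^ 84 * s1 := by linarith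
      have h5 : 0 ≤ 2 ^ 84 * (s1 - s2 - m1) := by linarith
      have h6 := nonneg_of_mul_nonneg_right h5 h3
      linarith
    · simp only [qv_zero, Nat.cast_one, one_mul, zero_add] at hlast
      have g1 := good_sum (K := 26) hD.hG (fun _ => True)
      have g2 := bad_sum (K := 26) hD.hB (fun _ => True)
      simp only [if_true] at g1 g2
      rw [← hGD] at g1
      rw [← hBD] at g2
      have g3 : (GD.map fun i => if i.2 ≤ 10 then i.1 * Real.exp (-i.2) else 0).sum =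
          (GD.map fun i => i.1 * Real.exp (-i.2)).sum := by
        congr 1
        refine List.map_congr_left fun i hi => ?_
        rw [if_pos (hGl i hi).2.2]
      have g4 : (BD.map fun i => if i.2 ≤ 10 then i.1 * Real.exp (-i.2) else 0).sum ≤
          (BD.map fun i => i.1 * Real.exp (-i.2)).sum := by
        refine List.sum_le_sum fun i hi => ?_
        split_ifs
        · exact le_rfl
        · obtain ⟨j, hj, rfl⟩ := List.mem_map.mp hi
          exact mul_nonneg (div_nonneg (lv_nonneg h0 _) (by positivity)) (Real.exp_pos _).le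
      rw [g3]
      rw [show 26 + 32 + 26 = 84 from rfl] at g1 g2
      have h3 : (0 : ℝ) < 2 ^ 84 := by positivity
      have h5 : 0 ≤ 2 ^ 84 * ((GD.map fun i => i.1 * Real.exp (-i.2)).sum -
        (BD.map fun i => i.1 * Real.exp (-i.2)).sum - Md) := by linarith
      have h6 := nonneg_of_mul_nonneg_right h5 h3
      linarith
  -- the value of the direct side
  set Dr : ℝ := (GD.map fun i => i.1 * gw i.2).sum - (BD.map fun i => i.1 * gw i.2).sum -
    Md * (1 / 10 + 3 / (2 * 10 ^ 2)) with hDr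
  have wVP : W35 (2 ^ 140) VP := hD.hVP.mono (by
    calc L1.toList.length * 2 ^ 115 ≤ 335 * 2 ^ 115 := Nat.mul_le_mul_right _ n1
      _ ≤ 2 ^ 140 := by norm_num)
  have wVN0 : W35 (335 * 2 ^ 126) VN := hD.hVN.mono (Nat.mul_le_mul_right _ n1)
  have wF2 : W35 (2 * 2 ^ 130) (2 * F) := wF.mul 2 (by norm_num)
  have wVN : W35 (2 ^ 140) (Nat.add VN (Nat.mul 2 F)) := by
    have h := wVN0.add wF2 (by norm_num)
    exact h.mono (by norm_num)
  have vVN : qv l (Nat.add VN (Nat.mul 2 F)) = qv l VN + 2 * qv l F := by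
    have h := wVN0.qv_add wF2 (by norm_num) l
    rw [wF.qv_mul 2 (by norm_num)] at h
    exact_mod_cast h
  have hDval : qv l VP - qv l (Nat.add VN (Nat.mul 2 F)) ≤ 2 ^ 88 * Dr := by
    rw [vVN, hDr]
    have a1 := hD.vp
    have a2 := hD.vn
    rw [← hGD] at a1
    rw [← hBD] at a2
    have a3 : 2 ^ 88 * (Md * (1 / 10 + 3 / (2 * 10 ^ 2))) ≤ 2 * (2 ^ 84 * Md) := by
      have : (2 : ℝ) * (2 ^ 84 * Md) - 2 ^ 88 * (Md * (1 / 10 + 3 / (2 * 10 ^ 2))) =
          2 ^ 84 * Md * (2 - 16 * (23 / 200)) := by ring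
      have h5 : (0 : ℝ) ≤ 2 ^ 84 * Md * (2 - 16 * (23 / 200)) := by
        refine mul_nonneg (by positivity) (by norm_num)
      linarith
    linarith
  -- the far item of the dual side
  set Mu : ℝ := lv l F6' / 2 ^ 92 + 2 * β * (488 / 10 ^ 6) with hMu
  have hlF' : 0 ≤ lv l F6' := lv_nonneg h0 _
  have hMu0 : 0 ≤ Mu := by positivity
  have hβ2 : 2 ^ 92 * (2 * β * (488 / 10 ^ 6)) ≤ ((23088782402770707885558941 : ℕ) : ℝ) :=
    beta_num2
  have hMuF : 2 ^ 150 * Mu ≤ qv l F' := by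
    rw [vF', hMu]
    have : (2 : ℝ) ^ 150 * (lv l F6' / 2 ^ 92 + 2 * β * (488 / 10 ^ 6)) =
        2 ^ 58 * (lv l F6' + 2 ^ 92 * (2 * β * (488 / 10 ^ 6))) := by ring
    rw [this]
    exact mul_le_mul_of_nonneg_left (by linarith) (by positivity)
  have nG' : G'.L.length ≤ 300 := (hU.nG.trans n2).trans (by norm_num)
  have nB' : Bd'.L.length ≤ 300 := (hU.nB.trans n2).trans (by norm_num)
  obtain ⟨G1, B1, G2, B2, W, y0, ρ, e1, e2, hW, hy0, hG1, hB1, hab', hlt⟩ :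
    ∃ (G1 B1 G2 B2 : List (ℝ × ℝ)) (W y0 ρ : ℝ),
      (∀ t, eS (re l 58 60 G'.L) t = eS G1 t + eS G2 t) ∧
      (∀ t, eS (re l 58 60 Bd'.L) t = eS B1 t + eS B2 t) ∧
      0 ≤ W ∧ 0 < y0 ∧ (∀ i ∈ G1, 0 ≤ i.1 ∧ ρ ≤ i.2 ∧ 0 < i.2) ∧
      (∀ i ∈ B1, 0 ≤ i.1 ∧ i.2 ≤ ρ ∧ 0 < i.2) ∧
      (∀ t, 1 ≤ t → -(W * Real.exp (-((t - 1) * y0))) ≤
        eS G2 t - eS B2 t - Mu * Real.exp (-((t - 1) * 10))) ∧
      (ck : ℝ) / 2 ^ 16 * (W / y0 - min 0 ((G1.map fun i => i.1 * hw i.2).sum -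
        (B1.map fun i => i.1 * hw i.2).sum)) < Dr := by
    rcases eq_or_ne sm 0 with hsm | hsm
    · exact finA_sound h0 h1 hck1 hck hth hU.hG hU.hB nG' nB' wF' hMu0 hMuF wVP wVN hDval hsm
        hfin
    · exact finB_sound h0 h1 hck1 hck hth hU.hG hU.hB nG' nB' wF' hMu0 hMuF wVP wVN hDval hsm
        hfin
  have hlow' : ∀ t : ℝ, 1 ≤ t → 2 * (eS G1 t + eS G2 t - eS B1 t - eS B2 t -
      Mu * Real.exp (-((t - 1) * 10))) ≤ Th (Pd A) (Hx (Pd A) (-Xᵀ)) t := by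
    intro t ht
    refine le_trans ?_ (Th_split hP (Hx (Pd A) (-Xᵀ)) hβ0 hb2 H2 T2 ht)
    have h := hU.low t ht
    have e : (L2.vecs.map fun x => qf (Hx (Pd A) (-Xᵀ)) x * Real.exp (-(t * qf (Pd A) x))).sum =
        (L2.toList.map fun v => qf (Hx (Pd A) (-Xᵀ)) v.vec *
          Real.exp (-(t * qf (Pd A) v.vec))).sum := by
      unfold Lst.vecs
      rw [List.map_map]
      rfl
    rw [e]
    rw [zero_add, e1, e2] at h
    rw [hMu, add_mul]
    linarith
  refine leaf_itm hA hzw (by norm_num : (0 : ℝ) < 10) (fun i hi => (hGl i hi).2.1) hBl hlow hab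
    hW hy0 hG1 hB1 hlow' hab' ?_ hs
  have hE : 0 ≤ W / y0 - min 0 ((G1.map fun i => i.1 * hw i.2).sum -
        (B1.map fun i => i.1 * hw i.2).sum) := by
    have a1 := div_nonneg hW hy0.le
    have a2 := min_le_left (0 : ℝ) ((G1.map fun i => i.1 * hw i.2).sum -
        (B1.map fun i => i.1 * hw i.2).sum)
    linarith
  exact lt_of_le_of_lt (mul_le_mul_of_nonneg_right hdet hE) hlt

end Pool.Agent.Lib.EPX
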