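import Pool.Agent.Lib.EPX.VxS
import Pool.Agent.Lib.EPX.SemX
import Pool.Agent.Lib.EPL.Thsp
import Pool.Agent.Lib.EPL.LeafR

/-!
# EPX.LeafE: what a leaf uses of the environment
-/

open Matrix
open scoped Matrix.Norms.Elementwise

namespace Pool.Agent.Lib.EPX

open Pool.Agent.Lib.EPL Pool.Agent.Lib.EpZ Pool.Agent.Lib.FCC

/-- the meaning of the environment at a leaf, for the point `(l, w)` -/
structure LeafEnv (l : Fin 6 → ℝ) (w : ℝ) (E : Env) : Prop where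
  half1 : Half E.L1.vecs
  half2 : Half E.L2.vecs
  ok1 : ∀ v ∈ E.L1.toList, v.OK
  ok2 : ∀ v ∈ E.L2.toList, v.OK
  n1 : E.L1.toList.length ≤ 335
  n2 : E.L2.toList.length ≤ 280
  tri : (E.dk = 31 ∧ E.ck = 65543) ∨ (E.dk = 19 ∧ E.ck = 83720)
  tail : ∀ σ : ℝ, 0 < σ → (E.smin : ℝ) ≤ σ * w → σ * w ≤ E.smax →
    TailOK ((1 / 2 ^ 26 : ℝ) • formOf fun k => σ * l k) E.L1.vecs (488 / 10 ^ 6) 10 ∧
      TailOK (Pd ((1 / 2 ^ 26 : ℝ) • formOf fun k => σ * l k)) E.L2.vecs (488 / 10 ^ 6) 10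

end Pool.Agent.Lib.EPX
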