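import Pool.Agent.Lib.EPX.SemX
import Pool.Agent.Lib.FCC.ConeL

/-!
# EPX.RegS: determinants of vertices, convexity of the cusp condition
-/

open Matrix
open scoped Matrix.Norms.Elementwise

namespace Pool.Agent.Lib.EPX

open Pool.Agent.Lib.EpZ Pool.Agent.Lib.FCC

theorem Vt.L_nonneg (v : Vt) (k : Fin 6) : 0 ≤ v.L k := by
  fin_cases k <;> simp [Vt.L]

theorem Cn.Mem.nonneg {C : Cn} {l : Fin 6 → ℝ} {w : ℝ} (h : C.Mem l w) (k : Fin 6) : 0 ≤ l k := by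
  obtain ⟨t, ht, hl, -⟩ := h
  rw [hl k]
  exact Finset.sum_nonneg fun i _ => mul_nonneg (ht i) (Vt.L_nonneg _ _)

/-! ### the adjugate and the determinant of a vertex -/

/-- the determinant in the Selling parameters, with nonnegative coefficients -/
def dtN (l0 l1 l2 l3 l4 l5 : ℕ) : ℕ :=
  l0 * l1 * (l2 + l3 + l4 + l5) + l2 * l3 * (l0 + l1 + l4 + l5)
    + l4 * l5 * (l0 + l1 + l2 + l3)
    + l0 * l2 * l4 + l0 * l5 * l3 + l2 * l5 * l1 + l4 * l3 * l1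

theorem sub_of_eq {a b c : ℕ} (h : a = b + c) : Nat.sub a b = c := by
  show a - b = c
  omega

theorem mkVt_a11 (l0 l1 l2 l3 l4 l5 r s : ℕ) : (mkVt l0 l1 l2 l3 l4 l5 r s).a11 =
    (l0 + l3) * (l1 + l2 + l5) + l5 * (l1 + l2) := by
  show Nat.sub ((l0 + l3 + l5) * (l1 + l2 + l5)) (l5 * l5) = _
  exact sub_of_eq (by ring)

theorem mkVt_a22 (l0 l1 l2 l3 l4 l5 r s : ℕ) : (mkVt l0 l1 l2 l3 l4 l5 r s).a22 =
    (l0 + l4) * (l1 + l2 + l5) + l2 * (l1 + l5) := by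
  show Nat.sub ((l0 + l2 + l4) * (l1 + l2 + l5)) (l2 * l2) = _
  exact sub_of_eq (by ring)

theorem mkVt_a33 (l0 l1 l2 l3 l4 l5 r s : ℕ) : (mkVt l0 l1 l2 l3 l4 l5 r s).a33 =
    (l2 + l4) * (l0 + l3 + l5) + l0 * (l3 + l5) := by
  show Nat.sub ((l0 + l2 + l4) * (l0 + l3 + l5)) (l0 * l0) = _
  exact sub_of_eq (by ring)

theorem mkVt_a12 (l0 l1 l2 l3 l4 l5 r s : ℕ) : (mkVt l0 l1 l2 l3 l4 l5 r s).a12 =
    l0 * (l1 + l2 + l5) + l2 * l5 := rfl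

theorem mkVt_a13 (l0 l1 l2 l3 l4 l5 r s : ℕ) : (mkVt l0 l1 l2 l3 l4 l5 r s).a13 =
    l0 * l5 + l2 * (l0 + l3 + l5) := rfl

theorem mkVt_a23 (l0 l1 l2 l3 l4 l5 r s : ℕ) : (mkVt l0 l1 l2 l3 l4 l5 r s).a23 =
    (l0 + l2 + l4) * l5 + l0 * l2 := rfl

theorem mkVt_d (l0 l1 l2 l3 l4 l5 r s : ℕ) : (mkVt l0 l1 l2 l3 l4 l5 r s).d =
    dtN l0 l1 l2 l3 l4 l5 := by
  show Nat.sub (Nat.sub ((l0 + l2 + l4) * (mkVt l0 l1 l2 l3 l4 l5 r s).a11)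
    (l0 * (l0 * (l1 + l2 + l5) + l2 * l5))) (l2 * (l0 * l5 + l2 * (l0 + l3 + l5))) = _
  rw [mkVt_a11, sub_of_eq (b := l0 * (l0 * (l1 + l2 + l5) + l2 * l5))
    (c := l2 * (l0 * l5 + l2 * (l0 + l3 + l5)) + dtN l0 l1 l2 l3 l4 l5)]
  · exact sub_of_eq rfl
  · unfold dtN; ring

theorem Vt.WF.d {v : Vt} (h : v.WF) : (v.d : ℝ) = dt v.L := by
  rw [h, mkVt_d]
  unfold dtN dt Vt.L
  push_cast
  rfl

/-! ### linear functions -/

/-- a nonnegative combination in the cone -/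
theorem comb_le {t : Fin 6 → ℝ} (ht : ∀ i, 0 ≤ t i) {f g : Fin 6 → ℝ} (h : ∀ i, f i ≤ g i) :
    ∑ i, t i * f i ≤ ∑ i, t i * g i :=
  Finset.sum_le_sum fun i _ => mul_le_mul_of_nonneg_left (h i) (ht i)

theorem sum_pos_of {t : Fin 6 → ℝ} (ht : ∀ i, 0 ≤ t i) {l : Fin 6 → ℝ} {V : Fin 6 → Fin 6 → ℝ}
    (hl : ∀ k, l k = ∑ i, t i * V i k) (hd : 0 < dt l) : 0 < ∑ i, t i := by
  rcases (Finset.sum_nonneg fun i _ => ht i : 0 ≤ ∑ i, t i).eq_or_lt with h | h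
  · exfalso
    have h0 : ∀ i, t i = 0 := fun i =>
      (Finset.sum_eq_zero_iff_of_nonneg fun i _ => ht i).mp h.symm i (Finset.mem_univ i)
    have h1 : ∀ k, l k = 0 := fun k => by rw [hl k]; simp [h0]
    unfold dt at hd
    simp [h1] at hd
  · exact h

/-! ### the cusp -/

/-- the value of the form at a vector -/
theorem qf_formOf (l : Fin 6 → ℝ) (x : Fin 3 → ℤ) : qf (formOf l) x =
    ((x 0 : ℝ) - x 1) ^ 2 * l 0 + (x 2 : ℝ) ^ 2 * l 1 + ((x 0 : ℝ) - x 2) ^ 2 * l 2 +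
      (x 1 : ℝ) ^ 2 * l 3 + (x 0 : ℝ) ^ 2 * l 4 + ((x 1 : ℝ) - x 2) ^ 2 * l 5 := by
  unfold qf
  rw [qr_eq]
  simp only [Fin.sum_univ_three, rv, formOf]
  simp
  ring

/-- superadditivity of the cube root of the determinant -/
theorem gg_sum {t : Fin 6 → ℝ} (ht : ∀ i, 0 ≤ t i) {V : Fin 6 → Fin 6 → ℝ}
    (hV : ∀ i k, 0 ≤ V i k) {l : Fin 6 → ℝ} (hl : ∀ k, l k = ∑ i, t i * V i k) :
    ∑ i, t i * gg (V i) ≤ gg l := by
  have h := ConeLAux.gg_comb (V 0) (V 1) (V 2) (V 3) (V 4) (V 5) t ht (hV 0) (hV 1) (hV 2) (hV 3) (hV 4)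
    (hV 5)
  have e : t 0 • V 0 + t 1 • V 1 + t 2 • V 2 + t 3 • V 3 + t 4 • V 4 + t 5 • V 5 = l := by
    funext k
    rw [hl k, Fin.sum_univ_six]
    rfl
  rw [e] at h
  rw [Fin.sum_univ_six]
  exact h

/-- the cusp condition is convex -/
theorem cusp_cone {t : Fin 6 → ℝ} (ht : ∀ i, 0 ≤ t i) {V : Fin 6 → Fin 6 → ℝ}
    (hV : ∀ i k, 0 ≤ V i k) {l : Fin 6 → ℝ} (hl : ∀ k, l k = ∑ i, t i * V i k)
    (x : Fin 3 → ℤ) (h : ∀ i, 4 * (qf (formOf (V i)) x) ^ 3 ≤ dt (V i)) :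
    4 * (qf (formOf l) x) ^ 3 ≤ dt l := by
  have hl0 : ∀ k, 0 ≤ l k := fun k => by
    rw [hl k]; exact Finset.sum_nonneg fun i _ => mul_nonneg (ht i) (hV i k)
  obtain ⟨κ, hκ0, hκ⟩ : ∃ κ : ℝ, 0 < κ ∧ κ ^ 3 = 4 := by
    refine ⟨(4 : ℝ) ^ ((1 : ℝ) / 3), Real.rpow_pos_of_pos (by norm_num) _, ?_⟩
    rw [← Real.rpow_natCast, ← Real.rpow_mul (by norm_num)]
    norm_num
  have hq0 : ∀ m : Fin 6 → ℝ, (∀ k, 0 ≤ m k) → 0 ≤ qf (formOf m) x := fun m hm => by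
    rw [qf_formOf]
    have h0 := hm 0
    have h1 := hm 1
    have h2 := hm 2
    have h3 := hm 3
    have h4 := hm 4
    have h5 := hm 5
    positivity
  have h1 : ∀ i, κ * qf (formOf (V i)) x ≤ gg (V i) := fun i => by
    have := h i
    rw [← gg_cube (hV i), ← hκ, ← mul_pow] at this
    exact le_of_pow_le_pow_left₀ (by norm_num) (gg_nonneg (hV i)) this
  have h2 : κ * qf (formOf l) x ≤ gg l := by
    refine le_trans ?_ (gg_sum ht hV hl)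
    refine le_trans (le_of_eq ?_) (comb_le ht h1)
    rw [qf_formOf]
    simp only [qf_formOf, hl, Finset.mul_sum, ← Finset.sum_add_distrib]
    refine Finset.sum_congr rfl fun i _ => ?_
    ring
  have h3 := pow_le_pow_left₀ (mul_nonneg hκ0.le (hq0 l hl0)) h2 3
  rw [mul_pow, hκ, gg_cube hl0] at h3
  exact h3

end Pool.Agent.Lib.EPX
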