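import Pool.Agent.Lib.EPX.FmS
import Pool.Agent.Lib.EPX.RegS
import Pool.Agent.Lib.EPX.TabS

/-!
# EPX.LeafV: the vertices of a leaf: the forms `Q`, `U` and the determinant
-/

open Matrix
open scoped Matrix.Norms.Elementwise

namespace Pool.Agent.Lib.EPX

open Pool.Agent.Lib.EPL Pool.Agent.Lib.EpZ Pool.Agent.Lib.EPS Pool.Agent.Lib.FCC

/-- the adjugate of a vertex -/
def Vt.A (v : Vt) : Mx 3 :=
  !![(v.a11 : ℝ), v.a12, v.a13; (v.a12 : ℝ), v.a22, v.a23; (v.a13 : ℝ), v.a23, v.a33]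

theorem Vt.WF.adjA {v : Vt} (h : v.WF) : (formOf v.L).adjugate = v.A := by
  have h11 : (v.a11 : ℝ) = (v.l0 + v.l3) * (v.l1 + v.l2 + v.l5) + v.l5 * (v.l1 + v.l2) := by
    have := congrArg Vt.a11 h
    rw [mkVt_a11] at this
    exact_mod_cast this
  have h22 : (v.a22 : ℝ) = (v.l0 + v.l4) * (v.l1 + v.l2 + v.l5) + v.l2 * (v.l1 + v.l5) := by
    have := congrArg Vt.a22 h
    rw [mkVt_a22] at this
    exact_mod_cast this
  have h33 : (v.a33 : ℝ) = (v.l2 + v.l4) * (v.l0 + v.l3 + v.l5) + v.l0 * (v.l3 + v.l5) := by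
    have := congrArg Vt.a33 h
    rw [mkVt_a33] at this
    exact_mod_cast this
  have h12 : (v.a12 : ℝ) = v.l0 * (v.l1 + v.l2 + v.l5) + v.l2 * v.l5 := by
    have := congrArg Vt.a12 h
    rw [mkVt_a12] at this
    exact_mod_cast this
  have h13 : (v.a13 : ℝ) = v.l0 * v.l5 + v.l2 * (v.l0 + v.l3 + v.l5) := by
    have := congrArg Vt.a13 h
    rw [mkVt_a13] at this
    exact_mod_cast this
  have h23 : (v.a23 : ℝ) = (v.l0 + v.l2 + v.l4) * v.l5 + v.l0 * v.l2 := by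
    have := congrArg Vt.a23 h
    rw [mkVt_a23] at this
    exact_mod_cast this
  rw [Matrix.adjugate_fin_three]
  unfold Vt.A formOf Vt.L
  rw [h11, h22, h33, h12, h13, h23]
  ext i j
  fin_cases i <;> fin_cases j <;> simp <;> ring_nf <;> simp

theorem Vt.WF.pd {v : Vt} (h : v.WF) (hd : 0 < v.d) : PD (formOf v.L) :=
  formOf_pd (fun k => v.L_nonneg k) (by rw [← h.d]; exact_mod_cast hd)

theorem Vt.WF.inv {v : Vt} (h : v.WF) (hd : 0 < v.d) :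
    (formOf v.L)⁻¹ = ((v.d : ℝ)⁻¹) • v.A := by
  rw [Matrix.inv_def, h.adjA, formOf_det, ← h.d, Ring.inverse_eq_inv']

theorem pos_of_mul_pos_of_pos_left' {a b : ℝ} (h : 0 < a * b) (ha : 0 < a) : 0 < b := by
  by_contra hc
  push Not at hc
  have := mul_nonpos_of_nonneg_of_nonpos ha.le hc
  linarith

theorem Vt.WF.qrA {v : Vt} (h : v.WF) (hd : 0 < v.d) (y : Fin 3 → ℝ) : 0 ≤ qr v.A y := by
  have hd' : (0 : ℝ) < v.d := by exact_mod_cast hd
  have h1 := inv_pd (h.pd hd)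
  rw [h.inv hd] at h1
  rcases eq_or_ne y 0 with rfl | hy
  · simp [qr]
  · have h2 := h1.2 y hy
    rw [qr_smul] at h2
    exact (pos_of_mul_pos_of_pos_left' h2 (inv_pos.mpr hd')).le

/-- the multiplier of the adjugate -/
theorem rhu_ge {p : ℕ} {v : Vt} (hp : 0 < p) (hd : 0 < v.d) :
    Real.pi ^ 2 * 2 ^ 84 ≤ (rhu p v : ℝ) * (p * v.d) := by
  have hx : 0 < p * v.d := Nat.mul_pos hp hd
  have h1 : 190905913441634695918911488 < (190905913441634695918911488 / (p * v.d) + 1) *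
      (p * v.d) := by
    have := Nat.div_add_mod 190905913441634695918911488 (p * v.d)
    have h3 := Nat.mod_lt 190905913441634695918911488 hx
    calc 190905913441634695918911488 = p * v.d * (190905913441634695918911488 / (p * v.d)) +
        190905913441634695918911488 % (p * v.d) := this.symm
      _ < p * v.d * (190905913441634695918911488 / (p * v.d)) + p * v.d :=
        Nat.add_lt_add_left h3 _
      _ = _ := by ring
  have h2 : (rhu p v : ℕ) = 190905913441634695918911488 / (p * v.d) + 1 := rfl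
  have h3 : (190905913441634695918911488 : ℝ) ≤ (rhu p v : ℝ) * (p * v.d) := by
    rw [h2]
    exact_mod_cast h1.le
  refine le_trans ?_ h3
  have h4 := pi_sq_up
  calc Real.pi ^ 2 * 2 ^ 84 = Real.pi ^ 2 * 2 ^ 32 * 2 ^ 52 := by ring
    _ ≤ 42389628128 * 2 ^ 52 := mul_le_mul_of_nonneg_right h4 (by positivity)
    _ = _ := by norm_num

/-- the upper bound of the dual form at a vertex -/
theorem vert_U {v : Vt} (h : v.WF) {p : ℕ} (hp : 0 < p) (hd : 0 < v.d) (y : Fin 3 → ℝ) :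
    Real.pi ^ 2 * qr (formOf (((p : ℝ) / 2 ^ 26) • v.L))⁻¹ y ≤
      qr (((rhu p v : ℝ) / 2 ^ 58) • v.A) y := by
  have hp' : (0 : ℝ) < p := by exact_mod_cast hp
  have hd' : (0 : ℝ) < v.d := by exact_mod_cast hd
  have h1 : (formOf (((p : ℝ) / 2 ^ 26) • v.L))⁻¹ = (2 ^ 26 / p * (v.d : ℝ)⁻¹) • v.A := by
    rw [formOf_smul]
    have : (((p : ℝ) / 2 ^ 26) • formOf v.L)⁻¹ = (2 ^ 26 / p : ℝ) • (formOf v.L)⁻¹ := by
      refine Matrix.inv_eq_right_inv ?_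
      rw [smul_mul_smul_comm, Matrix.mul_nonsing_inv _ (h.pd hd).det_pos.ne'.isUnit]
      rw [show (p : ℝ) / 2 ^ 26 * (2 ^ 26 / p) = 1 by field_simp, one_smul]
    rw [this, h.inv hd, smul_smul]
  rw [h1, qr_smul, qr_smul, ← mul_assoc]
  refine mul_le_mul_of_nonneg_right ?_ (h.qrA hd y)
  have h2 := rhu_ge hp hd
  rw [show Real.pi ^ 2 * (2 ^ 26 / (p : ℝ) * (v.d : ℝ)⁻¹) =
    (Real.pi ^ 2 * 2 ^ 84) / (p * v.d) / 2 ^ 58 by field_simp]
  refine div_le_div_of_nonneg_right ?_ (by positivity)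
  rwa [div_le_iff₀ (by positivity)]

/-- the conditions at a vertex -/
structure VOK (smin smax dk p : ℕ) (v : Vt) : Prop where
  lo : smin ≤ p * v.s
  hi : p * v.s ≤ smax
  det : 302231454903657293676544 * dk ≤ p * p * p * v.d
  e : p * v.e ≤ 8589934592
  a : rhu p v * (v.a11 + v.a22 + v.a33 + (v.a12 + v.a13 + v.a23)) ≤ 73786976294838206464

/-- the point of a leaf -/
theorem Cn.Mem.point {C : Cn} {l : Fin 6 → ℝ} {w : ℝ} (hM : C.Mem l w) (hd : 0 < dt l)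
    {p : Fin 6 → ℕ} (hp : ∀ i, 1 ≤ p i) : ∃ (μ : Fin 6 → ℝ) (σ : ℝ), (∀ i, 0 ≤ μ i) ∧
      ∑ i, μ i = 1 ∧ 0 < σ ∧ (∀ k, σ * l k = ∑ i, μ i * (p i * (C.vs i).L k)) ∧
      σ * w = ∑ i, μ i * (p i * ((C.vs i).s : ℝ)) := by
  obtain ⟨t, ht, hl, hw⟩ := hM
  have hp' : ∀ i, (0 : ℝ) < p i := fun i => by exact_mod_cast hp i
  have hT := sum_pos_of ht hl hd
  have hk0 : ∀ i, 0 ≤ t i / p i := fun i => div_nonneg (ht i) (hp' i).le
  have hκ : 0 < ∑ i, t i / p i := by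
    obtain ⟨i, -, hi⟩ : ∃ i ∈ Finset.univ, 0 < t i := by
      by_contra hcon
      push Not at hcon
      have : ∑ i, t i ≤ 0 := Finset.sum_nonpos fun i hi => hcon i hi
      linarith
    exact lt_of_lt_of_le (div_pos hi (hp' i))
      (Finset.single_le_sum (fun i _ => hk0 i) (Finset.mem_univ i))
  set κ : ℝ := ∑ i, t i / p i with hκd
  refine ⟨fun i => t i / p i / κ, 1 / κ, fun i => div_nonneg (hk0 i) hκ.le, ?_, by positivity,
    fun k => ?_, ?_⟩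
  · rw [← Finset.sum_div, ← hκd, div_self hκ.ne']
  · rw [hl k, Finset.mul_sum]
    refine Finset.sum_congr rfl fun i _ => ?_
    have := (hp' i).ne'
    field_simp
  · rw [hw, Finset.mul_sum]
    refine Finset.sum_congr rfl fun i _ => ?_
    have := (hp' i).ne'
    field_simp

theorem Vt.WF.le6 {v : Vt} (h : v.WF) : v.l0 ≤ v.e ∧ v.l1 ≤ v.e ∧ v.l2 ≤ v.e ∧ v.l3 ≤ v.e ∧
    v.l4 ≤ v.e ∧ v.l5 ≤ v.e := by
  rw [h.e]
  omega

/-- the forms `Q` and `U` of a leaf -/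
theorem leaf_pt {C : Cn} (hC : C.WF) {l : Fin 6 → ℝ} {w : ℝ} (hM : C.Mem l w) (hd : 0 < dt l)
    {smin smax dk : ℕ} (hdk : 1 ≤ dk) {p0 p1 p2 p3 p4 p5 : ℕ}
    (hp : ∀ i : Fin 6, 1 ≤ (![p0, p1, p2, p3, p4, p5] : Fin 6 → ℕ) i)
    (hv : ∀ i : Fin 6, VOK smin smax dk ((![p0, p1, p2, p3, p4, p5] : Fin 6 → ℕ) i) (C.vs i))
    {m0 m1 m2 m3 m4 m5 : ℕ} (e0 : m0 = rhu p0 C.v0) (e1 : m1 = rhu p1 C.v1)
    (e2 : m2 = rhu p2 C.v2) (e3 : m3 = rhu p3 C.v3) (e4 : m4 = rhu p4 C.v4)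
    (e5 : m5 = rhu p5 C.v5) :
    ∃ (μ : Fin 6 → ℝ) (σ : ℝ) (U : Mx 3), (∀ i, 0 ≤ μ i) ∧ ∑ i, μ i = 1 ∧ 0 < σ ∧
      (smin : ℝ) ≤ σ * w ∧ σ * w ≤ smax ∧
      PD ((1 / 2 ^ 26 : ℝ) • formOf fun k => σ * l k) ∧
      (dk : ℝ) ≤ ((1 / 2 ^ 26 : ℝ) • formOf fun k => σ * l k).det ∧
      SF 0 (2 ^ 33) μ ((2 : ℝ) ^ 26 • ((1 / 2 ^ 26 : ℝ) • formOf fun k => σ * l k))
        (C.pkm p0 p1 p2 p3 p4 p5 Vt.l0) (C.pkm p0 p1 p2 p3 p4 p5 Vt.l1)
        (C.pkm p0 p1 p2 p3 p4 p5 Vt.l2) (C.pkm p0 p1 p2 p3 p4 p5 Vt.l3)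
        (C.pkm p0 p1 p2 p3 p4 p5 Vt.l4) (C.pkm p0 p1 p2 p3 p4 p5 Vt.l5) ∧
      SM (2 ^ 66) μ ((2 : ℝ) ^ 58 • U) (C.pkm m0 m1 m2 m3 m4 m5 Vt.a11) 0
        (C.pkm m0 m1 m2 m3 m4 m5 Vt.a12) 0 (C.pkm m0 m1 m2 m3 m4 m5 Vt.a13) 0
        (C.pkm m0 m1 m2 m3 m4 m5 Vt.a22) 0 (C.pkm m0 m1 m2 m3 m4 m5 Vt.a23) 0
        (C.pkm m0 m1 m2 m3 m4 m5 Vt.a33) 0 ∧
      ∀ y : Fin 3 → ℝ, qr (Pd ((1 / 2 ^ 26 : ℝ) • formOf fun k => σ * l k)) y ≤ qr U y := by
  obtain ⟨μ, σ, hμ, hμ1, hσ, hl, hw⟩ := hM.point hd hp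
  set p : Fin 6 → ℕ := ![p0, p1, p2, p3, p4, p5] with hpd
  have hp0 : ∀ i, (0 : ℝ) < p i := fun i => by exact_mod_cast hp i
  have hdv : ∀ i, 0 < (C.vs i).d := by
    intro i
    have h := (hv i).det
    rcases Nat.eq_zero_or_pos (C.vs i).d with h0 | h0
    · rw [h0, mul_zero] at h
      omega
    · exact h0
  -- the forms at the vertices
  have hQ : ∀ i, PD (formOf (((p i : ℝ) / 2 ^ 26) • (C.vs i).L)) := fun i => by
    rw [formOf_smul]
    exact ((hC i).pd (hdv i)).smul (div_pos (hp0 i) (by positivity))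
  have hA : (1 / 2 ^ 26 : ℝ) • formOf (fun k => σ * l k) =
      cmb μ (fun i => formOf (((p i : ℝ) / 2 ^ 26) • (C.vs i).L)) := by
    have e : (1 / 2 ^ 26 : ℝ) • formOf (fun k => σ * l k) =
        formOf (fun k => ∑ i, μ i * (((p i : ℝ) / 2 ^ 26) * (C.vs i).L k)) := by
      rw [← formOf_smul]
      congr 1
      funext k
      show 1 / 2 ^ 26 * (σ * l k) = _
      rw [hl k, Finset.mul_sum]
      exact Finset.sum_congr rfl fun i _ => by ring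
    rw [e]
    unfold cmb formOf
    ext a b
    fin_cases a <;> fin_cases b <;> simp [Fin.sum_univ_six] <;> ring
  set A : Mx 3 := (1 / 2 ^ 26 : ℝ) • formOf (fun k => σ * l k) with hAd
  have hPD : PD A := by
    rw [hA]
    exact pd_comb hQ hμ hμ1
  have hmin : (smin : ℝ) ≤ σ * w := by
    rw [hw]
    have h := Finset.sum_le_sum (s := Finset.univ) fun i _ =>
      mul_le_mul_of_nonneg_left (show (smin : ℝ) ≤ p i * ((C.vs i).s : ℝ) by
        exact_mod_cast (hv i).lo) (hμ i)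
    rwa [← Finset.sum_mul, hμ1, one_mul] at h
  have hmax : σ * w ≤ smax := by
    rw [hw]
    have h := Finset.sum_le_sum (s := Finset.univ) fun i _ =>
      mul_le_mul_of_nonneg_left (show p i * ((C.vs i).s : ℝ) ≤ smax by
        exact_mod_cast (hv i).hi) (hμ i)
    rwa [← Finset.sum_mul, hμ1, one_mul] at h
  have hdet : (dk : ℝ) ≤ A.det := by
    rw [hA]
    refine det_lower hμ hμ1 (fun i k => ?_) (Nat.cast_nonneg _) (fun i => ?_)
    · exact mul_nonneg (div_pos (hp0 i) (by positivity)).le ((C.vs i).L_nonneg k)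
    · have h1 : dt (((p i : ℝ) / 2 ^ 26) • (C.vs i).L) =
          ((p i : ℝ) / 2 ^ 26) ^ 3 * dt (C.vs i).L := by
        unfold dt
        simp only [Pi.smul_apply, smul_eq_mul]
        ring
      rw [h1, ← (hC i).d]
      have h2 : (302231454903657293676544 : ℝ) * dk ≤ p i * p i * p i * (C.vs i).d := by
        exact_mod_cast (hv i).det
      have h3 : ((p i : ℝ) / 2 ^ 26) ^ 3 * (C.vs i).d =
          (p i * p i * p i * (C.vs i).d) / 302231454903657293676544 := by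
        rw [div_pow]
        norm_num
        ring
      rw [h3, le_div_iff₀ (by norm_num)]
      linarith
  -- packed numbers
  have hle : ∀ (i : Fin 6) (x : ℕ), x ≤ (C.vs i).e → p i * x ≤ 2 ^ 33 := fun i x hx =>
    (Nat.mul_le_mul_left _ hx).trans ((hv i).e.trans (by norm_num))
  have hq : ∀ (f : Vt → ℕ) (k : Fin 6), (∀ v : Vt, v.WF → f v ≤ v.e) →
      (∀ v : Vt, (f v : ℝ) = v.L k) → R6 0 (2 ^ 33) (C.pkm p0 p1 p2 p3 p4 p5 f) ∧
      lv μ (C.pkm p0 p1 p2 p3 p4 p5 f) = σ * l k := by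
    intro f k hf hfk
    obtain ⟨a1, a2⟩ := pkm_sound (C := C) (b := 2 ^ 33) (f := f) (m0 := p0) (m1 := p1)
      (m2 := p2) (m3 := p3) (m4 := p4) (m5 := p5) (by norm_num)
      (fun i => hle i _ (hf _ (hC i))) μ
    refine ⟨a1, ?_⟩
    rw [a2, hl k]
    refine Finset.sum_congr rfl fun i _ => ?_
    rw [← hfk, ← hpd]
    push_cast
    ring
  have q0 := hq Vt.l0 0 (fun v h => h.le6.1) (fun v => rfl)
  have q1 := hq Vt.l1 1 (fun v h => h.le6.2.1) (fun v => rfl)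
  have q2 := hq Vt.l2 2 (fun v h => h.le6.2.2.1) (fun v => rfl)
  have q3 := hq Vt.l3 3 (fun v h => h.le6.2.2.2.1) (fun v => rfl)
  have q4 := hq Vt.l4 4 (fun v h => h.le6.2.2.2.2.1) (fun v => rfl)
  have q5 := hq Vt.l5 5 (fun v h => h.le6.2.2.2.2.2) (fun v => rfl)
  have hSF : SF 0 (2 ^ 33) μ ((2 : ℝ) ^ 26 • A)
        (C.pkm p0 p1 p2 p3 p4 p5 Vt.l0) (C.pkm p0 p1 p2 p3 p4 p5 Vt.l1)
        (C.pkm p0 p1 p2 p3 p4 p5 Vt.l2) (C.pkm p0 p1 p2 p3 p4 p5 Vt.l3)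
        (C.pkm p0 p1 p2 p3 p4 p5 Vt.l4) (C.pkm p0 p1 p2 p3 p4 p5 Vt.l5) := by
    refine ⟨by simpa using q0.1, by simpa using q1.1, by simpa using q2.1, by simpa using q3.1,
      by simpa using q4.1, by simpa using q5.1, ?_⟩
    rw [q0.2, q1.2, q2.2, q3.2, q4.2, q5.2, hAd, smul_smul]
    rw [show (2 : ℝ) ^ 26 * (1 / 2 ^ 26) = 1 by norm_num, one_smul]
    congr 1
    funext k
    fin_cases k <;> simp
  -- the form U
  set m : Fin 6 → ℕ := ![m0, m1, m2, m3, m4, m5] with hmd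
  have hm : ∀ i, m i = rhu (p i) (C.vs i) := by
    intro i
    fin_cases i
    exacts [e0, e1, e2, e3, e4, e5]
  set U : Mx 3 := cmb μ (fun i => ((m i : ℝ) / 2 ^ 58) • (C.vs i).A) with hU
  have hPU : ∀ y : Fin 3 → ℝ, qr (Pd A) y ≤ qr U y := by
    intro y
    rw [hA]
    refine P_upper hQ hμ hμ1 (fun i y => ?_) y
    rw [hm i]
    exact vert_U (hC i) (hp i) (hdv i) y
  have hu : ∀ (f : Vt → ℕ), (∀ v : Vt, f v ≤ v.a11 + v.a22 + v.a33 + (v.a12 + v.a13 + v.a23)) →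
      R6 0 (2 ^ 66) (C.pkm m0 m1 m2 m3 m4 m5 f) ∧
      lv μ (C.pkm m0 m1 m2 m3 m4 m5 f) = ∑ i, μ i * (m i * (f (C.vs i) : ℝ)) := by
    intro f hf
    obtain ⟨a1, a2⟩ := pkm_sound (C := C) (b := 2 ^ 66) (f := f) (m0 := m0) (m1 := m1)
      (m2 := m2) (m3 := m3) (m4 := m4) (m5 := m5) (by norm_num)
      (fun i => by
        rw [← hmd, hm i]
        exact (Nat.mul_le_mul_left _ (hf _)).trans ((hv i).a.trans (by norm_num))) μ
    refine ⟨a1, ?_⟩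
    rw [a2]
    refine Finset.sum_congr rfl fun i _ => ?_
    rw [← hmd]
    push_cast
    ring
  have u11 := hu Vt.a11 (fun v => by omega)
  have u12 := hu Vt.a12 (fun v => by omega)
  have u13 := hu Vt.a13 (fun v => by omega)
  have u22 := hu Vt.a22 (fun v => by omega)
  have u23 := hu Vt.a23 (fun v => by omega)
  have u33 := hu Vt.a33 (fun v => by omega)
  have hz : R6 0 (2 ^ 66) 0 := R6.zero.mono le_rfl (Nat.zero_le _)
  have hUe : ∀ a b : Fin 3, ((2 : ℝ) ^ 58 • U) a b =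
      ∑ i, μ i * (m i * ((C.vs i).A a b)) := by
    intro a b
    rw [hU]
    unfold cmb
    rw [Matrix.smul_apply, Matrix.sum_apply, Finset.smul_sum]
    refine Finset.sum_congr rfl fun i _ => ?_
    simp only [Matrix.smul_apply, smul_eq_mul]
    ring
  have hSM : SM (2 ^ 66) μ ((2 : ℝ) ^ 58 • U) (C.pkm m0 m1 m2 m3 m4 m5 Vt.a11) 0
        (C.pkm m0 m1 m2 m3 m4 m5 Vt.a12) 0 (C.pkm m0 m1 m2 m3 m4 m5 Vt.a13) 0
        (C.pkm m0 m1 m2 m3 m4 m5 Vt.a22) 0 (C.pkm m0 m1 m2 m3 m4 m5 Vt.a23) 0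
        (C.pkm m0 m1 m2 m3 m4 m5 Vt.a33) 0 := by
    refine ⟨⟨u11.1, hz⟩, ⟨u12.1, hz⟩, ⟨u13.1, hz⟩, ⟨u22.1, hz⟩, ⟨u23.1, hz⟩, ⟨u33.1, hz⟩,
      ?_, ?_, ?_, ?_, ?_, ?_, ?_, ?_, ?_⟩
    all_goals rw [hUe, lv_zero, sub_zero]
    · exact u11.2.symm
    · exact u12.2.symm
    · exact u13.2.symm
    · exact u12.2.symm
    · exact u22.2.symm
    · exact u23.2.symm
    · exact u13.2.symm
    · exact u23.2.symm
    · exact u33.2.symm
  exact ⟨μ, σ, U, hμ, hμ1, hσ, hmin, hmax, hPD, hdet, hSF, hSM, hPU⟩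

end Pool.Agent.Lib.EPX
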