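import Pool.Agent.Lib.EPX.VxS
import Pool.Agent.Lib.EPL.TailB

/-!
# EPX.VxB: the vectors of the boxes and the directions: correctness, half systems, coverings
-/

namespace Pool.Agent.Lib.EPX

open Matrix Pool.Agent.Lib.EpZ Pool.Agent.Lib.EPL

/-- the direction number `i < 26` (the signs given by `dirc`) -/
def dvec (i : ℕ) : Fin 3 → ℤ :=
  ![((TW >>> (6 * i) % 2 : ℕ) : ℤ) - ((TW >>> (6 * i) >>> 1 % 2 : ℕ) : ℤ),
    ((TW >>> (6 * i) >>> 2 % 2 : ℕ) : ℤ) - ((TW >>> (6 * i) >>> 3 % 2 : ℕ) : ℤ),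
    ((TW >>> (6 * i) >>> 4 % 2 : ℕ) : ℤ) - ((TW >>> (6 * i) >>> 5 % 2 : ℕ) : ℤ)]

/-- the conditions `Vx.OK`, decidable form -/
def Vx.okb (v : Vx) : Prop := (v.c0 : ℤ) = (v.vec 0 - v.vec 1) ^ 2 ∧ (v.c1 : ℤ) = (v.vec 2) ^ 2 ∧
    (v.c2 : ℤ) = (v.vec 0 - v.vec 2) ^ 2 ∧ (v.c3 : ℤ) = (v.vec 1) ^ 2 ∧
    (v.c4 : ℤ) = (v.vec 0) ^ 2 ∧ (v.c5 : ℤ) = (v.vec 1 - v.vec 2) ^ 2 ∧
    v.n = v.c0 + v.c1 + v.c2 + v.c3 + v.c4 + v.c5 ∧ v.n ≤ 200 ∧
    ∀ i : Fin 13, v.zk >>> i.val % 2 = 1 →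
      (dir13 i).vec 0 * v.vec 0 + (dir13 i).vec 1 * v.vec 1 + (dir13 i).vec 2 * v.vec 2 = 0

instance (v : Vx) : Decidable v.okb := by unfold Vx.okb; infer_instance

theorem Vx.okb_OK {v : Vx} (h : v.okb) : v.OK :=
  ⟨h.1, h.2.1, h.2.2.1, h.2.2.2.1, h.2.2.2.2.1, h.2.2.2.2.2.1, h.2.2.2.2.2.2.1, h.2.2.2.2.2.2.2.1,
    fun i hi hz => by
      have := h.2.2.2.2.2.2.2.2 ⟨i, hi⟩ hz
      rw [dotProduct, Fin.sum_univ_three]
      exact this⟩

/-- all vectors satisfy a condition -/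
def Lst.allb (f : Vx → Bool) : Lst → Bool
  | .nil => true
  | .cons v t => (f v) && t.allb f

theorem Lst.allb_iff {f : Vx → Bool} {L : Lst} : L.allb f = true ↔ ∀ v ∈ L.toList, f v = true := by
  induction L with
  | nil => simp [Lst.allb, Lst.toList]
  | cons v t ih => simp [Lst.allb, Lst.toList, ih]

theorem boxD_OK : ∀ v ∈ boxD.toList, v.OK := by
  have h : boxD.allb (fun v => decide v.okb) = true := by decide +kernel
  intro v hv
  exact Vx.okb_OK (of_decide_eq_true (Lst.allb_iff.mp h v hv))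

theorem boxE_OK : ∀ v ∈ boxE.toList, v.OK := by
  have h : boxE.allb (fun v => decide v.okb) = true := by decide +kernel
  intro v hv
  exact Vx.okb_OK (of_decide_eq_true (Lst.allb_iff.mp h v hv))

theorem dir13_OK (i : Fin 13) : (dir13 i).OK ∧ ∀ j, (dir13 i).vec j = dvec i j := by
  have h : ∀ i : Fin 13, (dir13 i).okb ∧ ∀ j, (dir13 i).vec j = dvec i j := by decide +kernel
  exact ⟨Vx.okb_OK (h i).1, (h i).2⟩

theorem dvec_neg (i : Fin 13) (j : Fin 3) : dvec (i + 13) j = - dvec i j := by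
  have h : ∀ (i : Fin 13) (j : Fin 3), dvec (i + 13) j = - dvec i j := by decide +kernel
  exact h i j

/-- coordinates of a vector coded in one number -/
def Vx.cd (v : Vx) : ℕ := v.x1 + 16 * v.x2 + 256 * v.x3
/-- coordinates of the opposite vector coded in one number -/
def Vx.cn (v : Vx) : ℕ := (10 - v.x1) + 16 * (10 - v.x2) + 256 * (10 - v.x3)

/-- the code occurs in the list, up to sign -/
def Lst.has (a b c : ℕ) : Lst → Bool
  | .nil => false
  | .cons v t => ((v.x1 == a) && (v.x2 == b) && (v.x3 == c)) ||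
      ((v.x1 + a == 10) && (v.x2 + b == 10) && (v.x3 + c == 10)) || t.has a b c

theorem Lst.has_sound {a b c : ℕ} {L : Lst} (h : L.has a b c = true) :
    ![(a : ℤ) - 5, (b : ℤ) - 5, (c : ℤ) - 5] ∈ L.vecs ∨
      -![(a : ℤ) - 5, (b : ℤ) - 5, (c : ℤ) - 5] ∈ L.vecs := by
  induction L with
  | nil => simp [Lst.has] at h
  | cons v t ih =>
    have e : (Lst.cons v t).vecs = v.vec :: t.vecs := rfl
    rw [e]
    simp only [Lst.has, Bool.or_eq_true, Bool.and_eq_true, beq_iff_eq] at h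
    rcases h with (⟨⟨h1, h2⟩, h3⟩ | ⟨⟨h1, h2⟩, h3⟩) | h
    · left
      refine List.mem_cons.mpr (Or.inl ?_)
      unfold Vx.vec
      rw [h1, h2, h3]
    · right
      refine List.mem_cons.mpr (Or.inl ?_)
      unfold Vx.vec
      funext j
      fin_cases j <;> simp <;> omega
    · rcases ih h with h | h
      · exact Or.inl (List.mem_cons_of_mem _ h)
      · exact Or.inr (List.mem_cons_of_mem _ h)

/-- all codes of the box of a set of functionals are in the list (or zero) -/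
theorem covD_aux : ∀ a b c : Fin 11, (a.val ≤ b.val + 5 ∧ b.val ≤ a.val + 5 ∧ a.val ≤ c.val + 5 ∧
    c.val ≤ a.val + 5 ∧ b.val ≤ c.val + 5 ∧ c.val ≤ b.val + 5 ∧
    ¬ (a.val = 5 ∧ b.val = 5 ∧ c.val = 5)) → boxD.has a b c = true := by
  decide +kernel

theorem covE_aux : ∀ a b c : Fin 11, (a.val + b.val ≤ 15 ∧ 5 ≤ a.val + b.val ∧
    a.val + c.val ≤ 15 ∧ 5 ≤ a.val + c.val ∧ b.val + c.val ≤ 15 ∧ 5 ≤ b.val + c.val ∧
    a.val + b.val + c.val ≤ 20 ∧ 10 ≤ a.val + b.val + c.val ∧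
    ¬ (a.val = 5 ∧ b.val = 5 ∧ c.val = 5)) → boxE.has a b c = true := by
  decide +kernel

/-- the functionals of the direct side -/
def ΦD : List (Fin 3 → ℤ) := [![1, 0, 0], ![0, 1, 0], ![0, 0, 1], ![1, -1, 0], ![1, 0, -1],
  ![0, 1, -1]]

/-- the functionals of the dual side -/
def ΦE : List (Fin 3 → ℤ) := [![1, 0, 0], ![0, 1, 0], ![0, 0, 1], ![1, 1, 0], ![1, 0, 1],
  ![0, 1, 1], ![1, 1, 1]]

theorem single_ΦD (i : Fin 3) : Pi.single i 1 ∈ ΦD := by
  fin_cases i <;> decide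

theorem single_ΦE (i : Fin 3) : Pi.single i 1 ∈ ΦE := by
  fin_cases i <;> decide

theorem code_of {x : ℤ} (h : |x| ≤ 5) : ∃ a : Fin 11, x = (a.val : ℤ) - 5 := by
  obtain ⟨h1, h2⟩ := abs_le.mp h
  refine ⟨⟨(x + 5).toNat, by omega⟩, ?_⟩
  show x = ((x + 5).toNat : ℤ) - 5
  omega

theorem covD (x : Fin 3 → ℤ) (hx : x ≠ 0) (h : ∀ v ∈ ΦD, |v ⬝ᵥ x| ≤ 5) :
    x ∈ boxD.vecs ∨ -x ∈ boxD.vecs := by
  have h1 := h ![1, 0, 0] (by decide)
  have h2 := h ![0, 1, 0] (by decide)
  have h3 := h ![0, 0, 1] (by decide)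
  have h4 := h ![1, -1, 0] (by decide)
  have h5 := h ![1, 0, -1] (by decide)
  have h6 := h ![0, 1, -1] (by decide)
  simp only [dotProduct, Fin.sum_univ_three, Matrix.cons_val_zero, Matrix.cons_val_one,
    Matrix.cons_val, one_mul, zero_mul, add_zero, zero_add, neg_mul] at h1 h2 h3 h4 h5 h6
  obtain ⟨a, ha⟩ := code_of h1
  obtain ⟨b, hb⟩ := code_of h2
  obtain ⟨c, hc⟩ := code_of h3
  rw [ha, hb] at h4
  rw [ha, hc] at h5
  rw [hb, hc] at h6
  obtain ⟨g1, g2⟩ := abs_le.mp h4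
  obtain ⟨g3, g4⟩ := abs_le.mp h5
  obtain ⟨g5, g6⟩ := abs_le.mp h6
  have hne : ¬ (a.val = 5 ∧ b.val = 5 ∧ c.val = 5) := by
    rintro ⟨e1, e2, e3⟩
    apply hx
    funext j
    fin_cases j
    · show x 0 = 0
      rw [ha, e1]; norm_num
    · show x 1 = 0
      rw [hb, e2]; norm_num
    · show x 2 = 0
      rw [hc, e3]; norm_num
  have e : x = ![(a.val : ℤ) - 5, (b.val : ℤ) - 5, (c.val : ℤ) - 5] := by
    funext j
    fin_cases j
    · exact ha
    · exact hb
    · exact hc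
  rw [e]
  exact Lst.has_sound (covD_aux a b c ⟨by omega, by omega, by omega, by omega, by omega, by omega,
    hne⟩)

theorem covE (x : Fin 3 → ℤ) (hx : x ≠ 0) (h : ∀ v ∈ ΦE, |v ⬝ᵥ x| ≤ 5) :
    x ∈ boxE.vecs ∨ -x ∈ boxE.vecs := by
  have h1 := h ![1, 0, 0] (by decide)
  have h2 := h ![0, 1, 0] (by decide)
  have h3 := h ![0, 0, 1] (by decide)
  have h4 := h ![1, 1, 0] (by decide)
  have h5 := h ![1, 0, 1] (by decide)
  have h6 := h ![0, 1, 1] (by decide)
  have h7 := h ![1, 1, 1] (by decide)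
  simp only [dotProduct, Fin.sum_univ_three, Matrix.cons_val_zero, Matrix.cons_val_one,
    Matrix.cons_val, one_mul, zero_mul, add_zero, zero_add, neg_mul] at h1 h2 h3 h4 h5 h6 h7
  obtain ⟨a, ha⟩ := code_of h1
  obtain ⟨b, hb⟩ := code_of h2
  obtain ⟨c, hc⟩ := code_of h3
  rw [ha, hb] at h4
  rw [ha, hc] at h5
  rw [hb, hc] at h6
  rw [ha, hb, hc] at h7
  obtain ⟨g1, g2⟩ := abs_le.mp h4
  obtain ⟨g3, g4⟩ := abs_le.mp h5
  obtain ⟨g5, g6⟩ := abs_le.mp h6
  obtain ⟨g7, g8⟩ := abs_le.mp h7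
  have hne : ¬ (a.val = 5 ∧ b.val = 5 ∧ c.val = 5) := by
    rintro ⟨e1, e2, e3⟩
    apply hx
    funext j
    fin_cases j
    · show x 0 = 0
      rw [ha, e1]; norm_num
    · show x 1 = 0
      rw [hb, e2]; norm_num
    · show x 2 = 0
      rw [hc, e3]; norm_num
  have e : x = ![(a.val : ℤ) - 5, (b.val : ℤ) - 5, (c.val : ℤ) - 5] := by
    funext j
    fin_cases j
    · exact ha
    · exact hb
    · exact hc
  rw [e]
  exact Lst.has_sound (covE_aux a b c ⟨by omega, by omega, by omega, by omega, by omega, by omega,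
    by omega, by omega, hne⟩)

/-- half system check -/
def Lst.hf : Lst → Bool
  | .nil => true
  | .cons v t => !(t.has v.x1 v.x2 v.x3) && !(((v.x1 == 5) && (v.x2 == 5)) && (v.x3 == 5)) && t.hf

theorem Lst.has_of {L : Lst} {v : Vx}
    (h : v.vec ∈ L.vecs ∨ -v.vec ∈ L.vecs) : L.has v.x1 v.x2 v.x3 = true := by
  induction L with
  | nil => rcases h with h | h <;> simp [Lst.vecs, Lst.toList] at h
  | cons u t ih =>
    have e : (Lst.cons u t).vecs = u.vec :: t.vecs := rfl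
    rw [e] at h
    simp only [Lst.has, Bool.or_eq_true, Bool.and_eq_true, beq_iff_eq]
    rcases h with h | h
    · rcases List.mem_cons.mp h with h | h
      · left; left
        have h1 := congrFun h 0
        have h2 := congrFun h 1
        have h3 := congrFun h 2
        simp only [Vx.vec, Matrix.cons_val_zero, Matrix.cons_val_one, Matrix.cons_val] at h1 h2 h3
        refine ⟨⟨?_, ?_⟩, ?_⟩ <;> omega
      · exact Or.inr (ih (Or.inl h))
    · rcases List.mem_cons.mp h with h | h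
      · left; right
        have h1 := congrFun h 0
        have h2 := congrFun h 1
        have h3 := congrFun h 2
        simp only [Vx.vec, Pi.neg_apply, Matrix.cons_val_zero, Matrix.cons_val_one,
          Matrix.cons_val] at h1 h2 h3
        refine ⟨⟨?_, ?_⟩, ?_⟩ <;> omega
      · exact Or.inr (ih (Or.inr h))

theorem Lst.hf_sound {L : Lst} (h : L.hf = true) : Half L.vecs := by
  induction L with
  | nil => exact ⟨List.nodup_nil, fun x hx => absurd hx (by simp [Lst.vecs, Lst.toList]),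
      fun x hx => absurd hx (by simp [Lst.vecs, Lst.toList])⟩
  | cons v t ih =>
    have e : (Lst.cons v t).vecs = v.vec :: t.vecs := rfl
    simp only [Lst.hf, Bool.and_eq_true, Bool.not_eq_true'] at h
    obtain ⟨⟨h1, h2⟩, h3⟩ := h
    obtain ⟨i1, i2, i3⟩ := ih h3
    have n1 : v.vec ∉ t.vecs := fun hc => by
      rw [Lst.has_of (Or.inl hc)] at h1; exact absurd h1 (by simp)
    have n2 : -v.vec ∉ t.vecs := fun hc => by
      rw [Lst.has_of (Or.inr hc)] at h1; exact absurd h1 (by simp)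
    have n3 : v.vec ≠ 0 := by
      intro hc
      have h1 := congrFun hc 0
      have h2' := congrFun hc 1
      have h3 := congrFun hc 2
      simp only [Vx.vec, Pi.zero_apply, Matrix.cons_val_zero, Matrix.cons_val_one,
        Matrix.cons_val] at h1 h2' h3
      have e1 : v.x1 = 5 := by omega
      have e2 : v.x2 = 5 := by omega
      have e3 : v.x3 = 5 := by omega
      rw [e1, e2, e3] at h2
      exact absurd h2 (by decide)
    rw [e]
    refine ⟨List.nodup_cons.mpr ⟨n1, i1⟩, ?_, ?_⟩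
    · intro x hx
      rcases List.mem_cons.mp hx with hx | hx
      · rw [hx]; exact n3
      · exact i2 x hx
    · intro x hx hc
      rcases List.mem_cons.mp hx with hx | hx
      · subst hx
        rcases List.mem_cons.mp hc with hc | hc
        · apply n3
          funext j
          have := congrFun hc j
          simp only [Pi.neg_apply] at this
          show v.vec j = 0
          omega
        · exact n2 hc
      · rcases List.mem_cons.mp hc with hc | hc
        · apply n2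
          rw [← hc, neg_neg]
          exact hx
        · exact i3 x hx hc

theorem boxD_half : Half boxD.vecs := Lst.hf_sound (by decide +kernel)

theorem boxE_half : Half boxE.vecs := Lst.hf_sound (by decide +kernel)

end Pool.Agent.Lib.EPX
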