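import Pool.Agent.Lib.EPX.D4S
import Pool.Agent.Lib.EPX.ForS
import Pool.Agent.Lib.EPX.LeafC
import Pool.Agent.Lib.EPX.LeafV
import Pool.Agent.Lib.EPX.LeafE
import Pool.Agent.Lib.EPX.VxB
import Pool.Agent.Lib.EPX.CertS

/-!
# EPX.LeafS: soundness of the X-leaf
-/

open Matrix
open scoped Matrix.Norms.Elementwise

namespace Pool.Agent.Lib.EPX

open Pool.Agent.Lib.EPL Pool.Agent.Lib.EpZ Pool.Agent.Lib.EPS Pool.Agent.Lib.FCC

theorem ex6 {e : Bool} {k : ℕ → ℕ → ℕ → ℕ → ℕ → ℕ → Bool} {P : ℕ → ℕ → ℕ → ℕ → ℕ → ℕ → Prop}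
    (H : ∃ f0 f1 f2 f3 f4 f5, e = k f0 f1 f2 f3 f4 f5 ∧ P f0 f1 f2 f3 f4 f5) (h : e = true) :
    ∃ f0 f1 f2 f3 f4 f5, k f0 f1 f2 f3 f4 f5 = true ∧ P f0 f1 f2 f3 f4 f5 := by
  obtain ⟨f0, f1, f2, f3, f4, f5, e1, hP⟩ := H
  exact ⟨f0, f1, f2, f3, f4, f5, e1 ▸ h, hP⟩

theorem ex12 {α : Type*} {A : α → Prop} {e : Bool}
    {k : ℕ → ℕ → ℕ → ℕ → ℕ → ℕ → ℕ → ℕ → ℕ → ℕ → ℕ → ℕ → Bool}
    {P : α → ℕ → ℕ → ℕ → ℕ → ℕ → ℕ → ℕ → ℕ → ℕ → ℕ → ℕ → ℕ → Prop}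
    (H : ∃ S : α, A S ∧ ∃ f0 f1 f2 f3 f4 f5 f6 f7 f8 f9 g0 g1,
      e = k f0 f1 f2 f3 f4 f5 f6 f7 f8 f9 g0 g1 ∧ P S f0 f1 f2 f3 f4 f5 f6 f7 f8 f9 g0 g1)
    (h : e = true) :
    ∃ S : α, A S ∧ ∃ f0 f1 f2 f3 f4 f5 f6 f7 f8 f9 g0 g1,
      k f0 f1 f2 f3 f4 f5 f6 f7 f8 f9 g0 g1 = true ∧
        P S f0 f1 f2 f3 f4 f5 f6 f7 f8 f9 g0 g1 := by
  obtain ⟨S, hS, f0, f1, f2, f3, f4, f5, f6, f7, f8, f9, g0, g1, e1, hP⟩ := H
  exact ⟨S, hS, f0, f1, f2, f3, f4, f5, f6, f7, f8, f9, g0, g1, e1 ▸ h, hP⟩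

theorem dirc_ex {i : ℕ} {k : ℕ → ℕ → ℕ → ℕ → ℕ → ℕ → Bool} (h : dirc i k = true) :
    ∃ z1 y1 z2 y2 z3 y3, k z1 y1 z2 y2 z3 y3 = true ∧
      (z1 ≤ 1 ∧ y1 ≤ 1 ∧ z2 ≤ 1 ∧ y2 ≤ 1 ∧ z3 ≤ 1 ∧ y3 ≤ 1) ∧
      rv (dvec i) = ![(z1 : ℝ) - y1, (z2 : ℝ) - y2, (z3 : ℝ) - y3] := by
  unfold dirc at h
  refine ⟨_, _, _, _, _, _, h, ?_, ?_⟩
  · have : ∀ x : ℕ, Nat.mod x 2 ≤ 1 := fun x => Nat.le_of_lt_succ (Nat.mod_lt x (by norm_num))
    exact ⟨this _, this _, this _, this _, this _, this _⟩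
  · funext j
    unfold rv dvec
    fin_cases j <;> simp <;> rfl

theorem vok_VOK {smin smax dk p : ℕ} {v : Vt} (h : vok smin smax dk p (rhu p v) v = true) :
    VOK smin smax dk p v := by
  unfold vok vsm at h
  simp only [cnd_and] at h
  obtain ⟨h1, h2, h3, h4, h5⟩ := h
  exact ⟨Nat.le_of_ble_eq_true h1, Nat.le_of_ble_eq_true h2, Nat.le_of_ble_eq_true h3,
    Nat.le_of_ble_eq_true h4, Nat.le_of_ble_eq_true h5⟩

theorem SF.mono {c b b' : ℕ} {l : Fin 6 → ℝ} {M : Mx 3} {f0 f1 f2 f3 f4 f5 : ℕ}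
    (h : SF c b l M f0 f1 f2 f3 f4 f5) (hb : b ≤ b') : SF c b' l M f0 f1 f2 f3 f4 f5 :=
  ⟨h.b0.mono (by omega) (by omega), h.b1.mono (by omega) (by omega),
    h.b2.mono (by omega) (by omega), h.b3.mono (by omega) (by omega),
    h.b4.mono (by omega) (by omega), h.b5.mono (by omega) (by omega), h.eq⟩

theorem sS_le15 {u : ℕ} (hu : R6 0 (2 ^ 66) u) : sS u ≤ 2 ^ 15 := by
  have h := mod_le hu
  show u % BM1 / 13510798882111488 ≤ 2 ^ 15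
  refine Nat.div_le_of_le_mul ?_
  refine h.trans ?_
  norm_num

theorem vmv (z w y : Fin 3 → ℝ) : vecMulVec z w *ᵥ y = (w ⬝ᵥ y) • z := by
  funext i
  simp only [mulVec, dotProduct, vecMulVec_apply, Fin.sum_univ_three, Pi.smul_apply, smul_eq_mul]
  ring

theorem qfH0 {A : Mx 3} (hA : A.IsSymm) {z w : Fin 3 → ℝ} {x : Fin 3 → ℤ}
    (h : w ⬝ᵥ rv x = 0) : qf (Hx A (vecMulVec z w)) x = 0 := by
  rw [qf_Hx A hA, vmv, h, zero_smul, mulVec_zero, dotProduct_zero, mul_zero]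

theorem qfH0' {A : Mx 3} (hA : A.IsSymm) {z w : Fin 3 → ℝ} {x : Fin 3 → ℤ}
    (h : z ⬝ᵥ rv x = 0) : qf (Hx A (-(vecMulVec z w)ᵀ)) x = 0 := by
  rw [qf_Hx A hA, transpose_vecMulVec, neg_mulVec, vmv, h, zero_smul, neg_zero, mulVec_zero,
    dotProduct_zero, mul_zero]

theorem rv_dot (x y : Fin 3 → ℤ) : rv x ⬝ᵥ rv y = ((x ⬝ᵥ y : ℤ) : ℝ) := by
  simp only [dotProduct, rv, Fin.sum_univ_three]
  push_cast
  ring

theorem SM.symm {b : ℕ} {l : Fin 6 → ℝ} {M : Mx 3}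
    {p11 n11 p12 n12 p13 n13 p22 n22 p23 n23 p33 n33 : ℕ}
    (h : SM b l M p11 n11 p12 n12 p13 n13 p22 n22 p23 n23 p33 n33) : M.IsSymm := by
  unfold Matrix.IsSymm
  ext i j
  rw [transpose_apply]
  fin_cases i <;> fin_cases j
  · rfl
  · exact h.m10.trans h.m01.symm
  · exact h.m20.trans h.m02.symm
  · exact h.m01.trans h.m10.symm
  · rfl
  · exact h.m21.trans h.m12.symm
  · exact h.m02.trans h.m20.symm
  · exact h.m12.trans h.m21.symm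
  · rfl

theorem Dv_scale (U T X : Mx 3) (c σ : ℝ) (y : Fin 3 → ℝ) :
    Dv (c • U) (c • T) X σ y = c * Dv U T X σ y := by
  unfold Dv
  rw [← smul_add, ← smul_sub, qr_smul, qr_smul, smul_mulVec, dotProduct_smul, smul_eq_mul]
  ring

/-- the directions -/
theorem dirs {iw iz : ℕ} (hiw : iw ≤ 12) (hiz : iz ≤ 25)
    (hzw : (dir13 iw).zk >>> (iz % 13) % 2 = 1) :
    (dir13 iw).OK ∧ (dir13 iw).vec = dvec iw ∧ (dir13 iw).n ≤ 12 ∧ (dir13 (iz % 13)).OK ∧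
      ((dir13 (iz % 13)).vec = dvec iz ∨ (dir13 (iz % 13)).vec = -dvec iz) ∧
      dvec iz ⬝ᵥ dvec iw = 0 := by
  have a1 := dir13_OK ⟨iw, by omega⟩
  have hr : iz % 13 < 13 := Nat.mod_lt _ (by norm_num)
  have a2 := dir13_OK ⟨iz % 13, hr⟩
  have a3 : (dir13 iw).vec = dvec iw := funext a1.2
  have a4 : (dir13 (iz % 13)).vec = dvec (iz % 13) := funext a2.2
  have a5 : (dir13 (iz % 13)).vec = dvec iz ∨ (dir13 (iz % 13)).vec = -dvec iz := by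
    rcases lt_or_ge iz 13 with h | h
    · left
      rw [a4, Nat.mod_eq_of_lt h]
    · right
      have e : iz = iz % 13 + 13 := by omega
      have a6 : dvec iz = -dvec (iz % 13) := by
        funext j
        have := dvec_neg ⟨iz % 13, hr⟩ j
        rw [← e] at this
        exact this
      rw [a4, a6, neg_neg]
  have a7 := a1.1.zk _ hr hzw
  have a8 : ∀ i : Fin 13, (dir13 i).n ≤ 12 := by decide +kernel
  refine ⟨a1.1, a3, a8 ⟨iw, by omega⟩, a2.1, a5, ?_⟩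
  change (dir13 (iz % 13)).vec ⬝ᵥ (dir13 iw).vec = 0 at a7
  rw [a3] at a7
  rcases a5 with h | h
  · rw [← h]
    exact a7
  · rw [h, neg_dotProduct, neg_eq_zero] at a7
    exact a7

theorem det_pow {D n : ℝ} (hn : 0 < n) (h : n ≤ D) :
    D ^ (-(1 : ℝ) / 2) ≤ (Real.sqrt n)⁻¹ := by
  have hD : 0 < D := lt_of_lt_of_le hn h
  have e : D ^ (-(1 : ℝ) / 2) = (Real.sqrt D)⁻¹ := by
    rw [neg_div, Real.rpow_neg hD.le, Real.sqrt_eq_rpow]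
  rw [e]
  exact inv_anti₀ (Real.sqrt_pos.mpr hn) (Real.sqrt_le_sqrt h)

theorem det_const {D : ℝ} {dk ck : ℕ} (htri : (dk = 31 ∧ ck = 65543) ∨ (dk = 19 ∧ ck = 83720))
    (h : (dk : ℝ) ≤ D) : Real.pi ^ ((3 : ℝ) / 2) * D ^ (-(1 : ℝ) / 2) ≤ ck / 2 ^ 16 := by
  have hpi : 0 ≤ Real.pi ^ ((3 : ℝ) / 2) := Real.rpow_nonneg Real.pi_pos.le _
  rcases htri with ⟨rfl, rfl⟩ | ⟨rfl, rfl⟩
  · refine (mul_le_mul_of_nonneg_left (det_pow (by norm_num) h) hpi).trans ?_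
    have := ck31
    rw [div_eq_mul_inv] at this
    push_cast
    exact this
  · refine (mul_le_mul_of_nonneg_left (det_pow (by norm_num) h) hpi).trans ?_
    have := ck19
    rw [div_eq_mul_inv] at this
    push_cast
    exact this

theorem xl_sound' {C : Cn} (hC : C.WF) {l : Fin 6 → ℝ} {w' : ℝ} (hM : C.Mem l w')
    (hd : 0 < dt l) {E : Env} (hE : LeafEnv l w' E) {iw iz sm th : ℕ} (hiw : iw ≤ 12)
    (hiz : iz ≤ 25) (hth : th ≤ 10) (hzw : (dir13 iw).zk >>> (iz % 13) % 2 = 1)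
    (h : xleaf E.L1 E.L2 E.smin E.smax E.kc E.dk E.ck iw iz (iz % 13) sm th C = true)
    {s : ℝ} (hs : 3 / 2 < s) : ¬ LocMin s (formOf l) := by
  unfold xleaf at h
  simp only [cnd_and] at h
  have hp : ∀ v : Vt, 1 ≤ Nat.add (Nat.div E.kc v.r) 1 := fun v => Nat.le_add_left 1 _
  have hp0 := hp C.v0
  have hp1 := hp C.v1
  have hp2 := hp C.v2
  have hp3 := hp C.v3
  have hp4 := hp C.v4
  have hp5 := hp C.v5
  generalize Nat.add (Nat.div E.kc C.v0.r) 1 = p0 at h hp0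
  generalize Nat.add (Nat.div E.kc C.v1.r) 1 = p1 at h hp1
  generalize Nat.add (Nat.div E.kc C.v2.r) 1 = p2 at h hp2
  generalize Nat.add (Nat.div E.kc C.v3.r) 1 = p3 at h hp3
  generalize Nat.add (Nat.div E.kc C.v4.r) 1 = p4 at h hp4
  generalize Nat.add (Nat.div E.kc C.v5.r) 1 = p5 at h hp5
  obtain ⟨v0, v1, v2, v3, v4, v5, h⟩ := h
  have w0 := vok_VOK v0
  have w1 := vok_VOK v1
  have w2 := vok_VOK v2
  have w3 := vok_VOK v3
  have w4 := vok_VOK v4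
  have w5 := vok_VOK v5
  clear v0 v1 v2 v3 v4 v5 hp
  have hdk : 1 ≤ E.dk := by
    rcases hE.tri with h | h <;> omega
  obtain ⟨μ, σ, U, hμ, hμ1, hσ, hmin, hmax, hA, hdet, hSF, hSM, hPU⟩ :=
    leaf_pt hC hM hd (smin := E.smin) (smax := E.smax) hdk (p0 := p0) (p1 := p1) (p2 := p2)
      (p3 := p3) (p4 := p4) (p5 := p5)
      (fun i => by fin_cases i; exacts [hp0, hp1, hp2, hp3, hp4, hp5])
      (fun i => by fin_cases i; exacts [w0, w1, w2, w3, w4, w5]) rfl rfl rfl rfl rfl rfl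
  obtain ⟨T1, T2⟩ := hE.tail σ hσ hmin hmax
  clear w0 w1 w2 w3 w4 w5
  generalize C.pkm p0 p1 p2 p3 p4 p5 Vt.l0 = q0 at h hSF
  generalize C.pkm p0 p1 p2 p3 p4 p5 Vt.l1 = q1 at h hSF
  generalize C.pkm p0 p1 p2 p3 p4 p5 Vt.l2 = q2 at h hSF
  generalize C.pkm p0 p1 p2 p3 p4 p5 Vt.l3 = q3 at h hSF
  generalize C.pkm p0 p1 p2 p3 p4 p5 Vt.l4 = q4 at h hSF
  generalize C.pkm p0 p1 p2 p3 p4 p5 Vt.l5 = q5 at h hSF
  generalize C.pkm (rhu p0 C.v0) (rhu p1 C.v1) (rhu p2 C.v2) (rhu p3 C.v3) (rhu p4 C.v4)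
    (rhu p5 C.v5) Vt.a11 = u11 at h hSM
  generalize C.pkm (rhu p0 C.v0) (rhu p1 C.v1) (rhu p2 C.v2) (rhu p3 C.v3) (rhu p4 C.v4)
    (rhu p5 C.v5) Vt.a12 = u12 at h hSM
  generalize C.pkm (rhu p0 C.v0) (rhu p1 C.v1) (rhu p2 C.v2) (rhu p3 C.v3) (rhu p4 C.v4)
    (rhu p5 C.v5) Vt.a13 = u13 at h hSM
  generalize C.pkm (rhu p0 C.v0) (rhu p1 C.v1) (rhu p2 C.v2) (rhu p3 C.v3) (rhu p4 C.v4)
    (rhu p5 C.v5) Vt.a22 = u22 at h hSM
  generalize C.pkm (rhu p0 C.v0) (rhu p1 C.v1) (rhu p2 C.v2) (rhu p3 C.v3) (rhu p4 C.v4)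
    (rhu p5 C.v5) Vt.a23 = u23 at h hSM
  generalize C.pkm (rhu p0 C.v0) (rhu p1 C.v1) (rhu p2 C.v2) (rhu p3 C.v3) (rhu p4 C.v4)
    (rhu p5 C.v5) Vt.a33 = u33 at h hSM
  obtain ⟨w1, x1, w2, x2, w3, x3, h, hw, ew⟩ := dirc_ex h
  obtain ⟨z1, y1, z2, y2, z3, y3, h, hz, ez⟩ := dirc_ex h
  set A : Mx 3 := (1 / 2 ^ 26 : ℝ) • formOf (fun k => σ * l k) with hAd
  have hcut : formOf l = (2 ^ 26 / σ : ℝ) • A := by
    have e : (fun k => σ * l k) = σ • l := by funext k; rfl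
    rw [hAd, e, formOf_smul, smul_smul, smul_smul]
    rw [show (2 : ℝ) ^ 26 / σ * (1 / 2 ^ 26) * σ = 1 by field_simp, one_smul]
  suffices hgoal : ¬ LocMin s A by
    intro hm
    rw [hcut] at hm
    have h2 := LocMin.smul (d := 3) (by norm_num) (hA.smul (div_pos (by positivity) hσ)) hm
      (l := σ / 2 ^ 26) (by positivity)
    rw [smul_smul, show σ / 2 ^ 26 * (2 ^ 26 / σ) = (1 : ℝ) by field_simp, one_smul] at h2
    exact hgoal h2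
  clear hcut hdk hp0 hp1 hp2 hp3 hp4 hp5 hmin hmax
  clear_value A
  clear hAd
  have hA2 : A = formOf ![lv μ q0 / 2 ^ 26, lv μ q1 / 2 ^ 26, lv μ q2 / 2 ^ 26,
      lv μ q3 / 2 ^ 26, lv μ q4 / 2 ^ 26, lv μ q5 / 2 ^ 26] := by
    have e := hSF.eq
    have e2 : A = (1 / 2 ^ 26 : ℝ) • ((2 : ℝ) ^ 26 • A) := by
      rw [smul_smul, show (1 / 2 ^ 26 : ℝ) * 2 ^ 26 = 1 by norm_num, one_smul]
    rw [e2, e, ← formOf_smul]
    congr 1
    funext k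
    fin_cases k <;> simp <;> ring
  have hq : R6 0 (2 ^ 33) q0 ∧ R6 0 (2 ^ 33) q1 ∧ R6 0 (2 ^ 33) q2 ∧ R6 0 (2 ^ 33) q3 ∧
      R6 0 (2 ^ 33) q4 ∧ R6 0 (2 ^ 33) q5 :=
    ⟨by simpa using hSF.b0, by simpa using hSF.b1, by simpa using hSF.b2, by simpa using hSF.b3,
      by simpa using hSF.b4, by simpa using hSF.b5⟩
  obtain ⟨h0', h1', h2', h3', h4', h5', h, hH⟩ := ex6 (dir_sound hμ1 hq hw hz ez ew _) h
  rw [← hA2] at hH
  rw [cnd_and] at h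
  obtain ⟨hz15, h⟩ := h
  obtain ⟨o1, o2, o3, o4, o5, o6⟩ := dirs hiw hiz hzw
  have hSF' : SF 0 (2 ^ 33) μ ((2 : ℝ) ^ 26 • A) q0 q1 q2 q3 q4 q5 := hSF
  -- the test of the direction z
  have hz2 : qr A (rv (dvec iz)) ≤ 15 := by
    obtain ⟨b1, b2⟩ := ev_sound hSF o4 (by norm_num)
    have b3 : R6 1006632960 1006632960 (Nat.mul 1006632960 ON) := R6.cst (by norm_num)
    have b4 := pge6_le b3 b1 (by norm_num) (by
      have := o4.n200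
      calc (dir13 (iz % 13)).n * (0 + 2 ^ 33) ≤ 200 * (0 + 2 ^ 33) := Nat.mul_le_mul_right _ this
        _ < 2 ^ 255 := by norm_num) hz15
    have b5 := lv_mono hμ b4
    have b6 : lv μ (Nat.mul 1006632960 ON) = (1006632960 : ℕ) := lv_cst (by norm_num) hμ1
    rw [b6, b2] at b5
    have b7 : qf ((2 : ℝ) ^ 26 • A) (dir13 (iz % 13)).vec =
        2 ^ 26 * qf A (dir13 (iz % 13)).vec := qr_smul _ _ _
    rw [b7] at b5
    have b8 : qf A (dir13 (iz % 13)).vec = qr A (rv (dvec iz)) := by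
      rcases o5 with h | h
      · rw [h]; rfl
      · rw [h]
        unfold qf
        have : rv (-dvec iz) = -rv (dvec iz) := by
          funext j
          simp [rv]
        rw [this]
        unfold qr
        rw [mulVec_neg, neg_dotProduct_neg]
    rw [b8] at b5
    push_cast at b5
    have b9 : (2 : ℝ) ^ 26 * qr A (rv (dvec iz)) ≤ 2 ^ 26 * 15 := by
      norm_num at b5 ⊢
      linarith
    exact le_of_mul_le_mul_left b9 (by positivity)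
  -- the direct loop
  have hL1 : ∀ v ∈ E.L1.toList, v.OK ∧ v.vec ≠ 0 ∧ (v.zk >>> iw % 2 = 1 →
      qf (Hx A (vecMulVec (rv (dvec iz)) (rv (dvec iw)))) v.vec = 0) := by
    intro v hv
    have hvO := hE.ok1 v hv
    refine ⟨hvO, hE.half1.2.1 _ (List.mem_map_of_mem hv), fun hb => ?_⟩
    refine qfH0 hA.1 ?_
    rw [rv_dot]
    have := hvO.zk iw (by omega) hb
    rw [o2] at this
    exact_mod_cast this
  have hD0 : DirI μ 0 (fun _ => 0) .nil .nil 0 0 0 := by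
    refine ⟨by simp [It.L_nil], by simp [It.L_nil], by simp [It.L_nil], by simp [It.L_nil],
      R6.zero.mono le_rfl (Nat.zero_le _), W35.zero.mono (Nat.zero_le _),
      W35.zero.mono (Nat.zero_le _), fun t _ => ?_, ?_, ?_⟩
    · simp [It.L_nil, re, eS, lv_zero]
    · simp [It.L_nil, re, qv_zero]
    · simp [It.L_nil, re, qv_zero]
  have n1 := hE.n1
  obtain ⟨G, Bd, F6, VP, VN, h, hDI⟩ := dirL_sound hμ hμ1 hA hSF hH E.L1 hL1 0 (fun _ => 0)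
    .nil .nil 0 0 0 (by omega) hD0 h
  rw [zero_add] at hDI
  simp only [cnd_and] at h
  obtain ⟨hpF, hpr, h⟩ := h
  have hF6 : R6 0 (335 * 2 ^ 65) F6 := hDI.hF.mono le_rfl (Nat.mul_le_mul_right _ n1)
  obtain ⟨wF, vF⟩ := far_pack (c := 1343944017005311) (k := 26) hμ1 hF6 (by norm_num)
    (by norm_num)
  generalize Nat.mul (Nat.shiftLeft (Nat.add F6 (Nat.mul 1343944017005311 ON)) 26) ON = F
    at h hpF hpr wF vF
  -- the form T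
  obtain ⟨S, hS, p11, n11, p12, n12, p13, n13, p22, n22, p23, n23, p33, n33, h, hT⟩ :=
    ex12 (forT_sound hμ1 hq ⟨sS_le15 hSM.b11.1, sS_le15 hSM.b12.1, sS_le15 hSM.b13.1,
      sS_le15 hSM.b22.1, sS_le15 hSM.b23.1, sS_le15 hSM.b33.1⟩ _) h
  rw [← hA2] at hT
  set T : Mx 3 := Tf S (26561 / 2 ^ 18) A with hTd
  have e85 : (38685626227668133590597632 : ℕ) = 2 ^ 85 := by norm_num
  rw [e85] at h
  obtain ⟨t0, t1, t2, t3, t4, t5, h, ht⟩ := ex6 (coefs_sound hμ1 hT (by norm_num)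
    (by norm_num) _) h
  obtain ⟨u0, u1, u2, u3, u4, u5, h, hu⟩ := ex6 (coefs_sound hμ1 hSM (by norm_num)
    (by norm_num) _) h
  replace ht := ht.mono (show 3 * 2 ^ 82 ≤ 2 ^ 84 by norm_num)
  simp only [cnd_and] at h
  obtain ⟨hw1, hw2, h⟩ := h
  obtain ⟨bu1, bu2⟩ := ev_sound hu o1 (by norm_num)
  obtain ⟨bt1, bt2⟩ := ev_sound ht o1 (by norm_num)
  have c1 : 4323455642275676160 + 2 ^ 85 * (dir13 iw).n < 2 ^ 256 := by
    calc 4323455642275676160 + 2 ^ 85 * (dir13 iw).n ≤ 4323455642275676160 + 2 ^ 85 * 12 :=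
          Nat.add_le_add_left (Nat.mul_le_mul_left _ o3) _
      _ < 2 ^ 256 := by norm_num
  have c1' : 4323455642275676160 + 2 ^ 85 * (dir13 iw).n < 2 ^ 255 := by
    calc 4323455642275676160 + 2 ^ 85 * (dir13 iw).n ≤ 4323455642275676160 + 2 ^ 85 * 12 :=
          Nat.add_le_add_left (Nat.mul_le_mul_left _ o3) _
      _ < 2 ^ 255 := by norm_num
  have bC : R6 (4323455642275676160 + 2 ^ 85 * (dir13 iw).n)
      (4323455642275676160 + 2 ^ 85 * (dir13 iw).n)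
      (Nat.mul (Nat.add 4323455642275676160 (Nat.mul (2 ^ 85) (dir13 iw).n)) ON) := R6.cst c1
  have vC : lv μ (Nat.mul (Nat.add 4323455642275676160 (Nat.mul (2 ^ 85) (dir13 iw).n)) ON) =
      ((4323455642275676160 + 2 ^ 85 * (dir13 iw).n : ℕ) : ℝ) := lv_cst c1 hμ1
  have bu3 : (dir13 iw).n * (2 ^ 85 + 3 * 2 ^ 66) < 2 ^ 255 := by
    calc (dir13 iw).n * (2 ^ 85 + 3 * 2 ^ 66) ≤ 12 * (2 ^ 85 + 3 * 2 ^ 66) :=
          Nat.mul_le_mul_right _ o3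
      _ < 2 ^ 255 := by norm_num
  have bt3 : (dir13 iw).n * (2 ^ 85 + 2 ^ 84) < 2 ^ 255 := by
    calc (dir13 iw).n * (2 ^ 85 + 2 ^ 84) ≤ 12 * (2 ^ 85 + 2 ^ 84) :=
          Nat.mul_le_mul_right _ o3
      _ < 2 ^ 255 := by norm_num
  have le1 := pge6_le bC bu1 c1' bu3 hw2
  have le2 := pge6_le bu1 bt1 bu3 bt3 hw1
  have bu4 : R6 ((dir13 iw).n * (2 ^ 85 - 3 * 2 ^ 66))
      (4323455642275676160 + 2 ^ 85 * (dir13 iw).n) (ev (dir13 iw) u0 u1 u2 u3 u4 u5) :=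
    ⟨bu1.lt, bu1.supp, bu1.lo, fun i => (le1 i).trans (bC.hi i)⟩
  have bE := bu4.sub bt1 le2
  have vE := bu4.lv_sub bt1 le2 μ
  have bE' : R6 0 (2 ^ 88) (Nat.sub (ev (dir13 iw) u0 u1 u2 u3 u4 u5)
      (ev (dir13 iw) t0 t1 t2 t3 t4 t5)) := by
    refine R6.mono bE (Nat.zero_le _) ?_
    have : (dir13 iw).n * (2 ^ 85 - 2 ^ 84) = (dir13 iw).n * 2 ^ 84 := by norm_num
    rw [this]
    have o3' := o3
    generalize (dir13 iw).n = n at o3'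
    omega
  have hqU : qf ((2 : ℝ) ^ 58 • U) (dir13 iw).vec = 2 ^ 58 * qr U (rv (dvec iw)) := by
    rw [o2]
    exact qr_smul _ _ _
  have hqT : qf ((2 : ℝ) ^ 58 • T) (dir13 iw).vec = 2 ^ 58 * qr T (rv (dvec iw)) := by
    rw [o2]
    exact qr_smul _ _ _
  have hw15 : Real.pi ^ 2 * qr A⁻¹ (rv (dvec iw)) ≤ 15 := by
    have a1 := lv_mono hμ le1
    rw [vC, bu2, hqU] at a1
    push_cast at a1
    have a2 : (2 : ℝ) ^ 58 * qr U (rv (dvec iw)) ≤ 2 ^ 58 * 15 := by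
      norm_num at a1 ⊢
      linarith
    have a3 := le_of_mul_le_mul_left a2 (by positivity)
    have a4 := hPU (rv (dvec iw))
    have a5 : qr (Pd A) (rv (dvec iw)) = Real.pi ^ 2 * qr A⁻¹ (rv (dvec iw)) := qr_smul _ _ _
    rw [a5] at a4
    linarith
  have vE' : lv μ (Nat.sub (ev (dir13 iw) u0 u1 u2 u3 u4 u5)
      (ev (dir13 iw) t0 t1 t2 t3 t4 t5)) =
      qr ((2 : ℝ) ^ 58 • U - (2 : ℝ) ^ 58 • T) (rv (dvec iw)) := by
    rw [qr_sub, qr_smul, qr_smul]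
    refine Eq.trans vE ?_
    rw [bu2, bt2, hqU, hqT]
    ring
  generalize Nat.sub (ev (dir13 iw) u0 u1 u2 u3 u4 u5) (ev (dir13 iw) t0 t1 t2 t3 t4 t5) = eW
    at h bE' vE'
  obtain ⟨d0, d1, d2, d3, d4, d5, h, M, hM1, hM2⟩ :=
    ex6 (d4_sound hμ1 hSM hT hw hz ez ew bE' vE' _) h
  have hUs : U.IsSymm := by
    have e : U = (1 / 2 ^ 58 : ℝ) • ((2 : ℝ) ^ 58 • U) := by
      rw [smul_smul, show (1 / 2 ^ 58 : ℝ) * 2 ^ 58 = 1 by norm_num, one_smul]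
    have h3 := hSM.symm
    unfold Matrix.IsSymm at h3 ⊢
    rw [e, transpose_smul, h3]
  have hTs : T.IsSymm := Tf_symm hS hA.1 _
  have hP : PD (Pd A) := Pd_pd hA
  have hTP : ∀ y : Fin 3 → ℝ, qr T y ≤ qr (Pd A) y := by
    intro y
    have a1 := inv_low hA hS inv_pi_sq_up y
    have a2 : qr (Pd A) y = Real.pi ^ 2 * qr A⁻¹ y := qr_smul _ _ _
    have a3 : qr T y = 2 * qr S y - 26561 / 2 ^ 18 * qr (S * A * S) y := by
      rw [hTd]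
      unfold Tf
      rw [qr_sub, qr_smul, qr_smul]
    rw [a2, a3]
    exact a1
  have hDe : (2 : ℝ) ^ 60 • ((1 / 2 ^ 60 : ℝ) • M) = M := by
    rw [smul_smul, show (2 : ℝ) ^ 60 * (1 / 2 ^ 60) = 1 by norm_num, one_smul]
  rw [← hDe] at hM1
  have hDH : ∀ y : Fin 3 → ℤ, qf ((1 / 2 ^ 60 : ℝ) • M) y ≤
      qf (Hx (Pd A) (-(vecMulVec (rv (dvec iz)) (rv (dvec iw)))ᵀ)) y := by
    intro y
    have a1 := D_lower (X := vecMulVec (rv (dvec iz)) (rv (dvec iw))) hP.1 hTs hUs hTP hPU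
      (σ := 1) one_pos y
    refine le_trans (le_of_eq ?_) a1
    have a2 : qf ((1 / 2 ^ 60 : ℝ) • M) y = 1 / 2 ^ 60 * qf M y := qr_smul _ _ _
    rw [a2, hM2, Dv_scale]
    ring
  have hL2 : ∀ v ∈ E.L2.toList, v.OK ∧ v.vec ≠ 0 ∧ (v.zk >>> (iz % 13) % 2 = 1 →
      0 ≤ qf (Hx (Pd A) (-(vecMulVec (rv (dvec iz)) (rv (dvec iw)))ᵀ)) v.vec) := by
    intro v hv
    have hvO := hE.ok2 v hv
    refine ⟨hvO, hE.half2.2.1 _ (List.mem_map_of_mem hv), fun hb => ?_⟩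
    refine (qfH0' hP.1 ?_).ge
    rw [rv_dot]
    have a1 := hvO.zk (iz % 13) (Nat.mod_lt _ (by norm_num)) hb
    rcases o5 with h | h
    · rw [h] at a1
      exact_mod_cast a1
    · rw [h, neg_dotProduct, neg_eq_zero] at a1
      exact_mod_cast a1
  have hU0 : DuaI μ 0 (fun _ => 0) .nil .nil 0 := by
    refine ⟨by simp [It.L_nil], by simp [It.L_nil], by simp [It.L_nil], by simp [It.L_nil],
      R6.zero.mono le_rfl (Nat.zero_le _), fun t _ => ?_⟩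
    simp [It.L_nil, re, eS, lv_zero]
  have n2 := hE.n2
  replace hu := hu.mono (show 3 * 2 ^ 66 ≤ 2 ^ 84 by norm_num)
  obtain ⟨G', Bd', F6', h, hUI⟩ := duaL_sound hμ hμ1 hP hu ht hM1 (fun y => hTP (rv y))
    (fun y => hPU (rv y)) hDH E.L2 hL2 0 (fun _ => 0) .nil .nil 0 (by omega) hU0 h
  rw [zero_add] at hUI
  have hF6' : R6 0 (280 * 2 ^ 120) F6' := hUI.hF.mono le_rfl (Nat.mul_le_mul_right _ n2)
  obtain ⟨wF', vF'⟩ := far_pack (c := 23088782402770707885558941) (k := 58) hμ1 hF6'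
    (by norm_num) (by norm_num)
  generalize Nat.mul (Nat.shiftLeft (Nat.add F6' (Nat.mul 23088782402770707885558941 ON)) 58) ON
    = F' at h wF' vF'
  have hck1 : 1 ≤ E.ck := by rcases hE.tri with h | h <;> omega
  have hck2 : E.ck ≤ 2 ^ 17 := by
    rcases hE.tri with h | h <;> · rw [h.2]; norm_num
  have hdc : Real.pi ^ ((3 : ℝ) / 2) * A.det ^ (-(1 : ℝ) / 2) ≤ E.ck / 2 ^ 16 :=
    det_const hE.tri hdet
  have htr : (vecMulVec (rv (dvec iz)) (rv (dvec iw))).trace = 0 := by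
    rw [trace_vecMulVec, rv_dot, o6]
    norm_num
  exact leaf_end hμ hμ1 hA htr hz2 hw15 hE.half1 hE.half2 n1 n2 T1 T2 hDI
    (wF.mono (by norm_num)) vF hpF hpr hUI hck1 hck2 hth hdc (wF'.mono (by norm_num)) vF' h hs

/-- the leaves of the certificate -/
theorem xl_sound : XL := fun _ _ _ hd _ _ hC hM hE _ _ _ _ hiw hiz hth hzw h _ hs =>
  xl_sound' hC hM hd hE hiw hiz hth hzw h hs

end Pool.Agent.Lib.EPX
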