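import Pool.Agent.Lib.EPX.VxB
import Pool.Agent.Lib.EPX.SemX
import Pool.Agent.Lib.EPX.TabS

/-!
# EPX.LiR: the lists of the `li` nodes and the tail outside

`Inv HB K τ A`: the box `HB` consists of the current list `K` and of dropped vectors with lower
bounds `T ≥ 10` of their lengths; the sum of `T exp (-T)` and `13650000 / 2^40` is at most `τ / 2^40`.
-/

open Matrix

namespace Pool.Agent.Lib.EPX

open Pool.Agent.Lib.EpZ Pool.Agent.Lib.EPL

/-- the state of the list of one side -/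
def Inv (HB K : List Vx) (τ : ℕ) (A : Mx 3) : Prop :=
  ∃ D : List (Vx × ℝ), (K ++ D.map Prod.fst).Perm HB ∧
    (∀ p ∈ D, 10 ≤ p.2 ∧ p.2 ≤ qf A p.1.vec) ∧
    (D.map fun p => p.2 * Real.exp (-p.2)).sum + 13650000 / 2 ^ 40 ≤ τ / 2 ^ 40

theorem Inv.top (HB : List Vx) (A : Mx 3) : Inv HB HB 13650000 A :=
  ⟨[], by simp, by simp, by simp⟩

theorem Inv.step {HB K : List Vx} {τ : ℕ} {A : Mx 3} (h : Inv HB K τ A) {K' : List Vx} {τ' : ℕ}
    {D' : List (Vx × ℝ)} (hp : (K' ++ D'.map Prod.fst).Perm K)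
    (hD : ∀ p ∈ D', 10 ≤ p.2 ∧ p.2 ≤ qf A p.1.vec)
    (hs : (D'.map fun p => p.2 * Real.exp (-p.2)).sum + τ / 2 ^ 40 ≤ τ' / 2 ^ 40) :
    Inv HB K' τ' A := by
  obtain ⟨D, h1, h2, h3⟩ := h
  refine ⟨D' ++ D, ?_, ?_, ?_⟩
  · rw [List.map_append, ← List.append_assoc]
    exact (hp.append_right _).trans h1
  · intro p hp
    rcases List.mem_append.mp hp with hp | hp
    · exact hD p hp
    · exact h2 p hp
  · rw [List.map_append, List.sum_append]
    linarith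

/-- the tail outside the list -/
theorem Inv.tail {A : Mx 3} (hA : PD A) {HB K : Lst} (hHB : Half HB.vecs) {τ : ℕ}
    (h : Inv HB.toList K.toList τ A) (hτ : τ ≤ 536870912) (Φ : List (Fin 3 → ℤ))
    (hΦ : ∀ i : Fin 3, Pi.single i 1 ∈ Φ)
    (hcov : ∀ x : Fin 3 → ℤ, x ≠ 0 → (∀ v ∈ Φ, |v ⬝ᵥ x| ≤ 5) → x ∈ HB.vecs ∨ -x ∈ HB.vecs)
    (hd : ∀ v ∈ Φ, ∀ x : Fin 3 → ℤ, 3 / 5 * ((v ⬝ᵥ x : ℤ) : ℝ) ^ 2 ≤ qf A x) :
    TailOK A K.vecs (488 / 10 ^ 6) 10 := by
  classical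
  obtain ⟨D, h1, h2, h3⟩ := h
  have hnd : ((K.toList ++ D.map Prod.fst).map Vx.vec).Nodup :=
    ((h1.map Vx.vec).nodup_iff).mpr hHB.1
  rw [List.map_append, List.map_map] at hnd
  obtain ⟨n1, n2, n3⟩ := List.nodup_append'.mp hnd
  have huniq : ∀ p ∈ D, ∀ q ∈ D, p.1.vec = q.1.vec → p = q := fun p hp q hq hpq =>
    List.inj_on_of_nodup_map n2 hp hq hpq
  set T : (Fin 3 → ℤ) → ℝ := fun x => if h : ∃ p ∈ D, p.1.vec = x then h.choose.2 else 0 with hT
  have hTp : ∀ p ∈ D, T p.1.vec = p.2 := by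
    intro p hp
    have hex : ∃ q ∈ D, q.1.vec = p.1.vec := ⟨p, hp, rfl⟩
    have e : T p.1.vec = hex.choose.2 := by
      rw [hT]
      exact dif_pos hex
    rw [e]
    have := huniq _ hex.choose_spec.1 p hp hex.choose_spec.2
    rw [this]
  have hmem : ∀ x ∈ HB.vecs, x ∉ K.vecs → ∃ p ∈ D, p.1.vec = x := by
    intro x hx hk
    obtain ⟨v, hv, rfl⟩ := List.mem_map.mp hx
    have := h1.mem_iff.mpr hv
    rcases List.mem_append.mp this with h | h
    · exact absurd (List.mem_map_of_mem h) hk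
    · obtain ⟨p, hp, rfl⟩ := List.mem_map.mp h
      exact ⟨p, hp, rfl⟩
  have hK : ∀ p ∈ D, p.1.vec ∉ K.vecs := fun p hp hc =>
    n3 hc (List.mem_map.mpr ⟨p, hp, rfl⟩)
  have hsum : (HB.vecs.map fun x => if x ∈ K.vecs then 0 else T x * Real.exp (-(T x))).sum =
      (D.map fun p => p.2 * Real.exp (-p.2)).sum := by
    have e1 : (HB.vecs.map fun x => if x ∈ K.vecs then 0 else T x * Real.exp (-(T x))).sum =
        (((K.toList ++ D.map Prod.fst).map Vx.vec).map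
          fun x => if x ∈ K.vecs then 0 else T x * Real.exp (-(T x))).sum :=
      (((h1.map Vx.vec).map _).sum_eq).symm
    rw [e1, List.map_append, List.map_append, List.sum_append]
    have e2 : ((K.toList.map Vx.vec).map
        fun x => if x ∈ K.vecs then 0 else T x * Real.exp (-(T x))).sum = 0 := by
      apply List.sum_eq_zero
      intro y hy
      obtain ⟨x, hx, rfl⟩ := List.mem_map.mp hy
      exact if_pos hx
    rw [e2, zero_add, List.map_map, List.map_map]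
    congr 1
    refine List.map_congr_left fun p hp => ?_
    show (if p.1.vec ∈ K.vecs then 0 else T p.1.vec * Real.exp (-(T p.1.vec))) = _
    rw [if_neg (hK p hp), hTp p hp]
  have hfin := tail_fun hA hHB Φ hΦ hcov hd T (L := K.vecs)
    (fun x hx hk => by
      obtain ⟨p, hp, rfl⟩ := hmem x hx hk
      rw [hTp p hp]; exact (h2 p hp).1)
    (fun x hx hk => by
      obtain ⟨p, hp, rfl⟩ := hmem x hx hk
      rw [hTp p hp]; exact (h2 p hp).2)
    (S := (D.map fun p => p.2 * Real.exp (-p.2)).sum) (le_of_eq hsum)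
  intro t ht
  refine (hfin t ht).trans ?_
  refine mul_le_mul_of_nonneg_right ?_ (Real.exp_pos _).le
  have h4 : (τ : ℝ) ≤ 536870912 := by exact_mod_cast hτ
  have h5 : (τ : ℝ) / 2 ^ 40 ≤ 1 / 2 ^ 11 := by
    rw [div_le_div_iff₀ (by positivity) (by positivity)]
    have e : (536870912 : ℝ) * 2 ^ 11 = 1 * 2 ^ 40 := by norm_num
    rw [← e]
    exact mul_le_mul_of_nonneg_right h4 (by positivity)
  have h6 : (1 : ℝ) / 2 ^ 11 + 12 / 10 ^ 6 - 13650000 / 2 ^ 40 ≤ 488 / 10 ^ 6 := by norm_num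
  linarith

/-! ### the loop -/

/-- the classes -/
def clsW : List (ℕ × ℕ) := [(20, 45326), (18, 301420), (17, 773825), (16, 1979740), (15, 5045148),
  (14, 12799857), (13, 32308361), (12, 81067596), (11, 202000857), (10, 499177507)]

theorem cls_ok {p : ℕ × ℕ} (h : p ∈ clsW) : (p.1 : ℝ) * Real.exp (-(p.1 : ℝ)) ≤ p.2 / 2 ^ 40 :=
  cls_w (T := p.1) (w := p.2) h le_rfl

theorem cls_sound {k base q : ℕ} {f : ℕ → Bool} (h : cls k base q f = true) :
    ∃ p ∈ clsW, f p.2 = true ∧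
      pge6 q (Nat.mul (Nat.add base (Nat.shiftLeft p.1 k)) ON) = true := by
  unfold cls at h
  simp only [cnd_true] at h
  rcases h with ⟨h1, h2⟩ | ⟨-, h⟩
  · exact ⟨(20, 45326), by simp [clsW], h2, h1⟩
  rcases h with ⟨h1, h2⟩ | ⟨-, h⟩
  · exact ⟨(18, 301420), by simp [clsW], h2, h1⟩
  rcases h with ⟨h1, h2⟩ | ⟨-, h⟩
  · exact ⟨(17, 773825), by simp [clsW], h2, h1⟩
  rcases h with ⟨h1, h2⟩ | ⟨-, h⟩
  · exact ⟨(16, 1979740), by simp [clsW], h2, h1⟩
  rcases h with ⟨h1, h2⟩ | ⟨-, h⟩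
  · exact ⟨(15, 5045148), by simp [clsW], h2, h1⟩
  rcases h with ⟨h1, h2⟩ | ⟨-, h⟩
  · exact ⟨(14, 12799857), by simp [clsW], h2, h1⟩
  rcases h with ⟨h1, h2⟩ | ⟨-, h⟩
  · exact ⟨(13, 32308361), by simp [clsW], h2, h1⟩
  rcases h with ⟨h1, h2⟩ | ⟨-, h⟩
  · exact ⟨(12, 81067596), by simp [clsW], h2, h1⟩
  rcases h with ⟨h1, h2⟩ | ⟨-, h⟩
  · exact ⟨(11, 202000857), by simp [clsW], h2, h1⟩
  rcases h with ⟨h1, h2⟩ | ⟨-, h⟩
  · exact ⟨(10, 499177507), by simp [clsW], h2, h1⟩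
  exact absurd h (by simp)

theorem clsW_ten {p : ℕ × ℕ} (h : p ∈ clsW) : 10 ≤ p.1 ∧ p.1 ≤ 20 := by
  have : ∀ p ∈ clsW, 10 ≤ p.1 ∧ p.1 ≤ 20 := by decide
  exact this p h

/-- the loop of an `li` node -/
theorem liL_sound {k C f0 f1 f2 f3 f4 f5 : ℕ} {g : Lst → ℕ → Bool} (L : Lst) :
    ∀ (M τ : ℕ) (acc : Lst), liL k C f0 f1 f2 f3 f4 f5 g L M τ acc = true →
    ∃ (L' : Lst) (τ' : ℕ) (D : List (Vx × ℕ × ℕ)), g L' τ' = true ∧
      (L'.toList ++ D.map Prod.fst).Perm (L.toList ++ acc.toList) ∧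
      (∀ p ∈ D, p.2 ∈ clsW ∧ p.1 ∈ L.toList ∧
        pge6 (ev p.1 f0 f1 f2 f3 f4 f5)
          (Nat.mul (Nat.add (Nat.mul C p.1.n) (Nat.shiftLeft p.2.1 k)) ON) = true) ∧
      τ + (D.map fun p => p.2.2).sum = τ' := by
  induction L with
  | nil =>
    intro M τ acc h
    exact ⟨acc, τ, [], h, by simp [Lst.toList_nil], by simp, by simp⟩
  | cons v t ih =>
    intro M τ acc h
    have h' : cnd (Nat.beq (Nat.mod M 2) 1)
      (liL k C f0 f1 f2 f3 f4 f5 g t (Nat.div M 2) τ (.cons v acc))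
      (cls k (Nat.mul C v.n) (ev v f0 f1 f2 f3 f4 f5) fun w =>
        liL k C f0 f1 f2 f3 f4 f5 g t (Nat.div M 2) (Nat.add τ w) acc) = true := h
    rcases cnd_true.mp h' with ⟨-, h⟩ | ⟨-, h⟩
    · obtain ⟨L', τ', D, h1, h2, h3, h4⟩ := ih _ _ _ h
      refine ⟨L', τ', D, h1, h2.trans ?_, fun p hp => ?_, h4⟩
      · rw [Lst.toList_cons, Lst.toList_cons]
        exact List.perm_middle
      · obtain ⟨q1, q2, q3⟩ := h3 p hp
        exact ⟨q1, by rw [Lst.toList_cons]; exact List.mem_cons_of_mem _ q2, q3⟩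
    · obtain ⟨p, hp, h5, h6⟩ := cls_sound h
      obtain ⟨L', τ', D, h1, h2, h3, h4⟩ := ih _ _ _ h5
      refine ⟨L', τ', (v, p) :: D, h1, ?_, fun q hq => ?_, ?_⟩
      · rw [List.map_cons, Lst.toList_cons, List.cons_append]
        exact List.perm_middle.trans (h2.cons v)
      · rcases List.mem_cons.mp hq with hq | hq
        · subst hq
          exact ⟨hp, by rw [Lst.toList_cons]; exact List.mem_cons_self, h6⟩
        · obtain ⟨q1, q2, q3⟩ := h3 q hq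
          exact ⟨q1, by rw [Lst.toList_cons]; exact List.mem_cons_of_mem _ q2, q3⟩
      · rw [List.map_cons, List.sum_cons, ← h4]
        show τ + (p.2 + _) = τ + p.2 + _
        ring

/-- the invariant through the loop: `a v` the length of `v`, the packed value is at most
`C n + 2 ^ k a` at the fields' combination -/
theorem Inv.loop {HB K : List Vx} {τ : ℕ} {A : Mx 3} (h : Inv HB K τ A)
    {k C f0 f1 f2 f3 f4 f5 : ℕ} {L' : Lst} {τ' : ℕ} {D : List (Vx × ℕ × ℕ)}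
    (h2 : (L'.toList ++ D.map Prod.fst).Perm K)
    (h3 : ∀ p ∈ D, p.2 ∈ clsW ∧ p.1 ∈ K ∧
        pge6 (ev p.1 f0 f1 f2 f3 f4 f5)
          (Nat.mul (Nat.add (Nat.mul C p.1.n) (Nat.shiftLeft p.2.1 k)) ON) = true)
    (h4 : τ + (D.map fun p => p.2.2).sum = τ')
    (hlen : ∀ v ∈ K, ∀ T : ℕ, T ≤ 20 →
      pge6 (ev v f0 f1 f2 f3 f4 f5)
        (Nat.mul (Nat.add (Nat.mul C v.n) (Nat.shiftLeft T k)) ON) = true →
      (T : ℝ) ≤ qf A v.vec) :
    Inv HB L'.toList τ' A := by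
  refine h.step (D' := D.map fun p => (p.1, (p.2.1 : ℝ))) ?_ ?_ ?_
  · rw [List.map_map]
    exact h2
  · intro p hp
    obtain ⟨q, hq, rfl⟩ := List.mem_map.mp hp
    obtain ⟨q1, q2, q3⟩ := h3 q hq
    obtain ⟨q4, q5⟩ := clsW_ten q1
    refine ⟨?_, hlen q.1 q2 q.2.1 q5 q3⟩
    show (10 : ℝ) ≤ ((q.2.1 : ℕ) : ℝ)
    exact_mod_cast q4
  · rw [List.map_map, ← h4]
    have key : ∀ D : List (Vx × ℕ × ℕ), (∀ p ∈ D, p.2 ∈ clsW) →
        (D.map ((fun p : Vx × ℝ => p.2 * Real.exp (-p.2)) ∘ fun p => (p.1, (p.2.1 : ℝ)))).sum ≤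
          (((D.map fun p => p.2.2).sum : ℕ) : ℝ) / 2 ^ 40 := by
      intro D
      induction D with
      | nil => intro _; simp
      | cons p D ih =>
        intro hD
        rw [List.map_cons, List.sum_cons, List.map_cons, List.sum_cons]
        have e1 := ih fun q hq => hD q (List.mem_cons_of_mem _ hq)
        have e2 := cls_ok (hD p List.mem_cons_self)
        rw [Nat.cast_add, add_div]
        exact add_le_add e2 e1
    have := key D fun p hp => (h3 p hp).1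
    push_cast at this ⊢
    linarith

end Pool.Agent.Lib.EPX
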