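import Pool.Agent.Lib.EPX.RegS
import Pool.Agent.Lib.EPX.LiR
import Pool.Agent.Lib.EPL.Cell

/-!
# EPX.LiA: the real inequalities of the `li` nodes

`CS`: `d (v · x)² ≤ adj[v] V[x]` for `V = formOf l`, `l ≥ 0`. `hdD`, `hdE`: the hypothesis of `tail_fun` on both
sides from the conditions at the vertices. `low_dual`: `P ≥ T` for a form above.
-/

open Matrix
open scoped Matrix.Norms.Elementwise

namespace Pool.Agent.Lib.EPX

open Pool.Agent.Lib.EpZ Pool.Agent.Lib.EPL Pool.Agent.Lib.EPS Pool.Agent.Lib.FCC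

/-- the adjugate form of `formOf l` at `v` -/
def adjq (l : Fin 6 → ℝ) (v : Fin 3 → ℝ) : ℝ :=
  ((l 0 + l 3) * (l 1 + l 2 + l 5) + l 5 * (l 1 + l 2)) * v 0 ^ 2 +
  ((l 0 + l 4) * (l 1 + l 2 + l 5) + l 2 * (l 1 + l 5)) * v 1 ^ 2 +
  ((l 2 + l 4) * (l 0 + l 3 + l 5) + l 0 * (l 3 + l 5)) * v 2 ^ 2 +
  2 * (l 0 * (l 1 + l 2 + l 5) + l 2 * l 5) * (v 0 * v 1) +
  2 * (l 0 * l 5 + l 2 * (l 0 + l 3 + l 5)) * (v 0 * v 2) +
  2 * ((l 0 + l 2 + l 4) * l 5 + l 0 * l 2) * (v 1 * v 2)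

theorem qr_inv_form (l : Fin 6 → ℝ) (v : Fin 3 → ℝ) :
    qr (formOf l)⁻¹ v = adjq l v / dt l := by
  have h1 : (formOf l)⁻¹ = (dt l)⁻¹ • (formOf l).adjugate := by
    rw [Matrix.inv_def, formOf_det, Ring.inverse_eq_inv']
  rw [h1, qr_smul, Matrix.adjugate_fin_three, div_eq_inv_mul]
  congr 1
  unfold qr adjq formOf
  simp [Matrix.mulVec, dotProduct, Fin.sum_univ_three]
  ring

/-- Cauchy-Schwarz with the adjugate -/
theorem CS {l : Fin 6 → ℝ} (hl : ∀ i, 0 ≤ l i) (hd : 0 < dt l) {v : Fin 3 → ℝ} {κ : ℝ}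
    (h : adjq l v ≤ κ * dt l) (x : Fin 3 → ℤ) : (v ⬝ᵥ rv x) ^ 2 ≤ κ * qf (formOf l) x := by
  refine dual_low (formOf_pd hl hd) ?_ x
  rw [qr_inv_form, div_le_iff₀ hd]
  exact h

/-- monotonicity of the form in the Selling parameters -/
theorem qr_formOf_mono {l m : Fin 6 → ℝ} (h : ∀ k, l k ≤ m k) (v : Fin 3 → ℝ) :
    qr (formOf l) v ≤ qr (formOf m) v := by
  rw [DetCAux.qr_form, DetCAux.qr_form]
  have h0 := mul_le_mul_of_nonneg_right (h 0) (sq_nonneg (v 0 - v 1))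
  have h1 := mul_le_mul_of_nonneg_right (h 1) (sq_nonneg (v 2))
  have h2 := mul_le_mul_of_nonneg_right (h 2) (sq_nonneg (v 0 - v 2))
  have h3 := mul_le_mul_of_nonneg_right (h 3) (sq_nonneg (v 1))
  have h4 := mul_le_mul_of_nonneg_right (h 4) (sq_nonneg (v 0))
  have h5 := mul_le_mul_of_nonneg_right (h 5) (sq_nonneg (v 1 - v 2))
  linarith

theorem qf_formOf_mono {l m : Fin 6 → ℝ} (h : ∀ k, l k ≤ m k) (x : Fin 3 → ℤ) :
    qf (formOf l) x ≤ qf (formOf m) x := qr_formOf_mono h _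

/-- value of the form of a combination -/
theorem qr_formOf_sum {μ : Fin 6 → ℝ} {V : Fin 6 → Fin 6 → ℝ} {l : Fin 6 → ℝ}
    (hl : ∀ k, l k = ∑ i, μ i * V i k) (v : Fin 3 → ℝ) :
    qr (formOf l) v = ∑ i, μ i * qr (formOf (V i)) v := by
  simp only [DetCAux.qr_form, hl, Fin.sum_univ_six]
  ring

/-- the direct side: `3/5 (v · x)² ≤ A[x]` from the vertices -/
theorem hdD {V : Fin 6 → Fin 6 → ℝ} (hV : ∀ i k, 0 ≤ V i k) (hd : ∀ i, 0 < dt (V i))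
    {p : Fin 6 → ℝ} {μ : Fin 6 → ℝ} (hμ : ∀ i, 0 ≤ μ i)
    (h1 : ∑ i, μ i = 1) {v : Fin 3 → ℤ}
    (h : ∀ i, 3 * 2 ^ 26 * adjq (V i) (rv v) ≤ 5 * p i * dt (V i))
    {a : Fin 6 → ℝ} (ha : ∀ k, ∑ i, μ i * (p i * V i k) ≤ 2 ^ 26 * a k) (x : Fin 3 → ℤ) :
    3 / 5 * ((v ⬝ᵥ x : ℤ) : ℝ) ^ 2 ≤ qf (formOf a) x := by
  have e0 : ((v ⬝ᵥ x : ℤ) : ℝ) = rv v ⬝ᵥ rv x := by
    simp [dotProduct, rv]
  have key : ∀ i, 3 * 2 ^ 26 * (rv v ⬝ᵥ rv x) ^ 2 ≤ 5 * p i * qf (formOf (V i)) x := by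
    intro i
    have h2 := CS (hV i) (hd i) (κ := 5 * p i / (3 * 2 ^ 26)) (v := rv v) (by
      have := h i
      rw [div_mul_eq_mul_div, le_div_iff₀ (by norm_num)]
      linarith) x
    rw [div_mul_eq_mul_div, le_div_iff₀ (by norm_num)] at h2
    linarith
  have h3 : 3 * 2 ^ 26 * (rv v ⬝ᵥ rv x) ^ 2 ≤ 5 * (2 ^ 26 * qf (formOf a) x) := by
    have h4 : ∑ i, μ i * (3 * 2 ^ 26 * (rv v ⬝ᵥ rv x) ^ 2) ≤
        ∑ i, μ i * (5 * p i * qf (formOf (V i)) x) := comb_le hμ key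
    rw [← Finset.sum_mul, h1, one_mul] at h4
    refine h4.trans ?_
    have h5 : ∑ i, μ i * (5 * p i * qf (formOf (V i)) x) =
        5 * qf (formOf fun k => ∑ i, μ i * (p i * V i k)) x := by
      unfold qf
      rw [qr_formOf_sum (μ := fun i => μ i * p i) (V := V) (fun k => by
        exact Finset.sum_congr rfl fun i _ => by ring), Finset.mul_sum]
      exact Finset.sum_congr rfl fun i _ => by ring
    rw [h5]
    have h6 : qf (formOf fun k => ∑ i, μ i * (p i * V i k)) x ≤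
        qf (formOf fun k => 2 ^ 26 * a k) x := qf_formOf_mono ha x
    have h7 : qf (formOf fun k => 2 ^ 26 * a k) x = 2 ^ 26 * qf (formOf a) x := by
      unfold qf
      simp only [DetCAux.qr_form]
      ring
    rw [h7] at h6
    linarith
  rw [e0]
  linarith

/-- the dual side: `3/5 (v · y)² ≤ P[y]` from `A[v] ≤ 16` -/
theorem hdE {A : Mx 3} (hA : PD A) {v : Fin 3 → ℤ} (h : qf A v ≤ 16) (y : Fin 3 → ℤ) :
    3 / 5 * ((v ⬝ᵥ y : ℤ) : ℝ) ^ 2 ≤ qf (Pd A) y := by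
  have e0 : ((v ⬝ᵥ y : ℤ) : ℝ) = rv v ⬝ᵥ rv y := by
    simp [dotProduct, rv]
  have hpi : 9.6 ≤ Real.pi ^ 2 := by
    have := Real.pi_gt_d2
    nlinarith
  have hpi0 : Real.pi ^ 2 ≠ 0 := by positivity
  have e1 : (Pd A)⁻¹ = (Real.pi ^ 2)⁻¹ • A := by
    unfold Pd
    have hu : IsUnit A.det := hA.det_pos.ne'.isUnit
    have : (Real.pi ^ 2 • A⁻¹) * ((Real.pi ^ 2)⁻¹ • A) = 1 := by
      rw [Matrix.smul_mul, Matrix.mul_smul, smul_smul, mul_inv_cancel₀ hpi0, one_smul,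
        Matrix.nonsing_inv_mul _ hu]
    exact Matrix.inv_eq_right_inv this
  have h2 := dual_low (Pd_pd hA) (κ := 16 / Real.pi ^ 2) (v := rv v) (by
    rw [e1, qr_smul, inv_mul_eq_div]
    exact div_le_div_of_nonneg_right h (by positivity)) y
  rw [e0]
  have h3 : 0 ≤ qf (Pd A) y := IcvAux.qr_nonneg (Pd_pd hA) _
  have h4 : 16 / Real.pi ^ 2 * qf (Pd A) y ≤ 16 / 9.6 * qf (Pd A) y := by
    refine mul_le_mul_of_nonneg_right ?_ h3
    exact div_le_div_of_nonneg_left (by norm_num) (by norm_num) hpi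
  nlinarith

/-- the lower bound of the dual form from a form above -/
theorem low_dual {A W : Mx 3} (hA : PD A) (hAW : ∀ v : Fin 3 → ℝ, qr A v ≤ qr W v) {S : Mx 3}
    (hS : S.IsSymm) {c : ℝ} (hc : 1 / Real.pi ^ 2 ≤ c) (y : Fin 3 → ℤ) :
    qf (Tf S c W) y ≤ qf (Pd A) y := by
  have h1 := inv_low hA hS hc (rv y)
  have hc0 : 0 ≤ c := le_trans (by positivity) hc
  unfold qf Tf Pd
  rw [qr_sub, qr_smul, qr_smul, qr_smul, IcvAux.qr_conj' hS]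
  rw [IcvAux.qr_conj' hS] at h1
  have h2 := mul_le_mul_of_nonneg_left (hAW (S *ᵥ rv y)) hc0
  linarith

theorem inv_pi_sq_le : 1 / Real.pi ^ 2 ≤ 26561 / 2 ^ 18 := by
  have h := Real.pi_gt_d6
  rw [div_le_div_iff₀ (by positivity) (by norm_num)]
  have h2 : (3.141592 : ℝ) ^ 2 ≤ Real.pi ^ 2 := by
    exact pow_le_pow_left₀ (by norm_num) h.le 2
  nlinarith

end Pool.Agent.Lib.EPX
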