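import Pool.Agent.Lib.EPX.PkS

/-!
# EPX.PkC: comparison of packed numbers

The tool is `fk_testBit`: `(fk w k).testBit j = w.testBit (256 * k + j)` for `j < 256`
(`Nat.testBit_mod_two_pow`, `Nat.testBit_div_two_pow`), hence `fk (x &&& y) k = fk x k &&& fk y k`
(`Nat.eq_of_testBit_eq`, `Nat.testBit_land`).

`pge6_le`: `H6` is the 6-packed number with fields `2 ^ 255` (`decide +kernel` with `pk6`).
`D = X + H6 - Y` is 6-packed with the fields `x + 2 ^ 255 - y` (`R6.add_aux`, `R6.sub_aux`; all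
in `(0, 2 ^ 256)`). `Nat.land D H6 = H6` gives `fk D (gp i) &&& 2 ^ 255 = 2 ^ 255`, so bit 255 of
`fk D (gp i)` is set and `fk D (gp i) ≥ 2 ^ 255`, i.e. `y ≤ x`. `pge35_le` is the same with
`RepN 35` (`H35` has the fields `2 ^ 255` at all `k < 35`; `repn_sub`, `W35.of`).

`clip_spec`: `t = D &&& H6` has the fields `g_i 2 ^ 255`, `g_i ∈ {0, 1}` (`g_i = 1` iff
`x_i ≤ b_i`), `t >>> 255` the fields `g_i` (representation), the mask has the fields
`g_i (2 ^ 255 - 1)`, and `D &&& mask` has the fields `D_i % 2 ^ 255` or `0`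
(`Nat.and_two_pow_sub_one_eq_mod`).

`grid_spec`: `fld q e = q / 2 ^ e % 2 ^ 256` is `fk q (gp i)` for `e = 256 * gp i`; `mi`, `ma` are
`min`, `max`; `Nat.shiftRight_eq_div_pow`.

`mod_le`: `(2 ^ 256) ^ k ≡ 1` modulo `BM1 = 2 ^ 256 - 1`, so `w ≡ ∑ i, fk w (gp i)`, and
`Nat.mod_le`.
-/

namespace Pool.Agent.Lib.EPX

open Pool.Agent.Lib.EPL

theorem fk_testBit (w k j : ℕ) (hj : j < 256) : (fk w k).testBit j = w.testBit (256 * k + j) := by
  unfold fk
  rw [← pow_mul, Nat.testBit_mod_two_pow, Nat.testBit_div_two_pow]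
  simp only [hj, decide_true, Bool.true_and]
  rw [Nat.add_comm]

namespace PkCAux

theorem fk_land (x y k : ℕ) : fk (x &&& y) k = fk x k &&& fk y k := by
  apply Nat.eq_of_testBit_eq
  intro j
  unfold fk
  rw [Nat.testBit_land]
  simp only [← pow_mul, Nat.testBit_mod_two_pow, Nat.testBit_div_two_pow, Nat.testBit_land]
  cases decide (j < 256) <;> simp

theorem H6_eq : H6 = pk6 (2 ^ 255) (2 ^ 255) (2 ^ 255) (2 ^ 255) (2 ^ 255) (2 ^ 255) := by
  decide +kernel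

theorem H6_spec : R6 (2 ^ 255) (2 ^ 255) H6 ∧ ∀ i : Fin 6, fk H6 (gp i) = 2 ^ 255 := by
  rw [H6_eq]
  have h := R6.pk (a := 2 ^ 255) (b := 2 ^ 255) ⟨le_refl (2 ^ 255), le_refl (2 ^ 255)⟩
    ⟨le_refl (2 ^ 255), le_refl (2 ^ 255)⟩ ⟨le_refl (2 ^ 255), le_refl (2 ^ 255)⟩
    ⟨le_refl (2 ^ 255), le_refl (2 ^ 255)⟩ ⟨le_refl (2 ^ 255), le_refl (2 ^ 255)⟩
    ⟨le_refl (2 ^ 255), le_refl (2 ^ 255)⟩ (by norm_num)
  refine ⟨h.1, fun i => ?_⟩
  rw [h.2]
  fin_cases i <;> rfl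

theorem H35_rep : RepN 35 (2 ^ 256) H35 (fun _ => 2 ^ 255) := by
  unfold RepN
  decide +kernel

theorem ge_of_bit {x : ℕ} (h : x &&& 2 ^ 255 = 2 ^ 255) : 2 ^ 255 ≤ x := by
  by_contra hc
  have h1 : x.testBit 255 = false := Nat.testBit_lt_two_pow (not_le.1 hc)
  have h2 : (x &&& 2 ^ 255).testBit 255 = false := by
    rw [Nat.testBit_land, h1, Bool.false_and]
  rw [h, Nat.testBit_two_pow_self] at h2
  exact absurd h2 (by simp)

theorem bit_cases {x : ℕ} (hx : x < 2 ^ 256) :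
    x &&& 2 ^ 255 = if 2 ^ 255 ≤ x then 2 ^ 255 else 0 := by
  apply Nat.eq_of_testBit_eq
  intro j
  rw [Nat.testBit_land, Nat.testBit_two_pow]
  by_cases hj : 255 = j
  · subst hj
    by_cases h : 2 ^ 255 ≤ x
    · rw [if_pos h, Nat.testBit_two_pow_self]
      have h1 : x.testBit 255 = true := by
        rw [Nat.testBit_eq_decide_div_mod_eq]
        have h2 : x / 2 ^ 255 = 1 := by
          apply Nat.div_eq_of_lt_le
          · rw [one_mul]; exact h
          · have : (1 + 1) * 2 ^ 255 = 2 ^ 256 := by norm_num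
            rw [this]; exact hx
        rw [h2]
        rfl
      rw [h1]
      simp
    · rw [if_neg h]
      have h1 : x.testBit 255 = false := Nat.testBit_lt_two_pow (not_le.1 h)
      rw [h1]
      simp
  · by_cases h : 2 ^ 255 ≤ x
    · rw [if_pos h, Nat.testBit_two_pow]
      simp [hj]
    · rw [if_neg h]
      simp [hj]

theorem diff6 {a b c d X Y : ℕ} (hX : R6 a b X) (hY : R6 c d Y) (hb : b < 2 ^ 255)
    (hd : d < 2 ^ 255) : R6 (a + 2 ^ 255 - d) (b + 2 ^ 255 - c) (X + H6 - Y) ∧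
      ∀ i, fk (X + H6 - Y) (gp i) = fk X (gp i) + 2 ^ 255 - fk Y (gp i) := by
  have h255 : (2 : ℕ) ^ 256 = 2 ^ 255 + 2 ^ 255 := by norm_num
  obtain ⟨h1, h2⟩ := hX.add_aux H6_spec.1 (by omega)
  have h3 : ∀ i, fk Y (gp i) ≤ fk (X + H6) (gp i) := by
    intro i
    rw [h2, H6_spec.2]
    have := hY.hi i
    omega
  obtain ⟨h4, h5⟩ := h1.sub_aux hY h3
  refine ⟨h4, fun i => ?_⟩
  rw [h5, h2, H6_spec.2]

theorem mi_eq (a b : ℕ) : mi a b = min a b := by
  unfold mi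
  cases h : Nat.ble a b
  · have h1 : ¬ a ≤ b := fun hc => by
      have := Nat.ble_eq_true_of_le hc
      rw [h] at this
      exact absurd this (by simp)
    show b = min a b
    omega
  · have h1 : a ≤ b := Nat.le_of_ble_eq_true h
    show a = min a b
    omega

theorem ma_eq (a b : ℕ) : ma a b = max a b := by
  unfold ma
  cases h : Nat.ble a b
  · have h1 : ¬ a ≤ b := fun hc => by
      have := Nat.ble_eq_true_of_le hc
      rw [h] at this
      exact absurd this (by simp)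
    show a = max a b
    omega
  · have h1 : a ≤ b := Nat.le_of_ble_eq_true h
    show b = max a b
    omega

theorem fld_eq (q k : ℕ) : fld q (256 * k) = fk q k := by
  unfold fld fk
  have e : (115792089237316195423570985008687907853269984665640564039457584007913129639936 : ℕ) =
      2 ^ 256 := by norm_num
  rw [e, ← pow_mul]
  show (q >>> (256 * k)) % 2 ^ 256 = _
  rw [Nat.shiftRight_eq_div_pow]

end PkCAux

open PkCAux

theorem pge6_le {a b c d X Y : ℕ} (hX : R6 a b X) (hY : R6 c d Y) (hb : b < 2 ^ 255)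
    (hd : d < 2 ^ 255) (h : pge6 X Y = true) : ∀ i, fk Y (gp i) ≤ fk X (gp i) := by
  intro i
  have h0 : (X + H6 - Y) &&& H6 = H6 := Nat.eq_of_beq_eq_true h
  obtain ⟨-, h2⟩ := diff6 hX hY hb hd
  have h3 : fk ((X + H6 - Y) &&& H6) (gp i) = fk H6 (gp i) := by rw [h0]
  rw [fk_land, H6_spec.2] at h3
  have h4 := ge_of_bit h3
  rw [h2] at h4
  omega

theorem pge35_le {b d X Y : ℕ} (hX : W35 b X) (hY : W35 d Y) (hb : b < 2 ^ 255)
    (hd : d < 2 ^ 255) (h : pge35 X Y = true) : ∀ k < 35, fk Y k ≤ fk X k := by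
  intro k hk
  have h255 : (2 : ℕ) ^ 256 = 2 ^ 255 + 2 ^ 255 := by norm_num
  have h0 : (X + H35 - Y) &&& H35 = H35 := Nat.eq_of_beq_eq_true h
  have h1 : RepN 35 (2 ^ 256) (X + H35 - Y) (fun k => fk X k + 2 ^ 255 - fk Y k) :=
    repn_sub (repn_add hX.rep H35_rep) hY.rep (fun k _ => by
      have := hY.hi k
      show fk Y k ≤ fk X k + 2 ^ 255
      omega)
  obtain ⟨-, h2, -⟩ := fk_of_repn h1 (fun k _ => by
    have := hX.hi k
    show fk X k + 2 ^ 255 - fk Y k < 2 ^ 256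
    omega)
  obtain ⟨-, h3, -⟩ := fk_of_repn H35_rep (fun k _ => by norm_num)
  have h4 : fk ((X + H35 - Y) &&& H35) k = fk H35 k := by rw [h0]
  rw [fk_land, h3 k hk] at h4
  have h5 := ge_of_bit h4
  rw [h2 k hk] at h5
  omega

theorem clip_spec {a b c d B X : ℕ} (hB : R6 a b B) (hX : R6 c d X) (hb : b < 2 ^ 255)
    (hd : d < 2 ^ 255) : R6 0 (b - c) (clip B X) ∧
      ∀ i, fk (clip B X) (gp i) = fk B (gp i) - fk X (gp i) := by
  have h255 : (2 : ℕ) ^ 256 = 2 ^ 255 + 2 ^ 255 := by norm_num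
  obtain ⟨hD, hDf⟩ := diff6 hB hX hb hd
  have hclip : clip B X = (B + H6 - X) &&& (((B + H6 - X) &&& H6) - ((B + H6 - X) &&& H6) >>> 255) := rfl
  generalize hDe : B + H6 - X = D at *
  have hDlt : ∀ i, fk D (gp i) < 2 ^ 256 := fun i => fk_lt D _
  -- the fields of `D &&& H6`
  have ht : ∀ i, fk (D &&& H6) (gp i) = 2 ^ 255 * (if 2 ^ 255 ≤ fk D (gp i) then 1 else 0) := by
    intro i
    rw [fk_land, H6_spec.2, bit_cases (hDlt i)]
    split_ifs <;> simp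
  have hts : Supp (fk (D &&& H6)) := by
    intro k hk
    rw [fk_land, hD.supp k hk, Nat.zero_and]
  have htlt : D &&& H6 < (2 ^ 256) ^ 18 := Nat.and_le_left.trans_lt hD.lt
  have htrep : RepN 18 (2 ^ 256) (D &&& H6) (fk (D &&& H6)) := repn_fk htlt
  -- the number `G` of the indicators
  let g : ℕ → ℕ := fun k => fk (D &&& H6) k / 2 ^ 255
  have hgk : ∀ k, fk (D &&& H6) k = 2 ^ 255 * g k := by
    intro k
    by_cases hk : ∀ i, k ≠ gp i
    · show _ = 2 ^ 255 * (fk (D &&& H6) k / 2 ^ 255)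
      rw [hts k hk]
      simp
    · push Not at hk
      obtain ⟨i, rfl⟩ := hk
      show _ = 2 ^ 255 * (fk (D &&& H6) (gp i) / 2 ^ 255)
      rw [ht i, Nat.mul_div_cancel_left _ (by positivity)]
  have hgi : ∀ i, g (gp i) = if 2 ^ 255 ≤ fk D (gp i) then 1 else 0 := by
    intro i
    show fk (D &&& H6) (gp i) / 2 ^ 255 = _
    rw [ht i, Nat.mul_div_cancel_left _ (by positivity)]
  have hgs : Supp g := by
    intro k hk
    show fk (D &&& H6) k / 2 ^ 255 = 0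
    rw [hts k hk]
    simp
  have hG : D &&& H6 = 2 ^ 255 * ∑ k ∈ Finset.range 18, g k * (2 ^ 256) ^ k := by
    have h1 : D &&& H6 = ∑ k ∈ Finset.range 18, fk (D &&& H6) k * (2 ^ 256) ^ k := htrep
    rw [h1, Finset.mul_sum]
    refine Finset.sum_congr rfl fun k _ => ?_
    rw [hgk k, mul_assoc]
  obtain ⟨G, hGe⟩ : ∃ G, G = ∑ k ∈ Finset.range 18, g k * (2 ^ 256) ^ k := ⟨_, rfl⟩
  rw [← hGe] at hG
  have hGR := R6.of (a := 0) (b := 1) (w := G) (f := g) hGe hgs (fun i => Nat.zero_le _)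
    (fun i => by rw [hgi i]; split_ifs <;> omega) (by norm_num)
  have hsh : (D &&& H6) >>> 255 = G := by
    rw [hG, Nat.shiftRight_eq_div_pow, Nat.mul_div_cancel_left _ (by positivity)]
  have hmask : (D &&& H6) - (D &&& H6) >>> 255 = (2 ^ 255 - 1) * G := by
    rw [hsh, hG, Nat.sub_mul, one_mul]
  have hM := hGR.1.mul_aux (2 ^ 255 - 1) (by norm_num)
  have hMf : ∀ i, fk ((2 ^ 255 - 1) * G) (gp i) =
      (2 ^ 255 - 1) * (if 2 ^ 255 ≤ fk D (gp i) then 1 else 0) := by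
    intro i
    rw [hM.2, hGR.2, hgi]
  rw [hclip, hmask]
  have hfin : ∀ i, fk (D &&& ((2 ^ 255 - 1) * G)) (gp i) = fk B (gp i) - fk X (gp i) := by
    intro i
    rw [fk_land, hMf i]
    have h1 := hDf i
    have h2 := hB.hi i
    have h3 := hX.hi i
    have h4 := hDlt i
    by_cases hc : 2 ^ 255 ≤ fk D (gp i)
    · rw [if_pos hc, mul_one, Nat.and_two_pow_sub_one_eq_mod]
      have h5 : fk D (gp i) = (fk D (gp i) - 2 ^ 255) + 2 ^ 255 := by omega
      rw [h5, Nat.add_mod_right, Nat.mod_eq_of_lt (by omega)]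
      omega
    · rw [if_neg hc, mul_zero, Nat.and_zero]
      omega
  refine ⟨⟨Nat.and_le_left.trans_lt hD.lt, ?_, fun i => Nat.zero_le _, fun i => ?_⟩, hfin⟩
  · intro k hk
    rw [fk_land, hD.supp k hk, Nat.zero_and]
  · rw [hfin i]
    exact tsub_le_tsub (hB.hi i) (hX.lo i)

theorem grid_spec {a b q k' : ℕ} {f : ℕ → ℕ → Bool} (hq : R6 a b q) (h : grid k' q f = true) :
    ∃ m1 m2, f m1 m2 = true ∧ m1 < m2 ∧
      (∀ i, m1 * 2 ^ k' ≤ fk q (gp i) ∧ fk q (gp i) < m2 * 2 ^ k') ∧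
      (∃ i, fk q (gp i) < (m1 + 1) * 2 ^ k') ∧ ∃ i, (m2 - 1) * 2 ^ k' ≤ fk q (gp i) := by
  have e0 : fld q 0 = fk q (gp 0) := fld_eq q 0
  have e1 : fld q 256 = fk q (gp 1) := fld_eq q 1
  have e2 : fld q 1024 = fk q (gp 2) := fld_eq q 4
  have e3 : fld q 2560 = fk q (gp 3) := fld_eq q 10
  have e4 : fld q 3072 = fk q (gp 4) := fld_eq q 12
  have e5 : fld q 4352 = fk q (gp 5) := fld_eq q 17
  unfold grid at h
  simp only [e0, e1, e2, e3, e4, e5, mi_eq, ma_eq] at h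
  generalize ha0 : fk q (gp 0) = a0 at h
  generalize ha1 : fk q (gp 1) = a1 at h
  generalize ha2 : fk q (gp 2) = a2 at h
  generalize ha3 : fk q (gp 3) = a3 at h
  generalize ha4 : fk q (gp 4) = a4 at h
  generalize ha5 : fk q (gp 5) = a5 at h
  obtain ⟨mn, hmn⟩ : ∃ mn, mn = min (min (min a0 a1) (min a2 a3)) (min a4 a5) := ⟨_, rfl⟩
  obtain ⟨mx, hmx⟩ : ∃ mx, mx = max (max (max a0 a1) (max a2 a3)) (max a4 a5) := ⟨_, rfl⟩
  rw [← hmn, ← hmx] at h
  have s1 : Nat.shiftRight mn k' = mn / 2 ^ k' := Nat.shiftRight_eq_div_pow mn k'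
  have s2 : Nat.shiftRight mx k' = mx / 2 ^ k' := Nat.shiftRight_eq_div_pow mx k'
  rw [s1, s2] at h
  have hpos : 0 < 2 ^ k' := by positivity
  have l1 : mn / 2 ^ k' * 2 ^ k' ≤ mn := Nat.div_mul_le_self _ _
  have l2 : mn < (mn / 2 ^ k' + 1) * 2 ^ k' := by
    exact (Nat.div_lt_iff_lt_mul hpos).1 (Nat.lt_succ_self _)
  have l3 : mx / 2 ^ k' * 2 ^ k' ≤ mx := Nat.div_mul_le_self _ _
  have l4 : mx < (mx / 2 ^ k' + 1) * 2 ^ k' := by
    exact (Nat.div_lt_iff_lt_mul hpos).1 (Nat.lt_succ_self _)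
  have hle : mn ≤ mx := by omega
  refine ⟨mn / 2 ^ k', mx / 2 ^ k' + 1, h, Nat.lt_succ_of_le (Nat.div_le_div_right hle), ?_, ?_, ?_⟩
  · intro i
    have hi : mn ≤ fk q (gp i) ∧ fk q (gp i) ≤ mx := by
      fin_cases i
      · show mn ≤ fk q (gp 0) ∧ fk q (gp 0) ≤ mx
        rw [ha0]; omega
      · show mn ≤ fk q (gp 1) ∧ fk q (gp 1) ≤ mx
        rw [ha1]; omega
      · show mn ≤ fk q (gp 2) ∧ fk q (gp 2) ≤ mx
        rw [ha2]; omega
      · show mn ≤ fk q (gp 3) ∧ fk q (gp 3) ≤ mx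
        rw [ha3]; omega
      · show mn ≤ fk q (gp 4) ∧ fk q (gp 4) ≤ mx
        rw [ha4]; omega
      · show mn ≤ fk q (gp 5) ∧ fk q (gp 5) ≤ mx
        rw [ha5]; omega
    exact ⟨l1.trans hi.1, hi.2.trans_lt l4⟩
  · have hc : mn = a0 ∨ mn = a1 ∨ mn = a2 ∨ mn = a3 ∨ mn = a4 ∨ mn = a5 := by omega
    rcases hc with hc | hc | hc | hc | hc | hc
    · exact ⟨0, by rw [ha0, ← hc]; exact l2⟩
    · exact ⟨1, by rw [ha1, ← hc]; exact l2⟩
    · exact ⟨2, by rw [ha2, ← hc]; exact l2⟩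
    · exact ⟨3, by rw [ha3, ← hc]; exact l2⟩
    · exact ⟨4, by rw [ha4, ← hc]; exact l2⟩
    · exact ⟨5, by rw [ha5, ← hc]; exact l2⟩
  · have hc : mx = a0 ∨ mx = a1 ∨ mx = a2 ∨ mx = a3 ∨ mx = a4 ∨ mx = a5 := by omega
    rw [Nat.add_sub_cancel]
    rcases hc with hc | hc | hc | hc | hc | hc
    · exact ⟨0, by rw [ha0, ← hc]; exact l3⟩
    · exact ⟨1, by rw [ha1, ← hc]; exact l3⟩
    · exact ⟨2, by rw [ha2, ← hc]; exact l3⟩
    · exact ⟨3, by rw [ha3, ← hc]; exact l3⟩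
    · exact ⟨4, by rw [ha4, ← hc]; exact l3⟩
    · exact ⟨5, by rw [ha5, ← hc]; exact l3⟩

theorem mod_le {a b w : ℕ} (hw : R6 a b w) : w % BM1 ≤ 6 * b := by
  have hB : BM1 = 2 ^ 256 - 1 := by decide +kernel
  have h1 : (2 ^ 256 : ℕ) ≡ 1 [MOD BM1] := by
    rw [hB]
    show 2 ^ 256 % (2 ^ 256 - 1) = 1 % (2 ^ 256 - 1)
    norm_num
  have h2 : w ≡ ∑ k ∈ Finset.range 18, fk w k * 1 [MOD BM1] := by
    have h3 : w = ∑ k ∈ Finset.range 18, fk w k * (2 ^ 256) ^ k := hw.rep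
    conv_lhs => rw [h3]
    refine Nat.ModEq.sum fun k _ => ?_
    have h4 := Nat.ModEq.pow k h1
    rw [one_pow] at h4
    exact Nat.ModEq.mul_left _ h4
  have h5 : w % BM1 ≤ ∑ k ∈ Finset.range 18, fk w k * 1 := by
    have h6 : w % BM1 = (∑ k ∈ Finset.range 18, fk w k * 1) % BM1 := h2
    rw [h6]
    exact Nat.mod_le _ _
  refine h5.trans ?_
  rw [SidCAux.sum_gp hw.supp 18 (fun _ => 1)]
  calc ∑ i : Fin 6, (if gp i < 18 then fk w (gp i) * 1 else 0) ≤ ∑ _i : Fin 6, b := by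
        refine Finset.sum_le_sum fun i _ => ?_
        rw [if_pos (gp_lt i), mul_one]
        exact hw.hi i
    _ = 6 * b := by simp

end Pool.Agent.Lib.EPX
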