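import Pool.Agent.Lib.EPX.LiA
import Pool.Agent.Lib.EPX.LeafE
import Pool.Agent.Lib.EPX.FmS
import Pool.Agent.Lib.EPX.ForS
import Pool.Agent.Lib.EPX.PkC

/-!
# EPX.LiS: soundness of the `li` nodes

`IEnv l w E`: the meaning of the data `E` of a node for the point `(l, w)`.
-/

open Matrix
open scoped Matrix.Norms.Elementwise

namespace Pool.Agent.Lib.EPX

open Pool.Agent.Lib.EpZ Pool.Agent.Lib.EPL Pool.Agent.Lib.EPS Pool.Agent.Lib.FCC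

/-- the scaled form -/
noncomputable def Aσ (l : Fin 6 → ℝ) (σ : ℝ) : Mx 3 := (1 / 2 ^ 26 : ℝ) • formOf fun k => σ * l k

/-- the meaning of the data of a node for the point `(l, w)` -/
structure IEnv (l : Fin 6 → ℝ) (w : ℝ) (E : Env) : Prop where
  sub1 : ∃ D : List Vx, (E.L1.toList ++ D).Perm boxD.toList
  sub2 : ∃ D : List Vx, (E.L2.toList ++ D).Perm boxE.toList
  inv : ∀ σ : ℝ, 0 < σ → (E.smin : ℝ) ≤ σ * w → σ * w ≤ E.smax →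
    Inv boxD.toList E.L1.toList E.τ1 (Aσ l σ) ∧ Inv boxE.toList E.L2.toList E.τ2 (Pd (Aσ l σ))
  leaf : 1 ≤ E.kc → LeafEnv l w E

theorem IEnv.top (l : Fin 6 → ℝ) (w : ℝ) :
    IEnv l w ⟨boxD, boxE, 13650000, 13650000, 0, 1152921504606846976, 0, 0, 0⟩ :=
  ⟨⟨[], by simp⟩, ⟨[], by simp⟩, fun _ _ _ _ => ⟨Inv.top _ _, Inv.top _ _⟩,
    fun h => absurd h (by norm_num)⟩

theorem Aσ_pd {l : Fin 6 → ℝ} (hl : ∀ k, 0 ≤ l k) (hd : 0 < dt l) {σ : ℝ} (hσ : 0 < σ) :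
    PD (Aσ l σ) := by
  have e : (formOf fun k => σ * l k) = σ • formOf l := formOf_smul σ l
  unfold Aσ
  rw [e]
  exact ((formOf_pd hl hd).smul hσ).smul (by norm_num)

/-! ### vertices -/

/-- the entries of the vertex are small -/
theorem vsm_sound {p u : ℕ} {v : Vt} (h : vsm p u v = true) :
    p * v.e ≤ 2 ^ 33 ∧ u * (v.a11 + v.a22 + v.a33 + (v.a12 + v.a13 + v.a23)) ≤ 2 ^ 66 := by
  unfold vsm at h
  simp only [cnd_and, Nat.mul_eq, Nat.add_eq] at h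
  have h1 := Nat.le_of_ble_eq_true h.1
  have h2 := Nat.le_of_ble_eq_true h.2
  constructor
  · norm_num; exact h1
  · norm_num; exact h2

theorem Vt.WF.le_e {v : Vt} (h : v.WF) : v.l0 ≤ v.e ∧ v.l1 ≤ v.e ∧ v.l2 ≤ v.e ∧ v.l3 ≤ v.e ∧
    v.l4 ≤ v.e ∧ v.l5 ≤ v.e := by
  have := h.e
  omega

theorem Vt.WF.adj {v : Vt} (h : v.WF) (x : Fin 3 → ℝ) : adjq v.L x =
    v.a11 * x 0 ^ 2 + v.a22 * x 1 ^ 2 + v.a33 * x 2 ^ 2 + 2 * v.a12 * (x 0 * x 1) +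
      2 * v.a13 * (x 0 * x 2) + 2 * v.a23 * (x 1 * x 2) := by
  rw [h, mkVt_a11, mkVt_a22, mkVt_a33, mkVt_a12, mkVt_a13, mkVt_a23]
  unfold adjq Vt.L
  simp [mkVt]

/-- the condition `vli1` -/
theorem vli1_sound {p : ℕ} {v : Vt} (hv : v.WF) (h : vli1 p v = true) :
    p * v.e ≤ 2 ^ 33 ∧ 0 < dt v.L ∧
      ∀ x ∈ ΦD, 3 * 2 ^ 26 * adjq v.L (rv x) ≤ 5 * (p : ℝ) * dt v.L := by
  unfold vli1 at h
  simp only [cnd_and, Nat.mul_eq, Nat.add_eq] at h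
  obtain ⟨h0, hd, h1, h2, h3, h4, h5, h6⟩ := h
  have hd := Nat.le_of_ble_eq_true hd
  have h1 := Nat.le_of_ble_eq_true h1
  have h2 := Nat.le_of_ble_eq_true h2
  have h3 := Nat.le_of_ble_eq_true h3
  have h4 := Nat.le_of_ble_eq_true h4
  have h5 := Nat.le_of_ble_eq_true h5
  have h6 := Nat.le_of_ble_eq_true h6
  have r1 : 201326592 * (v.a11 : ℝ) ≤ 5 * p * v.d := by exact_mod_cast h1
  have r2 : 201326592 * (v.a22 : ℝ) ≤ 5 * p * v.d := by exact_mod_cast h2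
  have r3 : 201326592 * (v.a33 : ℝ) ≤ 5 * p * v.d := by exact_mod_cast h3
  have r4 : 201326592 * ((v.a11 : ℝ) + v.a22) ≤ 5 * p * v.d + 402653184 * v.a12 := by
    exact_mod_cast h4
  have r5 : 201326592 * ((v.a11 : ℝ) + v.a33) ≤ 5 * p * v.d + 402653184 * v.a13 := by
    exact_mod_cast h5
  have r6 : 201326592 * ((v.a22 : ℝ) + v.a33) ≤ 5 * p * v.d + 402653184 * v.a23 := by
    exact_mod_cast h6
  refine ⟨(vsm_sound h0).1, ?_, ?_⟩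
  · rw [← hv.d]
    exact_mod_cast hd
  · rw [← hv.d]
    intro x hx
    rw [hv.adj]
    unfold ΦD at hx
    fin_cases hx <;> simp [rv] <;> linarith

/-- the condition `vli2` -/
theorem vli2_sound {p u : ℕ} {v : Vt} (h : vli2 p u v = true) :
    p * v.e ≤ 2 ^ 33 ∧ u * (v.a11 + v.a22 + v.a33 + (v.a12 + v.a13 + v.a23)) ≤ 2 ^ 66 ∧
      ∀ x ∈ ΦE, (p : ℝ) * qf (formOf v.L) x ≤ 2 ^ 30 := by
  unfold vli2 at h
  simp only [cnd_and, Nat.mul_eq, Nat.add_eq] at h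
  obtain ⟨h0, h1, h2, h3, h4, h5, h6, h7⟩ := h
  have h1 := Nat.le_of_ble_eq_true h1
  have h2 := Nat.le_of_ble_eq_true h2
  have h3 := Nat.le_of_ble_eq_true h3
  have h4 := Nat.le_of_ble_eq_true h4
  have h5 := Nat.le_of_ble_eq_true h5
  have h6 := Nat.le_of_ble_eq_true h6
  have h7 := Nat.le_of_ble_eq_true h7
  have r1 : (p : ℝ) * ((v.l0 : ℝ) + v.l2 + v.l4) ≤ 1073741824 := by exact_mod_cast h1
  have r2 : (p : ℝ) * ((v.l0 : ℝ) + v.l3 + v.l5) ≤ 1073741824 := by exact_mod_cast h2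
  have r3 : (p : ℝ) * ((v.l1 : ℝ) + v.l2 + v.l5) ≤ 1073741824 := by exact_mod_cast h3
  have r4 : (p : ℝ) * ((v.l2 : ℝ) + v.l4 + (v.l3 + v.l5)) ≤ 1073741824 := by exact_mod_cast h4
  have r5 : (p : ℝ) * ((v.l0 : ℝ) + v.l4 + (v.l1 + v.l5)) ≤ 1073741824 := by exact_mod_cast h5
  have r6 : (p : ℝ) * ((v.l0 : ℝ) + v.l3 + (v.l1 + v.l2)) ≤ 1073741824 := by exact_mod_cast h6
  have r7 : (p : ℝ) * ((v.l1 : ℝ) + v.l3 + v.l4) ≤ 1073741824 := by exact_mod_cast h7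
  refine ⟨(vsm_sound h0).1, (vsm_sound h0).2, ?_⟩
  intro x hx
  rw [qf_formOf]
  unfold ΦE at hx
  fin_cases hx <;> simp [Vt.L] <;> linarith

/-! ### weights -/

/-- the weights of a vertex are positive -/
theorem s_pos {p smin : ℕ} {v : Vt} (hp : p = Nat.div smin v.s) (hd : 0 < dt v.L)
    (h : ∀ x ∈ ΦD, 3 * 2 ^ 26 * adjq v.L (rv x) ≤ 5 * (p : ℝ) * dt v.L) : 0 < v.s := by
  rcases Nat.eq_zero_or_pos v.s with h0 | h0
  · exfalso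
    have hp0 : p = 0 := by
      rw [hp, h0]
      exact Nat.div_zero smin
    have h1 := h ![1, 0, 0] (by decide)
    rw [hp0] at h1
    have h2 : 0 < adjq v.L (rv ![1, 0, 0]) := by
      have h3 := (inv_pd (formOf_pd (Vt.L_nonneg v) hd)).2 (rv ![1, 0, 0]) (by
        intro hc
        have := congrFun hc 0
        simp [rv] at this)
      rw [qr_inv_form] at h3
      exact (div_pos_iff_of_pos_right hd).mp h3
    simp only [Nat.cast_zero, mul_zero, zero_mul] at h1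
    linarith
  · exact h0

/-- the point with its weights -/
structure Pt (C : Cn) (l : Fin 6 → ℝ) (w : ℝ) (μ : Fin 6 → ℝ) : Prop where
  w0 : 0 < w
  nn : ∀ i, 0 ≤ μ i
  one : ∑ i, μ i = 1
  low : ∀ (σ : ℝ) (p : Fin 6 → ℕ), (∀ i, (((C.vs i).s * p i : ℕ) : ℝ) ≤ σ * w) →
    ∀ k, ∑ i, μ i * ((p i : ℝ) * (C.vs i).L k) ≤ σ * l k
  high : ∀ (σ : ℝ) (p : Fin 6 → ℕ), (∀ i, σ * w ≤ (((C.vs i).s * p i : ℕ) : ℝ)) →
    ∀ k, σ * l k ≤ ∑ i, μ i * ((p i : ℝ) * (C.vs i).L k)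

theorem Pt.of {C : Cn} {l : Fin 6 → ℝ} {w : ℝ} (hM : C.Mem l w) (hd : 0 < dt l)
    (hs : ∀ i, 0 < (C.vs i).s) : ∃ μ, Pt C l w μ := by
  obtain ⟨t, ht, hl, hw⟩ := hM
  have hT := sum_pos_of ht (V := fun i => (C.vs i).L) hl hd
  have hsr : ∀ i, (0 : ℝ) < (C.vs i).s := fun i => by exact_mod_cast hs i
  have hw0 : 0 < w := by
    have h0 : ∀ i, 0 ≤ t i * ((C.vs i).s : ℝ) := fun i => mul_nonneg (ht i) (hsr i).le
    rw [hw]
    rcases (Finset.sum_nonneg fun i (_ : i ∈ Finset.univ) => h0 i).eq_or_lt with h1 | h1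
    · exfalso
      have h2 : ∀ i, t i = 0 := fun i => by
        have := (Finset.sum_eq_zero_iff_of_nonneg fun i _ => h0 i).mp h1.symm i (Finset.mem_univ i)
        rcases mul_eq_zero.mp this with h3 | h3
        · exact h3
        · exact absurd h3 (hsr i).ne'
      simp [h2] at hT
    · exact h1
  refine ⟨fun i => t i * ((C.vs i).s : ℝ) / w, hw0, fun i =>
    div_nonneg (mul_nonneg (ht i) (hsr i).le) hw0.le, ?_, ?_, ?_⟩
  · rw [← Finset.sum_div, ← hw, div_self hw0.ne']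
  · intro σ p hp k
    rw [hl k, Finset.mul_sum]
    refine Finset.sum_le_sum fun i _ => ?_
    have h1 := hp i
    have h2 : 0 ≤ t i * (C.vs i).L k := mul_nonneg (ht i) (Vt.L_nonneg _ _)
    have h3 : t i * ((C.vs i).s : ℝ) / w * ((p i : ℝ) * (C.vs i).L k) =
        t i * (C.vs i).L k * ((((C.vs i).s * p i : ℕ) : ℝ) / w) := by
      push_cast
      ring
    rw [h3]
    have h4 : (((C.vs i).s * p i : ℕ) : ℝ) / w ≤ σ := by
      rw [div_le_iff₀ hw0]; exact h1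
    calc _ ≤ t i * (C.vs i).L k * σ := mul_le_mul_of_nonneg_left h4 h2
      _ = _ := by ring
  · intro σ p hp k
    rw [hl k, Finset.mul_sum]
    refine Finset.sum_le_sum fun i _ => ?_
    have h1 := hp i
    have h2 : 0 ≤ t i * (C.vs i).L k := mul_nonneg (ht i) (Vt.L_nonneg _ _)
    have h3 : t i * ((C.vs i).s : ℝ) / w * ((p i : ℝ) * (C.vs i).L k) =
        t i * (C.vs i).L k * ((((C.vs i).s * p i : ℕ) : ℝ) / w) := by
      push_cast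
      ring
    rw [h3]
    have h4 : σ ≤ (((C.vs i).s * p i : ℕ) : ℝ) / w := by
      rw [le_div_iff₀ hw0]; exact h1
    calc _ = t i * (C.vs i).L k * σ := by ring
      _ ≤ _ := mul_le_mul_of_nonneg_left h4 h2

/-! ### lengths -/

theorem conv_eq (C n T k N : ℕ) :
    Nat.mul (Nat.add (Nat.mul C n) (Nat.shiftLeft T k)) N = (C * n + T * 2 ^ k) * N := by
  show (C * n + T <<< k) * N = _
  rw [Nat.shiftLeft_eq]

/-- the length from the packed comparison -/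
theorem len_of {c b : ℕ} {μ : Fin 6 → ℝ} (hμ : ∀ i, 0 ≤ μ i) (h1 : ∑ i, μ i = 1) {M : Mx 3}
    {f0 f1 f2 f3 f4 f5 : ℕ} (h : SF c b μ M f0 f1 f2 f3 f4 f5) {v : Vx} (hv : v.OK)
    (hb : 200 * (c + b) + 20 * 2 ^ 58 < 2 ^ 255) {k T : ℕ} (hT : T ≤ 20) (hk : k ≤ 58)
    (hp : pge6 (ev v f0 f1 f2 f3 f4 f5)
      (Nat.mul (Nat.add (Nat.mul c v.n) (Nat.shiftLeft T k)) ON) = true) :
    (T : ℝ) * 2 ^ k ≤ qf M v.vec := by
  rw [conv_eq] at hp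
  have hk2 : (2 : ℕ) ^ k ≤ 2 ^ 58 := Nat.pow_le_pow_right (by norm_num) hk
  have hT2 : T * 2 ^ k ≤ 20 * 2 ^ 58 := Nat.mul_le_mul hT hk2
  have hn := hv.n200
  have hc1 : c * v.n ≤ 200 * c := by
    rw [mul_comm c]
    exact Nat.mul_le_mul_right c hn
  have hc2 : v.n * (c + b) ≤ 200 * (c + b) := Nat.mul_le_mul_right _ hn
  have hX : c * v.n + T * 2 ^ k < 2 ^ 255 :=
    lt_of_le_of_lt (Nat.add_le_add (hc1.trans (Nat.mul_le_mul_left 200 (Nat.le_add_right c b))) hT2)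
      hb
  have hc3 : 200 * (c + b) < 2 ^ 255 := lt_of_le_of_lt (Nat.le_add_right _ _) hb
  have h256 : (2 : ℕ) ^ 255 < 2 ^ 256 := by norm_num
  obtain ⟨hR, hlv⟩ := ev_sound h hv (hc3.trans h256)
  have hY := R6.cst (hX.trans h256)
  have hle := pge6_le hR hY (lt_of_le_of_lt hc2 hc3) hX hp
  have h2 := lv_mono hμ hle
  rw [hlv, lv_cst (hX.trans h256) h1] at h2
  push_cast at h2
  linarith

theorem half_sub {HB K : Lst} (hHB : Half HB.vecs) {D : List Vx}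
    (h : (K.toList ++ D).Perm HB.toList) : Half K.vecs := by
  have hsub : ∀ x ∈ K.vecs, x ∈ HB.vecs := by
    intro x hx
    obtain ⟨v, hv, rfl⟩ := List.mem_map.mp hx
    exact List.mem_map_of_mem (h.mem_iff.mp (List.mem_append_left _ hv))
  refine ⟨?_, fun x hx => hHB.2.1 x (hsub x hx), fun x hx hc => hHB.2.2 x (hsub x hx) (hsub _ hc)⟩
  have h2 : ((K.toList ++ D).map Vx.vec).Nodup := ((h.map Vx.vec).nodup_iff).mpr hHB.1
  rw [List.map_append] at h2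
  exact (List.nodup_append'.mp h2).1

theorem boxD_length : boxD.toList.length = 335 := by decide +kernel

theorem boxE_length : boxE.toList.length = 280 := by decide +kernel

/-! ### packed entries -/

theorem sS_le {a b u : ℕ} (h : R6 a b u) (hb : b ≤ 2 ^ 66) : sS u ≤ 2 ^ 15 := by
  have h1 := mod_le h
  have h2 : sS u = u % BM1 / 13510798882111488 := rfl
  rw [h2]
  have h3 : u % BM1 ≤ 13510798882111488 * 2 ^ 15 := by
    refine h1.trans ?_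
    calc 6 * b ≤ 6 * 2 ^ 66 := Nat.mul_le_mul_left _ hb
      _ = 13510798882111488 * 2 ^ 15 := by norm_num
  exact Nat.div_le_of_le_mul h3

theorem pkm_L {C : Cn} {p0 p1 p2 p3 p4 p5 : ℕ}
    (hb : ∀ i, (![p0, p1, p2, p3, p4, p5] : Fin 6 → ℕ) i * (C.vs i).e ≤ 2 ^ 33) (μ : Fin 6 → ℝ)
    {f : Vt → ℕ} (hf : ∀ i, f (C.vs i) ≤ (C.vs i).e) {k : Fin 6}
    (hk : ∀ i, (f (C.vs i) : ℝ) = (C.vs i).L k) :
    R6 0 (2 ^ 33) (C.pkm p0 p1 p2 p3 p4 p5 f) ∧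
      lv μ (C.pkm p0 p1 p2 p3 p4 p5 f) =
        ∑ i, μ i * (((![p0, p1, p2, p3, p4, p5] : Fin 6 → ℕ) i : ℝ) * (C.vs i).L k) := by
  obtain ⟨h1, h2⟩ := pkm_sound (C := C) (m0 := p0) (m1 := p1) (m2 := p2) (m3 := p3) (m4 := p4)
    (m5 := p5) (b := 2 ^ 33) (f := f) (by norm_num)
    (fun i => (Nat.mul_le_mul_left _ (hf i)).trans (hb i)) μ
  refine ⟨h1, ?_⟩
  rw [h2]
  refine Finset.sum_congr rfl fun i _ => ?_
  rw [Nat.cast_mul, hk i]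

/-- the six packed Selling parameters -/
theorem pkm_6 {C : Cn} (hC : C.WF) {p0 p1 p2 p3 p4 p5 : ℕ}
    (hb : ∀ i, (![p0, p1, p2, p3, p4, p5] : Fin 6 → ℕ) i * (C.vs i).e ≤ 2 ^ 33) (μ : Fin 6 → ℝ) :
    (R6 0 (2 ^ 33) (C.pkm p0 p1 p2 p3 p4 p5 Vt.l0) ∧ R6 0 (2 ^ 33) (C.pkm p0 p1 p2 p3 p4 p5 Vt.l1) ∧
      R6 0 (2 ^ 33) (C.pkm p0 p1 p2 p3 p4 p5 Vt.l2) ∧ R6 0 (2 ^ 33) (C.pkm p0 p1 p2 p3 p4 p5 Vt.l3) ∧
      R6 0 (2 ^ 33) (C.pkm p0 p1 p2 p3 p4 p5 Vt.l4) ∧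
      R6 0 (2 ^ 33) (C.pkm p0 p1 p2 p3 p4 p5 Vt.l5)) ∧
    (![lv μ (C.pkm p0 p1 p2 p3 p4 p5 Vt.l0), lv μ (C.pkm p0 p1 p2 p3 p4 p5 Vt.l1),
      lv μ (C.pkm p0 p1 p2 p3 p4 p5 Vt.l2), lv μ (C.pkm p0 p1 p2 p3 p4 p5 Vt.l3),
      lv μ (C.pkm p0 p1 p2 p3 p4 p5 Vt.l4), lv μ (C.pkm p0 p1 p2 p3 p4 p5 Vt.l5)] : Fin 6 → ℝ) =
      fun k => ∑ i, μ i * (((![p0, p1, p2, p3, p4, p5] : Fin 6 → ℕ) i : ℝ) * (C.vs i).L k) := by
  obtain ⟨h0, e0⟩ := pkm_L hb μ (f := Vt.l0) (k := 0) (fun i => (hC i).le_e.1) (fun i => rfl)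
  obtain ⟨h1, e1⟩ := pkm_L hb μ (f := Vt.l1) (k := 1) (fun i => (hC i).le_e.2.1) (fun i => rfl)
  obtain ⟨h2, e2⟩ := pkm_L hb μ (f := Vt.l2) (k := 2) (fun i => (hC i).le_e.2.2.1) (fun i => rfl)
  obtain ⟨h3, e3⟩ := pkm_L hb μ (f := Vt.l3) (k := 3) (fun i => (hC i).le_e.2.2.2.1) (fun i => rfl)
  obtain ⟨h4, e4⟩ := pkm_L hb μ (f := Vt.l4) (k := 4) (fun i => (hC i).le_e.2.2.2.2.1) (fun i => rfl)
  obtain ⟨h5, e5⟩ := pkm_L hb μ (f := Vt.l5) (k := 5) (fun i => (hC i).le_e.2.2.2.2.2) (fun i => rfl)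
  refine ⟨⟨h0, h1, h2, h3, h4, h5⟩, ?_⟩
  funext k
  fin_cases k
  · exact e0
  · exact e1
  · exact e2
  · exact e3
  · exact e4
  · exact e5

/-- the side of the form -/
theorem sideD {C : Cn} (hC : C.WF) {l : Fin 6 → ℝ} {σ : ℝ} {μ : Fin 6 → ℝ} (hμ : ∀ i, 0 ≤ μ i)
    (h1 : ∑ i, μ i = 1) {p0 p1 p2 p3 p4 p5 : ℕ}
    (hb : ∀ i, (![p0, p1, p2, p3, p4, p5] : Fin 6 → ℕ) i * (C.vs i).e ≤ 2 ^ 33)
    (hlow : ∀ k, ∑ i, μ i * (((![p0, p1, p2, p3, p4, p5] : Fin 6 → ℕ) i : ℝ) * (C.vs i).L k) ≤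
      σ * l k) {v : Vx} (hv : v.OK) {T : ℕ} (hT : T ≤ 20)
    (hp : pge6 (ev v (C.pkm p0 p1 p2 p3 p4 p5 Vt.l0) (C.pkm p0 p1 p2 p3 p4 p5 Vt.l1)
      (C.pkm p0 p1 p2 p3 p4 p5 Vt.l2) (C.pkm p0 p1 p2 p3 p4 p5 Vt.l3)
      (C.pkm p0 p1 p2 p3 p4 p5 Vt.l4) (C.pkm p0 p1 p2 p3 p4 p5 Vt.l5))
      (Nat.mul (Nat.add (Nat.mul 0 v.n) (Nat.shiftLeft T 26)) ON) = true) :
    (T : ℝ) ≤ qf (Aσ l σ) v.vec := by
  obtain ⟨⟨b0, b1, b2, b3, b4, b5⟩, e⟩ := pkm_6 hC hb μ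
  have hSF : SF 0 (2 ^ 33) μ (formOf fun k =>
      ∑ i, μ i * (((![p0, p1, p2, p3, p4, p5] : Fin 6 → ℕ) i : ℝ) * (C.vs i).L k))
      (C.pkm p0 p1 p2 p3 p4 p5 Vt.l0) (C.pkm p0 p1 p2 p3 p4 p5 Vt.l1)
      (C.pkm p0 p1 p2 p3 p4 p5 Vt.l2) (C.pkm p0 p1 p2 p3 p4 p5 Vt.l3)
      (C.pkm p0 p1 p2 p3 p4 p5 Vt.l4) (C.pkm p0 p1 p2 p3 p4 p5 Vt.l5) := by
    refine ⟨b0.mono (by norm_num) (by norm_num), b1.mono (by norm_num) (by norm_num),
      b2.mono (by norm_num) (by norm_num), b3.mono (by norm_num) (by norm_num),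
      b4.mono (by norm_num) (by norm_num), b5.mono (by norm_num) (by norm_num), ?_⟩
    rw [← e]
    simp only [Nat.cast_zero, sub_zero]
  have h2 := len_of hμ h1 hSF hv (by norm_num) hT (by norm_num) hp
  have h3 := qf_formOf_mono hlow v.vec
  have h4 : qf (Aσ l σ) v.vec = 1 / 2 ^ 26 * qf (formOf fun k => σ * l k) v.vec := by
    unfold Aσ qf
    rw [qr_smul]
  rw [h4]
  have h5 : (T : ℝ) * 2 ^ 26 ≤ qf (formOf fun k => σ * l k) v.vec := h2.trans h3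
  linarith

/-- the dual side -/
theorem sideE {C : Cn} (hC : C.WF) {l : Fin 6 → ℝ} {μ : Fin 6 → ℝ} (hμ : ∀ i, 0 ≤ μ i)
    (h1 : ∑ i, μ i = 1) {p0 p1 p2 p3 p4 p5 m0 m1 m2 m3 m4 m5 : ℕ}
    (hb : ∀ i, (![p0, p1, p2, p3, p4, p5] : Fin 6 → ℕ) i * (C.vs i).e ≤ 2 ^ 33)
    (hm : ∀ i, (![m0, m1, m2, m3, m4, m5] : Fin 6 → ℕ) i * ((C.vs i).a11 + (C.vs i).a22 +
      (C.vs i).a33 + ((C.vs i).a12 + (C.vs i).a13 + (C.vs i).a23)) ≤ 2 ^ 66)
    (g : ℕ → ℕ → ℕ → ℕ → ℕ → ℕ → Bool)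
    (h : forT (C.pkm p0 p1 p2 p3 p4 p5 Vt.l0) (C.pkm p0 p1 p2 p3 p4 p5 Vt.l1)
      (C.pkm p0 p1 p2 p3 p4 p5 Vt.l2) (C.pkm p0 p1 p2 p3 p4 p5 Vt.l3)
      (C.pkm p0 p1 p2 p3 p4 p5 Vt.l4) (C.pkm p0 p1 p2 p3 p4 p5 Vt.l5)
      (C.pkm m0 m1 m2 m3 m4 m5 Vt.a11) (C.pkm m0 m1 m2 m3 m4 m5 Vt.a12)
      (C.pkm m0 m1 m2 m3 m4 m5 Vt.a13) (C.pkm m0 m1 m2 m3 m4 m5 Vt.a22)
      (C.pkm m0 m1 m2 m3 m4 m5 Vt.a23) (C.pkm m0 m1 m2 m3 m4 m5 Vt.a33)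
      (fun p11 n11 p12 n12 p13 n13 p22 n22 p23 n23 p33 n33 =>
        coefs 38685626227668133590597632 p11 n11 p12 n12 p13 n13 p22 n22 p23 n23 p33 n33 g) =
      true) :
    ∃ t0 t1 t2 t3 t4 t5, g t0 t1 t2 t3 t4 t5 = true ∧ ∀ σ : ℝ, PD (Aσ l σ) →
      (∀ k, σ * l k ≤
        ∑ i, μ i * (((![p0, p1, p2, p3, p4, p5] : Fin 6 → ℕ) i : ℝ) * (C.vs i).L k)) →
      ∀ v : Vx, v.OK → ∀ T : ℕ, T ≤ 20 → pge6 (ev v t0 t1 t2 t3 t4 t5)
        (Nat.mul (Nat.add (Nat.mul 38685626227668133590597632 v.n) (Nat.shiftLeft T 58)) ON) =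
          true → (T : ℝ) ≤ qf (Pd (Aσ l σ)) v.vec := by
  obtain ⟨⟨b0, b1, b2, b3, b4, b5⟩, e⟩ := pkm_6 hC hb μ
  have hu : ∀ f : Vt → ℕ, (∀ i, f (C.vs i) ≤ (C.vs i).a11 + (C.vs i).a22 +
      (C.vs i).a33 + ((C.vs i).a12 + (C.vs i).a13 + (C.vs i).a23)) →
      sS (C.pkm m0 m1 m2 m3 m4 m5 f) ≤ 2 ^ 15 := fun f hf =>
    sS_le (pkm_sound (C := C) (m0 := m0) (m1 := m1) (m2 := m2) (m3 := m3) (m4 := m4)
      (m5 := m5) (b := 2 ^ 66) (f := f) (by norm_num)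
      (fun i => (Nat.mul_le_mul_left _ (hf i)).trans (hm i)) μ).1 le_rfl
  obtain ⟨S, hS, p11, n11, p12, n12, p13, n13, p22, n22, p23, n23, p33, n33, h2, h3⟩ :=
    forT_sound h1 ⟨b0, b1, b2, b3, b4, b5⟩
      ⟨hu Vt.a11 fun i => by omega, hu Vt.a12 fun i => by omega, hu Vt.a13 fun i => by omega,
        hu Vt.a22 fun i => by omega, hu Vt.a23 fun i => by omega, hu Vt.a33 fun i => by omega⟩
      (fun p11 n11 p12 n12 p13 n13 p22 n22 p23 n23 p33 n33 =>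
        coefs 38685626227668133590597632 p11 n11 p12 n12 p13 n13 p22 n22 p23 n23 p33 n33 g)
  rw [h2] at h
  obtain ⟨t0, t1, t2, t3, t4, t5, h4, h5⟩ := coefs_sound h1 h3 (c := 38685626227668133590597632)
    (by norm_num) (by norm_num) g
  have h' : coefs 38685626227668133590597632 p11 n11 p12 n12 p13 n13 p22 n22 p23 n23 p33 n33 g =
    true := h
  rw [h4] at h'
  refine ⟨t0, t1, t2, t3, t4, t5, h', ?_⟩
  intro σ hA hhigh v hv T hT hp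
  have h6 := len_of hμ h1 h5 hv (by norm_num) hT (by norm_num) hp
  have h7 : ∀ (c : ℝ) (M : Mx 3), qf (c • M) v.vec = c * qf M v.vec := fun c M => by
    unfold qf
    rw [qr_smul]
  rw [h7] at h6
  set W : Mx 3 := formOf ![lv μ (C.pkm p0 p1 p2 p3 p4 p5 Vt.l0) / 2 ^ 26,
    lv μ (C.pkm p0 p1 p2 p3 p4 p5 Vt.l1) / 2 ^ 26, lv μ (C.pkm p0 p1 p2 p3 p4 p5 Vt.l2) / 2 ^ 26,
    lv μ (C.pkm p0 p1 p2 p3 p4 p5 Vt.l3) / 2 ^ 26, lv μ (C.pkm p0 p1 p2 p3 p4 p5 Vt.l4) / 2 ^ 26,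
    lv μ (C.pkm p0 p1 p2 p3 p4 p5 Vt.l5) / 2 ^ 26] with hW
  have h8 : Aσ l σ = formOf fun k => 1 / 2 ^ 26 * (σ * l k) := (formOf_smul _ _).symm
  have h9 : ∀ v : Fin 3 → ℝ, qr (Aσ l σ) v ≤ qr W v := by
    intro x
    rw [h8, hW]
    refine qr_formOf_mono (fun k => ?_) x
    have h10 := hhigh k
    have h11 := congrFun e k
    rw [← h11] at h10
    fin_cases k <;> simp at h10 ⊢ <;> linarith
  have h12 := low_dual hA h9 hS inv_pi_sq_le v.vec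
  have h13 : (T : ℝ) ≤ qf (Tf S (26561 / 2 ^ 18) W) v.vec := by
    have : (0 : ℝ) < 2 ^ 58 := by positivity
    nlinarith
  exact h13.trans h12

/-! ### the main theorem -/

/-- soundness of the `li` nodes -/
theorem li_sound {l : Fin 6 → ℝ} {w : ℝ} (hl : ∀ k, 0 ≤ l k) (hd : 0 < dt l) (E : Env) (C : Cn)
    (hC : C.WF) (hM : C.Mem l w) (hE : IEnv l w E) (md me smin smax : ℕ) (hs1 : E.smin ≤ smin)
    (hs2 : smax ≤ E.smax) (g : Lst → Lst → ℕ → ℕ → Bool)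
    (h : liNode md me smin smax E.L1 E.L2 E.τ1 E.τ2 C g = true) :
    ∃ L1 L2 τ1 τ2, g L1 L2 τ1 τ2 = true ∧
      IEnv l w ⟨L1, L2, τ1, τ2, smin, smax, 215888603272, 31, 65543⟩ ∧
      IEnv l w ⟨L1, L2, τ1, τ2, smin, smax, 183505312781, 19, 83720⟩ := by
  unfold liNode at h
  simp only [cnd_and] at h
  obtain ⟨a0, a1, a2, a3, a4, a5, h⟩ := h
  obtain ⟨L1, τ1, D1, hg1, hp1, hD1, hs1'⟩ := liL_sound _ _ _ _ h
  simp only [cnd_and] at hg1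
  obtain ⟨ht1, b0, b1, b2, b3, b4, b5, hg1⟩ := hg1
  obtain ⟨p, hp⟩ : ∃ p : Fin 6 → ℕ, p = fun i => Nat.div smin (C.vs i).s := ⟨_, rfl⟩
  have hpe : (![Nat.div smin C.v0.s, Nat.div smin C.v1.s, Nat.div smin C.v2.s,
      Nat.div smin C.v3.s, Nat.div smin C.v4.s, Nat.div smin C.v5.s] : Fin 6 → ℕ) = p := by
    rw [hp]
    funext i
    fin_cases i <;> rfl
  have ha : ∀ i, vli1 (p i) (C.vs i) = true := by
    intro i
    rw [hp]
    fin_cases i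
    · exact a0
    · exact a1
    · exact a2
    · exact a3
    · exact a4
    · exact a5
  obtain ⟨q, hq⟩ : ∃ q : Fin 6 → ℕ, q = fun i => Nat.add (Nat.div smax (C.vs i).s) 1 := ⟨_, rfl⟩
  have hqe : (![Nat.add (Nat.div smax C.v0.s) 1, Nat.add (Nat.div smax C.v1.s) 1,
      Nat.add (Nat.div smax C.v2.s) 1, Nat.add (Nat.div smax C.v3.s) 1,
      Nat.add (Nat.div smax C.v4.s) 1, Nat.add (Nat.div smax C.v5.s) 1] : Fin 6 → ℕ) = q := by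
    rw [hq]
    funext i
    fin_cases i <;> rfl
  obtain ⟨m, hm⟩ : ∃ m : Fin 6 → ℕ, m = fun i => rhu (q i) (C.vs i) := ⟨_, rfl⟩
  have hme : (![rhu (Nat.add (Nat.div smax C.v0.s) 1) C.v0, rhu (Nat.add (Nat.div smax C.v1.s) 1) C.v1,
      rhu (Nat.add (Nat.div smax C.v2.s) 1) C.v2, rhu (Nat.add (Nat.div smax C.v3.s) 1) C.v3,
      rhu (Nat.add (Nat.div smax C.v4.s) 1) C.v4, rhu (Nat.add (Nat.div smax C.v5.s) 1) C.v5] :
      Fin 6 → ℕ) = m := by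
    rw [hm, hq]
    funext i
    fin_cases i <;> rfl
  have hb : ∀ i, vli2 (q i) (m i) (C.vs i) = true := by
    intro i
    rw [hm, hq]
    fin_cases i
    · exact b0
    · exact b1
    · exact b2
    · exact b3
    · exact b4
    · exact b5
  have hA := fun i => vli1_sound (hC i) (ha i)
  have hB := fun i => vli2_sound (hb i)
  have hsp : ∀ i, 0 < (C.vs i).s := fun i =>
    s_pos (p := p i) (smin := smin) (by rw [hp]) (hA i).2.1 (hA i).2.2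
  obtain ⟨μ, hP⟩ := Pt.of hM hd hsp
  obtain ⟨t0, t1, t2, t3, t4, t5, hg2, hdual⟩ := sideE hC hP.nn hP.one
    (by rw [hqe]; exact fun i => (hB i).1) (by rw [hme]; exact fun i => (hB i).2.1) _ hg1
  obtain ⟨L2, τ2, D2, hg3, hp2, hD2, hs2'⟩ := liL_sound _ _ _ _ hg2
  simp only [cnd_and] at hg3
  obtain ⟨ht2, hg3⟩ := hg3
  have hp1' : (L1.toList ++ D1.map Prod.fst).Perm E.L1.toList := by
    rwa [Lst.toList_nil, List.append_nil] at hp1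
  have hp2' : (L2.toList ++ D2.map Prod.fst).Perm E.L2.toList := by
    rwa [Lst.toList_nil, List.append_nil] at hp2
  -- the range of the scale
  have hlow : ∀ σ : ℝ, (smin : ℝ) ≤ σ * w → ∀ k, ∑ i, μ i * ((p i : ℝ) * (C.vs i).L k) ≤ σ * l k := by
    intro σ hσ
    refine hP.low σ p fun i => le_trans ?_ hσ
    have h1 : (C.vs i).s * p i ≤ smin := by
      rw [hp]
      exact Nat.mul_div_le smin (C.vs i).s
    exact_mod_cast h1
  have hhigh : ∀ σ : ℝ, σ * w ≤ (smax : ℝ) → ∀ k, σ * l k ≤ ∑ i, μ i * ((q i : ℝ) * (C.vs i).L k) := by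
    intro σ hσ
    refine hP.high σ q fun i => le_trans hσ ?_
    have h1 : smax ≤ (C.vs i).s * q i := by
      rw [hq]
      exact (Nat.lt_mul_div_succ smax (hsp i)).le
    exact_mod_cast h1
  have hinv : ∀ σ : ℝ, 0 < σ → (smin : ℝ) ≤ σ * w → σ * w ≤ smax →
      Inv boxD.toList L1.toList τ1 (Aσ l σ) ∧ Inv boxE.toList L2.toList τ2 (Pd (Aσ l σ)) := by
    intro σ hσ h1 h2
    have h3 : (E.smin : ℝ) ≤ σ * w := le_trans (by exact_mod_cast hs1) h1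
    have h4 : σ * w ≤ (E.smax : ℝ) := h2.trans (by exact_mod_cast hs2)
    obtain ⟨i1, i2⟩ := hE.inv σ hσ h3 h4
    constructor
    · refine i1.loop hp1' hD1 hs1' fun v hv T hT hpg => ?_
      obtain ⟨D, hD⟩ := hE.sub1
      refine sideD hC hP.nn hP.one (by rw [hpe]; exact fun i => (hA i).1)
        (by rw [hpe]; exact hlow σ h1) (boxD_OK v (hD.mem_iff.mp (List.mem_append_left _ hv))) hT hpg
    · refine i2.loop hp2' hD2 hs2' fun v hv T hT hpg => ?_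
      obtain ⟨D, hD⟩ := hE.sub2
      exact hdual σ (Aσ_pd hl hd hσ) (by rw [hqe]; exact hhigh σ h2) v
        (boxE_OK v (hD.mem_iff.mp (List.mem_append_left _ hv))) T hT hpg
  have hsub1 : ∃ D, (L1.toList ++ D).Perm boxD.toList := by
    obtain ⟨D, hD⟩ := hE.sub1
    refine ⟨D1.map Prod.fst ++ D, ?_⟩
    rw [← List.append_assoc]
    exact (hp1'.append_right D).trans hD
  have hsub2 : ∃ D, (L2.toList ++ D).Perm boxE.toList := by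
    obtain ⟨D, hD⟩ := hE.sub2
    refine ⟨D2.map Prod.fst ++ D, ?_⟩
    rw [← List.append_assoc]
    exact (hp2'.append_right D).trans hD
  have hqsum : ∀ (p : Fin 6 → ℕ) (v : Fin 3 → ℤ),
      qf (formOf fun k => ∑ i, μ i * ((p i : ℝ) * (C.vs i).L k)) v =
        ∑ i, μ i * ((p i : ℝ) * qf (formOf (C.vs i).L) v) := by
    intro p v
    unfold qf
    rw [qr_formOf_sum (μ := fun i => μ i * p i) (V := fun i => (C.vs i).L) fun k =>
      Finset.sum_congr rfl fun i _ => by ring]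
    exact Finset.sum_congr rfl fun i _ => by ring
  have hAq : ∀ (σ : ℝ) (v : Fin 3 → ℤ),
      qf (Aσ l σ) v = 1 / 2 ^ 26 * qf (formOf fun k => σ * l k) v := fun σ v => by
    unfold Aσ qf
    rw [qr_smul]
  have htail : ∀ σ : ℝ, 0 < σ → (smin : ℝ) ≤ σ * w → σ * w ≤ smax →
      TailOK (Aσ l σ) L1.vecs (488 / 10 ^ 6) 10 ∧
        TailOK (Pd (Aσ l σ)) L2.vecs (488 / 10 ^ 6) 10 := by
    intro σ hσ h1 h2
    obtain ⟨i1, i2⟩ := hinv σ hσ h1 h2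
    have hPD := Aσ_pd hl hd hσ
    constructor
    · refine i1.tail hPD boxD_half (Nat.le_of_ble_eq_true ht1) ΦD single_ΦD covD ?_
      intro v hv x
      have h8 : Aσ l σ = formOf fun k => 1 / 2 ^ 26 * (σ * l k) := (formOf_smul _ _).symm
      rw [h8]
      refine hdD (V := fun i => (C.vs i).L) (fun i => Vt.L_nonneg _) (fun i => (hA i).2.1)
        (p := fun i => (p i : ℝ)) hP.nn hP.one (fun i => (hA i).2.2 v hv) (fun k => ?_) x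
      have h9 := hlow σ h1 k
      have h10 : (2 : ℝ) ^ 26 * (1 / 2 ^ 26 * (σ * l k)) = σ * l k := by
        rw [← mul_assoc]
        norm_num
      rw [h10]
      exact h9
    · refine i2.tail (Pd_pd hPD) boxE_half (Nat.le_of_ble_eq_true ht2) ΦE single_ΦE covE ?_
      intro v hv x
      refine hdE hPD ?_ x
      rw [hAq]
      have h9 := qf_formOf_mono (hhigh σ h2) v
      rw [hqsum] at h9
      have h10 : ∑ i, μ i * ((q i : ℝ) * qf (formOf (C.vs i).L) v) ≤ ∑ i, μ i * 2 ^ 30 :=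
        comb_le hP.nn fun i => (hB i).2.2 v hv
      rw [← Finset.sum_mul, hP.one, one_mul] at h10
      have h11 : (1 / 2 ^ 26 : ℝ) * 2 ^ 30 = 16 := by norm_num
      calc _ ≤ (1 / 2 ^ 26 : ℝ) * 2 ^ 30 :=
            mul_le_mul_of_nonneg_left (h9.trans h10) (by positivity)
        _ = 16 := h11
  have hleaf : ∀ kc dk ck : ℕ, ((dk = 31 ∧ ck = 65543) ∨ (dk = 19 ∧ ck = 83720)) →
      IEnv l w ⟨L1, L2, τ1, τ2, smin, smax, kc, dk, ck⟩ := by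
    intro kc dk ck htri
    refine ⟨hsub1, hsub2, hinv, fun _ => ?_⟩
    obtain ⟨D1', hD1'⟩ := hsub1
    obtain ⟨D2', hD2'⟩ := hsub2
    refine ⟨half_sub boxD_half hD1', half_sub boxE_half hD2', fun v hv => ?_, fun v hv => ?_,
      ?_, ?_, htri, htail⟩
    · exact boxD_OK v (hD1'.mem_iff.mp (List.mem_append_left _ hv))
    · exact boxE_OK v (hD2'.mem_iff.mp (List.mem_append_left _ hv))
    · have := hD1'.length_eq
      rw [List.length_append, boxD_length] at this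
      show L1.toList.length ≤ 335
      omega
    · have := hD2'.length_eq
      rw [List.length_append, boxE_length] at this
      show L2.toList.length ≤ 280
      omega
  exact ⟨L1, L2, τ1, τ2, hg3, hleaf _ _ _ (Or.inl ⟨rfl, rfl⟩), hleaf _ _ _ (Or.inr ⟨rfl, rfl⟩)⟩

end Pool.Agent.Lib.EPX
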