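import Pool.Agent.Lib.EPL.SidC
import Pool.Agent.Lib.EPX.ChkX

/-!
# EPX.PkS: semantics of the packed numbers of the checker

`fk w k`: the field number `k` of `w` (fields of 256 bits). `R6 a b w`: `w` is a 6-packed number with all
fields in `[a, b]`; `lv l w` is its value at the weights `l : Fin 6 → ℝ`. `W35 b w`: `w` is a 35-packed
number with all fields at most `b`; `qv l w` is its value. The value of a product is the product of the
values (`qv_prod`).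
-/

namespace Pool.Agent.Lib.EPX

open Pool.Agent.Lib.EPL

/-- the field number `k` -/
def fk (w k : ℕ) : ℕ := w / (2 ^ 256) ^ k % 2 ^ 256

/-- a number of `N` digits with respect to the base `2 ^ 256` -/
theorem fk_of_repn {N w : ℕ} {f : ℕ → ℕ} (h : RepN N (2 ^ 256) w f) (hf : ∀ k < N, f k < 2 ^ 256) :
    w < (2 ^ 256) ^ N ∧ (∀ k < N, fk w k = f k) ∧ ∀ k, N ≤ k → fk w k = 0 := by
  unfold RepN at h
  unfold fk
  generalize hB : (2 : ℕ) ^ 256 = B at *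
  have hB0 : 0 < B := by rw [← hB]; positivity
  have hlt : ∀ (n : ℕ) (g : ℕ → ℕ), (∀ k < n, g k < B) → ∑ k ∈ Finset.range n, g k * B ^ k < B ^ n := by
    intro n g
    induction n with
    | zero => intro _; simp
    | succ n ih =>
      intro hg
      rw [Finset.sum_range_succ, pow_succ]
      have h1 := ih fun k hk => hg k (by omega)
      have h2 : g n ≤ B - 1 := by have := hg n (by omega); omega
      have h3 : g n * B ^ n ≤ (B - 1) * B ^ n := Nat.mul_le_mul_right _ h2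
      have h4 : (B - 1) * B ^ n + B ^ n = B ^ n * B := by
        obtain ⟨c, rfl⟩ : ∃ c, B = c + 1 := ⟨B - 1, by omega⟩
        simp only [Nat.add_sub_cancel]
        ring
      omega
  refine ⟨by rw [h]; exact hlt N f hf, ?_, ?_⟩
  · intro k hk
    have hsplit : ∑ i ∈ Finset.range N, f i * B ^ i = ∑ i ∈ Finset.range k, f i * B ^ i +
        B ^ k * (f k + B * ∑ i ∈ Finset.range (N - k - 1), f (k + 1 + i) * B ^ i) := by
      have e1 : N = k + (1 + (N - k - 1)) := by omega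
      conv_lhs => rw [e1]
      rw [Finset.sum_range_add, Finset.sum_range_add]
      simp only [Finset.range_one, Finset.sum_singleton, add_zero]
      rw [mul_add, Finset.mul_sum, Finset.mul_sum]
      congr 1
      congr 1
      · ring
      · refine Finset.sum_congr rfl fun i _ => ?_
        rw [show k + (1 + i) = k + 1 + i by ring, pow_add, pow_add, pow_one]
        ring
    rw [h, hsplit]
    have h1 := hlt k f fun i hi => hf i (by omega)
    rw [Nat.add_mul_div_left _ _ (pow_pos hB0 k), Nat.div_eq_of_lt h1, zero_add,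
      Nat.add_mul_mod_self_left, Nat.mod_eq_of_lt (hf k hk)]
  · intro k hk
    have h1 := hlt N f hf
    rw [← h] at h1
    have h2 : w < B ^ k := lt_of_lt_of_le h1 (Nat.pow_le_pow_right hB0 hk)
    rw [Nat.div_eq_of_lt h2, Nat.zero_mod]

/-- a number is the sum of its fields -/
theorem repn_fk {N w : ℕ} (h : w < (2 ^ 256) ^ N) : RepN N (2 ^ 256) w (fk w) := by
  unfold RepN fk
  generalize hB : (2 : ℕ) ^ 256 = B at *
  have hB0 : 0 < B := by rw [← hB]; positivity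
  induction N generalizing w with
  | zero => simp at h; simp [h]
  | succ N ih =>
    rw [Finset.sum_range_succ']
    have h1 : w / B < B ^ N := by
      rw [Nat.div_lt_iff_lt_mul hB0]
      rw [pow_succ] at h
      exact h
    have h2 := ih h1
    have h3 : ∀ k, w / B / B ^ k = w / B ^ (k + 1) := fun k => by
      rw [Nat.div_div_eq_div_mul, pow_succ']
    simp only [h3] at h2
    have h4 : ∑ k ∈ Finset.range N, w / B ^ (k + 1) % B * B ^ (k + 1) = B * (w / B) := by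
      conv_rhs => rw [h2]
      rw [Finset.mul_sum]
      exact Finset.sum_congr rfl fun k _ => by rw [pow_succ]; ring
    rw [h4]
    simp only [pow_zero, Nat.div_one, mul_one]
    exact (Nat.div_add_mod w B).symm

theorem fk_lt (w k : ℕ) : fk w k < 2 ^ 256 := Nat.mod_lt _ (by positivity)

theorem gp_lt (i : Fin 6) : gp i < 18 := SidAux.gp_lt i

/-- a 6-packed number with the fields in `[a, b]` -/
structure R6 (a b w : ℕ) : Prop where
  lt : w < (2 ^ 256) ^ 18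
  supp : Supp (fk w)
  lo : ∀ i, a ≤ fk w (gp i)
  hi : ∀ i, fk w (gp i) ≤ b

/-- a 35-packed number with the fields at most `b` -/
structure W35 (b w : ℕ) : Prop where
  lt : w < (2 ^ 256) ^ 35
  hi : ∀ k, fk w k ≤ b

/-- the value of a 6-packed number -/
noncomputable def lv (l : Fin 6 → ℝ) (w : ℕ) : ℝ := lin l (fk w)

/-- the value of a 35-packed number -/
noncomputable def qv (l : Fin 6 → ℝ) (w : ℕ) : ℝ := qdr l (fk w)

theorem R6.rep {a b w : ℕ} (h : R6 a b w) : RepN 18 (2 ^ 256) w (fk w) := repn_fk h.lt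

theorem W35.rep {b w : ℕ} (h : W35 b w) : RepN 35 (2 ^ 256) w (fk w) := repn_fk h.lt

theorem R6.mono {a b a' b' w : ℕ} (h : R6 a b w) (h1 : a' ≤ a) (h2 : b ≤ b') : R6 a' b' w :=
  ⟨h.lt, h.supp, fun i => h1.trans (h.lo i), fun i => (h.hi i).trans h2⟩

theorem R6.up {a b b' w : ℕ} (h : R6 a b w) (h2 : b ≤ b') : R6 0 b' w := h.mono (Nat.zero_le _) h2

theorem W35.mono {b b' w : ℕ} (h : W35 b w) (h2 : b ≤ b') : W35 b' w :=
  ⟨h.lt, fun k => (h.hi k).trans h2⟩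

/-- recognition of a 6-packed number -/
theorem R6.of' {a b w : ℕ} {f : ℕ → ℕ} (h : RepN 18 (2 ^ 256) w f) (hs : Supp f)
    (h1 : ∀ i, a ≤ f (gp i)) (h2 : ∀ i, f (gp i) ≤ b) (hb : ∀ i, f (gp i) < 2 ^ 256) :
    R6 a b w ∧ ∀ k, fk w k = f k := by
  have hf : ∀ k, f k < 2 ^ 256 := by
    intro k
    by_cases hk : ∀ i, k ≠ gp i
    · rw [hs k hk]; positivity
    · push Not at hk
      obtain ⟨i, rfl⟩ := hk
      exact hb i
  obtain ⟨e1, e2, e3⟩ := fk_of_repn h fun k _ => hf k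
  have e4 : ∀ k, fk w k = f k := by
    intro k
    rcases lt_or_ge k 18 with hk | hk
    · exact e2 k hk
    · rw [e3 k hk, supp_zero_of_ge hs hk]
  refine ⟨⟨e1, ?_, ?_, ?_⟩, e4⟩
  · intro k hk
    rw [e4, hs k hk]
  · intro i
    rw [e4]; exact h1 i
  · intro i
    rw [e4]; exact h2 i

theorem R6.of {a b w : ℕ} {f : ℕ → ℕ} (h : RepN 18 (2 ^ 256) w f) (hs : Supp f)
    (h1 : ∀ i, a ≤ f (gp i)) (h2 : ∀ i, f (gp i) ≤ b) (hb : b < 2 ^ 256) :
    R6 a b w ∧ ∀ k, fk w k = f k := R6.of' h hs h1 h2 fun i => (h2 i).trans_lt hb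

/-- recognition of a 35-packed number -/
theorem W35.of {b w : ℕ} {f : ℕ → ℕ} (h : RepN 35 (2 ^ 256) w f) (h2 : ∀ k < 35, f k ≤ b)
    (hb : b < 2 ^ 256) : W35 b w ∧ ∀ k < 35, fk w k = f k := by
  obtain ⟨e1, e2, e3⟩ := fk_of_repn h fun k hk => (h2 k hk).trans_lt hb
  refine ⟨⟨e1, fun k => ?_⟩, e2⟩
  rcases lt_or_ge k 35 with hk | hk
  · rw [e2 k hk]; exact h2 k hk
  · rw [e3 k hk]; exact Nat.zero_le _

theorem lin_congr {l : Fin 6 → ℝ} {f g : ℕ → ℕ} (h : ∀ i, f (gp i) = g (gp i)) :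
    lin l f = lin l g := by
  unfold lin
  exact Finset.sum_congr rfl fun i _ => by rw [h i]

theorem qdr_congr {l : Fin 6 → ℝ} {f g : ℕ → ℕ} (h : ∀ k < 35, f k = g k) :
    qdr l f = qdr l g := by
  unfold qdr
  refine Finset.sum_congr rfl fun i _ => Finset.sum_congr rfl fun j _ => ?_
  have h1 := gp_lt i
  have h2 := gp_lt j
  rw [h _ (by omega)]

/-! ### 6-packed numbers -/

theorem R6.zero : R6 0 0 0 := by
  refine ⟨by positivity, fun k _ => ?_, fun i => Nat.zero_le _, fun i => ?_⟩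
  · unfold fk; simp
  · unfold fk; simp

theorem lv_zero (l : Fin 6 → ℝ) : lv l 0 = 0 := by
  unfold lv lin fk
  simp

theorem R6.add_aux {a b c d x y : ℕ} (hx : R6 a b x) (hy : R6 c d y) (h : b + d < 2 ^ 256) :
    R6 (a + c) (b + d) (x + y) ∧ ∀ k, fk (x + y) k = fk x k + fk y k :=
  R6.of (repn_add hx.rep hy.rep) (supp_add hx.supp hy.supp)
    (fun i => Nat.add_le_add (hx.lo i) (hy.lo i)) (fun i => Nat.add_le_add (hx.hi i) (hy.hi i)) h

theorem R6.add {a b c d x y : ℕ} (hx : R6 a b x) (hy : R6 c d y) (h : b + d < 2 ^ 256) :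
    R6 (a + c) (b + d) (x + y) := (hx.add_aux hy h).1

theorem R6.lv_add {a b c d x y : ℕ} (hx : R6 a b x) (hy : R6 c d y) (h : b + d < 2 ^ 256)
    (l : Fin 6 → ℝ) : lv l (x + y) = lv l x + lv l y := by
  unfold lv
  rw [← lin_add]
  exact lin_congr fun i => (hx.add_aux hy h).2 _

theorem R6.mul_aux {a b x : ℕ} (c : ℕ) (hx : R6 a b x) (h : c * b < 2 ^ 256) :
    R6 (c * a) (c * b) (c * x) ∧ ∀ k, fk (c * x) k = c * fk x k :=
  R6.of (repn_mul c hx.rep) (supp_mul c hx.supp)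
    (fun i => Nat.mul_le_mul_left _ (hx.lo i)) (fun i => Nat.mul_le_mul_left _ (hx.hi i)) h

theorem R6.mul {a b x : ℕ} (c : ℕ) (hx : R6 a b x) (h : c * b < 2 ^ 256) :
    R6 (c * a) (c * b) (c * x) := (hx.mul_aux c h).1

theorem R6.lv_mul {a b x : ℕ} (c : ℕ) (hx : R6 a b x) (h : c * b < 2 ^ 256)
    (l : Fin 6 → ℝ) : lv l (c * x) = c * lv l x := by
  unfold lv
  rw [← lin_mul]
  exact lin_congr fun i => (hx.mul_aux c h).2 _

/-- subtraction if the fields of the second number are smaller -/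
theorem R6.sub_aux {a b c d x y : ℕ} (hx : R6 a b x) (hy : R6 c d y)
    (h : ∀ i, fk y (gp i) ≤ fk x (gp i)) :
    R6 (a - d) (b - c) (x - y) ∧ ∀ k, fk (x - y) k = fk x k - fk y k := by
  refine R6.of' (repn_sub hx.rep hy.rep ?_) ?_ (fun i => tsub_le_tsub (hx.lo i) (hy.hi i))
    (fun i => tsub_le_tsub (hx.hi i) (hy.lo i)) (fun i => ?_)
  · intro k _
    by_cases hk : ∀ i, k ≠ gp i
    · rw [hy.supp k hk]; exact Nat.zero_le _
    · push Not at hk
      obtain ⟨i, rfl⟩ := hk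
      exact h i
  · intro k hk
    show fk x k - fk y k = 0
    rw [hx.supp k hk, Nat.zero_sub]
  · exact (Nat.sub_le _ _).trans_lt (fk_lt x _)

theorem R6.sub {a b c d x y : ℕ} (hx : R6 a b x) (hy : R6 c d y)
    (h : ∀ i, fk y (gp i) ≤ fk x (gp i)) : R6 (a - d) (b - c) (x - y) := (hx.sub_aux hy h).1

theorem R6.lv_sub {a b c d x y : ℕ} (hx : R6 a b x) (hy : R6 c d y)
    (h : ∀ i, fk y (gp i) ≤ fk x (gp i)) (l : Fin 6 → ℝ) : lv l (x - y) = lv l x - lv l y := by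
  have h1 := (hx.sub_aux hy h).2
  unfold lv lin
  rw [← Finset.sum_sub_distrib]
  refine Finset.sum_congr rfl fun i _ => ?_
  rw [h1, Nat.cast_sub (h i)]
  ring

/-- the fields of `y` are at most those of `x`, from the bounds -/
theorem R6.le_of {a b c d x y : ℕ} (hx : R6 a b x) (hy : R6 c d y) (h : d ≤ a) (i : Fin 6) :
    fk y (gp i) ≤ fk x (gp i) := (hy.hi i).trans (h.trans (hx.lo i))

theorem lv_mono {l : Fin 6 → ℝ} (hl : ∀ i, 0 ≤ l i) {x y : ℕ}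
    (h : ∀ i, fk y (gp i) ≤ fk x (gp i)) : lv l y ≤ lv l x := by
  unfold lv lin
  exact Finset.sum_le_sum fun i _ => mul_le_mul_of_nonneg_left (Nat.cast_le.2 (h i)) (hl i)

theorem R6.lv_le {a b x : ℕ} (hx : R6 a b x) {l : Fin 6 → ℝ} (hl : ∀ i, 0 ≤ l i)
    (h1 : ∑ i, l i = 1) : lv l x ≤ b := by
  unfold lv lin
  have h2 : ∑ i, l i * (fk x (gp i) : ℝ) ≤ ∑ i, l i * (b : ℝ) :=
    Finset.sum_le_sum fun i _ => mul_le_mul_of_nonneg_left (Nat.cast_le.2 (hx.hi i)) (hl i)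
  rwa [← Finset.sum_mul, h1, one_mul] at h2

theorem R6.le_lv {a b x : ℕ} (hx : R6 a b x) {l : Fin 6 → ℝ} (hl : ∀ i, 0 ≤ l i)
    (h1 : ∑ i, l i = 1) : (a : ℝ) ≤ lv l x := by
  unfold lv lin
  have h2 : ∑ i, l i * (a : ℝ) ≤ ∑ i, l i * (fk x (gp i) : ℝ) :=
    Finset.sum_le_sum fun i _ => mul_le_mul_of_nonneg_left (Nat.cast_le.2 (hx.lo i)) (hl i)
  rwa [← Finset.sum_mul, h1, one_mul] at h2

theorem lv_nonneg {l : Fin 6 → ℝ} (hl : ∀ i, 0 ≤ l i) (x : ℕ) : 0 ≤ lv l x := by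
  unfold lv lin
  exact Finset.sum_nonneg fun i _ => mul_nonneg (hl i) (Nat.cast_nonneg _)

/-- six fields -/
theorem R6.pk {a0 a1 a2 a3 a4 a5 a b : ℕ} (h0 : a ≤ a0 ∧ a0 ≤ b) (h1 : a ≤ a1 ∧ a1 ≤ b)
    (h2 : a ≤ a2 ∧ a2 ≤ b) (h3 : a ≤ a3 ∧ a3 ≤ b) (h4 : a ≤ a4 ∧ a4 ≤ b) (h5 : a ≤ a5 ∧ a5 ≤ b)
    (hb : b < 2 ^ 256) : R6 a b (pk6 a0 a1 a2 a3 a4 a5) ∧
      ∀ i : Fin 6, fk (pk6 a0 a1 a2 a3 a4 a5) (gp i) = (![a0, a1, a2, a3, a4, a5] : Fin 6 → ℕ) i := by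
  have e : pk6 a0 a1 a2 a3 a4 a5 = a0 + a1 * (2 ^ 256) + a2 * (2 ^ 256) ^ 4 +
      a3 * (2 ^ 256) ^ 10 + a4 * (2 ^ 256) ^ 12 + a5 * (2 ^ 256) ^ 17 := by
    unfold pk6
    simp only [Nat.add_eq, Nat.shiftLeft_eq', Nat.shiftLeft_eq]
    rw [show (2 : ℕ) ^ 1280 = (2 ^ 256) ^ 5 by rw [← pow_mul],
      show (2 : ℕ) ^ 512 = (2 ^ 256) ^ 2 by rw [← pow_mul],
      show (2 : ℕ) ^ 1536 = (2 ^ 256) ^ 6 by rw [← pow_mul],
      show (2 : ℕ) ^ 768 = (2 ^ 256) ^ 3 by rw [← pow_mul]]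
    generalize (2 : ℕ) ^ 256 = B
    ring
  have h := repn_pk (2 ^ 256) a0 a1 a2 a3 a4 a5
  rw [← e] at h
  have hs : Supp (fun k => if k = 0 then a0 else if k = 1 then a1 else if k = 4 then a2 else
        if k = 10 then a3 else if k = 12 then a4 else if k = 17 then a5 else 0) := by
    intro k hk
    have g0 : k ≠ 0 := hk 0
    have g1 : k ≠ 1 := hk 1
    have g2 : k ≠ 4 := hk 2
    have g3 : k ≠ 10 := hk 3
    have g4 : k ≠ 12 := hk 4
    have g5 : k ≠ 17 := hk 5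
    simp [g0, g1, g2, g3, g4, g5]
  have hf : ∀ i : Fin 6, (if gp i = 0 then a0 else if gp i = 1 then a1 else if gp i = 4 then a2 else
        if gp i = 10 then a3 else if gp i = 12 then a4 else if gp i = 17 then a5 else 0) =
        (![a0, a1, a2, a3, a4, a5] : Fin 6 → ℕ) i := by
    intro i
    fin_cases i <;> simp [gp]
  have hab : ∀ i : Fin 6, a ≤ (![a0, a1, a2, a3, a4, a5] : Fin 6 → ℕ) i ∧
      (![a0, a1, a2, a3, a4, a5] : Fin 6 → ℕ) i ≤ b := by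
    intro i
    fin_cases i
    exacts [h0, h1, h2, h3, h4, h5]
  obtain ⟨r1, r2⟩ := R6.of (a := a) (b := b) h hs (fun i => by rw [hf]; exact (hab i).1)
    (fun i => by rw [hf]; exact (hab i).2) hb
  exact ⟨r1, fun i => (r2 _).trans (hf i)⟩

theorem lv_pk {a0 a1 a2 a3 a4 a5 b : ℕ} (h0 : a0 ≤ b) (h1 : a1 ≤ b)
    (h2 : a2 ≤ b) (h3 : a3 ≤ b) (h4 : a4 ≤ b) (h5 : a5 ≤ b) (hb : b < 2 ^ 256) (l : Fin 6 → ℝ) :
    lv l (pk6 a0 a1 a2 a3 a4 a5) = l 0 * a0 + l 1 * a1 + l 2 * a2 + l 3 * a3 + l 4 * a4 +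
      l 5 * a5 := by
  have h := (R6.pk (a := 0) (b := b) ⟨Nat.zero_le _, h0⟩ ⟨Nat.zero_le _, h1⟩ ⟨Nat.zero_le _, h2⟩
    ⟨Nat.zero_le _, h3⟩ ⟨Nat.zero_le _, h4⟩ ⟨Nat.zero_le _, h5⟩ hb).2
  unfold lv lin
  rw [Fin.sum_univ_six, h, h, h, h, h, h]
  rfl

theorem ON_eq : ON = pk6 1 1 1 1 1 1 := by decide +kernel

theorem R6.one : R6 1 1 ON := by
  rw [ON_eq]
  exact (R6.pk ⟨le_rfl, le_rfl⟩ ⟨le_rfl, le_rfl⟩ ⟨le_rfl, le_rfl⟩ ⟨le_rfl, le_rfl⟩ ⟨le_rfl, le_rfl⟩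
    ⟨le_rfl, le_rfl⟩ (by norm_num)).1

theorem lv_one (l : Fin 6 → ℝ) : lv l ON = ∑ i, l i := by
  rw [ON_eq, lv_pk le_rfl le_rfl le_rfl le_rfl le_rfl le_rfl (by norm_num), Fin.sum_univ_six]
  simp

/-- constants -/
theorem R6.cst {c : ℕ} (hc : c < 2 ^ 256) : R6 c c (c * ON) := by
  have h := R6.one.mul c (by omega)
  simpa using h

theorem lv_cst {c : ℕ} (hc : c < 2 ^ 256) {l : Fin 6 → ℝ} (h1 : ∑ i, l i = 1) :
    lv l (c * ON) = c := by
  rw [R6.one.lv_mul c (by omega), lv_one, h1, mul_one]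

/-! ### 35-packed numbers -/

theorem W35.zero : W35 0 0 := by
  refine ⟨by positivity, fun k => ?_⟩
  unfold fk; simp

theorem qv_zero (l : Fin 6 → ℝ) : qv l 0 = 0 := by
  unfold qv qdr fk
  simp

theorem W35.add_aux {b d x y : ℕ} (hx : W35 b x) (hy : W35 d y) (h : b + d < 2 ^ 256) :
    W35 (b + d) (x + y) ∧ ∀ k < 35, fk (x + y) k = fk x k + fk y k :=
  W35.of (repn_add hx.rep hy.rep) (fun k _ => Nat.add_le_add (hx.hi k) (hy.hi k)) h

theorem W35.add {b d x y : ℕ} (hx : W35 b x) (hy : W35 d y) (h : b + d < 2 ^ 256) :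
    W35 (b + d) (x + y) := (hx.add_aux hy h).1

theorem W35.qv_add {b d x y : ℕ} (hx : W35 b x) (hy : W35 d y) (h : b + d < 2 ^ 256)
    (l : Fin 6 → ℝ) : qv l (x + y) = qv l x + qv l y := by
  unfold qv
  rw [← qdr_add]
  exact qdr_congr (hx.add_aux hy h).2

theorem W35.mul_aux {b x : ℕ} (c : ℕ) (hx : W35 b x) (h : c * b < 2 ^ 256) :
    W35 (c * b) (c * x) ∧ ∀ k < 35, fk (c * x) k = c * fk x k :=
  W35.of (repn_mul c hx.rep) (fun k _ => Nat.mul_le_mul_left _ (hx.hi k)) h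

theorem W35.mul {b x : ℕ} (c : ℕ) (hx : W35 b x) (h : c * b < 2 ^ 256) :
    W35 (c * b) (c * x) := (hx.mul_aux c h).1

theorem W35.qv_mul {b x : ℕ} (c : ℕ) (hx : W35 b x) (h : c * b < 2 ^ 256)
    (l : Fin 6 → ℝ) : qv l (c * x) = c * qv l x := by
  unfold qv
  rw [← qdr_mul]
  exact qdr_congr (hx.mul_aux c h).2

/-- the product of 6-packed numbers -/
theorem R6.prod_aux {a b c d x y : ℕ} (hx : R6 a b x) (hy : R6 c d y) (h : 2 * (b * d) < 2 ^ 256) :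
    W35 (2 * (b * d)) (x * y) ∧ ∀ k < 35, fk (x * y) k = conv (fk x) (fk y) k :=
  W35.of (repn_conv hx.rep hy.rep hx.supp hy.supp)
    (fun k _ => conv_le hx.supp hy.supp hx.hi hy.hi k) h

theorem R6.prod {a b c d x y : ℕ} (hx : R6 a b x) (hy : R6 c d y) (h : 2 * (b * d) < 2 ^ 256) :
    W35 (2 * (b * d)) (x * y) := (hx.prod_aux hy h).1

theorem R6.qv_prod {a b c d x y : ℕ} (hx : R6 a b x) (hy : R6 c d y) (h : 2 * (b * d) < 2 ^ 256)
    (l : Fin 6 → ℝ) : qv l (x * y) = lv l x * lv l y := by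
  unfold qv lv
  rw [← qdr_conv l hx.supp hy.supp]
  exact qdr_congr (hx.prod_aux hy h).2

theorem qv_mono {l : Fin 6 → ℝ} (hl : ∀ i, 0 ≤ l i) {x y : ℕ}
    (h : ∀ k < 35, fk y k ≤ fk x k) : qv l y ≤ qv l x := qdr_mono hl h

theorem qv_nonneg {l : Fin 6 → ℝ} (hl : ∀ i, 0 ≤ l i) (x : ℕ) : 0 ≤ qv l x := by
  unfold qv qdr
  refine Finset.sum_nonneg fun i _ => Finset.sum_nonneg fun j _ => ?_
  split_ifs
  · exact mul_nonneg (mul_nonneg (hl i) (hl j)) (Nat.cast_nonneg _)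
  · exact le_rfl

theorem ON2_eq : ON2 = ON * ON := by decide +kernel

theorem W35.one : W35 2 ON2 := by
  rw [ON2_eq]
  exact R6.one.prod R6.one (by norm_num)

theorem qv_one {l : Fin 6 → ℝ} (h1 : ∑ i, l i = 1) : qv l ON2 = 1 := by
  rw [ON2_eq, R6.one.qv_prod R6.one (by norm_num), lv_one, h1, mul_one]

end Pool.Agent.Lib.EPX
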