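import Pool.Agent.Lib.EPX.ItS
import Pool.Agent.Lib.EPX.WtS

/-!
# EPX.SelS: the parts of a list of items

By induction on the list (equations of `It.sel` etc. are `rfl`, conditionals by `cases` on the boolean).
`intB_sound`: `grid_spec` for `k' = 52` with `BadI.lo`, `BadI.hi`: `64 ≤ m1` (there is a field with
`64 * 2 ^ 52 ≤ fk < (m1 + 1) * 2 ^ 52`) and `m2 ≤ 1024`; `wC_sound_h` (file WtS) and
`R6.qv_prod`: the summand is at least `lv l a * 2 ^ 94 * hw T = 2 ^ 154 * (lv l a / 2 ^ 60) * hw T`.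
`intG_sound`: `wT_sound_h`. The bounds are `2 ^ 212` for each item (at most `300` items).
For the induction generalize the accumulator.
-/

namespace Pool.Agent.Lib.EPX

open Pool.Agent.Lib.EPL

namespace SelSAux

/-! ### equations -/

theorem sel_cons (q p a m : ℕ) (t : It) (M : ℕ) :
    (It.cons q p a m t).sel M = cnd (Nat.beq (M % 2) 1) (.cons q p a m (t.sel (M / 2)))
      (t.sel (M / 2)) := rfl

theorem rest_cons (q p a m : ℕ) (t : It) (M : ℕ) :
    (It.cons q p a m t).rest M = cnd (Nat.beq (M % 2) 1) (t.rest (M / 2))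
      (.cons q (10 * p) a m (t.rest (M / 2))) := rfl

/-- the recursion of `intB` -/
noncomputable def iB (G : It) (f : ℕ → Bool) : ℕ → Bool :=
  It.rec (motive := fun _ => Nat → Bool) (fun s => f s) (fun q _ a _ _ ih s => grid 52 q (fun m1
    m2 => ih (Nat.add s (Nat.mul a (wC UH 58 m1 m2 q))))) G

theorem intB_eq (G : It) (f : ℕ → Bool) : G.intB f = iB G f 0 := rfl

theorem iB_nil (f : ℕ → Bool) (s : ℕ) : iB .nil f s = f s := rfl

theorem iB_cons (q p a m : ℕ) (t : It) (f : ℕ → Bool) (s : ℕ) :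
    iB (.cons q p a m t) f s = grid 52 q (fun m1 m2 => iB t f (s + a * wC UH 58 m1 m2 q)) := rfl

/-- the recursion of `intG` -/
noncomputable def iG (Bs G : It) (f : ℕ → Bool) : ℕ → Bool :=
  It.rec (motive := fun _ => Nat → Bool) (fun s => f s) (fun q _ a m _ ih s => cnd (lngr Bs q)
    (wT TH 58 m q (fun W => ih (Nat.add s (Nat.mul a W))) (ih s)) (ih s)) G

theorem intG_eq (Bs G : It) (f : ℕ → Bool) : It.intG Bs G f = iG Bs G f 0 := rfl

theorem iG_nil (Bs : It) (f : ℕ → Bool) (s : ℕ) : iG Bs .nil f s = f s := rfl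

theorem iG_cons (Bs : It) (q p a m : ℕ) (t : It) (f : ℕ → Bool) (s : ℕ) :
    iG Bs (.cons q p a m t) f s = cnd (lngr Bs q)
      (wT TH 58 m q (fun W => iG Bs t f (s + a * W)) (iG Bs t f s)) (iG Bs t f s) := rfl

theorem share_cons (Bs : It) (th q p a m : ℕ) (t : It) :
    It.share Bs th (.cons q p a m t) =
      .cons q (cnd (lngr Bs q) th 10 * p) a m (It.share Bs th t) := rfl

/-- `lngr` with a general comparison -/
noncomputable def lngF (F : ℕ → ℕ → Bool) (Bs : It) (u : ℕ) : Bool :=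
  It.rec (motive := fun _ => Bool) true (fun q _ _ _ _ ih => cnd (F u q) ih false) Bs

theorem lngF_cons (F : ℕ → ℕ → Bool) (q p a m : ℕ) (t : It) (u : ℕ) :
    lngF F (.cons q p a m t) u = cnd (F u q) (lngF F t u) false := rfl

theorem lngr_eq (Bs : It) (u : ℕ) : lngr Bs u = lngF pge6 Bs u := by
  unfold lngr lngF
  exact Eq.refl _

/-- the grid indices of a bad item -/
theorem grid_bad {l : Fin 6 → ℝ} {i : IT} (hi : BadI l 58 52 (2 ^ 102) i) {f : ℕ → ℕ → Bool}
    (h : grid 52 i.q f = true) : ∃ m1 m2, f m1 m2 = true ∧ 64 ≤ m1 ∧ m1 < m2 ∧ m2 ≤ 1024 ∧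
      (∀ j, m1 * 2 ^ 52 ≤ fk i.q (gp j) ∧ fk i.q (gp j) < m2 * 2 ^ 52) := by
  obtain ⟨m1, m2, hf, hlt, hg, ⟨j1, h1⟩, ⟨j2, h2⟩⟩ := grid_spec hi.q h
  refine ⟨m1, m2, hf, ?_, hlt, ?_, hg⟩
  · have h3 := hi.lo j1
    have h4 : 64 * 2 ^ 52 < (m1 + 1) * 2 ^ 52 := h3.trans_lt h1
    have h5 : 64 < m1 + 1 := Nat.lt_of_mul_lt_mul_right h4
    omega
  · have h3 := hi.hi j2
    have h4 : (m2 - 1) * 2 ^ 52 < 1024 * 2 ^ 52 := h2.trans_lt h3
    have h5 : m2 - 1 < 1024 := Nat.lt_of_mul_lt_mul_right h4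
    omega

/-- the summand of a bad item -/
theorem item_bad {l : Fin 6 → ℝ} (h0 : ∀ i, 0 ≤ l i) (h1 : ∑ i, l i = 1) {i : IT}
    (hi : BadI l 58 52 (2 ^ 102) i) {m1 m2 : ℕ} (hm1 : 64 ≤ m1) (hm : m1 < m2) (hm2 : m2 ≤ 1024)
    (hg : ∀ j, m1 * 2 ^ 52 ≤ fk i.q (gp j) ∧ fk i.q (gp j) < m2 * 2 ^ 52) :
    W35 (2 ^ 212) (i.a * wC UH 58 m1 m2 i.q) ∧
      2 ^ 154 * (lv l i.a / 2 ^ 60 * hw (lv l i.q / 2 ^ 58)) ≤
        qv l (i.a * wC UH 58 m1 m2 i.q) := by
  obtain ⟨hR, hl⟩ := wC_sound_h h0 h1 (k := 58) (k' := 52) rfl le_rfl hi.q hm1 hm hm2 hg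
  have hb : 2 * (2 ^ 102 * 2 ^ (58 + 51)) < 2 ^ 256 := by norm_num
  refine ⟨?_, ?_⟩
  · have h2 := hi.a.prod hR hb
    exact h2.mono (by norm_num)
  · rw [hi.a.qv_prod hR hb l]
    have h3 : lv l i.a * (2 ^ (58 + 36) * hw (lv l i.q / 2 ^ 58)) ≤
        lv l i.a * lv l (wC UH 58 m1 m2 i.q) := mul_le_mul_of_nonneg_left hl (lv_nonneg h0 _)
    refine le_trans (le_of_eq ?_) h3
    have e1 : (2 : ℝ) ^ 154 = 2 ^ 60 * 2 ^ (58 + 36) := by norm_num
    rw [e1]
    have e2 : (2 : ℝ) ^ 60 ≠ 0 := by positivity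
    field_simp

theorem iB_sound {l : Fin 6 → ℝ} (h0 : ∀ i, 0 ≤ l i) (h1 : ∑ i, l i = 1) {G : It} {f : ℕ → Bool} :
    ∀ {s b : ℕ}, (∀ i ∈ G.L, BadI l 58 52 (2 ^ 102) i) → b + G.L.length * 2 ^ 212 < 2 ^ 256 →
      W35 b s → iB G f s = true →
      ∃ e, f e = true ∧ W35 (b + G.L.length * 2 ^ 212) e ∧
        qv l s + 2 ^ 154 * ((re l 58 60 G.L).map fun i => i.1 * hw i.2).sum ≤ qv l e := by
  induction G with
  | nil =>
    intro s b _ hn hs h
    refine ⟨s, h, ?_, ?_⟩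
    · simpa [It.L_nil] using hs
    · simp [It.L_nil, re]
  | cons q p a m t ih =>
    intro s b hB hn hs h
    rw [It.L_cons] at hB hn ⊢
    rw [iB_cons] at h
    have hi : BadI l 58 52 (2 ^ 102) ⟨q, p, a, m⟩ := hB _ (List.mem_cons_self ..)
    obtain ⟨m1, m2, hf, hm1, hm, hm2, hg⟩ := grid_bad (i := ⟨q, p, a, m⟩) hi h
    obtain ⟨hW, hv⟩ := item_bad h0 h1 hi hm1 hm hm2 hg
    have hlen : (⟨q, p, a, m⟩ :: t.L : List IT).length = t.L.length + 1 := rfl
    rw [hlen] at hn ⊢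
    have hn' : b + 2 ^ 212 + t.L.length * 2 ^ 212 < 2 ^ 256 := by
      have e : b + (t.L.length + 1) * 2 ^ 212 = b + 2 ^ 212 + t.L.length * 2 ^ 212 := by ring
      rw [e] at hn
      exact hn
    have hb' : b + 2 ^ 212 < 2 ^ 256 := lt_of_le_of_lt (Nat.le_add_right _ _) hn'
    obtain ⟨e, he, hWe, hqe⟩ := ih (fun i hi => hB i (List.mem_cons_of_mem _ hi)) hn'
      (hs.add hW hb') hf
    refine ⟨e, he, ?_, ?_⟩
    · have e1 : b + (t.L.length + 1) * 2 ^ 212 = b + 2 ^ 212 + t.L.length * 2 ^ 212 := by ring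
      rw [e1]
      exact hWe
    · rw [hs.qv_add hW hb' l] at hqe
      have e2 : ((re l 58 60 (⟨q, p, a, m⟩ :: t.L)).map fun i => i.1 * hw i.2).sum =
          lv l a / 2 ^ 60 * hw (lv l q / 2 ^ 58) +
            ((re l 58 60 t.L).map fun i => i.1 * hw i.2).sum := by
        simp [re]
      rw [e2, mul_add]
      have hv' : 2 ^ 154 * (lv l a / 2 ^ 60 * hw (lv l q / 2 ^ 58)) ≤
        qv l (a * wC UH 58 m1 m2 q) := hv
      linarith

theorem iG_sound {l : Fin 6 → ℝ} (h0 : ∀ i, 0 ≤ l i) (h1 : ∑ i, l i = 1) {Bs G : It}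
    {f : ℕ → Bool} :
    ∀ {s b : ℕ}, (∀ i ∈ G.L, GoodI l 58 (2 ^ 102) i) → b + G.L.length * 2 ^ 212 < 2 ^ 256 →
      W35 b s → iG Bs G f s = true →
      ∃ e, f e = true ∧ W35 (b + G.L.length * 2 ^ 212) e ∧
        qv l e ≤ qv l s + 2 ^ 154 * (G.L.map fun i => if lngr Bs i.q = true then
          lv l i.a / 2 ^ 60 * hw (lv l i.q / 2 ^ 58) else 0).sum := by
  induction G with
  | nil =>
    intro s b _ hn hs h
    refine ⟨s, h, ?_, ?_⟩
    · simpa [It.L_nil] using hs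
    · simp [It.L_nil]
  | cons q p a m t ih =>
    intro s b hB hn hs h
    rw [It.L_cons] at hB hn ⊢
    rw [iG_cons] at h
    have hi : GoodI l 58 (2 ^ 102) ⟨q, p, a, m⟩ := hB _ (List.mem_cons_self ..)
    have hlen : (⟨q, p, a, m⟩ :: t.L : List IT).length = t.L.length + 1 := rfl
    rw [hlen] at hn ⊢
    have e1 : b + (t.L.length + 1) * 2 ^ 212 = b + 2 ^ 212 + t.L.length * 2 ^ 212 := by ring
    have hn' : b + 2 ^ 212 + t.L.length * 2 ^ 212 < 2 ^ 256 := by
      rw [e1] at hn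
      exact hn
    have hn0 : b + t.L.length * 2 ^ 212 < 2 ^ 256 := by
      refine lt_of_le_of_lt ?_ hn'
      exact Nat.add_le_add_right (Nat.le_add_right _ _) _
    have hb' : b + 2 ^ 212 < 2 ^ 256 := lt_of_le_of_lt (Nat.le_add_right _ _) hn'
    rw [e1]
    rw [List.map_cons, List.sum_cons, mul_add]
    have hT := fun i hi => hB i (List.mem_cons_of_mem _ hi)
    have hnn : 0 ≤ lv l a / 2 ^ 60 * hw (lv l q / 2 ^ 58) := by
      refine mul_nonneg (div_nonneg (lv_nonneg h0 _) (by positivity)) ?_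
      exact (hw_pos (div_pos hi.pos (by positivity))).le
    have hskip : iG Bs t f s = true → ∃ e, f e = true ∧
        W35 (b + 2 ^ 212 + t.L.length * 2 ^ 212) e ∧
        qv l e ≤ qv l s + 2 ^ 154 * (t.L.map fun i => if lngr Bs i.q = true then
          lv l i.a / 2 ^ 60 * hw (lv l i.q / 2 ^ 58) else 0).sum := by
      intro h'
      obtain ⟨e, he, hWe, hqe⟩ := ih hT hn0 hs h'
      exact ⟨e, he, hWe.mono (Nat.add_le_add_right (Nat.le_add_right _ _) _), hqe⟩
    rcases cnd_true.1 h with ⟨hc, h⟩ | ⟨hc, h⟩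
    · rw [if_pos hc]
      rcases wT_sound_h h0 h1 (k := 58) le_rfl hi.q (by norm_num) hi.m hi.pos h with
        ⟨W, hf, hR, hl⟩ | hf
      · have hb : 2 * (2 ^ 102 * 2 ^ (58 + 40)) < 2 ^ 256 := by norm_num
        have hW : W35 (2 ^ 212) (a * W) := (hi.a.prod hR hb).mono (by norm_num)
        have hv : qv l (a * W) ≤ 2 ^ 154 * (lv l a / 2 ^ 60 * hw (lv l q / 2 ^ 58)) := by
          rw [hi.a.qv_prod hR hb l]
          have h3 : lv l a * lv l W ≤ lv l a * (2 ^ (58 + 36) * hw (lv l q / 2 ^ 58)) :=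
            mul_le_mul_of_nonneg_left hl (lv_nonneg h0 _)
          refine le_trans h3 (le_of_eq ?_)
          have e1 : (2 : ℝ) ^ 154 = 2 ^ 60 * 2 ^ (58 + 36) := by norm_num
          rw [e1]
          have e2 : (2 : ℝ) ^ 60 ≠ 0 := by positivity
          field_simp
        obtain ⟨e, he, hWe, hqe⟩ := ih hT hn' (hs.add hW hb') hf
        refine ⟨e, he, hWe, ?_⟩
        rw [hs.qv_add hW hb' l] at hqe
        linarith
      · obtain ⟨e, he, hWe, hqe⟩ := hskip hf
        refine ⟨e, he, hWe, ?_⟩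
        have h4 : (0 : ℝ) ≤ 2 ^ 154 * (lv l a / 2 ^ 60 * hw (lv l q / 2 ^ 58)) :=
          mul_nonneg (by positivity) hnn
        linarith
    · have hc' : ¬ lngr Bs q = true := by rw [hc]; simp
      rw [if_neg hc']
      obtain ⟨e, he, hWe, hqe⟩ := hskip h
      refine ⟨e, he, hWe, ?_⟩
      linarith

end SelSAux

open SelSAux

theorem sel_mem {G : It} {M : ℕ} {i : IT} (h : i ∈ (G.sel M).L) : i ∈ G.L := by
  induction G generalizing M with
  | nil => exact h
  | cons q p a m t ih =>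
    rw [sel_cons] at h
    rw [It.L_cons]
    cases hb : Nat.beq (M % 2) 1 with
    | false =>
      rw [hb] at h
      exact List.mem_cons_of_mem _ (ih h)
    | true =>
      rw [hb] at h
      have h' : i ∈ (⟨q, p, a, m⟩ : IT) :: (t.sel (M / 2)).L := h
      rcases List.mem_cons.1 h' with h' | h'
      · rw [h']
        exact List.mem_cons_self ..
      · exact List.mem_cons_of_mem _ (ih h')

theorem rest_mem {G : It} {M : ℕ} {i : IT} (h : i ∈ (G.rest M).L) :
    ∃ j ∈ G.L, i = ⟨j.q, 10 * j.p, j.a, j.m⟩ := by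
  induction G generalizing M with
  | nil => exact absurd (show i ∈ ([] : List IT) from h) (List.not_mem_nil)
  | cons q p a m t ih =>
    rw [rest_cons] at h
    rw [It.L_cons]
    cases hb : Nat.beq (M % 2) 1 with
    | false =>
      rw [hb] at h
      have h' : i ∈ (⟨q, 10 * p, a, m⟩ : IT) :: (t.rest (M / 2)).L := h
      rcases List.mem_cons.1 h' with h' | h'
      · exact ⟨⟨q, p, a, m⟩, List.mem_cons_self .., h'⟩
      · obtain ⟨j, hj, e⟩ := ih h'
        exact ⟨j, List.mem_cons_of_mem _ hj, e⟩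
    | true =>
      rw [hb] at h
      obtain ⟨j, hj, e⟩ := ih h
      exact ⟨j, List.mem_cons_of_mem _ hj, e⟩

theorem sel_rest_length (G : It) (M : ℕ) :
    (G.sel M).L.length + (G.rest M).L.length = G.L.length := by
  induction G generalizing M with
  | nil => rfl
  | cons q p a m t ih =>
    rw [sel_cons, rest_cons]
    have h := ih (M / 2)
    have e : (It.cons q p a m t).L.length = t.L.length + 1 := rfl
    rw [e]
    cases Nat.beq (M % 2) 1 with
    | false =>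
      show (t.sel (M / 2)).L.length + ((t.rest (M / 2)).L.length + 1) = _
      omega
    | true =>
      show (t.sel (M / 2)).L.length + 1 + (t.rest (M / 2)).L.length = _
      omega

theorem sel_rest_sum (G : It) (M : ℕ) (f : ℕ → ℕ → ℝ) :
    (G.L.map fun i => f i.q i.a).sum =
      ((G.sel M).L.map fun i => f i.q i.a).sum + ((G.rest M).L.map fun i => f i.q i.a).sum := by
  induction G generalizing M with
  | nil => simp [It.L_nil, show It.nil.sel M = It.nil from rfl, show It.nil.rest M = It.nil from rfl]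
  | cons q p a m t ih =>
    rw [sel_cons, rest_cons]
    have h := ih (M / 2)
    have e : ((It.cons q p a m t).L.map fun i => f i.q i.a).sum =
        f q a + (t.L.map fun i => f i.q i.a).sum := rfl
    rw [e, h]
    cases Nat.beq (M % 2) 1 with
    | false =>
      show _ = ((t.sel (M / 2)).L.map fun i => f i.q i.a).sum +
        (f q a + ((t.rest (M / 2)).L.map fun i => f i.q i.a).sum)
      ring
    | true =>
      show _ = (f q a + ((t.sel (M / 2)).L.map fun i => f i.q i.a).sum) +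
        ((t.rest (M / 2)).L.map fun i => f i.q i.a).sum
      ring

theorem lngr_true {Bs : It} {u : ℕ} : lngr Bs u = true ↔ ∀ b ∈ Bs.L, pge6 u b.q = true := by
  rw [lngr_eq]
  generalize pge6 = F
  induction Bs with
  | nil => simp [show lngF F .nil u = true from rfl, It.L_nil]
  | cons q p a m t ih =>
    rw [lngF_cons, cnd_and, ih, It.L_cons]
    simp

theorem share_L (Bs : It) (th : ℕ) (G : It) : (It.share Bs th G).L =
    G.L.map fun i => ⟨i.q, (if lngr Bs i.q = true then th else 10) * i.p, i.a, i.m⟩ := by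
  induction G with
  | nil => rfl
  | cons q p a m t ih =>
    rw [share_cons, It.L_cons, It.L_cons, List.map_cons, ih]
    cases h : lngr Bs q <;> simp [cnd]

theorem intB_sound {l : Fin 6 → ℝ} (h0 : ∀ i, 0 ≤ l i) (h1 : ∑ i, l i = 1) {G : It}
    (hB : ∀ i ∈ G.L, BadI l 58 52 (2 ^ 102) i) (hn : G.L.length ≤ 300) {f : ℕ → Bool}
    (h : G.intB f = true) :
    ∃ e, f e = true ∧ W35 (2 ^ 221) e ∧
      2 ^ 154 * ((re l 58 60 G.L).map fun i => i.1 * hw i.2).sum ≤ qv l e := by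
  have hn1 : G.L.length * 2 ^ 212 ≤ 300 * 2 ^ 212 := Nat.mul_le_mul_right _ hn
  have hn2 : 0 + G.L.length * 2 ^ 212 < 2 ^ 256 := by
    rw [zero_add]
    exact hn1.trans_lt (by norm_num)
  obtain ⟨e, he, hWe, hqe⟩ := iB_sound h0 h1 hB hn2 W35.zero (show iB G f 0 = true from h)
  refine ⟨e, he, hWe.mono ?_, ?_⟩
  · rw [zero_add]
    exact hn1.trans (by norm_num)
  · rw [qv_zero, zero_add] at hqe
    exact hqe

theorem intG_sound {l : Fin 6 → ℝ} (h0 : ∀ i, 0 ≤ l i) (h1 : ∑ i, l i = 1) {Bs G : It}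
    (hG : ∀ i ∈ G.L, GoodI l 58 (2 ^ 102) i) (hn : G.L.length ≤ 300) {f : ℕ → Bool}
    (h : It.intG Bs G f = true) :
    ∃ e, f e = true ∧ W35 (2 ^ 221) e ∧
      qv l e ≤ 2 ^ 154 * (G.L.map fun i => if lngr Bs i.q = true then
        lv l i.a / 2 ^ 60 * hw (lv l i.q / 2 ^ 58) else 0).sum := by
  have hn1 : G.L.length * 2 ^ 212 ≤ 300 * 2 ^ 212 := Nat.mul_le_mul_right _ hn
  have hn2 : 0 + G.L.length * 2 ^ 212 < 2 ^ 256 := by
    rw [zero_add]
    exact hn1.trans_lt (by norm_num)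
  obtain ⟨e, he, hWe, hqe⟩ := iG_sound h0 h1 hG hn2 W35.zero (show iG Bs G f 0 = true from h)
  refine ⟨e, he, hWe.mono ?_, ?_⟩
  · rw [zero_add]
    exact hn1.trans (by norm_num)
  · rw [qv_zero, zero_add] at hqe
    exact hqe

end Pool.Agent.Lib.EPX
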